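import Pool.Agent.Helper95_CLB.Chain

/-!
Extension of labels along a caterpillar: ports with labels `s 0, ..., s (m+1)` at a path of `m` vertices.
It fails only when a fork is antipodal or when the labels follow one of six rigid types.
-/

set_option autoImplicit false

namespace CLB.H95

open Finset
open H3DA (Q neg nr)

/-- Addition of masks. -/
def add (x y : Q) : Q := (xor x.1 y.1, xor x.2.1 y.2.1, xor x.2.2 y.2.2)

/-- The unit masks. -/
def eb (d : Fin 3) : Q := (d == 0, d == 1, d == 2)

/-- Types: an axis `d` of the 3-cube; `true`: the pair (stay, move along the axis), `false`: the pair of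
the two other moves. -/
abbrev Ty := Fin 3 × Bool

/-- The complementary pair. -/
def co (D : Ty) : Ty := (D.1, !D.2)

def uD (D : Ty) : Q := if D.2 then (false, false, false) else eb (D.1 + 1)

def vD (D : Ty) : Q := if D.2 then eb D.1 else eb (D.1 + 2)

/-- A step of type `D`. -/
def stp (D : Ty) (x y : Q) : Bool := y == add x (uD D) || y == add x (vD D)

/-- Two labels of a fork of type `D`. -/
def frk (D : Ty) (x y : Q) : Bool := y == add x (add (uD D) (vD D))

/-- The two labels possible at the next vertex. -/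
def prs (D : Ty) (x : Q) : Finset Q := {add x (uD D), add x (vD D)}

lemma co_co (D : Ty) : co (co D) = D := by revert D; decide

lemma add_comm' : ∀ x y : Q, add x y = add y x := by decide

lemma add_add_self : ∀ x y : Q, add (add x y) y = x := by decide

lemma add_neg_left : ∀ x y : Q, add (neg x) y = neg (add x y) := by decide

lemma frk_symm : ∀ (D : Ty) (x y : Q), frk D x y = frk D y x := by decide

lemma frk_neg : ∀ (D : Ty) (x y : Q), frk D (neg x) (neg y) = frk D x y := by decide

lemma stp_symm : ∀ (D : Ty) (x y : Q), stp D x y = stp D y x := by decide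

lemma stp_neg : ∀ (D : Ty) (x y : Q), stp D (neg x) (neg y) = stp D x y := by decide

lemma frk_ne : ∀ (D : Ty) (x y : Q), frk D x y = true → x ≠ y ∧ x ≠ neg y := by decide

lemma base_key : ∀ x y : Q, x ≠ neg y →
    3 ≤ (ball x ∩ ball y).card ∨ ∃ D : Ty, frk D x y = true ∧ ball x ∩ ball y = prs D y := by decide

lemma base_key' : ∀ (D : Ty) (x y : Q), frk D x y = true → ball x ∩ ball y = prs D y := by decide

lemma step_key : ∀ (D : Ty) (x y : Q), stp D (neg x) y = true ∨
    3 ≤ (nb (prs D x) ∩ ball y).card := by decide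

lemma step_key' : ∀ (D : Ty) (x y : Q), stp D (neg x) y = true →
    nb (prs D x) ∩ ball y = prs (co D) y := by decide

lemma end_key : ∀ (D : Ty) (x y : Q), x ≠ neg y → (∀ t ∈ prs D x, nr t y = false) →
    frk (co D) x y = true := by decide

lemma end_key' : ∀ (D : Ty) (x y : Q), frk (co D) x y = true → ∀ t ∈ prs D x, nr t y = false := by
  decide

/-- The type used at position `i`. -/
def altT (D : Ty) (i : ℕ) : Ty := if i % 2 = 1 then D else co D

lemma altT_one (D : Ty) : altT D 1 = D := by simp [altT]

lemma altT_succ (D : Ty) (i : ℕ) : altT D (i + 1) = co (altT D i) := by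
  unfold altT
  rcases Nat.mod_two_eq_zero_or_one i with h | h
  · have : (i + 1) % 2 = 1 := by omega
    rw [if_pos this, if_neg (by omega), co_co]
  · have : (i + 1) % 2 = 0 := by omega
    rw [if_neg (by omega), if_pos h]

/-- The labels `s 0, ..., s (m+1)` of the ports extend to the path. -/
def Ext (s : ℕ → Q) (m : ℕ) : Prop :=
  ∃ x : ℕ → Q, nr (s 0) (x 1) = true ∧ nr (x m) (s (m + 1)) = true ∧
    (∀ i, 1 ≤ i → i ≤ m → nr (s i) (x i) = true) ∧
    ∀ i, 1 ≤ i → i < m → nr (x i) (x (i + 1)) = true

/-- The labels are tight of type `D`. -/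
def Tight (D : Ty) (s : ℕ → Q) (m : ℕ) : Prop :=
  frk D (s 0) (s 1) = true ∧ (∀ i, 1 ≤ i → i < m → stp (altT D i) (neg (s i)) (s (i + 1)) = true) ∧
    frk (altT D (m + 1)) (s m) (s (m + 1)) = true

lemma nb_singleton (x : Q) : nb {x} = ball x := by
  ext y; rw [mem_nb, mem_ball]; simp

lemma ext_reach {s : ℕ → Q} {m : ℕ} (hm : 1 ≤ m) :
    Ext s m ↔ ∃ t ∈ reach {s 0} (fun i => ball (s i)) m, nr t (s (m + 1)) = true := by
  constructor
  · rintro ⟨x, h0, h1, h2, h3⟩
    refine ⟨x m, ?_, h1⟩
    have key : ∀ i, 1 ≤ i → i ≤ m → x i ∈ reach {s 0} (fun i => ball (s i)) i := by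
      intro i hi
      induction i, hi using Nat.le_induction with
      | base =>
        intro hm'
        rw [reach_succ, mem_inter, mem_nb]
        exact ⟨⟨s 0, by rw [reach_zero]; simp, h0⟩, mem_ball.2 (h2 1 le_rfl hm')⟩
      | succ n hn ih =>
        intro hm'
        rw [reach_succ, mem_inter, mem_nb]
        exact ⟨⟨x n, ih (by omega), h3 n hn (by omega)⟩, mem_ball.2 (h2 (n + 1) (by omega) hm')⟩
    exact key m hm le_rfl
  · rintro ⟨t, ht, htm⟩
    obtain ⟨w, h0, h1, h2, h3⟩ := reach_walk ht
    rw [mem_singleton] at h0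
    refine ⟨w, ?_, by rw [h1]; exact htm, fun i hi hi' => mem_ball.1 (h2 i (by omega) hi'),
      fun i _ hi' => h3 i hi'⟩
    have := h3 0 (by omega)
    rwa [h0] at this

lemma reach_tight {D : Ty} {s : ℕ → Q} {m : ℕ} (h0 : frk D (s 0) (s 1) = true)
    (h1 : ∀ i, 1 ≤ i → i < m → stp (altT D i) (neg (s i)) (s (i + 1)) = true) :
    ∀ i, 1 ≤ i → i ≤ m → reach {s 0} (fun i => ball (s i)) i = prs (altT D i) (s i) := by
  intro i hi
  induction i, hi using Nat.le_induction with
  | base =>
    intro _
    rw [reach_succ, reach_zero, nb_singleton, altT_one]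
    exact base_key' D _ _ h0
  | succ n hn ih =>
    intro hm'
    rw [reach_succ, ih (by omega), altT_succ]
    exact step_key' _ _ _ (h1 n hn (by omega))

lemma reach_or {s : ℕ → Q} {m : ℕ} (h0 : s 0 ≠ neg (s 1)) :
    ∀ i, 1 ≤ i → i ≤ m → 3 ≤ (reach {s 0} (fun i => ball (s i)) i).card ∨
      ∃ D : Ty, frk D (s 0) (s 1) = true ∧
        ∀ j, 1 ≤ j → j < i → stp (altT D j) (neg (s j)) (s (j + 1)) = true := by
  intro i hi
  induction i, hi using Nat.le_induction with
  | base =>
    intro _
    rcases base_key _ _ h0 with h | ⟨D, hD, -⟩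
    · left
      rw [reach_succ, reach_zero, nb_singleton]
      exact h
    · exact Or.inr ⟨D, hD, fun j hj hj' => by omega⟩
  | succ n hn ih =>
    intro hm'
    rcases ih (by omega) with h | ⟨D, hD, hD'⟩
    · left
      have h2 := nb_card3 h
      have h3 := ball_card (s (n + 1))
      have h4 := card_inter_ge (nb (reach {s 0} (fun i => ball (s i)) n)) (ball (s (n + 1)))
      rw [reach_succ]
      omega
    · have h1 := reach_tight hD hD' n hn le_rfl
      rcases step_key (altT D n) (s n) (s (n + 1)) with h2 | h2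
      · right
        refine ⟨D, hD, fun j hj hj' => ?_⟩
        by_cases hjn : j = n
        · rw [hjn]; exact h2
        · exact hD' j hj (by omega)
      · left
        rw [reach_succ, h1]
        exact h2

/-- The extension criterion. -/
theorem ext_iff {s : ℕ → Q} {m : ℕ} (hm : 1 ≤ m) :
    Ext s m ↔ s 0 ≠ neg (s 1) ∧ s m ≠ neg (s (m + 1)) ∧ ∀ D, ¬ Tight D s m := by
  constructor
  · intro h
    refine ⟨?_, ?_, ?_⟩
    · obtain ⟨x, h0, h1, h2, h3⟩ := h
      exact H3DA.nr_common (nr_symm h0) (nr_symm (h2 1 le_rfl hm))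
    · obtain ⟨x, h0, h1, h2, h3⟩ := h
      exact H3DA.nr_common (nr_symm (h2 m hm le_rfl)) h1
    · rintro D ⟨h1, h2, h3⟩
      rw [ext_reach hm, reach_tight h1 h2 m hm le_rfl] at h
      obtain ⟨t, ht, htm⟩ := h
      rw [altT_succ] at h3
      rw [end_key' _ _ _ h3 t ht] at htm
      exact absurd htm (by simp)
  · rintro ⟨h1, h2, h3⟩
    rw [ext_reach hm]
    by_contra hcon
    push Not at hcon
    rcases reach_or h1 m hm le_rfl with h | ⟨D, hD, hD'⟩
    · have hsub : reach {s 0} (fun i => ball (s i)) m ⊆ ball (s m) :=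
        reach_subset _ _ m hm
      have hdis : Disjoint (reach {s 0} (fun i => ball (s i)) m) (ball (s m) ∩ ball (s (m + 1))) := by
        rw [Finset.disjoint_left]
        intro t ht ht'
        exact hcon t ht (nr_symm (mem_ball.1 (mem_inter.1 ht').2))
      have h4 := Finset.card_le_card (Finset.union_subset hsub
        (Finset.inter_subset_left : ball (s m) ∩ ball (s (m + 1)) ⊆ ball (s m)))
      rw [Finset.card_union_of_disjoint hdis, ball_card] at h4
      have h5 := ball_inter_card _ _ h2
      omega
    · apply h3 D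
      refine ⟨hD, hD', ?_⟩
      rw [altT_succ]
      refine end_key _ _ _ h2 ?_
      intro t ht
      rw [← reach_tight hD hD' m hm le_rfl] at ht
      have := hcon t ht
      simpa using this

end CLB.H95
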