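import Pool.Agent.Helper95_CLB.Static

/-!
Static kill sets for components with both ports of a fork in the chain: at the later port of such a fork
only the label antipodal to the earlier one is excluded, all other ports have forbidden sets of size at
most two, a designated inner port one of size at most one.
-/

set_option autoImplicit false

namespace CLB.H95

open Finset
open H3DA (Q neg nr)
open CLB.H3 (CExt)

/-- The two labels before `y` in a step of type `D`. -/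
def pre (D : Ty) (y : Q) : Finset Q := {neg (add y (uD D)), neg (add y (vD D))}

lemma pre_card (D : Ty) (y : Q) : (pre D y).card ≤ 2 := Finset.card_le_two

lemma mem_pre : ∀ (D : Ty) (x y : Q), stp D (neg x) y = true → x ∈ pre D y := by decide

lemma fork_pre' : ∀ (D : Ty) (x1 y : Q), stp D (neg x1) y = true → leafL D x1 ∈ pre D y := by decide

lemma fork_pre (D : Ty) (x0 x1 y : Q) (h : stp D (neg x1) y = true) (h' : frk D x0 x1 = true) :
    x0 ∈ pre D y ∧ x1 ∈ pre D y := by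
  refine ⟨?_, mem_pre _ _ _ h⟩
  rw [frk_iff'.1 h']; exact fork_pre' D x1 y h

/-- Kill sets on the left of the position `i0`, the fork port `e` may be used. -/
def LK (m i0 e p : ℕ) (q : Q) (K : Ty → Prop) : Prop :=
  ∃ F : ℕ → Finset Q, (∀ j, (F j).card ≤ 2) ∧ (2 ≤ p → (F p).card ≤ 1) ∧
    ∀ D, K D → ∀ s : ℕ → Q, s i0 = q → Tight D s m →
      ∃ j, j < i0 ∧ (2 ≤ j ∨ j = e) ∧ s j ∈ F j

/-- One type is killed with one label at every inner port. -/
lemma fork_one {m e : ℕ} (he : e = 0 ∨ e = 1) (D : Ty) : ∀ i0, 2 ≤ i0 → i0 ≤ m → ∀ q : Q,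
    ∃ F : ℕ → Finset Q, (∀ j, (F j).card ≤ 2) ∧ (∀ j, 2 ≤ j → (F j).card ≤ 1) ∧
      ∀ s : ℕ → Q, s i0 = q → Tight D s m → ∃ j, j < i0 ∧ (2 ≤ j ∨ j = e) ∧ s j ∈ F j := by
  intro i0 hi0
  induction i0, hi0 using Nat.le_induction with
  | base =>
    intro hm q
    refine ⟨fun j => if j = e then pre D q else ∅, fun j => ?_, fun j hj => ?_, fun s hs hT => ?_⟩
    · dsimp only
      split_ifs
      · exact pre_card D q
      · simp
    · dsimp only
      rw [if_neg (by omega)]; simp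
    · have h1 := hT.2.1 1 le_rfl (by omega)
      rw [altT_one, show 1 + 1 = 2 by rfl, hs] at h1
      have h2 := fork_pre D _ _ _ h1 hT.1
      rcases he with he | he
      · refine ⟨0, by omega, Or.inr he.symm, ?_⟩
        dsimp only
        rw [if_pos he.symm]; exact h2.1
      · refine ⟨1, by omega, Or.inr he.symm, ?_⟩
        dsimp only
        rw [if_pos he.symm]; exact h2.2
  | succ n hn ih =>
    intro hm q
    obtain ⟨F, hF2, hF1, hF⟩ := ih (by omega) (neg (add q (vD (altT D n))))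
    refine ⟨fun j => if j = n then {neg (add q (uD (altT D n)))} else F j, fun j => ?_, fun j hj => ?_,
      fun s hs hT => ?_⟩
    · dsimp only
      split_ifs
      · simp
      · exact hF2 j
    · dsimp only
      split_ifs
      · simp
      · exact hF1 j hj
    · have h1 := hT.2.1 n (by omega) (by omega)
      rw [hs] at h1
      have h2 := mem_pre _ _ _ h1
      simp only [pre, mem_insert, mem_singleton] at h2
      rcases h2 with h2 | h2
      · refine ⟨n, by omega, Or.inl hn, ?_⟩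
        dsimp only
        rw [if_pos rfl, mem_singleton]; exact h2
      · obtain ⟨j, j1, j2, j3⟩ := hF s h2 hT
        refine ⟨j, by omega, j2, ?_⟩
        dsimp only
        rw [if_neg (by omega)]; exact j3

lemma LK_one {m e i0 p : ℕ} (he : e = 0 ∨ e = 1) (h1 : 2 ≤ i0) (h2 : i0 ≤ m) (q : Q) (D : Ty) :
    LK m i0 e p q (fun D' => D' = D) := by
  obtain ⟨F, hF2, hF1, hF⟩ := fork_one he D i0 h1 h2 q
  exact ⟨F, hF2, hF1 p, fun D' hD' s hs hT => by subst hD'; exact hF s hs hT⟩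

lemma LK_none {m e i0 p : ℕ} (q : Q) {K : Ty → Prop} (hK : ∀ D, ¬ K D) : LK m i0 e p q K :=
  ⟨fun _ => ∅, fun _ => by simp, fun _ => by simp, fun D hD => absurd hD (hK D)⟩

lemma two_A : ∀ (T1 T2 : Ty) (q q' : Q), T1 ≠ T2 → stp (co T1) (neg q) q' = true →
    stp (co T2) (neg q) q' = true → ∃ w, ∀ x ∈ pre T2 q, x ∉ pre T1 q → x = w := by decide +kernel

/-- The common label. -/
def cmA (T1 T2 : Ty) (q : Q) : Q :=
  if neg (add q (uD T1)) ∈ pre T2 q then neg (add q (uD T1)) else neg (add q (vD T1))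

/-- The other label. -/
def otA (T : Ty) (q a : Q) : Q :=
  if neg (add q (uD T)) = a then neg (add q (vD T)) else neg (add q (uD T))

/-- The label outside a set. -/
def otB (T : Ty) (q : Q) (A : Finset Q) : Q :=
  if neg (add q (uD T)) ∈ A then neg (add q (vD T)) else neg (add q (uD T))

lemma two_B1 : ∀ (T1 T2 : Ty) (q q' : Q), T1 ≠ T2 → stp (co T1) (neg q) q' = true →
    stp (co T2) (neg q) q' = true →
    (∀ x ∈ pre T1 q, x ≠ cmA T1 T2 q → x = otA T1 q (cmA T1 T2 q)) := by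
  decide +kernel

lemma two_B2 : ∀ (T1 T2 : Ty) (q q' : Q), T1 ≠ T2 → stp (co T1) (neg q) q' = true →
    stp (co T2) (neg q) q' = true →
    (∀ x ∈ pre T2 q, x ≠ cmA T1 T2 q → x = otA T2 q (cmA T1 T2 q)) := by
  decide +kernel

lemma two_B3 : ∀ (T1 T2 : Ty) (q q' : Q), T1 ≠ T2 → stp (co T1) (neg q) q' = true →
    stp (co T2) (neg q) q' = true →
    ∀ x ∈ pre (co T2) (otA T2 q (cmA T1 T2 q)), x ∉ pre (co T1) (otA T1 q (cmA T1 T2 q)) →
      x = otB (co T2) (otA T2 q (cmA T1 T2 q)) (pre (co T1) (otA T1 q (cmA T1 T2 q))) := by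
  decide +kernel

/-- Two types that are alive at the step after `i0` are killed. -/
lemma LK_two {m e i0 p : ℕ} (he : e = 0 ∨ e = 1) (h1 : 3 ≤ i0) (h2 : i0 < m) (q q' : Q) (D1 D2 : Ty)
    (hne : D1 ≠ D2) (ha1 : stp (altT D1 i0) (neg q) q' = true)
    (ha2 : stp (altT D2 i0) (neg q) q' = true) (hp : p + 1 = i0 → 4 ≤ i0) :
    LK m i0 e p q (fun D => D = D1 ∨ D = D2) := by
  obtain ⟨n, rfl⟩ : ∃ n, i0 = n + 1 := ⟨i0 - 1, by omega⟩
  rw [altT_succ] at ha1 ha2
  have hne' : altT D1 n ≠ altT D2 n := fun h => hne (altT_inj h)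
  by_cases hpn : p = n
  · -- the designated port is the first one
    obtain ⟨l, rfl⟩ : ∃ l, n = l + 1 := ⟨n - 1, by omega⟩
    have b1 := two_B1 _ _ _ _ hne' ha1 ha2
    have b2 := two_B2 _ _ _ _ hne' ha1 ha2
    have b3 := two_B3 _ _ _ _ hne' ha1 ha2
    set T1 := altT D1 (l + 1) with hT1
    set T2 := altT D2 (l + 1) with hT2
    set a := cmA T1 T2 q with ha
    set w1 := otA T1 q a with hw1
    set w2 := otA T2 q a with hw2
    obtain ⟨F, hF2, hF1, hF⟩ := fork_one (m := m) he D2 l (by omega) (by omega)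
      (otB (co T2) w2 (pre (co T1) w1))
    refine ⟨fun j => if j = l + 1 then {a} else if j = l then pre (co T1) w1 else F j, fun j => ?_,
      fun h3 => ?_, fun D hD s hs hT => ?_⟩
    · dsimp only
      split_ifs
      · simp
      · exact pre_card _ _
      · exact hF2 j
    · dsimp only
      rw [if_pos hpn]; simp
    · have g1 := mem_pre _ _ _ (hs ▸ hT.2.1 (l + 1) (by omega) (by omega))
      have g2 := mem_pre _ _ _ (hT.2.1 l (by omega) (by omega))
      have key : s (l + 1) = a → ∃ j, j < l + 1 + 1 ∧ (2 ≤ j ∨ j = e) ∧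
          s j ∈ (if j = l + 1 then ({a} : Finset Q) else if j = l then pre (co T1) w1 else F j) := by
        intro h
        refine ⟨l + 1, by omega, Or.inl (by omega), ?_⟩
        rw [if_pos rfl, mem_singleton]; exact h
      have key2 : s l ∈ pre (co T1) w1 → ∃ j, j < l + 1 + 1 ∧ (2 ≤ j ∨ j = e) ∧
          s j ∈ (if j = l + 1 then ({a} : Finset Q) else if j = l then pre (co T1) w1 else F j) := by
        intro h
        refine ⟨l, by omega, Or.inl (by omega), ?_⟩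
        rw [if_neg (by omega), if_pos rfl]; exact h
      have hc : ∀ D : Ty, altT D l = co (altT D (l + 1)) := by
        intro D; rw [altT_succ, co_co]
      by_cases hsa : s (l + 1) = a
      · exact key hsa
      · rcases hD with rfl | rfl
        · have e1 := b1 _ g1 hsa
          rw [hc, e1] at g2
          exact key2 g2
        · have e1 := b2 _ g1 hsa
          rw [hc, e1] at g2
          by_cases h5 : s l ∈ pre (co T1) w1
          · exact key2 h5
          · have e2 := b3 _ g2 h5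
            obtain ⟨j, j1, j2, j3⟩ := hF s e2 hT
            refine ⟨j, by omega, j2, ?_⟩
            dsimp only
            rw [if_neg (by omega), if_neg (by omega)]; exact j3
  · obtain ⟨w, hw⟩ := two_A _ _ _ _ hne' ha1 ha2
    obtain ⟨F, hF2, hF1, hF⟩ := fork_one (m := m) he D2 n (by omega) (by omega) w
    refine ⟨fun j => if j = n then pre (altT D1 n) q else F j, fun j => ?_,
      fun h3 => ?_, fun D hD s hs hT => ?_⟩
    · dsimp only
      split_ifs
      · exact pre_card _ _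
      · exact hF2 j
    · dsimp only
      rw [if_neg hpn]; exact hF1 p h3
    · have g1 := mem_pre _ _ _ (hs ▸ hT.2.1 n (by omega) (by omega))
      by_cases h5 : s n ∈ pre (altT D1 n) q
      · refine ⟨n, by omega, Or.inl (by omega), ?_⟩
        dsimp only
        rw [if_pos rfl]; exact h5
      · rcases hD with rfl | rfl
        · exact absurd g1 h5
        · obtain ⟨j, j1, j2, j3⟩ := hF s (hw _ g1 h5) hT
          refine ⟨j, by omega, j2, ?_⟩
          dsimp only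
          rw [if_neg (by omega)]; exact j3

lemma altT_parity (D : Ty) {i j : ℕ} (h : i % 2 = j % 2) : altT D i = altT D j := by
  unfold altT; rw [h]

lemma altT_altT (D : Ty) (m i : ℕ) (hi : i ≤ m) : altT (altT D (m + 1)) i = altT D (m - i) := by
  unfold altT
  split_ifs <;> first | omega | simp [co_co]

lemma altT_altT' (D : Ty) (m : ℕ) : altT (altT D (m + 1)) (m + 1) = D := by
  unfold altT
  split_ifs <;> simp [co_co]

/-- Reversal. -/
lemma Tight.rev {D : Ty} {s : ℕ → Q} {m : ℕ} (h : Tight D s m) :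
    Tight (altT D (m + 1)) (fun j => s (m + 1 - j)) m := by
  refine ⟨?_, fun i h1 h2 => ?_, ?_⟩
  · show frk _ (s (m + 1 - 0)) (s (m + 1 - 1)) = true
    rw [frk_symm]; exact h.2.2
  · show stp _ (neg (s (m + 1 - i))) (s (m + 1 - (i + 1))) = true
    rw [altT_altT D m i (by omega), stp_neg1, stp_symm]
    have := h.2.1 (m - i) (by omega) (by omega)
    rw [show m - i + 1 = m + 1 - i by omega] at this
    rw [show m + 1 - (i + 1) = m - i by omega]
    exact this
  · show frk _ (s (m + 1 - m)) (s (m + 1 - (m + 1))) = true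
    rw [altT_altT', show m + 1 - m = 1 by omega, show m + 1 - (m + 1) = 0 by omega, frk_symm]
    exact h.1

/-- Kill sets on the right of the position `i1`, the fork port `e` may be used. -/
def RKl (m i1 e p : ℕ) (q : Q) (K : Ty → Prop) : Prop :=
  ∃ F : ℕ → Finset Q, (∀ j, (F j).card ≤ 2) ∧ (p + 1 ≤ m → (F p).card ≤ 1) ∧
    ∀ D, K D → ∀ s : ℕ → Q, s i1 = q → Tight D s m →
      ∃ j, i1 < j ∧ j ≤ m + 1 ∧ (j + 1 ≤ m ∨ j = e) ∧ s j ∈ F j

lemma RKl_of_LK {m i1 e p : ℕ} {q : Q} {K : Ty → Prop} (h1 : i1 ≤ m + 1) (he : e ≤ m + 1)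
    (hp : p ≤ m + 1)
    (h : LK m (m + 1 - i1) (m + 1 - e) (m + 1 - p) q (fun D => K (altT D (m + 1)))) :
    RKl m i1 e p q K := by
  obtain ⟨F, hF2, hF1, hF⟩ := h
  refine ⟨fun j => F (m + 1 - j), fun j => hF2 _, fun h3 => hF1 (by omega), fun D hD s hs hT => ?_⟩
  obtain ⟨j, j1, j2, j3⟩ := hF (altT D (m + 1)) (by dsimp only; rwa [altT_altT']) (fun j => s (m + 1 - j))
    (by show s (m + 1 - (m + 1 - i1)) = q; rw [show m + 1 - (m + 1 - i1) = i1 by omega]; exact hs)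
    hT.rev
  refine ⟨m + 1 - j, by omega, by omega, ?_, ?_⟩
  · rcases j2 with j2 | j2
    · exact Or.inl (by omega)
    · exact Or.inr (by omega)
  · show s (m + 1 - j) ∈ F (m + 1 - (m + 1 - j))
    rw [show m + 1 - (m + 1 - j) = j by omega]; exact j3

lemma RKl_one {m e i1 p : ℕ} (he : e = m ∨ e = m + 1) (h1 : 1 ≤ i1) (h2 : i1 + 1 ≤ m) (q : Q) (D : Ty)
    (hp : p ≤ m + 1) : RKl m i1 e p q (fun D' => D' = D) := by
  refine RKl_of_LK (by omega) (by omega) hp ?_
  obtain ⟨F, hF2, hF1, hF⟩ := LK_one (m := m) (p := m + 1 - p) (e := m + 1 - e) (i0 := m + 1 - i1)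
    (by omega) (by omega) (by omega) q (altT D (m + 1))
  refine ⟨F, hF2, hF1, fun D' hD' s hs hT => hF D' ?_ s hs hT⟩
  rw [← hD', altT_altT']

lemma stp_flip (D : Ty) (x y : Q) : stp D (neg x) y = stp D (neg y) x := by
  rw [stp_neg1, stp_symm]

lemma RKl_two {m e i1 p : ℕ} (he : e = m ∨ e = m + 1) (h1 : 2 ≤ i1) (h2 : i1 + 2 ≤ m) (q q' : Q)
    (D1 D2 : Ty) (hne : D1 ≠ D2) (ha1 : stp (altT D1 (i1 - 1)) (neg q') q = true)
    (ha2 : stp (altT D2 (i1 - 1)) (neg q') q = true) (hp : p = i1 + 1 → i1 + 3 ≤ m)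
    (hpm : p ≤ m + 1) : RKl m i1 e p q (fun D => D = D1 ∨ D = D2) := by
  refine RKl_of_LK (by omega) (by omega) hpm ?_
  have hc : ∀ D : Ty, altT (altT D (m + 1)) (m + 1 - i1) = altT D (i1 - 1) := by
    intro D
    rw [altT_altT D m _ (by omega), show m - (m + 1 - i1) = i1 - 1 by omega]
  obtain ⟨F, hF2, hF1, hF⟩ := LK_two (m := m) (p := m + 1 - p) (e := m + 1 - e) (i0 := m + 1 - i1)
    (by omega) (by omega) (by omega) q q' (altT D1 (m + 1)) (altT D2 (m + 1))
    (fun h => hne (altT_inj h)) (by rw [hc, stp_flip]; exact ha1) (by rw [hc, stp_flip]; exact ha2)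
    (by omega)
  refine ⟨F, hF2, hF1, fun D' hD' s hs hT => hF D' ?_ s hs hT⟩
  rcases hD' with h | h
  · left; rw [← h, altT_altT']
  · right; rw [← h, altT_altT']

/-- The middle part: at most two types survive between two known labels at distance at least two. -/
lemma mid_sets {m i0 i1 p : ℕ} {J : ℕ → Prop} {s₀ : ℕ → Q} (h0 : 1 ≤ i0) (h : i0 + 2 ≤ i1) (h1 : i1 ≤ m)
    (hJ0 : ¬ J i0) (hJ1 : ¬ J i1) : ∃ (F : ℕ → Finset Q) (D1 D2 : Ty), (∀ j, (F j).card ≤ 2) ∧
      (i0 < p → p < i1 → J p → (F p).card ≤ 1) ∧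
      ∀ D, D ≠ D1 → D ≠ D2 → ∀ s : ℕ → Q, (∀ j ≤ m + 1, ¬ J j → s j = s₀ j) → Tight D s m →
        ∃ j, i0 < j ∧ j < i1 ∧ J j ∧ s j ∈ F j := by
  classical
  by_cases hex : ∃ q, i0 < q ∧ q < i1 ∧ J q
  · obtain ⟨q, hq1, hq2, hJq, hqp⟩ : ∃ q, i0 < q ∧ q < i1 ∧ J q ∧
        (i0 < p → p < i1 → J p → q = p) := by
      by_cases hp : i0 < p ∧ p < i1 ∧ J p
      · exact ⟨p, hp.1, hp.2.1, hp.2.2, fun _ _ _ => rfl⟩
      · obtain ⟨q, h2, h3, h4⟩ := hex
        exact ⟨q, h2, h3, h4, fun h5 h6 h7 => absurd ⟨h5, h6, h7⟩ hp⟩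
    obtain ⟨a, r, ha, har, hf0, hf1, hq3, hq4, hrun⟩ :=
      max_run (J := fun j => J j ∧ i0 < j ∧ j < i1) (m := m) (p := q)
        (fun h' => by omega) (fun h' => by omega) (by omega) (by omega) ⟨hJq, hq1, hq2⟩
    have g1 := hrun (a + 1) (by omega) (by omega)
    have g2 := hrun (a + r) (by omega) (by omega)
    have e1 : ¬ J a := by
      intro h'
      by_cases hai : a = i0
      · exact hJ0 (hai ▸ h')
      · exact hf0 ⟨h', by omega, by omega⟩
    have e2 : ¬ J (a + r + 1) := by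
      intro h'
      by_cases hai : a + r + 1 = i1
      · exact hJ1 (hai ▸ h')
      · exact hf1 ⟨h', by omega, by omega⟩
    obtain ⟨F, D1, D2, hF2, hF1, hF⟩ := run_sets ha har (s₀ a) (s₀ (a + r + 1)) hq3 hq4
    refine ⟨F, D1, D2, hF2, fun h2 h3 h4 => ?_, fun D hD1 hD2 s hs hT => ?_⟩
    · rw [← hqp h2 h3 h4]; exact hF1
    · obtain ⟨j, j1, j2, j3⟩ := hF D hD1 hD2 s (hs _ (by omega) e1) (hs _ (by omega) e2) hT
      have g3 := hrun j j1 j2
      exact ⟨j, g3.2.1, g3.2.2, g3.1, j3⟩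
  · push Not at hex
    obtain ⟨D1, D2, hD⟩ := two_steps (neg (s₀ i0)) (s₀ (i0 + 1)) (neg (s₀ (i0 + 2)))
    have e0 := hJ0
    have e1 : ¬ J (i0 + 1) := hex (i0 + 1) (by omega) (by omega)
    have e2 : ¬ J (i0 + 2) := by
      by_cases h2 : i0 + 2 = i1
      · rw [h2]; exact hJ1
      · exact hex (i0 + 2) (by omega) (by omega)
    have hh : ∀ D D' : Ty, D ≠ altT D' i0 → altT D i0 ≠ D' := by
      intro D D' h2 h3
      apply h2
      rw [← h3]
      unfold altT
      split_ifs <;> simp [co_co]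
    refine ⟨fun _ => ∅, altT D1 i0, altT D2 i0, fun _ => by simp, fun _ _ _ => by simp,
      fun D hD1 hD2 s hs hT => ?_⟩
    exfalso
    apply hD (altT D i0) (hh _ _ hD1) (hh _ _ hD2)
    have g1 := hT.2.1 i0 (by omega) (by omega)
    have g2 := hT.2.1 (i0 + 1) (by omega) (by omega)
    have f0 : s i0 = s₀ i0 := hs _ (by omega) e0
    have f1 : s (i0 + 1) = s₀ (i0 + 1) := hs _ (by omega) e1
    have f2 : s (i0 + 2) = s₀ (i0 + 2) := hs _ (by omega) e2
    rw [f0, f1] at g1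
    rw [altT_succ, show i0 + 1 + 1 = i0 + 2 by rfl, f1, f2, stp_neg1] at g2
    exact ⟨g1, g2⟩

/-- A known step leaves at most three types. -/
lemma three_types : ∀ q q' : Q, (∀ D, stp D (neg q) q' = false) ∨ ∃ D1 D2 D3 : Ty, D1 ≠ D2 ∧
    stp D1 (neg q) q' = true ∧ stp D2 (neg q) q' = true ∧
    ∀ D, stp D (neg q) q' = true → D = D1 ∨ D = D2 ∨ D = D3 := by decide +kernel

/-- Static kill sets with forks in the chain: `e`, `e'` are the earlier ports of the forks. -/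
def KillsQ (m : ℕ) (J : ℕ → Prop) (e e' : ℕ) (s₀ : ℕ → Q) (p : ℕ) : Prop :=
  ∃ F : ℕ → Finset Q, (∀ j, (F j).card ≤ 2) ∧ (2 ≤ p → p + 1 ≤ m → (F p).card ≤ 1) ∧
    (J 0 → J 1 → F (1 - e) = ∅) ∧ (J m → J (m + 1) → F (2 * m + 1 - e') = ∅) ∧
    ∀ s : ℕ → Q, (∀ j ≤ m + 1, ¬ J j → s j = s₀ j) → (∀ j ≤ m + 1, J j → s j ∉ F j) →
      (J 0 → J 1 → s 0 ≠ neg (s 1)) → (J m → J (m + 1) → s m ≠ neg (s (m + 1))) → CExt m s

section killq

variable {m : ℕ} {J : ℕ → Prop} {s₀ : ℕ → Q} {p e e' i0 i1 : ℕ}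

lemma combine (he' : e' = m ∨ e' = m + 1) (h2 : 2 ≤ i0) (h3 : i0 ≤ i1)
    (h4 : i1 ≤ m) (hJL : ∀ j < i0, J j)
    (hQR : J m → i1 < m)
    {FL FM FR : ℕ → Finset Q} (c1 : ∀ j, (FL j).card ≤ 2) (c2 : ∀ j, (FM j).card ≤ 2)
    (c3 : ∀ j, (FR j).card ≤ 2) (d1 : 2 ≤ p → p < i0 → (FL p).card ≤ 1)
    (d2 : i0 < p → p < i1 → J p → (FM p).card ≤ 1) (d3 : i1 < p → p + 1 ≤ m → (FR p).card ≤ 1)
    (hJ0 : ¬ J i0) (hJ1 : ¬ J i1)
    (hkill : ∀ s : ℕ → Q, (∀ j ≤ m + 1, ¬ J j → s j = s₀ j) → ∀ D, Tight D s m →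
      (∃ j, j < i0 ∧ (2 ≤ j ∨ j = e) ∧ s j ∈ FL j) ∨
      (∃ j, i0 < j ∧ j < i1 ∧ J j ∧ s j ∈ FM j) ∨
      (∃ j, i1 < j ∧ j ≤ m + 1 ∧ (j + 1 ≤ m ∨ j = e') ∧ J j ∧ s j ∈ FR j))
    (hR : ∀ s : ℕ → Q, (∀ j ≤ m + 1, ¬ J j → s j = s₀ j) →
      (J (m + 1) → ¬ J m → e' = m + 1 → s (m + 1) ∉ FR (m + 1)) →
      (J m → J (m + 1) → s m ≠ neg (s (m + 1))) → s m ≠ neg (s (m + 1))) :
    KillsQ m J e e' s₀ p := by
  classical
  refine ⟨fun j => if J j then (if j < i0 then (if 2 ≤ j ∨ j = e then FL j else ∅) else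
    if j ≤ i1 then FM j else (if j + 1 ≤ m ∨ j = e' then FR j else ∅)) else ∅, ?_, ?_, ?_, ?_, ?_⟩
  · intro j
    dsimp only
    split_ifs
    · exact c1 j
    · simp
    · exact c2 j
    · exact c3 j
    · simp
    · simp
  · intro h5 h6
    dsimp only
    split_ifs with g1 g2 g3 g4 g5
    · exact d1 h5 g2
    · simp
    · refine d2 ?_ ?_ g1
      · rcases Nat.lt_or_ge i0 p with h | h
        · exact h
        · exact absurd (show J i0 by rwa [show i0 = p by omega]) hJ0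
      · rcases Nat.lt_or_ge p i1 with h | h
        · exact h
        · exact absurd (show J i1 by rwa [show i1 = p by omega]) hJ1
    · exact d3 (by omega) h6
    · simp
    · simp
  · intro h5 h6
    dsimp only
    rw [if_pos (hJL _ (by omega)), if_pos (by omega), if_neg (by omega)]
  · intro h5 h6
    have h7 := hQR h5
    dsimp only
    have h8 : 2 * m + 1 - e' = m ∨ 2 * m + 1 - e' = m + 1 := by omega
    have h9 : J (2 * m + 1 - e') := by
      rcases h8 with h8 | h8 <;> rw [h8] <;> assumption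
    rw [if_pos h9, if_neg (by omega), if_neg (by omega), if_neg (by omega)]
  · intro s hs hav q1 q2
    have hav' : ∀ j ≤ m + 1, J j → s j ∉ (if j < i0 then (if 2 ≤ j ∨ j = e then FL j else ∅) else
      if j ≤ i1 then FM j else (if j + 1 ≤ m ∨ j = e' then FR j else ∅)) := by
      intro j hj hJ
      have := hav j hj hJ
      dsimp only at this
      rwa [if_pos hJ] at this
    rw [cext_iff (by omega)]
    refine ⟨q1 (hJL 0 (by omega)) (hJL 1 (by omega)), hR s hs ?_ q2, fun D hD => ?_⟩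
    · intro h5 h6 h7
      have := hav' (m + 1) le_rfl h5
      rwa [if_neg (by omega), if_neg (by omega), if_pos (Or.inr h7.symm)] at this
    · rcases hkill s hs D hD with ⟨j, j1, j2, j3⟩ | ⟨j, j1, j2, j3, j4⟩ | ⟨j, j1, j2, j3, j4, j5⟩
      · have := hav' j (by omega) (hJL j j1)
        rw [if_pos j1, if_pos j2] at this
        exact this j3
      · have := hav' j (by omega) j3
        rw [if_neg (by omega), if_pos (by omega)] at this
        exact this j4
      · have := hav' j (by omega) j4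
        rw [if_neg (by omega), if_neg (by omega), if_pos j3] at this
        exact this j5

/-- The first known position. -/
lemma first_known (h0 : J 0) (h1 : J 1) (hex : ∃ i, 2 ≤ i ∧ i ≤ m ∧ ¬ J i) :
    ∃ i0, 2 ≤ i0 ∧ i0 ≤ m ∧ ¬ J i0 ∧ (∀ j < i0, J j) ∧ ∀ i, 2 ≤ i → i ≤ m → ¬ J i → i0 ≤ i := by
  classical
  have hex' : ∃ i, ¬ J i := by obtain ⟨i, -, -, h⟩ := hex; exact ⟨i, h⟩
  have hs := Nat.find_spec hex'
  have hmin : ∀ j < Nat.find hex', J j := fun j hj => not_not.1 (Nat.find_min hex' hj)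
  obtain ⟨i, hi1, hi2, hi3⟩ := hex
  have hle : Nat.find hex' ≤ i := Nat.find_min' hex' hi3
  refine ⟨Nat.find hex', ?_, by omega, hs, hmin, fun i _ _ h => Nat.find_min' hex' h⟩
  rcases Nat.lt_or_ge (Nat.find hex') 2 with h | h
  · exfalso
    have : Nat.find hex' = 0 ∨ Nat.find hex' = 1 := by omega
    rcases this with h' | h' <;> rw [h'] at hs
    · exact hs h0
    · exact hs h1
  · exact h

/-- The last known position. -/
lemma last_known (h0 : J (m + 1)) (h1 : J m) (hex : ∃ i, 2 ≤ i ∧ i + 1 ≤ m ∧ ¬ J i) :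
    ∃ i1, 2 ≤ i1 ∧ i1 + 1 ≤ m ∧ ¬ J i1 ∧ (∀ j, i1 < j → j ≤ m + 1 → J j) ∧
      ∀ i, 2 ≤ i → i ≤ m → ¬ J i → i ≤ i1 := by
  classical
  obtain ⟨i, hi1, hi2, hi3⟩ := hex
  have hex' : ∃ t, ¬ J (m + 1 - t) := ⟨m + 1 - i, by rwa [show m + 1 - (m + 1 - i) = i by omega]⟩
  have hs := Nat.find_spec hex'
  have hmin : ∀ j < Nat.find hex', J (m + 1 - j) := fun j hj => not_not.1 (Nat.find_min hex' hj)
  have hle : Nat.find hex' ≤ m + 1 - i :=
    Nat.find_min' hex' (by rwa [show m + 1 - (m + 1 - i) = i by omega])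
  have hge : 2 ≤ Nat.find hex' := by
    rcases Nat.lt_or_ge (Nat.find hex') 2 with h | h
    · exfalso
      have : Nat.find hex' = 0 ∨ Nat.find hex' = 1 := by omega
      rcases this with h' | h' <;> rw [h'] at hs
      · exact hs h0
      · exact hs (by rwa [show m + 1 - 1 = m by omega])
    · exact h
  refine ⟨m + 1 - Nat.find hex', by omega, by omega, hs, fun j j1 j2 => ?_, fun j j1 j2 j3 => ?_⟩
  · have := hmin (m + 1 - j) (by omega)
    rwa [show m + 1 - (m + 1 - j) = j by omega] at this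
  · by_contra hcon
    have := hmin (m + 1 - j) (by omega)
    rw [show m + 1 - (m + 1 - j) = j by omega] at this
    exact j3 this

/-- (B) the right fork is known. -/
lemma killsQ_known (hm : 2 ≤ m) (he : e = 0 ∨ e = 1) (he' : e' = m ∨ e' = m + 1) (hL0 : J 0) (hL1 : J 1)
    (hR0 : ¬ J m) (hR1 : ¬ J (m + 1)) (h0' : s₀ m ≠ neg (s₀ (m + 1))) : KillsQ m J e e' s₀ p := by
  obtain ⟨i0, g1, g2, g3, g4, g5⟩ := first_known hL0 hL1 ⟨m, hm, le_rfl, hR0⟩
  obtain ⟨K, hK⟩ : ∃ D1 : Ty, ∀ D, frk (altT D (m + 1)) (s₀ m) (s₀ (m + 1)) = true → D = D1 := by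
    by_cases hex : ∃ D, frk (altT D (m + 1)) (s₀ m) (s₀ (m + 1)) = true
    · obtain ⟨D1, hD1⟩ := hex
      exact ⟨D1, fun D hD => altT_inj (frk_unique _ _ _ _ hD hD1)⟩
    · push Not at hex
      exact ⟨(0, true), fun D hD => absurd hD (hex D)⟩
  obtain ⟨FL, c1, d1, hFL⟩ := LK_one (m := m) (p := p) he g1 g2 (s₀ i0) K
  by_cases him : i0 = m
  · subst him
    refine combine (i1 := i0) he' g1 le_rfl le_rfl g4
      (fun h => absurd h hR0) (FL := FL) (FM := fun _ => ∅) (FR := fun _ => ∅) c1 (fun _ => by simp)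
      (fun _ => by simp) (fun h _ => d1 h) (fun _ _ _ => by simp) (fun _ _ => by simp) g3 g3 ?_ ?_
    · intro s hs D hD
      left
      refine hFL D (hK D ?_) s (hs _ (by omega) g3) hD
      have := hD.2.2
      rwa [hs i0 (by omega) hR0, hs (i0 + 1) le_rfl hR1] at this
    · intro s hs _ _
      rw [hs i0 (by omega) hR0, hs (i0 + 1) le_rfl hR1]; exact h0'
  · refine combine (i1 := m) he' g1 g2 le_rfl g4
      (fun h => absurd h hR0) (FL := FL) (FM := fun _ => ∅) (FR := fun _ => ∅) c1 (fun _ => by simp)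
      (fun _ => by simp) (fun h _ => d1 h) (fun _ _ _ => by simp) (fun _ _ => by simp) g3 hR0 ?_ ?_
    · intro s hs D hD
      left
      refine hFL D (hK D ?_) s (hs _ (by omega) g3) hD
      have := hD.2.2
      rwa [hs m (by omega) hR0, hs (m + 1) le_rfl hR1] at this
    · intro s hs _ _
      rw [hs m (by omega) hR0, hs (m + 1) le_rfl hR1]; exact h0'

/-- (C) the right fork has one port in the chain, the last one. -/
lemma killsQ_mixed (hm : 4 ≤ m) (he : e = 0 ∨ e = 1) (he' : e' = m + 1) (hL0 : J 0) (hL1 : J 1)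
    (hR0 : ¬ J m) (hR1 : J (m + 1)) (hex : ∃ i, 2 ≤ i ∧ i + 1 ≤ m ∧ ¬ J i)
    (hp : ¬ (m = 4 ∧ p = 2 ∧ J 2)) : KillsQ m J e e' s₀ p := by
  obtain ⟨i, hi1, hi2, hi3⟩ := hex
  obtain ⟨i0, g1, g2, g3, g4, g5⟩ := first_known hL0 hL1 ⟨m, by omega, le_rfl, hR0⟩
  have g6 := g5 i hi1 (by omega) hi3
  have hconf : ∀ D2 : Ty, ∀ s : ℕ → Q, (∀ j ≤ m + 1, ¬ J j → s j = s₀ j) →
      (J (m + 1) → ¬ J m → e' = m + 1 →
        s (m + 1) ∉ (fun _ => lf (neg (s₀ m)) (leafL (altT D2 (m + 1)) (s₀ m)) : ℕ → Finset Q) (m + 1)) →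
      (J m → J (m + 1) → s m ≠ neg (s (m + 1))) → s m ≠ neg (s (m + 1)) := by
    intro D2 s hs h1 _ h2
    have h3 := h1 hR1 hR0 he'
    simp only [lf, mem_insert, mem_singleton, not_or] at h3
    apply h3.1
    rw [← hs m (by omega) hR0, h2, H3DA.neg_neg]
  have hleaf : ∀ D2 : Ty, ∀ s : ℕ → Q, (∀ j ≤ m + 1, ¬ J j → s j = s₀ j) → Tight D2 s m →
      s (m + 1) ∈ (fun _ => lf (neg (s₀ m)) (leafL (altT D2 (m + 1)) (s₀ m)) : ℕ → Finset Q) (m + 1) := by
    intro D2 s hs hT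
    have h1 := frk_iff.1 hT.2.2
    rw [hs m (by omega) hR0] at h1
    simp only [lf, mem_insert, mem_singleton]
    exact Or.inr h1
  by_cases h5 : i0 + 2 ≤ m
  · obtain ⟨FM, D1, D2, c2, d2, hFM⟩ := mid_sets (p := p) (s₀ := s₀) (by omega) h5 le_rfl g3 hR0
    obtain ⟨FL, c1, d1, hFL⟩ := LK_one (m := m) (p := p) he g1 g2 (s₀ i0) D1
    refine combine (i1 := m) (Or.inr he') g1 g2 le_rfl g4
      (fun h => absurd h hR0) (FL := FL) (FM := FM)
      (FR := fun _ => lf (neg (s₀ m)) (leafL (altT D2 (m + 1)) (s₀ m))) c1 c2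
      (fun _ => lf_card _ _) (fun h _ => d1 h) d2 (fun _ _ => by omega) g3 hR0 ?_ (hconf D2)
    intro s hs D hD
    by_cases hD1 : D = D1
    · left
      exact hFL D hD1 s (hs _ (by omega) g3) hD
    · by_cases hD2 : D = D2
      · right; right
        subst hD2
        exact ⟨m + 1, by omega, le_rfl, Or.inr he'.symm, hR1, hleaf D s hs hD⟩
      · right; left
        exact hFM D hD1 hD2 s hs hD
  · have h6 : i0 + 1 = m := by omega
    rcases three_types (s₀ i0) (s₀ m) with h7 | ⟨D1, D2, D3, h8, h9, h10, h11⟩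
    · refine combine (i1 := m) (Or.inr he') g1 g2 le_rfl g4
        (fun h => absurd h hR0) (FL := fun _ => ∅) (FM := fun _ => ∅)
        (FR := fun _ => lf (neg (s₀ m)) (leafL (altT (0, true) (m + 1)) (s₀ m))) (fun _ => by simp)
        (fun _ => by simp) (fun _ => lf_card _ _) (fun _ _ => by simp) (fun _ _ _ => by simp)
        (fun _ _ => by omega) g3 hR0 ?_ (hconf _)
      intro s hs D hD
      exfalso
      have h12 := hD.2.1 i0 (by omega) (by omega)
      rw [h6, hs i0 (by omega) g3, hs m (by omega) hR0, h7] at h12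
      exact absurd h12 (by simp)
    · have hh : ∀ D' : Ty, altT (altT D' i0) i0 = D' := by
        intro D'
        unfold altT
        split_ifs <;> simp [co_co]
      have hh' : ∀ D D' : Ty, altT D i0 = D' → D = altT D' i0 := by
        intro D D' h
        rw [← h, hh]
      obtain ⟨FL, c1, d1, hFL⟩ := LK_two (m := m) (p := p) (e := e) he (i0 := i0) (by omega) (by omega)
        (s₀ i0) (s₀ m) (altT D1 i0) (altT D2 i0) (fun h => h8 (altT_inj h)) (by rw [hh]; exact h9)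
        (by rw [hh]; exact h10) (by
          intro h12
          by_contra h13
          exact hp ⟨by omega, by omega, g4 2 (by omega)⟩)
      refine combine (i1 := m) (Or.inr he') g1 g2 le_rfl g4
        (fun h => absurd h hR0) (FL := FL) (FM := fun _ => ∅)
        (FR := fun _ => lf (neg (s₀ m)) (leafL (altT (altT D3 i0) (m + 1)) (s₀ m))) c1
        (fun _ => by simp) (fun _ => lf_card _ _) (fun h _ => d1 h) (fun _ _ _ => by simp)
        (fun _ _ => by omega) g3 hR0 ?_ (hconf _)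
      intro s hs D hD
      have h12 := hD.2.1 i0 (by omega) (by omega)
      rw [h6, hs i0 (by omega) g3, hs m (by omega) hR0] at h12
      rcases h11 _ h12 with h13 | h13 | h13
      · left
        exact hFL D (Or.inl (hh' _ _ h13)) s (hs _ (by omega) g3) hD
      · left
        exact hFL D (Or.inr (hh' _ _ h13)) s (hs _ (by omega) g3) hD
      · right; right
        refine ⟨m + 1, by omega, le_rfl, Or.inr he'.symm, hR1, ?_⟩
        have h14 := hh' _ _ h13
        subst h14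
        exact hleaf _ s hs hD

/-- (D) both forks in the chain. -/
lemma killsQ_both (hm : 5 ≤ m) (he : e = 0 ∨ e = 1) (he' : e' = m ∨ e' = m + 1) (hL0 : J 0) (hL1 : J 1)
    (hR0 : J m) (hR1 : J (m + 1)) (hex : ∃ i j, 2 ≤ i ∧ i < j ∧ j + 1 ≤ m ∧ ¬ J i ∧ ¬ J j)
    (hp1 : ¬ (m = 5 ∧ p = 2 ∧ J 2)) (hp2 : ¬ (m = 5 ∧ p = 4 ∧ J 4)) (hpm : p ≤ m + 1) :
    KillsQ m J e e' s₀ p := by
  obtain ⟨i, j, hi1, hij, hj1, hi2, hj2⟩ := hex
  obtain ⟨i0, g1, g2, g3, g4, g5⟩ := first_known (m := m) hL0 hL1 ⟨i, hi1, by omega, hi2⟩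
  obtain ⟨i1, k1, k2, k3, k4, k5⟩ := last_known (m := m) hR1 hR0 ⟨j, by omega, by omega, hj2⟩
  have g6 := g5 i hi1 (by omega) hi2
  have k6 := k5 j (by omega) (by omega) hj2
  have hconf : ∀ FR : ℕ → Finset Q, ∀ s : ℕ → Q, (∀ j ≤ m + 1, ¬ J j → s j = s₀ j) →
      (J (m + 1) → ¬ J m → e' = m + 1 → s (m + 1) ∉ FR (m + 1)) →
      (J m → J (m + 1) → s m ≠ neg (s (m + 1))) → s m ≠ neg (s (m + 1)) :=
    fun _ s _ _ h => h hR0 hR1
  by_cases h5 : i0 + 2 ≤ i1
  · obtain ⟨FM, D1, D2, c2, d2, hFM⟩ := mid_sets (p := p) (s₀ := s₀) (m := m) (i0 := i0) (i1 := i1) (by omega) h5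
      (by omega) g3 k3
    obtain ⟨FL, c1, d1, hFL⟩ := LK_one (m := m) (p := p) he g1 g2 (s₀ i0) D1
    obtain ⟨FR, c3, d3, hFR⟩ := RKl_one (m := m) (p := p) he' (by omega) k2 (s₀ i1) D2 hpm
    refine combine (i1 := i1) he' g1 (by omega) (by omega) g4 (fun _ => by omega) c1 c2 c3
      (fun h _ => d1 h) d2 (fun _ h => d3 h) g3 k3 ?_ (hconf FR)
    intro s hs D hD
    by_cases hD1 : D = D1
    · left
      exact hFL D hD1 s (hs _ (by omega) g3) hD
    · by_cases hD2 : D = D2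
      · right; right
        obtain ⟨t, t1, t2, t3, t4⟩ := hFR D hD2 s (hs _ (by omega) k3) hD
        exact ⟨t, t1, t2, t3, k4 t t1 t2, t4⟩
      · right; left
        exact hFM D hD1 hD2 s hs hD
  · have h6 : i1 = i0 + 1 := by omega
    rcases three_types (s₀ i0) (s₀ i1) with h7 | ⟨D1, D2, D3, h8, h9, h10, h11⟩
    · refine combine (i1 := i1) he' g1 (by omega) (by omega) g4 (fun _ => by omega)
        (FL := fun _ => ∅) (FM := fun _ => ∅)
        (FR := fun _ => ∅) (fun _ => by simp)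
        (fun _ => by simp) (fun _ => by simp) (fun _ _ => by simp) (fun _ _ _ => by simp)
        (fun _ _ => by simp) g3 k3 ?_ (hconf (fun _ => ∅))
      intro s hs D hD
      exfalso
      have h12 := hD.2.1 i0 (by omega) (by omega)
      rw [← h6, hs i0 (by omega) g3, hs i1 (by omega) k3, h7] at h12
      exact absurd h12 (by simp)
    · have hh : ∀ D' : Ty, altT (altT D' i0) i0 = D' := by
        intro D'
        unfold altT
        split_ifs <;> simp [co_co]
      have hh' : ∀ D D' : Ty, altT D i0 = D' → D = altT D' i0 := by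
        intro D D' h
        rw [← h, hh]
      by_cases hside : 3 ≤ i0 ∧ (p + 1 = i0 → 4 ≤ i0)
      · obtain ⟨FL, c1, d1, hFL⟩ := LK_two (m := m) (p := p) (e := e) he (i0 := i0) hside.1 (by omega)
          (s₀ i0) (s₀ i1) (altT D1 i0) (altT D2 i0) (fun h => h8 (altT_inj h)) (by rw [hh]; exact h9)
          (by rw [hh]; exact h10) hside.2
        obtain ⟨FR, c3, d3, hFR⟩ := RKl_one (m := m) (p := p) he' (by omega) k2 (s₀ i1) (altT D3 i0) hpm
        refine combine (i1 := i1) he' g1 (by omega) (by omega) g4 (fun _ => by omega)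
          (FM := fun _ => ∅) c1 (fun _ => by simp) c3
          (fun h _ => d1 h) (fun _ _ _ => by simp) (fun _ h => d3 h) g3 k3 ?_ (hconf FR)
        intro s hs D hD
        have h12 := hD.2.1 i0 (by omega) (by omega)
        rw [← h6, hs i0 (by omega) g3, hs i1 (by omega) k3] at h12
        rcases h11 _ h12 with h13 | h13 | h13
        · left
          exact hFL D (Or.inl (hh' _ _ h13)) s (hs _ (by omega) g3) hD
        · left
          exact hFL D (Or.inr (hh' _ _ h13)) s (hs _ (by omega) g3) hD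
        · right; right
          obtain ⟨t, t1, t2, t3, t4⟩ := hFR D (hh' _ _ h13) s (hs _ (by omega) k3) hD
          exact ⟨t, t1, t2, t3, k4 t t1 t2, t4⟩
      · have hside' : i1 + 2 ≤ m ∧ (p = i1 + 1 → i1 + 3 ≤ m) := by
          by_contra hcon
          have h14 : i0 = 2 ∨ (i0 = 3 ∧ p = 2) := by omega
          have h15 : i1 + 1 = m ∨ (i1 + 2 = m ∧ p = i1 + 1) := by omega
          rcases h14 with h14 | h14 <;> rcases h15 with h15 | h15
          · omega
          · exact hp2 ⟨by omega, by omega, k4 4 (by omega) (by omega)⟩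
          · exact hp1 ⟨by omega, by omega, g4 2 (by omega)⟩
          · omega
        obtain ⟨FR, c3, d3, hFR⟩ := RKl_two (m := m) (p := p) (e := e') he' (i1 := i1) (by omega)
          hside'.1 (s₀ i1) (s₀ i0) (altT D1 i0) (altT D2 i0) (fun h => h8 (altT_inj h))
          (by rw [show i1 - 1 = i0 by omega, hh]; exact h9)
          (by rw [show i1 - 1 = i0 by omega, hh]; exact h10) hside'.2 hpm
        obtain ⟨FL, c1, d1, hFL⟩ := LK_one (m := m) (p := p) he g1 g2 (s₀ i0) (altT D3 i0)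
        refine combine (i1 := i1) he' g1 (by omega) (by omega) g4 (fun _ => by omega)
          (FM := fun _ => ∅) c1 (fun _ => by simp) c3
          (fun h _ => d1 h) (fun _ _ _ => by simp) (fun _ h => d3 h) g3 k3 ?_ (hconf FR)
        intro s hs D hD
        have h12 := hD.2.1 i0 (by omega) (by omega)
        rw [← h6, hs i0 (by omega) g3, hs i1 (by omega) k3] at h12
        rcases h11 _ h12 with h13 | h13 | h13
        · right; right
          obtain ⟨t, t1, t2, t3, t4⟩ := hFR D (Or.inl (hh' _ _ h13)) s (hs _ (by omega) k3) hD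
          exact ⟨t, t1, t2, t3, k4 t t1 t2, t4⟩
        · right; right
          obtain ⟨t, t1, t2, t3, t4⟩ := hFR D (Or.inr (hh' _ _ h13)) s (hs _ (by omega) k3) hD
          exact ⟨t, t1, t2, t3, k4 t t1 t2, t4⟩
        · left
          exact hFL D (hh' _ _ h13) s (hs _ (by omega) g3) hD

/-- Exchange of the ports of the right fork. -/
lemma killsQ_swR (hm : 2 ≤ m) (he' : e' = m ∨ e' = m + 1)
    (h : KillsQ m (fun j => J (swR m j)) e (2 * m + 1 - e') (fun j => s₀ (swR m j)) p) :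
    KillsQ m J e e' s₀ p := by
  have e0 : swR m 0 = 0 := swR_of (by omega)
  have e1 : swR m 1 = 1 := swR_of (by omega)
  have em : swR m m = m + 1 := by unfold swR; simp
  have em1 : swR m (m + 1) = m := by unfold swR; simp
  have hw : ∀ j ≤ m + 1, swR m j ≤ m + 1 := by
    intro j hj; unfold swR; split_ifs <;> omega
  obtain ⟨F, c1, c2, c3, c4, c5⟩ := h
  simp only [e0, e1, em, em1] at c3 c4
  refine ⟨fun j => F (swR m j), fun j => c1 _, fun h2 h3 => ?_, fun h2 h3 => ?_, fun h2 h3 => ?_,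
    fun s hs hav q1 q2 => ?_⟩
  · dsimp only
    rw [swR_of (by omega)]; exact c2 h2 h3
  · dsimp only
    rw [swR_of (by omega)]; exact c3 h2 h3
  · have h4 := c4 h3 h2
    dsimp only
    rw [show swR m (2 * m + 1 - e') = e' by
      unfold swR
      split_ifs <;> omega]
    rwa [show 2 * m + 1 - (2 * m + 1 - e') = e' by omega] at h4
  · have h1 := c5 (fun j => s (swR m j)) (fun j hj hJ => hs _ (hw j hj) hJ) (fun j hj hJ => by
      have := hav _ (hw j hj) hJ
      dsimp only at this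
      rwa [swR_swR] at this) (by simp only [e0, e1]; exact q1) (by
        simp only [em, em1]
        exact fun h2 h3 h4 => q2 h3 h2 (H3DA.eq_neg_symm h4))
    have h2 := cext_swR hm h1
    simp only [swR_swR] at h2
    exact h2

lemma cext_congr {s s' : ℕ → Q} (h : ∀ j ≤ m + 1, s j = s' j) (hE : CExt m s) : CExt m s' := by
  obtain ⟨x, h1, h2, h3, h4⟩ := hE
  by_cases hm : 1 ≤ m
  · exact ⟨x, fun i hi him => by rw [← h i (by omega)]; exact h1 i hi him,
      by rw [← h 0 (by omega)]; exact h2, by rw [← h (m + 1) le_rfl]; exact h3, h4⟩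
  · exact ⟨x, fun i hi him => by omega, by rw [← h 0 (by omega)]; exact h2,
      by rw [← h (m + 1) le_rfl]; exact h3, h4⟩

lemma cext_rev {s : ℕ → Q} (hm : 1 ≤ m) (h : CExt m s) : CExt m (fun j => s (m + 1 - j)) := by
  rw [cext_iff hm] at h ⊢
  obtain ⟨h1, h2, h3⟩ := h
  refine ⟨?_, ?_, fun D hD => ?_⟩
  · show s (m + 1 - 0) ≠ neg (s (m + 1 - 1))
    exact fun h4 => h2 (H3DA.eq_neg_symm h4)
  · show s (m + 1 - m) ≠ neg (s (m + 1 - (m + 1)))
    rw [show m + 1 - m = 1 by omega, show m + 1 - (m + 1) = 0 by omega]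
    exact fun h4 => h1 (H3DA.eq_neg_symm h4)
  · have h4 := hD.rev
    refine h3 (altT D (m + 1)) ?_
    obtain ⟨a1, a2, a3⟩ := h4
    have hc : ∀ j ≤ m + 1, s (m + 1 - (m + 1 - j)) = s j := by
      intro j hj; rw [show m + 1 - (m + 1 - j) = j by omega]
    refine ⟨?_, fun i i1 i2 => ?_, ?_⟩
    · have := a1
      simp only [hc 0 (by omega), hc 1 (by omega)] at this
      exact this
    · have := a2 i i1 i2
      simp only [hc i (by omega), hc (i + 1) (by omega)] at this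
      exact this
    · have := a3
      simp only [hc m (by omega), hc (m + 1) le_rfl] at this
      exact this

/-- Reversal of the path. -/
lemma killsQ_rev (hm : 2 ≤ m) (he : e = 0 ∨ e = 1) (he' : e' = m ∨ e' = m + 1) (hpm : p ≤ m + 1)
    (h : KillsQ m (fun j => J (m + 1 - j)) (m + 1 - e') (m + 1 - e) (fun j => s₀ (m + 1 - j))
      (m + 1 - p)) : KillsQ m J e e' s₀ p := by
  obtain ⟨F, c1, c2, c3, c4, c5⟩ := h
  simp only [Nat.sub_zero, Nat.add_sub_cancel, show m + 1 - m = 1 by omega, Nat.sub_self] at c3 c4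
  refine ⟨fun j => F (m + 1 - j), fun j => c1 _, fun h2 h3 => c2 (by omega) (by omega), fun h2 h3 => ?_,
    fun h2 h3 => ?_, fun s hs hav q1 q2 => ?_⟩
  · have h4 := c4 h3 h2
    dsimp only
    rwa [show 2 * m + 1 - (m + 1 - e) = m + 1 - (1 - e) by omega] at h4
  · have h4 := c3 h3 h2
    dsimp only
    rwa [show 1 - (m + 1 - e') = m + 1 - (2 * m + 1 - e') by omega] at h4
  · have h1 := c5 (fun j => s (m + 1 - j)) (fun j hj hJ => hs _ (by omega) hJ) (fun j hj hJ => by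
      have := hav (m + 1 - j) (by omega) hJ
      dsimp only at this
      rwa [show m + 1 - (m + 1 - j) = j by omega] at this) (by
        simp only [Nat.sub_zero, Nat.add_sub_cancel]
        exact fun h2 h3 h4 => q2 h3 h2 (H3DA.eq_neg_symm h4)) (by
        simp only [show m + 1 - m = 1 by omega, Nat.sub_self]
        exact fun h2 h3 h4 => q1 h3 h2 (H3DA.eq_neg_symm h4))
    have h2 := cext_rev (by omega) h1
    refine cext_congr (fun j hj => ?_) h2
    show s (m + 1 - (m + 1 - j)) = s j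
    rw [show m + 1 - (m + 1 - j) = j by omega]

end killq

/-- The patterns with static kill sets: `J` is the set of ports in the chain, `p` a designated inner
position. -/
def SQ (m : ℕ) (J : ℕ → Prop) (p : ℕ) : Prop :=
  (¬ (J 0 ∧ J 1) ∧ ¬ (J m ∧ J (m + 1)) ∧ (J 0 ∨ J 1 → J m ∨ J (m + 1) → 3 ≤ m)) ∨
  (J 0 ∧ J 1 ∧ ¬ J m ∧ ¬ J (m + 1)) ∨
  (J m ∧ J (m + 1) ∧ ¬ J 0 ∧ ¬ J 1) ∨
  (J 0 ∧ J 1 ∧ ¬ (J m ∧ J (m + 1)) ∧ (J m ∨ J (m + 1)) ∧ 4 ≤ m ∧ (∃ i, 2 ≤ i ∧ i + 1 ≤ m ∧ ¬ J i) ∧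
    ¬ (m = 4 ∧ p = 2 ∧ J 2)) ∨
  (J m ∧ J (m + 1) ∧ ¬ (J 0 ∧ J 1) ∧ (J 0 ∨ J 1) ∧ 4 ≤ m ∧ (∃ i, 2 ≤ i ∧ i + 1 ≤ m ∧ ¬ J i) ∧
    ¬ (m = 4 ∧ p = 3 ∧ J 3)) ∨
  (J 0 ∧ J 1 ∧ J m ∧ J (m + 1) ∧ 5 ≤ m ∧ (∃ i j, 2 ≤ i ∧ i < j ∧ j + 1 ≤ m ∧ ¬ J i ∧ ¬ J j) ∧
    ¬ (m = 5 ∧ p = 2 ∧ J 2) ∧ ¬ (m = 5 ∧ p = 4 ∧ J 4))

/-- The static kill lemma with forks in the chain. -/
theorem killsQ {m : ℕ} {J : ℕ → Prop} {s₀ : ℕ → Q} {p e e' : ℕ} (hm : 2 ≤ m) (he : e = 0 ∨ e = 1)
    (he' : e' = m ∨ e' = m + 1) (hpm : p ≤ m + 1) (hex : ∃ j ≤ m + 1, J j)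
    (h0 : ¬ J 0 → ¬ J 1 → s₀ 0 ≠ neg (s₀ 1)) (h0' : ¬ J m → ¬ J (m + 1) → s₀ m ≠ neg (s₀ (m + 1)))
    (hS : SQ m J p) : KillsQ m J e e' s₀ p := by
  -- mixed right fork
  have mix : ∀ (J : ℕ → Prop) (s₀ : ℕ → Q) (p e e' : ℕ), (e = 0 ∨ e = 1) → (e' = m ∨ e' = m + 1) →
      J 0 → J 1 → ¬ (J m ∧ J (m + 1)) → (J m ∨ J (m + 1)) → 4 ≤ m →
      (∃ i, 2 ≤ i ∧ i + 1 ≤ m ∧ ¬ J i) → ¬ (m = 4 ∧ p = 2 ∧ J 2) → KillsQ m J e e' s₀ p := by
    intro J s₀ p e e' he he' a1 a2 a3 a4 a5 a6 a7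
    -- the choice of `e'` is irrelevant
    have any : ∀ e1 e2, KillsQ m J e e1 s₀ p → KillsQ m J e e2 s₀ p := by
      rintro e1 e2 ⟨F, c1, c2, c3, c4, c5⟩
      exact ⟨F, c1, c2, c3, fun h h' => absurd ⟨h, h'⟩ a3, c5⟩
    rcases a4 with a4 | a4
    · have b1 : ¬ J (m + 1) := fun h => a3 ⟨a4, h⟩
      refine any m e' (killsQ_swR (by omega) (Or.inl rfl) ?_)
      have e0 : swR m 0 = 0 := swR_of (by omega)
      have e1 : swR m 1 = 1 := swR_of (by omega)
      have e2 : swR m 2 = 2 := swR_of (by omega)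
      have em : swR m m = m + 1 := by unfold swR; simp
      have em1 : swR m (m + 1) = m := by unfold swR; simp
      refine killsQ_mixed a5 he (by omega) (by simp only [e0]; exact a1) (by simp only [e1]; exact a2)
        (by simp only [em]; exact b1) (by simp only [em1]; exact a4) ?_ (by simp only [e2]; exact a7)
      obtain ⟨i, i1, i2, i3⟩ := a6
      exact ⟨i, i1, i2, by rwa [swR_of (by omega)]⟩
    · have b1 : ¬ J m := fun h => a3 ⟨h, a4⟩
      exact any (m + 1) e' (killsQ_mixed a5 he rfl a1 a2 b1 a4 a6 a7)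
  rcases hS with ⟨a1, a2, a3⟩ | ⟨a1, a2, a3, a4⟩ | ⟨a1, a2, a3, a4⟩ | ⟨a1, a2, a3, a4, a5, a6, a7⟩ |
    ⟨a1, a2, a3, a4, a5, a6, a7⟩ | ⟨a1, a2, a3, a4, a5, a6, a7, a8⟩
  · obtain ⟨F, c1, c2, c3⟩ := kills (p := p) hm a1 a2 hex h0 h0' a3
    exact ⟨F, c1, c2, fun h h' => absurd ⟨h, h'⟩ a1, fun h h' => absurd ⟨h, h'⟩ a2,
      fun s hs hav _ _ => c3 s hs hav⟩
  · exact killsQ_known hm he he' a1 a2 a3 a4 (h0' a3 a4)
  · refine killsQ_rev hm he he' hpm (killsQ_known hm (by omega) (by omega) ?_ ?_ ?_ ?_ ?_)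
    · simpa using a2
    · simpa using a1
    · simpa [show m + 1 - m = 1 by omega] using a4
    · simpa using a3
    · simp only [show m + 1 - m = 1 by omega, Nat.sub_self]
      exact fun h => h0 a3 a4 (H3DA.eq_neg_symm h)
  · exact mix J s₀ p e e' he he' a1 a2 a3 a4 a5 a6 a7
  · refine killsQ_rev hm he he' hpm (mix _ _ _ _ _ (by omega) (by omega) ?_ ?_ ?_ ?_ a5 ?_ ?_)
    · simpa using a2
    · simpa using a1
    · simp only [show m + 1 - m = 1 by omega, Nat.sub_self]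
      exact fun h => a3 ⟨h.2, h.1⟩
    · simp only [show m + 1 - m = 1 by omega, Nat.sub_self]
      exact a4.symm
    · obtain ⟨i, i1, i2, i3⟩ := a6
      exact ⟨m + 1 - i, by omega, by omega, by rwa [show m + 1 - (m + 1 - i) = i by omega]⟩
    · rintro ⟨b1, b2, b3⟩
      refine a7 ⟨b1, by omega, ?_⟩
      rwa [show m + 1 - 2 = 3 by omega] at b3
  · exact killsQ_both a5 he he' a1 a2 a3 a4 a6 a7 a8 hpm

/-- The nearly closed patterns (and the paths of two vertices with a port of the chain in both forks). -/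
def NCp (m : ℕ) (J : ℕ → Prop) : Prop :=
  (m = 2 ∧ (J 0 ∨ J 1) ∧ (J m ∨ J (m + 1))) ∨
  (J 0 ∧ J 1 ∧ ¬ (J m ∧ J (m + 1)) ∧ (J m ∨ J (m + 1)) ∧ ∀ i, 2 ≤ i → i + 1 ≤ m → J i) ∨
  (J m ∧ J (m + 1) ∧ ¬ (J 0 ∧ J 1) ∧ (J 0 ∨ J 1) ∧ ∀ i, 2 ≤ i → i + 1 ≤ m → J i) ∨
  (J 0 ∧ J 1 ∧ J m ∧ J (m + 1) ∧ ∀ i j, 2 ≤ i → i < j → j + 1 ≤ m → J i ∨ J j) ∨
  (m = 3 ∧ ((J 0 ∧ J 1 ∧ (J m ∨ J (m + 1))) ∨ (J m ∧ J (m + 1) ∧ (J 0 ∨ J 1)))) ∨
  (m = 4 ∧ J 0 ∧ J 1 ∧ J m ∧ J (m + 1))

/-- The two patterns without kill sets light at the designated position, and their mirror images. -/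
def BadP (m : ℕ) (J : ℕ → Prop) (p : ℕ) : Prop :=
  (m = 4 ∧ p = 2 ∧ J 0 ∧ J 1 ∧ J 2 ∧ ¬ J 3 ∧ (J 4 ∨ J 5) ∧ ¬ (J 4 ∧ J 5)) ∨
  (m = 4 ∧ p = 3 ∧ J 4 ∧ J 5 ∧ J 3 ∧ ¬ J 2 ∧ (J 0 ∨ J 1) ∧ ¬ (J 0 ∧ J 1)) ∨
  (m = 5 ∧ p = 2 ∧ J 0 ∧ J 1 ∧ J 2 ∧ ¬ J 3 ∧ ¬ J 4 ∧ J 5 ∧ J 6) ∨
  (m = 5 ∧ p = 4 ∧ J 0 ∧ J 1 ∧ J 4 ∧ ¬ J 2 ∧ ¬ J 3 ∧ J 5 ∧ J 6)

theorem sq_or_nc {m : ℕ} {J : ℕ → Prop} (p : ℕ) (hm : 2 ≤ m) : SQ m J p ∨ NCp m J ∨ BadP m J p := by
  classical
  by_cases h0 : J 0 ∧ J 1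
  · by_cases h1 : J m ∧ J (m + 1)
    · by_cases h2 : ∀ i j, 2 ≤ i → i < j → j + 1 ≤ m → J i ∨ J j
      · exact Or.inr (Or.inl (Or.inr (Or.inr (Or.inr (Or.inl ⟨h0.1, h0.2, h1.1, h1.2, h2⟩)))))
      · have h3 := h2
        push Not at h3
        obtain ⟨i, j, i1, i2, i3, i4, i5⟩ := h3
        by_cases h4 : m = 4
        · exact Or.inr (Or.inl (Or.inr (Or.inr (Or.inr (Or.inr (Or.inr ⟨h4, h0.1, h0.2, h1.1, h1.2⟩))))))
        · by_cases h5 : m = 5 ∧ p = 2 ∧ J 2
          · right; right; right; right; left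
            obtain ⟨rfl, rfl, h5⟩ := h5
            have e1 : i = 3 := by
              have : i ≠ 2 := by rintro rfl; exact i4 h5
              omega
            have e2 : j = 4 := by omega
            subst e1; subst e2
            exact ⟨rfl, rfl, h0.1, h0.2, h5, i4, i5, h1.1, h1.2⟩
          · by_cases h6 : m = 5 ∧ p = 4 ∧ J 4
            · right; right; right; right; right
              obtain ⟨rfl, rfl, h6⟩ := h6
              have e1 : j = 3 := by
                have : j ≠ 4 := by rintro rfl; exact i5 h6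
                omega
              have e2 : i = 2 := by omega
              subst e1; subst e2
              exact ⟨rfl, rfl, h0.1, h0.2, h6, i4, i5, h1.1, h1.2⟩
            · exact Or.inl (Or.inr (Or.inr (Or.inr (Or.inr (Or.inr ⟨h0.1, h0.2, h1.1, h1.2, by omega,
                ⟨i, j, i1, i2, i3, i4, i5⟩, h5, h6⟩)))))
    · by_cases h2 : J m ∨ J (m + 1)
      · by_cases h3 : ∀ i, 2 ≤ i → i + 1 ≤ m → J i
        · exact Or.inr (Or.inl (Or.inr (Or.inl ⟨h0.1, h0.2, h1, h2, h3⟩)))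
        · have h4 := h3
          push Not at h4
          obtain ⟨i, i1, i2, i3⟩ := h4
          by_cases h5 : m = 3
          · exact Or.inr (Or.inl (Or.inr (Or.inr (Or.inr (Or.inr (Or.inl ⟨h5, Or.inl
              ⟨h0.1, h0.2, h2⟩⟩))))))
          · by_cases h6 : m = 4 ∧ p = 2 ∧ J 2
            · right; right; left
              obtain ⟨rfl, rfl, h6⟩ := h6
              have e1 : i = 3 := by
                have : i ≠ 2 := by rintro rfl; exact i3 h6
                omega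
              subst e1
              exact ⟨rfl, rfl, h0.1, h0.2, h6, i3, h2, h1⟩
            · exact Or.inl (Or.inr (Or.inr (Or.inr (Or.inl ⟨h0.1, h0.2, h1, h2, by omega,
                ⟨i, i1, i2, i3⟩, h6⟩))))
      · push Not at h2
        exact Or.inl (Or.inr (Or.inl ⟨h0.1, h0.2, h2.1, h2.2⟩))
  · by_cases h1 : J m ∧ J (m + 1)
    · by_cases h2 : J 0 ∨ J 1
      · by_cases h3 : ∀ i, 2 ≤ i → i + 1 ≤ m → J i
        · exact Or.inr (Or.inl (Or.inr (Or.inr (Or.inl ⟨h1.1, h1.2, h0, h2, h3⟩))))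
        · have h4 := h3
          push Not at h4
          obtain ⟨i, i1, i2, i3⟩ := h4
          by_cases h5 : m = 3
          · exact Or.inr (Or.inl (Or.inr (Or.inr (Or.inr (Or.inr (Or.inl ⟨h5, Or.inr
              ⟨h1.1, h1.2, h2⟩⟩))))))
          · by_cases h6 : m = 4 ∧ p = 3 ∧ J 3
            · right; right; right; left
              obtain ⟨rfl, rfl, h6⟩ := h6
              have e1 : i = 2 := by
                have : i ≠ 3 := by rintro rfl; exact i3 h6
                omega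
              subst e1
              exact ⟨rfl, rfl, h1.1, h1.2, h6, i3, h2, h0⟩
            · exact Or.inl (Or.inr (Or.inr (Or.inr (Or.inr (Or.inl ⟨h1.1, h1.2, h0, h2, by omega,
                ⟨i, i1, i2, i3⟩, h6⟩)))))
      · push Not at h2
        exact Or.inl (Or.inr (Or.inr (Or.inl ⟨h1.1, h1.2, h2.1, h2.2⟩)))
    · by_cases h2 : m = 2 ∧ (J 0 ∨ J 1) ∧ (J m ∨ J (m + 1))
      · exact Or.inr (Or.inl (Or.inl h2))
      · refine Or.inl (Or.inl ⟨h0, h1, fun h3 h4 => ?_⟩)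
        by_contra h5
        exact h2 ⟨by omega, h3, h4⟩

/-- The condition does not depend on the designated position outside the exceptional patterns. -/
lemma SQ.of_not_bad {m : ℕ} {J : ℕ → Prop} {p : ℕ} (hm : 2 ≤ m) (h1 : ¬ NCp m J) (h2 : ¬ BadP m J p) :
    SQ m J p := by
  rcases sq_or_nc p hm with h | h | h
  · exact h
  · exact absurd h h1
  · exact absurd h h2

end CLB.H95
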