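import Pool.Agent.Helper95_CLB.RunKill
import Pool.Agent.Helper3_DA.Cat

/-!
Static kill sets: a component with at most one port of the chain in each fork and at least three vertices
is harmless after two labels have been forbidden at every port of the chain, one at a designated port.
-/

set_option autoImplicit false

namespace CLB.H95

open Finset
open H3DA (Q neg nr)
open CLB.H3 (CExt)

lemma cext_iff_ext {m : ℕ} {s : ℕ → Q} : CExt m s ↔ Ext s m := by
  constructor
  · rintro ⟨x, h1, h2, h3, h4⟩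
    exact ⟨x, nr_symm h2, h3, fun i h1' h2' => nr_symm (h1 i h1' h2'), h4⟩
  · rintro ⟨x, h1, h2, h3, h4⟩
    exact ⟨x, fun i h1' h2' => nr_symm (h3 i h1' h2'), nr_symm h1, h2, h4⟩

theorem cext_iff {m : ℕ} (hm : 1 ≤ m) {s : ℕ → Q} :
    CExt m s ↔ s 0 ≠ neg (s 1) ∧ s m ≠ neg (s (m + 1)) ∧ ∀ D, ¬ Tight D s m := by
  rw [cext_iff_ext, ext_iff hm]

/-- Sign. -/
def sg (t : ℕ) (x : Q) : Q := if t % 2 = 0 then x else neg x

lemma sg_sg (t : ℕ) (x : Q) : sg t (sg t x) = x := by
  unfold sg; split_ifs <;> simp [H3DA.neg_neg]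

lemma sg_even {t : ℕ} (h : t % 2 = 0) (x : Q) : sg t x = x := by unfold sg; rw [if_pos h]

lemma sg_odd {t : ℕ} (h : t % 2 = 1) (x : Q) : sg t x = neg x := by unfold sg; rw [if_neg (by omega)]

lemma stp_neg1 (D : Ty) (x y : Q) : stp D (neg x) y = stp D x (neg y) := by
  rw [← stp_neg, H3DA.neg_neg]

lemma stp_sg {D : Ty} {t : ℕ} {x y : Q} : stp D (sg t x) (sg (t + 1) y) = stp D (neg x) y := by
  rcases Nat.mod_two_eq_zero_or_one t with h | h
  · rw [sg_even h, sg_odd (show (t + 1) % 2 = 1 by omega), stp_neg1]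
  · rw [sg_odd h, sg_even (show (t + 1) % 2 = 0 by omega)]

lemma altT_al (D : Ty) {i : ℕ} (hi : 1 ≤ i) (t : ℕ) : altT D (i + t) = al (altT D i) t := by
  obtain ⟨j, rfl⟩ : ∃ j, i = j + 1 := ⟨i - 1, by omega⟩
  rw [al_altT, al_al, show j + 1 + t = j + t + 1 by omega, al_altT]

/-- A function of type `altT D` is injective in `D`. -/
lemma altT_inj {D D' : Ty} {i : ℕ} (h : altT D i = altT D' i) : D = D' := by
  unfold altT at h
  split_ifs at h with h1
  · exact h
  · rw [← co_co D, h, co_co]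

/-- The walk of a tight labelling along a run starting at the flank `i0`. -/
lemma Tight.walk {D : Ty} {s : ℕ → Q} {m i0 r : ℕ} (h : Tight D s m) (h0 : 1 ≤ i0)
    (h1 : i0 + r + 1 ≤ m) : ∀ t ≤ r, stp (al (altT D i0) t) (sg t (s (i0 + t)))
      (sg (t + 1) (s (i0 + (t + 1)))) = true := by
  intro t ht
  rw [stp_sg, ← altT_al D h0]
  exact h.2.1 (i0 + t) (by omega) (by omega)

/-- Kill sets for a whole run, in terms of the labels of the ports. -/
lemma run_sets {m i0 r : ℕ} (h0 : 1 ≤ i0) (h1 : i0 + r + 1 ≤ m) (q q' : Q) {p : ℕ} (hp : i0 + 1 ≤ p)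
    (hpr : p ≤ i0 + r) : ∃ (F : ℕ → Finset Q) (D1 D2 : Ty), (∀ j, (F j).card ≤ 2) ∧ (F p).card ≤ 1 ∧
    ∀ D, D ≠ D1 → D ≠ D2 → ∀ s : ℕ → Q, s i0 = q → s (i0 + r + 1) = q' → Tight D s m →
      ∃ j, i0 + 1 ≤ j ∧ j ≤ i0 + r ∧ s j ∈ F j := by
  obtain ⟨F, D1, D2, hF2, hF1, hF⟩ := run_kill r q (sg (r + 1) q') (p := p - i0) (by omega) (by omega)
  refine ⟨fun j => (F (j - i0)).image (sg (j - i0)), altT D1 i0, altT D2 i0, fun j => ?_, ?_, ?_⟩
  · exact le_trans Finset.card_image_le (hF2 _)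
  · exact le_trans Finset.card_image_le hF1
  · intro D hD1 hD2 s hs0 hs1 hT
    have hh : ∀ D', altT D i0 ≠ D' ∨ D = altT D' i0 := by
      intro D'
      by_cases h : altT D i0 = D'
      · right
        rw [← h]
        unfold altT
        split_ifs <;> simp [co_co]
      · exact Or.inl h
    obtain ⟨t, ht1, ht2, ht3⟩ := hF (altT D i0) ((hh D1).resolve_right hD1)
      ((hh D2).resolve_right hD2) (fun t => sg t (s (i0 + t))) (by simp [sg_even, hs0])
      (by rw [← hs1]; rfl) (hT.walk h0 h1)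
    refine ⟨i0 + t, by omega, by omega, ?_⟩
    rw [mem_image]
    refine ⟨sg t (s (i0 + t)), ?_, ?_⟩
    · rw [show i0 + t - i0 = t by omega]; exact ht3
    · rw [show i0 + t - i0 = t by omega]; exact sg_sg _ _

/-- The label of a leaf port killing a type. -/
def leafL (D : Ty) (x : Q) : Q := add x (add (uD D) (vD D))

lemma frk_iff {D : Ty} {x y : Q} : frk D x y = true ↔ y = leafL D x := by
  unfold frk leafL; simp

lemma frk_iff' {D : Ty} {x y : Q} : frk D x y = true ↔ x = leafL D y := by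
  rw [frk_symm]; exact frk_iff

/-- The type of a fork is determined by its labels. -/
lemma frk_unique : ∀ (D D' : Ty) (x y : Q), frk D x y = true → frk D' x y = true → D = D' := by
  decide

/-- Two consecutive fixed steps leave at most two types. -/
lemma two_steps : ∀ x y z : Q, ∃ D1 D2 : Ty, ∀ D : Ty, D ≠ D1 → D ≠ D2 →
    ¬ (stp D x y = true ∧ stp (co D) y z = true) := by
  decide +kernel

/-- Maximal runs. -/
lemma max_run {J : ℕ → Prop} {m p : ℕ} (h1 : ¬ J 1) (hm : ¬ J m) (hp : 2 ≤ p) (hpm : p + 1 ≤ m)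
    (hJ : J p) :
    ∃ i0 r, 1 ≤ i0 ∧ i0 + r + 1 ≤ m ∧ ¬ J i0 ∧ ¬ J (i0 + r + 1) ∧ i0 + 1 ≤ p ∧ p ≤ i0 + r ∧
      ∀ j, i0 + 1 ≤ j → j ≤ i0 + r → J j := by
  classical
  obtain ⟨i0, h2, h3, h4⟩ : ∃ i0, i0 ≤ p ∧ ¬ J i0 ∧ 1 ≤ i0 ∧ ∀ j, i0 < j → j ≤ p → J j := by
    have hex : ∃ t, ¬ J (p - t) := ⟨p - 1, by rwa [show p - (p - 1) = 1 by omega]⟩
    have h5 := Nat.find_spec hex
    have h6 : Nat.find hex ≤ p - 1 := Nat.find_min' hex (by rwa [show p - (p - 1) = 1 by omega])
    refine ⟨p - Nat.find hex, by omega, h5, by omega, fun j hj hj' => ?_⟩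
    have := Nat.find_min hex (m := p - j) (by omega)
    rw [show p - (p - j) = j by omega] at this
    exact not_not.1 this
  obtain ⟨i1, g2, g3, g4⟩ : ∃ i1, p ≤ i1 ∧ ¬ J i1 ∧ i1 ≤ m ∧ ∀ j, p ≤ j → j < i1 → J j := by
    have hex : ∃ t, ¬ J (p + t) := ⟨m - p, by rwa [show p + (m - p) = m by omega]⟩
    have h5 := Nat.find_spec hex
    have h6 : Nat.find hex ≤ m - p := Nat.find_min' hex (by rwa [show p + (m - p) = m by omega])
    refine ⟨p + Nat.find hex, by omega, h5, by omega, fun j hj hj' => ?_⟩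
    have := Nat.find_min hex (m := j - p) (by omega)
    rw [show p + (j - p) = j by omega] at this
    exact not_not.1 this
  have h7 : i0 ≠ p := fun h => h3 (h ▸ hJ)
  have h8 : i1 ≠ p := fun h => g3 (h ▸ hJ)
  refine ⟨i0, i1 - i0 - 1, h4.1, by omega, h3, by rwa [show i0 + (i1 - i0 - 1) + 1 = i1 by omega],
    by omega, by omega, fun j hj hj' => ?_⟩
  by_cases hjp : j ≤ p
  · exact h4.2 j (by omega) hjp
  · exact g4.2 j (by omega) (by omega)

/-- The forbidden sets of the two leaves. -/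
def lf (a b : Q) : Finset Q := {a, b}

lemma lf_card (a b : Q) : (lf a b).card ≤ 2 := Finset.card_le_two

/-- Labels after a step. -/
def nxt (D : Ty) (x : Q) : Finset Q := univ.filter (fun y => stp D x y = true)

lemma nxt_card : ∀ (D : Ty) (x : Q), (nxt D x).card ≤ 2 := by decide

lemma nxt2_card : ∀ (D : Ty) (x y : Q), (nxt D x ∩ nxt (co D) y).card ≤ 1 := by decide +kernel

lemma mem_nxt {D : Ty} {x y : Q} : y ∈ nxt D x ↔ stp D x y = true := by unfold nxt; simp

/-- The conclusion: forbidden sets making the component harmless. -/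
def Kills (m : ℕ) (J : ℕ → Prop) (s₀ : ℕ → Q) (p : ℕ) : Prop :=
  ∃ F : ℕ → Finset Q, (∀ j, (F j).card ≤ 2) ∧ (2 ≤ p → p + 1 ≤ m → (F p).card ≤ 1) ∧
    ∀ s : ℕ → Q, (∀ j ≤ m + 1, ¬ J j → s j = s₀ j) → (∀ j ≤ m + 1, J j → s j ∉ F j) → CExt m s

section kill

variable {m : ℕ} {J : ℕ → Prop} {s₀ : ℕ → Q} {p : ℕ}

/-- Both leaves belong to the chain; two types survive the other sets. -/
lemma kills_both (hm : 1 ≤ m) (h1 : ¬ J 1) (hm1 : ¬ J m) (hL : J 0) (hR : J (m + 1)) {F : ℕ → Finset Q}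
    (hF2 : ∀ j, (F j).card ≤ 2) (hF1 : 2 ≤ p → p + 1 ≤ m → (F p).card ≤ 1) {D1 D2 : Ty}
    (hF : ∀ D, D ≠ D1 → D ≠ D2 → ∀ s : ℕ → Q, (∀ j ≤ m + 1, ¬ J j → s j = s₀ j) →
      (∀ j, 1 ≤ j → j ≤ m → J j → s j ∉ F j) → ¬ Tight D s m) : Kills m J s₀ p := by
  refine ⟨fun j => if j = 0 then lf (neg (s₀ 1)) (leafL D1 (s₀ 1)) else
    if j = m + 1 then lf (neg (s₀ m)) (leafL (altT D2 (m + 1)) (s₀ m)) else F j, ?_, ?_, ?_⟩
  · intro j
    dsimp only
    split_ifs
    · exact lf_card _ _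
    · exact lf_card _ _
    · exact hF2 j
  · intro h2 h3
    dsimp only
    rw [if_neg (by omega), if_neg (by omega)]
    exact hF1 h2 h3
  · intro s hs hav
    have e1 : s 1 = s₀ 1 := hs 1 (by omega) h1
    have e2 : s m = s₀ m := hs m (by omega) hm1
    have a0 := hav 0 (by omega) hL
    have am := hav (m + 1) (by omega) hR
    simp only [if_true, Nat.succ_ne_zero, if_false, lf, mem_insert, mem_singleton, not_or] at a0 am
    rw [cext_iff hm]
    refine ⟨?_, ?_, ?_⟩
    · rw [e1]; exact a0.1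
    · rw [e2]; exact fun h => am.1 (H3DA.eq_neg_symm h)
    · intro D hD
      by_cases hD1 : D = D1
      · apply a0.2
        have := frk_iff'.1 hD.1
        rw [e1, hD1] at this
        exact this
      · by_cases hD2 : D = D2
        · apply am.2
          have := frk_iff.1 hD.2.2
          rw [e2, hD2] at this
          exact this
        · refine hF D hD1 hD2 s hs (fun j hj hj' hJ => ?_) hD
          have := hav j (by omega) hJ
          dsimp only at this
          rwa [if_neg (by omega), if_neg (by omega)] at this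

/-- Only the left leaf belongs to the chain. -/
lemma kills_left (hm : 1 ≤ m) (h1 : ¬ J 1) (hm1 : ¬ J m) (hL : J 0) (hR : ¬ J (m + 1))
    (h0 : s₀ m ≠ neg (s₀ (m + 1))) : Kills m J s₀ p := by
  by_cases hex : ∃ D, frk (altT D (m + 1)) (s₀ m) (s₀ (m + 1)) = true
  · obtain ⟨D1, hD1⟩ := hex
    refine ⟨fun j => if j = 0 then lf (neg (s₀ 1)) (leafL D1 (s₀ 1)) else ∅, ?_, ?_, ?_⟩
    · intro j
      dsimp only
      split_ifs
      · exact lf_card _ _
      · simp
    · intro h2 h3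
      dsimp only
      rw [if_neg (by omega)]; simp
    · intro s hs hav
      have e1 : s 1 = s₀ 1 := hs 1 (by omega) h1
      have e2 : s m = s₀ m := hs m (by omega) hm1
      have e3 : s (m + 1) = s₀ (m + 1) := hs (m + 1) (by omega) hR
      have a0 := hav 0 (by omega) hL
      simp only [if_true, lf, mem_insert, mem_singleton, not_or] at a0
      rw [cext_iff hm]
      refine ⟨?_, ?_, ?_⟩
      · rw [e1]; exact a0.1
      · rw [e2, e3]; exact h0
      · intro D hD
        apply a0.2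
        have h4 := hD.2.2
        rw [e2, e3] at h4
        have h5 := altT_inj (frk_unique _ _ _ _ h4 hD1)
        have := frk_iff'.1 hD.1
        rw [e1, h5] at this
        exact this
  · push Not at hex
    refine ⟨fun j => if j = 0 then lf (neg (s₀ 1)) (neg (s₀ 1)) else ∅, ?_, ?_, ?_⟩
    · intro j
      dsimp only
      split_ifs
      · exact lf_card _ _
      · simp
    · intro h2 h3
      dsimp only
      rw [if_neg (by omega)]; simp
    · intro s hs hav
      have e1 : s 1 = s₀ 1 := hs 1 (by omega) h1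
      have e2 : s m = s₀ m := hs m (by omega) hm1
      have e3 : s (m + 1) = s₀ (m + 1) := hs (m + 1) (by omega) hR
      have a0 := hav 0 (by omega) hL
      simp only [if_true, lf, mem_insert, mem_singleton, not_or] at a0
      rw [cext_iff hm]
      refine ⟨?_, ?_, ?_⟩
      · rw [e1]; exact a0.1
      · rw [e2, e3]; exact h0
      · intro D hD
        have h4 := hD.2.2
        rw [e2, e3] at h4
        exact hex D h4

/-- Only the right leaf belongs to the chain. -/
lemma kills_right (hm : 1 ≤ m) (h1 : ¬ J 1) (hm1 : ¬ J m) (hL : ¬ J 0) (hR : J (m + 1))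
    (h0 : s₀ 0 ≠ neg (s₀ 1)) : Kills m J s₀ p := by
  by_cases hex : ∃ D, frk D (s₀ 0) (s₀ 1) = true
  · obtain ⟨D1, hD1⟩ := hex
    refine ⟨fun j => if j = m + 1 then lf (neg (s₀ m)) (leafL (altT D1 (m + 1)) (s₀ m)) else ∅,
      ?_, ?_, ?_⟩
    · intro j
      dsimp only
      split_ifs
      · exact lf_card _ _
      · simp
    · intro h2 h3
      dsimp only
      rw [if_neg (by omega)]; simp
    · intro s hs hav
      have e0 : s 0 = s₀ 0 := hs 0 (by omega) hL
      have e1 : s 1 = s₀ 1 := hs 1 (by omega) h1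
      have e2 : s m = s₀ m := hs m (by omega) hm1
      have a0 := hav (m + 1) (by omega) hR
      simp only [if_true, lf, mem_insert, mem_singleton, not_or] at a0
      rw [cext_iff hm]
      refine ⟨?_, ?_, ?_⟩
      · rw [e0, e1]; exact h0
      · rw [e2]; exact fun h => a0.1 (H3DA.eq_neg_symm h)
      · intro D hD
        apply a0.2
        have h4 := hD.1
        rw [e0, e1] at h4
        have h5 := frk_unique _ _ _ _ h4 hD1
        have := frk_iff.1 hD.2.2
        rw [e2, h5] at this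
        exact this
  · push Not at hex
    refine ⟨fun j => if j = m + 1 then lf (neg (s₀ m)) (neg (s₀ m)) else ∅, ?_, ?_, ?_⟩
    · intro j
      dsimp only
      split_ifs
      · exact lf_card _ _
      · simp
    · intro h2 h3
      dsimp only
      rw [if_neg (by omega)]; simp
    · intro s hs hav
      have e0 : s 0 = s₀ 0 := hs 0 (by omega) hL
      have e1 : s 1 = s₀ 1 := hs 1 (by omega) h1
      have e2 : s m = s₀ m := hs m (by omega) hm1
      have a0 := hav (m + 1) (by omega) hR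
      simp only [if_true, lf, mem_insert, mem_singleton, not_or] at a0
      rw [cext_iff hm]
      refine ⟨?_, ?_, ?_⟩
      · rw [e0, e1]; exact h0
      · rw [e2]; exact fun h => a0.1 (H3DA.eq_neg_symm h)
      · intro D hD
        have h4 := hD.1
        rw [e0, e1] at h4
        exact hex D h4

/-- No leaf belongs to the chain, `q` is an inner port of the chain. -/
lemma kills_inner (hm : 1 ≤ m) (h1 : ¬ J 1) (hm1 : ¬ J m) (hL : ¬ J 0) (hR : ¬ J (m + 1))
    (h0 : s₀ 0 ≠ neg (s₀ 1)) (h0' : s₀ m ≠ neg (s₀ (m + 1))) {q : ℕ} (hq : 2 ≤ q) (hqm : q + 1 ≤ m)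
    (hJq : J q) (hqp : J p → 2 ≤ p → p + 1 ≤ m → q = p) : Kills m J s₀ p := by
  classical
  by_cases hex : ∃ D, frk D (s₀ 0) (s₀ 1) = true
  swap
  · push Not at hex
    refine ⟨fun _ => ∅, fun _ => by simp, fun _ _ => by simp, fun s hs hav => ?_⟩
    have e0 : s 0 = s₀ 0 := hs 0 (by omega) hL
    have e1 : s 1 = s₀ 1 := hs 1 (by omega) h1
    have e2 : s m = s₀ m := hs m (by omega) hm1
    have e3 : s (m + 1) = s₀ (m + 1) := hs (m + 1) (by omega) hR
    rw [cext_iff hm]
    refine ⟨by rw [e0, e1]; exact h0, by rw [e2, e3]; exact h0', fun D hD => ?_⟩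
    have h4 := hD.1
    rw [e0, e1] at h4
    exact hex D h4
  obtain ⟨D1, hD1⟩ := hex
  obtain ⟨i0, r, hi0, hir, hf0, hf1, hq1, hq2, hrun⟩ := max_run h1 hm1 hq hqm hJq
  -- reduction to a forbidden set at one port
  have main : ∀ t, i0 + 1 ≤ t → t ≤ i0 + r → ∀ A : Finset Q, A.card ≤ 2 →
      ((2 ≤ p → p + 1 ≤ m → t = p → J p → A.card ≤ 1)) →
      (∀ s : ℕ → Q, (∀ j ≤ m + 1, ¬ J j → s j = s₀ j) → Tight D1 s m → s t ∈ A) →
      Kills m J s₀ p := by
    intro t ht1 ht2 A hA hA1 hkill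
    have hJt := hrun t ht1 ht2
    refine ⟨fun j => if j = t then A else ∅, fun j => ?_, fun h2 h3 => ?_, fun s hs hav => ?_⟩
    · dsimp only
      split_ifs
      · exact hA
      · simp
    · dsimp only
      by_cases hpt : p = t
      · rw [if_pos hpt]; exact hA1 h2 h3 hpt.symm (hpt ▸ hJt)
      · rw [if_neg hpt]; simp
    have e0 : s 0 = s₀ 0 := hs 0 (by omega) hL
    have e1 : s 1 = s₀ 1 := hs 1 (by omega) h1
    have e2 : s m = s₀ m := hs m (by omega) hm1
    have e3 : s (m + 1) = s₀ (m + 1) := hs (m + 1) (by omega) hR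
    rw [cext_iff hm]
    refine ⟨by rw [e0, e1]; exact h0, by rw [e2, e3]; exact h0', fun D hD => ?_⟩
    have h4 := hD.1
    rw [e0, e1] at h4
    rw [frk_unique _ _ _ _ h4 hD1] at hD
    have h5 := hav t (by omega) hJt
    dsimp only at h5
    rw [if_pos rfl] at h5
    exact h5 (hkill s hs hD)
  by_cases hr1 : r = 1
  · -- a run of length one
    subst hr1
    have hq3 : q = i0 + 1 := by omega
    refine main (i0 + 1) le_rfl le_rfl (nxt (altT D1 i0) (neg (s₀ i0)) ∩
      nxt (co (altT D1 i0)) (neg (s₀ (i0 + 2)))) ?_ (fun _ _ _ _ => nxt2_card _ _ _)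
      (fun s hs hT => ?_)
    · exact (nxt2_card _ _ _).trans (by omega)
    · have g1 := hT.2.1 i0 hi0 (by omega)
      have g2 := hT.2.1 (i0 + 1) (by omega) (by omega)
      have e4 : s i0 = s₀ i0 := hs i0 (by omega) hf0
      have e5 : s (i0 + 2) = s₀ (i0 + 2) := hs (i0 + 2) (by omega) (by simpa using hf1)
      rw [e4] at g1
      rw [altT_succ, stp_neg1, stp_symm, show i0 + 1 + 1 = i0 + 2 by rfl, e5] at g2
      rw [mem_inter, mem_nxt, mem_nxt]
      exact ⟨g1, g2⟩
  · by_cases hqi : q = i0 + 1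
    · -- use the right end of the run
      refine main (i0 + r) (by omega) le_rfl (nxt (altT D1 (i0 + r)) (neg (s₀ (i0 + r + 1))))
        (nxt_card _ _) (fun h2 h3 h4 h5 => ?_) (fun s hs hT => ?_)
      · have := hqp h5 h2 h3
        omega
      · have g1 := hT.2.1 (i0 + r) (by omega) (by omega)
        have e4 : s (i0 + r + 1) = s₀ (i0 + r + 1) := hs (i0 + r + 1) (by omega) hf1
        rw [stp_neg1, stp_symm, e4] at g1
        rw [mem_nxt]; exact g1
    · refine main (i0 + 1) le_rfl (by omega) (nxt (altT D1 i0) (neg (s₀ i0)))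
        (nxt_card _ _) (fun h2 h3 h4 h5 => ?_) (fun s hs hT => ?_)
      · have := hqp h5 h2 h3
        omega
      · have g1 := hT.2.1 i0 (by omega) (by omega)
        have e4 : s i0 = s₀ i0 := hs i0 (by omega) hf0
        rw [e4] at g1
        rw [mem_nxt]; exact g1

/-- The static kill lemma, the fixed port of each fork has the inner index. -/
theorem kills_norm (hm : 1 ≤ m) (h1 : ¬ J 1) (hm1 : ¬ J m) (hex : ∃ j ≤ m + 1, J j)
    (h0 : ¬ J 0 → s₀ 0 ≠ neg (s₀ 1)) (h0' : ¬ J (m + 1) → s₀ m ≠ neg (s₀ (m + 1)))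
    (hbig : J 0 → J (m + 1) → 3 ≤ m) : Kills m J s₀ p := by
  classical
  by_cases hL : J 0
  · by_cases hR : J (m + 1)
    · have hm3 := hbig hL hR
      -- an inner port of the chain or all inner ports fixed
      by_cases hin : ∃ q, 2 ≤ q ∧ q + 1 ≤ m ∧ J q
      · obtain ⟨q, hq1, hq2, hJq, hqp⟩ : ∃ q, 2 ≤ q ∧ q + 1 ≤ m ∧ J q ∧
            (J p → 2 ≤ p → p + 1 ≤ m → q = p) := by
          by_cases hp : J p ∧ 2 ≤ p ∧ p + 1 ≤ m
          · exact ⟨p, hp.2.1, hp.2.2, hp.1, fun _ _ _ => rfl⟩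
          · obtain ⟨q, h2, h3, h4⟩ := hin
            exact ⟨q, h2, h3, h4, fun h5 h6 h7 => absurd ⟨h5, h6, h7⟩ hp⟩
        obtain ⟨i0, r, hi0, hir, hf0, hf1, hq3, hq4, hrun⟩ := max_run h1 hm1 hq1 hq2 hJq
        obtain ⟨F, D1, D2, hF2, hF1, hF⟩ := run_sets hi0 hir (s₀ i0) (s₀ (i0 + r + 1)) hq3 hq4
        refine kills_both hm h1 hm1 hL hR (F := fun j => if J j then F j else ∅) (D1 := D1) (D2 := D2)
          (fun j => ?_) (fun h2 h3 => ?_) (fun D hD1 hD2 s hs hav hT => ?_)
        · split_ifs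
          · exact hF2 j
          · simp
        · by_cases hJp : J p
          · rw [if_pos hJp, ← hqp hJp h2 h3]; exact hF1
          · rw [if_neg hJp]; simp
        · obtain ⟨j, hj1, hj2, hj3⟩ := hF D hD1 hD2 s (hs i0 (by omega) hf0)
            (hs (i0 + r + 1) (by omega) hf1) hT
          have hJj := hrun j hj1 hj2
          have := hav j (by omega) (by omega) hJj
          rw [if_pos hJj] at this
          exact this hj3
      · push Not at hin
        have hfix : ∀ j, 1 ≤ j → j ≤ m → ¬ J j := by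
          intro j hj hj' hJ
          by_cases hj1 : j = 1
          · exact h1 (hj1 ▸ hJ)
          · by_cases hj2 : j = m
            · exact hm1 (hj2 ▸ hJ)
            · exact hin j (by omega) (by omega) hJ
        obtain ⟨D1, D2, hD⟩ := two_steps (neg (s₀ 1)) (s₀ 2) (neg (s₀ 3))
        refine kills_both hm h1 hm1 hL hR (F := fun _ => ∅) (D1 := D1) (D2 := D2)
          (fun j => by simp) (fun h2 h3 => by simp) (fun D hD1 hD2 s hs hav hT => ?_)
        apply hD D hD1 hD2
        have g1 := hT.2.1 1 le_rfl (by omega)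
        have g2 := hT.2.1 2 (by omega) (by omega)
        have e1 : s 1 = s₀ 1 := hs 1 (by omega) h1
        have e2 : s 2 = s₀ 2 := hs 2 (by omega) (hfix 2 (by omega) (by omega))
        have e3 : s 3 = s₀ 3 := hs 3 (by omega) (hfix 3 (by omega) (by omega))
        rw [altT_one, show 1 + 1 = 2 by rfl, e1, e2] at g1
        rw [show altT D 2 = co D by rw [show (2 : ℕ) = 1 + 1 by rfl, altT_succ, altT_one],
          show 2 + 1 = 3 by rfl, e2, e3, stp_neg1] at g2
        exact ⟨g1, g2⟩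
    · exact kills_left hm h1 hm1 hL hR (h0' hR)
  · by_cases hR : J (m + 1)
    · exact kills_right hm h1 hm1 hL hR (h0 hL)
    · obtain ⟨j, hj, hJj⟩ := hex
      have hin : ∃ q, 2 ≤ q ∧ q + 1 ≤ m ∧ J q := by
        have : j ≠ 0 := fun h => hL (h ▸ hJj)
        have : j ≠ 1 := fun h => h1 (h ▸ hJj)
        have : j ≠ m := fun h => hm1 (h ▸ hJj)
        have : j ≠ m + 1 := fun h => hR (h ▸ hJj)
        exact ⟨j, by omega, by omega, hJj⟩
      obtain ⟨q, hq1, hq2, hJq, hqp⟩ : ∃ q, 2 ≤ q ∧ q + 1 ≤ m ∧ J q ∧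
          (J p → 2 ≤ p → p + 1 ≤ m → q = p) := by
        by_cases hp : J p ∧ 2 ≤ p ∧ p + 1 ≤ m
        · exact ⟨p, hp.2.1, hp.2.2, hp.1, fun _ _ _ => rfl⟩
        · obtain ⟨q, h2, h3, h4⟩ := hin
          exact ⟨q, h2, h3, h4, fun h5 h6 h7 => absurd ⟨h5, h6, h7⟩ hp⟩
      exact kills_inner hm h1 hm1 hL hR (h0 hL) (h0' hR) hq1 hq2 hJq hqp

end kill

/-- Exchange of the two ports of the left fork. -/
def swL (j : ℕ) : ℕ := if j = 0 then 1 else if j = 1 then 0 else j

lemma swL_swL (j : ℕ) : swL (swL j) = j := by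
  unfold swL
  split_ifs <;> simp_all

lemma swL_of {j : ℕ} (hj : 2 ≤ j) : swL j = j := by
  unfold swL
  rw [if_neg (by omega), if_neg (by omega)]

/-- Exchange of the two ports of the right fork. -/
def swR (m j : ℕ) : ℕ := if j = m then m + 1 else if j = m + 1 then m else j

lemma swR_swR (m j : ℕ) : swR m (swR m j) = j := by
  unfold swR
  split_ifs <;> omega

lemma swR_of {m j : ℕ} (hj : j < m) : swR m j = j := by
  unfold swR
  rw [if_neg (by omega), if_neg (by omega)]

lemma cext_swL {m : ℕ} (hm : 2 ≤ m) {s : ℕ → Q} (h : CExt m s) : CExt m (fun j => s (swL j)) := by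
  obtain ⟨x, h1, h2, h3, h4⟩ := h
  refine ⟨x, fun i hi him => ?_, ?_, ?_, h4⟩
  · by_cases hi1 : i = 1
    · subst hi1; exact h2
    · show nr (x i) (s (swL i)) = true
      rw [swL_of (by omega)]
      exact h1 i hi him
  · exact h1 1 le_rfl (by omega)
  · show nr (x m) (s (swL (m + 1))) = true
    rw [swL_of (by omega)]
    exact h3

lemma cext_swR {m : ℕ} (hm : 2 ≤ m) {s : ℕ → Q} (h : CExt m s) : CExt m (fun j => s (swR m j)) := by
  obtain ⟨x, h1, h2, h3, h4⟩ := h
  refine ⟨x, fun i hi him => ?_, ?_, ?_, h4⟩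
  · by_cases hi1 : i = m
    · subst hi1
      show nr (x i) (s (swR i i)) = true
      have : swR i i = i + 1 := by unfold swR; simp
      rw [this]; exact h3
    · show nr (x i) (s (swR m i)) = true
      rw [swR_of (by omega)]
      exact h1 i hi him
  · show nr (x 1) (s (swR m 0)) = true
    rw [swR_of (by omega)]
    exact h2
  · show nr (x m) (s (swR m (m + 1))) = true
    have : swR m (m + 1) = m := by unfold swR; simp
    rw [this]; exact h1 m (by omega) le_rfl

lemma kills_of_swap {m : ℕ} {J : ℕ → Prop} {s₀ : ℕ → Q} {p : ℕ} {w : ℕ → ℕ} (hww : ∀ j, w (w j) = j)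
    (hwm : ∀ j ≤ m + 1, w j ≤ m + 1) (hwp : 2 ≤ p → p + 1 ≤ m → w p = p)
    (hext : ∀ s : ℕ → Q, CExt m s → CExt m (fun j => s (w j)))
    (h : Kills m (fun j => J (w j)) (fun j => s₀ (w j)) p) : Kills m J s₀ p := by
  obtain ⟨F, hF2, hF1, hF⟩ := h
  refine ⟨fun j => F (w j), fun j => hF2 _, fun h2 h3 => ?_, fun s hs hav => ?_⟩
  · dsimp only
    rw [hwp h2 h3]; exact hF1 h2 h3
  · have h1 := hF (fun j => s (w j)) (fun j hj hJ => hs (w j) (hwm j hj) hJ) (fun j hj hJ => by
      have := hav (w j) (hwm j hj) hJ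
      dsimp only at this
      rwa [hww] at this)
    have h2 := hext _ h1
    simp only [hww] at h2
    exact h2

/-- The static kill lemma. -/
theorem kills {m : ℕ} {J : ℕ → Prop} {s₀ : ℕ → Q} {p : ℕ} (hm : 2 ≤ m) (hL : ¬ (J 0 ∧ J 1))
    (hR : ¬ (J m ∧ J (m + 1))) (hex : ∃ j ≤ m + 1, J j)
    (h0 : ¬ J 0 → ¬ J 1 → s₀ 0 ≠ neg (s₀ 1)) (h0' : ¬ J m → ¬ J (m + 1) → s₀ m ≠ neg (s₀ (m + 1)))
    (hbig : J 0 ∨ J 1 → J m ∨ J (m + 1) → 3 ≤ m) : Kills m J s₀ p := by
  classical
  -- first the right side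
  have key : ∀ (J : ℕ → Prop) (s₀ : ℕ → Q), ¬ (J 0 ∧ J 1) → ¬ J m → (∃ j ≤ m + 1, J j) →
      (¬ J 0 → ¬ J 1 → s₀ 0 ≠ neg (s₀ 1)) → (¬ J (m + 1) → s₀ m ≠ neg (s₀ (m + 1))) →
      (J 0 ∨ J 1 → J (m + 1) → 3 ≤ m) → Kills m J s₀ p := by
    intro J s₀ hL hm1 hex h0 h0' hbig
    by_cases h1 : J 1
    · refine kills_of_swap swL_swL (fun j hj => by unfold swL; split_ifs <;> omega)
        (fun h2 _ => swL_of h2) (fun s hs => cext_swL hm hs) ?_
      have e0 : swL 0 = 1 := rfl
      have e1 : swL 1 = 0 := rfl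
      have em : swL m = m := swL_of hm
      have em1 : swL (m + 1) = m + 1 := swL_of (by omega)
      have hJ0 : ¬ J 0 := fun h => hL ⟨h, h1⟩
      refine kills_norm (by omega) (by simp only [e1]; exact hJ0) (by simp only [em]; exact hm1)
        ?_ ?_ ?_ ?_
      · obtain ⟨j, hj, hJ⟩ := hex
        refine ⟨swL j, by unfold swL; split_ifs <;> omega, by simp only [swL_swL]; exact hJ⟩
      · intro h
        exact absurd h1 (by simpa only [e0] using h)
      · intro h
        simp only [em, em1] at h ⊢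
        exact h0' h
      · intro _ h
        simp only [em1] at h
        exact hbig (Or.inr h1) h
    · exact kills_norm (by omega) h1 hm1 hex (fun h => h0 h h1) h0' (fun h => hbig (Or.inl h))
  by_cases hm1 : J m
  · refine kills_of_swap (swR_swR m) (fun j hj => by unfold swR; split_ifs <;> omega)
      (fun h2 h3 => swR_of (by omega)) (fun s hs => cext_swR hm hs) ?_
    have e0 : swR m 0 = 0 := swR_of (by omega)
    have e1 : swR m 1 = 1 := swR_of (by omega)
    have em : swR m m = m + 1 := by unfold swR; simp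
    have em1 : swR m (m + 1) = m := by unfold swR; simp
    have hJ0 : ¬ J (m + 1) := fun h => hR ⟨hm1, h⟩
    refine key _ _ (by simp only [e0, e1]; exact hL) (by simp only [em]; exact hJ0) ?_ ?_ ?_ ?_
    · obtain ⟨j, hj, hJ⟩ := hex
      refine ⟨swR m j, by unfold swR; split_ifs <;> omega, by simp only [swR_swR]; exact hJ⟩
    · simp only [e0, e1]; exact h0
    · intro h
      exact absurd hm1 (by simpa only [em1] using h)
    · intro h _
      simp only [e0, e1] at h
      exact hbig h (Or.inl hm1)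
  · exact key J s₀ hL hm1 hex h0 (fun h => h0' hm1 h) (fun h h' => hbig h (Or.inr h'))

/-- A 3-star with one port in the chain. -/
theorem kills_star {J : ℕ → Prop} {s₀ : ℕ → Q} {p j₀ : ℕ} (hj₀ : j₀ ≤ 2) (hJ : J j₀)
    (hJ' : ∀ j ≤ 2, J j → j = j₀) (h0 : ∀ i j, i ≤ 2 → j ≤ 2 → i ≠ j → i ≠ j₀ → j ≠ j₀ →
      s₀ i ≠ neg (s₀ j)) : Kills 1 J s₀ p := by
  have hC : ∀ s : ℕ → Q, s 0 ≠ neg (s 1) → s 0 ≠ neg (s 2) → s 1 ≠ neg (s 2) → CExt 1 s := by
    intro s h1 h2 h3
    obtain ⟨x, hx1, hx2, hx3⟩ := H3DA.near3 h1 h2 h3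
    refine ⟨fun _ => x, fun i hi him => ?_, hx1, hx3, fun i hi him => by omega⟩
    have : i = 1 := by omega
    subst this; exact hx2
  have hsym : ∀ x y : Q, x ≠ neg y → y ≠ neg x := fun x y => H3DA.ne_neg_symm
  have hj3 : j₀ = 0 ∨ j₀ = 1 ∨ j₀ = 2 := by omega
  rcases hj3 with h | h | h
  · subst h
    refine ⟨fun _ => {neg (s₀ 1), neg (s₀ 2)}, fun _ => Finset.card_le_two, fun _ _ => by omega,
      fun s hs hav => ?_⟩
    have e1 := hs 1 (by omega) (fun h => absurd (hJ' 1 (by omega) h) (by omega))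
    have e2 := hs 2 (by omega) (fun h => absurd (hJ' 2 (by omega) h) (by omega))
    have a0 := hav 0 (by omega) hJ
    simp only [mem_insert, mem_singleton, not_or] at a0
    exact hC s (by rw [e1]; exact a0.1) (by rw [e2]; exact a0.2)
      (by rw [e1, e2]; exact h0 1 2 (by omega) (by omega) (by omega) (by omega) (by omega))
  · subst h
    refine ⟨fun _ => {neg (s₀ 0), neg (s₀ 2)}, fun _ => Finset.card_le_two, fun _ _ => by omega,
      fun s hs hav => ?_⟩
    have e1 := hs 0 (by omega) (fun h => absurd (hJ' 0 (by omega) h) (by omega))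
    have e2 := hs 2 (by omega) (fun h => absurd (hJ' 2 (by omega) h) (by omega))
    have a0 := hav 1 (by omega) hJ
    simp only [mem_insert, mem_singleton, not_or] at a0
    exact hC s (by rw [e1]; exact hsym _ _ a0.1)
      (by rw [e1, e2]; exact h0 0 2 (by omega) (by omega) (by omega) (by omega) (by omega))
      (by rw [e2]; exact a0.2)
  · subst h
    refine ⟨fun _ => {neg (s₀ 0), neg (s₀ 1)}, fun _ => Finset.card_le_two, fun _ _ => by omega,
      fun s hs hav => ?_⟩
    have e1 := hs 0 (by omega) (fun h => absurd (hJ' 0 (by omega) h) (by omega))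
    have e2 := hs 1 (by omega) (fun h => absurd (hJ' 1 (by omega) h) (by omega))
    have a0 := hav 2 (by omega) hJ
    simp only [mem_insert, mem_singleton, not_or] at a0
    exact hC s (by rw [e1, e2]; exact h0 0 1 (by omega) (by omega) (by omega) (by omega) (by omega))
      (by rw [e1]; exact hsym _ _ a0.1) (by rw [e2]; exact hsym _ _ a0.2)

end CLB.H95
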