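import Mathlib

/-!
Criterion for good 5-edge-colourings: five 2-colourings of the vertices such that every edge is
monochromatic in at most one of them; and its form `(R, S, c)`: a cut `S`, a bipartition `R` of the
edges not in the cut, and a proper 4-colouring `c` of the graph with the cut edges contracted.
-/

set_option autoImplicit false

namespace CLB.H95

variable {V : Type*} {G : SimpleGraph V}

/-- The conclusion of the frozen statement. -/
def Good (G : SimpleGraph V) : Prop :=
  ∃ c : Sym2 V → Fin 5, ∀ i : Fin 5,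
    (SimpleGraph.fromEdgeSet {e | e ∈ G.edgeSet ∧ c e ≠ i}).Colorable 2

/-- Five 2-colourings, every edge is monochromatic in at most one of them. -/
theorem crit_gen (g : Fin 5 → V → Bool)
    (h : ∀ u v, G.Adj u v → ∃ i, ∀ j, j ≠ i → g j u ≠ g j v) : Good G := by
  classical
  have key : ∀ e : Sym2 V, ∃ i : Fin 5, e ∈ G.edgeSet →
      ∀ u v, e = s(u, v) → ∀ j, j ≠ i → g j u ≠ g j v := by
    intro e
    induction e using Sym2.ind with
    | _ u v =>
      by_cases huv : G.Adj u v
      · obtain ⟨i, hi⟩ := h u v huv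
        refine ⟨i, fun _ a b hab j hj => ?_⟩
        rw [Sym2.eq_iff] at hab
        rcases hab with ⟨rfl, rfl⟩ | ⟨rfl, rfl⟩
        · exact hi j hj
        · exact (hi j hj).symm
      · exact ⟨0, fun he => absurd he huv⟩
  choose col hcol using key
  refine ⟨col, fun i => ?_⟩
  refine ⟨SimpleGraph.Coloring.mk (fun v => if g i v then (0 : Fin 2) else 1) ?_⟩
  intro u v huv
  rw [SimpleGraph.fromEdgeSet_adj] at huv
  have h1 := hcol s(u, v) huv.1.1 u v rfl i (Ne.symm huv.1.2)
  rcases hu : g i u <;> rcases hv : g i v <;> simp_all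

/-- Criterion with a cut `S`, a bipartition `R` of the other edges and a proper 4-colouring `c` of the
contraction of the cut. -/
theorem crit_bool (R S : V → Bool) (c : V → Bool × Bool)
    (h : ∀ u v, G.Adj u v → (S u ≠ S v ∧ c u = c v) ∨ (S u = S v ∧ R u ≠ R v ∧ c u ≠ c v)) :
    Good G := by
  apply crit_gen (g := fun i v => match i with
    | 0 => R v
    | 1 => xor (R v) (S v)
    | 2 => xor (S v) (c v).1
    | 3 => xor (S v) (c v).2
    | 4 => xor (S v) (xor (c v).1 (c v).2))
  intro u v huv
  have h1 := h u v huv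
  generalize R u = a1 at h1 ⊢
  generalize S u = a2 at h1 ⊢
  generalize c u = a3 at h1 ⊢
  generalize R v = b1 at h1 ⊢
  generalize S v = b2 at h1 ⊢
  generalize c v = b3 at h1 ⊢
  obtain ⟨a3, a4⟩ := a3
  obtain ⟨b3, b4⟩ := b3
  revert h1
  revert a1 a2 a3 a4 b1 b2 b3 b4
  decide

/-- The same with colours in `Fin 4`. -/
theorem crit (R S : V → Bool) (c : V → Fin 4)
    (h : ∀ u v, G.Adj u v → (S u ≠ S v ∧ c u = c v) ∨ (S u = S v ∧ R u ≠ R v ∧ c u ≠ c v)) :
    Good G := by
  apply crit_bool R S (fun v => (decide (c v = 0 ∨ c v = 1), decide (c v = 0 ∨ c v = 2)))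
  intro u v huv
  have h1 := h u v huv
  generalize R u = a1 at h1 ⊢
  generalize S u = a2 at h1 ⊢
  generalize c u = a3 at h1 ⊢
  generalize R v = b1 at h1 ⊢
  generalize S v = b2 at h1 ⊢
  generalize c v = b3 at h1 ⊢
  revert h1
  revert a1 a2 a3 b1 b2 b3
  decide

/-- The graph of the edges cut by `S`. -/
def cutGraph (G : SimpleGraph V) (S : V → Bool) : SimpleGraph V where
  Adj u v := G.Adj u v ∧ S u ≠ S v
  symm := ⟨fun _ _ h => ⟨h.1.symm, h.2.symm⟩⟩
  loopless := ⟨fun _ h => h.2 rfl⟩

/-- The contraction of the cut `S` (as a simple graph, loops ignored). -/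
def quot (G : SimpleGraph V) (S : V → Bool) :
    SimpleGraph (cutGraph G S).ConnectedComponent where
  Adj T T' := T ≠ T' ∧ ∃ u v, (cutGraph G S).connectedComponentMk u = T ∧
    (cutGraph G S).connectedComponentMk v = T' ∧ G.Adj u v ∧ S u = S v
  symm := ⟨by
    rintro T T' ⟨h, u, v, h1, h2, h3, h4⟩
    exact ⟨h.symm, v, u, h2, h1, h3.symm, h4.symm⟩⟩
  loopless := ⟨fun _ h => h.1 rfl⟩

/-- Criterion with the contraction. -/
theorem crit_quot (R S : V → Bool)
    (hR : ∀ u v, G.Adj u v → S u = S v → R u ≠ R v)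
    (hloop : ∀ u v, G.Adj u v → S u = S v →
      (cutGraph G S).connectedComponentMk u ≠ (cutGraph G S).connectedComponentMk v)
    (hcol : (quot G S).Colorable 4) : Good G := by
  obtain ⟨c⟩ := hcol
  apply crit R S (fun v => c ((cutGraph G S).connectedComponentMk v))
  intro u v huv
  by_cases hS : S u = S v
  · right
    refine ⟨hS, hR u v huv hS, ?_⟩
    exact c.valid ⟨hloop u v huv hS, u, v, rfl, rfl, huv, hS⟩
  · left
    refine ⟨hS, ?_⟩
    have : (cutGraph G S).connectedComponentMk u = (cutGraph G S).connectedComponentMk v := by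
      rw [SimpleGraph.ConnectedComponent.eq]
      exact SimpleGraph.Adj.reachable (show (cutGraph G S).Adj u v from ⟨huv, hS⟩)
    simp only [this]

end CLB.H95
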