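import Pool.Agent.Helper95_CLB.Chain

/-!
Closed lazy walks in the 3-cube through a cyclic sequence of lists of size at least four, of even length.
-/

set_option autoImplicit false

namespace CLB.H95

open Finset
open H3DA (Q neg nr)

/-- A closed walk winding `m` times around the cyclic sequence of lists with period `k`. -/
def ClosedW (A : ℕ → Finset Q) (k m : ℕ) : Prop :=
  ∃ w : ℕ → Q, (∀ i, w (i + m * k) = w i) ∧ (∀ i, w i ∈ A i) ∧ ∀ i, nr (w i) (w (i + 1)) = true

lemma per_add {α : Type*} {A : ℕ → α} {k : ℕ} (hper : ∀ i, A (i + k) = A i) (i n : ℕ) :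
    A (i + n * k) = A i := by
  induction n with
  | zero => simp
  | succ n ih => rw [Nat.succ_mul, ← Nat.add_assoc, hper, ih]

lemma closed_window {A : ℕ → Finset Q} {k m : ℕ} (hk : 0 < k) (hm : 0 < m)
    (hper : ∀ i, A (i + k) = A i) {w : ℕ → Q} (s : ℕ)
    (h1 : ∀ i, i < m * k → w (s + i) ∈ A (s + i))
    (h2 : ∀ i, i + 1 < m * k → nr (w (s + i)) (w (s + i + 1)) = true)
    (h3 : nr (w (s + (m * k - 1))) (w s) = true) : ClosedW A k m := by
  set L := m * k with hL
  have hLpos : 0 < L := Nat.mul_pos hm hk
  have hsL : s ≤ s * L := Nat.le_mul_of_pos_right s hLpos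
  refine ⟨fun i => w (s + (i + s * L - s) % L), fun i => ?_, fun i => ?_, fun i => ?_⟩
  · show w (s + (i + L + s * L - s) % L) = w (s + (i + s * L - s) % L)
    rw [show i + L + s * L - s = (i + s * L - s) + L by omega, Nat.add_mod_right]
  · show w (s + (i + s * L - s) % L) ∈ A i
    have e1 := Nat.mod_add_div (i + s * L - s) L
    have e2 := h1 _ (Nat.mod_lt (i + s * L - s) hLpos)
    have e3 : A (s + (i + s * L - s) % L + ((i + s * L - s) / L * m) * k) = A (i + (s * m) * k) := by
      congr 1
      have e4 : (i + s * L - s) / L * m * k = L * ((i + s * L - s) / L) := by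
        rw [hL]; ring
      have e5 : s * m * k = s * L := by rw [hL]; ring
      rw [e4, e5]
      omega
    rw [per_add hper, per_add hper] at e3
    rw [← e3]; exact e2
  · show nr (w (s + (i + s * L - s) % L)) (w (s + (i + 1 + s * L - s) % L)) = true
    have hlt := Nat.mod_lt (i + s * L - s) hLpos
    rw [show i + 1 + s * L - s = (i + s * L - s) + 1 by omega, Nat.add_mod]
    by_cases hL1 : L = 1
    · have e1 : ∀ a, a % L = 0 := fun a => by rw [hL1]; exact Nat.mod_one a
      rw [e1, e1]
      exact H3DA.nr_self _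
    · rw [Nat.mod_eq_of_lt (show 1 < L by omega)]
      by_cases h : (i + s * L - s) % L + 1 < L
      · rw [Nat.mod_eq_of_lt h, ← Nat.add_assoc]
        exact h2 _ h
      · have e : (i + s * L - s) % L = L - 1 := by omega
        rw [e, show L - 1 + 1 = L by omega, Nat.mod_self, Nat.add_zero]
        exact h3

/-- Some closed walk exists, with possibly many windings. -/
lemma exists_closedW {A : ℕ → Finset Q} {k : ℕ} (hk : 0 < k) (hper : ∀ i, A (i + k) = A i)
    (hA : ∀ i, 4 ≤ (A i).card) : ∃ m, 0 < m ∧ ClosedW A k m := by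
  have h1 : 2 ≤ (reach (A 0) A (8 * k)).card :=
    reach_card2 (by have := hA 0; omega) (fun i _ _ => hA i)
  obtain ⟨v, hv⟩ := Finset.card_pos.1 (show 0 < (reach (A 0) A (8 * k)).card by omega)
  obtain ⟨w, g0, g1, g2, g3⟩ := reach_walk hv
  have g2' : ∀ i, i ≤ 8 * k → w i ∈ A i := by
    intro i hi
    by_cases h0 : i = 0
    · rw [h0]; exact g0
    · exact g2 i (by omega) hi
  have hni : ¬ Function.Injective (fun i : Fin 9 => w (i * k)) := by
    intro hinj
    have := Fintype.card_le_of_injective _ hinj
    rw [Fintype.card_fin, H3DA.card_Q] at this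
    omega
  rw [Function.Injective] at hni
  push Not at hni
  obtain ⟨i, j, hij, hne⟩ := hni
  have key : ∀ i j : Fin 9, (i : ℕ) < j → w (i * k) = w (j * k) → ∃ m, 0 < m ∧ ClosedW A k m := by
    intro i j hlt hw
    have hj : (j : ℕ) * k ≤ 8 * k := Nat.mul_le_mul_right k (by omega)
    have hjk : (i : ℕ) * k + (j - i) * k = j * k := by
      rw [← Nat.add_mul]; congr 1; omega
    have hpos : 0 < ((j : ℕ) - i) * k := Nat.mul_pos (by omega) hk
    refine ⟨j - i, by omega, closed_window hk (by omega) hper (w := w) (i * k) ?_ ?_ ?_⟩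
    · intro t ht; exact g2' _ (by omega)
    · intro t ht; exact g3 _ (by omega)
    · have := g3 ((i : ℕ) * k + ((j - i) * k - 1)) (by omega)
      rw [show (i : ℕ) * k + ((j - i) * k - 1) + 1 = j * k by omega, ← hw] at this
      exact this
  have hne' : (i : ℕ) ≠ j := fun h => hne (Fin.ext h)
  rcases Nat.lt_or_gt_of_ne hne' with h | h
  · exact key i j h hij
  · exact key j i h hij.symm

lemma pattern3' : ∀ a b c : Q, (a ≠ b ∧ a ≠ c ∧ b ≠ c ∧ a ≠ neg b ∧ a ≠ neg c ∧ b ≠ neg c) →
    ∀ x y : Q, (nr x a = nr y a ∧ nr x b = nr y b ∧ nr x c = nr y c) → x = y := by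
  decide +kernel

lemma pattern2' : ∀ p1 q1 : Q, (p1 ≠ q1 ∧ p1 ≠ neg q1) → ∀ p q p2 : Q, (p ≠ neg q ∧
    nr p p1 = true ∧ nr q q1 = true ∧ nr p q1 = false ∧ nr q p1 = false ∧ nr p2 p1 = true ∧
    nr p2 q1 = false) → (p2 = p ∨ p2 = neg q) := by
  decide +kernel

lemma ball_inter_add (a : Q) (B : Finset Q) :
    (ball a ∩ B).card + (ball (neg a) ∩ B).card = B.card := by
  have h1 : Disjoint (ball a ∩ B) (ball (neg a) ∩ B) := by
    rw [Finset.disjoint_left]
    intro x hx hx'
    rw [mem_inter, mem_ball] at hx hx'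
    have := hx'.1
    rw [nr_neg, hx.1] at this
    simp at this
  rw [← Finset.card_union_of_disjoint h1]
  congr 1
  ext x
  rw [mem_union, mem_inter, mem_inter, mem_ball, mem_ball, nr_neg]
  rcases nr a x <;> simp

lemma card_inter_sdiff (X B : Finset Q) : (X ∩ B).card + (B \ X).card = B.card := by
  rw [Finset.inter_comm, Finset.card_inter_add_card_sdiff]

/-- If the labels of `B` outside the neighbourhood of `L` are all possible ones, the antipode of a common
neighbour is among them. -/
lemma compl_mem {L B : Finset Q} {c : Q} (hL : L ⊆ ball c) (hc : 8 ≤ (nb L).card + (B \ nb L).card) :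
    neg c ∈ B := by
  have h1 : B \ nb L ⊆ (nb L)ᶜ := by
    intro x hx
    rw [mem_sdiff] at hx
    rw [mem_compl]; exact hx.2
  have h2 : (nb L)ᶜ.card = 8 - (nb L).card := by
    rw [Finset.card_compl, H3DA.card_Q]
  have h3 := Finset.eq_of_subset_of_card_le h1 (by omega)
  have h4 : neg c ∈ (nb L)ᶜ := by
    rw [mem_compl, mem_nb]
    rintro ⟨x, hx, hxc⟩
    have := mem_ball.1 (hL hx)
    rw [nr_neg', H3DA.nr_comm, this] at hxc
    simp at hxc
  rw [← h3, mem_sdiff] at h4
  exact h4.1

section anti

variable {k : ℕ} {B : ℕ → Finset Q} {a : Q}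

lemma reach_card2' {L : Finset Q} (hB : ∀ i, 1 ≤ i → i < k → (B i).card = 4) {i j : ℕ} (hij : i ≤ j)
    (hj : j < k) (h : 2 ≤ (reach L B i).card) : 2 ≤ (reach L B j).card := by
  induction j, hij using Nat.le_induction with
  | base => exact h
  | succ n hn ih =>
    have h1 := nb_card2 (ih (by omega))
    have h3 := hB (n + 1) (by omega) hj
    have h4 := card_inter_ge (nb (reach L B n)) (B (n + 1))
    rw [reach_succ]
    omega

lemma reach_card3' {L : Finset Q} (hB : ∀ i, 1 ≤ i → i < k → (B i).card = 4) {i j : ℕ} (hij : i ≤ j)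
    (hj : j < k) (h : 3 ≤ (reach L B i).card) : 3 ≤ (reach L B j).card := by
  induction j, hij using Nat.le_induction with
  | base => exact h
  | succ n hn ih =>
    have h1 := nb_card3 (ih (by omega))
    have h3 := hB (n + 1) (by omega) hj
    have h4 := card_inter_ge (nb (reach L B n)) (B (n + 1))
    rw [reach_succ]
    omega

lemma reach_sub' {L L' : Finset Q} {i j : ℕ} (hij : i ≤ j) (h : reach L B i ⊆ reach L' B i) :
    reach L B j ⊆ reach L' B j := by
  induction j, hij using Nat.le_induction with
  | base => exact h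
  | succ n hn ih =>
    rw [reach_succ, reach_succ]
    exact Finset.inter_subset_inter (nb_mono ih) (Finset.Subset.refl _)

lemma mem_reach_self {L : Finset Q} {c : Q} (h0 : L.Nonempty) (hL : L ⊆ ball c) {B : Finset Q}
    (hc : c ∈ B) : c ∈ nb L ∩ B := by
  obtain ⟨x, hx⟩ := h0
  rw [mem_inter, mem_nb]
  exact ⟨⟨x, hx, nr_symm (mem_ball.1 (hL hx))⟩, hc⟩

lemma ball_sub_reach {L B : Finset Q} {c : Q} (hc : c ∈ L) : ball c ∩ B ⊆ nb L ∩ B :=
  Finset.inter_subset_inter (ball_subset_nb hc) (Finset.Subset.refl _)

lemma reach_one (a : Q) (B : ℕ → Finset Q) : reach {a} B 1 = ball a ∩ B 1 := by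
  rw [reach_succ, reach_zero]
  congr 1
  ext x
  rw [mem_nb, mem_ball]; simp

/-- Both arms keep two labels. -/
lemma anti_two (hB : ∀ i, 1 ≤ i → i < k → (B i).card = 4)
    (h2 : ∀ i, 1 ≤ i → i < k → (reach {a} B i).card = 2 ∧ (reach {neg a} B i).card = 2) :
    ∀ j, 2 * j + 1 < k → reach {a} B (2 * j + 1) = ball a ∩ B (2 * j + 1) ∧
      reach {neg a} B (2 * j + 1) = ball (neg a) ∩ B (2 * j + 1) := by
  intro j
  induction j with
  | zero => intro _; exact ⟨reach_one _ _, reach_one _ _⟩
  | succ j ih =>
    intro hk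
    obtain ⟨e1, e2⟩ := ih (by omega)
    have c1 := h2 (2 * j + 1) (by omega) (by omega)
    have c2 := h2 (2 * j + 1 + 1) (by omega) (by omega)
    have c3 := h2 (2 * j + 1 + 1 + 1) (by omega) (by omega)
    have b2 := hB (2 * j + 1 + 1) (by omega) (by omega)
    have b3 := hB (2 * j + 1 + 1 + 1) (by omega) (by omega)
    have s1 : reach {a} B (2 * j + 1) ⊆ ball a := by rw [e1]; exact Finset.inter_subset_left
    have s2 : reach {neg a} B (2 * j + 1) ⊆ ball (neg a) := by rw [e2]; exact Finset.inter_subset_left
    have n1 : (reach {a} B (2 * j + 1)).Nonempty := Finset.card_pos.1 (by omega)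
    have n2 : (reach {neg a} B (2 * j + 1)).Nonempty := Finset.card_pos.1 (by omega)
    have m1 : neg a ∈ B (2 * j + 1 + 1) := by
      refine compl_mem s1 ?_
      have i1 := nb_card2 (L := reach {a} B (2 * j + 1)) (by omega)
      have i2 := card_inter_sdiff (nb (reach {a} B (2 * j + 1))) (B (2 * j + 1 + 1))
      rw [← reach_succ] at i2
      omega
    have m2 : a ∈ B (2 * j + 1 + 1) := by
      rw [← H3DA.neg_neg a]
      refine compl_mem s2 ?_
      have i1 := nb_card2 (L := reach {neg a} B (2 * j + 1)) (by omega)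
      have i2 := card_inter_sdiff (nb (reach {neg a} B (2 * j + 1))) (B (2 * j + 1 + 1))
      rw [← reach_succ] at i2
      omega
    have t1 : a ∈ reach {a} B (2 * j + 1 + 1) := mem_reach_self n1 s1 m2
    have t2 : neg a ∈ reach {neg a} B (2 * j + 1 + 1) := mem_reach_self n2 s2 m1
    have u1 := ball_sub_reach (B := B (2 * j + 1 + 1 + 1)) t1
    have u2 := ball_sub_reach (B := B (2 * j + 1 + 1 + 1)) t2
    rw [← reach_succ] at u1 u2
    have v1 := Finset.card_le_card u1
    have v2 := Finset.card_le_card u2
    have v3 := ball_inter_add a (B (2 * j + 1 + 1 + 1))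
    have w1 := Finset.eq_of_subset_of_card_le u1 (by omega)
    have w2 := Finset.eq_of_subset_of_card_le u2 (by omega)
    rw [show 2 * (j + 1) + 1 = 2 * j + 1 + 1 + 1 by ring]
    exact ⟨w1.symm, w2.symm⟩

/-- One arm is a single label, the other arm has the other three labels. -/
lemma anti_three (hB : ∀ i, 1 ≤ i → i < k → (B i).card = 4)
    (h2 : ∀ i, 1 ≤ i → i < k → (reach {a} B i).card = 1 ∧ (reach {neg a} B i).card = 3)
    (hd : ∀ i, 1 ≤ i → i < k → Disjoint (reach {a} B i) (reach {neg a} B i)) :
    ∀ j, 2 * j + 1 < k → reach {a} B (2 * j + 1) = ball a ∩ B (2 * j + 1) ∧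
      reach {neg a} B (2 * j + 1) = ball (neg a) ∩ B (2 * j + 1) := by
  intro j
  induction j with
  | zero => intro _; exact ⟨reach_one _ _, reach_one _ _⟩
  | succ j ih =>
    intro hk
    obtain ⟨e1, e2⟩ := ih (by omega)
    have c1 := h2 (2 * j + 1) (by omega) (by omega)
    have c2 := h2 (2 * j + 1 + 1) (by omega) (by omega)
    have c3 := h2 (2 * j + 1 + 1 + 1) (by omega) (by omega)
    have b2 := hB (2 * j + 1 + 1) (by omega) (by omega)
    have b3 := hB (2 * j + 1 + 1 + 1) (by omega) (by omega)
    have s1 : reach {a} B (2 * j + 1) ⊆ ball a := by rw [e1]; exact Finset.inter_subset_left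
    have s2 : reach {neg a} B (2 * j + 1) ⊆ ball (neg a) := by rw [e2]; exact Finset.inter_subset_left
    have n1 : (reach {a} B (2 * j + 1)).Nonempty := Finset.card_pos.1 (by omega)
    have m2 : a ∈ B (2 * j + 1 + 1) := by
      rw [← H3DA.neg_neg a]
      refine compl_mem s2 ?_
      have i1 := nb_card3 (L := reach {neg a} B (2 * j + 1)) (by omega)
      have i2 := card_inter_sdiff (nb (reach {neg a} B (2 * j + 1))) (B (2 * j + 1 + 1))
      rw [← reach_succ] at i2
      omega
    have t1 : a ∈ reach {a} B (2 * j + 1 + 1) := mem_reach_self n1 s1 m2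
    have u1 := ball_sub_reach (B := B (2 * j + 1 + 1 + 1)) t1
    rw [← reach_succ] at u1
    have t3 : reach {a} B (2 * j + 1 + 1) = {a} :=
      (Finset.eq_of_subset_of_card_le (Finset.singleton_subset_iff.2 t1)
        (by rw [c2.1, Finset.card_singleton])).symm
    have w1 : reach {a} B (2 * j + 1 + 1 + 1) = ball a ∩ B (2 * j + 1 + 1 + 1) := by
      rw [reach_succ, t3]
      congr 1
      ext x
      rw [mem_nb, mem_ball]; simp
    have v3 := ball_inter_add a (B (2 * j + 1 + 1 + 1))
    have u2 : reach {neg a} B (2 * j + 1 + 1 + 1) ⊆ ball (neg a) ∩ B (2 * j + 1 + 1 + 1) := by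
      intro x hx
      have hxB := reach_subset _ _ _ (by omega) hx
      rw [mem_inter, mem_ball, nr_neg]
      refine ⟨?_, hxB⟩
      have : x ∉ reach {a} B (2 * j + 1 + 1 + 1) :=
        fun h => Finset.disjoint_left.1 (hd _ (by omega) (by omega)) h hx
      rw [w1, mem_inter, mem_ball] at this
      have h3 : ¬ nr a x = true := fun h => this ⟨h, hxB⟩
      simpa using h3
    have w2 := Finset.eq_of_subset_of_card_le u2 (by rw [← w1] at v3; omega)
    rw [show 2 * (j + 1) + 1 = 2 * j + 1 + 1 + 1 by ring]
    exact ⟨w1, w2⟩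

lemma anti_contra13 (hk : 2 ≤ k) (hpar : k % 2 = 0) (hB : ∀ i, 1 ≤ i → i < k → (B i).card = 4)
    (hS : ∀ i < k, (reach {a} B i).Nonempty)
    (hSe : ∀ v ∈ reach {a} B (k - 1), nr a v = false)
    (hTe : ∀ v ∈ reach {neg a} B (k - 1), nr (neg a) v = false)
    (h3 : 3 ≤ (reach {neg a} B 1).card) : False := by
  have hsub : ∀ {L : Finset Q} {i : ℕ}, 1 ≤ i → i < k → (reach L B i).card ≤ 4 := by
    intro L i h1 h2
    rw [← hB i h1 h2]
    exact Finset.card_le_card (reach_subset _ _ _ (by omega))
  have hdis : Disjoint (reach {a} B (k - 1)) (reach {neg a} B (k - 1)) := by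
    rw [Finset.disjoint_left]
    intro x hx hx'
    have h1 := hSe x hx
    have h2 := hTe x hx'
    rw [nr_neg, h1] at h2
    simp at h2
  have hsum : (reach {a} B (k - 1)).card + (reach {neg a} B (k - 1)).card ≤ 4 := by
    rw [← hB (k - 1) (by omega) (by omega), ← Finset.card_union_of_disjoint hdis]
    exact Finset.card_le_card (Finset.union_subset (reach_subset _ _ _ (by omega))
      (reach_subset _ _ _ (by omega)))
  have ht3 : ∀ i, 1 ≤ i → i < k → 3 ≤ (reach {neg a} B i).card :=
    fun i h1 h2 => reach_card3' hB h1 h2 h3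
  have e1 := ht3 (k - 1) (by omega) (by omega)
  have hs1 : ∀ i, i < k → (reach {a} B i).card = 1 := by
    intro i hi
    have h0 := Finset.card_pos.2 (hS i hi)
    by_contra hne
    have := reach_card2' hB (show i ≤ k - 1 by omega) (by omega)
      (show 2 ≤ (reach {a} B i).card by omega)
    omega
  have hd : ∀ i, 1 ≤ i → i < k → Disjoint (reach {a} B i) (reach {neg a} B i) := by
    intro i h1 h2
    by_contra hcon
    rw [Finset.disjoint_left] at hcon
    push Not at hcon
    obtain ⟨x, hx, hx'⟩ := hcon
    have e3 : reach {a} B i = {x} :=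
      (Finset.eq_of_subset_of_card_le (Finset.singleton_subset_iff.2 hx)
        (by rw [hs1 i h2, Finset.card_singleton])).symm
    have e4 : reach {a} B i ⊆ reach {neg a} B i := by
      rw [e3, Finset.singleton_subset_iff]; exact hx'
    have e5 := reach_sub' (show i ≤ k - 1 by omega) e4
    obtain ⟨z, hz⟩ := hS (k - 1) (by omega)
    exact Finset.disjoint_left.1 hdis hz (e5 hz)
  have hc : ∀ i, 1 ≤ i → i < k → (reach {a} B i).card = 1 ∧ (reach {neg a} B i).card = 3 := by
    intro i h1 h2
    refine ⟨hs1 i h2, ?_⟩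
    have e6 : (reach {a} B i).card + (reach {neg a} B i).card ≤ 4 := by
      rw [← hB i h1 h2, ← Finset.card_union_of_disjoint (hd i h1 h2)]
      exact Finset.card_le_card (Finset.union_subset (reach_subset _ _ _ (by omega))
        (reach_subset _ _ _ (by omega)))
    have := ht3 i h1 h2
    have := hs1 i h2
    omega
  have hfin := (anti_three hB hc hd (k / 2 - 1) (by omega)).1
  rw [show 2 * (k / 2 - 1) + 1 = k - 1 by omega] at hfin
  obtain ⟨z, hz⟩ := hS (k - 1) (by omega)
  have hz' := hz
  rw [hfin, mem_inter, mem_ball] at hz'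
  rw [hSe z hz] at hz'
  simp at hz'

theorem anti_contra (hk : 2 ≤ k) (hpar : k % 2 = 0) (hB : ∀ i, 1 ≤ i → i < k → (B i).card = 4)
    (hS : ∀ i < k, (reach {a} B i).Nonempty) (hT : ∀ i < k, (reach {neg a} B i).Nonempty)
    (hSe : ∀ v ∈ reach {a} B (k - 1), nr a v = false)
    (hTe : ∀ v ∈ reach {neg a} B (k - 1), nr (neg a) v = false) : False := by
  have e1 := ball_inter_add a (B 1)
  rw [← reach_one, ← reach_one, hB 1 le_rfl (by omega)] at e1
  by_cases h3 : 3 ≤ (reach {neg a} B 1).card
  · exact anti_contra13 hk hpar hB hS hSe hTe h3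
  by_cases h3' : 3 ≤ (reach {a} B 1).card
  · refine anti_contra13 (a := neg a) hk hpar hB hT hTe ?_ ?_
    · rw [H3DA.neg_neg]; exact hSe
    · rw [H3DA.neg_neg]; exact h3'
  have s2 : ∀ i, 1 ≤ i → i < k → 2 ≤ (reach {a} B i).card :=
    fun i h1 h2 => reach_card2' hB h1 h2 (by omega)
  have t2 : ∀ i, 1 ≤ i → i < k → 2 ≤ (reach {neg a} B i).card :=
    fun i h1 h2 => reach_card2' hB h1 h2 (by omega)
  have hdis : Disjoint (reach {a} B (k - 1)) (reach {neg a} B (k - 1)) := by
    rw [Finset.disjoint_left]
    intro x hx hx'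
    have h1 := hSe x hx
    have h2 := hTe x hx'
    rw [nr_neg, h1] at h2
    simp at h2
  have hsum : (reach {a} B (k - 1)).card + (reach {neg a} B (k - 1)).card ≤ 4 := by
    rw [← hB (k - 1) (by omega) (by omega), ← Finset.card_union_of_disjoint hdis]
    exact Finset.card_le_card (Finset.union_subset (reach_subset _ _ _ (by omega))
      (reach_subset _ _ _ (by omega)))
  have a1 := s2 (k - 1) (by omega) (by omega)
  have a2 := t2 (k - 1) (by omega) (by omega)
  have hc : ∀ i, 1 ≤ i → i < k → (reach {a} B i).card = 2 ∧ (reach {neg a} B i).card = 2 := by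
    intro i h1 h2
    have b1 := s2 i h1 h2
    have b2 := t2 i h1 h2
    constructor
    · by_contra hne
      have := reach_card3' hB (show i ≤ k - 1 by omega) (by omega)
        (show 3 ≤ (reach {a} B i).card by omega)
      omega
    · by_contra hne
      have := reach_card3' hB (show i ≤ k - 1 by omega) (by omega)
        (show 3 ≤ (reach {neg a} B i).card by omega)
      omega
  have hfin := (anti_two hB hc (k / 2 - 1) (by omega)).1
  rw [show 2 * (k / 2 - 1) + 1 = k - 1 by omega] at hfin
  obtain ⟨z, hz⟩ := hS (k - 1) (by omega)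
  have hz' := hz
  rw [hfin, mem_inter, mem_ball] at hz'
  rw [hSe z hz] at hz'
  simp at hz'

end anti

/-- In a walk of minimal winding number different strands are not near each other. -/
lemma closed_far {A : ℕ → Finset Q} {k n : ℕ} (hk : 0 < k) (hper : ∀ i, A (i + k) = A i)
    (hmin : ∀ m, 0 < m → m < n → ¬ ClosedW A k m) {w : ℕ → Q} (hw1 : ∀ i, w (i + n * k) = w i)
    (hw2 : ∀ i, w i ∈ A i) (hw3 : ∀ i, nr (w i) (w (i + 1)) = true) {j : ℕ} (h0 : 0 < j)
    (h1 : j < n) (τ : ℕ) : nr (w τ) (w (τ + 1 + j * k)) = false := by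
  by_contra hcon
  rw [Bool.not_eq_false] at hcon
  apply hmin (n - j) (by omega) (by omega)
  have e : j * k + (n - j) * k = n * k := by rw [← Nat.add_mul]; congr 1; omega
  have hpos : 0 < (n - j) * k := Nat.mul_pos (by omega) hk
  refine closed_window hk (by omega) hper (w := w) (τ + 1 + j * k) (fun i _ => hw2 _)
    (fun i _ => hw3 _) ?_
  rw [show τ + 1 + j * k + ((n - j) * k - 1) = τ + n * k by omega, hw1]
  exact hcon

/-- A cyclic sequence of an even number of lists of size at least four has a closed walk. -/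
theorem closed_one {A : ℕ → Finset Q} {k : ℕ} (hk : 0 < k) (hpar : k % 2 = 0)
    (hper : ∀ i, A (i + k) = A i) (hA : ∀ i, 4 ≤ (A i).card) : ClosedW A k 1 := by
  classical
  obtain ⟨n, ⟨hn0, w, hw1, hw2, hw3⟩, hmin⟩ : ∃ n, (0 < n ∧ ClosedW A k n) ∧
      ∀ m, 0 < m → m < n → ¬ ClosedW A k m := by
    have h := exists_closedW hk hper hA
    exact ⟨Nat.find h, Nat.find_spec h, fun m h0 h1 h2 => Nat.find_min h h1 ⟨h0, h2⟩⟩
  by_contra hno
  have hn1 : n ≠ 1 := by
    rintro rfl
    exact hno ⟨w, hw1, hw2, hw3⟩
  have far : ∀ j, 0 < j → j < n → ∀ τ, nr (w τ) (w (τ + 1 + j * k)) = false :=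
    fun j h0 h1 τ => closed_far hk hper hmin hw1 hw2 hw3 h0 h1 τ
  -- the label one step later on another strand, seen from a strand
  have far' : ∀ i j, i < n → j < n → i ≠ j → ∀ τ, nr (w (τ + i * k)) (w (τ + 1 + j * k)) = false := by
    intro i j hi hj hij τ
    rcases Nat.lt_or_gt_of_ne hij with h | h
    · have := far (j - i) (by omega) (by omega) (τ + i * k)
      have e : i * k + (j - i) * k = j * k := by rw [← Nat.add_mul]; congr 1; omega
      rw [show τ + i * k + 1 + (j - i) * k = τ + 1 + j * k by omega] at this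
      exact this
    · have := far (n - (i - j)) (by omega) (by omega) (τ + i * k)
      have e : i * k + (n - (i - j)) * k = j * k + n * k := by
        rw [← Nat.add_mul, ← Nat.add_mul]; congr 1; omega
      rw [show τ + i * k + 1 + (n - (i - j)) * k = τ + 1 + j * k + n * k by omega, hw1] at this
      exact this
  have near : ∀ i τ, nr (w (τ + i * k)) (w (τ + 1 + i * k)) = true := by
    intro i τ
    have := hw3 (τ + i * k)
    rwa [show τ + i * k + 1 = τ + 1 + i * k by omega] at this
  have ne0 : w 0 ≠ w k := by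
    intro h
    have h1 := far 1 (by omega) (by omega) 0
    have h2 := hw3 k
    rw [show 0 + 1 + 1 * k = k + 1 by omega, h, h2] at h1
    simp at h1
  by_cases hn3 : 3 ≤ n
  · -- three strands determine the labels
    have hper2 : ∀ τ, w τ = w (τ + 2) := by
      intro τ
      have n00 := near 0 τ
      have n11 := near 1 τ
      have n22 := near 2 τ
      have f01 := far' 0 1 (by omega) (by omega) (by omega) τ
      have f02 := far' 0 2 (by omega) (by omega) (by omega) τ
      have f10 := far' 1 0 (by omega) (by omega) (by omega) τ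
      have f12 := far' 1 2 (by omega) (by omega) (by omega) τ
      have f20 := far' 2 0 (by omega) (by omega) (by omega) τ
      have f21 := far' 2 1 (by omega) (by omega) (by omega) τ
      have g00 := near 0 (τ + 1)
      have g10 := far' 1 0 (by omega) (by omega) (by omega) (τ + 1)
      have g20 := far' 2 0 (by omega) (by omega) (by omega) (τ + 1)
      simp only [Nat.zero_mul, Nat.add_zero, Nat.one_mul] at *
      refine pattern3' (w (τ + 1)) (w (τ + 1 + k)) (w (τ + 1 + 2 * k)) ⟨?_, ?_, ?_, ?_, ?_, ?_⟩ _ _
        ⟨?_, ?_, ?_⟩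
      · intro h; rw [h, f01] at n00; simp at n00
      · intro h; rw [h, f02] at n00; simp at n00
      · intro h; rw [h, f12] at n11; simp at n11
      · intro h; rw [h, nr_neg', f21] at f20; simp at f20
      · intro h; rw [h, nr_neg', f12] at f10; simp at f10
      · intro h; rw [h, nr_neg', f02] at f01; simp at f01
      · rw [n00, H3DA.nr_comm, g00]
      · rw [f01, H3DA.nr_comm, g10]
      · rw [f02, H3DA.nr_comm, g20]
    have hall : ∀ j, w 0 = w (2 * j) := by
      intro j
      induction j with
      | zero => rfl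
      | succ j ih => rw [ih, hper2 (2 * j)]; rfl
    apply ne0
    have := hall (k / 2)
    rwa [show 2 * (k / 2) = k by omega] at this
  · have hn2 : n = 2 := by omega
    subst hn2
    by_cases hanti : ∃ τ, w (τ + k) = neg (w τ)
    · obtain ⟨τ, hτ⟩ := hanti
      -- sublists of size four
      have hsub : ∀ i, ∃ B ⊆ A (τ + i), w (τ + i) ∈ B ∧ w (τ + i + k) ∈ B ∧ B.card = 4 := by
        intro i
        have h1 : ({w (τ + i), w (τ + i + k)} : Finset Q) ⊆ A (τ + i) := by
          intro x hx
          rw [mem_insert, mem_singleton] at hx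
          rcases hx with rfl | rfl
          · exact hw2 _
          · rw [← hper (τ + i)]; exact hw2 _
        obtain ⟨B, hB1, hB2, hB3⟩ := Finset.exists_subsuperset_card_eq h1
          (Finset.card_le_two.trans (by norm_num)) (hA (τ + i))
        exact ⟨B, hB2, hB1 (by simp), hB1 (by simp), hB3⟩
      choose B hB1 hB2 hB3 hB4 using hsub
      have hS : ∀ i, w (τ + i) ∈ reach {w τ} B i := by
        intro i
        induction i with
        | zero => rw [reach_zero]; simp
        | succ i ih =>
          rw [reach_succ, mem_inter, mem_nb]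
          exact ⟨⟨_, ih, hw3 (τ + i)⟩, hB2 (i + 1)⟩
      have hT : ∀ i, w (τ + i + k) ∈ reach {neg (w τ)} B i := by
        intro i
        induction i with
        | zero => rw [reach_zero, ← hτ]; simp
        | succ i ih =>
          rw [reach_succ, mem_inter, mem_nb]
          refine ⟨⟨_, ih, ?_⟩, hB3 (i + 1)⟩
          have := hw3 (τ + i + k)
          rwa [show τ + i + k + 1 = τ + (i + 1) + k by omega] at this
      have hend : ∀ a, a ∈ A τ → ∀ v ∈ reach {a} B (k - 1), nr a v = false := by
        intro a ha v hv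
        by_contra hcon
        rw [Bool.not_eq_false] at hcon
        obtain ⟨u, g0, g1, g2, g3⟩ := reach_walk hv
        rw [mem_singleton] at g0
        apply hno
        refine closed_window hk one_pos hper (w := fun i => u (i - τ)) τ ?_ ?_ ?_
        · intro i hi
          show u (τ + i - τ) ∈ A (τ + i)
          rw [show τ + i - τ = i by omega]
          by_cases h0 : i = 0
          · rw [h0, g0]; exact ha
          · exact hB1 i (g2 i (by omega) (by omega))
        · intro i hi
          show nr (u (τ + i - τ)) (u (τ + i + 1 - τ)) = true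
          rw [show τ + i - τ = i by omega, show τ + i + 1 - τ = i + 1 by omega]
          exact g3 i (by omega)
        · show nr (u (τ + (1 * k - 1) - τ)) (u (τ - τ)) = true
          rw [show τ + (1 * k - 1) - τ = k - 1 by omega, g1, Nat.sub_self, g0]
          exact nr_symm hcon
      refine anti_contra (k := k) (B := B) (a := w τ) (by omega) hpar (fun i _ _ => hB4 i)
        (fun i _ => ⟨_, hS i⟩) (fun i _ => ⟨_, hT i⟩) (hend _ (hw2 τ)) (hend _ ?_)
      rw [← hτ, ← hper τ]; exact hw2 _
    · push Not at hanti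
      have hstep : ∀ τ, w (τ + 2) = w τ ∨ w (τ + 2) = neg (w (τ + k)) := by
        intro τ
        have n00 := near 0 τ
        have n11 := near 1 τ
        have f01 := far' 0 1 (by omega) (by omega) (by omega) τ
        have f10 := far' 1 0 (by omega) (by omega) (by omega) τ
        have g00 := near 0 (τ + 1)
        have g10 := far' 1 0 (by omega) (by omega) (by omega) (τ + 1)
        have hw4 := hanti τ
        have hw5 := hanti (τ + 1)
        simp only [Nat.zero_mul, Nat.add_zero, Nat.one_mul] at *
        refine pattern2' (w (τ + 1)) (w (τ + 1 + k)) ⟨?_, ?_⟩ (w τ) (w (τ + k)) (w (τ + 2))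
          ⟨?_, n00, n11, f01, f10, ?_, ?_⟩
        · intro h; rw [h, f01] at n00; simp at n00
        · intro h; exact hw5 (by rw [h, H3DA.neg_neg])
        · intro h; exact hw4 (by rw [h, H3DA.neg_neg])
        · rw [H3DA.nr_comm]; exact g00
        · rw [H3DA.nr_comm]; exact g10
      have hall : ∀ j, (w (2 * j) = w 0 ∨ w (2 * j) = neg (w k)) ∧
          (w (2 * j + k) = w k ∨ w (2 * j + k) = neg (w 0)) := by
        intro j
        induction j with
        | zero => simp
        | succ j ih =>
          have h1 := hstep (2 * j)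
          have h2 := hstep (2 * j + k)
          have e : w (2 * j + k + k) = w (2 * j) := by
            have := hw1 (2 * j)
            rwa [show 2 * j + 2 * k = 2 * j + k + k by omega] at this
          rw [e] at h2
          rw [show 2 * j + k + 2 = 2 * (j + 1) + k by omega] at h2
          rw [show 2 * j + 2 = 2 * (j + 1) by omega] at h1
          obtain ⟨i1, i2⟩ := ih
          constructor
          · rcases h1 with h1 | h1
            · rw [h1]; exact i1
            · rw [h1]
              rcases i2 with i2 | i2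
              · right; rw [i2]
              · left; rw [i2, H3DA.neg_neg]
          · rcases h2 with h2 | h2
            · rw [h2]; exact i2
            · rw [h2]
              rcases i1 with i1 | i1
              · right; rw [i1]
              · left; rw [i1, H3DA.neg_neg]
      have := (hall (k / 2)).1
      rw [show 2 * (k / 2) = k by omega] at this
      rcases this with h | h
      · exact ne0 h.symm
      · exact H3DA.neg_ne _ h.symm

end CLB.H95
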