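import Pool.Agent.Helper95_CLB.OpenStatic
import Pool.Agent.Helper95_CLB.CycWalk

/-!
Closed chains: parity, closed walks, and the case where all components are static.
-/

set_option autoImplicit false
set_option linter.unusedSectionVars false

namespace CLB.H95

open Finset Classical
open H3DA (Q neg nr)
open CLB.H3 (CExt Cat IsTwo Fits UPath he_of_unc cat_structure)

variable {V : Type*} {G H : SimpleGraph V} {R : V → Bool}

/-- A closed chain has an even number of units. -/
lemma Chn.even_of_closed {k : ℕ} {x y : ℕ → V} (h : Chn G R k x y) (hl : Lk G R (y k) (x 1)) :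
    k % 2 = 0 := by
  have hside : ∀ i, 1 ≤ i → i ≤ k → (R (x i) = R (x 1) ↔ i % 2 = 1) := by
    intro i hi
    induction i, hi using Nat.le_induction with
    | base => intro _; simp
    | succ n hn ih =>
      intro hk
      have h1 := ih (by omega)
      have h2 := (h.lk n hn (by omega)).1.2
      have h3 := (h.me n hn (by omega)).2
      have h4 : (R (x (n + 1)) = R (x 1)) ↔ ¬ (R (x n) = R (x 1)) := by
        revert h2 h3
        rcases R (x n) <;> rcases R (y n) <;> rcases R (x (n + 1)) <;> rcases R (x 1) <;> simp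
      rw [h4, h1]; omega
  have h1 := (hside k h.pos le_rfl)
  have h2 := (h.me k h.pos le_rfl).2
  have h3 := hl.1.2
  by_contra h4
  have h5 := h1.2 (by omega)
  exact h3 (by rw [← h2, h5])

/-- Closed walks through lists `A 1, ..., A k`. -/
lemma cyc_walk_exists {A : ℕ → Finset Q} {k : ℕ} (hk : 1 ≤ k) (hpar : k % 2 = 0)
    (hA : ∀ i, 1 ≤ i → i ≤ k → 4 ≤ (A i).card) :
    ∃ mu : ℕ → Q, (∀ i, 1 ≤ i → i ≤ k → mu i ∈ A i) ∧
      (∀ i, 1 ≤ i → i < k → nr (mu i) (mu (i + 1)) = true) ∧ nr (mu k) (mu 1) = true := by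
  obtain ⟨w, h1, h2, h3⟩ := closed_one (A := fun i => A (i % k + 1)) (k := k) (by omega) hpar
    (fun i => by simp only [Nat.add_mod_right])
    (fun i => hA _ (by omega) (by have := Nat.mod_lt i (show 0 < k by omega); omega))
  refine ⟨fun i => w (i - 1), fun i h4 h5 => ?_, fun i h4 h5 => ?_, ?_⟩
  · have := h2 (i - 1)
    simp only [Nat.mod_eq_of_lt (show i - 1 < k by omega), show i - 1 + 1 = i by omega] at this
    exact this
  · have := h3 (i - 1)
    show nr (w (i - 1)) (w (i + 1 - 1)) = true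
    rw [show i + 1 - 1 = i - 1 + 1 by omega]
    exact this
  · show nr (w (k - 1)) (w (1 - 1)) = true
    have := h3 (k - 1)
    rw [show k - 1 + 1 = 0 + 1 * k by omega, h1] at this
    exact this

variable [Fintype V] {k : ℕ} {x y : ℕ → V}

/-- In a closed chain every unit has at most two port edges. -/
lemma Chn.prt_x (hG : ClassC G R) (h : Chn G R k x y) (hl : Lk G R (y k) (x 1)) {i : ℕ} (h1 : 1 ≤ i)
    (h2 : i ≤ k) : (prt G R (x i)).card ≤ 1 := by
  by_cases hi : i = 1
  · subst hi; exact prt_card_lk hG hl.symm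
  · have h3 := h.lk (i - 1) (by omega) (by omega)
    rw [show i - 1 + 1 = i by omega] at h3
    exact prt_card_lk hG h3.symm

lemma Chn.prt_y (hG : ClassC G R) (h : Chn G R k x y) (hl : Lk G R (y k) (x 1)) {i : ℕ} (h1 : 1 ≤ i)
    (h2 : i ≤ k) : (prt G R (y i)).card ≤ 1 := by
  by_cases hi : i = k
  · subst hi; exact prt_card_lk hG hl
  · exact prt_card_lk hG (h.lk i h1 (by omega))

/-- The lists of a closed chain have size at least four. -/
lemma Chn.lst_closed (hG : ClassC G R) (h : Chn G R k x y) (hl : Lk G R (y k) (x 1))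
    {Φ : V → V → Finset Q} (h2 : ∀ v z, (Φ v z).card ≤ 2) {i : ℕ} (h3 : 1 ≤ i) (h4 : i ≤ k) :
    4 ≤ (lst G R x y Φ i).card := by
  have b := lst_card (G := G) (R := R) (x := x) (y := y) Φ i
  have e1 := cst_le h2 (h.prt_x hG hl h3 h4)
  have e2 := cst_le h2 (h.prt_y hG hl h3 h4)
  omega

/-- A closed chain all of whose components are static does not exist. -/
theorem closed_static (hG : ClassC G R) (hc : Crit G R) (h : Chn G R k x y)
    (hl : Lk G R (y k) (x 1))
    (hT : ∀ v a b, IsTwo G R v a b → InC k x y a → ¬ InC k x y b)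
    (hC : ∀ m z c, Cat G R m z c → (∃ j ≤ m + 1, InC k x y (c j)) → StatC k x y m c) : False := by
  obtain ⟨f, hf⟩ := exists_off h hc
  obtain ⟨Φ, hΦ⟩ := exists_forb h hf ∅ (x 1) (x 1)
  obtain ⟨mu, hmu1, hmu2, hmu3⟩ := cyc_walk_exists h.pos (h.even_of_closed hl)
    (fun i h1 h2 => h.lst_closed hG hl hΦ.two h1 h2)
  refine chain_contra hG hc h (Or.inl hl) hf (mu := mu) ?_
  refine fit_of_lists h hΦ hmu1 hmu2 (fun _ => hmu3) ?_ ?_
  · intro v a b hT' ha hor
    rcases hor with h1 | h1
    · exact absurd h1 (Set.notMem_empty v)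
    · exact absurd h1 (hT v a b hT' ha)
  · intro m z c hC' hex hor
    rcases hor with h1 | ⟨i, -, -, h1⟩
    · exact absurd (hC m z c hC' hex) h1
    · exact absurd h1 (Set.notMem_empty _)

end CLB.H95
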