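import Pool.Agent.Helper95_CLB.ClassC

/-!
The link-free case (theorem of helper3) in the format of this folder.
-/

set_option autoImplicit false

namespace CLB.H95

open Finset Classical
open H3DA (Q neg nr)

variable {V : Type*} {G : SimpleGraph V} {R : V → Bool}

/-- The cut edges. -/
def Hg (G : SimpleGraph V) (R : V → Bool) : SimpleGraph V where
  Adj := fun u v => G.Adj u v ∧ R u ≠ R v
  symm := ⟨fun _ _ h => ⟨h.1.symm, h.2.symm⟩⟩
  loopless := ⟨fun _ h => h.2 rfl⟩

/-- The uncut edges. -/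
def Mg (G : SimpleGraph V) (R : V → Bool) : SimpleGraph V where
  Adj := fun u v => G.Adj u v ∧ R u = R v
  symm := ⟨fun _ _ h => ⟨h.1.symm, h.2.symm⟩⟩
  loopless := ⟨fun _ h => h.1.ne rfl⟩

lemma lab_iff {f : V → Q} : Lab G R f ↔ H3DA.Lab (Hg G R) (Mg G R) f := by
  constructor
  · intro h
    exact ⟨fun u v huv => (h u v huv.1).2 huv.2, fun u v huv => (h u v huv.1).1 huv.2⟩
  · intro h u v huv
    exact ⟨fun hR => h.2 u v ⟨huv, hR⟩, fun hR => h.1 u v ⟨huv, hR⟩⟩

/-- At most two further elements. -/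
lemma two_of_card {S : Finset V} (h : S.card ≤ 2) (v : V) : ∃ w1 w2, ∀ w ∈ S, w = w1 ∨ w = w2 := by
  have h3 : S.card = 0 ∨ S.card = 1 ∨ S.card = 2 := by omega
  rcases h3 with h3 | h3 | h3
  · rw [Finset.card_eq_zero] at h3
    exact ⟨v, v, fun w hw => by rw [h3] at hw; simp at hw⟩
  · rw [Finset.card_eq_one] at h3
    obtain ⟨a, rfl⟩ := h3
    exact ⟨a, a, fun w hw => Or.inl (Finset.mem_singleton.1 hw)⟩
  · rw [Finset.card_eq_two] at h3
    obtain ⟨a, b, -, rfl⟩ := h3
    exact ⟨a, b, fun w hw => by simpa using hw⟩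

lemma one_of_card {S : Finset V} (h : S.card ≤ 1) (v : V) : ∃ w1, ∀ w ∈ S, w = w1 := by
  obtain ⟨w1, w2, hw⟩ := two_of_card (S := S) (by omega) v
  by_cases hS : S.Nonempty
  · obtain ⟨a, ha⟩ := hS
    exact ⟨a, fun w hw' => Finset.card_le_one.1 h w hw' a ha⟩
  · rw [Finset.not_nonempty_iff_eq_empty] at hS
    exact ⟨v, fun w hw' => by rw [hS] at hw'; simp at hw'⟩

variable [Fintype V]

/-- Members of the class without links satisfy the hypotheses of the link-free theorem. -/
theorem adm_of_no_link [DecidableEq V] (hG : ClassC G R)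
    (hno : ∀ u v, He G R u v → Cov G R u → ¬ Cov G R v) : H3DA.Adm (Hg G R) (Mg G R) R where
  hR u v h := h.2
  mR u v h := h.2
  mm u v w h1 h2 := hG.matching h1 h2
  tri u v w h1 h2 h3 := hG.tri v u w h1.1.symm h2.1 h3.1
  d3 v c hvc := by
    obtain ⟨w1, w2, hw⟩ := two_of_card (S := (univ.filter (fun w => G.Adj v w)).erase c) (by
      rw [Finset.card_erase_of_mem (by simp [hvc.1])]
      have := hG.deg3 v
      omega) v
    exact ⟨w1, w2, fun w hw1 hw2 => hw w (by simp [hw1.1, hw2])⟩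
  d2 v m c hvm hvc := by
    have hcm : c ≠ m := by
      rintro rfl
      exact hvc.2 hvm.2
    obtain ⟨w1, hw⟩ := one_of_card
      (S := ((univ.filter (fun w => G.Adj v w)).erase c).erase m) (by
        rw [Finset.card_erase_of_mem (by simp [hvm.1, Ne.symm hcm]),
          Finset.card_erase_of_mem (by simp [hvc.1])]
        have := hG.deg3 v
        omega) v
    refine ⟨w1, fun w hw1 hw2 => hw w ?_⟩
    have hwm : w ≠ m := by
      rintro rfl
      exact hw1.2 hvm.2
    simp [hw1.1, hw2, hwm]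
  lf u v huv hu hv := hno u v huv hu hv

/-- Members of the class without links have labellings. -/
theorem tstar_of_no_link [DecidableEq V] (hG : ClassC G R)
    (hno : ∀ u v, He G R u v → Cov G R u → ¬ Cov G R v) : TStar G R := by
  obtain ⟨f, hf⟩ := H3DA.LinkFree (adm_of_no_link hG hno)
  exact ⟨f, lab_iff.2 hf⟩

end CLB.H95
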