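import Pool.Agent.Helper95_CLB.Q3

/-!
Lazy walks in the 3-cube with prescribed lists: the set of labels reachable at position `i`, its size,
walks through it, joining two arms, and the lemma for a star joining both ends.
-/

set_option autoImplicit false

namespace CLB.H95

open Finset
open H3DA (Q neg nr)

/-- Labels reachable at position `i` by walks through the lists `A 0, ..., A i`, starting in `L`. -/
def reach (L : Finset Q) (A : ℕ → Finset Q) : ℕ → Finset Q
  | 0 => L
  | i + 1 => nb (reach L A i) ∩ A (i + 1)

lemma reach_zero (L : Finset Q) (A : ℕ → Finset Q) : reach L A 0 = L := rfl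

lemma reach_succ (L : Finset Q) (A : ℕ → Finset Q) (i : ℕ) :
    reach L A (i + 1) = nb (reach L A i) ∩ A (i + 1) := rfl

lemma reach_subset (L : Finset Q) (A : ℕ → Finset Q) (i : ℕ) (hi : 0 < i) : reach L A i ⊆ A i := by
  cases i with
  | zero => omega
  | succ n => rw [reach_succ]; exact Finset.inter_subset_right

lemma reach_mono {L L' : Finset Q} (h : L ⊆ L') (A : ℕ → Finset Q) (i : ℕ) :
    reach L A i ⊆ reach L' A i := by
  induction i with
  | zero => exact h
  | succ n ih =>
    rw [reach_succ, reach_succ]
    exact Finset.inter_subset_inter (nb_mono ih) (Finset.Subset.refl _)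

lemma card_inter_ge (X Y : Finset Q) : X.card + Y.card ≤ (X ∩ Y).card + 8 := by
  have h1 := Finset.card_union_add_card_inter X Y
  have h2 : (X ∪ Y).card ≤ (univ : Finset Q).card := Finset.card_le_card (subset_univ _)
  rw [card_univ_Q] at h2
  omega

/-- Two labels stay two labels through lists of size four. -/
lemma reach_card2 {L : Finset Q} {A : ℕ → Finset Q} {n : ℕ} (hL : 2 ≤ L.card)
    (hA : ∀ i, 0 < i → i ≤ n → 4 ≤ (A i).card) : 2 ≤ (reach L A n).card := by
  induction n with
  | zero => exact hL
  | succ n ih =>
    have h1 := ih (fun i h0 hi => hA i h0 (by omega))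
    have h2 := nb_card2 h1
    have h3 := hA (n + 1) (by omega) le_rfl
    have h4 := card_inter_ge (nb (reach L A n)) (A (n + 1))
    rw [reach_succ]
    omega

/-- Three labels stay three labels through lists of size four. -/
lemma reach_card3 {L : Finset Q} {A : ℕ → Finset Q} {n : ℕ} (hL : 3 ≤ L.card)
    (hA : ∀ i, 0 < i → i ≤ n → 4 ≤ (A i).card) : 3 ≤ (reach L A n).card := by
  induction n with
  | zero => exact hL
  | succ n ih =>
    have h1 := ih (fun i h0 hi => hA i h0 (by omega))
    have h2 := nb_card3 h1
    have h3 := hA (n + 1) (by omega) le_rfl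
    have h4 := card_inter_ge (nb (reach L A n)) (A (n + 1))
    rw [reach_succ]
    omega

/-- Walks through the reachable sets. -/
lemma reach_walk {L : Finset Q} {A : ℕ → Finset Q} {n : ℕ} {v : Q} (hv : v ∈ reach L A n) :
    ∃ w : ℕ → Q, w 0 ∈ L ∧ w n = v ∧ (∀ i, 0 < i → i ≤ n → w i ∈ A i) ∧
      ∀ i, i < n → nr (w i) (w (i + 1)) = true := by
  induction n generalizing v with
  | zero => exact ⟨fun _ => v, hv, rfl, fun i h0 hi => by omega, fun i hi => by omega⟩
  | succ n ih =>
    rw [reach_succ, mem_inter, mem_nb] at hv
    obtain ⟨⟨x, hx, hxv⟩, hvA⟩ := hv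
    obtain ⟨w, h0, h1, h2, h3⟩ := ih hx
    refine ⟨fun i => if i ≤ n then w i else v, ?_, ?_, ?_, ?_⟩
    · simp only [Nat.zero_le, if_true]; exact h0
    · simp
    · intro i hi0 hi
      by_cases h : i ≤ n
      · simp only [h, if_true]; exact h2 i hi0 h
      · have : i = n + 1 := by omega
        subst this
        simp only [h, if_false]; exact hvA
    · intro i hi
      by_cases h : i + 1 ≤ n
      · have h' : i ≤ n := by omega
        simp only [h, h', if_true]; exact h3 i (by omega)
      · have : i = n := by omega
        subst this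
        simp only [h, le_refl, if_true, if_false, h1]; exact hxv

/-- The start of a walk can be recovered: union over the starting labels. -/
lemma reach_start {L : Finset Q} {A : ℕ → Finset Q} {n : ℕ} {v : Q} :
    v ∈ reach L A n ↔ ∃ a ∈ L, v ∈ reach {a} A n := by
  induction n generalizing v with
  | zero =>
    rw [reach_zero]
    constructor
    · intro h; exact ⟨v, h, by rw [reach_zero]; simp⟩
    · rintro ⟨a, ha, h⟩; rw [reach_zero, mem_singleton] at h; rw [h]; exact ha
  | succ n ih =>
    rw [reach_succ, mem_inter, mem_nb]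
    constructor
    · rintro ⟨⟨x, hx, hxv⟩, hvA⟩
      obtain ⟨a, ha, hxa⟩ := ih.1 hx
      exact ⟨a, ha, by rw [reach_succ, mem_inter, mem_nb]; exact ⟨⟨x, hxa, hxv⟩, hvA⟩⟩
    · rintro ⟨a, ha, h⟩
      rw [reach_succ, mem_inter, mem_nb] at h
      obtain ⟨⟨x, hx, hxv⟩, hvA⟩ := h
      exact ⟨⟨x, ih.2 ⟨a, ha, hx⟩, hxv⟩, hvA⟩

/-- Path chains: lists of size at least 4 inside and at least 2 at both ends; if the two arms at some
position `r` leave a common label there is a walk. Here `k + 1` positions `0, ..., k`. -/
lemma join_walk {A : ℕ → Finset Q} {k r : ℕ} (hr : r ≤ k) {x : Q}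
    (hl : x ∈ reach (A 0) A r) (hrr : x ∈ reach (A k) (fun j => A (k - j)) (k - r)) :
    ∃ w : ℕ → Q, (∀ i, i ≤ k → w i ∈ A i) ∧ w r = x ∧
      ∀ i, i < k → nr (w i) (w (i + 1)) = true := by
  obtain ⟨w1, h1, h2, h3, h4⟩ := reach_walk hl
  obtain ⟨w2, g1, g2, g3, g4⟩ := reach_walk hrr
  refine ⟨fun i => if i ≤ r then w1 i else w2 (k - i), ?_, ?_, ?_⟩
  · intro i hi
    by_cases h : i ≤ r
    · simp only [h, if_true]
      by_cases h0 : i = 0
      · rw [h0]; exact h1
      · exact h3 i (by omega) h
    · simp only [h, if_false]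
      by_cases h0 : i = k
      · rw [h0, Nat.sub_self]; exact g1
      · have := g3 (k - i) (by omega) (by omega)
        rwa [show k - (k - i) = i by omega] at this
  · simp only [le_refl, if_true]; exact h2
  · intro i hi
    by_cases h : i + 1 ≤ r
    · have h' : i ≤ r := by omega
      simp only [h, h', if_true]; exact h4 i (by omega)
    · by_cases h' : i ≤ r
      · have hir : i = r := by omega
        subst hir
        simp only [h, le_refl, if_true, if_false, h2]
        have e : k - i = (k - (i + 1)) + 1 := by omega
        have := g4 (k - (i + 1)) (by omega)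
        rw [← e, g2] at this
        exact nr_symm this
      · simp only [h, h', if_false]
        have e : k - i = (k - (i + 1)) + 1 := by omega
        have := g4 (k - (i + 1)) (by omega)
        rw [← e] at this
        exact nr_symm this

/-- A four-set avoiding an antipodal pair contains an antipodal pair and a further label. -/
lemma four_pair : ∀ (T : Finset Q) (c : Q), 4 ≤ T.card → c ∉ T → neg c ∉ T →
    ∃ b ∈ T, neg b ∈ T ∧ ∃ d ∈ T, d ≠ b ∧ d ≠ neg b := by
  intro T c hT hc hc'
  by_contra hcon
  push Not at hcon
  -- no antipodal pair: at most three labels; otherwise the set is a pair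
  by_cases h : ∃ b ∈ T, neg b ∈ T
  · obtain ⟨b, hb, hb'⟩ := h
    have h1 := hcon b hb hb'
    have h2 : T ⊆ {b, neg b} := by
      intro d hd
      simp only [mem_insert, mem_singleton]
      by_cases hdb : d = b
      · exact Or.inl hdb
      · exact Or.inr (h1 d hd hdb)
    have h3 := (Finset.card_le_card h2).trans Finset.card_le_two
    omega
  · push Not at h
    have h1 : Disjoint T (T.image neg) := by
      rw [Finset.disjoint_left]
      intro d hd hd'
      rw [mem_image] at hd'
      obtain ⟨e, he, hde⟩ := hd'
      exact h e he (hde ▸ hd)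
    have h2 : T ∪ T.image neg ⊆ univ \ {c, neg c} := by
      intro d hd
      rw [mem_union] at hd
      simp only [mem_sdiff, mem_univ, true_and, mem_insert, mem_singleton, not_or]
      rcases hd with hd | hd
      · exact ⟨fun h => hc (h ▸ hd), fun h => hc' (h ▸ hd)⟩
      · rw [mem_image] at hd
        obtain ⟨e, he, rfl⟩ := hd
        exact ⟨fun h => hc' (by rw [← h, H3DA.neg_neg]; exact he),
          fun h => hc (by rw [← H3DA.neg_inj h]; exact he)⟩
    have h3 := Finset.card_le_card h2
    rw [Finset.card_union_of_disjoint h1, Finset.card_image_of_injective _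
      (fun _ _ h => H3DA.neg_inj h)] at h3
    have h4 : ∀ c : Q, (univ \ {c, neg c} : Finset Q).card = 6 := by decide
    have h5 := h4 c
    omega

/-- Star joining the two ends of a chain: both end lists (after removing the labels excluded by the
fixed neighbour of the star) have size at least four, inner lists too; then some walk has different
labels at the two ends. -/
lemma end_star {A : ℕ → Finset Q} {k : ℕ} {c : Q} (hk : 0 < k)
    (hA : ∀ i, i ≤ k → 4 ≤ (A i).card) (h0 : c ∉ A 0) (h1 : neg c ∉ A k) :
    ∃ a ∈ A 0, ∃ b ∈ reach {a} A k, a ≠ b := by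
  by_contra hcon
  push Not at hcon
  -- every start returns exactly to itself
  have key : ∀ a ∈ A 0, reach {a} A k = {a} := by
    intro a ha
    have hsub : reach {a} A k ⊆ {a} := fun b hb => by
      rw [mem_singleton]; exact (hcon a ha b hb).symm
    obtain ⟨a', ha', hne⟩ : ∃ a' ∈ A 0, a' ≠ a := by
      have : 1 < (A 0).card := by have := hA 0 (Nat.zero_le _); omega
      exact Finset.exists_mem_ne this a
    have h2 : 2 ≤ (reach {a, a'} A k).card := by
      refine reach_card2 ?_ (fun i _ hi => hA i hi)
      rw [Finset.card_pair hne.symm]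
    have h3 : reach {a, a'} A k ⊆ {a, a'} := by
      intro b hb
      rw [reach_start] at hb
      obtain ⟨x, hx, hxb⟩ := hb
      simp only [mem_insert, mem_singleton] at hx ⊢
      rcases hx with rfl | rfl
      · exact Or.inl (hcon _ ha b hxb).symm
      · exact Or.inr (hcon _ ha' b hxb).symm
    have h4 : reach {a, a'} A k = {a, a'} :=
      Finset.eq_of_subset_of_card_le h3 (by rw [Finset.card_pair hne.symm]; exact h2)
    refine Finset.Subset.antisymm hsub ?_
    rw [Finset.singleton_subset_iff]
    have h5 : a ∈ reach {a, a'} A k := by rw [h4]; simp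
    rw [reach_start] at h5
    obtain ⟨x, hx, hxa⟩ := h5
    simp only [mem_insert, mem_singleton] at hx
    rcases hx with rfl | rfl
    · exact hxa
    · exact absurd (hcon _ ha' a hxa) hne
  have hsub : A 0 ⊆ A k := by
    intro a ha
    have : a ∈ reach {a} A k := by rw [key a ha]; simp
    exact reach_subset _ _ _ hk this
  obtain ⟨b, hb, hb', d, hd, hdb, hdb'⟩ := four_pair (A 0) c (hA 0 (Nat.zero_le _)) h0
    (fun h => h1 (hsub h))
  obtain ⟨n, rfl⟩ : ∃ n, k = n + 1 := ⟨k - 1, by omega⟩
  have h5 : d ∈ reach {d} A (n + 1) := by rw [key d hd]; simp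
  rw [reach_succ, mem_inter, mem_nb] at h5
  obtain ⟨⟨s, hs, -⟩, -⟩ := h5
  have h6 : nr s b = true ∨ nr s (neg b) = true := by
    rw [nr_neg']
    rcases nr s b <;> simp
  rcases h6 with h6 | h6
  · have : b ∈ reach {d} A (n + 1) := by
      rw [reach_succ, mem_inter, mem_nb]; exact ⟨⟨s, hs, h6⟩, hsub hb⟩
    rw [key d hd, mem_singleton] at this
    exact hdb this.symm
  · have : neg b ∈ reach {d} A (n + 1) := by
      rw [reach_succ, mem_inter, mem_nb]; exact ⟨⟨s, hs, h6⟩, hsub hb'⟩
    rw [key d hd, mem_singleton] at this
    exact hdb' this.symm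

end CLB.H95
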