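import Pool.Agent.Helper95_CLB.Bad

/-!
The bad patterns: they are killed in the last two units, with one exception for three units.
-/

set_option autoImplicit false
set_option linter.unusedSectionVars false

namespace CLB.H95

open Finset Classical
open H3DA (Q neg nr)
open CLB.H3 (CExt Cat IsTwo Fits UPath he_of_unc cat_structure chn_side rlaw_path seg_isP llS mmS eS
  eS_eq_ek eS_sum_ge pos KTight exists_ktight)

variable {V : Type*} {G H : SimpleGraph V} {R : V → Bool} [Fintype V] {k : ℕ} {x y : ℕ → V}
  {m : ℕ} {z c : ℕ → V}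

lemma BadC.of_rev {p : ℕ} (hp : p ≤ m + 1)
    (h : BadC k x y m (fun j => c (m + 1 - j)) (m + 1 - p)) : BadC k x y m c p := by
  have e1 : m + 1 - (m + 1 - p) = p := by omega
  obtain ⟨h1, h2⟩ := h
  simp only [e1] at h1 h2
  refine ⟨h1, fun h3 => ?_⟩
  rcases h2 h3 with ⟨q, hq, h4, h5⟩ | ⟨h4, ⟨i, j, h5, h6, h7, h8, h9⟩, ⟨l, h10, h11⟩, h12⟩
  · refine Or.inl ⟨m + 1 - q, by omega, h4, fun j hj hjp hjq hin => ?_⟩
    have := h5 (m + 1 - j) (by omega) (by omega) (by omega)
    rw [show m + 1 - (m + 1 - j) = j by omega] at this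
    exact this hin
  · refine Or.inr ⟨h4, ⟨m + 1 - i, m + 1 - j, by omega, by omega, by omega, h8, h9⟩,
      ⟨m + 1 - l, by omega, h11⟩, fun j hj => ?_⟩
    have := h12 (m + 1 - j) (by omega)
    rwa [show m + 1 - (m + 1 - j) = j by omega] at this

lemma pos0 : pos m 0 = 1 := by unfold pos; simp

lemma posj {j : ℕ} (h1 : 1 ≤ j) (h2 : j ≤ m) : pos m j = j := by
  unfold pos; rw [if_neg (by omega), if_neg (by omega)]

lemma posl : pos m (m + 1) = m := by unfold pos; simp

lemma fork_ne0 (hcat : Cat G R m z c) : c 0 ≠ c 1 := hcat.ne0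

lemma inC_unit {v : V} (h : InC k x y v) : ∃ u, (1 ≤ u ∧ u ≤ k) ∧ (v = x u ∨ v = y u) := by
  obtain ⟨u, h1, h2, h3⟩ := h
  exact ⟨u, ⟨h1, h2⟩, h3⟩

lemma idx_unit (h : Chn G R k x y) {v : V} {u : ℕ} (hu : 1 ≤ u ∧ u ≤ k) (hv : v = x u ∨ v = y u) :
    idx k x y v = u := by
  rcases hv with rfl | rfl
  · exact idx_x h hu.1 hu.2
  · exact idx_y h hu.1 hu.2

/-- Vertices of different units are different. -/
lemma unit_ne (h : Chn G R k x y) {u v : ℕ} (hu : 1 ≤ u ∧ u ≤ k) (hv : 1 ≤ v ∧ v ≤ k) (huv : u ≠ v)
    {w : V} (hw : w = x u ∨ w = y u) : w ≠ x v ∧ w ≠ y v := by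
  rcases hw with rfl | rfl
  · exact ⟨fun he => huv (h.injx _ _ hu.1 hu.2 hv.1 hv.2 he), h.xy _ _ hu.1 hu.2 hv.1 hv.2⟩
  · exact ⟨fun he => h.xy _ _ hv.1 hv.2 hu.1 hu.2 he.symm,
      fun he => huv (h.injy _ _ hu.1 hu.2 hv.1 hv.2 he)⟩

/-- The pattern with four vertices. -/
theorem bad4 (hG : ClassC G R) (hc : Crit G R) (h : Chn G R k x y) (hk : 3 ≤ k)
    (hcat : Cat G R 4 z c) (h0 : InC k x y (c 0)) (h1 : InC k x y (c 1))
    (h3 : ¬ InC k x y (c 3)) {b b' : ℕ} (hb : (b = 4 ∧ b' = 5) ∨ (b = 5 ∧ b' = 4))
    (hbC : InC k x y (c b)) (hbN : ¬ InC k x y (c b')) : BadC k x y 4 c 2 := by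
  have p0 : pos 4 0 = 1 := rfl
  have p1 : pos 4 1 = 1 := rfl
  have p2 : pos 4 2 = 2 := rfl
  have p3 : pos 4 3 = 3 := rfl
  have p4 : pos 4 4 = 4 := rfl
  have p5 : pos 4 5 = 4 := rfl
  have nm : ∀ i ≤ 5, ∀ j ≤ 5, ¬ Me G R (c i) (c j) := by
    intro i hi j hj hm
    have h5 := mate_pos hG hc hcat (by omega) (by omega) (by omega) hm
    have h6 := pos_mem hcat.pos (j := i) (by omega)
    have h7 := pos_mem hcat.pos (j := j) (by omega)
    omega
  have f12 : Few G R k x y c {0, 1, 2} := by
    refine few_of hG h hcat (p := 1) (q := 2) le_rfl (by omega) (by omega) ?_ ?_ ?_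
    · intro j hj
      simp only [mem_insert, mem_singleton] at hj
      rcases hj with rfl | rfl | rfl
      · rw [p0]; omega
      · rw [p1]; omega
      · rw [p2]; omega
    · intro i hi j hj
      simp only [mem_insert, mem_singleton] at hi hj
      exact nm i (by omega) j (by omega)
    · decide
  obtain ⟨u, hu, hcu⟩ := inC_unit h0
  obtain ⟨v, hv, hcv⟩ := inC_unit h1
  obtain ⟨w, hw, hcw⟩ := inC_unit hbC
  have hpb : pos 4 b = 4 := by rcases hb with ⟨rfl, -⟩ | ⟨rfl, -⟩ <;> rfl
  have hb5 : b ≤ 4 + 1 := by omega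
  -- the whole path
  have hJall : ∀ j ∈ Finset.range 6, j ≤ 4 + 1 ∧ 1 ≤ pos 4 j ∧ pos 4 j ≤ 4 := by
    intro j hj
    rw [mem_range] at hj
    have := pos_mem hcat.pos (j := j) (by omega)
    exact ⟨by omega, this.1, this.2⟩
  have nmall : ∀ i ∈ Finset.range 6, ∀ j ∈ Finset.range 6, ¬ Me G R (c i) (c j) := by
    intro i hi j hj
    rw [mem_range] at hi hj
    exact nm i (by omega) j (by omega)
  have noall : ∀ s, ¬ Opn k x y c (Finset.range 6) s := by
    intro s hs
    have h5 := law1 hG h hcat (p := 1) (q := 4) le_rfl (by omega) le_rfl hJall nmall hs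
    have h6 : ((Finset.range 6).image c).card ≤ (Finset.range 6).card := Finset.card_image_le
    rw [Finset.card_range] at h5 h6
    omega
  have nlall : ∀ i ≤ 5, ∀ j ≤ 5, ¬ Lk G R (c i) (c j) := by
    intro i hi j hj hl
    have h5 := law_link hG hcat (p := 1) (q := 4) le_rfl (by omega) le_rfl hJall nmall
      (i := i) (j := j) (by rw [mem_range]; omega) (by rw [mem_range]; omega) hl
    have h6 : ((Finset.range 6).image c).card ≤ (Finset.range 6).card := Finset.card_image_le
    rw [Finset.card_range] at h5 h6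
    omega
  refine ⟨fun hx => ?_, fun hy => ?_⟩
  · -- `x k`
    have c2u : c 2 = x k ∨ c 2 = y k := Or.inl hx
    have pu := port_par h hcat (i := 0) (j := 2) (by omega) (by omega) hu ⟨by omega, le_rfl⟩ hcu c2u
    have pv := port_par h hcat (i := 1) (j := 2) (by omega) (by omega) hv ⟨by omega, le_rfl⟩ hcv c2u
    have pw := port_par h hcat (i := b) (j := 2) (by omega) (by omega) hw ⟨by omega, le_rfl⟩ hcw c2u
    rw [p0, p2] at pu
    rw [p1, p2] at pv
    rw [hpb, p2] at pw
    have hfx := fork_x h hk f12 (a := 0) (b := 1) (p := 2) (by simp) (by simp) (by simp)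
      (fun j hj a1 a2 a3 => by
        simp only [mem_insert, mem_singleton] at hj
        omega) hcat.ne0 hx hu hv hcu hcv (by omega) (by omega)
    obtain ⟨s, t, hs, ht, hst, e1, e2⟩ : ∃ s t, s ≤ 1 ∧ t ≤ 1 ∧ s ≠ t ∧ c s = x (k - 1) ∧
        (c t = x 1 ∨ (4 ≤ k ∧ c t = y (k - 3))) := by
      rcases hfx with ⟨e1, e2⟩ | ⟨e1, e2⟩
      · exact ⟨0, 1, by omega, by omega, by omega, e1, e2⟩
      · exact ⟨1, 0, by omega, by omega, by omega, e1, e2⟩
    have hk4 : 4 ≤ k := by
      rcases e2 with e2 | e2
      · have hpt : pos 4 t = 1 := by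
          have : t = 0 ∨ t = 1 := by omega
          rcases this with rfl | rfl <;> rfl
        have := port_par h hcat (i := t) (j := 2) (u := 1) (v := k) (by omega) (by omega)
          ⟨by omega, by omega⟩ ⟨by omega, le_rfl⟩ (Or.inl e2) c2u
        rw [hpt, p2] at this
        omega
      · exact e2.1
    -- the unit `k - 2`
    have tu : ∃ tt, (1 ≤ tt ∧ tt ≤ k) ∧ tt ≠ k - 2 ∧ (c t = x tt ∨ c t = y tt) := by
      rcases e2 with e2 | e2
      · refine ⟨1, ⟨by omega, by omega⟩, ?_, Or.inl e2⟩
        intro he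
        have hpt : pos 4 t = 1 := by
          have : t = 0 ∨ t = 1 := by omega
          rcases this with rfl | rfl <;> rfl
        have := port_par h hcat (i := t) (j := 2) (u := 1) (v := k) (by omega) (by omega)
          ⟨by omega, by omega⟩ ⟨by omega, le_rfl⟩ (Or.inl e2) c2u
        rw [hpt, p2] at this
        omega
      · exact ⟨k - 3, ⟨by omega, by omega⟩, by omega, Or.inr e2.2⟩
    obtain ⟨tt, htt, htk, hct⟩ := tu
    have five : ∀ j < 6, j = s ∨ j = t ∨ j = 2 ∨ j = 3 ∨ j = b ∨ j = b' := by intro j hj; omega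
    have seen : ∀ r, 1 ≤ r → r ≤ k → r ≠ k - 1 → r ≠ tt → r ≠ k → r ≠ w →
        ∀ j ∈ Finset.range 6, c j ≠ x r ∧ c j ≠ y r := by
      intro r r1 r2 a1 a2 a3 a4 j hj
      rw [mem_range] at hj
      rcases five j hj with rfl | rfl | rfl | rfl | rfl | rfl
      · exact unit_ne h ⟨by omega, by omega⟩ ⟨r1, r2⟩ (Ne.symm a1) (Or.inl e1)
      · exact unit_ne h htt ⟨r1, r2⟩ (Ne.symm a2) hct
      · exact unit_ne h ⟨by omega, le_rfl⟩ ⟨r1, r2⟩ (Ne.symm a3) c2u
      · constructor <;> intro he
        · exact h3 (by rw [he]; exact InC.x r1 r2)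
        · exact h3 (by rw [he]; exact InC.y r1 r2)
      · exact unit_ne h hw ⟨r1, r2⟩ (Ne.symm a4) hcw
      · constructor <;> intro he
        · exact hbN (by rw [he]; exact InC.x r1 r2)
        · exact hbN (by rw [he]; exact InC.y r1 r2)
    by_cases hwk : w = k - 2
    · subst hwk
      rcases hcw with e3 | e3
      · rcases e2 with e2 | ⟨-, e2⟩
        · by_cases hk5 : k = 4
          · subst hk5
            have f24 : Few G R 4 x y c {2, 3, 4, 5} := by
              refine few_of hG h hcat (p := 2) (q := 4) (by omega) (by omega) (by omega) ?_ ?_ ?_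
              · intro j hj
                simp only [mem_insert, mem_singleton] at hj
                rcases hj with rfl | rfl | rfl | rfl
                · rw [p2]; omega
                · rw [p3]; omega
                · rw [p4]; omega
                · rw [p5]; omega
              · intro i hi j hj
                simp only [mem_insert, mem_singleton] at hi hj
                exact nm i (by omega) j (by omega)
              · decide
            have seen' : ∀ r, (r = 3 ∨ r = 1) → ∀ j ∈ ({2, 3, 4, 5} : Finset ℕ), c j ≠ x r ∧ c j ≠ y r := by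
              intro r hr j hj
              simp only [mem_insert, mem_singleton] at hj
              have : j = 2 ∨ j = 3 ∨ j = b ∨ j = b' := by omega
              rcases this with rfl | rfl | rfl | rfl
              · exact unit_ne h (u := 4) ⟨by omega, by omega⟩ ⟨by omega, by omega⟩ (by omega) c2u
              · constructor <;> intro he
                · exact h3 (by rw [he]; exact InC.x (by omega) (by omega))
                · exact h3 (by rw [he]; exact InC.y (by omega) (by omega))
              · exact unit_ne h (u := 2) ⟨by omega, by omega⟩ ⟨by omega, by omega⟩ (by omega) (Or.inl e3)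
              · constructor <;> intro he
                · exact hbN (by rw [he]; exact InC.x (by omega) (by omega))
                · exact hbN (by rw [he]; exact InC.y (by omega) (by omega))
            have o1 : Opn 4 x y c {2, 3, 4, 5} 3 :=
              ⟨by omega, by omega, seen' 3 (Or.inl rfl), Or.inr ⟨2, by simp, by omega, hx⟩⟩
            have o2 : Opn 4 x y c {2, 3, 4, 5} 1 :=
              ⟨by omega, by omega, seen' 1 (Or.inr rfl), Or.inr ⟨b, by
                simp only [mem_insert, mem_singleton]; omega, by omega, e3⟩⟩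
            have := f24.opn _ _ o1 o2
            omega
          · have htt1 : tt = 1 := by
              rcases hct with e4 | e4
              · exact (h.injx _ _ htt.1 htt.2 le_rfl (by omega) (e4.symm.trans e2))
              · exact absurd (e2.symm.trans e4) (h.xy _ _ le_rfl (by omega) htt.1 htt.2)
            refine noall (k - 3) ⟨by omega, by omega, seen (k - 3) (by omega) (by omega) (by omega)
              (by omega) (by omega) (by omega), Or.inr ⟨b, by rw [mem_range]; omega, by omega, ?_⟩⟩
            rw [show k - 3 + 1 = k - 2 by omega]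
            exact e3
        · have := h.lk (k - 3) (by omega) (by omega)
          rw [show k - 3 + 1 = k - 2 by omega, ← e2, ← e3] at this
          exact nlall t (by omega) b (by omega) this
      · have := h.lk (k - 2) (by omega) (by omega)
        rw [show k - 2 + 1 = k - 1 by omega, ← e1, ← e3] at this
        exact nlall b (by omega) s (by omega) this
    · refine noall (k - 2) ⟨by omega, by omega, seen (k - 2) (by omega) (by omega) (by omega)
        (Ne.symm htk) (by omega) (Ne.symm hwk), Or.inr ⟨s, by rw [mem_range]; omega, by omega, ?_⟩⟩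
      rw [show k - 2 + 1 = k - 1 by omega]
      exact e1
  · -- `y (k-1)`
    left
    have c2u : c 2 = x (k - 1) ∨ c 2 = y (k - 1) := Or.inr hy
    have pu := port_par h hcat (i := 0) (j := 2) (by omega) (by omega) hu
      ⟨by omega, by omega⟩ hcu c2u
    have pv := port_par h hcat (i := 1) (j := 2) (by omega) (by omega) hv
      ⟨by omega, by omega⟩ hcv c2u
    have pw := port_par h hcat (i := b) (j := 2) (by omega) (by omega) hw
      ⟨by omega, by omega⟩ hcw c2u
    rw [p0, p2] at pu
    rw [p1, p2] at pv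
    rw [hpb, p2] at pw
    obtain ⟨n0, n1, hfy⟩ := fork_y h hk f12 (a := 0) (b := 1) (p := 2) (by simp) (by simp) (by simp)
      (fun j hj a1 a2 a3 => by
        simp only [mem_insert, mem_singleton] at hj
        omega) hcat.ne0 hy hu hv hcu hcv (by omega) (by omega)
    have hyk : ∃ s t, s ≤ 1 ∧ t ≤ 1 ∧ s ≠ t ∧ c s = y k ∧ c t ≠ x k ∧ c t ≠ y k ∧
        ∃ tt, (1 ≤ tt ∧ tt ≤ k) ∧ (tt + k) % 2 = 0 ∧ (c t = x tt ∨ c t = y tt) := by
      rcases hfy with e | e | ⟨e, e'⟩ | ⟨e, e'⟩
      · exact ⟨0, 1, by omega, by omega, by omega, e, n1, fun he => hcat.ne0 (e.trans he.symm),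
          v, hv, by omega, hcv⟩
      · exact ⟨1, 0, by omega, by omega, by omega, e, n0, fun he => hcat.ne0 (he.trans e.symm),
          u, hu, by omega, hcu⟩
      all_goals
        exfalso
        refine noall k ⟨by omega, le_rfl, ?_, Or.inl ⟨2, by simp, by omega, hy⟩⟩
        intro j hj
        rw [mem_range] at hj
        have : j = 0 ∨ j = 1 ∨ j = 2 ∨ j = 3 ∨ j = b ∨ j = b' := by omega
        rcases this with rfl | rfl | rfl | rfl | rfl | rfl
        · first
          | exact unit_ne h (u := 1) ⟨by omega, by omega⟩ ⟨by omega, le_rfl⟩ (by omega) (Or.inl e)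
          | exact unit_ne h (u := k - 2) ⟨by omega, by omega⟩ ⟨by omega, le_rfl⟩ (by omega) (Or.inr e')
        · first
          | exact unit_ne h (u := 1) ⟨by omega, by omega⟩ ⟨by omega, le_rfl⟩ (by omega) (Or.inl e)
          | exact unit_ne h (u := k - 2) ⟨by omega, by omega⟩ ⟨by omega, le_rfl⟩ (by omega) (Or.inr e')
        · exact unit_ne h (u := k - 1) ⟨by omega, by omega⟩ ⟨by omega, le_rfl⟩ (by omega) c2u
        · constructor <;> intro he
          · exact h3 (by rw [he]; exact InC.x (by omega) le_rfl)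
          · exact h3 (by rw [he]; exact InC.y (by omega) le_rfl)
        · exact unit_ne h hw ⟨by omega, le_rfl⟩ (by omega) hcw
        · constructor <;> intro he
          · exact hbN (by rw [he]; exact InC.x (by omega) le_rfl)
          · exact hbN (by rw [he]; exact InC.y (by omega) le_rfl)
    obtain ⟨s, t, hs, ht, hst, e1, e2, e3, tt, htt, ptt, hct⟩ := hyk
    refine ⟨s, by omega, e1, fun j hj hj2 hjs hin => ?_⟩
    have : j = t ∨ j = 3 ∨ j = b ∨ j = b' := by omega
    rcases this with rfl | rfl | rfl | rfl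
    · rw [idx_unit h htt hct]
      have : tt ≠ k := by
        rintro rfl
        rcases hct with e | e
        · exact e2 e
        · exact e3 e
      omega
    · exact absurd hin h3
    · rw [idx_unit h hw hcw]
      have : w ≠ k - 1 := by
        rintro rfl
        rcases hcw with e | e
        · refine nm j (by omega) 2 (by omega) ?_
          rw [e, hy]
          exact h.me (k - 1) (by omega) (by omega)
        · have hl := h.lk (k - 1) (by omega) (by omega)
          rw [← e] at hl
          exact hj2 (port_one hG hcat hj (by omega) hl (e.trans hy.symm))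
      omega
    · exact absurd hin hbN

/-- The pattern with five vertices. -/
theorem bad5 (hG : ClassC G R) (hc : Crit G R) (h : Chn G R k x y) (hk : 3 ≤ k)
    (hcat : Cat G R 5 z c) (h0 : InC k x y (c 0)) (h1 : InC k x y (c 1))
    (h3 : ¬ InC k x y (c 3)) (h4 : ¬ InC k x y (c 4)) (h5 : InC k x y (c 5))
    (h6 : InC k x y (c 6)) : BadC k x y 5 c 2 := by
  have p0 : pos 5 0 = 1 := rfl
  have p1 : pos 5 1 = 1 := rfl
  have p2 : pos 5 2 = 2 := rfl
  have p3 : pos 5 3 = 3 := rfl
  have p4 : pos 5 4 = 4 := rfl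
  have p5 : pos 5 5 = 5 := rfl
  have p6 : pos 5 6 = 5 := rfl
  have nm : ∀ i ≤ 6, ∀ j ≤ 6, ¬ (i ≤ 1 ∧ 5 ≤ j) → ¬ (j ≤ 1 ∧ 5 ≤ i) → ¬ Me G R (c i) (c j) := by
    intro i hi j hj a1 a2 hm
    have h5 := mate_pos hG hc hcat (by omega) (by omega) (by omega) hm
    unfold pos at h5
    split_ifs at h5 <;> omega
  have f12 : Few G R k x y c {0, 1, 2} := by
    refine few_of hG h hcat (p := 1) (q := 2) le_rfl (by omega) (by omega) ?_ ?_ ?_
    · intro j hj
      simp only [mem_insert, mem_singleton] at hj
      rcases hj with rfl | rfl | rfl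
      · rw [p0]; omega
      · rw [p1]; omega
      · rw [p2]; omega
    · intro i hi j hj
      simp only [mem_insert, mem_singleton] at hi hj
      exact nm i (by omega) j (by omega) (by omega) (by omega)
    · decide
  have f25 : Few G R k x y c {2, 3, 4, 5, 6} := by
    refine few_of hG h hcat (p := 2) (q := 5) (by omega) (by omega) (by omega) ?_ ?_ ?_
    · intro j hj
      simp only [mem_insert, mem_singleton] at hj
      rcases hj with rfl | rfl | rfl | rfl | rfl
      · rw [p2]; omega
      · rw [p3]; omega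
      · rw [p4]; omega
      · rw [p5]; omega
      · rw [p6]; omega
    · intro i hi j hj
      simp only [mem_insert, mem_singleton] at hi hj
      exact nm i (by omega) j (by omega) (by omega) (by omega)
    · decide
  obtain ⟨u, hu, hcu⟩ := inC_unit h0
  obtain ⟨v, hv, hcv⟩ := inC_unit h1
  obtain ⟨s, hs, hcs⟩ := inC_unit h5
  obtain ⟨t, ht, hct⟩ := inC_unit h6
  have ne0 : c 0 ≠ c 1 := hcat.ne0
  have ne5 : c 5 ≠ c 6 := hcat.nem
  have oth5 : ∀ j ∈ ({2, 3, 4, 5, 6} : Finset ℕ), j ≠ 5 → j ≠ 6 → j ≠ 2 → ¬ InC k x y (c j) := by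
    intro j hj a1 a2 a3
    simp only [mem_insert, mem_singleton] at hj
    have : j = 3 ∨ j = 4 := by omega
    rcases this with rfl | rfl
    · exact h3
    · exact h4
  refine ⟨fun hx => ?_, fun hy => ?_⟩
  · -- `x k`
    have c2u : c 2 = x k ∨ c 2 = y k := Or.inl hx
    have pu := port_par h hcat (i := 0) (j := 2) (by omega) (by omega) hu ⟨by omega, le_rfl⟩ hcu c2u
    have pv := port_par h hcat (i := 1) (j := 2) (by omega) (by omega) hv ⟨by omega, le_rfl⟩ hcv c2u
    have ps := port_par h hcat (i := 5) (j := 2) (by omega) (by omega) hs ⟨by omega, le_rfl⟩ hcs c2u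
    have pt := port_par h hcat (i := 6) (j := 2) (by omega) (by omega) ht ⟨by omega, le_rfl⟩ hct c2u
    rw [p0, p2] at pu
    rw [p1, p2] at pv
    rw [p5, p2] at ps
    rw [p6, p2] at pt
    have fa := fork_x h hk f12 (a := 0) (b := 1) (p := 2) (by simp) (by simp) (by simp)
      (fun j hj a1 a2 a3 => by
        simp only [mem_insert, mem_singleton] at hj
        omega) ne0 hx hu hv hcu hcv (by omega) (by omega)
    have fb := fork_x h hk f25 (a := 5) (b := 6) (p := 2) (by simp) (by simp) (by simp) oth5 ne5 hx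
      hs ht hcs hct (by omega) (by omega)
    have hl : Lk G R (x (k - 1)) (y (k - 2)) := by
      have := h.lk (k - 2) (by omega) (by omega)
      rw [show k - 2 + 1 = k - 1 by omega] at this
      exact this.symm
    obtain ⟨i, hi, ei⟩ : ∃ i ≤ 1, c i = x (k - 1) := by
      rcases fa with ⟨e, -⟩ | ⟨e, -⟩
      · exact ⟨0, by omega, e⟩
      · exact ⟨1, by omega, e⟩
    obtain ⟨j, hj1, hj2, ej⟩ : ∃ j, 5 ≤ j ∧ j ≤ 6 ∧ c j = x (k - 1) := by
      rcases fb with ⟨e, -⟩ | ⟨e, -⟩
      · exact ⟨5, by omega, by omega, e⟩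
      · exact ⟨6, by omega, by omega, e⟩
    rw [← ei] at hl
    have := port_one hG hcat (by omega) (by omega) hl (ei.trans ej.symm)
    omega
  · -- `y (k-1)`
    have c2u : c 2 = x (k - 1) ∨ c 2 = y (k - 1) := Or.inr hy
    have hk1 : 1 ≤ k - 1 ∧ k - 1 ≤ k := by omega
    have pu := port_par h hcat (i := 0) (j := 2) (by omega) (by omega) hu hk1 hcu c2u
    have pv := port_par h hcat (i := 1) (j := 2) (by omega) (by omega) hv hk1 hcv c2u
    have ps := port_par h hcat (i := 5) (j := 2) (by omega) (by omega) hs hk1 hcs c2u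
    have pt := port_par h hcat (i := 6) (j := 2) (by omega) (by omega) ht hk1 hct c2u
    rw [p0, p2] at pu
    rw [p1, p2] at pv
    rw [p5, p2] at ps
    rw [p6, p2] at pt
    obtain ⟨nx0, nx1, fa⟩ := fork_y h hk f12 (a := 0) (b := 1) (p := 2) (by simp) (by simp) (by simp)
      (fun j hj a1 a2 a3 => by
        simp only [mem_insert, mem_singleton] at hj
        omega) ne0 hy hu hv hcu hcv (by omega) (by omega)
    obtain ⟨nx5, nx6, fb⟩ := fork_y h hk f25 (a := 5) (b := 6) (p := 2) (by simp) (by simp) (by simp)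
      oth5 ne5 hy hs ht hcs hct (by omega) (by omega)
    -- every port in the chain, except at position 2, has a unit of the parity of `k`
    have unt : ∀ j ≤ 6, j ≠ 2 → InC k x y (c j) → c j ≠ x k ∧
        ∃ r, (1 ≤ r ∧ r ≤ k) ∧ (r + k) % 2 = 0 ∧ (c j = x r ∨ c j = y r) := by
      intro j hj hj2 hin
      have : j = 0 ∨ j = 1 ∨ j = 3 ∨ j = 4 ∨ j = 5 ∨ j = 6 := by omega
      rcases this with rfl | rfl | rfl | rfl | rfl | rfl
      · exact ⟨nx0, u, hu, by omega, hcu⟩
      · exact ⟨nx1, v, hv, by omega, hcv⟩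
      · exact absurd hin h3
      · exact absurd hin h4
      · exact ⟨nx5, s, hs, by omega, hcs⟩
      · exact ⟨nx6, t, ht, by omega, hct⟩
    have idk : ∀ j ≤ 6, j ≠ 2 → InC k x y (c j) → c j ≠ y k → idx k x y (c j) + 2 ≤ k := by
      intro j hj hj2 hin hne
      obtain ⟨g1, r, hr, pr, hcr⟩ := unt j hj hj2 hin
      rw [idx_unit h hr hcr]
      have : r ≠ k := by
        rintro rfl
        rcases hcr with e | e
        · exact g1 e
        · exact hne e
      omega
    by_cases hdb : ∃ i j, i ≤ 1 ∧ 5 ≤ j ∧ j ≤ 6 ∧ c i = y k ∧ c j = y k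
    · -- both forks
      right
      obtain ⟨a, b, ha, hb1, hb2, eb, eb'⟩ := hdb
      obtain ⟨a', ha', haa⟩ : ∃ a' ≤ 1, a' ≠ a := by
        by_cases h' : a = 0
        · exact ⟨1, by omega, by omega⟩
        · exact ⟨0, by omega, by omega⟩
      obtain ⟨b', hb'1, hb'2, hbb⟩ : ∃ b', 5 ≤ b' ∧ b' ≤ 6 ∧ b' ≠ b := by
        by_cases h' : b = 5
        · exact ⟨6, by omega, by omega, by omega⟩
        · exact ⟨5, by omega, by omega, by omega⟩
      have hina : InC k x y (c a') := by
        have : a' = 0 ∨ a' = 1 := by omega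
        rcases this with rfl | rfl
        · exact h0
        · exact h1
      have hinb : InC k x y (c b') := by
        have : b' = 5 ∨ b' = 6 := by omega
        rcases this with rfl | rfl
        · exact h5
        · exact h6
      have nea : c a' ≠ y k := by
        rw [← eb]
        have : a = 0 ∧ a' = 1 ∨ a = 1 ∧ a' = 0 := by omega
        rcases this with ⟨rfl, rfl⟩ | ⟨rfl, rfl⟩
        · exact ne0.symm
        · exact ne0
      have neb : c b' ≠ y k := by
        rw [← eb']
        have : b = 5 ∧ b' = 6 ∨ b = 6 ∧ b' = 5 := by omega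
        rcases this with ⟨rfl, rfl⟩ | ⟨rfl, rfl⟩
        · exact ne5.symm
        · exact ne5
      obtain ⟨nxa, ra, hra, pra, hca⟩ := unt a' (by omega) (by omega) hina
      obtain ⟨nxb, rb, hrb, prb, hcb⟩ := unt b' (by omega) (by omega) hinb
      have hra2 : ra ≤ k - 2 ∧ 1 ≤ k - 2 := by
        have : ra ≠ k := by
          rintro rfl
          rcases hca with e | e
          · exact nxa e
          · exact nea e
        omega
      have hrb2 : rb ≤ k - 2 := by
        have : rb ≠ k := by
          rintro rfl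
          rcases hcb with e | e
          · exact nxb e
          · exact neb e
        omega
      have hJall : ∀ j ∈ Finset.range 7, j ≤ 5 + 1 ∧ 1 ≤ pos 5 j ∧ pos 5 j ≤ 5 := by
        intro j hj
        rw [mem_range] at hj
        have := pos_mem hcat.pos (j := j) (by omega)
        exact ⟨by omega, this.1, this.2⟩
      have mek : ∀ w, Me G R (y k) w → w = x k := by
        intro w hw
        exact hG.matching hw (h.me k (by omega) le_rfl).symm
      -- the other two are mates
      have hmm : Me G R (c a') (c b') := by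
        by_contra hno
        have hnm : ∀ i ∈ Finset.range 7, ∀ j ∈ Finset.range 7, ¬ Me G R (c i) (c j) := by
          have key : ∀ i j, i ≤ 1 → 5 ≤ j → j ≤ 6 → ¬ Me G R (c i) (c j) := by
            intro i j hi hj hj' hm
            have e1 : i = a ∨ i = a' := by omega
            have e2 : j = b ∨ j = b' := by omega
            rcases e1 with rfl | rfl
            · rw [eb] at hm
              have := mek _ hm
              rcases e2 with rfl | rfl
              · rw [eb'] at this
                exact h.xy k k (by omega) le_rfl (by omega) le_rfl this.symm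
              · exact nxb this
            · rcases e2 with rfl | rfl
              · rw [eb'] at hm
                exact nxa (mek _ hm.symm)
              · exact hno hm
          intro i hi j hj hm
          rw [mem_range] at hi hj
          by_cases c1 : i ≤ 1 ∧ 5 ≤ j
          · exact key i j c1.1 c1.2 (by omega) hm
          · by_cases c2 : j ≤ 1 ∧ 5 ≤ i
            · exact key j i c2.1 c2.2 (by omega) hm.symm
            · exact nm i (by omega) j (by omega) c1 c2 hm
        have e1 := law0 hG hcat (p := 1) (q := 5) le_rfl (by omega) le_rfl hJall hnm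
        have e2 : ((Finset.range 7).image c).card ≤ 6 := by
          have e3 : (Finset.range 7).image c ⊆ ((Finset.range 7).erase b).image c := by
            intro w hw
            rw [mem_image] at hw ⊢
            obtain ⟨j, hj, rfl⟩ := hw
            by_cases hjb : j = b
            · refine ⟨a, ?_, ?_⟩
              · rw [mem_erase, mem_range]; omega
              · rw [hjb, eb, eb']
            · exact ⟨j, by rw [mem_erase]; exact ⟨hjb, hj⟩, rfl⟩
          refine (Finset.card_le_card e3).trans (Finset.card_image_le.trans ?_)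
          rw [Finset.card_erase_of_mem (by rw [mem_range]; omega), Finset.card_range]
        rw [Finset.card_range] at e1
        omega
      -- dropping one of them, no open unit
      have drop : ∀ d e, (d = a' ∧ e = b') ∨ (d = b' ∧ e = a') → ∀ r, (1 ≤ r ∧ r ≤ k - 2) →
          (r + k) % 2 = 0 → (c e = x r ∨ c e = y r) → (c e = x 1 ∧ r = 1) ∨ (c e = y (k - 2) ∧ r = k - 2) := by
        intro d e hde r hr pr hce
        have hd7 : d < 7 := by omega
        have he7 : e < 7 := by omega
        have hJ : ∀ j ∈ (Finset.range 7).erase d, j ≤ 5 + 1 ∧ 1 ≤ pos 5 j ∧ pos 5 j ≤ 5 :=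
          fun j hj => hJall j (mem_of_mem_erase hj)
        have hnm : ∀ i ∈ (Finset.range 7).erase d, ∀ j ∈ (Finset.range 7).erase d,
            ¬ Me G R (c i) (c j) := by
          have key : ∀ i j, i ≤ 1 → 5 ≤ j → j ≤ 6 → i ≠ d → j ≠ d → ¬ Me G R (c i) (c j) := by
            intro i j hi hj hj' hid hjd hm
            have e1 : i = a ∨ i = a' := by omega
            have e2 : j = b ∨ j = b' := by omega
            rcases e1 with rfl | rfl
            · rw [eb] at hm
              have := mek _ hm
              rcases e2 with rfl | rfl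
              · rw [eb'] at this
                exact h.xy k k (by omega) le_rfl (by omega) le_rfl this.symm
              · exact nxb this
            · rcases e2 with rfl | rfl
              · rw [eb'] at hm
                exact nxa (mek _ hm.symm)
              · omega
          intro i hi j hj hm
          rw [mem_erase, mem_range] at hi hj
          by_cases c1 : i ≤ 1 ∧ 5 ≤ j
          · exact key i j c1.1 c1.2 (by omega) hi.1 hj.1 hm
          · by_cases c2 : j ≤ 1 ∧ 5 ≤ i
            · exact key j i c2.1 c2.2 (by omega) hj.1 hi.1 hm.symm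
            · exact nm i (by omega) j (by omega) c1 c2 hm
        have e2 : (((Finset.range 7).erase d).image c).card ≤ 5 := by
          have e3 : ((Finset.range 7).erase d).image c ⊆ (((Finset.range 7).erase d).erase b).image c := by
            intro w hw
            rw [mem_image] at hw ⊢
            obtain ⟨j, hj, rfl⟩ := hw
            by_cases hjb : j = b
            · refine ⟨a, ?_, ?_⟩
              · rw [mem_erase, mem_erase, mem_range]; omega
              · rw [hjb, eb, eb']
            · exact ⟨j, by rw [mem_erase]; exact ⟨hjb, hj⟩, rfl⟩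
          refine (Finset.card_le_card e3).trans (Finset.card_image_le.trans ?_)
          rw [Finset.card_erase_of_mem (by rw [mem_erase, mem_range]; omega),
            Finset.card_erase_of_mem (by rw [mem_range]; omega), Finset.card_range]
        have noop : ∀ w, ¬ Opn k x y c ((Finset.range 7).erase d) w := by
          intro w hw
          have e1 := law1 hG h hcat (p := 1) (q := 5) le_rfl (by omega) le_rfl hJ hnm hw
          rw [Finset.card_erase_of_mem (by rw [mem_range]; omega), Finset.card_range] at e1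
          omega
        have seen : ∀ w, 1 ≤ w → w ≤ k → w ≠ r → w ≠ k → w ≠ k - 1 →
            ∀ j ∈ (Finset.range 7).erase d, c j ≠ x w ∧ c j ≠ y w := by
          intro w w1 w2 wr wk wk1 j hj
          rw [mem_erase, mem_range] at hj
          have : j = e ∨ j = a ∨ j = b ∨ j = 2 ∨ j = 3 ∨ j = 4 := by omega
          rcases this with rfl | rfl | rfl | rfl | rfl | rfl
          · exact unit_ne h ⟨hr.1, by omega⟩ ⟨w1, w2⟩ (Ne.symm wr) hce
          · exact unit_ne h ⟨by omega, le_rfl⟩ ⟨w1, w2⟩ (Ne.symm wk) (Or.inr eb)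
          · exact unit_ne h ⟨by omega, le_rfl⟩ ⟨w1, w2⟩ (Ne.symm wk) (Or.inr eb')
          · exact unit_ne h hk1 ⟨w1, w2⟩ (Ne.symm wk1) c2u
          · constructor <;> intro he
            · exact h3 (by rw [he]; exact InC.x w1 w2)
            · exact h3 (by rw [he]; exact InC.y w1 w2)
          · constructor <;> intro he
            · exact h4 (by rw [he]; exact InC.x w1 w2)
            · exact h4 (by rw [he]; exact InC.y w1 w2)
        have heJ : e ∈ (Finset.range 7).erase d := by
          rw [mem_erase, mem_range]; omega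
        rcases hce with hce | hce
        · by_cases hr1 : r = 1
          · left; rw [hce, hr1]; exact ⟨rfl, rfl⟩
          · exfalso
            refine noop (r - 1) ⟨by omega, by omega, seen (r - 1) (by omega) (by omega) (by omega)
              (by omega) (by omega), Or.inr ⟨e, heJ, by omega, ?_⟩⟩
            rw [show r - 1 + 1 = r by omega]; exact hce
        · by_cases hr2 : r = k - 2
          · right; rw [hce, hr2]; exact ⟨rfl, rfl⟩
          · exfalso
            refine noop (r + 1) ⟨by omega, by omega, seen (r + 1) (by omega) (by omega) (by omega)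
              (by omega) (by omega), Or.inl ⟨e, heJ, by omega, ?_⟩⟩
            rw [show r + 1 - 1 = r by omega]; exact hce
      have d1 := drop a' b' (Or.inl ⟨rfl, rfl⟩) rb ⟨hrb.1, hrb2⟩ prb hcb
      have d2 := drop b' a' (Or.inr ⟨rfl, rfl⟩) ra ⟨hra.1, hra2.1⟩ pra hca
      have hrr : ra = rb := unit_me hG h hra hrb hca hcb hmm
      have hx1 : k = 3 ∧ ∃ l ≤ 6, c l = x 1 := by
        rcases d1 with ⟨g1, g2⟩ | ⟨g1, g2⟩ <;> rcases d2 with ⟨g3, g4⟩ | ⟨g3, g4⟩
        · rw [g1, g3] at hmm
          exact absurd rfl hmm.1.ne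
        · exact ⟨by omega, b', by omega, g1⟩
        · exact ⟨by omega, a', by omega, g3⟩
        · rw [g1, g3] at hmm
          exact absurd rfl hmm.1.ne
      refine ⟨hx1.1, ⟨a, b, by omega, by omega, by omega, eb, eb'⟩, hx1.2, fun j hj he => ?_⟩
      have hin : InC k x y (c j) := by rw [he]; exact InC.x hk1.1 hk1.2
      by_cases hj2 : j = 2
      · rw [hj2] at he
        exact h.xy _ _ hk1.1 hk1.2 hk1.1 hk1.2 (he.symm.trans hy)
      · obtain ⟨-, r, hr, pr, hcr⟩ := unt j hj hj2 hin
        have e1 := idx_unit h hr hcr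
        rw [he, idx_x h hk1.1 hk1.2] at e1
        omega
    · -- one fork
      left
      have hnb : ¬ ((c 0 = x 1 ∧ c 1 = y (k - 2) ∨ c 1 = x 1 ∧ c 0 = y (k - 2)) ∧
          (c 5 = x 1 ∧ c 6 = y (k - 2) ∨ c 6 = x 1 ∧ c 5 = y (k - 2))) := by
        rintro ⟨g1, g2⟩
        obtain ⟨i, hi, ei⟩ : ∃ i ≤ 1, c i = y (k - 2) := by
          rcases g1 with ⟨-, e⟩ | ⟨-, e⟩
          · exact ⟨1, by omega, e⟩
          · exact ⟨0, by omega, e⟩
        obtain ⟨j, hj1, hj2, ej⟩ : ∃ j, 5 ≤ j ∧ j ≤ 6 ∧ c j = y (k - 2) := by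
          rcases g2 with ⟨-, e⟩ | ⟨-, e⟩
          · exact ⟨6, by omega, by omega, e⟩
          · exact ⟨5, by omega, by omega, e⟩
        have hl := h.lk (k - 2) (by omega) (by omega)
        rw [← ei] at hl
        have := port_one hG hcat (by omega) (by omega) hl (ei.trans ej.symm)
        omega
      obtain ⟨q, hq, hq2, eq, huq⟩ : ∃ q ≤ 6, q ≠ 2 ∧ c q = y k ∧ ∀ j ≤ 6, j ≠ q → c j ≠ y k := by
        have hu1 : ∀ i j, i ≤ 6 → j ≤ 6 → c i = y k → c j = y k → i = j := by
          intro i j hi hj e1 e2
          have g : ∀ i ≤ 6, c i = y k → i ≤ 1 ∨ 5 ≤ i := by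
            intro i hi e
            by_contra hcon
            have : i = 2 ∨ i = 3 ∨ i = 4 := by omega
            rcases this with rfl | rfl | rfl
            · have := hy.symm.trans e
              have := h.injy _ _ hk1.1 hk1.2 (by omega) le_rfl this
              omega
            · exact h3 (by rw [e]; exact InC.y (by omega) le_rfl)
            · exact h4 (by rw [e]; exact InC.y (by omega) le_rfl)
          have gi := g i hi e1
          have gj := g j hj e2
          by_contra hij
          have : (i ≤ 1 ∧ 5 ≤ j) ∨ (j ≤ 1 ∧ 5 ≤ i) ∨ (i ≤ 1 ∧ j ≤ 1) ∨ (5 ≤ i ∧ 5 ≤ j) := by omega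
          rcases this with g1 | g1 | g1 | g1
          · exact hdb ⟨i, j, g1.1, g1.2, hj, e1, e2⟩
          · exact hdb ⟨j, i, g1.1, g1.2, hi, e2, e1⟩
          · have : i = 0 ∧ j = 1 ∨ i = 1 ∧ j = 0 := by omega
            rcases this with ⟨rfl, rfl⟩ | ⟨rfl, rfl⟩
            · exact ne0 (e1.trans e2.symm)
            · exact ne0 (e2.trans e1.symm)
          · have : i = 5 ∧ j = 6 ∨ i = 6 ∧ j = 5 := by omega
            rcases this with ⟨rfl, rfl⟩ | ⟨rfl, rfl⟩
            · exact ne5 (e1.trans e2.symm)
            · exact ne5 (e2.trans e1.symm)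
        have hexq : ∃ q ≤ 6, q ≠ 2 ∧ c q = y k := by
          rcases fa with e | e | e
          · exact ⟨0, by omega, by omega, e⟩
          · exact ⟨1, by omega, by omega, e⟩
          · rcases fb with e' | e' | e'
            · exact ⟨5, by omega, by omega, e'⟩
            · exact ⟨6, by omega, by omega, e'⟩
            · exact absurd ⟨e, e'⟩ hnb
        obtain ⟨q, hq, hq2, eq⟩ := hexq
        exact ⟨q, hq, hq2, eq, fun j hj hjq e => hjq (hu1 j q hj hq e eq)⟩
      exact ⟨q, hq, eq, fun j hj hj2 hjq hin => idk j hj hj2 hin (huq j hj hjq)⟩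

/-- **The bad patterns.** -/
theorem badC (hG : ClassC G R) (hc : Crit G R) (h : Chn G R k x y) (hk : 3 ≤ k)
    (hcat : Cat G R m z c) {p : ℕ} (hp : BadP m (JC k x y c) p) : BadC k x y m c p := by
  unfold BadP at hp
  rcases hp with ⟨rfl, rfl, h0, h1, -, h3, h4, h5⟩ | ⟨rfl, rfl, h4, h5, -, h2, h0, h1⟩ |
    ⟨rfl, rfl, h0, h1, -, h3, h4, h5, h6⟩ | ⟨rfl, rfl, h0, h1, -, h2, h3, h5, h6⟩
  · rcases h4 with h4 | h4
    · exact bad4 hG hc h hk hcat h0 h1 h3 (b := 4) (b' := 5) (Or.inl ⟨rfl, rfl⟩) h4
        (fun h' => h5 ⟨h4, h'⟩)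
    · exact bad4 hG hc h hk hcat h0 h1 h3 (b := 5) (b' := 4) (Or.inr ⟨rfl, rfl⟩) h4
        (fun h' => h5 ⟨h', h4⟩)
  · refine BadC.of_rev (by omega) ?_
    have hr := cat_rev hcat
    rcases h0 with h0 | h0
    · exact bad4 hG hc h hk hr h5 h4 h2 (b := 5) (b' := 4) (Or.inr ⟨rfl, rfl⟩) h0
        (fun h' => h1 ⟨h0, h'⟩)
    · exact bad4 hG hc h hk hr h5 h4 h2 (b := 4) (b' := 5) (Or.inl ⟨rfl, rfl⟩) h0
        (fun h' => h1 ⟨h', h0⟩)
  · exact bad5 hG hc h hk hcat h0 h1 h3 h4 h5 h6
  · refine BadC.of_rev (by omega) ?_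
    exact bad5 hG hc h hk (cat_rev hcat) h6 h5 h3 h2 h1 h0

theorem badH (hG : ClassC H R) (hc : Crit H R) (h : Chn H R k x y) (hk : 3 ≤ k) : BadH H R k x y :=
  fun _ _ _ hcat _ hp => badC hG hc h hk hcat hp

end CLB.H95
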