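import Pool.Agent.Helper95_CLB.BadP

/-!
Three units: no component `{x 1, y 3 | y 2, f}`.
-/

set_option autoImplicit false
set_option linter.unusedSectionVars false

namespace CLB.H95

open Finset Classical
open H3DA (Q neg nr)
open CLB.H3 (CExt Cat IsTwo Fits UPath he_of_unc cat_structure chn_side rlaw_path seg_isP llS mmS eS
  eS_eq_ek eS_sum_ge pos KTight exists_ktight)

variable {V : Type*} {G H : SimpleGraph V} {R : V → Bool} [Fintype V] {k : ℕ} {x y : ℕ → V}
  {m : ℕ} {z c : ℕ → V}

lemma two_forks : ∀ (D : Ty) (a b c : Q), stp D (neg b) c = true → frk D a b = true →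
    ∀ d, frk D c d = true → nr (neg a) d = true := by decide +kernel

/-- Neighbouring labels of a tight labelling. -/
lemma tight_adj {D : Ty} {s : ℕ → Q} {m : ℕ} (hm : 2 ≤ m) (h : Tight D s m) {i j : ℕ} (hi : i ≤ m + 1)
    (hj : j ≤ m + 1) (hij : pos m j = pos m i + 1) : nr (neg (s i)) (s j) = true := by
  have n1 := h.near hm
  have n2 := h.nearR hm
  unfold pos at hij
  by_cases hm2 : m = 2
  · subst hm2
    have hi' : i = 0 ∨ i = 1 := by split_ifs at hij <;> omega
    have hj' : j = 2 ∨ j = 3 := by split_ifs at hij <;> omega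
    rcases hi' with rfl | rfl <;> rcases hj' with rfl | rfl
    · exact n1.1
    · have h1 := h.2.1 1 le_rfl (by omega)
      rw [altT_one] at h1
      have h3 := h.2.2
      rw [show altT D (2 + 1) = D by simp [altT]] at h3
      exact two_forks D _ _ _ h1 h.1 _ h3
    · exact n1.2
    · exact nr_neg_swap _ _ n2.1
  · by_cases h0 : i = 0
    · subst h0
      have : j = 2 := by split_ifs at hij <;> omega
      subst this
      exact n1.1
    · have h1 : i < m := by split_ifs at hij <;> omega
      by_cases h2 : j = m + 1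
      · have h3 : i = m - 1 := by split_ifs at hij <;> omega
        subst h2
        subst h3
        exact nr_neg_swap _ _ n2.1
      · have h3 : j = i + 1 := by split_ifs at hij <;> omega
        subst h3
        exact tight_nr h (by omega) h1

/-- The vertices `x i` and `y (i+1)` are not at neighbouring positions. -/
lemma no_xy (hG : ClassC G R) (hc : Crit G R) (h : Chn G R k x y) (hcat : Cat G R m z c) (hm : 2 ≤ m)
    {i j u : ℕ} (hi : i ≤ m + 1) (hj : j ≤ m + 1) (hu : 1 ≤ u) (huk : u < k) (hci : c i = x u)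
    (hcj : c j = y (u + 1)) (hij : pos m j = pos m i + 1 ∨ pos m i = pos m j + 1) : False := by
  obtain ⟨f, D, hK⟩ := exists_ktight hG hc hcat hm
  have hcov : ∀ v, Cov G R v → v ∉ cSupp m z := by
    rintro v hv ⟨l, l1, l2, rfl⟩
    exact hcat.unc l l1 l2 hv
  have me : ∀ v w, Me G R v w → f w = neg (f v) := fun v w hm' =>
    (hK.ok v w hm'.1 (fun h' => hcov v ⟨w, hm'⟩ h'.1)).1 hm'.2
  have lk : ∀ v w, Lk G R v w → nr (f v) (f w) = true := fun v w hl =>
    (hK.ok v w hl.1.1 (fun h' => hcov v hl.2.1 h'.1)).2 hl.1.2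
  have e1 := me _ _ (h.me u hu (by omega))
  have e2 := lk _ _ (h.lk u hu huk)
  have e3 := me _ _ (h.me (u + 1) (by omega) (by omega))
  have hn : nr (neg (f (c i))) (f (c j)) = true := by
    rcases hij with hij | hij
    · exact tight_adj hm hK.tight hi hj hij
    · exact nr_neg_swap _ _ (tight_adj hm hK.tight hj hi hij)
  rw [hci, hcj, e3] at hn
  rw [e1] at e2
  have h4 := ball_anti _ _ e2
  -- `neg (f (x u))` is near `f (x (u+1))` and near `neg (f (x (u+1)))`
  have h5 : ∀ a b : Q, nr (neg a) b = true → nr (neg a) (neg b) = true → False := by decide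
  exact h5 _ _ e2 hn

/-- The vertices `y i` and `x (i+1)` are not at neighbouring positions. -/
lemma no_yx (hG : ClassC G R) (hc : Crit G R) (h : Chn G R k x y) (hcat : Cat G R m z c) (hm : 2 ≤ m)
    {i j u : ℕ} (hi : i ≤ m + 1) (hj : j ≤ m + 1) (hu : 1 ≤ u) (huk : u < k) (hci : c i = y u)
    (hcj : c j = x (u + 1)) (hij : pos m j = pos m i + 1 ∨ pos m i = pos m j + 1) : False := by
  obtain ⟨f, D, hK⟩ := exists_ktight hG hc hcat hm
  have hcov : ∀ v, Cov G R v → v ∉ cSupp m z := by
    rintro v hv ⟨l, l1, l2, rfl⟩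
    exact hcat.unc l l1 l2 hv
  have lk : ∀ v w, Lk G R v w → nr (f v) (f w) = true := fun v w hl =>
    (hK.ok v w hl.1.1 (fun h' => hcov v hl.2.1 h'.1)).2 hl.1.2
  have e2 := lk _ _ (h.lk u hu huk)
  have hn : nr (neg (f (c i))) (f (c j)) = true := by
    rcases hij with hij | hij
    · exact tight_adj hm hK.tight hi hj hij
    · exact nr_neg_swap _ _ (tight_adj hm hK.tight hj hi hij)
  rw [hci, hcj] at hn
  rw [ball_anti _ _ e2] at hn
  exact Bool.noConfusion hn

/-- **Three units.** -/
theorem threeH (hG : ClassC H R) (hc : Crit H R) (h : Chn H R k x y) : ThreeH H R k x y := by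
  intro hk m z c hcat hm hN hs
  subst hk
  obtain ⟨i1, hi1, e1⟩ := hs.px 1 le_rfl le_rfl
  obtain ⟨i2, hi2, e2⟩ := hs.py 2 (by omega) (by omega)
  obtain ⟨i3, hi3, e3⟩ := hs.py 3 (by omega) (by omega)
  have hall : ∀ j ≤ m + 1, InC 3 x y (c j) → j = i1 ∨ j = i2 ∨ j = i3 := by
    intro j hj hin
    rcases hs.all j hj hin with ⟨i, a1, a2, a3⟩ | ⟨i, a1, a2, a3⟩
    · obtain rfl : i = 1 := by omega
      exact Or.inl (hs.inj _ _ hj hi1 hin (a3.trans e1.symm))
    · have : i = 2 ∨ i = 3 := by omega
      rcases this with rfl | rfl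
      · exact Or.inr (Or.inl (hs.inj _ _ hj hi2 hin (a3.trans e2.symm)))
      · exact Or.inr (Or.inr (hs.inj _ _ hj hi3 hin (a3.trans e3.symm)))
  have q12 := port_par h hcat hi1 hi2 (u := 1) (v := 2) ⟨by omega, by omega⟩ ⟨by omega, by omega⟩
    (Or.inl e1) (Or.inr e2)
  have q13 := port_par h hcat hi1 hi3 (u := 1) (v := 3) ⟨by omega, by omega⟩ ⟨by omega, by omega⟩
    (Or.inl e1) (Or.inr e3)
  -- at most three ports in the chain
  have h4 : ∀ a b d e : ℕ, a ≤ m + 1 → b ≤ m + 1 → d ≤ m + 1 → e ≤ m + 1 → InC 3 x y (c a) →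
      InC 3 x y (c b) → InC 3 x y (c d) → InC 3 x y (c e) → a < b → b < d → d < e → False := by
    intro a b d e ha hb hd he a1 a2 a3 a4 h1 h2 h3
    have := hall a ha a1
    have := hall b hb a2
    have := hall d hd a3
    have := hall e he a4
    omega
  unfold NCp JC at hN
  have m3 : m = 2 := by
    rcases hN with ⟨h1, -⟩ | ⟨a1, a2, a3, a4, a5⟩ | ⟨a1, a2, a3, a4, a5⟩ | ⟨a1, a2, a3, a4, -⟩ |
      ⟨h1, h2⟩ | ⟨h1, a1, a2, a3, a4⟩
    · exact h1
    · by_contra hne
      have a6 := a5 2 le_rfl (by omega)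
      rcases a4 with a4 | a4
      · exact h4 0 1 2 m (by omega) (by omega) (by omega) (by omega) a1 a2 a6 a4 (by omega) (by omega)
          (by omega)
      · exact h4 0 1 2 (m + 1) (by omega) (by omega) (by omega) (by omega) a1 a2 a6 a4 (by omega)
          (by omega) (by omega)
    · by_contra hne
      have a6 := a5 2 le_rfl (by omega)
      rcases a4 with a4 | a4
      · exact h4 0 2 m (m + 1) (by omega) (by omega) (by omega) (by omega) a4 a6 a1 a2 (by omega)
          (by omega) (by omega)
      · exact h4 1 2 m (m + 1) (by omega) (by omega) (by omega) (by omega) a4 a6 a1 a2 (by omega)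
          (by omega) (by omega)
    · exact (h4 0 1 m (m + 1) (by omega) (by omega) (by omega) (by omega) a1 a2 a3 a4 (by omega)
        (by omega) (by omega)).elim
    · -- three vertices: parity
      exfalso
      subst h1
      have key : ∀ a b d, a ≤ 4 → b ≤ 4 → d ≤ 4 → InC 3 x y (c a) → InC 3 x y (c b) → InC 3 x y (c d) →
          a < b → b < d → a ≠ 2 → b ≠ 2 → d ≠ 2 → False := by
        intro a b d ha hb hd a1 a2 a3 h1 h2 g1 g2 g3
        have b1 := hall a (by omega) a1
        have b2 := hall b (by omega) a2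
        have b3 := hall d (by omega) a3
        have c1 : i1 ≠ 2 ∧ i2 ≠ 2 := by omega
        unfold pos at q12
        split_ifs at q12 <;> omega
      rcases h2 with ⟨a1, a2, a3 | a3⟩ | ⟨a1, a2, a3 | a3⟩
      · exact key 0 1 3 (by omega) (by omega) (by omega) a1 a2 a3 (by omega) (by omega) (by omega)
          (by omega) (by omega)
      · exact key 0 1 4 (by omega) (by omega) (by omega) a1 a2 a3 (by omega) (by omega) (by omega)
          (by omega) (by omega)
      · exact key 0 3 4 (by omega) (by omega) (by omega) a3 a1 a2 (by omega) (by omega) (by omega)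
          (by omega) (by omega)
      · exact key 1 3 4 (by omega) (by omega) (by omega) a3 a1 a2 (by omega) (by omega) (by omega)
          (by omega) (by omega)
    · exact (h4 0 1 m (m + 1) (by omega) (by omega) (by omega) (by omega) a1 a2 a3 a4 (by omega)
        (by omega) (by omega)).elim
  subst m3
  refine no_xy hG hc h hcat le_rfl hi1 hi2 (u := 1) le_rfl (by omega) e1 e2 ?_
  unfold pos at q12 ⊢
  split_ifs at q12 ⊢ <;> omega

end CLB.H95
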