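import Pool.Agent.Helper95_CLB.OnlWalk

/-!
Online strategies on open chains with one component that is killed in the last two units (`EKill`): it
owns a port edge at `y (k-1)` and one at `y k`.
-/

set_option autoImplicit false
set_option linter.unusedSectionVars false

namespace CLB.H95

open Finset Classical
open H3DA (Q neg nr)
open CLB.H3 (CExt Cat IsTwo Fits UPath he_of_unc cat_structure chn_side)

variable {V : Type*} {G H : SimpleGraph V} {R : V → Bool} [Fintype V] {k : ℕ} {x y : ℕ → V}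

/-- A partial walk avoids the forbidden sets of one component at the units up to `n`. -/
def PAv (G : SimpleGraph V) (k : ℕ) (x y : ℕ → V) (f : V → Q) (S : Set V)
    (φ : V → V → (ℕ → Q) → Finset Q) (n : ℕ) (g : ℕ → Q) : Prop :=
  ∀ z ∈ S, ∀ v, G.Adj v z → InC k x y v → idx k x y v ≤ n → lbl k x y g f v ∉ φ v z g

/-- The component with support `S` is killed in the last two units, against every forbidden set of size
two at unit `k - 1` and of size `e` at unit `k`. -/
structure EKill (G : SimpleGraph V) (R : V → Bool) (k : ℕ) (x y : ℕ → V) (f : V → Q) (S : Set V)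
    (e : ℕ) (φ : V → V → (ℕ → Q) → Finset Q) : Prop where
  two : ∀ v z h h', (φ v z h ∪ φ v z h').card ≤ 2
  dep : Dep k x y φ
  last : ∀ z h, φ (x k) z h = ∅ ∧ φ (y k) z h = ∅ ∧ φ (x (k - 1)) z h = ∅ ∧ φ (y (k - 1)) z h = ∅
  fin : ∀ g g', Nwk (k - 2) g → Nwk (k - 2) g' → PAv G k x y f S φ (k - 2) g →
    PAv G k x y f S φ (k - 2) g' → g (k - 2) ≠ g' (k - 2) → ∀ A B : Finset Q, A.card ≤ 2 →
    B.card ≤ e → ∃ mu, (Same (k - 1) g mu ∨ Same (k - 1) g' mu) ∧
      nr (mu (k - 2)) (mu (k - 1)) = true ∧ nr (mu (k - 1)) (mu k) = true ∧ mu (k - 1) ∉ A ∧ mu k ∉ B ∧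
      ∃ w, Fits G R (lbl k x y mu f) w S

/-- A port with no charge. -/
lemma cst_le_zero {Φ : V → V → Finset Q} (h2 : ∀ v z, (Φ v z).card ≤ 2) {v z₀ : V} {n : ℕ}
    (hn : (prt G R v).card ≤ n + 1) (hz : z₀ ∈ prt G R v) (h1 : Φ v z₀ = ∅) :
    cst G R Φ v ≤ 2 * n := by
  unfold cst
  rw [← Finset.add_sum_erase _ _ hz, h1]
  have h3 : ((prt G R v).erase z₀).card ≤ n := by
    rw [Finset.card_erase_of_mem hz]; omega
  calc (∅ : Finset Q).card + ∑ z ∈ (prt G R v).erase z₀, (Φ v z).card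
      ≤ 0 + ∑ _z ∈ (prt G R v).erase z₀, 2 := Nat.add_le_add (by simp)
        (Finset.sum_le_sum fun z _ => h2 v z)
    _ = 2 * ((prt G R v).erase z₀).card := by simp [mul_comm]
    _ ≤ 2 * n := by omega

lemma card_compl_lst {Φ : V → V → Finset Q} {i n : ℕ} (h : 8 ≤ (lst G R x y Φ i).card + n) :
    ((lst G R x y Φ i)ᶜ).card ≤ n := by
  rw [Finset.card_compl]
  have : Fintype.card Q = 8 := by decide
  omega

/-- The last step: two partial walks to the unit `k - 2` with different labels give a contradiction. -/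
theorem end_finish (hR : Opt G R) (hG : ClassC G R) (hle : H ≤ G) (hc : Crit H R)
    (h : Chn H R k x y) (hk : 3 ≤ k) (hends : (∀ w, ¬ Lk H R (x 1) w) ∧ ∀ w, ¬ Lk H R (y k) w)
    {mE : ℕ} {zE cE : ℕ → V} (hE : Cat H R mE zE cE) {zy zk : V} (hzy : zy ∈ prt H R (y (k - 1)))
    (hzyE : zy ∈ cSupp mE zE) (hzk : zk ∈ prt H R (y k)) (hzkE : zk ∈ cSupp mE zE)
    {f : V → Q} (hf : OffC H R k x y f) {φ : V → V → (ℕ → Q) → Finset Q}
    (hφ : EKill H R k x y f (cSupp mE zE) (if InnerPt H R zy then 4 else 3) φ)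
    {z₀ : V} (hz₀ : (prt H R (x k)).card = 0 ∨ z₀ ∈ prt H R (x k)) {E : Set V}
    (hEE : cSupp mE zE ⊆ E) {Φ : V → V → (ℕ → Q) → Finset Q} (hΦ : OForb H R k x y f E (x k) z₀ Φ)
    (hET : ∀ v ∈ E, ∀ a b, ¬ IsTwo H R v a b)
    {g g' : ℕ → Q}
    (hg : PW H R x y (fun v z g => if z ∈ cSupp mE zE then φ v z g else Φ v z g) (k - 2) g)
    (hg' : PW H R x y (fun v z g => if z ∈ cSupp mE zE then φ v z g else Φ v z g) (k - 2) g')
    (hne : g (k - 2) ≠ g' (k - 2))
    (hrest : ∀ mu, Nwk k mu → (Same (k - 1) g mu ∨ Same (k - 1) g' mu) → ∀ m z c, Cat H R m z c →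
      (∃ j ≤ m + 1, InC k x y (c j)) → cSupp m z ≠ cSupp mE zE →
      (∃ φ, OKill H R k x y f (cSupp m z) (x k) z₀ φ) ∧ (∀ i, 1 ≤ i → i ≤ m → z i ∉ E) ∨
        CExt m (fun j => lbl k x y mu f (c j))) : False := by
  have hH := hG.mono hle
  set Φ' : V → V → (ℕ → Q) → Finset Q := fun v z g => if z ∈ cSupp mE zE then φ v z g else Φ v z g
    with hΦ'
  have h2 : ∀ v z g g', (Φ' v z g ∪ Φ' v z g').card ≤ 2 := by
    intro v z g g'
    simp only [hΦ']
    split_ifs
    · exact hφ.two v z g g'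
    · exact hΦ.two v z g g'
  have hd : Dep k x y Φ' := by
    intro i h1 h2 z g g' hs
    simp only [hΦ']
    split_ifs
    · exact hφ.dep i h1 h2 z g g' hs
    · exact hΦ.dep i h1 h2 z g g' (hs.mono (by omega))
  have hdk : ∀ z g g', Same (k - 1) g g' → Φ' (x k) z g = Φ' (x k) z g' ∧ Φ' (y k) z g = Φ' (y k) z g' := by
    intro z g g' hs
    simp only [hΦ']
    split_ifs
    · exact ⟨by rw [(hφ.last z g).1, (hφ.last z g').1], by rw [(hφ.last z g).2.1, (hφ.last z g').2.1]⟩
    · exact hΦ.depk h.pos z g g' hs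
  set Ψ := uni Φ' g g' with hΨ
  have hΨ2 : ∀ v z, (Ψ v z).card ≤ 2 := fun v z => h2 v z g g'
  have hlk : Lk H R (y (k - 1)) (x k) := by
    have := h.lk (k - 1) (by omega) (by omega)
    rwa [show k - 1 + 1 = k by omega] at this
  have hlk' : Lk H R (y (k - 2)) (x (k - 1)) := by
    have := h.lk (k - 2) (by omega) (by omega)
    rwa [show k - 2 + 1 = k - 1 by omega] at this
  -- size of the forbidden sets
  have hA : ((lst H R x y Ψ (k - 1))ᶜ).card ≤ 2 := by
    apply card_compl_lst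
    have b := lst_card (G := H) (R := R) (x := x) (y := y) Ψ (k - 1)
    have e1 := cst_le hΨ2 (prt_card_lk hH hlk'.symm)
    have e2 := cst_le_zero hΨ2 (n := 0) (prt_card_lk hH hlk) hzy (by
      simp only [hΨ, uni, hΦ']
      rw [if_pos hzyE, if_pos hzyE, (hφ.last zy g).2.2.2, (hφ.last zy g').2.2.2]; simp)
    omega
  have hyk : cst H R Ψ (y k) ≤ 2 * ((prt H R (y k)).card - 1) := by
    refine cst_le_zero hΨ2 (by omega) hzk ?_
    simp only [hΨ, uni, hΦ']
    rw [if_pos hzkE, if_pos hzkE, (hφ.last zk g).2.1, (hφ.last zk g').2.1]; simp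
  have pyk := prt_card hH (h.cov (InC.y (x := x) h.pos le_rfl))
  have pxk := prt_card_lk hH hlk.symm
  have hB : ((lst H R x y Ψ k)ᶜ).card ≤ (if InnerPt H R zy then 4 else 3) := by
    apply card_compl_lst
    have b := lst_card (G := H) (R := R) (x := x) (y := y) Ψ k
    have e1 := cst_le hΨ2 pxk
    split_ifs with hin
    · omega
    · by_cases h3 : (prt H R (y k)).card ≤ 1
      · omega
      · rcases hz₀ with hz₀ | hz₀
        · have := cst_le hΨ2 (le_of_eq hz₀)
          omega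
        · have hpm := pm_sub hR hG hle hc hlk.1.symm (h.me k h.pos le_rfl)
            (h.me (k - 1) (by omega) (by omega)).symm hz₀ hzy
          rw [if_neg h3] at hpm
          have hle1 : (if (prt H R (x (k - 1))).card ≤ 1 then 1 else 0) ≤ 1 := by split_ifs <;> omega
          have h4 : hcv H R zy (y (k - 1)) ≠ 0 := fun h0 => hin
            (innerPt_of_hcv hH hc hzy (h.cov (InC.y (by omega) (by omega))) h0)
          have h5 := innerPt_of_hcv hH hc hz₀ (h.cov (InC.x h.pos le_rfl)) (by omega)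
          have e2 := cst_le_light hΨ2 (n := 0) pxk hz₀ (by
            simp only [hΨ, uni, hΦ']
            by_cases h6 : z₀ ∈ cSupp mE zE
            · rw [if_pos h6, if_pos h6, (hφ.last z₀ g).1, (hφ.last z₀ g').1]; simp
            · rw [if_neg h6, if_neg h6]
              exact hΦ.one hz₀ h5 g g')
          omega
  -- the last two labels
  have hpav : ∀ w, PW H R x y Φ' (k - 2) w → PAv H k x y f (cSupp mE zE) φ (k - 2) w := by
    intro w hw z hz v hv hin hi
    obtain ⟨i, h1, h2', hvi⟩ := hin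
    have hidx : idx k x y v = i := by
      rcases hvi with rfl | rfl
      · exact idx_x h h1 h2'
      · exact idx_y h h1 h2'
    rw [hidx] at hi
    have hm := hw.mem i h1 hi
    unfold olst at hm
    rw [mem_lst] at hm
    have hzc : ¬ Cov H R z := by
      obtain ⟨j, j1, j2, rfl⟩ := hz
      exact hE.unc j j1 j2
    rcases hvi with rfl | rfl
    · rw [lbl_x h h1 h2']
      have := hm.1 z (mem_prt.2 ⟨hv, hzc⟩)
      simp only [hΦ'] at this
      rwa [if_pos hz] at this
    · rw [lbl_y h h1 h2']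
      have := hm.2 z (mem_prt.2 ⟨hv, hzc⟩)
      simp only [hΦ'] at this
      rwa [if_pos hz] at this
  obtain ⟨mu, hs, hn1, hn2, hmA, hmB, w, hw⟩ := hφ.fin g g' hg.nwk hg'.nwk (hpav g hg) (hpav g' hg') hne
    _ _ hA hB
  rw [mem_compl, not_not] at hmA hmB
  have key : ∀ q, PW H R x y Φ' (k - 2) q → Same (k - 1) q mu →
      lst H R x y Ψ (k - 1) ⊆ olst H R x y Φ' q (k - 1) → lst H R x y Ψ k ⊆ olst H R x y Φ' q k →
      PW H R x y Φ' k mu := by
    intro q hq hqs s1 s2
    refine ⟨fun i i1 i2 => ?_, fun i i1 i2 => ?_⟩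
    · by_cases h3 : i + 1 ≤ k - 2
      · rw [← hqs i i1 (by omega), ← hqs (i + 1) (by omega) (by omega)]
        exact hq.nwk i i1 (by omega)
      · have : i = k - 2 ∨ i = k - 1 := by omega
        rcases this with rfl | rfl
        · rw [show k - 2 + 1 = k - 1 by omega]; exact hn1
        · rw [show k - 1 + 1 = k by omega]; exact hn2
    · by_cases h3 : i ≤ k - 2
      · rw [← olst_congr hd i1 (by omega) (hqs.mono (by omega)), ← hqs i i1 (by omega)]
        exact hq.mem i i1 h3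
      · have : i = k - 1 ∨ i = k := by omega
        rcases this with rfl | rfl
        · rw [← olst_congr hd i1 (by omega) hqs]
          exact s1 hmA
        · have : olst H R x y Φ' q i = olst H R x y Φ' mu i := lst_congr' (fun z => hdk z q mu hqs)
          rw [← this]
          exact s2 hmB
  have hmu' : PW H R x y Φ' k mu := by
    rcases hs with hs | hs
    · exact key g hg hs (uni_left _ _ _ _) (uni_left _ _ _ _)
    · exact key g' hg' hs (uni_right _ _ _ _) (uni_right _ _ _ _)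
  have hmu : PW H R x y Φ k mu := by
    refine ⟨hmu'.nwk, fun i i1 i2 => ?_⟩
    refine lst_anti (fun v z => ?_) i (hmu'.mem i i1 i2)
    simp only [hΦ']
    split_ifs with h3
    · rw [hΦ.triv v z mu (hEE h3)]; exact Finset.empty_subset _
    · exact Finset.Subset.refl _
  refine chain_contra hH hc h (Or.inr hends) hf (mu := mu) ?_
  refine fit_of_walk h hΦ hmu (hends.2 _) ?_ ?_
  · intro v a b hT ha hv
    exact absurd hT (hET v hv a b)
  · intro m z c hC' hex
    by_cases hS : cSupp m z = cSupp mE zE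
    · right
      rw [cext_iff_fits hC', hS]
      exact ⟨w, hw⟩
    · exact hrest mu hmu.nwk hs m z c hC' hex hS

/-- An open chain with one component killed in the last two units and online strategies for all other
components does not exist. -/
theorem open_online_end (hR : Opt G R) (hG : ClassC G R) (hle : H ≤ G) (hc : Crit H R)
    (h : Chn H R k x y) (hk : 3 ≤ k) (hends : (∀ w, ¬ Lk H R (x 1) w) ∧ ∀ w, ¬ Lk H R (y k) w)
    {mE : ℕ} {zE cE : ℕ → V} (hE : Cat H R mE zE cE) {zy zk : V} (hzy : zy ∈ prt H R (y (k - 1)))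
    (hzyE : zy ∈ cSupp mE zE) (hzk : zk ∈ prt H R (y k)) (hzkE : zk ∈ cSupp mE zE)
    (hEK : ∀ f, OffC H R k x y f → ∃ φ, EKill H R k x y f (cSupp mE zE)
      (if InnerPt H R zy then 4 else 3) φ)
    (hC : ∀ f, OffC H R k x y f → ∀ v₀ z₀, v₀ = x k → ∀ m z c, Cat H R m z c →
      (∃ j ≤ m + 1, InC k x y (c j)) → cSupp m z ≠ cSupp mE zE →
        ∃ φ, OKill H R k x y f (cSupp m z) v₀ z₀ φ) : False := by
  have hH := hG.mono hle
  obtain ⟨f, hf⟩ := exists_off h hc
  obtain ⟨φ, hφ⟩ := hEK f hf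
  -- the designated port
  obtain ⟨z₀, hz₀⟩ : ∃ z₀, (prt H R (x k)).card = 0 ∨ z₀ ∈ prt H R (x k) := by
    by_cases h0 : (prt H R (x k)).card = 0
    · exact ⟨x k, Or.inl h0⟩
    · obtain ⟨v, hv⟩ := Finset.card_pos.1 (Nat.pos_of_ne_zero h0)
      exact ⟨v, Or.inr hv⟩
  obtain ⟨Φ, hΦ⟩ := exists_oforb hH h (f := f) (cSupp mE zE) (x k) z₀
  set Φ' : V → V → (ℕ → Q) → Finset Q := fun v z g => if z ∈ cSupp mE zE then φ v z g else Φ v z g
    with hΦ'
  have h2 : ∀ v z g g', (Φ' v z g ∪ Φ' v z g').card ≤ 2 := by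
    intro v z g g'
    simp only [hΦ']
    split_ifs
    · exact hφ.two v z g g'
    · exact hΦ.two v z g g'
  have hd : Dep k x y Φ' := by
    intro i h1 h2 z g g' hs
    simp only [hΦ']
    split_ifs
    · exact hφ.dep i h1 h2 z g g' hs
    · exact hΦ.dep i h1 h2 z g g' (hs.mono (by omega))
  obtain ⟨g, g', hg, hg', hne⟩ := two_walks hH h h2 hd (n := k - 2) (by omega) (by omega)
  refine end_finish hR hG hle hc h hk hends hE hzy hzyE hzk hzkE hf hφ hz₀ subset_rfl hΦ ?_ hg hg' hne ?_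
  · rintro v ⟨j, j1, j2, rfl⟩ a b hT
    exact isTwo_not_cat hE j1 j2 hT
  · intro mu _ _ m z c hC' hex hS
    left
    refine ⟨hC f hf (x k) z₀ rfl m z c hC' hex hS, fun i i1 i2 hi => hS ?_⟩
    exact cSupp_eq hC' hE (mem_cSupp i1 i2) hi

end CLB.H95
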