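import Pool.Agent.Helper95_CLB.Forb

/-!
The lists of a chain given by forbidden sets on the port edges, their sizes, and the chains all of whose
components are static.
-/

set_option autoImplicit false
set_option linter.unusedSectionVars false

namespace CLB.H95

open Finset Classical
open H3DA (Q neg nr)
open CLB.H3 (CExt Cat IsTwo Fits UPath he_of_unc)

variable {V : Type*} {G : SimpleGraph V} {R : V → Bool} [Fintype V] {k : ℕ} {x y : ℕ → V}

/-- The uncovered neighbours. -/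
noncomputable def prt (G : SimpleGraph V) (R : V → Bool) (v : V) : Finset V :=
  univ.filter (fun z => G.Adj v z ∧ ¬ Cov G R z)

lemma mem_prt {v z : V} : z ∈ prt G R v ↔ G.Adj v z ∧ ¬ Cov G R z := by unfold prt; simp

/-- The number of labels forbidden at `v`. -/
noncomputable def cst (G : SimpleGraph V) (R : V → Bool) (Φ : V → V → Finset Q) (v : V) : ℕ :=
  ∑ z ∈ prt G R v, (Φ v z).card

/-- The list of the unit `i`. -/
noncomputable def lst (G : SimpleGraph V) (R : V → Bool) (x y : ℕ → V) (Φ : V → V → Finset Q)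
    (i : ℕ) : Finset Q :=
  univ.filter (fun t => (∀ z ∈ prt G R (x i), sg i t ∉ Φ (x i) z) ∧
    ∀ z ∈ prt G R (y i), neg (sg i t) ∉ Φ (y i) z)

lemma mem_lst {Φ : V → V → Finset Q} {i : ℕ} {t : Q} : t ∈ lst G R x y Φ i ↔
    (∀ z ∈ prt G R (x i), sg i t ∉ Φ (x i) z) ∧ ∀ z ∈ prt G R (y i), neg (sg i t) ∉ Φ (y i) z := by
  unfold lst; simp

lemma lst_card (Φ : V → V → Finset Q) (i : ℕ) :
    8 ≤ (lst G R x y Φ i).card + cst G R Φ (x i) + cst G R Φ (y i) := by
  have h1 : (univ : Finset Q) ⊆ lst G R x y Φ i ∪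
      ((prt G R (x i)).biUnion (fun z => (Φ (x i) z).image (sg i)) ∪
        (prt G R (y i)).biUnion (fun z => (Φ (y i) z).image (fun s => sg i (neg s)))) := by
    intro t _
    rw [mem_union, mem_union]
    by_cases h : t ∈ lst G R x y Φ i
    · exact Or.inl h
    · right
      rw [mem_lst, not_and_or] at h
      rcases h with h | h
      · push Not at h
        obtain ⟨z, hz, hz'⟩ := h
        left
        rw [mem_biUnion]
        exact ⟨z, hz, mem_image.2 ⟨_, hz', sg_sg i t⟩⟩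
      · push Not at h
        obtain ⟨z, hz, hz'⟩ := h
        right
        rw [mem_biUnion]
        refine ⟨z, hz, mem_image.2 ⟨_, hz', ?_⟩⟩
        rw [H3DA.neg_neg, sg_sg]
  have h2 := Finset.card_le_card h1
  rw [card_univ_Q] at h2
  refine h2.trans ((Finset.card_union_le _ _).trans ?_)
  rw [Nat.add_assoc]
  refine Nat.add_le_add_left ((Finset.card_union_le _ _).trans (Nat.add_le_add ?_ ?_)) _
  · refine Finset.card_biUnion_le.trans (Finset.sum_le_sum fun z _ => Finset.card_image_le)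
  · refine Finset.card_biUnion_le.trans (Finset.sum_le_sum fun z _ => Finset.card_image_le)

/-- A covered vertex has at most two uncovered neighbours. -/
lemma prt_card (hG : ClassC G R) {v : V} (hv : Cov G R v) : (prt G R v).card ≤ 2 := by
  obtain ⟨w, hw⟩ := hv
  have h1 : prt G R v ⊆ (univ.filter (fun z => G.Adj v z)).erase w := by
    intro z hz
    rw [mem_prt] at hz
    rw [mem_erase, mem_filter]
    exact ⟨fun h => hz.2 (h ▸ hw.cov'), mem_univ _, hz.1⟩
  have h2 := Finset.card_le_card h1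
  rw [Finset.card_erase_of_mem (by simp [hw.1])] at h2
  have := hG.deg3 v
  omega

/-- A linked vertex has at most one uncovered neighbour. -/
lemma prt_card_lk (hG : ClassC G R) {v u : V} (hv : Lk G R v u) : (prt G R v).card ≤ 1 := by
  obtain ⟨w, hw⟩ := hv.2.1
  have hwu : w ≠ u := fun h => hv.1.2 (by rw [← h]; exact hw.2)
  have h1 : prt G R v ⊆ ((univ.filter (fun z => G.Adj v z)).erase w).erase u := by
    intro z hz
    rw [mem_prt] at hz
    rw [mem_erase, mem_erase, mem_filter]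
    exact ⟨fun h => hz.2 (h ▸ hv.2.2), fun h => hz.2 (h ▸ hw.cov'), mem_univ _, hz.1⟩
  have h2 := Finset.card_le_card h1
  rw [Finset.card_erase_of_mem (by simp [hwu.symm, hv.1.1]),
    Finset.card_erase_of_mem (by simp [hw.1])] at h2
  have := hG.deg3 v
  omega

lemma cst_le {Φ : V → V → Finset Q} (h2 : ∀ v z, (Φ v z).card ≤ 2) {v : V} {n : ℕ}
    (hn : (prt G R v).card ≤ n) : cst G R Φ v ≤ 2 * n := by
  unfold cst
  calc ∑ z ∈ prt G R v, (Φ v z).card ≤ ∑ _z ∈ prt G R v, 2 := Finset.sum_le_sum fun z _ => h2 v z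
    _ = 2 * (prt G R v).card := by simp [mul_comm]
    _ ≤ 2 * n := by omega

/-- One light port. -/
lemma cst_le_light {Φ : V → V → Finset Q} (h2 : ∀ v z, (Φ v z).card ≤ 2) {v z₀ : V} {n : ℕ}
    (hn : (prt G R v).card ≤ n + 1) (hz : z₀ ∈ prt G R v) (h1 : (Φ v z₀).card ≤ 1) :
    cst G R Φ v ≤ 2 * n + 1 := by
  unfold cst
  rw [← Finset.add_sum_erase _ _ hz]
  have h3 : ((prt G R v).erase z₀).card ≤ n := by
    rw [Finset.card_erase_of_mem hz]; omega
  calc (Φ v z₀).card + ∑ z ∈ (prt G R v).erase z₀, (Φ v z).card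
      ≤ 1 + ∑ _z ∈ (prt G R v).erase z₀, 2 := Nat.add_le_add h1 (Finset.sum_le_sum fun z _ => h2 v z)
    _ = 1 + 2 * ((prt G R v).erase z₀).card := by simp [mul_comm]
    _ ≤ 2 * n + 1 := by omega

/-- Labels in the lists satisfy the avoidance condition. -/
lemma lbl_avoid (h : Chn G R k x y) {f : V → Q} {Φ : V → V → Finset Q} {mu : ℕ → Q}
    (hmu : ∀ i, 1 ≤ i → i ≤ k → mu i ∈ lst G R x y Φ i) :
    ∀ z v, ¬ Cov G R z → G.Adj v z → InC k x y v → lbl k x y mu f v ∉ Φ v z := by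
  rintro z v hz hv ⟨i, h1, h2, rfl | rfl⟩
  · rw [lbl_x h h1 h2]
    exact (mem_lst.1 (hmu i h1 h2)).1 z (mem_prt.2 ⟨hv, hz⟩)
  · rw [lbl_y h h1 h2]
    exact (mem_lst.1 (hmu i h1 h2)).2 z (mem_prt.2 ⟨hv, hz⟩)

/-- Fitting labels from the lists; the exceptional components are treated separately. -/
theorem fit_of_lists (h : Chn G R k x y) {f : V → Q} {E : Set V} {v₀ z₀ : V}
    {Φ : V → V → Finset Q} (hΦ : Forb G R k x y f E v₀ z₀ Φ) {mu : ℕ → Q}
    (hmu : ∀ i, 1 ≤ i → i ≤ k → mu i ∈ lst G R x y Φ i)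
    (hw : ∀ i, 1 ≤ i → i < k → nr (mu i) (mu (i + 1)) = true)
    (hcyc : Lk G R (y k) (x 1) → nr (mu k) (mu 1) = true)
    (hT : ∀ v a b, IsTwo G R v a b → InC k x y a → (v ∈ E ∨ InC k x y b) →
      lbl k x y mu f a ≠ neg (lbl k x y mu f b))
    (hC : ∀ m z c, Cat G R m z c → (∃ j ≤ m + 1, InC k x y (c j)) →
      (¬ StatC k x y m c ∨ ∃ i, 1 ≤ i ∧ i ≤ m ∧ z i ∈ E) → CExt m (fun j => lbl k x y mu f (c j))) :
    FitC G R k x y f mu where
  walk := hw
  cyc := hcyc
  two v a b hT' ha := by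
    by_cases h1 : v ∈ E ∨ InC k x y b
    · exact hT v a b hT' ha h1
    · rw [not_or] at h1
      have := hΦ.isTwo (lbl k x y mu f) (fun v _ hv => lbl_out hv) (lbl_avoid h hmu) v a b hT' h1.1 ha
        h1.2
      exact this
  cat m z c hC' hex := by
    by_cases h1 : ¬ StatC k x y m c ∨ ∃ i, 1 ≤ i ∧ i ≤ m ∧ z i ∈ E
    · exact hC m z c hC' hex h1
    · rw [not_or, not_not] at h1
      push Not at h1
      exact hΦ.cat (lbl k x y mu f) (fun v _ hv => lbl_out hv) (lbl_avoid h hmu) m z c hC' h1.1 hex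
        (fun i h2 h3 => h1.2 i h2 h3)

/-- Walks through lists from left and right, meeting at `r`. -/
lemma walk_exists {A : ℕ → Finset Q} {k r : ℕ} (h1 : 1 ≤ r) (hr : r ≤ k)
    (hl : ∀ i, 1 ≤ i → i ≤ k → 4 ≤ (A i).card ∨ ((i = 1 ∨ i = k) ∧ 2 ≤ (A i).card))
    (hroot : (1 < r ∧ r < k ∧ 5 ≤ (A r).card) ∨ (1 < k ∧ (r = 1 ∨ r = k) ∧ 3 ≤ (A r).card)) :
    ∃ mu : ℕ → Q, (∀ i, 1 ≤ i → i ≤ k → mu i ∈ A i) ∧
      ∀ i, 1 ≤ i → i < k → nr (mu i) (mu (i + 1)) = true := by
  -- left and right reachable sets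
  set B : ℕ → Finset Q := fun i => A (i + 1) with hB
  have hk0 : ∃ n, k = n + 1 := ⟨k - 1, by omega⟩
  obtain ⟨n, rfl⟩ := hk0
  have hA4 : ∀ i, 0 < i → i < n → 4 ≤ (B i).card := by
    intro i h2 h3
    rcases hl (i + 1) (by omega) (by omega) with h | ⟨h, -⟩
    · exact h
    · omega
  have hA0 : 2 ≤ (B 0).card := by
    rcases hl 1 le_rfl (by omega) with h | ⟨-, h⟩
    · show 2 ≤ (A (0 + 1)).card
      rw [Nat.zero_add]; omega
    · exact h
  have hAn : 2 ≤ (B n).card := by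
    rcases hl (n + 1) (by omega) le_rfl with h | ⟨-, h⟩
    · show 2 ≤ (A (n + 1)).card
      omega
    · exact h
  have hleft : ∀ i, i < n → 2 ≤ (reach (B 0) B i).card := by
    intro i hi
    exact reach_card2 hA0 (fun j h2 h3 => hA4 j h2 (by omega))
  have hright : ∀ i, i < n → 2 ≤ (reach (B n) (fun j => B (n - j)) i).card := by
    intro i hi
    exact reach_card2 hAn (fun j h2 h3 => hA4 (n - j) (by omega) (by omega))
  -- a common label
  obtain ⟨s, hs⟩ : ∃ s, r = s + 1 := ⟨r - 1, by omega⟩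
  subst hs
  obtain ⟨t, ht1, ht2⟩ : ∃ t, t ∈ reach (B 0) B s ∧ t ∈ reach (B n) (fun j => B (n - j)) (n - s) := by
    rcases hroot with ⟨h2, h3, h4⟩ | ⟨h2, h3 | h3, h4⟩
    · obtain ⟨a, rfl⟩ : ∃ a, s = a + 1 := ⟨s - 1, by omega⟩
      obtain ⟨b, hb⟩ : ∃ b, n - (a + 1) = b + 1 := ⟨n - (a + 1) - 1, by omega⟩
      rw [hb, reach_succ, reach_succ, show n - (b + 1) = a + 1 by omega]
      have g1 := nb_card2 (hleft a (by omega))
      have g2 := nb_card2 (hright b (by omega))
      have g3 := card_inter_ge (nb (reach (B 0) B a)) (nb (reach (B n) (fun j => B (n - j)) b))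
      have g4 := card_inter_ge (nb (reach (B 0) B a) ∩ nb (reach (B n) (fun j => B (n - j)) b))
        (B (a + 1))
      have g5 : 5 ≤ (B (a + 1)).card := h4
      obtain ⟨t, ht⟩ := Finset.card_pos.1 (show 0 < (nb (reach (B 0) B a) ∩
        nb (reach (B n) (fun j => B (n - j)) b) ∩ B (a + 1)).card by omega)
      simp only [mem_inter] at ht ⊢
      exact ⟨t, ⟨ht.1.1, ht.2⟩, ht.1.2, ht.2⟩
    · have hs0 : s = 0 := by omega
      subst hs0
      obtain ⟨b, rfl⟩ : ∃ b, n = b + 1 := ⟨n - 1, by omega⟩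
      rw [reach_zero, Nat.sub_zero, reach_succ, Nat.sub_self]
      have g2 := nb_card2 (hright b (by omega))
      have g4 := card_inter_ge (nb (reach (B (b + 1)) (fun j => B (b + 1 - j)) b)) (B 0)
      have g5 : 3 ≤ (B 0).card := h4
      obtain ⟨t, ht⟩ := Finset.card_pos.1 (show 0 < (nb (reach (B (b + 1))
        (fun j => B (b + 1 - j)) b) ∩ B 0).card by omega)
      simp only [mem_inter] at ht ⊢
      exact ⟨t, ht.2, ht.1, ht.2⟩
    · have hs0 : s = n := by omega
      subst hs0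
      obtain ⟨b, rfl⟩ : ∃ b, s = b + 1 := ⟨s - 1, by omega⟩
      rw [Nat.sub_self, reach_zero, reach_succ]
      have g2 := nb_card2 (hleft b (by omega))
      have g4 := card_inter_ge (nb (reach (B 0) B b)) (B (b + 1))
      have g5 : 3 ≤ (B (b + 1)).card := h4
      obtain ⟨t, ht⟩ := Finset.card_pos.1 (show 0 < (nb (reach (B 0) B b) ∩ B (b + 1)).card by omega)
      simp only [mem_inter] at ht ⊢
      exact ⟨t, ht, ht.2⟩
  obtain ⟨w, hw1, -, hw3⟩ := join_walk (A := B) (k := n) (r := s) (by omega) ht1 ht2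
  refine ⟨fun i => w (i - 1), fun i h2 h3 => ?_, fun i h2 h3 => ?_⟩
  · have := hw1 (i - 1) (by omega)
    simp only [hB, show i - 1 + 1 = i by omega] at this
    exact this
  · have := hw3 (i - 1) (by omega)
    rw [show i - 1 + 1 = i by omega] at this
    show nr (w (i - 1)) (w (i + 1 - 1)) = true
    rw [Nat.add_sub_cancel]
    exact this

end CLB.H95
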