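import Pool.Agent.Helper95_CLB.OpenStatic
import Pool.Agent.Helper3_DA.Struct

/-!
Online strategies: the units of an open chain are labelled one after the other from `1` to `k`; the
forbidden sets on a port edge may depend on the labels chosen before. Two partial walks with different
last labels are kept; on every port edge the union of the two forbidden sets has at most two labels.
-/

set_option autoImplicit false
set_option linter.unusedSectionVars false

namespace CLB.H95

open Finset Classical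
open H3DA (Q neg nr)
open CLB.H3 (CExt Cat IsTwo Fits UPath he_of_unc cat_structure chn_side)

variable {V : Type*} {G H : SimpleGraph V} {R : V → Bool} [Fintype V] {k : ℕ} {x y : ℕ → V}

/-- The same history below unit `i`. -/
def Same (i : ℕ) (h h' : ℕ → Q) : Prop := ∀ j, 1 ≤ j → j < i → h j = h' j

/-- Near walks on the units `1, ..., n`. -/
def Nwk (n : ℕ) (h : ℕ → Q) : Prop := ∀ i, 1 ≤ i → i < n → nr (h i) (h (i + 1)) = true

lemma Same.symm {i : ℕ} {h h' : ℕ → Q} (s : Same i h h') : Same i h' h := fun j h1 h2 => (s j h1 h2).symm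

lemma Same.trans {i : ℕ} {h h' h'' : ℕ → Q} (s : Same i h h') (s' : Same i h' h'') : Same i h h'' :=
  fun j h1 h2 => (s j h1 h2).trans (s' j h1 h2)

lemma Same.mono {i j : ℕ} {h h' : ℕ → Q} (s : Same i h h') (hij : j ≤ i) : Same j h h' :=
  fun l h1 h2 => s l h1 (by omega)

lemma Same.rfl' {i : ℕ} {h : ℕ → Q} : Same i h h := fun _ _ _ => rfl

/-- History dependent forbidden sets on the port edges: common part of the requirements. -/
structure OSet (G : SimpleGraph V) (R : V → Bool) (k : ℕ) (x y : ℕ → V) (v₀ z₀ : V)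
    (φ : V → V → (ℕ → Q) → Finset Q) : Prop where
  two : ∀ v z h h', (φ v z h ∪ φ v z h').card ≤ 2
  one : z₀ ∈ prt G R v₀ → InnerPt G R z₀ → ∀ h h', (φ v₀ z₀ h ∪ φ v₀ z₀ h').card ≤ 1
  dep : ∀ i, 1 ≤ i → i ≤ k → ∀ z h h', Same (i - 1) h h' →
    φ (x i) z h = φ (x i) z h' ∧ φ (y i) z h = φ (y i) z h'

/-- The labels of the chain avoid the forbidden sets at the port edges into `S`. -/
def Avd (G : SimpleGraph V) (_R : V → Bool) (k : ℕ) (x y : ℕ → V) (f : V → Q) (S : Set V)
    (φ : V → V → (ℕ → Q) → Finset Q) (mu : ℕ → Q) : Prop :=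
  ∀ z ∈ S, ∀ v, G.Adj v z → InC k x y v → lbl k x y mu f v ∉ φ v z mu

/-- An online strategy for the component with support `S`. -/
structure OKill (G : SimpleGraph V) (R : V → Bool) (k : ℕ) (x y : ℕ → V) (f : V → Q) (S : Set V)
    (v₀ z₀ : V) (φ : V → V → (ℕ → Q) → Finset Q) : Prop extends OSet G R k x y v₀ z₀ φ where
  ok : ∀ mu, Nwk k mu → Avd G R k x y f S φ mu → ∃ g, Fits G R (lbl k x y mu f) g S

lemma OSet.depk {v₀ z₀ : V} {φ : V → V → (ℕ → Q) → Finset Q} (hk : 1 ≤ k)
    (hφ : OSet G R k x y v₀ z₀ φ) : ∀ z h h', Same (k - 1) h h' →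
      φ (x k) z h = φ (x k) z h' ∧ φ (y k) z h = φ (y k) z h' := hφ.dep k hk le_rfl

/-- Static forbidden sets are online strategies. -/
lemma SetKill.toOKill {f : V → Q} {S : Set V} {v₀ z₀ : V} {φ : V → V → Finset Q}
    (hφ : SetKill G R k x y f S v₀ z₀ φ) : OKill G R k x y f S v₀ z₀ (fun v z _ => φ v z) where
  two v z _ _ := by rw [Finset.union_self]; exact hφ.two v z
  one _ hin _ _ := by rw [Finset.union_self]; exact hφ.one hin
  dep _ _ _ _ _ _ _ := ⟨rfl, rfl⟩
  ok mu _ hav := hφ.ok _ (fun _ _ hv => lbl_out hv) (fun z hz v hv hin => hav z hz v hv hin)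

/-- The unit of a vertex of the chain. -/
noncomputable def idx (k : ℕ) (x y : ℕ → V) (v : V) : ℕ :=
  if h : ∃ i, 1 ≤ i ∧ i ≤ k ∧ (v = x i ∨ v = y i) then h.choose else 0

lemma idx_spec {v : V} (hv : InC k x y v) : 1 ≤ idx k x y v ∧ idx k x y v ≤ k ∧
    (v = x (idx k x y v) ∨ v = y (idx k x y v)) := by
  unfold idx
  have hv' : ∃ i, 1 ≤ i ∧ i ≤ k ∧ (v = x i ∨ v = y i) := hv
  rw [dif_pos hv']
  exact hv'.choose_spec

lemma idx_x (h : Chn G R k x y) {i : ℕ} (h1 : 1 ≤ i) (h2 : i ≤ k) : idx k x y (x i) = i := by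
  obtain ⟨a1, a2, a3 | a3⟩ := idx_spec (InC.x (x := x) (y := y) h1 h2)
  · exact (h.injx _ _ h1 h2 a1 a2 a3).symm
  · exact absurd a3 (h.xy _ _ h1 h2 a1 a2)

lemma idx_y (h : Chn G R k x y) {i : ℕ} (h1 : 1 ≤ i) (h2 : i ≤ k) : idx k x y (y i) = i := by
  obtain ⟨a1, a2, a3 | a3⟩ := idx_spec (InC.y (x := x) (y := y) h1 h2)
  · exact absurd a3.symm (h.xy _ _ a1 a2 h1 h2)
  · exact (h.injy _ _ h1 h2 a1 a2 a3).symm

/-- The label of a vertex of the chain depends on its unit only. -/
lemma lbl_congr (h : Chn G R k x y) {f : V → Q} {mu mu' : ℕ → Q} {v : V} (hv : InC k x y v)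
    (he : mu (idx k x y v) = mu' (idx k x y v)) : lbl k x y mu f v = lbl k x y mu' f v := by
  obtain ⟨i, h1, h2, rfl | rfl⟩ := hv
  · rw [idx_x h h1 h2] at he
    rw [lbl_x h h1 h2, lbl_x h h1 h2, he]
  · rw [idx_y h h1 h2] at he
    rw [lbl_y h h1 h2, lbl_y h h1 h2, he]

/-- Two vertices of a chain on the same side have units of the same parity. -/
lemma idx_parity (h : Chn G R k x y) {a b : V} (ha : InC k x y a) (hb : InC k x y b)
    (hab : R a = R b) : idx k x y a % 2 = idx k x y b % 2 := by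
  obtain ⟨a1, a2, a3⟩ := idx_spec ha
  obtain ⟨b1, b2, b3⟩ := idx_spec hb
  have e1 : R a = xor (R (x 1)) (decide (idx k x y a % 2 = 0)) := by
    rcases a3 with a3 | a3
    · rw [← (chn_side h _ a1 a2).1, ← a3]
    · rw [← (chn_side h _ a1 a2).2, ← a3]
  have e2 : R b = xor (R (x 1)) (decide (idx k x y b % 2 = 0)) := by
    rcases b3 with b3 | b3
    · rw [← (chn_side h _ b1 b2).1, ← b3]
    · rw [← (chn_side h _ b1 b2).2, ← b3]
  rw [e1, e2] at hab
  have e3 : decide (idx k x y a % 2 = 0) = decide (idx k x y b % 2 = 0) := by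
    revert hab
    cases R (x 1) <;> cases decide (idx k x y a % 2 = 0) <;> cases decide (idx k x y b % 2 = 0) <;> simp
  have e4 : (idx k x y a % 2 = 0) ↔ (idx k x y b % 2 = 0) := by
    constructor
    · intro h'; rw [decide_eq_true h'] at e3; exact of_decide_eq_true e3.symm
    · intro h'; rw [decide_eq_true h'] at e3; exact of_decide_eq_true e3
  omega

/-- Two different covered neighbours of one uncovered vertex have different units. -/
lemma idx_ne (hG : ClassC G R) (h : Chn G R k x y) {z a b : V} (ha : InC k x y a) (hb : InC k x y b)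
    (hne : a ≠ b) (hza : G.Adj z a) (hzb : G.Adj z b) : idx k x y a ≠ idx k x y b := by
  intro he
  obtain ⟨a1, a2, a3⟩ := idx_spec ha
  obtain ⟨b1, b2, b3⟩ := idx_spec hb
  rw [← he] at b3
  have hm := (h.me _ a1 a2).1
  rcases a3 with a3 | a3 <;> rcases b3 with b3 | b3
  · exact hne (a3.trans b3.symm)
  · rw [← a3, ← b3] at hm
    exact hG.tri z a b hza hm hzb
  · rw [← a3, ← b3] at hm
    exact hG.tri z b a hzb hm hza
  · exact hne (a3.trans b3.symm)

/-- The two neighbours of a vertex of degree two on the chain: parity and order. -/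
lemma isTwo_idx (hG : ClassC G R) (h : Chn G R k x y) {z a b : V} (hT : IsTwo G R z a b)
    (ha : InC k x y a) (hb : InC k x y b) : idx k x y a ≠ idx k x y b ∧
      idx k x y a % 2 = idx k x y b % 2 := by
  obtain ⟨h1, h2, h3, h4, h5, h6, h7⟩ := hT
  refine ⟨idx_ne hG h ha hb h4 h2 h3, idx_parity h ha hb ?_⟩
  have e1 := (he_of_unc h1 h2).2
  have e2 := (he_of_unc h1 h3).2
  revert e1 e2
  cases R z <;> cases R a <;> cases R b <;> simp

/-- Online forbidden sets on all port edges of the chain; the components meeting `E` are left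
uncharged. -/
structure OForb (G : SimpleGraph V) (R : V → Bool) (k : ℕ) (x y : ℕ → V) (f : V → Q) (E : Set V)
    (v₀ z₀ : V) (Φ : V → V → (ℕ → Q) → Finset Q) : Prop extends OSet G R k x y v₀ z₀ Φ where
  triv : ∀ v z h, z ∈ E → Φ v z h = ∅
  isTwo : ∀ mu, (∀ z v, ¬ Cov G R z → G.Adj v z → InC k x y v → lbl k x y mu f v ∉ Φ v z mu) →
    ∀ z a b, IsTwo G R z a b → z ∉ E → InC k x y a → lbl k x y mu f a ≠ neg (lbl k x y mu f b)
  cat : ∀ mu, Nwk k mu →
    (∀ z v, ¬ Cov G R z → G.Adj v z → InC k x y v → lbl k x y mu f v ∉ Φ v z mu) →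
    ∀ m z c, Cat G R m z c → (∃ φ, OKill G R k x y f (cSupp m z) v₀ z₀ φ) →
      (∀ i, 1 ≤ i → i ≤ m → z i ∉ E) → CExt m (fun j => lbl k x y mu f (c j))

theorem exists_oforb (hG : ClassC G R) (hch : Chn G R k x y) {f : V → Q} (E : Set V)
    (v₀ z₀ : V) : ∃ Φ, OForb G R k x y f E v₀ z₀ Φ := by
  -- choose the strategies of the components
  have hsel : ∀ S : Set V, ∃ φ : V → V → (ℕ → Q) → Finset Q, OSet G R k x y v₀ z₀ φ ∧
      ((∃ φ, OKill G R k x y f S v₀ z₀ φ) → OKill G R k x y f S v₀ z₀ φ) := by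
    intro S
    by_cases h : ∃ φ, OKill G R k x y f S v₀ z₀ φ
    · obtain ⟨φ, hφ⟩ := h
      exact ⟨φ, hφ.toOSet, fun _ => hφ⟩
    · exact ⟨fun _ _ _ => ∅, ⟨by simp, by simp, fun _ _ _ _ _ _ _ => ⟨rfl, rfl⟩⟩,
        fun h' => absurd h' h⟩
  choose φ hφ1 hφ using hsel
  -- the component of a vertex
  let sup : V → Set V := fun v => {w | ∃ m z c, Cat G R m z c ∧ v ∈ cSupp m z ∧ w ∈ cSupp m z}
  have hsup : ∀ {m : ℕ} {z c : ℕ → V}, Cat G R m z c → ∀ v ∈ cSupp m z, sup v = cSupp m z := by
    intro m z c h v hv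
    ext w
    constructor
    · rintro ⟨m', z', c', h', hv', hw'⟩
      rw [← cSupp_eq h' h hv' hv]; exact hw'
    · intro hw
      exact ⟨m, z, c, h, hv, hw⟩
  -- the forbidden label at a vertex of degree two
  let tw : V → V → (ℕ → Q) → Finset Q := fun v z h => univ.filter (fun t => ∃ b, IsTwo G R z v b ∧
    (InC k x y b → idx k x y b < idx k x y v) ∧ t = neg (lbl k x y h f b))
  have htw : ∀ v z h, (tw v z h).card ≤ 1 := by
    intro v z h
    by_cases hex : ∃ b, IsTwo G R z v b
    · obtain ⟨b, hb⟩ := hex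
      have : tw v z h ⊆ {neg (lbl k x y h f b)} := by
        intro t ht
        simp only [tw, mem_filter, mem_univ, true_and] at ht
        obtain ⟨b', hb1, -, rfl⟩ := ht
        rw [mem_singleton]
        rcases hb.2.2.2.2.2.2 b' hb1.2.2.1 with h' | h'
        · exact absurd h'.symm hb1.2.2.2.1
        · rw [h']
      exact (Finset.card_le_card this).trans (by simp)
    · have : tw v z h = ∅ := by
        rw [Finset.eq_empty_iff_forall_notMem]
        intro t ht
        simp only [tw, mem_filter, mem_univ, true_and] at ht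
        obtain ⟨b', hb1, -⟩ := ht
        exact hex ⟨b', hb1⟩
      rw [this]; simp
  -- dependence of the label of the other neighbour
  have hdep : ∀ i, 1 ≤ i → i ≤ k → ∀ v, (v = x i ∨ v = y i) → ∀ z h h', Same (i - 1) h h' →
      tw v z h = tw v z h' := by
    intro i h1 h2 v hv z h h' hs
    have hvC : InC k x y v := by
      rcases hv with rfl | rfl
      · exact InC.x h1 h2
      · exact InC.y h1 h2
    have hvi : idx k x y v = i := by
      rcases hv with rfl | rfl
      · exact idx_x hch h1 h2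
      · exact idx_y hch h1 h2
    ext t
    simp only [tw, mem_filter, mem_univ, true_and]
    have key : ∀ b, IsTwo G R z v b → (InC k x y b → idx k x y b < idx k x y v) →
        lbl k x y h f b = lbl k x y h' f b := by
      intro b hb1 hb2
      by_cases hbC : InC k x y b
      · have h3 := hb2 hbC
        have h4 := (isTwo_idx hG hch hb1 hvC hbC).2
        have h5 := idx_spec hbC
        exact lbl_congr hch hbC (hs _ h5.1 (by omega))
      · rw [lbl_out hbC, lbl_out hbC]
    constructor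
    · rintro ⟨b, hb1, hb2, rfl⟩; exact ⟨b, hb1, hb2, by rw [key b hb1 hb2]⟩
    · rintro ⟨b, hb1, hb2, rfl⟩; exact ⟨b, hb1, hb2, by rw [key b hb1 hb2]⟩
  -- inner vertices are not of degree two
  have hin2 : ∀ z, InnerPt G R z → ¬ ∃ a b, IsTwo G R z a b := by
    rintro z ⟨u, w, huw, hu, hw, hcu, hcw⟩ ⟨a, b, h1, h2, h3, h4, h5, h6, h7⟩
    rcases h7 u hu with rfl | rfl
    · exact hcu h5
    · exact hcu h6
  refine ⟨fun v z h => if z ∈ E then ∅ else if ∃ a b, IsTwo G R z a b then tw v z h
    else φ (sup z) v z h, ⟨⟨?_, ?_, ?_⟩, ?_, ?_, ?_⟩⟩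
  · intro v z h h'
    split_ifs with h1 h2
    · simp
    · have := Finset.card_union_le (tw v z h) (tw v z h')
      have := htw v z h
      have := htw v z h'
      omega
    · exact (hφ1 _).two v z h h'
  · intro hz₀ hin h h'
    split_ifs with h1 h2
    · simp
    · exact absurd h2 (hin2 _ hin)
    · exact (hφ1 _).one hz₀ hin h h'
  · intro i h1 h2 z h h' hs
    constructor
    · split_ifs with h3 h4
      · rfl
      · exact hdep i h1 h2 _ (Or.inl rfl) z h h' hs
      · exact ((hφ1 _).dep i h1 h2 z h h' hs).1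
    · split_ifs with h3 h4
      · rfl
      · exact hdep i h1 h2 _ (Or.inr rfl) z h h' hs
      · exact ((hφ1 _).dep i h1 h2 z h h' hs).2
  · intro v z h hz
    rw [if_pos hz]
  · intro mu hav z a b hT hzE ha he
    have key : ∀ a b, IsTwo G R z a b → InC k x y a → (InC k x y b → idx k x y b < idx k x y a) →
        lbl k x y mu f a = neg (lbl k x y mu f b) → False := by
      intro a b hT ha hlt he
      have h2 : ∃ a b, IsTwo G R z a b := ⟨a, b, hT⟩
      have := hav z a hT.1 hT.2.1.symm ha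
      rw [if_neg hzE, if_pos h2] at this
      apply this
      simp only [tw, mem_filter, mem_univ, true_and]
      exact ⟨b, hT, hlt, he⟩
    by_cases hb : InC k x y b
    · rcases Nat.lt_or_ge (idx k x y b) (idx k x y a) with h1 | h1
      · exact key a b hT ha (fun _ => h1) he
      · have h2 := (isTwo_idx hG hch hT ha hb).1
        refine key b a (isTwo_symm hT) hb (fun _ => by omega) ?_
        rw [he, H3DA.neg_neg]
    · exact key a b hT ha (fun h' => absurd h' hb) he
  · intro mu hw hav m z c h hex hE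
    have hK := hφ (cSupp m z) hex
    rw [cext_iff_fits h]
    refine hK.ok mu hw (fun w hw v hv hin => ?_)
    obtain ⟨i, h1, h2, rfl⟩ := hw
    have := hav (z i) v (h.unc i h1 h2) hv hin
    have hno : ¬ ∃ a b, IsTwo G R (z i) a b := fun ⟨a, b, hT⟩ => isTwo_not_cat h h1 h2 hT
    rw [if_neg (hE i h1 h2), if_neg hno, hsup h (z i) (mem_cSupp h1 h2)] at this
    exact this

end CLB.H95
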