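import Pool.Agent.Helper95_CLB.StatQ
import Pool.Agent.Helper95_CLB.Onl

/-!
Online strategies from static kill sets with forks in the chain.
-/

set_option autoImplicit false
set_option linter.unusedSectionVars false

namespace CLB.H95

open Finset Classical
open H3DA (Q neg nr)
open CLB.H3 (CExt Cat IsTwo Fits UPath he_of_unc cat_structure chn_side)

variable {V : Type*} {G H : SimpleGraph V} {R : V → Bool} [Fintype V] {k : ℕ} {x y : ℕ → V}

lemma cl_zero {m : ℕ} : cl m 0 = 1 := by unfold cl; simp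
lemma cl_self {m j : ℕ} (h1 : 1 ≤ j) (h2 : j ≤ m) : cl m j = j := by
  unfold cl; rw [if_neg (by omega), if_neg (by omega)]
lemma cl_last {m : ℕ} : cl m (m + 1) = m := by unfold cl; rw [if_neg (by omega), if_pos rfl]

/-- Labels of two ports of one vertex outside the chain are not antipodal. -/
lemma offC_fork (hch : Chn G R k x y) {f : V → Q} (hf : OffC G R k x y f) {m : ℕ}
    {z c : ℕ → V} (h : Cat G R m z c) {i j : ℕ} (hi : i ≤ m + 1) (hj : j ≤ m + 1)
    (hij : cl m i = cl m j) (h1 : ¬ InC k x y (c i)) (h2 : ¬ InC k x y (c j)) :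
    f (c i) ≠ neg (f (c j)) := by
  have hz := cl_mem h.pos hi
  have hzu := h.unc _ hz.1 hz.2
  have hzn : ¬ InC k x y (z (cl m i)) := fun h' => hzu (hch.cov h')
  have a1 := (cat_adj_cl h hi).symm
  have a2 := (cat_adj_cl h hj).symm
  rw [← hij] at a2
  have e1 := (hf _ _ a1 hzn h1).2 (he_of_unc hzu a1).2
  have e2 := (hf _ _ a2 hzn h2).2 (he_of_unc hzu a2).2
  exact H3DA.nr_common e1 e2

/-- Dependence of the label of an earlier port at the same vertex. -/
lemma lbl_earlier (hch : Chn G R k x y) {f : V → Q} {z a b : V} (ha : InC k x y a)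
    (hb : InC k x y b) (hza : G.Adj z a) (hzb : G.Adj z b) (hz : ¬ Cov G R z)
    (hlt : idx k x y a < idx k x y b) {i : ℕ} (hbi : b = x i ∨ b = y i) (h1 : 1 ≤ i) (h2 : i ≤ k)
    {h h' : ℕ → Q} (hs : Same (i - 1) h h') :
    lbl k x y h f a = lbl k x y h' f a := by
  have hi : idx k x y b = i := by
    rcases hbi with rfl | rfl
    · exact idx_x hch h1 h2
    · exact idx_y hch h1 h2
  have h3 := (idx_spec ha).1
  have e1 := (he_of_unc hz hza).2
  have e2 := (he_of_unc hz hzb).2
  have hpar : R a = R b := by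
    revert e1 e2
    cases R z <;> cases R a <;> cases R b <;> simp
  have h4 := idx_parity hch ha hb hpar
  exact lbl_congr hch ha (hs _ h3 (by omega))

theorem okill_of_sq (hG : ClassC G R) (hch : Chn G R k x y) {f : V → Q} (hf : OffC G R k x y f) {m : ℕ}
    {z c : ℕ → V} (h : Cat G R m z c) (hm : 2 ≤ m) (hex : ∃ j ≤ m + 1, InC k x y (c j))
    {v₀ z₀ : V} {p : ℕ} (hpm : p ≤ m + 1)
    (hpp : ∀ j, 2 ≤ j → j + 1 ≤ m → c j = v₀ → z j = z₀ → j = p)
    (hS : SQ m (fun j => InC k x y (c j)) p) : ∃ φ, OKill G R k x y f (cSupp m z) v₀ z₀ φ := by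
  -- the earlier ports
  obtain ⟨e, he, heO⟩ : ∃ e, (e = 0 ∨ e = 1) ∧ (InC k x y (c 0) → InC k x y (c 1) →
      idx k x y (c e) < idx k x y (c (1 - e))) := by
    rcases Nat.lt_trichotomy (idx k x y (c 0)) (idx k x y (c 1)) with h1 | h1 | h1
    · exact ⟨0, Or.inl rfl, fun _ _ => h1⟩
    · refine ⟨0, Or.inl rfl, fun h2 h3 => absurd h1 ?_⟩
      exact idx_ne hG hch h2 h3 h.ne0 h.adj0 (h.adjc 1 le_rfl (by omega))
    · exact ⟨1, Or.inr rfl, fun _ _ => h1⟩
  obtain ⟨e', he', heO'⟩ : ∃ e', (e' = m ∨ e' = m + 1) ∧ (InC k x y (c m) → InC k x y (c (m + 1)) →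
      idx k x y (c e') < idx k x y (c (2 * m + 1 - e'))) := by
    rcases Nat.lt_trichotomy (idx k x y (c m)) (idx k x y (c (m + 1))) with h1 | h1 | h1
    · refine ⟨m, Or.inl rfl, fun _ _ => ?_⟩
      rw [show 2 * m + 1 - m = m + 1 by omega]; exact h1
    · refine ⟨m, Or.inl rfl, fun h2 h3 => absurd h1 ?_⟩
      exact idx_ne hG hch h2 h3 h.nem (h.adjc m (by omega) le_rfl) h.adjm
    · refine ⟨m + 1, Or.inr rfl, fun _ _ => ?_⟩
      rw [show 2 * m + 1 - (m + 1) = m by omega]; exact h1
  have hfork := fun (i j : ℕ) (hi : i ≤ m + 1) (hj : j ≤ m + 1) (hij : cl m i = cl m j) =>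
    offC_fork hch hf h hi hj hij
  obtain ⟨F, c1, c2, c3, c4, c5⟩ := killsQ (s₀ := fun j => f (c j)) (p := p) hm he he' hpm hex
    (fun h1 h2 => hfork 0 1 (by omega) (by omega) (by rw [cl_zero, cl_self le_rfl (by omega)]) h1 h2)
    (fun h1 h2 => hfork m (m + 1) (by omega) le_rfl (by rw [cl_last, cl_self (by omega) le_rfl]) h1 h2)
    hS
  -- the forbidden set at a port
  set A : Prop := InC k x y (c 0) ∧ InC k x y (c 1) with hA
  set B : Prop := InC k x y (c m) ∧ InC k x y (c (m + 1)) with hB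
  let Γ : ℕ → (ℕ → Q) → Finset Q := fun j g => if A ∧ j = 1 - e then {neg (lbl k x y g f (c e))} else
    if B ∧ j = 2 * m + 1 - e' then {neg (lbl k x y g f (c e'))} else F j
  have hΓ2 : ∀ j g g', (Γ j g ∪ Γ j g').card ≤ 2 := by
    intro j g g'
    simp only [Γ]
    split_ifs
    · exact (Finset.card_union_le _ _).trans (by simp)
    · exact (Finset.card_union_le _ _).trans (by simp)
    · rw [Finset.union_self]; exact c1 j
  have hz1 : ¬ Cov G R (z 1) := h.unc 1 le_rfl (by omega)
  have hzm : ¬ Cov G R (z m) := h.unc m (by omega) le_rfl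
  have hΓd : ∀ j ≤ m + 1, ∀ i, 1 ≤ i → i ≤ k → (c j = x i ∨ c j = y i) → ∀ g g',
      Same (i - 1) g g' → Γ j g = Γ j g' := by
    intro j hj i h1 h2 hc g g' hs
    simp only [Γ]
    split_ifs with h3 h4
    · have a1 : G.Adj (z 1) (c e) := by
        rcases he with rfl | rfl
        · exact h.adj0
        · exact h.adjc 1 le_rfl (by omega)
      have a2 : G.Adj (z 1) (c (1 - e)) := by
        rcases he with rfl | rfl
        · exact h.adjc 1 le_rfl (by omega)
        · exact h.adj0
      have a3 : InC k x y (c e) := by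
        rcases he with rfl | rfl
        · exact h3.1.1
        · exact h3.1.2
      have a4 : InC k x y (c (1 - e)) := by
        rcases he with rfl | rfl
        · exact h3.1.2
        · exact h3.1.1
      rw [lbl_earlier hch a3 a4 a1 a2 hz1 (heO h3.1.1 h3.1.2) (i := i) (by rw [← h3.2]; exact hc)
        h1 h2 hs]
    · have a1 : G.Adj (z m) (c e') := by
        rcases he' with rfl | rfl
        · exact h.adjc e' (by omega) le_rfl
        · exact h.adjm
      have a2 : G.Adj (z m) (c (2 * m + 1 - e')) := by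
        rcases he' with h5 | h5
        · rw [show 2 * m + 1 - e' = m + 1 by omega]; exact h.adjm
        · rw [show 2 * m + 1 - e' = m by omega]; exact h.adjc m (by omega) le_rfl
      have a3 : InC k x y (c e') := by
        rcases he' with h5 | h5
        · rw [h5]; exact h4.1.1
        · rw [h5]; exact h4.1.2
      have a4 : InC k x y (c (2 * m + 1 - e')) := by
        rcases he' with h5 | h5
        · rw [show 2 * m + 1 - e' = m + 1 by omega]; exact h4.1.2
        · rw [show 2 * m + 1 - e' = m by omega]; exact h4.1.1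
      rw [lbl_earlier hch a3 a4 a1 a2 hzm (heO' h4.1.1 h4.1.2) (i := i) (by rw [← h4.2]; exact hc)
        h1 h2 hs]
    · rfl
  refine ⟨fun v w g => if hh : ∃ j ≤ m + 1, c j = v ∧ z (cl m j) = w then Γ hh.choose g else ∅,
    ⟨⟨fun v w g g' => ?_, fun hz0 hin g g' => ?_, fun i h1 h2 w g g' hs => ⟨?_, ?_⟩⟩,
      fun mu hw hav => ?_⟩⟩
  · split_ifs
    · exact hΓ2 _ _ _
    · simp
  · split_ifs with hh
    · obtain ⟨a1, a2, a3⟩ := hh.choose_spec
      have h4 := cl_mem h.pos a1
      have h5 := innerPt_pos h h4.1 h4.2 (a3.symm ▸ hin)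
      have h6 : cl m hh.choose = hh.choose := by
        unfold cl at h5 ⊢
        split_ifs at h5 ⊢ <;> omega
      rw [h6] at h5 a3
      have e := hpp _ h5.1 h5.2 a2 a3
      have e2 : Γ hh.choose = fun _ => F hh.choose := by
        funext g
        simp only [Γ]
        rw [if_neg (by omega), if_neg (by omega)]
      rw [e2, Finset.union_self, e]
      exact c2 (by omega) (by omega)
    · simp
  · split_ifs with hh
    · obtain ⟨a1, a2, a3⟩ := hh.choose_spec
      exact hΓd _ a1 i h1 h2 (Or.inl a2) g g' hs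
    · rfl
  · split_ifs with hh
    · obtain ⟨a1, a2, a3⟩ := hh.choose_spec
      exact hΓd _ a1 i h1 h2 (Or.inr a2) g g' hs
    · rfl
  · rw [← cext_iff_fits h]
    have hav' : ∀ j ≤ m + 1, InC k x y (c j) → lbl k x y mu f (c j) ∉ Γ j mu := by
      intro j hj hJ
      have h4 := cl_mem h.pos hj
      have := hav (z (cl m j)) (mem_cSupp h4.1 h4.2) (c j) (cat_adj_cl h hj) hJ
      have hh : ∃ j' ≤ m + 1, c j' = c j ∧ z (cl m j') = z (cl m j) := ⟨j, hj, rfl, rfl⟩
      dsimp only at this
      rw [dif_pos hh] at this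
      have hs := hh.choose_spec
      rwa [port_unique h hs.1 hj hs.2.1 hs.2.2] at this
    refine c5 _ (fun j hj hJ => lbl_out hJ) (fun j hj hJ => ?_) (fun h1 h2 => ?_) (fun h1 h2 => ?_)
    · have := hav' j hj hJ
      simp only [Γ] at this
      split_ifs at this with h3 h4
      · rw [h3.2, c3 h3.1.1 h3.1.2]; simp
      · rw [h4.2, c4 h4.1.1 h4.1.2]; simp
      · exact this
    · rcases he with rfl | rfl
      · have := hav' 1 (by omega) h2
        simp only [Γ] at this
        rw [if_pos ⟨⟨h1, h2⟩, by simp⟩, mem_singleton] at this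
        exact H3DA.ne_neg_symm this
      · have := hav' 0 (by omega) h1
        simp only [Γ] at this
        rw [if_pos ⟨⟨h1, h2⟩, by simp⟩, mem_singleton] at this
        exact this
    · rcases he' with rfl | rfl
      · have := hav' (e' + 1) le_rfl h2
        simp only [Γ] at this
        rw [if_neg (by omega), if_pos ⟨⟨h1, h2⟩, by omega⟩, mem_singleton] at this
        exact H3DA.ne_neg_symm this
      · have := hav' m (by omega) h1
        simp only [Γ] at this
        rw [if_neg (by omega), if_pos ⟨⟨h1, h2⟩, by omega⟩, mem_singleton] at this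
        exact this

/-- Online strategies of all components that are not nearly closed. -/
theorem okill_of_not_nc (hG : ClassC G R) (hch : Chn G R k x y) {f : V → Q} (hf : OffC G R k x y f)
    {m : ℕ} {z c : ℕ → V} (h : Cat G R m z c) (hex : ∃ j ≤ m + 1, InC k x y (c j)) {v₀ z₀ : V}
    (h1 : m = 1 → ∀ i j, i ≤ 2 → j ≤ 2 → InC k x y (c i) → InC k x y (c j) → i = j)
    (h2 : 2 ≤ m → ¬ NCp m (fun j => InC k x y (c j)))
    (h3 : ∀ p, 2 ≤ p → p + 1 ≤ m → c p = v₀ → z p = z₀ → ¬ BadP m (fun j => InC k x y (c j)) p) :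
    ∃ φ, OKill G R k x y f (cSupp m z) v₀ z₀ φ := by
  have hp := h.pos
  by_cases hm : m = 1
  · obtain ⟨φ, hφ⟩ := setKill_of_stat hch hf h (m := m) ⟨h1, fun h' => by omega⟩ hex v₀ z₀
    exact ⟨_, hφ.toOKill⟩
  · have hm2 : 2 ≤ m := by omega
    by_cases hd : ∃ p, 2 ≤ p ∧ p + 1 ≤ m ∧ c p = v₀ ∧ z p = z₀
    · obtain ⟨p, p1, p2, p3, p4⟩ := hd
      refine okill_of_sq hG hch hf h hm2 hex (p := p) (by omega) (fun j j1 j2 j3 j4 => ?_)
        (SQ.of_not_bad hm2 (h2 hm2) (h3 p p1 p2 p3 p4))
      exact h.inj _ _ (by omega) (by omega) (by omega) (by omega) (j4.trans p4.symm)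
    · refine okill_of_sq hG hch hf h hm2 hex (p := 0) (by omega)
        (fun j j1 j2 j3 j4 => absurd ⟨j, j1, j2, j3, j4⟩ hd) (SQ.of_not_bad hm2 (h2 hm2) ?_)
      rintro (h4 | h4 | h4 | h4)
      · exact absurd h4.2.1 (by omega)
      · exact absurd h4.2.1 (by omega)
      · exact absurd h4.2.1 (by omega)
      · exact absurd h4.2.1 (by omega)

end CLB.H95
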