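import Pool.Agent.Helper95_CLB.StatQG
import Pool.Agent.Helper91_DA.EGraph

/-!
The paths with five vertices seeing `x 1, y (k-2) | y (k-1) | y k | . | x 3, y 1`, and the online strategy
for the mirror image.
-/

set_option autoImplicit false
set_option linter.unusedSectionVars false

namespace CLB.H95

lemma frk_addT : ∀ (D : Ty) (a b : H3DA.Q), frk D a b = true → b = add a (add (uD D) (vD D)) := by
  decide

lemma frk_co : ∀ (D : Ty) (d : H3DA.Q),
    add (H3DA.neg (add d (add (uD (co D)) (vD (co D))))) (add (uD D) (vD D)) = d := by decide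

lemma frk_both (D : Ty) (a b d e : H3DA.Q) (h1 : frk D a b = true) (h2 : frk (co D) d e = true)
    (h3 : a = H3DA.neg e) : d = b := by
  rw [frk_addT D a b h1, h3, frk_addT (co D) d e h2]
  exact (frk_co D d).symm

open Finset Classical
open H3DA (Q neg nr)
open CLB.H3 (CExt Cat IsTwo Fits UPath he_of_unc cat_structure chn_side)

variable {V : Type*} {G H : SimpleGraph V} {R : V → Bool} [Fintype V] {k : ℕ} {x y : ℕ → V}

/-- `a, b` are the ports of one end vertex, `d, e` of the other one. -/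
def Fk5 (a b d e : ℕ) : Prop :=
  (((a = 0 ∧ b = 1) ∨ (a = 1 ∧ b = 0)) ∧ ((d = 5 ∧ e = 6) ∨ (d = 6 ∧ e = 5))) ∨
  (((a = 5 ∧ b = 6) ∨ (a = 6 ∧ b = 5)) ∧ ((d = 0 ∧ e = 1) ∨ (d = 1 ∧ e = 0)))

/-- The special type with five vertices. -/
def T5 (k : ℕ) (x y : ℕ → V) (m : ℕ) (c : ℕ → V) : Prop :=
  m = 5 ∧ 9 ≤ k ∧ ∃ a b d e p, Fk5 a b d e ∧ ((a ≤ 1 ∧ p = 2) ∨ (5 ≤ a ∧ p = 4)) ∧
    c a = x 1 ∧ c b = y (k - 2) ∧ c p = y (k - 1) ∧ c 3 = y k ∧ ¬ InC k x y (c (6 - p)) ∧
    c d = x 3 ∧ c e = y 1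

lemma tight_forks {D : Ty} {s : ℕ → Q} (h : Tight D s 5) {a b d e : ℕ} (hf : Fk5 a b d e)
    (he : s a = neg (s e)) : s d = s b := by
  have h0 := h.1
  have h5 := h.2.2
  have e1 : altT D (5 + 1) = co D := by unfold altT; rw [if_neg (by norm_num)]
  rw [e1] at h5
  rcases hf with ⟨h1, h2⟩ | ⟨h1, h2⟩
  · have f1 : frk D (s a) (s b) = true := by
      rcases h1 with ⟨rfl, rfl⟩ | ⟨rfl, rfl⟩
      · exact h0
      · rw [frk_symm]; exact h0
    have f2 : frk (co D) (s d) (s e) = true := by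
      rcases h2 with ⟨rfl, rfl⟩ | ⟨rfl, rfl⟩
      · exact h5
      · rw [frk_symm]; exact h5
    exact frk_both _ _ _ _ _ f1 f2 he
  · have f1 : frk (co D) (s a) (s b) = true := by
      rcases h1 with ⟨rfl, rfl⟩ | ⟨rfl, rfl⟩
      · exact h5
      · rw [frk_symm]; exact h5
    have f2 : frk D (s d) (s e) = true := by
      rcases h2 with ⟨rfl, rfl⟩ | ⟨rfl, rfl⟩
      · exact h0
      · rw [frk_symm]; exact h0
    refine frk_both (co D) _ _ _ _ f1 ?_ he
    rw [co_co]; exact f2

/-- The online strategy: only three ports are used. -/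
theorem okill_forks (hch : Chn G R k x y) (hk : 7 ≤ k) {f : V → Q} {z c : ℕ → V}
    (h : Cat G R 5 z c) {a b d e : ℕ} (hf : Fk5 a b d e) (ha : c a = y k) (hb : c b = x 3)
    (hd : c d = y (k - 2)) (he : c e = x k) {v₀ z₀ : V} (hv₀ : v₀ = x k ∨ v₀ = y (k - 1)) :
    ∃ φ, OKill G R k x y f (cSupp 5 z) v₀ z₀ φ := by
  have hab : a ≤ 6 ∧ b ≤ 6 ∧ d ≤ 6 ∧ e ≤ 6 := by unfold Fk5 at hf; omega
  set zL : V := z (cl 5 a) with hzL
  set zR : V := z (cl 5 d) with hzR
  have n1 : y k ≠ y (k - 2) := fun e => by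
    have := hch.injy _ _ (by omega) le_rfl (by omega) (by omega) e
    omega
  have n2 : x k ≠ y (k - 2) := hch.xy _ _ (by omega) le_rfl (by omega) (by omega)
  have n3 : x k ≠ y k := hch.xy _ _ (by omega) le_rfl (by omega) le_rfl
  have zb : z (cl 5 b) = zL := by
    have : cl 5 b = cl 5 a := by
      rcases hf with ⟨h1 | h1, h2⟩ | ⟨h1 | h1, h2⟩ <;> obtain ⟨rfl, rfl⟩ := h1 <;> rfl
    rw [this]
  have ze : z (cl 5 e) = zR := by
    have : cl 5 e = cl 5 d := by
      rcases hf with ⟨h1, h2 | h2⟩ | ⟨h1, h2 | h2⟩ <;> obtain ⟨rfl, rfl⟩ := h2 <;> rfl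
    rw [this]
  have hnin : ¬ InnerPt G R zR := by
    rw [hzR, CLB.H91.innerPt_iff h hab.2.2.1]
    unfold Fk5 at hf
    omega
  let φ : V → V → (ℕ → Q) → Finset Q := fun v w g =>
    if v = y (k - 2) then {lbl k x y g f (x 3)} else if v = y k then {neg (lbl k x y g f (x 3))}
      else if v = x k ∧ w = zR then {neg (lbl k x y g f (y (k - 2)))} else ∅
  have hcard : ∀ v w g, (φ v w g).card ≤ 1 := by
    intro v w g
    simp only [φ]
    split_ifs <;> simp
  have l3 : ∀ g g' : ℕ → Q, g 3 = g' 3 → lbl k x y g f (x 3) = lbl k x y g' f (x 3) := by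
    intro g g' hs
    rw [lbl_x hch (by omega) (by omega), lbl_x hch (by omega) (by omega), hs]
  have l4 : ∀ g g' : ℕ → Q, g (k - 2) = g' (k - 2) →
      lbl k x y g f (y (k - 2)) = lbl k x y g' f (y (k - 2)) := by
    intro g g' hs
    rw [lbl_y hch (by omega) (by omega), lbl_y hch (by omega) (by omega), hs]
  refine ⟨φ, ⟨⟨?_, ?_, ?_⟩, ?_⟩⟩
  · intro v w g g'
    have h1 := Finset.card_union_le (φ v w g) (φ v w g')
    have h2 := hcard v w g
    have h3 := hcard v w g'
    omega
  · intro _ hin g g'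
    have hz : z₀ ≠ zR := by
      rintro rfl
      exact hnin hin
    have : φ v₀ z₀ g ∪ φ v₀ z₀ g' = ∅ := by
      rcases hv₀ with rfl | rfl
      · simp only [φ, if_neg n2, if_neg n3, true_and, if_neg hz, Finset.union_empty]
      · have e1 : y (k - 1) ≠ y (k - 2) := fun e => by
          have := hch.injy _ _ (by omega) (by omega) (by omega) (by omega) e
          omega
        have e2 : y (k - 1) ≠ y k := fun e => by
          have := hch.injy _ _ (by omega) (by omega) (by omega) le_rfl e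
          omega
        have e3 : ¬ (y (k - 1) = x k ∧ z₀ = zR) := fun h' =>
          hch.xy k (k - 1) (by omega) le_rfl (by omega) (by omega) h'.1.symm
        simp only [φ, if_neg e1, if_neg e2, if_neg e3, Finset.union_empty]
    rw [this]; simp
  · intro i h1 h2 w g g' hs
    constructor
    · simp only [φ]
      have e1 : x i ≠ y (k - 2) := hch.xy _ _ h1 h2 (by omega) (by omega)
      have e2 : x i ≠ y k := hch.xy _ _ h1 h2 (by omega) le_rfl
      rw [if_neg e1, if_neg e2, if_neg e1, if_neg e2]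
      split_ifs with h3
      · have : i = k := hch.injx _ _ h1 h2 (by omega) le_rfl h3.1
        rw [l4 g g' (hs _ (by omega) (by omega))]
      · rfl
    · simp only [φ]
      have e3 : ¬ (y i = x k ∧ w = zR) := fun h' => hch.xy k i (by omega) le_rfl h1 h2 h'.1.symm
      rw [if_neg e3, if_neg e3]
      split_ifs with h3 h4
      · have : i = k - 2 := hch.injy _ _ h1 h2 (by omega) (by omega) h3
        rw [l3 g g' (hs _ (by omega) (by omega))]
      · have : i = k := hch.injy _ _ h1 h2 (by omega) le_rfl h4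
        rw [l3 g g' (hs _ (by omega) (by omega))]
      · rfl
  · intro mu _ hav
    rw [← cext_iff_fits h]
    have hv : ∀ j ≤ 6, ∀ v, c j = v → InC k x y v → lbl k x y mu f v ∉ φ v (z (cl 5 j)) mu := by
      intro j hj v hcv hin
      have h1 := cl_mem h.pos (m := 5) (j := j) (by omega)
      refine hav _ (mem_cSupp h1.1 h1.2) v ?_ hin
      rw [← hcv]
      exact cat_adj_cl h (by omega)
    have va := hv a hab.1 _ ha (InC.y (by omega) le_rfl)
    have vd := hv d hab.2.2.1 _ hd (InC.y (by omega) (by omega))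
    have ve := hv e hab.2.2.2 _ he (InC.x (by omega) le_rfl)
    rw [ze] at ve
    simp only [φ, if_neg n1, if_true, mem_singleton] at va
    simp only [φ, if_true, mem_singleton] at vd
    simp only [φ, if_neg n2, if_neg n3, if_true, and_self, mem_singleton] at ve
    -- the labels at the ports
    set s : ℕ → Q := fun j => lbl k x y mu f (c j) with hs
    have sa : s a = lbl k x y mu f (y k) := by rw [hs]; simp only [ha]
    have sb : s b = lbl k x y mu f (x 3) := by rw [hs]; simp only [hb]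
    have sd : s d = lbl k x y mu f (y (k - 2)) := by rw [hs]; simp only [hd]
    have se : s e = lbl k x y mu f (x k) := by rw [hs]; simp only [he]
    rw [← sa, ← sb] at va
    rw [← sd, ← sb] at vd
    rw [← se, ← sd] at ve
    have hae : s a = neg (s e) := by
      rw [sa, se, lbl_y hch (by omega) le_rfl, lbl_x hch (by omega) le_rfl]
    have ve' : s d ≠ neg (s e) := fun h' => ve (by rw [h', H3DA.neg_neg])
    have va' : s b ≠ neg (s a) := fun h' => va (by rw [h', H3DA.neg_neg])
    rw [cext_iff (by norm_num)]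
    refine ⟨?_, ?_, fun D hD => vd (tight_forks hD hf hae)⟩
    · rcases hf with ⟨h1 | h1, -⟩ | ⟨-, h1 | h1⟩ <;> obtain ⟨rfl, rfl⟩ := h1
      · exact va
      · exact va'
      · exact ve'
      · exact ve
    · rcases hf with ⟨-, h1 | h1⟩ | ⟨h1 | h1, -⟩ <;> obtain ⟨rfl, rfl⟩ := h1
      · exact ve'
      · exact ve
      · exact va
      · exact va'

end CLB.H95
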