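import Pool.Agent.Helper95_CLB.OpenAsm
import Pool.Agent.Helper95_CLB.TFive
import Pool.Agent.Helper95_CLB.BadP
import Pool.Agent.Helper91_DA.K0All

/-!
Open chains: the special type with five vertices does not occur.
-/

set_option autoImplicit false
set_option linter.unusedSectionVars false

namespace CLB.H95

open Finset Classical
open H3DA (Q neg nr)
open CLB.H3 (CExt Cat IsTwo Fits UPath he_of_unc cat_structure chn_side)
open CLB.H91

variable {V : Type*} {G H : SimpleGraph V} {R : V → Bool} [Fintype V] {k : ℕ} {x y : ℕ → V}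

/-- Nearly closed patterns: the classification with the special type. -/
def LocH5 (H : SimpleGraph V) (R : V → Bool) (k : ℕ) (x y : ℕ → V) : Prop :=
  ∀ m z c, Cat H R m z c → 2 ≤ m → NCp m (JC k x y c) →
    (∃ a b, Sp k x y m c a b) ∨ (m = 2 ∧ AL k x y c (x 1) (x 2)) ∨
    (m = 2 ∧ AL k x y c (y k) (y (k - 1))) ∨ T5 k x y m c ∨
    T5 k (fun i => y (k + 1 - i)) (fun i => x (k + 1 - i)) m c

/-- Reversing twice. -/
lemma T5.rev2 {m : ℕ} {c : ℕ → V} (h : T5 k x y m c) :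
    T5 k (fun i => (fun i => x (k + 1 - i)) (k + 1 - i)) (fun i => (fun i => y (k + 1 - i)) (k + 1 - i))
      m c := by
  obtain ⟨h1, h2, a, b, d, e, p, h3, h4, h5, h6, h7, h8, h9, h10, h11⟩ := h
  refine ⟨h1, h2, a, b, d, e, p, h3, h4, ?_, ?_, ?_, ?_, ?_, ?_, ?_⟩
  · show c a = x (k + 1 - (k + 1 - 1))
    rw [show k + 1 - (k + 1 - 1) = 1 by omega]; exact h5
  · show c b = y (k + 1 - (k + 1 - (k - 2)))
    rw [show k + 1 - (k + 1 - (k - 2)) = k - 2 by omega]; exact h6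
  · show c p = y (k + 1 - (k + 1 - (k - 1)))
    rw [show k + 1 - (k + 1 - (k - 1)) = k - 1 by omega]; exact h7
  · show c 3 = y (k + 1 - (k + 1 - k))
    rw [show k + 1 - (k + 1 - k) = k by omega]; exact h8
  · intro hin
    exact h9 (inC_rev.1 (inC_rev.1 hin))
  · show c d = x (k + 1 - (k + 1 - 3))
    rw [show k + 1 - (k + 1 - 3) = 3 by omega]; exact h10
  · show c e = y (k + 1 - (k + 1 - 1))
    rw [show k + 1 - (k + 1 - 1) = 1 by omega]; exact h11

/-- The mirror image has an online strategy. -/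
lemma T5.okill (hch : Chn H R k x y) {f : V → Q} {m : ℕ} {z c : ℕ → V} (hK : Cat H R m z c)
    (h : T5 k (fun i => y (k + 1 - i)) (fun i => x (k + 1 - i)) m c) {v₀ z₀ : V}
    (hv₀ : v₀ = x k ∨ v₀ = y (k - 1)) : ∃ φ, OKill H R k x y f (cSupp m z) v₀ z₀ φ := by
  obtain ⟨rfl, h2, a, b, d, e, p, h3, h4, h5, h6, h7, h8, h9, h10, h11⟩ := h
  refine okill_forks hch (by omega) hK h3 ?_ ?_ ?_ ?_ hv₀
  · rw [h5]
    show y (k + 1 - 1) = y k
    rw [show k + 1 - 1 = k by omega]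
  · rw [h6]
    show x (k + 1 - (k - 2)) = x 3
    rw [show k + 1 - (k - 2) = 3 by omega]
  · rw [h10]
    show y (k + 1 - 3) = y (k - 2)
    rw [show k + 1 - 3 = k - 2 by omega]
  · rw [h11]
    show x (k + 1 - 1) = x k
    rw [show k + 1 - 1 = k by omega]

/-- The special type is killed at the right end. -/
lemma er_of_t5 (h : Chn H R k x y) {m : ℕ} {z c : ℕ → V} (hs : T5 k x y m c) :
    ∃ p q, ER H R k x y m z c p q := by
  obtain ⟨rfl, h2, a, b, d, e, p, h3, h4, h5, h6, h7, h8, h9, h10, h11⟩ := hs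
  refine ⟨p, 3, by norm_num, by omega, by norm_num, h7, h8, ?_, fun h' => absurd h' (by norm_num)⟩
  intro j hj hjp hj3 hin
  have : j = a ∨ j = b ∨ j = d ∨ j = e ∨ j = 6 - p := by unfold Fk5 at h3; omega
  rcases this with rfl | rfl | rfl | rfl | rfl
  · rw [h5, idx_x h le_rfl (by omega)]; omega
  · rw [h6, idx_y h (by omega) (by omega)]; omega
  · rw [h10, idx_x h (by omega) (by omega)]; omega
  · rw [h11, idx_y h le_rfl (by omega)]; omega
  · exact absurd hin h9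

/-- All other components have online strategies, one is killed at the end. -/
theorem fin_end_gen (hR : Opt G R) (hG : ClassC G R) (hle : H ≤ G) (hc : Crit H R)
    (h : Chn H R k x y) (hk : 3 ≤ k) (hends : (∀ w, ¬ Lk H R (x 1) w) ∧ ∀ w, ¬ Lk H R (y k) w)
    (hone : ∀ z c, Cat H R 1 z c →
      ∀ i j, i ≤ 2 → j ≤ 2 → InC k x y (c i) → InC k x y (c j) → i = j)
    (hbad : BadH H R k x y) {m : ℕ} {z c : ℕ → V} (hK : Cat H R m z c) {p q : ℕ}
    (hE : ER H R k x y m z c p q)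
    (hoth : ∀ m' z' c', Cat H R m' z' c' → cSupp m' z' ≠ cSupp m z → 2 ≤ m' →
      ¬ NCp m' (JC k x y c') ∨ ∀ f, OffC H R k x y f → ∀ v₀ z₀, v₀ = x k →
        ∃ φ, OKill H R k x y f (cSupp m' z') v₀ z₀ φ) : False := by
  have hH := hG.mono hle
  obtain ⟨hm, hp, hq, hcp, hcq, h3, h4⟩ := hE
  have a1 := cl_mem hK.pos hp
  have a2 := cl_mem hK.pos hq
  have b1 : z (cl m p) ∈ prt H R (y (k - 1)) := by
    rw [mem_prt, ← hcp]
    exact ⟨cat_adj_cl hK hp, hK.unc _ a1.1 a1.2⟩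
  have b2 : z (cl m q) ∈ prt H R (y k) := by
    rw [mem_prt, ← hcq]
    exact ⟨cat_adj_cl hK hq, hK.unc _ a2.1 a2.2⟩
  refine open_online_end hR hG hle hc h hk hends hK b1 (mem_cSupp a1.1 a1.2) b2
    (mem_cSupp a2.1 a2.2) ?_ ?_
  · intro f hf
    obtain ⟨φ, hφ, -⟩ := CLB.H91.ekill_of_ports hH h hk hf hK hm hp hq hcp hcq h3 h4
    exact ⟨φ, hφ⟩
  · intro f hf v₀ z₀ hv₀ m' z' c' hc' hex hne
    by_cases hm' : 2 ≤ m'
    · rcases hoth m' z' c' hc' hne hm' with h5 | h5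
      · refine okill_of_not_nc hH h hf hc' hex (fun h6 => by omega) (fun _ => h5) ?_
        intro p' _ _ h5 _ h6
        exact (hbad m' z' c' hc' p' h6).1 (h5.trans hv₀)
      · exact h5 f hf v₀ z₀ hv₀
    · have hm1 : m' = 1 := by have := hc'.pos; omega
      subst hm1
      refine okill_of_not_nc hH h hf hc' hex (fun _ => hone _ _ hc') (fun h6 => by omega) ?_
      intro p' _ _ h5 _ h6
      exact (hbad 1 z' c' hc' p' h6).1 (h5.trans hv₀)

/-- A component seeing the two ends only, and one seeing `x 1` and killed at the right end. -/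
theorem k0_end_gen (hR : Opt G R) (hG : ClassC G R) (hle : H ≤ G) (hc : Crit H R)
    (h : Chn H R k x y) (hk : 4 ≤ k) (hends : (∀ w, ¬ Lk H R (x 1) w) ∧ ∀ w, ¬ Lk H R (y k) w)
    (hbad : BadH H R k x y)
    {m0 : ℕ} {z0 c0 : ℕ → V} (hK0 : Cat H R m0 z0 c0)
    (h0 : m0 = 1 ∨ (2 ≤ m0 ∧ NCp m0 (JC k x y c0))) (hs0 : Sp k x y m0 c0 1 1)
    {m : ℕ} {z c : ℕ → V} (hK : Cat H R m z c) {p q : ℕ} (hE : ER H R k x y m z c p q) {jx : ℕ}
    (hjx : jx ≤ m + 1) (hcjx : c jx = x 1)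
    (hoth : ∀ m1 z1 c1, Cat H R m1 z1 c1 → cSupp m1 z1 ≠ cSupp m z → cSupp m1 z1 ≠ cSupp m0 z0 →
      (m1 = 1 → ∀ i j, i ≤ 2 → j ≤ 2 → InC k x y (c1 i) → InC k x y (c1 j) → i = j) ∧
      (2 ≤ m1 → ¬ NCp m1 (JC k x y c1))) : False := by
  have hH := hG.mono hle
  have hkp := h.pos
  obtain ⟨a0, b0, ha0, hb0, -, hca0, hcb0, hin0⟩ := sp11 h hs0
  obtain ⟨hm, hp, hq, hcp, hcq, h3, h4⟩ := hE
  -- different supports
  have hne : cSupp m z ≠ cSupp m0 z0 := by
    intro he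
    obtain ⟨j', hj', hcj'⟩ := port_same hK hK0 he hp
    rw [hcp] at hcj'
    have h1 : InC k x y (c0 j') := by rw [hcj']; exact InC.y (by omega) (by omega)
    rcases (hin0 j' hj').1 h1 with rfl | rfl
    · exact h.xy 1 (k - 1) le_rfl hkp (by omega) (by omega) (hca0.symm.trans hcj')
    · have := h.injy k (k - 1) hkp le_rfl (by omega) (by omega) (hcb0.symm.trans hcj')
      omega
  obtain ⟨ux, ux'⟩ := prt_of hK hjx hcjx
  obtain ⟨u0, u0'⟩ := prt_of hK0 ha0 hca0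
  obtain ⟨w0, w0'⟩ := prt_of hK0 hb0 hcb0
  obtain ⟨b1, b1'⟩ := prt_of hK hp hcp
  obtain ⟨b2, b2'⟩ := prt_of hK hq hcq
  obtain ⟨f, hf⟩ := exists_off h hc
  obtain ⟨φ, hφ, -, hφ1⟩ := ekill_of_ports_card hH h (by omega) hf hK hm hp hq hcp hcq h3 h4
  obtain ⟨pp, pp', κ, hk0⟩ : ∃ p p' κ, K0K H R k x y f (cSupp m0 z0) p p' κ := by
    rcases h0 with rfl | ⟨h01, h02⟩
    · obtain ⟨p, hp⟩ := k0_star h (f := f) hK0 hs0
      exact ⟨p, _, _, hp⟩
    · exact (k0_beta h hK0 h01 h02 hs0).2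
  -- the designated port
  obtain ⟨z₀, hz₀⟩ : ∃ z₀, (prt H R (x k)).card = 0 ∨ z₀ ∈ prt H R (x k) := by
    by_cases h0 : (prt H R (x k)).card = 0
    · exact ⟨x k, Or.inl h0⟩
    · obtain ⟨v, hv⟩ := Finset.card_pos.1 (Nat.pos_of_ne_zero h0)
      exact ⟨v, Or.inr hv⟩
  obtain ⟨Φ, hΦ⟩ := exists_oforb hH h (f := f) (cSupp m z ∪ cSupp m0 z0) (x k) z₀
  have hdisj : ∀ w, w ∈ cSupp m0 z0 → w ∉ cSupp m z := fun w h1 h2 => hne (cSupp_eq hK hK0 h2 h1)
  set Φ' : V → V → (ℕ → Q) → Finset Q := ovr (cSupp m z) φ Φ with hΦ'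
  have h2 : ∀ v z g g', (Φ' v z g ∪ Φ' v z g').card ≤ 2 := by
    intro v z g g'
    simp only [hΦ', ovr]
    split_ifs
    · exact hφ.two v z g g'
    · exact hΦ.two v z g g'
  have hd : Dep k x y Φ' := by
    intro i h1 h2 z g g' hs
    simp only [hΦ', ovr]
    split_ifs
    · exact hφ.dep i h1 h2 z g g' hs
    · exact hΦ.dep i h1 h2 z g g' (hs.mono (by omega))
  -- the first list
  have g0 : ℕ → Q := fun _ => (false, false, false)
  have L1 : 4 ≤ ((olst H R x y Φ' g0 1).erase pp).card := by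
    have l := lst_card (G := H) (R := R) (x := x) (y := y) (fun v z => Φ' v z g0) 1
    have h2' : ∀ v z, (Φ' v z g0).card ≤ 2 := by
      intro v z
      have := h2 v z g0 g0
      rwa [Finset.union_self] at this
    have e1 := cst_pair hH (h.cov (InC.x le_rfl hkp)) ux u0 (fun he => hdisj _ u0' (he ▸ ux'))
      (fun v z => Φ' v z g0)
    have e2 := cst_le h2' (prt_card_lk hH (h.lk 1 le_rfl (by omega)))
    have e3 : (Φ' (x 1) (z (cl m jx)) g0).card ≤ 1 := by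
      rw [hΦ', ovr_in ux']; exact hφ1 _ _ _
    have e4 : (Φ' (x 1) (z0 (cl m0 a0)) g0).card = 0 := by
      rw [hΦ', ovr_out (hdisj _ u0'), hΦ.triv _ _ _ (Or.inr u0')]; simp
    have e5 := Finset.pred_card_le_card_erase (s := olst H R x y Φ' g0 1) (a := pp)
    have e6 : olst H R x y Φ' g0 1 = lst H R x y (fun v z => Φ' v z g0) 1 := rfl
    rw [e6] at e5 ⊢
    omega
  -- the safe start
  have hstart : ∃ (u : Q) (n0 : ℕ) (g g' : ℕ → Q), 1 ≤ n0 ∧ n0 ≤ 2 ∧ PW H R x y Φ' n0 g ∧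
      PW H R x y Φ' n0 g' ∧ g n0 ≠ g' n0 ∧ (g 1 ≠ pp ∧ (g 1 = u ∨ g 1 = neg pp)) ∧
      (g' 1 ≠ pp ∧ (g' 1 = u ∨ g' 1 = neg pp)) := by
    by_cases hnp : neg pp ∈ (olst H R x y Φ' g0 1).erase pp
    · obtain ⟨b, hb, hbn⟩ := Finset.exists_mem_ne (show 1 < ((olst H R x y Φ' g0 1).erase pp).card by
        omega) (neg pp)
      rw [mem_erase] at hnp hb
      refine ⟨b, 1, _, _, le_rfl, by omega, pw_one hd hkp hnp.2, pw_one hd hkp hb.2, ?_, ?_, ?_⟩
      · simpa using hbn.symm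
      · simpa using hnp.1
      · simpa using hb.1
    · obtain ⟨b, hb, hb'⟩ := exists_anti4 L1 (Finset.notMem_erase _ _) hnp
      rw [mem_erase] at hb hb'
      obtain ⟨w, w', p1, p2, p3, p4, p5⟩ := anti_split hd (n := 1) le_rfl (by omega)
        (pw_one hd hkp hb.2) (pw_one hd hkp hb'.2) (by simp) (by
          have := lst_inner hH h (i := 1 + 1) (fun v z => h2 v z (fun i => if i ≤ 0 then g0 i else b)
            (fun i => if i ≤ 0 then g0 i else neg b)) (by omega) (by omega)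
          exact le_trans (by omega) this)
      have e1 : w' 1 = w 1 := (p4 1 le_rfl (by omega)).symm
      have e2 : w 1 ≠ pp := by
        rcases p5 with p5 | p5
        · rw [← p5 1 le_rfl (by omega)]; simpa using hb.1
        · rw [← p5 1 le_rfl (by omega)]; simpa using hb'.1
      exact ⟨w 1, 2, w, w', by omega, le_rfl, p1, p2, p3, ⟨e2, Or.inl rfl⟩,
        ⟨by rw [e1]; exact e2, Or.inl e1⟩⟩
  obtain ⟨u, n0, g1, g1', n1, n2, hg1, hg1', hne1, hP1, hP1'⟩ := hstart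
  have hkn : n0 ≤ k - 2 := by omega
  obtain ⟨g, g', hg, hg', hgne, hPg, hPg'⟩ := walks_from hH h h2 hd n1
    (P := fun g => g 1 ≠ pp ∧ (g 1 = u ∨ g 1 = neg pp))
    (fun g w hs hP => by rw [← hs 1 le_rfl (by omega)]; exact hP) hg1 hg1' hne1 hP1 hP1' hkn (by omega)
  obtain ⟨mu, hmu, hsame, hmD, hfit⟩ := end_walk hR hG hle hc h (by omega) hK b1 b1' b2 b2' hφ hz₀
    hΦ.toOSet (D := {pp', κ u}) (Or.inr ⟨Finset.card_le_two, _, w0, hdisj _ w0', fun g =>
      hΦ.triv _ _ _ (Or.inr w0')⟩) hg hg' hgne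
  have hPmu : mu 1 ≠ pp ∧ (mu 1 = u ∨ mu 1 = neg pp) := by
    rcases hsame with hsame | hsame
    · rw [← hsame 1 le_rfl (by omega)]; exact hPg
    · rw [← hsame 1 le_rfl (by omega)]; exact hPg'
  simp only [mem_insert, mem_singleton, not_or] at hmD
  have hfit0 := hk0.ok mu hPmu.1 hmD.1 (by
    rcases hPmu.2 with h5 | h5
    · right; rw [h5]; exact hmD.2
    · left; exact h5)
  refine end_contra hH hc h hends hf hΦ ?_ ?_ hmu ?_
  · rintro v (⟨j, j1, j2, rfl⟩ | ⟨j, j1, j2, rfl⟩) a b hT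
    · exact isTwo_not_cat hK j1 j2 hT
    · exact isTwo_not_cat hK0 j1 j2 hT
  · intro v w g hw
    exact ovr_out (fun hw' => hw (Or.inl hw'))
  · intro m1 z1 c1 hc1 hex
    by_cases hS : cSupp m1 z1 = cSupp m z
    · right
      rw [cext_iff_fits hc1, hS]
      exact hfit
    · by_cases hS0 : cSupp m1 z1 = cSupp m0 z0
      · right
        rw [cext_iff_fits hc1, hS0]
        exact hfit0
      · left
        obtain ⟨o1, o2⟩ := hoth m1 z1 c1 hc1 hS hS0
        refine ⟨okill_of_not_nc hH h hf hc1 hex o1 o2 ?_, fun i i1 i2 hi => ?_⟩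
        · intro p' _ _ h5 _ h6
          exact (hbad m1 z1 c1 hc1 p' h6).1 h5
        · rcases hi with hi | hi
          · exact hS (cSupp_eq hc1 hK (mem_cSupp i1 i2) hi)
          · exact hS0 (cSupp_eq hc1 hK0 (mem_cSupp i1 i2) hi)


/-- Two components with a port at a vertex with a link are the same. -/
lemma own_link (hG : ClassC H R) {v w : V} (hl : Lk H R v w) {m : ℕ} {z c : ℕ → V}
    (hc : Cat H R m z c) {m' : ℕ} {z' c' : ℕ → V} (hc' : Cat H R m' z' c') {p p' : ℕ} (hp : p ≤ m + 1)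
    (hp' : p' ≤ m' + 1) (e : c p = v) (e' : c' p' = v) : cSupp m z = cSupp m' z' := by
  have h1 := prt_card_lk hG hl
  obtain ⟨b1, a1⟩ := prt_of hc hp e
  obtain ⟨b2, a2⟩ := prt_of hc' hp' e'
  have h2 := Finset.card_le_one.1 h1 _ b1 _ b2
  exact cSupp_eq hc hc' a1 (by rw [h2]; exact a2)

/-- **The special type with five vertices does not occur.** -/
theorem five_false (hR : Opt G R) (hG : ClassC G R) (hle : H ≤ G) (hc : Crit H R)
    (h : Chn H R k x y) (hends : (∀ w, ¬ Lk H R (x 1) w) ∧ ∀ w, ¬ Lk H R (y k) w)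
    (hloc : LocH5 H R k x y) {m : ℕ} {z c : ℕ → V} (hK : Cat H R m z c) (hT : T5 k x y m c) : False := by
  have hH := hG.mono hle
  have hk9 : 9 ≤ k := hT.2.1
  have hk3 : 3 ≤ k := by omega
  have hrev := h.rev
  have hends' := ends_rev hends
  have hbad := badH hH hc h hk3
  have hbad' := badH hH hc hrev hk3
  have hone1 := oneH hH h hk3
  obtain ⟨p, q, hE⟩ := er_of_t5 (H := H) (R := R) (z := z) h hT
  obtain ⟨jx, hjx, hcjx⟩ : ∃ j ≤ m + 1, c j = x 1 := by
    obtain ⟨rfl, h2, a, b, d, e, p, h3, h4, h5, -⟩ := hT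
    exact ⟨a, by unfold Fk5 at h3; omega, h5⟩
  have hpK : p ≤ m + 1 := hE.2.1
  have hqK : q ≤ m + 1 := hE.2.2.1
  have hcpK : c p = y (k - 1) := hE.2.2.2.1
  have hcqK : c q = y k := hE.2.2.2.2.1
  have lkL : Lk H R (x 2) (y 1) := (h.lk 1 le_rfl (by omega)).symm
  have lkR : Lk H R (y (k - 1)) (x (k - 1 + 1)) := h.lk (k - 1) (by omega) (by omega)
  -- every other nearly closed component sees both ends only, or owns `x 1` and `x 2`
  have cls : ∀ m1 z1 c1, Cat H R m1 z1 c1 → 2 ≤ m1 → NCp m1 (JC k x y c1) →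
      cSupp m1 z1 ≠ cSupp m z → Sp k x y m1 c1 1 1 ∨ ((∃ j ≤ m1 + 1, c1 j = x 1) ∧
        (∃ j ≤ m1 + 1, c1 j = x 2) ∧
        ∃ p q, ER H R k (fun i => y (k + 1 - i)) (fun i => x (k + 1 - i)) m1 z1 c1 p q) := by
    intro m1 z1 c1 h1 h2 h3 h4
    have ny : ∀ j ≤ m1 + 1, c1 j ≠ y (k - 1) := fun j hj e =>
      h4 (own_link hH lkR h1 hK hj hpK e hcpK)
    rcases hloc m1 z1 c1 h1 h2 h3 with ⟨a, b, hs⟩ | ⟨rfl, hs⟩ | ⟨rfl, hs⟩ | hs | hs
    · have hb : b = 1 := by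
        by_contra hcon
        obtain ⟨j, hj, e⟩ := hs.py (k - 1) (by omega) (by have := hs.b1; omega)
        exact ny j hj e
      subst hb
      by_cases ha : a = 1
      · subst ha; exact Or.inl hs
      · right
        have ha1 := hs.a1
        refine ⟨hs.px 1 le_rfl hs.a1, hs.px 2 (by omega) (by omega), ?_⟩
        exact er_of_sp (H := H) (R := R) (z := z1) hrev hk3 h2 hs.rev (by omega)
    · right
      obtain ⟨a, b, h5, h6, h7, h8⟩ := id hs
      refine ⟨⟨a, by omega, h6⟩, ⟨b, by omega, h7⟩, ?_⟩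
      refine er_of_al (H := H) (R := R) (z := z1) ?_
      have e1 : k + 1 - k = 1 := by omega
      have e2 : k + 1 - (k - 1) = 2 := by omega
      simp only [e1, e2]
      exact hs.rev
    · obtain ⟨a, b, h5, h6, h7, h8⟩ := hs
      exact absurd h7 (ny b (by omega))
    · obtain ⟨rfl, -, a, b, d, e, p', h5, h6, -, -, h7, -⟩ := hs
      exact absurd h7 (ny p' (by omega))
    · right
      refine ⟨?_, ?_, er_of_t5 (H := H) (R := R) (z := z1) hrev hs⟩
      · obtain ⟨rfl, -, a, b, d, e, p', h5, h6, -, -, -, h7, -⟩ := hs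
        refine ⟨3, by norm_num, ?_⟩
        rw [h7]
        show x (k + 1 - k) = x 1
        rw [show k + 1 - k = 1 by omega]
      · obtain ⟨rfl, -, a, b, d, e, p', h5, h6, -, -, h7, -⟩ := hs
        refine ⟨p', by omega, ?_⟩
        rw [h7]
        show x (k + 1 - (k - 1)) = x 2
        rw [show k + 1 - (k - 1) = 2 by omega]
  by_cases h0 : ∃ m0 z0 c0, Cat H R m0 z0 c0 ∧ (m0 = 1 ∨ (2 ≤ m0 ∧ NCp m0 (JC k x y c0))) ∧
      Sp k x y m0 c0 1 1
  · -- a component seeing the two ends only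
    obtain ⟨m0, z0, c0, hK0, h01, hs0⟩ := h0
    obtain ⟨j0, hj0, e0⟩ := hs0.px 1 le_rfl le_rfl
    have hne0 : cSupp m z ≠ cSupp m0 z0 := by
      intro he
      obtain ⟨j, hj, ej⟩ := own_transfer hK0 hK he.symm hpK
      rcases hs0.all j hj (by rw [ej, hcpK]; exact InC.y (by omega) (by omega)) with
        ⟨i, i1, i2, i3⟩ | ⟨i, i1, i2, i3⟩
      · exact h.xy i (k - 1) i1 (by omega) (by omega) (by omega) (i3.symm.trans (ej.trans hcpK))
      · have := h.injy i (k - 1) (by omega) i1 (by omega) (by omega) (i3.symm.trans (ej.trans hcpK))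
        omega
    have nox : ∀ m1 z1 c1, Cat H R m1 z1 c1 → cSupp m1 z1 ≠ cSupp m z → cSupp m1 z1 ≠ cSupp m0 z0 →
        ∀ j ≤ m1 + 1, c1 j ≠ x 1 := fun m1 z1 c1 h1 h2 h3 j hj e =>
      no_three hH h1 hK hK0 h2 h3 hne0 hj hjx hj0 e hcjx e0
    refine k0_end_gen hR hG hle hc h (by omega) hends hbad hK0 h01 hs0 hK hE hjx hcjx ?_
    intro m1 z1 c1 h1 h2 h3
    constructor
    · rintro rfl
      rcases hone1 _ _ h1 with h5 | h5
      · obtain ⟨j, hj, e⟩ := h5.px 1 le_rfl le_rfl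
        exact absurd e (nox _ _ _ h1 h2 h3 j hj)
      · exact h5
    · intro h4 h5
      rcases cls m1 z1 c1 h1 h4 h5 h2 with h6 | ⟨⟨j, hj, e⟩, -⟩
      · obtain ⟨j, hj, e⟩ := h6.px 1 le_rfl le_rfl
        exact nox _ _ _ h1 h2 h3 j hj e
      · exact nox _ _ _ h1 h2 h3 j hj e
  · have hone : ∀ z c, Cat H R 1 z c →
        ∀ i j, i ≤ 2 → j ≤ 2 → InC k x y (c i) → InC k x y (c j) → i = j := by
      intro z1 c1 h1
      rcases hone1 z1 c1 h1 with h5 | h5
      · exact absurd ⟨1, z1, c1, h1, Or.inl rfl, h5⟩ h0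
      · exact h5
    by_cases h1 : ∃ m1 z1 c1, Cat H R m1 z1 c1 ∧ 2 ≤ m1 ∧ NCp m1 (JC k x y c1) ∧
        cSupp m1 z1 ≠ cSupp m z
    · obtain ⟨m1, z1, c1, hK1, hm1, hN1, hne1⟩ := h1
      rcases cls m1 z1 c1 hK1 hm1 hN1 hne1 with h6 | ⟨-, ⟨j1, hj1, e1⟩, p1, q1, hE1⟩
      · exact h0 ⟨m1, z1, c1, hK1, Or.inr ⟨hm1, hN1⟩, h6⟩
      · have hone' : ∀ z c, Cat H R 1 z c → ∀ i j, i ≤ 2 → j ≤ 2 →
            InC k (fun i => y (k + 1 - i)) (fun i => x (k + 1 - i)) (c i) →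
            InC k (fun i => y (k + 1 - i)) (fun i => x (k + 1 - i)) (c j) → i = j :=
          fun z c h1 i j h2 h3 h4 h5 => hone z c h1 i j h2 h3 (inC_rev.1 h4) (inC_rev.1 h5)
        refine fin_end_gen hR hG hle hc hrev hk3 hends' hone' hbad' hK1 hE1 ?_
        intro m2 z2 c2 hK2 hne2 hm2
        by_cases hS : cSupp m2 z2 = cSupp m z
        · right
          intro f hf v₀ z₀ hv₀
          rw [hS]
          exact hT.rev2.okill hrev hK (Or.inl hv₀)
        · left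
          rw [jc_rev]
          intro hN2
          rcases cls m2 z2 c2 hK2 hm2 hN2 hS with h7 | ⟨-, ⟨j2, hj2, e2⟩, -⟩
          · exact h0 ⟨m2, z2, c2, hK2, Or.inr ⟨hm2, hN2⟩, h7⟩
          · exact hne2 (own_link hH lkL hK2 hK1 hj2 hj1 e2 e1)
    · refine fin_end_gen hR hG hle hc h hk3 hends hone hbad hK hE ?_
      intro m1 z1 c1 hK1 hne1 hm1
      left
      intro hN1
      exact h1 ⟨m1, z1, c1, hK1, hm1, hN1, hne1⟩

/-- The reversed classification. -/
lemma LocH5.rev (hk : 3 ≤ k) (h : LocH5 H R k x y) :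
    LocH5 H R k (fun i => y (k + 1 - i)) (fun i => x (k + 1 - i)) := by
  intro m z c hK hm hN
  rw [jc_rev] at hN
  rcases h m z c hK hm hN with ⟨a, b, hs⟩ | ⟨rfl, hs⟩ | ⟨rfl, hs⟩ | hs | hs
  · exact Or.inl ⟨b, a, hs.rev⟩
  · refine Or.inr (Or.inr (Or.inl ⟨rfl, ?_⟩))
    have e1 : k + 1 - k = 1 := by omega
    have e2 : k + 1 - (k - 1) = 2 := by omega
    simp only [e1, e2]
    exact hs.rev
  · refine Or.inr (Or.inl ⟨rfl, ?_⟩)
    have e1 : k + 1 - 1 = k := by omega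
    have e2 : k + 1 - 2 = k - 1 := by omega
    simp only [e1, e2]
    exact hs.rev
  · exact Or.inr (Or.inr (Or.inr (Or.inr hs.rev2)))
  · exact Or.inr (Or.inr (Or.inr (Or.inl hs)))

/-- **The classification without the special type.** -/
theorem locH_of_five (hR : Opt G R) (hG : ClassC G R) (hle : H ≤ G) (hc : Crit H R)
    (h : Chn H R k x y) (hk : 3 ≤ k) (hends : (∀ w, ¬ Lk H R (x 1) w) ∧ ∀ w, ¬ Lk H R (y k) w)
    (hloc : LocH5 H R k x y) : LocH H R k x y := by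
  intro m z c hK hm hN
  rcases hloc m z c hK hm hN with h1 | h1 | h1 | h1 | h1
  · exact Or.inl h1
  · exact Or.inr (Or.inl h1)
  · exact Or.inr (Or.inr h1)
  · exact absurd h1 (fun h1 => five_false hR hG hle hc h hends hloc hK h1)
  · exact absurd h1 (fun h1 => five_false hR hG hle hc h.rev (ends_rev hends) (hloc.rev hk) hK h1)

end CLB.H95
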