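import Pool.Agent.Helper95_CLB.Three
import Pool.Agent.Helper95_CLB.OpenFive
import Pool.Agent.Helper80_DA.Two
import Pool.Agent.Helper3_DA.Main

/-!
No open chains, from the hypotheses for chains of at least three units.
-/

set_option autoImplicit false
set_option linter.unusedSectionVars false

namespace CLB.H95

open Finset Classical
open H3DA (Q neg nr)
open CLB.H3 (CExt Cat IsTwo Fits UPath he_of_unc cat_structure chn_side)

/-- The remaining hypotheses for all chains. -/
def HypAll : Prop := ∀ (V : Type) [Fintype V] (G H : SimpleGraph V) (R : V → Bool) (k : ℕ)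
  (x y : ℕ → V), Opt G R → ClassC G R → H ≤ G → Crit H R → Chn H R k x y → 3 ≤ k →
  (∀ w, ¬ Lk H R (x 1) w) → (∀ w, ¬ Lk H R (y k) w) →
  LocH H R k x y ∧ K0H H R k x y ∧ PairH H R k x y

theorem openFalse_of (hyp : HypAll) : CLB.H3.OpenFalse := by
  intro V _ G H R k x y hR hG hle hc h hk h1 h2
  by_cases hk2 : k = 2
  · subst hk2
    exact CLB.H80.open_two hR hG hle hc h ⟨h1, h2⟩
  · have e1 : k + 1 - 1 = k := by omega
    have e2 : k + 1 - k = 1 := by omega
    have hH := hG.mono hle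
    have hk3 : 3 ≤ k := by omega
    obtain ⟨a1, a2, a3⟩ := hyp V G H R k x y hR hG hle hc h hk3 h1 h2
    obtain ⟨b1, b2, b3⟩ := hyp V G H R k (fun i => y (k + 1 - i)) (fun i => x (k + 1 - i)) hR hG hle
      hc h.rev hk3 (by
        show ∀ w, ¬ Lk H R (y (k + 1 - 1)) w
        rw [e1]; exact h2) (by
        show ∀ w, ¬ Lk H R (x (k + 1 - k)) w
        rw [e2]; exact h1)
    exact open_false hR hG hle hc h hk3 ⟨h1, h2⟩
      ⟨a1, badH hH hc h hk3, oneH hH h hk3, a2, a3, threeH hH hc h⟩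
      ⟨b1, badH hH hc h.rev hk3, oneH hH h.rev hk3, b2, b3, threeH hH hc h.rev⟩

/-- The classification of the nearly closed components. -/
def LocAll : Prop := ∀ (V : Type) [Fintype V] (H : SimpleGraph V) (R : V → Bool) (k : ℕ)
  (x y : ℕ → V), ClassC H R → Crit H R → Chn H R k x y → 3 ≤ k →
  (∀ w, ¬ Lk H R (x 1) w) → (∀ w, ¬ Lk H R (y k) w) → LocH5 H R k x y

/-- The remaining statements, given the classification. -/
def RestAll : Prop := ∀ (V : Type) [Fintype V] (G H : SimpleGraph V) (R : V → Bool) (k : ℕ)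
  (x y : ℕ → V), Opt G R → ClassC G R → H ≤ G → Crit H R → Chn H R k x y → 3 ≤ k →
  (∀ w, ¬ Lk H R (x 1) w) → (∀ w, ¬ Lk H R (y k) w) → LocH H R k x y →
  K0H H R k x y ∧ PairH H R k x y

theorem hypAll_of (h1 : LocAll) (h2 : RestAll) : HypAll := by
  intro V _ G H R k x y hR hG hle hc h hk e1 e2
  have h3 := locH_of_five hR hG hle hc h hk ⟨e1, e2⟩ (h1 V H R k x y (hG.mono hle) hc h hk e1 e2)
  exact ⟨h3, h2 V G H R k x y hR hG hle hc h hk e1 e2 h3⟩

end CLB.H95
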