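import Pool.Agent.Helper95_CLB.Law

/-!
The bad patterns: positions of the ports.
-/

set_option autoImplicit false
set_option linter.unusedSectionVars false

namespace CLB.H95

open Finset Classical
open H3DA (Q neg nr)
open CLB.H3 (CExt Cat IsTwo Fits UPath he_of_unc cat_structure chn_side rlaw_path seg_isP llS mmS eS
  eS_eq_ek eS_sum_ge pos KTight exists_ktight)

variable {V : Type*} {G H : SimpleGraph V} {R : V → Bool} [Fintype V] {k : ℕ} {x y : ℕ → V}
  {m : ℕ} {z c : ℕ → V}

lemma pos_mem (hm : 1 ≤ m) {j : ℕ} (hj : j ≤ m + 1) : 1 ≤ pos m j ∧ pos m j ≤ m := by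
  unfold pos; split_ifs <;> omega

/-- The side of a port. -/
lemma port_side (hcat : Cat G R m z c) {j : ℕ} (hj : j ≤ m + 1) :
    (R (c j) = R (z 1) ↔ pos m j % 2 = 0) := by
  have h1 := pos_mem hcat.pos hj
  have h2 := CLB.H91.cat_side hcat _ h1.1 h1.2
  have h3 := (he_of_unc (hcat.unc _ h1.1 h1.2) (CLB.H3.cat_adj_pos hcat hj).symm).2
  revert h2 h3
  cases R (c j) <;> cases R (z (pos m j)) <;> cases R (z 1) <;> simp

/-- Positions and units. -/
lemma port_par (h : Chn G R k x y) (hcat : Cat G R m z c) {i j : ℕ} (hi : i ≤ m + 1) (hj : j ≤ m + 1)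
    {u v : ℕ} (hu : 1 ≤ u ∧ u ≤ k) (hv : 1 ≤ v ∧ v ≤ k) (hcu : c i = x u ∨ c i = y u)
    (hcv : c j = x v ∨ c j = y v) : (pos m i + u) % 2 = (pos m j + v) % 2 := by
  have s1 := port_side hcat hi
  have s2 := port_side hcat hj
  have e1 : R (c i) = xor (R (x 1)) (decide (u % 2 = 0)) := by
    rcases hcu with e | e
    · rw [e]; exact (chn_side h _ hu.1 hu.2).1
    · rw [e]; exact (chn_side h _ hu.1 hu.2).2
  have e2 : R (c j) = xor (R (x 1)) (decide (v % 2 = 0)) := by
    rcases hcv with e | e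
    · rw [e]; exact (chn_side h _ hv.1 hv.2).1
    · rw [e]; exact (chn_side h _ hv.1 hv.2).2
  have key : (pos m i % 2 = 0 ↔ pos m j % 2 = 0) ↔ (u % 2 = 0 ↔ v % 2 = 0) := by
    rw [← s1, ← s2, e1, e2]
    by_cases hu2 : u % 2 = 0 <;> by_cases hv2 : v % 2 = 0 <;> simp [hu2, hv2] <;>
      cases R (x 1) <;> cases R (z 1) <;> simp
  omega

/-- Mates are at positions of distance at least four. -/
lemma mate_pos (hG : ClassC G R) (hc : Crit G R) (hcat : Cat G R m z c) (hm : 2 ≤ m) {i j : ℕ}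
    (hi : i ≤ m + 1) (hj : j ≤ m + 1) (hme : Me G R (c i) (c j)) :
    pos m i + 4 ≤ pos m j ∨ pos m j + 4 ≤ pos m i := by
  have key : ∀ i j, i ≤ m + 1 → j ≤ m + 1 → Me G R (c i) (c j) → pos m i ≤ pos m j →
      pos m i + 4 ≤ pos m j := by
    intro i j hi hj hme hle
    have s1 := port_side hcat hi
    have s2 := port_side hcat hj
    have hpar : pos m i % 2 = pos m j % 2 := by
      rw [hme.2] at s1
      have := s1.symm.trans s2
      omega
    have h0 : pos m i ≠ pos m j := by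
      intro he
      have a1 := CLB.H3.cat_adj_pos hcat hi
      have a2 := CLB.H3.cat_adj_pos hcat hj
      rw [← he] at a2
      exact hG.tri _ _ _ a1.symm hme.1 a2.symm
    have h2 : pos m j ≠ pos m i + 2 := by
      intro he
      obtain ⟨f, D, hK⟩ := exists_ktight hG hc hcat hm
      have hf : f (c j) = neg (f (c i)) := (hK.ok _ _ hme.1 (fun h' => by
        obtain ⟨l, l1, l2, l3⟩ := h'.1
        exact hcat.unc l l1 l2 (by rw [l3]; exact hcat.cov i hi))).1 hme.2
      exact tight_two hm hK.tight hi hj he hf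
    omega
  rcases Nat.le_total (pos m i) (pos m j) with h1 | h1
  · exact Or.inl (key i j hi hj hme h1)
  · exact Or.inr (key j i hj hi hme.symm h1)

/-- The reversed caterpillar. -/
lemma cat_rev (h : Cat G R m z c) : Cat G R m (fun i => z (m + 1 - i)) (fun j => c (m + 1 - j)) where
  pos := h.pos
  inj i j h1 h2 h3 h4 he := by
    have := h.inj (m + 1 - i) (m + 1 - j) (by omega) (by omega) (by omega) (by omega) he
    omega
  unc i h1 h2 := h.unc _ (by omega) (by omega)
  cov j hj := h.cov _ (by omega)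
  adjz i h1 h2 := by
    have := h.adjz (m - i) (by omega) (by omega)
    rw [show m - i + 1 = m + 1 - i by omega] at this
    show G.Adj (z (m + 1 - i)) (z (m + 1 - (i + 1)))
    rw [show m + 1 - (i + 1) = m - i by omega]
    exact this.symm
  adjc i h1 h2 := h.adjc _ (by omega) (by omega)
  adj0 := by
    show G.Adj (z (m + 1 - 1)) (c (m + 1 - 0))
    rw [show m + 1 - 1 = m by omega, show m + 1 - 0 = m + 1 by omega]
    exact h.adjm
  adjm := by
    show G.Adj (z (m + 1 - m)) (c (m + 1 - (m + 1)))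
    rw [show m + 1 - m = 1 by omega, show m + 1 - (m + 1) = 0 by omega]
    exact h.adj0
  ne0 := by
    show c (m + 1 - 0) ≠ c (m + 1 - 1)
    rw [show m + 1 - 1 = m by omega, show m + 1 - 0 = m + 1 by omega]
    exact h.nem.symm
  nem := by
    show c (m + 1 - m) ≠ c (m + 1 - (m + 1))
    rw [show m + 1 - m = 1 by omega, show m + 1 - (m + 1) = 0 by omega]
    exact h.ne0.symm
  ne1 hm := by
    subst hm
    exact (h.ne1 rfl).symm
  nbr i h1 h2 w hw := by
    have := h.nbr (m + 1 - i) (by omega) (by omega) w hw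
    show w = c (m + 1 - i) ∨ (i = 1 ∧ w = c (m + 1 - 0)) ∨ (i = m ∧ w = c (m + 1 - (m + 1))) ∨
      (1 < i ∧ w = z (m + 1 - (i - 1))) ∨ (i < m ∧ w = z (m + 1 - (i + 1)))
    rcases this with e | ⟨e1, e2⟩ | ⟨e1, e2⟩ | ⟨e1, e2⟩ | ⟨e1, e2⟩
    · exact Or.inl e
    · refine Or.inr (Or.inr (Or.inl ⟨by omega, ?_⟩))
      rw [show m + 1 - (m + 1) = 0 by omega]; exact e2
    · refine Or.inr (Or.inl ⟨by omega, ?_⟩)
      rw [show m + 1 - 0 = m + 1 by omega]; exact e2
    · refine Or.inr (Or.inr (Or.inr (Or.inr ⟨by omega, ?_⟩)))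
      rw [show m + 1 - (i + 1) = m + 1 - i - 1 by omega]; exact e2
    · refine Or.inr (Or.inr (Or.inr (Or.inl ⟨by omega, ?_⟩)))
      rw [show m + 1 - (i - 1) = m + 1 - i + 1 by omega]; exact e2

/-- A vertex of the chain with a link has one port. -/
lemma port_one (hG : ClassC G R) (hcat : Cat G R m z c) {i j : ℕ} (hi : i ≤ m + 1) (hj : j ≤ m + 1)
    {w : V} (hl : Lk G R (c i) w) (he : c i = c j) : i = j := by
  by_contra hne
  have h1 := prt_card_lk hG hl
  have a1 := pos_mem hcat.pos hi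
  have a2 := pos_mem hcat.pos hj
  have b1 : z (pos m i) ∈ prt G R (c i) := by
    rw [mem_prt]
    exact ⟨CLB.H3.cat_adj_pos hcat hi, hcat.unc _ a1.1 a1.2⟩
  have b2 : z (pos m j) ∈ prt G R (c i) := by
    rw [mem_prt, he]
    exact ⟨CLB.H3.cat_adj_pos hcat hj, hcat.unc _ a2.1 a2.2⟩
  have h2 := Finset.card_le_one.1 h1 _ b1 _ b2
  exact hne (port_unique hcat hi hj he h2)

/-- At most one open unit and no link. -/
structure Few (G : SimpleGraph V) (R : V → Bool) (k : ℕ) (x y c : ℕ → V) (J : Finset ℕ) : Prop where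
  opn : ∀ u v, Opn k x y c J u → Opn k x y c J v → u = v
  lnk : ∀ i ∈ J, ∀ j ∈ J, ¬ Lk G R (c i) (c j)

lemma few_of (hG : ClassC G R) (h : Chn G R k x y) (hcat : Cat G R m z c) {p q : ℕ} (hp : 1 ≤ p)
    (hpq : p ≤ q) (hq : q ≤ m) {J : Finset ℕ} (hJ : ∀ j ∈ J, j ≤ m + 1 ∧ p ≤ pos m j ∧ pos m j ≤ q)
    (hnm : ∀ i ∈ J, ∀ j ∈ J, ¬ Me G R (c i) (c j)) (hcard : (q - p) + 3 < J.card + 2) :
    Few G R k x y c J where
  opn u v hu hv := by
    by_contra huv
    have h1 := law2 hG h hcat hp hpq hq hJ hnm hu hv huv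
    have h2 : (J.image c).card ≤ J.card := Finset.card_image_le
    omega
  lnk i hi j hj hl := by
    have h1 := law_link hG hcat hp hpq hq hJ hnm hi hj hl
    have h2 : (J.image c).card ≤ J.card := Finset.card_image_le
    omega

/-- The fork next to `x k`. -/
lemma fork_x (h : Chn G R k x y) (hk : 3 ≤ k) {J : Finset ℕ} (hF : Few G R k x y c J) {a b p : ℕ}
    (ha : a ∈ J) (hb : b ∈ J) (hp : p ∈ J) (hoth : ∀ j ∈ J, j ≠ a → j ≠ b → j ≠ p → ¬ InC k x y (c j))
    (hab : c a ≠ c b) (hcp : c p = x k) {u v : ℕ} (hu : 1 ≤ u ∧ u ≤ k) (hv : 1 ≤ v ∧ v ≤ k)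
    (hcu : c a = x u ∨ c a = y u) (hcv : c b = x v ∨ c b = y v) (pu : (u + k) % 2 = 1)
    (pv : (v + k) % 2 = 1) :
    (c a = x (k - 1) ∧ (c b = x 1 ∨ (4 ≤ k ∧ c b = y (k - 3)))) ∨
      (c b = x (k - 1) ∧ (c a = x 1 ∨ (4 ≤ k ∧ c a = y (k - 3)))) := by
  -- units seen from `J`
  have hseen : ∀ w, 1 ≤ w → w ≤ k → w ≠ u → w ≠ v → w ≠ k → ∀ j ∈ J, c j ≠ x w ∧ c j ≠ y w := by
    intro w w1 w2 wu wv wk j hj
    by_cases hja : j = a
    · subst hja
      rcases hcu with e | e <;> rw [e] <;> constructor <;> intro he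
      · exact wu (h.injx _ _ hu.1 hu.2 w1 w2 he).symm
      · exact h.xy _ _ hu.1 hu.2 w1 w2 he
      · exact h.xy _ _ w1 w2 hu.1 hu.2 he.symm
      · exact wu (h.injy _ _ hu.1 hu.2 w1 w2 he).symm
    · by_cases hjb : j = b
      · subst hjb
        rcases hcv with e | e <;> rw [e] <;> constructor <;> intro he
        · exact wv (h.injx _ _ hv.1 hv.2 w1 w2 he).symm
        · exact h.xy _ _ hv.1 hv.2 w1 w2 he
        · exact h.xy _ _ w1 w2 hv.1 hv.2 he.symm
        · exact wv (h.injy _ _ hv.1 hv.2 w1 w2 he).symm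
      · by_cases hjp : j = p
        · subst hjp
          rw [hcp]
          constructor <;> intro he
          · exact wk (h.injx _ _ (by omega) le_rfl w1 w2 he).symm
          · exact h.xy _ _ (by omega) le_rfl w1 w2 he
        · have := hoth j hj hja hjb hjp
          constructor <;> intro he
          · exact this (by rw [he]; exact InC.x w1 w2)
          · exact this (by rw [he]; exact InC.y w1 w2)
  have hlk : Lk G R (y (k - 1)) (x k) := by
    have := h.lk (k - 1) (by omega) (by omega)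
    rwa [show k - 1 + 1 = k by omega] at this
  have nya : c a ≠ y (k - 1) := fun he => hF.lnk a ha p hp (by rw [he, hcp]; exact hlk)
  have nyb : c b ≠ y (k - 1) := fun he => hF.lnk b hb p hp (by rw [he, hcp]; exact hlk)
  -- opens
  have opx : ∀ s ∈ J, ∀ w, 2 ≤ w → w ≤ k → c s = x w → w - 1 ≠ u → w - 1 ≠ v → w - 1 ≠ k →
      Opn k x y c J (w - 1) := by
    intro s hs w w1 w2 he a1 a2 a3
    refine ⟨by omega, by omega, hseen _ (by omega) (by omega) a1 a2 a3, Or.inr ⟨s, hs, by omega, ?_⟩⟩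
    rw [show w - 1 + 1 = w by omega]; exact he
  have opy : ∀ s ∈ J, ∀ w, 1 ≤ w → w < k → c s = y w → w + 1 ≠ u → w + 1 ≠ v → w + 1 ≠ k →
      Opn k x y c J (w + 1) := by
    intro s hs w w1 w2 he a1 a2 a3
    refine ⟨by omega, by omega, hseen _ (by omega) (by omega) a1 a2 a3, Or.inl ⟨s, hs, by omega, ?_⟩⟩
    rw [show w + 1 - 1 = w by omega]; exact he
  by_cases h1 : u ≠ k - 1 ∧ v ≠ k - 1
  · exfalso
    have o1 : Opn k x y c J (k - 1) := opx p hp k (by omega) le_rfl hcp (by omega) (by omega) (by omega)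
    have key : ∀ s ∈ J, ∀ w, 1 ≤ w → w ≤ k → w ≠ k - 1 → (w + k) % 2 = 1 → (c s = x w ∨ c s = y w) →
        c s = x 1 := by
      intro s hs w w1 w2 w3 w4 he
      rcases he with he | he
      · by_cases hw : w = 1
        · rw [he, hw]
        · have := hF.opn _ _ o1 (opx s hs w (by omega) w2 he (by omega) (by omega) (by omega))
          omega
      · have := hF.opn _ _ o1 (opy s hs w (by omega) (by omega) he (by omega) (by omega) (by omega))
        omega
    exact hab ((key a ha u hu.1 hu.2 h1.1 pu hcu).trans (key b hb v hv.1 hv.2 h1.2 pv hcv).symm)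
  · -- one of them is `x (k-1)`
    have key : ∀ s t, s ∈ J → t ∈ J → ∀ w w', 1 ≤ w → w ≤ k → 1 ≤ w' → w' ≤ k → (w' + k) % 2 = 1 →
        (c s = x w ∨ c s = y w) → (c t = x w' ∨ c t = y w') → w = k - 1 → c s ≠ c t →
        c s ≠ y (k - 1) → c t ≠ y (k - 1) → c s = x (k - 1) ∧ (c t = x 1 ∨ (4 ≤ k ∧ c t = y (k - 3))) := by
      intro s t hs ht w w' w1 w2 w3 w4 w5 e1 e2 e3 e4 e5 e6
      subst e3
      have e7 : c s = x (k - 1) := by
        rcases e1 with e1 | e1
        · exact e1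
        · exact absurd e1 e5
      refine ⟨e7, ?_⟩
      have o1 : Opn k x y c J (k - 2) := by
        have := opx s hs (k - 1) (by omega) (by omega) e7 (by omega) (by omega) (by omega)
        rwa [show k - 1 - 1 = k - 2 by omega] at this
      have w6 : w' ≠ k - 1 := by
        rintro rfl
        rcases e2 with e2 | e2
        · exact e4 (e7.trans e2.symm)
        · exact e6 e2
      rcases e2 with e2 | e2
      · by_cases hw : w' = 1
        · left; rw [e2, hw]
        · have := hF.opn _ _ o1 (opx t ht w' (by omega) w4 e2 (by omega) (by omega) (by omega))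
          omega
      · have := hF.opn _ _ o1 (opy t ht w' (by omega) (by omega) e2 (by omega) (by omega) (by omega))
        right
        refine ⟨by omega, ?_⟩
        rw [e2, show w' = k - 3 by omega]
    by_cases h2 : u = k - 1
    · exact Or.inl (key a b ha hb u v hu.1 hu.2 hv.1 hv.2 pv hcu hcv h2 hab nya nyb)
    · exact Or.inr (key b a hb ha v u hv.1 hv.2 hu.1 hu.2 pu hcv hcu (by omega) hab.symm nyb nya)

/-- The fork next to `y (k-1)`. -/
lemma fork_y (h : Chn G R k x y) (hk : 3 ≤ k) {J : Finset ℕ} (hF : Few G R k x y c J) {a b p : ℕ}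
    (ha : a ∈ J) (hb : b ∈ J) (hp : p ∈ J) (hoth : ∀ j ∈ J, j ≠ a → j ≠ b → j ≠ p → ¬ InC k x y (c j))
    (hab : c a ≠ c b) (hcp : c p = y (k - 1)) {u v : ℕ} (hu : 1 ≤ u ∧ u ≤ k) (hv : 1 ≤ v ∧ v ≤ k)
    (hcu : c a = x u ∨ c a = y u) (hcv : c b = x v ∨ c b = y v) (pu : (u + k) % 2 = 0)
    (pv : (v + k) % 2 = 0) :
    c a ≠ x k ∧ c b ≠ x k ∧ (c a = y k ∨ c b = y k ∨ (c a = x 1 ∧ c b = y (k - 2)) ∨
      (c b = x 1 ∧ c a = y (k - 2))) := by
  -- units seen from `J`
  have hseen : ∀ w, 1 ≤ w → w ≤ k → w ≠ u → w ≠ v → w ≠ k - 1 → ∀ j ∈ J, c j ≠ x w ∧ c j ≠ y w := by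
    intro w w1 w2 wu wv wk j hj
    by_cases hja : j = a
    · subst hja
      rcases hcu with e | e <;> rw [e] <;> constructor <;> intro he
      · exact wu (h.injx _ _ hu.1 hu.2 w1 w2 he).symm
      · exact h.xy _ _ hu.1 hu.2 w1 w2 he
      · exact h.xy _ _ w1 w2 hu.1 hu.2 he.symm
      · exact wu (h.injy _ _ hu.1 hu.2 w1 w2 he).symm
    · by_cases hjb : j = b
      · subst hjb
        rcases hcv with e | e <;> rw [e] <;> constructor <;> intro he
        · exact wv (h.injx _ _ hv.1 hv.2 w1 w2 he).symm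
        · exact h.xy _ _ hv.1 hv.2 w1 w2 he
        · exact h.xy _ _ w1 w2 hv.1 hv.2 he.symm
        · exact wv (h.injy _ _ hv.1 hv.2 w1 w2 he).symm
      · by_cases hjp : j = p
        · subst hjp
          rw [hcp]
          constructor <;> intro he
          · exact h.xy _ _ w1 w2 (by omega) (by omega) he.symm
          · exact wk (h.injy _ _ (by omega) (by omega) w1 w2 he).symm
        · have := hoth j hj hja hjb hjp
          constructor <;> intro he
          · exact this (by rw [he]; exact InC.x w1 w2)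
          · exact this (by rw [he]; exact InC.y w1 w2)
  have hlk : Lk G R (y (k - 1)) (x k) := by
    have := h.lk (k - 1) (by omega) (by omega)
    rwa [show k - 1 + 1 = k by omega] at this
  have nya : c a ≠ x k := fun he => hF.lnk p hp a ha (by rw [he, hcp]; exact hlk)
  have nyb : c b ≠ x k := fun he => hF.lnk p hp b hb (by rw [he, hcp]; exact hlk)
  refine ⟨nya, nyb, ?_⟩
  -- opens
  have opx : ∀ s ∈ J, ∀ w, 2 ≤ w → w ≤ k → c s = x w → w - 1 ≠ u → w - 1 ≠ v → w - 1 ≠ k - 1 →
      Opn k x y c J (w - 1) := by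
    intro s hs w w1 w2 he a1 a2 a3
    refine ⟨by omega, by omega, hseen _ (by omega) (by omega) a1 a2 a3, Or.inr ⟨s, hs, by omega, ?_⟩⟩
    rw [show w - 1 + 1 = w by omega]; exact he
  have opy : ∀ s ∈ J, ∀ w, 1 ≤ w → w < k → c s = y w → w + 1 ≠ u → w + 1 ≠ v → w + 1 ≠ k - 1 →
      Opn k x y c J (w + 1) := by
    intro s hs w w1 w2 he a1 a2 a3
    refine ⟨by omega, by omega, hseen _ (by omega) (by omega) a1 a2 a3, Or.inl ⟨s, hs, by omega, ?_⟩⟩
    rw [show w + 1 - 1 = w by omega]; exact he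
  by_cases h1 : u ≠ k ∧ v ≠ k
  · have o1 : Opn k x y c J k := by
      have := opy p hp (k - 1) (by omega) (by omega) hcp (by omega) (by omega) (by omega)
      rwa [show k - 1 + 1 = k by omega] at this
    have key : ∀ s ∈ J, ∀ w, 1 ≤ w → w ≤ k → w ≠ k → (w + k) % 2 = 0 → (c s = x w ∨ c s = y w) →
        c s = x 1 ∨ c s = y (k - 2) := by
      intro s hs w w1 w2 w3 w4 he
      rcases he with he | he
      · by_cases hw : w = 1
        · left; rw [he, hw]
        · have := hF.opn _ _ o1 (opx s hs w (by omega) w2 he (by omega) (by omega) (by omega))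
          omega
      · by_cases hw : w = k - 2
        · right; rw [he, hw]
        · have := hF.opn _ _ o1 (opy s hs w (by omega) (by omega) he (by omega) (by omega) (by omega))
          omega
    rcases key a ha u hu.1 hu.2 h1.1 pu hcu with e1 | e1 <;>
      rcases key b hb v hv.1 hv.2 h1.2 pv hcv with e2 | e2
    · exact absurd (e1.trans e2.symm) hab
    · exact Or.inr (Or.inr (Or.inl ⟨e1, e2⟩))
    · exact Or.inr (Or.inr (Or.inr ⟨e2, e1⟩))
    · exact absurd (e1.trans e2.symm) hab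
  · by_cases h2 : u = k
    · subst h2
      rcases hcu with e | e
      · exact absurd e nya
      · exact Or.inl e
    · have h3 : v = k := by omega
      subst h3
      rcases hcv with e | e
      · exact absurd e nyb
      · exact Or.inr (Or.inl e)

end CLB.H95
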