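import Pool.Agent.Helper95_CLB.BadP

/-!
A bad pattern at `y (k-1)` sees `x 1`.
-/

set_option autoImplicit false
set_option linter.unusedSectionVars false

namespace CLB.H95

open Finset Classical
open H3DA (Q neg nr)
open CLB.H3 (CExt Cat IsTwo Fits UPath he_of_unc cat_structure chn_side rlaw_path seg_isP llS mmS eS
  eS_eq_ek eS_sum_ge pos KTight exists_ktight)

variable {V : Type*} {G H : SimpleGraph V} {R : V → Bool} [Fintype V] {k : ℕ} {x y : ℕ → V}
  {m : ℕ} {z c : ℕ → V}

/-- The pattern with four vertices. -/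
theorem badx4 (hG : ClassC G R) (hc : Crit G R) (h : Chn G R k x y) (hk : 3 ≤ k)
    (hcat : Cat G R 4 z c) (h0 : InC k x y (c 0)) (h1 : InC k x y (c 1))
    (h3 : ¬ InC k x y (c 3)) {b b' : ℕ} (hb : (b = 4 ∧ b' = 5) ∨ (b = 5 ∧ b' = 4))
    (hbC : InC k x y (c b)) (hbN : ¬ InC k x y (c b')) (hy : c 2 = y (k - 1)) :
    ∃ j ≤ 5, c j = x 1 := by
  by_contra hno
  push Not at hno
  have p0 : pos 4 0 = 1 := rfl
  have p1 : pos 4 1 = 1 := rfl
  have p2 : pos 4 2 = 2 := rfl
  have p3 : pos 4 3 = 3 := rfl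
  have p4 : pos 4 4 = 4 := rfl
  have p5 : pos 4 5 = 4 := rfl
  have nm : ∀ i ≤ 5, ∀ j ≤ 5, ¬ Me G R (c i) (c j) := by
    intro i hi j hj hm
    have h5 := mate_pos hG hc hcat (by omega) (by omega) (by omega) hm
    have h6 := pos_mem hcat.pos (j := i) (by omega)
    have h7 := pos_mem hcat.pos (j := j) (by omega)
    omega
  have hpb : pos 4 b = 4 := by rcases hb with ⟨rfl, -⟩ | ⟨rfl, -⟩ <;> rfl
  have hb5 : b ≤ 4 + 1 := by omega
  have hJall : ∀ j ∈ Finset.range 6, j ≤ 4 + 1 ∧ 1 ≤ pos 4 j ∧ pos 4 j ≤ 4 := by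
    intro j hj
    rw [mem_range] at hj
    have := pos_mem hcat.pos (j := j) (by omega)
    exact ⟨by omega, this.1, this.2⟩
  have nmall : ∀ i ∈ Finset.range 6, ∀ j ∈ Finset.range 6, ¬ Me G R (c i) (c j) := by
    intro i hi j hj
    rw [mem_range] at hi hj
    exact nm i (by omega) j (by omega)
  have noall : ∀ s, ¬ Opn k x y c (Finset.range 6) s := by
    intro s hs
    have h5 := law1 hG h hcat (p := 1) (q := 4) le_rfl (by omega) le_rfl hJall nmall hs
    have h6 : ((Finset.range 6).image c).card ≤ (Finset.range 6).card := Finset.card_image_le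
    rw [Finset.card_range] at h5 h6
    omega
  have nlall : ∀ i ≤ 5, ∀ j ≤ 5, ¬ Lk G R (c i) (c j) := by
    intro i hi j hj hl
    have h5 := law_link hG hcat (p := 1) (q := 4) le_rfl (by omega) le_rfl hJall nmall
      (i := i) (j := j) (by rw [mem_range]; omega) (by rw [mem_range]; omega) hl
    have h6 : ((Finset.range 6).image c).card ≤ (Finset.range 6).card := Finset.card_image_le
    rw [Finset.card_range] at h5 h6
    omega
  have f24 : Few G R k x y c {2, 3, 4, 5} := by
    refine few_of hG h hcat (p := 2) (q := 4) (by omega) (by omega) (by omega) ?_ ?_ ?_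
    · intro j hj
      simp only [mem_insert, mem_singleton] at hj
      rcases hj with rfl | rfl | rfl | rfl
      · rw [p2]; omega
      · rw [p3]; omega
      · rw [p4]; omega
      · rw [p5]; omega
    · intro i hi j hj
      simp only [mem_insert, mem_singleton] at hi hj
      exact nm i (by omega) j (by omega)
    · decide
  -- the port `y k`
  have hk1 : 1 ≤ k - 1 ∧ k - 1 ≤ k := by omega
  have c2u : c 2 = x (k - 1) ∨ c 2 = y (k - 1) := Or.inr hy
  have hB := bad4 hG hc h hk hcat h0 h1 h3 hb hbC hbN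
  rcases hB.2 hy with ⟨q, hq, eq, hoth⟩ | ⟨-, -, ⟨l, hl, el⟩, -⟩
  swap
  · exact hno l hl el
  have pq := port_par h hcat (i := q) (j := 2) hq (by omega) (u := k) (v := k - 1) ⟨by omega, le_rfl⟩
    hk1 (Or.inr eq) c2u
  rw [p2] at pq
  have hq3 : q ≠ 3 := by
    rintro rfl
    exact h3 (by rw [eq]; exact InC.y (by omega) le_rfl)
  have hq01 : q ≤ 1 := by
    by_contra hcon
    have : q = 2 ∨ q = 4 ∨ q = 5 := by omega
    rcases this with rfl | rfl | rfl
    · rw [p2] at pq; omega
    · rw [p4] at pq; omega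
    · rw [p5] at pq; omega
  obtain ⟨t, ht, htq, htC⟩ : ∃ t ≤ 1, t ≠ q ∧ InC k x y (c t) := by
    by_cases h' : q = 0
    · exact ⟨1, le_rfl, by omega, h1⟩
    · exact ⟨0, by omega, by omega, h0⟩
  obtain ⟨u, hu, hcu⟩ := inC_unit htC
  obtain ⟨w, hw, hcw⟩ := inC_unit hbC
  have hpt : pos 4 t = 1 := by
    have : t = 0 ∨ t = 1 := by omega
    rcases this with rfl | rfl <;> rfl
  have pu := port_par h hcat (i := t) (j := 2) (by omega) (by omega) hu hk1 hcu c2u
  have pw := port_par h hcat (i := b) (j := 2) (by omega) (by omega) hw hk1 hcw c2u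
  rw [hpt, p2] at pu
  rw [hpb, p2] at pw
  have hu2 : u + 2 ≤ k := by
    have := hoth t (by omega) (by omega) (by omega) htC
    rwa [idx_unit h hu hcu] at this
  have hw2 : w + 2 ≤ k := by
    have := hoth b (by omega) (by omega) (by omega) hbC
    rwa [idx_unit h hw hcw] at this
  -- units seen
  have seen : ∀ r, 1 ≤ r → r ≤ k → r ≠ k → r ≠ k - 1 → r ≠ u → r ≠ w →
      ∀ j ∈ Finset.range 6, c j ≠ x r ∧ c j ≠ y r := by
    intro r r1 r2 a1 a2 a3 a4 j hj
    rw [mem_range] at hj
    have : j = q ∨ j = t ∨ j = 2 ∨ j = 3 ∨ j = b ∨ j = b' := by omega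
    rcases this with rfl | rfl | rfl | rfl | rfl | rfl
    · exact unit_ne h ⟨by omega, le_rfl⟩ ⟨r1, r2⟩ (Ne.symm a1) (Or.inr eq)
    · exact unit_ne h hu ⟨r1, r2⟩ (Ne.symm a3) hcu
    · exact unit_ne h hk1 ⟨r1, r2⟩ (Ne.symm a2) c2u
    · constructor <;> intro he
      · exact h3 (by rw [he]; exact InC.x r1 r2)
      · exact h3 (by rw [he]; exact InC.y r1 r2)
    · exact unit_ne h hw ⟨r1, r2⟩ (Ne.symm a4) hcw
    · constructor <;> intro he
      · exact hbN (by rw [he]; exact InC.x r1 r2)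
      · exact hbN (by rw [he]; exact InC.y r1 r2)
  have tm : t ∈ Finset.range 6 := by rw [mem_range]; omega
  have bm : b ∈ Finset.range 6 := by rw [mem_range]; omega
  -- `c t` is not an `x`
  have ht_y : c t = y u := by
    rcases hcu with e | e
    · exfalso
      by_cases hu1 : u = 1
      · exact hno t (by omega) (by rw [e, hu1])
      · by_cases hwu : w = u - 1
        · rcases hcw with e' | e'
          · -- `x u, x (u-1)`
            by_cases hw1 : w = 1
            · exact hno b (by omega) (by rw [e', hw1])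
            · refine noall (w - 1) ⟨by omega, by omega, seen (w - 1) (by omega) (by omega) (by omega)
                (by omega) (by omega) (by omega), Or.inr ⟨b, bm, by omega, ?_⟩⟩
              rw [show w - 1 + 1 = w by omega]; exact e'
          · have := h.lk w (by omega) (by omega)
            rw [show w + 1 = u by omega, ← e, ← e'] at this
            exact nlall b (by omega) t (by omega) this
        · refine noall (u - 1) ⟨by omega, by omega, seen (u - 1) (by omega) (by omega) (by omega)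
            (by omega) (by omega) (Ne.symm hwu), Or.inr ⟨t, tm, by omega, ?_⟩⟩
          rw [show u - 1 + 1 = u by omega]; exact e
    · exact e
  rcases hcw with e' | e'
  · -- `c b = x w`
    by_cases hw1 : w = 1
    · exact hno b (by omega) (by rw [e', hw1])
    · by_cases hwu : w = u + 1
      · have := h.lk u (by omega) (by omega)
        rw [show u + 1 = w by omega, ← ht_y, ← e'] at this
        exact nlall t (by omega) b (by omega) this
      · refine noall (w - 1) ⟨by omega, by omega, seen (w - 1) (by omega) (by omega) (by omega)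
          (by omega) (by omega) (by omega), Or.inr ⟨b, bm, by omega, ?_⟩⟩
        rw [show w - 1 + 1 = w by omega]; exact e'
  · -- `c b = y w`: two open units
    have seen' : ∀ r, 1 ≤ r → r ≤ k → r ≠ k - 1 → r ≠ w →
        ∀ j ∈ ({2, 3, 4, 5} : Finset ℕ), c j ≠ x r ∧ c j ≠ y r := by
      intro r r1 r2 a2 a4 j hj
      simp only [mem_insert, mem_singleton] at hj
      have : j = 2 ∨ j = 3 ∨ j = b ∨ j = b' := by omega
      rcases this with rfl | rfl | rfl | rfl
      · exact unit_ne h hk1 ⟨r1, r2⟩ (Ne.symm a2) c2u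
      · constructor <;> intro he
        · exact h3 (by rw [he]; exact InC.x r1 r2)
        · exact h3 (by rw [he]; exact InC.y r1 r2)
      · exact unit_ne h hw ⟨r1, r2⟩ (Ne.symm a4) (Or.inr e')
      · constructor <;> intro he
        · exact hbN (by rw [he]; exact InC.x r1 r2)
        · exact hbN (by rw [he]; exact InC.y r1 r2)
    have o1 : Opn k x y c {2, 3, 4, 5} k := ⟨by omega, le_rfl, seen' k (by omega) le_rfl (by omega)
      (by omega), Or.inl ⟨2, by simp, by omega, hy⟩⟩
    have o2 : Opn k x y c {2, 3, 4, 5} (w + 1) := ⟨by omega, by omega, seen' (w + 1) (by omega)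
      (by omega) (by omega) (by omega), Or.inl ⟨b, by
        simp only [mem_insert, mem_singleton]; omega, by omega, by
        rw [show w + 1 - 1 = w by omega]; exact e'⟩⟩
    have := f24.opn _ _ o1 o2
    omega

/-- The pattern with five vertices. -/
theorem badx5 (hG : ClassC G R) (hc : Crit G R) (h : Chn G R k x y) (hk : 3 ≤ k)
    (hcat : Cat G R 5 z c) (h0 : InC k x y (c 0)) (h1 : InC k x y (c 1))
    (h3 : ¬ InC k x y (c 3)) (h4 : ¬ InC k x y (c 4)) (h5 : InC k x y (c 5))
    (h6 : InC k x y (c 6)) (hy : c 2 = y (k - 1)) : ∃ j ≤ 6, c j = x 1 := by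
  have p0 : pos 5 0 = 1 := rfl
  have p1 : pos 5 1 = 1 := rfl
  have p2 : pos 5 2 = 2 := rfl
  have p3 : pos 5 3 = 3 := rfl
  have p4 : pos 5 4 = 4 := rfl
  have p5 : pos 5 5 = 5 := rfl
  have p6 : pos 5 6 = 5 := rfl
  have hB := bad5 hG hc h hk hcat h0 h1 h3 h4 h5 h6
  rcases hB.2 hy with ⟨q, hq, eq, hoth⟩ | ⟨-, -, ⟨l, hl, el⟩, -⟩
  swap
  · exact ⟨l, hl, el⟩
  have nm : ∀ i ≤ 6, ∀ j ≤ 6, ¬ (i ≤ 1 ∧ 5 ≤ j) → ¬ (j ≤ 1 ∧ 5 ≤ i) → ¬ Me G R (c i) (c j) := by
    intro i hi j hj a1 a2 hm
    have h5 := mate_pos hG hc hcat (by omega) (by omega) (by omega) hm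
    unfold pos at h5
    split_ifs at h5 <;> omega
  have hk1 : 1 ≤ k - 1 ∧ k - 1 ≤ k := by omega
  have c2u : c 2 = x (k - 1) ∨ c 2 = y (k - 1) := Or.inr hy
  have nyk : ∀ j ≤ 6, j ≠ 2 → j ≠ q → InC k x y (c j) → c j ≠ y k := by
    intro j hj a1 a2 hin e
    have := hoth j hj a1 a2 hin
    rw [e, idx_y h (by omega) le_rfl] at this
    omega
  by_cases hq1 : q ≤ 1
  · -- the right fork
    have f25 : Few G R k x y c {2, 3, 4, 5, 6} := by
      refine few_of hG h hcat (p := 2) (q := 5) (by omega) (by omega) (by omega) ?_ ?_ ?_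
      · intro j hj
        simp only [mem_insert, mem_singleton] at hj
        rcases hj with rfl | rfl | rfl | rfl | rfl
        · rw [p2]; omega
        · rw [p3]; omega
        · rw [p4]; omega
        · rw [p5]; omega
        · rw [p6]; omega
      · intro i hi j hj
        simp only [mem_insert, mem_singleton] at hi hj
        exact nm i (by omega) j (by omega) (by omega) (by omega)
      · decide
    obtain ⟨s, hs, hcs⟩ := inC_unit h5
    obtain ⟨t, ht, hct⟩ := inC_unit h6
    have ps := port_par h hcat (i := 5) (j := 2) (by omega) (by omega) hs hk1 hcs c2u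
    have pt := port_par h hcat (i := 6) (j := 2) (by omega) (by omega) ht hk1 hct c2u
    rw [p5, p2] at ps
    rw [p6, p2] at pt
    obtain ⟨-, -, fb⟩ := fork_y h hk f25 (a := 5) (b := 6) (p := 2) (by simp) (by simp) (by simp)
      (by
        intro j hj a1 a2 a3
        simp only [mem_insert, mem_singleton] at hj
        have : j = 3 ∨ j = 4 := by omega
        rcases this with rfl | rfl
        · exact h3
        · exact h4) hcat.nem hy hs ht hcs hct (by omega) (by omega)
    rcases fb with e | e | e | e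
    · exact absurd e (nyk 5 (by omega) (by omega) (by omega) h5)
    · exact absurd e (nyk 6 (by omega) (by omega) (by omega) h6)
    · exact ⟨5, by omega, e.1⟩
    · exact ⟨6, by omega, e.1⟩
  · have f12 : Few G R k x y c {0, 1, 2} := by
      refine few_of hG h hcat (p := 1) (q := 2) le_rfl (by omega) (by omega) ?_ ?_ ?_
      · intro j hj
        simp only [mem_insert, mem_singleton] at hj
        rcases hj with rfl | rfl | rfl
        · rw [p0]; omega
        · rw [p1]; omega
        · rw [p2]; omega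
      · intro i hi j hj
        simp only [mem_insert, mem_singleton] at hi hj
        exact nm i (by omega) j (by omega) (by omega) (by omega)
      · decide
    obtain ⟨s, hs, hcs⟩ := inC_unit h0
    obtain ⟨t, ht, hct⟩ := inC_unit h1
    have ps := port_par h hcat (i := 0) (j := 2) (by omega) (by omega) hs hk1 hcs c2u
    have pt := port_par h hcat (i := 1) (j := 2) (by omega) (by omega) ht hk1 hct c2u
    rw [p0, p2] at ps
    rw [p1, p2] at pt
    obtain ⟨-, -, fb⟩ := fork_y h hk f12 (a := 0) (b := 1) (p := 2) (by simp) (by simp) (by simp)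
      (by
        intro j hj a1 a2 a3
        simp only [mem_insert, mem_singleton] at hj
        omega) hcat.ne0 hy hs ht hcs hct (by omega) (by omega)
    rcases fb with e | e | e | e
    · exact absurd e (nyk 0 (by omega) (by omega) (by omega) h0)
    · exact absurd e (nyk 1 (by omega) (by omega) (by omega) h1)
    · exact ⟨0, by omega, e.1⟩
    · exact ⟨1, by omega, e.1⟩

/-- **A bad pattern at `y (k-1)` sees `x 1` and `y k`.** -/
theorem bad_x1 (hG : ClassC G R) (hc : Crit G R) (h : Chn G R k x y) (hk : 3 ≤ k)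
    (hcat : Cat G R m z c) {p : ℕ} (hp : BadP m (JC k x y c) p) (hy : c p = y (k - 1)) :
    (∃ j ≤ m + 1, c j = x 1) ∧ ∃ j ≤ m + 1, c j = y k := by
  constructor
  · unfold BadP at hp
    have hr := cat_rev hcat
    have fin : ∀ {n : ℕ}, m = n → (∃ j ≤ n + 1, c (m + 1 - j) = x 1) → ∃ j ≤ m + 1, c j = x 1 := by
      rintro n rfl ⟨j, hj, e⟩
      exact ⟨m + 1 - j, by omega, e⟩
    rcases hp with ⟨rfl, rfl, h0, h1, -, h3, h4, h5⟩ | ⟨rfl, rfl, h4, h5, -, h2, h0, h1⟩ |
      ⟨rfl, rfl, h0, h1, -, h3, h4, h5, h6⟩ | ⟨rfl, rfl, h0, h1, -, h2, h3, h5, h6⟩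
    · rcases h4 with h4 | h4
      · exact badx4 hG hc h hk hcat h0 h1 h3 (b := 4) (b' := 5) (Or.inl ⟨rfl, rfl⟩) h4
          (fun h' => h5 ⟨h4, h'⟩) hy
      · exact badx4 hG hc h hk hcat h0 h1 h3 (b := 5) (b' := 4) (Or.inr ⟨rfl, rfl⟩) h4
          (fun h' => h5 ⟨h', h4⟩) hy
    · refine fin rfl ?_
      rcases h0 with h0 | h0
      · exact badx4 hG hc h hk hr h5 h4 h2 (b := 5) (b' := 4) (Or.inr ⟨rfl, rfl⟩) h0
          (fun h' => h1 ⟨h0, h'⟩) hy
      · exact badx4 hG hc h hk hr h5 h4 h2 (b := 4) (b' := 5) (Or.inl ⟨rfl, rfl⟩) h0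
          (fun h' => h1 ⟨h', h0⟩) hy
    · exact badx5 hG hc h hk hcat h0 h1 h3 h4 h5 h6 hy
    · exact fin rfl (badx5 hG hc h hk hr h6 h5 h3 h2 h1 h0 hy)
  · rcases (badC hG hc h hk hcat hp).2 hy with ⟨q, hq, e, -⟩ | ⟨-, ⟨i, j, hi, hj, -, e, -⟩, -, -⟩
    · exact ⟨q, hq, e⟩
    · exact ⟨i, hi, e⟩

/-- The inner positions with a port in the chain. -/
lemma badP_inner {J : ℕ → Prop} {p j : ℕ} (h : BadP m J p) (h2 : 2 ≤ j) (hj : j + 1 ≤ m) (hJ : J j) :
    j = p := by
  unfold BadP at h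
  rcases h with ⟨a1, a2, a3, a4, a5, a6, -⟩ | ⟨a1, a2, a3, a4, a5, a6, -⟩ |
    ⟨a1, a2, a3, a4, a5, a6, a7, -⟩ | ⟨a1, a2, a3, a4, a5, a6, a7, -⟩
  · have : j = 2 ∨ j = 3 := by omega
    rcases this with rfl | rfl
    · omega
    · exact absurd hJ a6
  · have : j = 2 ∨ j = 3 := by omega
    rcases this with rfl | rfl
    · exact absurd hJ a6
    · omega
  · have : j = 2 ∨ j = 3 ∨ j = 4 := by omega
    rcases this with rfl | rfl | rfl
    · omega
    · exact absurd hJ a6
    · exact absurd hJ a7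
  · have : j = 2 ∨ j = 3 ∨ j = 4 := by omega
    rcases this with rfl | rfl | rfl
    · exact absurd hJ a6
    · exact absurd hJ a7
    · omega

/-- **Next to a component with one vertex seeing both ends, there are bad patterns on one side only.** -/
theorem star_bad_or (hG : ClassC H R) (hc : Crit H R) (h : Chn H R k x y) (hk : 3 ≤ k)
    {z0 c0 : ℕ → V} (hK0 : Cat H R 1 z0 c0) (hs0 : Sp k x y 1 c0 1 1) :
    (∀ m z c p, Cat H R m z c → BadP m (JC k x y c) p → c p ≠ y (k - 1)) ∨
      ∀ m z c p, Cat H R m z c → BadP m (JC k x y c) p → c p ≠ x 2 := by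
  by_contra hcon
  push Not at hcon
  obtain ⟨⟨m, z, c, p, hK, hp, hy⟩, m', z', c', p', hK', hp', hx⟩ := hcon
  obtain ⟨⟨j1, hj1, e1⟩, -⟩ := bad_x1 hG hc h hk hK hp hy
  have hp'r : BadP m' (JC k (fun i => y (k + 1 - i)) (fun i => x (k + 1 - i)) c') p' := by
    rw [jc_rev]; exact hp'
  obtain ⟨-, ⟨j2, hj2, e2⟩⟩ := bad_x1 hG hc h.rev hk hK' hp'r (by
    show c' p' = x (k + 1 - (k - 1))
    rw [show k + 1 - (k - 1) = 2 by omega]; exact hx)
  have e2 : c' j2 = x 1 := by
    have : c' j2 = x (k + 1 - k) := e2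
    rwa [show k + 1 - k = 1 by omega] at this
  obtain ⟨j0, hj0, e0⟩ := hs0.px 1 le_rfl le_rfl
  have hpm : 2 ≤ m ∧ 2 ≤ p ∧ p + 1 ≤ m := by unfold BadP at hp; omega
  have hpm' : 2 ≤ m' ∧ 2 ≤ p' ∧ p' + 1 ≤ m' := by unfold BadP at hp'; omega
  have sees0 : ∀ {m1 : ℕ} {z1 c1 : ℕ → V}, Cat H R m1 z1 c1 → cSupp 1 z0 = cSupp m1 z1 →
      ∀ l ≤ m1 + 1, InC k x y (c1 l) → c1 l = x 1 ∨ c1 l = y k := by
    intro m1 z1 c1 h1 he l hl hin
    obtain ⟨j, hj, ej⟩ := own_transfer hK0 h1 he hl
    rcases hs0.all j hj (by rw [ej]; exact hin) with ⟨i, i1, i2, i3⟩ | ⟨i, i1, i2, i3⟩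
    · left; rw [← ej, i3, show i = 1 by omega]
    · right; rw [← ej, i3, show i = k by omega]
  have n1 : cSupp 1 z0 ≠ cSupp m z := by
    intro he
    rcases sees0 hK he p (by omega) (by rw [hy]; exact InC.y (by omega) (by omega)) with e | e
    · exact h.xy _ _ le_rfl (by omega) (by omega) (by omega) (e.symm.trans hy)
    · have := h.injy _ _ (by omega) (by omega) (by omega) le_rfl (hy.symm.trans e)
      omega
  have n2 : cSupp 1 z0 ≠ cSupp m' z' := by
    intro he
    rcases sees0 hK' he p' (by omega) (by rw [hx]; exact InC.x (by omega) (by omega)) with e | e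
    · have := h.injx _ _ (by omega) (by omega) le_rfl (by omega) (hx.symm.trans e)
      omega
    · exact h.xy _ _ (by omega) (by omega) (by omega) le_rfl (hx.symm.trans e)
  have n3 : cSupp m z ≠ cSupp m' z' := by
    intro he
    obtain ⟨j, hj, ej⟩ := own_transfer hK hK' he (l := p') (by omega)
    -- the port of `x 2` is inner
    have a1 := cl_mem hK.pos hj
    have a2 := cl_mem hK'.pos (j := p') (by omega)
    have b1 : z (cl m j) ∈ prt H R (x 2) := by
      rw [mem_prt, ← hx, ← ej]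
      exact ⟨cat_adj_cl hK hj, hK.unc _ a1.1 a1.2⟩
    have b2 : z' (cl m' p') ∈ prt H R (x 2) := by
      rw [mem_prt, ← hx]
      exact ⟨cat_adj_cl hK' (by omega), hK'.unc _ a2.1 a2.2⟩
    have hl : Lk H R (x 2) (y 1) := (h.lk 1 le_rfl (by omega)).symm
    have hc1 := Finset.card_le_one.1 (prt_card_lk hG hl) _ b1 _ b2
    have hin : InnerPt H R (z (cl m j)) := by
      rw [hc1]
      exact (CLB.H91.innerPt_iff hK' (by omega)).2 ⟨hpm'.2.1, hpm'.2.2⟩
    have h3 := (CLB.H91.innerPt_iff hK hj).1 hin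
    have h4 := badP_inner hp h3.1 h3.2 (by
      show InC k x y (c j)
      rw [ej, hx]; exact InC.x (by omega) (by omega))
    rw [h4, hy, hx] at ej
    exact h.xy 2 (k - 1) (by omega) (by omega) (by omega) (by omega) ej.symm
  -- three ports
  have a0 := cl_mem hK0.pos hj0
  have a1 := cl_mem hK.pos hj1
  have a2 := cl_mem hK'.pos hj2
  have b0 : z0 (cl 1 j0) ∈ prt H R (x 1) := by
    rw [mem_prt, ← e0]
    exact ⟨cat_adj_cl hK0 hj0, hK0.unc _ a0.1 a0.2⟩
  have b1 : z (cl m j1) ∈ prt H R (x 1) := by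
    rw [mem_prt, ← e1]
    exact ⟨cat_adj_cl hK hj1, hK.unc _ a1.1 a1.2⟩
  have b2 : z' (cl m' j2) ∈ prt H R (x 1) := by
    rw [mem_prt, ← e2]
    exact ⟨cat_adj_cl hK' hj2, hK'.unc _ a2.1 a2.2⟩
  have d1 : z0 (cl 1 j0) ≠ z (cl m j1) := fun he =>
    n1 (cSupp_eq hK0 hK (mem_cSupp a0.1 a0.2) (by rw [he]; exact mem_cSupp a1.1 a1.2))
  have d2 : z0 (cl 1 j0) ≠ z' (cl m' j2) := fun he =>
    n2 (cSupp_eq hK0 hK' (mem_cSupp a0.1 a0.2) (by rw [he]; exact mem_cSupp a2.1 a2.2))
  have d3 : z (cl m j1) ≠ z' (cl m' j2) := fun he =>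
    n3 (cSupp_eq hK hK' (mem_cSupp a1.1 a1.2) (by rw [he]; exact mem_cSupp a2.1 a2.2))
  have h4 : ({z0 (cl 1 j0), z (cl m j1), z' (cl m' j2)} : Finset V) ⊆ prt H R (x 1) := by
    intro t ht
    simp only [mem_insert, mem_singleton] at ht
    rcases ht with rfl | rfl | rfl
    · exact b0
    · exact b1
    · exact b2
  have h5 := Finset.card_le_card h4
  have h6 := prt_card hG (h.cov (InC.x le_rfl (by omega)))
  rw [Finset.card_insert_of_notMem (by
    simp only [mem_insert, mem_singleton, not_or]; exact ⟨d1, d2⟩), Finset.card_pair d3] at h5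
  omega

end CLB.H95
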