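import Pool.Agent.Helper95_CLB.UStarW
import Pool.Agent.Helper95_CLB.StatQG

/-!
Static forbidden sets with relations: the components other than the caterpillar cost static labels, the
second port of a fork inside the window costs nothing but a relation; one couple costs one pair.
-/

set_option autoImplicit false
set_option linter.unusedSectionVars false

namespace CLB.H95

open H3DA (Q neg nr)

/-- The types which contain the step of the couple. -/
lemma couple_types : ∀ p q : Q, ∃ D1 D2 D3 : Ty, ∀ D : Ty,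
    stp D (neg (leafL D p)) (leafL D q) = true → D = D1 ∨ D = D2 ∨ D = D3 := by decide +kernel

open Finset Classical
open CLB.H3 (CExt Cat IsTwo Fits UPath he_of_unc cat_structure chn_side KTight exists_ktight no_cext
  Leaf cext_or)

variable {V : Type*} {G : SimpleGraph V} {R : V → Bool} [Fintype V] {k r : ℕ} {x y X Y : ℕ → V}
  {m : ℕ} {z c : ℕ → V} {f : V → Q}

/-- The order of the units in one of the two directions. -/
def ltO (o : Bool) (a b : ℕ) : Prop := if o = true then a < b else b < a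

lemma ltO_total {o : Bool} {a b : ℕ} (h : a ≠ b) : ltO o a b ∨ ltO o b a := by
  unfold ltO; split_ifs <;> omega

lemma ltO_asymm {o : Bool} {a b : ℕ} (h : ltO o a b) : ¬ ltO o b a := by
  unfold ltO at *; split_ifs at * <;> omega

lemma ltO_ne {o : Bool} {a b : ℕ} (h : ltO o a b) : a ≠ b := by
  unfold ltO at h; split_ifs at h <;> omega

/-- Static forbidden sets of a component, with relations; `cp`: one pair at `X 1`, `X 2` is forbidden
too. -/
structure RKill (G : SimpleGraph V) (R : V → Bool) (r : ℕ) (X Y : ℕ → V) (f : V → Q) (o : Bool)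
    (S : Set V) (cp : Prop) (P : Q × Q) (φ : V → V → Finset Q) : Prop where
  two : ∀ v w, (φ v w).card ≤ 2
  late : ∀ w ∈ S, ∀ v b, G.Adj w v → G.Adj w b → v ≠ b → InC r X Y v → InC r X Y b →
    ltO o (idx r X Y b) (idx r X Y v) → φ v w = ∅
  ok : ∀ f' : V → Q, (∀ v, Cov G R v → ¬ InC r X Y v → f' v = f v) →
    (∀ w ∈ S, ∀ v, G.Adj v w → InC r X Y v → f' v ∉ φ v w) →
    (∀ w ∈ S, ∀ a b, G.Adj w a → G.Adj w b → a ≠ b → InC r X Y a → InC r X Y b →
      f' a ≠ neg (f' b)) →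
    (cp → (f' (X 1), f' (X 2)) ≠ P) → ∃ g, Fits G R f' g S

/-- The covered neighbours of a vertex of the path are its ports. -/
lemma cat_port {m : ℕ} {z c : ℕ → V} (h : Cat G R m z c) {i : ℕ} (h1 : 1 ≤ i) (h2 : i ≤ m) {v : V}
    (ha : G.Adj (z i) v) (hv : Cov G R v) : ∃ j ≤ m + 1, c j = v ∧ cl m j = i := by
  rcases h.nbr i h1 h2 v ha with h3 | ⟨h3, h4⟩ | ⟨h3, h4⟩ | ⟨h3, h4⟩ | ⟨h3, h4⟩
  · exact ⟨i, by omega, h3.symm, cl_self h1 h2⟩
  · exact ⟨0, by omega, h4.symm, by rw [cl_zero, h3]⟩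
  · exact ⟨m + 1, le_rfl, h4.symm, by rw [cl_last, h3]⟩
  · exact absurd hv (h4 ▸ h.unc (i - 1) (by omega) (by omega))
  · exact absurd hv (h4 ▸ h.unc (i + 1) (by omega) (by omega))

/-- The pattern of the couple: a component with two vertices whose forks see `X 1` and `X 2`. -/
def Cpl (X : ℕ → V) (r : ℕ) (Y : ℕ → V) (m : ℕ) (c : ℕ → V) : Prop :=
  m = 2 ∧ ∃ a b, (a = 0 ∨ a = 1) ∧ (b = 2 ∨ b = 3) ∧ ¬ InC r X Y (c (1 - a)) ∧
    ¬ InC r X Y (c (5 - b)) ∧ ((c a = X 1 ∧ c b = X 2) ∨ (c a = X 2 ∧ c b = X 1))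

/-- A star with at most one port in the window. -/
lemma rkill_star (hch : Chn G R r X Y) (hf : OffC G R r X Y f) {z c : ℕ → V} (h : Cat G R 1 z c)
    (hex : ∃ j ≤ 2, InC r X Y (c j)) (h1 : ∀ i j, i ≤ 2 → j ≤ 2 → InC r X Y (c i) → InC r X Y (c j) → i = j)
    (o : Bool) (cp : Prop) (P : Q × Q) : ∃ φ, RKill G R r X Y f o (cSupp 1 z) cp P φ := by
  obtain ⟨φ, hφ⟩ := setKill_of_stat hch hf h (m := 1) ⟨fun _ => h1, fun h' => by omega⟩ hex (z 1) (z 1)
  refine ⟨φ, ⟨hφ.two, fun w hw v b hv hb hvb hin hin' _ => ?_, fun f' e1 e2 _ _ => hφ.ok f' e1 e2⟩⟩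
  obtain ⟨i, i1, i2, rfl⟩ := hw
  exfalso
  obtain ⟨j, j1, j2, _⟩ := cat_port h i1 i2 hv (hch.cov hin)
  obtain ⟨j', j1', j2', _⟩ := cat_port h i1 i2 hb (hch.cov hin')
  have := h1 j j' (by omega) (by omega) (j2 ▸ hin) (j2' ▸ hin')
  exact hvb (by rw [← j2, ← j2', this])

/-- The function of the forbidden sets of a component. -/
noncomputable def pfun (m : ℕ) (z c : ℕ → V) (F : ℕ → Finset Q) (v w : V) : Finset Q :=
  if hh : ∃ j ≤ m + 1, c j = v ∧ z (cl m j) = w then F hh.choose else ∅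

lemma pfun_eq {m : ℕ} {z c : ℕ → V} (h : Cat G R m z c) {F : ℕ → Finset Q} {j : ℕ} (hj : j ≤ m + 1) :
    pfun m z c F (c j) (z (cl m j)) = F j := by
  have hh : ∃ j' ≤ m + 1, c j' = c j ∧ z (cl m j') = z (cl m j) := ⟨j, hj, rfl, rfl⟩
  unfold pfun
  rw [dif_pos hh]
  have hs := hh.choose_spec
  rw [port_unique h hs.1 hj hs.2.1 hs.2.2]

lemma pfun_card {m : ℕ} {z c : ℕ → V} {F : ℕ → Finset Q} (hF : ∀ j, (F j).card ≤ 2) (v w : V) :
    (pfun m z c F v w).card ≤ 2 := by
  unfold pfun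
  split_ifs
  · exact hF _
  · simp

/-- A component which is not nearly closed. -/
theorem rkill_of_not_nc (hG : ClassC G R) (hch : Chn G R r X Y) (hf : OffC G R r X Y f) {m : ℕ}
    {z c : ℕ → V} (h : Cat G R m z c) (hm : 2 ≤ m) (hex : ∃ j ≤ m + 1, InC r X Y (c j))
    (hnc : ¬ NCp m (fun j => InC r X Y (c j))) (o : Bool) (cp : Prop) (P : Q × Q) :
    ∃ φ, RKill G R r X Y f o (cSupp m z) cp P φ := by
  obtain ⟨e, he, heO⟩ : ∃ e, (e = 0 ∨ e = 1) ∧ (InC r X Y (c 0) → InC r X Y (c 1) →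
      ltO o (idx r X Y (c e)) (idx r X Y (c (1 - e)))) := by
    by_cases hin : InC r X Y (c 0) ∧ InC r X Y (c 1)
    · have h1 := idx_ne hG hch hin.1 hin.2 h.ne0 h.adj0 (h.adjc 1 le_rfl (by omega))
      rcases ltO_total (o := o) h1 with h2 | h2
      · exact ⟨0, Or.inl rfl, fun _ _ => h2⟩
      · exact ⟨1, Or.inr rfl, fun _ _ => h2⟩
    · exact ⟨0, Or.inl rfl, fun h2 h3 => absurd ⟨h2, h3⟩ hin⟩
  obtain ⟨e', he', heO'⟩ : ∃ e', (e' = m ∨ e' = m + 1) ∧ (InC r X Y (c m) → InC r X Y (c (m + 1)) →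
      ltO o (idx r X Y (c e')) (idx r X Y (c (2 * m + 1 - e')))) := by
    by_cases hin : InC r X Y (c m) ∧ InC r X Y (c (m + 1))
    · have h1 := idx_ne hG hch hin.1 hin.2 h.nem (h.adjc m (by omega) le_rfl) h.adjm
      rcases ltO_total (o := o) h1 with h2 | h2
      · refine ⟨m, Or.inl rfl, fun _ _ => ?_⟩
        rw [show 2 * m + 1 - m = m + 1 by omega]; exact h2
      · refine ⟨m + 1, Or.inr rfl, fun _ _ => ?_⟩
        rw [show 2 * m + 1 - (m + 1) = m by omega]; exact h2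
    · exact ⟨m, Or.inl rfl, fun h2 h3 => absurd ⟨h2, h3⟩ hin⟩
  have hfork := fun (i j : ℕ) (hi : i ≤ m + 1) (hj : j ≤ m + 1) (hij : cl m i = cl m j) =>
    offC_fork hch hf h hi hj hij
  have hS : SQ m (fun j => InC r X Y (c j)) 0 := SQ.of_not_bad hm hnc (by
    rintro (h4 | h4 | h4 | h4)
    · exact absurd h4.2.1 (by omega)
    · exact absurd h4.2.1 (by omega)
    · exact absurd h4.2.1 (by omega)
    · exact absurd h4.2.1 (by omega))
  obtain ⟨F, c1, -, c3, c4, c5⟩ := killsQ (s₀ := fun j => f (c j)) (p := 0) hm he he' (by omega) hex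
    (fun h1 h2 => hfork 0 1 (by omega) (by omega) (by rw [cl_zero, cl_self le_rfl (by omega)]) h1 h2)
    (fun h1 h2 => hfork m (m + 1) (by omega) le_rfl (by rw [cl_last, cl_self (by omega) le_rfl]) h1 h2)
    hS
  refine ⟨pfun m z c F, ⟨pfun_card c1, ?_, ?_⟩⟩
  · intro w hw v b hv hb hvb hin hin' hlt
    obtain ⟨i, i1, i2, rfl⟩ := hw
    obtain ⟨j, j1, j2, j3⟩ := cat_port h i1 i2 hv (hch.cov hin)
    obtain ⟨j', j1', j2', j3'⟩ := cat_port h i1 i2 hb (hch.cov hin')
    subst j2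
    subst j2'
    have hjj : j ≠ j' := fun e => hvb (by rw [e])
    rw [← j3, pfun_eq h j1]
    have hcl : cl m j = cl m j' := j3.trans j3'.symm
    have hcase : (j = 0 ∧ j' = 1) ∨ (j = 1 ∧ j' = 0) ∨ (j = m ∧ j' = m + 1) ∨ (j = m + 1 ∧ j' = m) := by
      unfold cl at hcl
      split_ifs at hcl <;> omega
    rcases hcase with ⟨rfl, rfl⟩ | ⟨rfl, rfl⟩ | ⟨rfl, rfl⟩ | ⟨rfl, rfl⟩
    · rcases he with rfl | rfl
      · exact absurd hlt (ltO_asymm (heO hin hin'))
      · exact c3 hin hin'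
    · rcases he with rfl | rfl
      · exact c3 hin' hin
      · exact absurd hlt (ltO_asymm (heO hin' hin))
    · rcases he' with h5 | h5
      · have := heO' hin hin'
        rw [h5, show 2 * j + 1 - j = j + 1 by omega] at this
        exact absurd hlt (ltO_asymm this)
      · have := c4 hin hin'
        rwa [h5, show 2 * j + 1 - (j + 1) = j by omega] at this
    · rcases he' with h5 | h5
      · have := c4 hin' hin
        rwa [h5, show 2 * j' + 1 - j' = j' + 1 by omega] at this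
      · have := heO' hin' hin
        rw [h5, show 2 * j' + 1 - (j' + 1) = j' by omega] at this
        exact absurd hlt (ltO_asymm this)
  · intro f' e1 e2 e3 _
    rw [← cext_iff_fits h]
    refine c5 _ (fun j hj hJ => e1 _ (h.cov j hj) hJ) (fun j hj hJ => ?_) (fun h1 h2 => ?_)
      (fun h1 h2 => ?_)
    · have h4 := cl_mem h.pos hj
      have := e2 (z (cl m j)) (mem_cSupp h4.1 h4.2) (c j) (cat_adj_cl h hj) hJ
      rwa [pfun_eq h hj] at this
    · exact e3 _ (mem_cSupp le_rfl (by omega)) _ _ h.adj0 (h.adjc 1 le_rfl (by omega)) h.ne0 h1 h2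
    · exact e3 _ (mem_cSupp (by omega) le_rfl) _ _ (h.adjc m (by omega) le_rfl) h.adjm h.nem h1 h2

/-- **The couple.** -/
theorem rkill_couple (hch : Chn G R r X Y) {m : ℕ} {z c : ℕ → V} (h : Cat G R m z c)
    (hcp : Cpl X r Y m c) (hr : 2 ≤ r) (o : Bool) :
    ∃ P φ, RKill G R r X Y f o (cSupp m z) True P φ := by
  obtain ⟨rfl, a, b, ha, hb, oa, ob, hab⟩ := hcp
  obtain ⟨D1, D2, D3, hD⟩ := couple_types (f (c (1 - a))) (f (c (5 - b)))
  set p := f (c (1 - a)) with hp
  set q := f (c (5 - b)) with hq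
  have ha3 : a ≤ 3 := by omega
  have hb3 : b ≤ 3 := by omega
  have hne12 : a ≠ b := by omega
  let F : ℕ → Finset Q := fun j => if j = a then {neg p, leafL D1 p} else if j = b then
    {neg q, leafL D2 q} else ∅
  have hF : ∀ j, (F j).card ≤ 2 := by
    intro j
    simp only [F]
    split_ifs
    · exact Finset.card_le_two
    · exact Finset.card_le_two
    · simp
  have ina : InC r X Y (c a) := by
    rcases hab with ⟨h1, _⟩ | ⟨h1, _⟩
    · rw [h1]; exact InC.x le_rfl (by omega)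
    · rw [h1]; exact InC.x (by omega) hr
  have inb : InC r X Y (c b) := by
    rcases hab with ⟨_, h1⟩ | ⟨_, h1⟩
    · rw [h1]; exact InC.x (by omega) hr
    · rw [h1]; exact InC.x le_rfl (by omega)
  have hins : ∀ j ≤ 3, InC r X Y (c j) → j = a ∨ j = b := by
    intro j hj hin
    by_contra hcon
    rw [not_or] at hcon
    have : j = 1 - a ∨ j = 5 - b := by omega
    rcases this with rfl | rfl
    · exact oa hin
    · exact ob hin
  refine ⟨if c a = X 1 then (leafL D3 p, leafL D3 q) else (leafL D3 q, leafL D3 p), pfun 2 z c F,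
    ⟨pfun_card hF, ?_, ?_⟩⟩
  · intro w hw v b' hv hb' hvb hin hin' hlt
    exfalso
    obtain ⟨i, i1, i2, rfl⟩ := hw
    obtain ⟨j, j1, j2, j3⟩ := cat_port h i1 i2 hv (hch.cov hin)
    obtain ⟨j', j1', j2', j3'⟩ := cat_port h i1 i2 hb' (hch.cov hin')
    subst j2
    subst j2'
    have hcl : cl 2 j = cl 2 j' := j3.trans j3'.symm
    have hjj : j ≠ j' := fun e => hvb (by rw [e])
    have k1 := hins j j1 hin
    have k2 := hins j' j1' hin'
    unfold cl at hcl
    split_ifs at hcl <;> omega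
  · intro f' e1 e2 _ e4
    rw [← cext_iff_fits h]
    have n1 : f' (c (1 - a)) = p := e1 _ (h.cov _ (by omega)) oa
    have n2 : f' (c (5 - b)) = q := e1 _ (h.cov _ (by omega)) ob
    have k1 : f' (c a) ∉ F a := by
      have h4 := cl_mem h.pos (show a ≤ 2 + 1 by omega)
      have := e2 (z (cl 2 a)) (mem_cSupp h4.1 h4.2) (c a) (cat_adj_cl h (by omega)) ina
      rwa [pfun_eq h (by omega)] at this
    have k2 : f' (c b) ∉ F b := by
      have h4 := cl_mem h.pos (show b ≤ 2 + 1 by omega)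
      have := e2 (z (cl 2 b)) (mem_cSupp h4.1 h4.2) (c b) (cat_adj_cl h (by omega)) inb
      rwa [pfun_eq h (by omega)] at this
    simp only [F, if_true] at k1
    simp only [F] at k2
    rw [if_neg (Ne.symm hne12), if_true] at k2
    rw [mem_insert, mem_singleton, not_or] at k1 k2
    have k3 : ¬ (f' (c a) = leafL D3 p ∧ f' (c b) = leafL D3 q) := by
      rintro ⟨k3, k4⟩
      apply e4 trivial
      rcases hab with ⟨h1, h2⟩ | ⟨h1, h2⟩
      · rw [if_pos h1, ← h1, ← h2, k3, k4]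
      · have hx : c a ≠ X 1 := by
          rw [h1]
          intro he
          have := hch.injx 2 1 (by omega) hr le_rfl (by omega) he
          omega
        rw [if_neg hx, ← h1, ← h2, k3, k4]
    have e01 : (f' (c 0) = p ∧ f' (c 1) = f' (c a)) ∨ (f' (c 1) = p ∧ f' (c 0) = f' (c a)) := by
      rcases ha with rfl | rfl
      · right; exact ⟨n1, rfl⟩
      · left; exact ⟨n1, rfl⟩
    have e23 : (f' (c 2) = f' (c b) ∧ f' (c 3) = q) ∨ (f' (c 3) = f' (c b) ∧ f' (c 2) = q) := by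
      rcases hb with rfl | rfl
      · left; exact ⟨rfl, n2⟩
      · right; exact ⟨rfl, n2⟩
    rw [cext_iff (by omega)]
    refine ⟨?_, ?_, ?_⟩
    · show f' (c 0) ≠ neg (f' (c 1))
      rcases e01 with ⟨a1, a2⟩ | ⟨a1, a2⟩
      · rw [a1, a2]; exact H3DA.ne_neg_symm k1.1
      · rw [a1, a2]; exact k1.1
    · show f' (c 2) ≠ neg (f' (c 3))
      rcases e23 with ⟨a1, a2⟩ | ⟨a1, a2⟩
      · rw [a1, a2]; exact k2.1
      · rw [a1, a2]; exact H3DA.ne_neg_symm k2.1
    · intro D hT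
      obtain ⟨t1, t2, t3⟩ := hT
      have t2' := t2 1 le_rfl (by omega)
      rw [altT_one] at t2'
      have t3' : frk D (f' (c 2)) (f' (c 3)) = true := by
        have : altT D (2 + 1) = D := by unfold altT; rw [if_pos (by omega)]
        rw [this] at t3
        exact t3
      have t1' : frk D (f' (c 0)) (f' (c 1)) = true := t1
      have t2'' : stp D (neg (f' (c 1))) (f' (c 2)) = true := t2'
      have s1 : stp D (neg (f' (c 0))) (f' (c 2)) = true := stp_frk' _ _ _ _ t1' t2''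
      have s2 : stp D (neg (f' (c 1))) (f' (c 3)) = true := stp_frk'' _ _ _ _ t2'' t3'
      have s3 : stp D (neg (f' (c 0))) (f' (c 3)) = true := stp_frk'' _ _ _ _ s1 t3'
      have ea : f' (c a) = leafL D p := by
        rcases e01 with ⟨a1, a2⟩ | ⟨a1, a2⟩
        · rw [← a2, ← a1]; exact frk_iff.1 t1'
        · rw [← a2, ← a1]; exact frk_iff'.1 t1'
      have eb : f' (c b) = leafL D q := by
        rcases e23 with ⟨a1, a2⟩ | ⟨a1, a2⟩
        · rw [← a1, ← a2]; exact frk_iff'.1 t3'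
        · rw [← a1, ← a2]; exact frk_iff.1 t3'
      have es : stp D (neg (f' (c a))) (f' (c b)) = true := by
        rcases e01 with ⟨a1, a2⟩ | ⟨a1, a2⟩ <;> rcases e23 with ⟨b1, b2⟩ | ⟨b1, b2⟩
        · rw [← a2, ← b1]; exact t2''
        · rw [← a2, ← b1]; exact s2
        · rw [← a2, ← b1]; exact s1
        · rw [← a2, ← b1]; exact s3
      rw [ea, eb] at es
      rcases hD D es with rfl | rfl | rfl
      · exact k1.2 ea
      · exact k2.2 eb
      · exact k3 ⟨ea, eb⟩

end CLB.H95
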