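import Pool.Agent.Helper95_CLB.WinG
import Pool.Agent.Helper3_DA.WdCat

/-!
Windows at the left end of an open chain: the base data, the window game with couples.
-/

set_option autoImplicit false
set_option linter.unusedSectionVars false

namespace CLB.H95

open H3DA (Q neg nr)
open Finset Classical
open CLB.H3 (CExt Cat IsTwo Fits UPath he_of_unc cat_structure chn_side KTight exists_ktight no_cext
  Leaf cext_or pc pc_pos pc_le pc_lk pc_cov pc_two pc_one)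

variable {V : Type*} {G : SimpleGraph V} {R : V → Bool} [Fintype V] {k r : ℕ} {x y X Y : ℕ → V}
  {m : ℕ} {z c : ℕ → V} {f : V → Q}

/-- The first units of a chain. -/
lemma Chn.take (h : Chn G R k x y) (h1 : 1 ≤ r) (h2 : r ≤ k) : Chn G R r x y where
  pos := h1
  me i a b := h.me i a (by omega)
  lk i a b := h.lk i a (by omega)
  injx i j a b a' b' he := h.injx i j a (by omega) a' (by omega) he
  injy i j a b a' b' he := h.injy i j a (by omega) a' (by omega) he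
  xy i j a b a' b' := h.xy i j a (by omega) a' (by omega)

/-- **The base data of a window at the left end.** -/
theorem wb_open (hG : ClassC G R) (hc : Crit G R) (hcat : Cat G R m z c) (hm : 2 ≤ m)
    (h : Chn G R k x y) (hend : ∀ w, ¬ Lk G R (x 1) w) (h1 : 1 ≤ r) (h2 : r ≤ k)
    (hin : ∃ j ≤ m + 1, InC r x y (c j)) : ∃ f D, WB G R r x y m z c f D := by
  obtain ⟨j, hj, hin⟩ := hin
  obtain ⟨f0, D, hK⟩ := exists_ktight hG hc hcat hm
  obtain ⟨f, hf, hff⟩ := exists_offw (r := r) (X := x) (Y := y) hcat hm hK hj hin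
  refine ⟨f, D, ⟨hG, hc, hcat, hm, h.take h1 h2, fun hh => hend _ hh.symm, hf, ?_, ?_⟩⟩
  · obtain ⟨t1, t2, t3⟩ := hK.tight
    have e : ∀ j ≤ m + 1, f (c j) = f0 (c j) := fun j hj => hff _ (hcat.cov j hj)
    refine ⟨?_, fun i i1 i2 => ?_, ?_⟩
    · show frk D (f (c 0)) (f (c 1)) = true
      rw [e 0 (by omega), e 1 (by omega)]; exact t1
    · show stp (altT D i) (neg (f (c i))) (f (c (i + 1))) = true
      rw [e i (by omega), e (i + 1) (by omega)]; exact t2 i i1 i2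
    · show frk (altT D (m + 1)) (f (c m)) (f (c (m + 1))) = true
      rw [e m (by omega), e (m + 1) le_rfl]; exact t3
  · intro i i1 i2
    rw [hff _ (h.cov (InC.y i1 (by omega))), hff _ (h.cov (InC.x i1 (by omega)))]
    have hme := h.me i i1 (by omega)
    exact (hK.ok _ _ hme.1 (fun h' => by
      obtain ⟨l, l1, l2, l3⟩ := h'.1
      exact hcat.unc l l1 l2 (by rw [l3]; exact hme.cov))).1 hme.2

/-- The valid walks of a window. -/
structure Vld (G : SimpleGraph V) (R : V → Bool) (r : ℕ) (X Y : ℕ → V) (m : ℕ) (c : ℕ → V)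
    (f : V → Q) (E : (V → Q) → Prop) (Φ : V → V → Finset Q) (mu : ℕ → Q) : Prop where
  nwk : Nwk r mu
  mem : ∀ i, 1 ≤ i → i ≤ r → mu i ∈ wls G R r X Y m c f Φ i
  rel : ∀ i, 1 ≤ i → i + 2 ≤ r → RelAt G R X Y i (i + 2) → mu i ≠ mu (i + 2)
  ex : E (lbl r X Y mu f)

/-- **Valid walks are tight.** -/
theorem WB.walks {D : Ty} (w : WB G R r X Y m z c f D) (hr4 : r ≤ 4) (o : Bool) {bd : V → V → ℕ}
    {E : (V → Q) → Prop} (hbd : ∀ v w b, IsTwo G R w v b → 1 ≤ bd v w)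
    (hk : ∀ m' z' c', Cat G R m' z' c' → cSupp m' z' ≠ cSupp m z → (∃ j ≤ m' + 1, InC r X Y (c' j)) →
      ∃ φ, XKill G R r X Y f o bd E (cSupp m' z') φ) :
    ∃ Φ : V → V → Finset Q, (∀ v, cst G R Φ v ≤ chb G R r X Y m z o bd v) ∧
      ∀ mu, Vld G R r X Y m c f E Φ mu → ∃ D', Tight D' (fun j => lbl r X Y mu f (c j)) m := by
  obtain ⟨Φ, h1, h2⟩ := w.base o hbd hk
  exact ⟨Φ, h1, fun mu v => h2 mu v.nwk v.mem (fun w' a b h1 h2 h3 h4 h5 h6 =>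
    rel_ok w.hG w.ch hr4 v.nwk v.rel h1 h2 h3 h4 h5 h6) v.ex⟩

/-- **The window game.** -/
theorem WB.code {D : Ty} (w : WB G R r X Y m z c f D) (hr4 : r ≤ 4) (o : Bool) {bd : V → V → ℕ}
    {P : Q × Q} {C : Code} (hC : C.r = r) (hend : ∀ v, ¬ Lk G R (X 1) v)
    (hwall : ∃ v, Lk G R (Y r) v) (hbd : ∀ v w b, IsTwo G R w v b → 1 ≤ bd v w)
    (hk : ∀ m' z' c', Cat G R m' z' c' → cSupp m' z' ≠ cSupp m z → (∃ j ≤ m' + 1, InC r X Y (c' j)) →
      ∃ φ, XKill G R r X Y f o bd (fun f' => C.cp = true → 2 ≤ r → (f' (X 1), f' (X 2)) ≠ P)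
        (cSupp m' z') φ)
    (hs : ∀ i, 1 ≤ i → i < r → (C.u i).s + (chb G R r X Y m z o bd (X i) +
      chb G R r X Y m z o bd (Y i)) + cnf r X Y m c i ≤ 8)
    (hs' : (C.u r).s + (chb G R r X Y m z o bd (X r) + chb G R r X Y m z o bd (Y r)) +
      min (cnf r X Y m c r) 1 ≤ 8)
    (htg : ∀ i, 1 ≤ i → i ≤ r → (C.u i).tg = true → (∃ j ≤ m + 1, InU X Y i (c j)) ∧
      ¬ ((InU X Y i (c 0) ∨ InU X Y i (c 1)) ∧ (InU X Y i (c m) ∨ InU X Y i (c (m + 1)))))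
    (hph : (∀ i, 1 ≤ i → i ≤ r → (C.u i).ph = lfp X Y m c i) ∨
      ∀ i, 1 ≤ i → i ≤ r → (C.u i).ph = false)
    (hps : ∃ S : Finset Q, S.card ≤ 2 ∧ ∀ mu D', Tight D' (fun j => lbl r X Y mu f (c j)) m →
      sumU (fun i => (C.u i).ps) mu r ∈ S)
    (hrel : ∀ i, 1 ≤ i → i + 2 ≤ r → RelAt G R X Y i (i + 2) → (C.u i).rel = true)
    (hW : C.Win) : False := by
  obtain ⟨Φ, hcst, hT0⟩ := w.walks hr4 o hbd hk
  obtain ⟨b0, hb1, hb2⟩ := w.last hend hwall Φ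
  have hrp := w.ch.pos
  have hT : ∀ mu, VW C (wls G R r X Y m c f Φ) (sg 1 P.1, sg 2 P.2) mu →
      ∃ D', Tight D' (fun j => lbl r X Y mu f (c j)) m := by
    intro mu hmu
    refine hT0 mu ⟨hC ▸ hmu.nwk, fun i h1 h2 => hmu.mem i h1 (by rw [hC]; exact h2),
      fun i h1 h2 h3 => hmu.rel i h1 (by rw [hC]; exact h2) (hrel i h1 h2 h3), fun h1 h2 h3 => ?_⟩
    apply hmu.cpl h1 (by rw [hC]; exact h2)
    rw [lbl_x w.ch le_rfl hrp, lbl_x w.ch (by omega) h2] at h3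
    rw [← h3]
    simp [sg_sg]
  refine hW (wls G R r X Y m c f Φ) b0 (sg 1 P.1, sg 2 P.2) ?_ ?_ ?_ ?_ ?_ ?_
  · intro i h1 h2
    rw [hC] at h2
    have e1 := WB.card (m := m) (c := c) (f := f) (X := X) (Y := Y) hend Φ (i := i) (r := r) (by omega)
    have e2 := hcst (X i)
    have e3 := hcst (Y i)
    have e7 := hs i h1 h2
    omega
  · rw [hC]; exact hb1
  · rw [hC]
    have e2 := hcst (X r)
    have e3 := hcst (Y r)
    omega
  · intro mu mu' v h1 h2 h3 h4 h5 h6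
    rw [hC] at h4 h6
    obtain ⟨D1, hD1⟩ := hT mu h1
    obtain ⟨D2, hD2⟩ := hT mu' h2
    obtain ⟨g1, g2⟩ := htg v h3 h4 h5
    exact win_one w.hG w.cat w.hm w.ch h3 h4 h6 g1 g2 hD1 hD2
  · intro mu mu' h1 h2
    rw [hC]
    obtain ⟨D1, hD1⟩ := hT mu h1
    obtain ⟨D2, hD2⟩ := hT mu' h2
    rcases hph with hp | hp
    · have e : ∀ mu : ℕ → Q, sumU (fun i => (C.u i).ph) mu r = sumU (lfp X Y m c) mu r := fun mu =>
        sumU_congr fun i i1 i2 => ⟨hp i i1 i2, rfl⟩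
      rw [e, e]
      exact win_phi w.ch hD1 hD2
    · have e : ∀ mu : ℕ → Q, sumU (fun i => (C.u i).ph) mu r = (false, false, false) := fun mu => by
        rw [← sumU_false (d := mu) (n := r)]
        exact sumU_congr fun i i1 i2 => ⟨hp i i1 i2, rfl⟩
      rw [e, e]
  · obtain ⟨S, s1, s2⟩ := hps
    refine ⟨S, s1, fun mu hmu => ?_⟩
    rw [hC]
    obtain ⟨D1, hD1⟩ := hT mu hmu
    exact s2 mu D1 hD1

/-- The window is clean up to couples (of at least two units). -/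
def CleanC (G : SimpleGraph V) (R : V → Bool) (r : ℕ) (X Y : ℕ → V) (m : ℕ) (z : ℕ → V) : Prop :=
  ∀ m' z' c', Cat G R m' z' c' → cSupp m' z' ≠ cSupp m z → (∃ j ≤ m' + 1, InC r X Y (c' j)) →
    (m' = 1 → ∀ i j, i ≤ 2 → j ≤ 2 → InC r X Y (c' i) → InC r X Y (c' j) → i = j) ∧
    (2 ≤ m' → (2 ≤ r ∧ Cpl X r Y m' c') ∨ ¬ NCp m' (fun j => InC r X Y (c' j)))

/-- The support of a component with a port at `X 2` is determined. -/
lemma supp_x2 (hG : ClassC G R) (h : Chn G R r X Y) (hr : 2 ≤ r) {m1 m2 : ℕ} {z1 c1 z2 c2 : ℕ → V}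
    (h1 : Cat G R m1 z1 c1) (h2 : Cat G R m2 z2 c2) {j1 j2 : ℕ} (l1 : j1 ≤ m1 + 1) (l2 : j2 ≤ m2 + 1)
    (e1 : c1 j1 = X 2) (e2 : c2 j2 = X 2) : cSupp m1 z1 = cSupp m2 z2 := by
  have h4 := cl_mem h1.pos l1
  have h5 := cl_mem h2.pos l2
  have b1 : z1 (cl m1 j1) ∈ prt G R (X 2) := by
    rw [mem_prt, ← e1]; exact ⟨cat_adj_cl h1 l1, h1.unc _ h4.1 h4.2⟩
  have b2 : z2 (cl m2 j2) ∈ prt G R (X 2) := by
    rw [mem_prt, ← e2]; exact ⟨cat_adj_cl h2 l2, h2.unc _ h5.1 h5.2⟩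
  have h6 := Finset.card_le_one.1 (prt_card_lk hG (h.lk 1 le_rfl (by omega)).symm) _ b1 _ b2
  exact cSupp_eq h1 h2 (mem_cSupp h4.1 h4.2) (by rw [h6]; exact mem_cSupp h5.1 h5.2)

lemma Cpl.x2 {m' : ℕ} {c' : ℕ → V} (h : Cpl X r Y m' c') : ∃ j ≤ m' + 1, c' j = X 2 := by
  obtain ⟨rfl, a, b, ha, hb, -, -, hab⟩ := h
  rcases hab with ⟨_, h1⟩ | ⟨h1, _⟩
  · exact ⟨b, by omega, h1⟩
  · exact ⟨a, by omega, h1⟩

/-- **The forbidden sets of a window clean up to couples.** -/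
theorem ekill_clean (hG : ClassC G R) (h : Chn G R r X Y) (hf : OffC G R r X Y f)
    (hcl : CleanC G R r X Y m z) (o : Bool) : ∃ P : Q × Q,
    ∀ m' z' c', Cat G R m' z' c' → cSupp m' z' ≠ cSupp m z → (∃ j ≤ m' + 1, InC r X Y (c' j)) →
      ∃ φ, XKill G R r X Y f o (fun _ _ => 2)
        (fun f' => 2 ≤ r → HasCpl G R r X Y m z → (f' (X 1), f' (X 2)) ≠ P) (cSupp m' z') φ := by
  by_cases hex : 2 ≤ r ∧ HasCpl G R r X Y m z
  · obtain ⟨hr, m0, z0, c0, k1, k2, k3⟩ := hex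
    have hH : HasCpl G R r X Y m z := ⟨m0, z0, c0, k1, k2, k3⟩
    obtain ⟨P, φ0, hφ0⟩ := rkill_couple (f := f) h k1 k3 hr o
    refine ⟨P, fun m' z' c' hC' hne hex => ?_⟩
    obtain ⟨o1, o2⟩ := hcl m' z' c' hC' hne hex
    by_cases hm1 : m' = 1
    · subst hm1
      obtain ⟨φ', hφ'⟩ := rkill_star h hf hC' hex (o1 rfl) o False P
      exact ⟨φ', hφ'.toE _⟩
    · have hm2 : 2 ≤ m' := by have := hC'.pos; omega
      rcases o2 hm2 with ⟨_, h5⟩ | h5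
      · obtain ⟨i1, i2, i3⟩ := h5.x2
        obtain ⟨j1, j2, j3⟩ := k3.x2
        rw [supp_x2 hG h hr hC' k1 i2 j2 i3 j3]
        exact ⟨φ0, hφ0.two, hφ0.late, fun f' e1 e2 e3 e4 => hφ0.ok f' e1 e2 e3 (fun _ => e4 hr hH)⟩
      · obtain ⟨φ', hφ'⟩ := rkill_of_not_nc hG h hf hC' hm2 hex h5 o False P
        exact ⟨φ', hφ'.toE _⟩
  · refine ⟨((false, false, false), (false, false, false)), fun m' z' c' hC' hne hex' => ?_⟩
    obtain ⟨o1, o2⟩ := hcl m' z' c' hC' hne hex'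
    by_cases hm1 : m' = 1
    · subst hm1
      obtain ⟨φ', hφ'⟩ := rkill_star h hf hC' hex' (o1 rfl) o False
        ((false, false, false), (false, false, false))
      exact ⟨φ', hφ'.toE _⟩
    · have hm2 : 2 ≤ m' := by have := hC'.pos; omega
      rcases o2 hm2 with ⟨h4, h5⟩ | h5
      · exact absurd ⟨h4, m', z', c', hC', hne, h5⟩ hex
      · obtain ⟨φ', hφ'⟩ := rkill_of_not_nc hG h hf hC' hm2 hex' h5 o False
          ((false, false, false), (false, false, false))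
        exact ⟨φ', hφ'.toE _⟩

/-- **The window game for a window clean up to couples.** -/
theorem WB.codeC {D : Ty} (w : WB G R r X Y m z c f D) (hr4 : r ≤ 4) (o : Bool) {C : Code}
    (hC : C.r = r) (hend : ∀ v, ¬ Lk G R (X 1) v) (hwall : ∃ v, Lk G R (Y r) v)
    (hcl : CleanC G R r X Y m z) (hcp : 2 ≤ r → HasCpl G R r X Y m z → C.cp = true)
    (hs : ∀ i, 1 ≤ i → i < r → (C.u i).s + 2 * (chg G R r X Y m z o (X i) +
      chg G R r X Y m z o (Y i)) + cnf r X Y m c i ≤ 8)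
    (hs' : (C.u r).s + 2 * (chg G R r X Y m z o (X r) + chg G R r X Y m z o (Y r)) +
      min (cnf r X Y m c r) 1 ≤ 8)
    (htg : ∀ i, 1 ≤ i → i ≤ r → (C.u i).tg = true → (∃ j ≤ m + 1, InU X Y i (c j)) ∧
      ¬ ((InU X Y i (c 0) ∨ InU X Y i (c 1)) ∧ (InU X Y i (c m) ∨ InU X Y i (c (m + 1)))))
    (hph : (∀ i, 1 ≤ i → i ≤ r → (C.u i).ph = lfp X Y m c i) ∨
      ∀ i, 1 ≤ i → i ≤ r → (C.u i).ph = false)
    (hps : ∃ S : Finset Q, S.card ≤ 2 ∧ ∀ mu D', Tight D' (fun j => lbl r X Y mu f (c j)) m →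
      sumU (fun i => (C.u i).ps) mu r ∈ S)
    (hrel : ∀ i, 1 ≤ i → i + 2 ≤ r → RelAt G R X Y i (i + 2) → (C.u i).rel = true)
    (hW : C.Win) : False := by
  obtain ⟨P, hP⟩ := ekill_clean w.hG w.ch w.off hcl o
  refine w.code hr4 o (bd := fun _ _ => 2) (P := P) hC hend hwall (fun _ _ _ _ => by norm_num)
    (fun m' z' c' h1 h2 h3 => ?_) ?_ ?_ htg hph hps hrel hW
  · obtain ⟨φ, hφ⟩ := hP m' z' c' h1 h2 h3
    exact ⟨φ, hφ.bd, hφ.late, fun f' e1 e2 e3 e4 => hφ.ok f' e1 e2 e3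
      (fun g1 g2 => e4 (hcp g1 g2) g1)⟩
  · intro i h1 h2
    rw [chb_two, chb_two]
    have := hs i h1 h2
    omega
  · rw [chb_two, chb_two]
    omega

end CLB.H95
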