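import Mathlib

/-!
Brooks theorem for finite simple graphs (proof of M. Zajac), in a core form: if every nonempty vertex set
all of whose inner degrees are at least `k` has all inner degrees at most `k`, and there is no clique
with `k + 1` vertices, then the graph is `k`-colourable (`k` at least 3).
-/

set_option autoImplicit false

namespace CLB.H95

open Finset

set_option linter.unusedSectionVars false

variable {V : Type*} [DecidableEq V]

open Classical in
/-- Number of neighbours of `v` inside `U`. -/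
noncomputable def dg (G : SimpleGraph V) (U : Finset V) (v : V) : ℕ :=
  (U.filter (fun w => G.Adj v w)).card

/-- `c` is a proper colouring of the vertices of `A`. -/
def Proper (G : SimpleGraph V) {k : ℕ} (A : Finset V) (c : V → Fin k) : Prop :=
  ∀ u ∈ A, ∀ v ∈ A, G.Adj u v → c u ≠ c v

variable {G : SimpleGraph V} {k : ℕ}

open Classical in
lemma free_color {A : Finset V} {c : V → Fin k} {w : V}
    (h : ((A.filter (fun v => G.Adj w v)).image c).card < k) :
    ∃ a : Fin k, ∀ v ∈ A, G.Adj w v → c v ≠ a := by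
  have h1 : ∃ a : Fin k, a ∉ (A.filter (fun v => G.Adj w v)).image c := by
    by_contra hcon
    push Not at hcon
    have : (Finset.univ : Finset (Fin k)) ⊆ (A.filter (fun v => G.Adj w v)).image c :=
      fun a _ => hcon a
    have h2 := Finset.card_le_card this
    rw [Finset.card_univ, Fintype.card_fin] at h2
    omega
  obtain ⟨a, ha⟩ := h1
  refine ⟨a, fun v hv hwv he => ha ?_⟩
  rw [Finset.mem_image]
  exact ⟨v, by rw [Finset.mem_filter]; exact ⟨hv, hwv⟩, he⟩

lemma Proper.mono {A B : Finset V} {c : V → Fin k} (h : Proper G B c) (hAB : A ⊆ B) :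
    Proper G A c := fun u hu v hv => h u (hAB hu) v (hAB hv)

lemma Proper.update {A : Finset V} {c : V → Fin k} (hc : Proper G A c) {w : V} {a : Fin k}
    (hw : w ∉ A) (ha : ∀ v ∈ A, G.Adj w v → c v ≠ a) :
    Proper G (insert w A) (Function.update c w a) := by
  intro u hu v hv huv
  rw [Finset.mem_insert] at hu hv
  rcases hu with rfl | hu <;> rcases hv with rfl | hv
  · exact absurd huv (G.loopless.irrefl _)
  · have hvu : v ≠ u := fun h => hw (h ▸ hv)
    rw [Function.update_self, Function.update_of_ne hvu]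
    exact fun h => ha v hv huv h.symm
  · have hvu : u ≠ v := fun h => hw (h ▸ hu)
    rw [Function.update_self, Function.update_of_ne hvu]
    exact fun h => ha u hu huv.symm h
  · have h1 : u ≠ w := fun h => hw (h ▸ hu)
    have h2 : v ≠ w := fun h => hw (h ▸ hv)
    rw [Function.update_of_ne h1, Function.update_of_ne h2]
    exact hc u hu v hv huv

open Classical in
/-- One greedy step: the vertex `w` has a neighbour in `U` outside `A`. -/
lemma greedy_step {U A : Finset V} {c : V → Fin k} (hc : Proper G A c) (hAU : A ⊆ U) {w z : V}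
    (hwA : w ∉ A) (hd : dg G U w ≤ k) (hzU : z ∈ U) (hzA : z ∉ A) (hwz : G.Adj w z) :
    ∃ a : Fin k, Proper G (insert w A) (Function.update c w a) := by
  have h1 : ((A.filter (fun v => G.Adj w v)).image c).card < k := by
    refine lt_of_le_of_lt Finset.card_image_le ?_
    have h2 : (A.filter (fun v => G.Adj w v)) ⊆ (U.filter (fun v => G.Adj w v)).erase z := by
      intro v hv
      rw [Finset.mem_filter] at hv
      rw [Finset.mem_erase, Finset.mem_filter]
      exact ⟨fun h => hzA (h ▸ hv.1), hAU hv.1, hv.2⟩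
    have h3 := Finset.card_le_card h2
    have hz : z ∈ U.filter (fun v => G.Adj w v) := by
      rw [Finset.mem_filter]; exact ⟨hzU, hwz⟩
    rw [Finset.card_erase_of_mem hz] at h3
    have h4 : 0 < (U.filter (fun v => G.Adj w v)).card := Finset.card_pos.2 ⟨z, hz⟩
    have h5 : (U.filter (fun v => G.Adj w v)).card ≤ k := hd
    omega
  obtain ⟨a, ha⟩ := free_color h1
  exact ⟨a, hc.update hwA ha⟩

/-- Greedy extension along a path towards an uncoloured vertex `z`. -/
lemma greedy_chain {U : Finset V} (hd : ∀ v ∈ U, dg G U v ≤ k) (z : V) (hzU : z ∈ U) :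
    ∀ (L : List V) (A : Finset V) (c : V → Fin k), A ⊆ U → (∀ v ∈ L, v ∈ U) → z ∉ A →
      (∀ v ∈ L, v ∉ A) → (L ++ [z]).Nodup → (L ++ [z]).IsChain G.Adj → Proper G A c →
      ∃ c' : V → Fin k, Proper G (A ∪ L.toFinset) c' ∧ ∀ v ∈ A, c' v = c v := by
  intro L
  induction L with
  | nil =>
    intro A c _ _ _ _ _ _ hc
    exact ⟨c, by simpa using hc, fun v _ => rfl⟩
  | cons w L ih =>
    intro A c hAU hLU hzA hLA hnd hch hc
    rw [List.cons_append] at hnd hch
    rw [List.nodup_cons] at hnd
    -- next vertex of the path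
    obtain ⟨y, hy1, hy2⟩ : ∃ y, G.Adj w y ∧ y ∈ L ++ [z] := by
      cases L with
      | nil =>
        refine ⟨z, ?_, by simp⟩
        simpa using hch
      | cons y L' =>
        refine ⟨y, ?_, by simp⟩
        rw [List.cons_append] at hch
        exact (List.isChain_cons_cons.1 hch).1
    have hyU : y ∈ U := by
      rw [List.mem_append, List.mem_singleton] at hy2
      rcases hy2 with h | h
      · exact hLU y (List.mem_cons_of_mem _ h)
      · exact h ▸ hzU
    have hyA : y ∉ A := by
      rw [List.mem_append, List.mem_singleton] at hy2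
      rcases hy2 with h | h
      · exact hLA y (List.mem_cons_of_mem _ h)
      · exact h ▸ hzA
    have hwA : w ∉ A := hLA w List.mem_cons_self
    obtain ⟨a, ha⟩ := greedy_step hc hAU hwA (hd w (hLU w List.mem_cons_self)) hyU hyA hy1
    have hwz : z ≠ w := by
      intro h
      exact hnd.1 (by simp [h])
    obtain ⟨c', hc'1, hc'2⟩ := ih (insert w A) (Function.update c w a)
      (Finset.insert_subset (hLU w List.mem_cons_self) hAU)
      (fun v hv => hLU v (List.mem_cons_of_mem _ hv))
      (by rw [Finset.mem_insert]; push Not; exact ⟨hwz, hzA⟩)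
      (fun v hv => by
        rw [Finset.mem_insert]; push Not
        refine ⟨fun h => hnd.1 ?_, hLA v (List.mem_cons_of_mem _ hv)⟩
        rw [List.mem_append]; left; exact h ▸ hv)
      hnd.2 (List.IsChain.of_cons hch) ha
    refine ⟨c', ?_, ?_⟩
    · refine hc'1.mono ?_
      intro v hv
      simp only [List.toFinset_cons, Finset.mem_union, Finset.mem_insert] at hv ⊢
      tauto
    · intro v hv
      have hvw : v ≠ w := fun h => hwA (h ▸ hv)
      rw [hc'2 v (Finset.mem_insert_of_mem hv), Function.update_of_ne hvw]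

open Classical in
/-- Last step: `w` has two neighbours with the same colour. -/
lemma last_step {U A : Finset V} {c : V → Fin k} (hc : Proper G A c) (hAU : A ⊆ U) {w x y : V}
    (hwA : w ∉ A) (hd : dg G U w ≤ k) (hx : x ∈ A) (hy : y ∈ A) (hxy : x ≠ y)
    (hwx : G.Adj w x) (hwy : G.Adj w y) (hcol : c x = c y) :
    ∃ a : Fin k, Proper G (insert w A) (Function.update c w a) := by
  have h1 : ((A.filter (fun v => G.Adj w v)).image c).card < k := by
    have hxm : x ∈ A.filter (fun v => G.Adj w v) := by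
      rw [Finset.mem_filter]; exact ⟨hx, hwx⟩
    have hym : y ∈ (A.filter (fun v => G.Adj w v)).erase x := by
      rw [Finset.mem_erase, Finset.mem_filter]; exact ⟨hxy.symm, hy, hwy⟩
    have h2 : (A.filter (fun v => G.Adj w v)).image c ⊆
        ((A.filter (fun v => G.Adj w v)).erase x).image c := by
      intro a ha
      rw [Finset.mem_image] at ha ⊢
      obtain ⟨v, hv, rfl⟩ := ha
      by_cases hvx : v = x
      · exact ⟨y, hym, by rw [hvx]; exact hcol.symm⟩
      · exact ⟨v, by rw [Finset.mem_erase]; exact ⟨hvx, hv⟩, rfl⟩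
    have h3 := (Finset.card_le_card h2).trans Finset.card_image_le
    rw [Finset.card_erase_of_mem hxm] at h3
    have h4 : (A.filter (fun v => G.Adj w v)).card ≤ (U.filter (fun v => G.Adj w v)).card := by
      apply Finset.card_le_card
      intro v hv
      rw [Finset.mem_filter] at hv ⊢
      exact ⟨hAU hv.1, hv.2⟩
    have h5 : (U.filter (fun v => G.Adj w v)).card ≤ k := hd
    have h6 : 0 < (A.filter (fun v => G.Adj w v)).card := Finset.card_pos.2 ⟨x, hxm⟩
    omega
  obtain ⟨a, ha⟩ := free_color h1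
  exact ⟨a, hc.update hwA ha⟩

/-- Last element of a list with a property. -/
lemma exists_last {α : Type*} (p : α → Prop) :
    ∀ l : List α, (∃ y ∈ l, p y) → ∃ M y R, l = M ++ y :: R ∧ p y ∧ ∀ z ∈ R, ¬ p z := by
  intro l
  induction l with
  | nil => rintro ⟨y, hy, _⟩; simp at hy
  | cons a l ih =>
    rintro ⟨y, hy, hpy⟩
    by_cases h : ∃ y ∈ l, p y
    · obtain ⟨M, y', R, h1, h2, h3⟩ := ih h
      exact ⟨a :: M, y', R, by rw [h1]; rfl, h2, h3⟩
    · push Not at h
      rw [List.mem_cons] at hy
      rcases hy with rfl | hy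
      · exact ⟨[], y, l, rfl, hpy, h⟩
      · exact absurd hpy (h y hy)

/-- First change from `not q` to `q` along a list. -/
lemma exists_switch {α : Type*} (q : α → Prop) :
    ∀ (l : List α) (h : α), ¬ q h → (∃ y ∈ l, q y) →
      ∃ C1 v u C2, h :: l = C1 ++ v :: u :: C2 ∧ ¬ q v ∧ q u := by
  intro l
  induction l with
  | nil => rintro h _ ⟨y, hy, _⟩; simp at hy
  | cons a l ih =>
    rintro h hh ⟨y, hy, hqy⟩
    by_cases ha : q a
    · exact ⟨[], h, a, l, rfl, hh, ha⟩
    · have : ∃ y ∈ l, q y := by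
        rw [List.mem_cons] at hy
        rcases hy with rfl | hy
        · exact absurd hqy ha
        · exact ⟨y, hy, hqy⟩
      obtain ⟨C1, v, u, C2, h1, h2, h3⟩ := ih a ha this
      exact ⟨h :: C1, v, u, C2, by rw [h1]; rfl, h2, h3⟩

/-- A maximal path (written backwards) extending a given path. -/
lemma exists_max_path {U : Finset V} (base : List V) (hb : base ≠ []) (hnd : base.Nodup)
    (hch : base.IsChain G.Adj) (hU : ∀ v ∈ base, v ∈ U) :
    ∃ (s : List V) (h : V) (l' : List V), s ++ base = h :: l' ∧ (h :: l').Nodup ∧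
      (h :: l').IsChain G.Adj ∧ (∀ v ∈ h :: l', v ∈ U) ∧ ∀ y ∈ U, G.Adj h y → y ∈ h :: l' := by
  by_contra hcon
  push Not at hcon
  have key : ∀ n : ℕ, ∃ (s : List V) (h : V) (l' : List V), s ++ base = h :: l' ∧
      (h :: l').Nodup ∧ (h :: l').IsChain G.Adj ∧ (∀ v ∈ h :: l', v ∈ U) ∧
      n ≤ (h :: l').length := by
    intro n
    induction n with
    | zero =>
      obtain ⟨h, l', hl⟩ := List.exists_cons_of_ne_nil hb
      exact ⟨[], h, l', by simpa using hl, hl ▸ hnd, hl ▸ hch, hl ▸ hU, Nat.zero_le _⟩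
    | succ n ih =>
      obtain ⟨s, h, l', h1, h2, h3, h4, h5⟩ := ih
      obtain ⟨y, hyU, hhy, hyl⟩ := hcon s h l' h1 h2 h3 h4
      refine ⟨y :: s, y, h :: l', ?_, ?_, ?_, ?_, ?_⟩
      · rw [List.cons_append, h1]
      · rw [List.nodup_cons]; exact ⟨hyl, h2⟩
      · rw [List.isChain_cons_cons]; exact ⟨hhy.symm, h3⟩
      · intro v hv
        rw [List.mem_cons] at hv
        rcases hv with rfl | hv
        · exact hyU
        · exact h4 v hv
      · rw [List.length_cons]; omega
  obtain ⟨s, h, l', _, h2, _, h4, h5⟩ := key (U.card + 1)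
  have h6 : (h :: l').toFinset.card = (h :: l').length := List.toFinset_card_of_nodup h2
  have h7 : (h :: l').toFinset ⊆ U := by
    intro v hv
    rw [List.mem_toFinset] at hv
    exact h4 v hv
  have := Finset.card_le_card h7
  omega

/-- The Hamiltonian type case: the path is closed off from the rest. -/
lemma case_one {U : Finset V} (hd : ∀ v ∈ U, dg G U v ≤ k) {x1 x2 x3 xj : V} {s1 s2 : List V}
    (hk : 0 < k)
    (IH : ∀ W : Finset V, W ⊂ U → ∃ c : V → Fin k, Proper G W c)
    (hnd : (s1 ++ xj :: s2 ++ [x3, x2, x1]).Nodup)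
    (hch : (s1 ++ xj :: s2 ++ [x3, x2, x1]).IsChain G.Adj)
    (hU : ∀ v ∈ s1 ++ xj :: s2 ++ [x3, x2, x1], v ∈ U)
    (h13 : ¬ G.Adj x1 x3) (h2j : G.Adj x2 xj)
    (hout : ∀ u ∈ s1 ++ xj :: s2 ++ [x3, x2, x1], ∀ v ∈ U,
      v ∉ s1 ++ xj :: s2 ++ [x3, x2, x1] → ¬ G.Adj u v) :
    ∃ c : V → Fin k, Proper G U c := by
  set l := s1 ++ xj :: s2 ++ [x3, x2, x1] with hl
  have hx1l : x1 ∈ l := by rw [hl]; simp
  have hx2l : x2 ∈ l := by rw [hl]; simp
  have hx3l : x3 ∈ l := by rw [hl]; simp
  have hxjl : xj ∈ l := by rw [hl]; simp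
  have hs1l : ∀ v ∈ s1, v ∈ l := by intro v hv; rw [hl]; simp [hv]
  have hs2l : ∀ v ∈ s2, v ∈ l := by intro v hv; rw [hl]; simp [hv]
  have hnd' := hnd
  have hch' := hch
  rw [hl] at hnd hch
  simp only [List.nodup_append, List.nodup_cons, List.mem_append, List.mem_cons,
    List.not_mem_nil, or_false, List.append_assoc, List.cons_append] at hnd
  obtain ⟨hnd1, ⟨hxj, hnd2, hnd3, hnd4⟩, hnd5⟩ := hnd
  have e1 : s1 ++ xj :: s2 ++ [x3, x2, x1] = s1 ++ (xj :: s2 ++ [x3, x2, x1]) := by simp
  rw [e1] at hch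
  have hchA := (List.isChain_append.1 hch)
  -- chain of `s1 ++ [xj]`
  have hch1 : (s1 ++ [xj]).IsChain G.Adj := by
    rw [List.isChain_append]
    refine ⟨hchA.1, List.isChain_singleton _, ?_⟩
    intro x hx y hy
    exact hchA.2.2 x hx y (by simpa using hy)
  have hchB := (List.isChain_append.1 hchA.2.1)
  have hch2 : (xj :: s2).IsChain G.Adj := hchB.1
  have hsymm : (fun a b => G.Adj b a) = G.Adj := by
    funext a b; exact propext ⟨fun h => h.symm, fun h => h.symm⟩
  have hch3 : (s2.reverse ++ [xj]).IsChain G.Adj := by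
    rw [← List.reverse_cons, List.isChain_reverse, hsymm]
    exact hch2
  have hch4 : (s1 ++ [xj] ++ [x2]).IsChain G.Adj := by
    rw [List.isChain_append]
    refine ⟨hch1, List.isChain_singleton _, ?_⟩
    intro x hx y hy
    simp at hx hy
    subst hx; subst hy
    exact h2j.symm
  -- sizes
  have hPU : l.toFinset ⊆ U := by
    intro v hv; rw [List.mem_toFinset] at hv; exact hU v hv
  have hss : U \ l.toFinset ⊂ U := by
    rw [Finset.ssubset_iff_subset_ne]
    refine ⟨Finset.sdiff_subset, fun h => ?_⟩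
    have h2 := hU x1 hx1l
    rw [← h] at h2
    simp only [Finset.mem_sdiff, List.mem_toFinset] at h2
    exact h2.2 hx1l
  obtain ⟨c0, hc0⟩ := IH _ hss
  have hA0 : ∀ v ∈ U \ l.toFinset, v ∈ U ∧ v ∉ l := by
    intro v hv
    simpa only [Finset.mem_sdiff, List.mem_toFinset] using hv
  set a0 : Fin k := ⟨0, hk⟩ with ha0
  have hx1A : x1 ∉ U \ l.toFinset := fun h => (hA0 _ h).2 hx1l
  have hp1 : Proper G (insert x1 (U \ l.toFinset)) (Function.update c0 x1 a0) :=
    hc0.update hx1A (fun v hv h => absurd h (hout x1 hx1l v (hA0 v hv).1 (hA0 v hv).2))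
  have hne31 : x3 ≠ x1 := by
    intro h
    have := hnd3.1
    rw [h] at this
    simp at this
  have hx3A : x3 ∉ insert x1 (U \ l.toFinset) := by
    rw [Finset.mem_insert]; push Not
    exact ⟨hne31, fun h => (hA0 _ h).2 hx3l⟩
  have hp2 : Proper G (insert x3 (insert x1 (U \ l.toFinset)))
      (Function.update (Function.update c0 x1 a0) x3 a0) := by
    refine hp1.update hx3A ?_
    intro v hv h
    rw [Finset.mem_insert] at hv
    rcases hv with rfl | hv
    · exact absurd h.symm h13
    · exact absurd h (hout x3 hx3l v (hA0 v hv).1 (hA0 v hv).2)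
  set A2 := insert x3 (insert x1 (U \ l.toFinset)) with hA2
  have hA2U : A2 ⊆ U := by
    rw [hA2]
    refine Finset.insert_subset (hU _ hx3l) (Finset.insert_subset (hU _ hx1l) Finset.sdiff_subset)
  have hA2l : ∀ v ∈ A2, v ∈ l → v = x3 ∨ v = x1 := by
    intro v hv hvl
    rw [hA2, Finset.mem_insert, Finset.mem_insert] at hv
    rcases hv with h | h | h
    · exact Or.inl h
    · exact Or.inr h
    · exact absurd hvl (hA0 v h).2
  -- distinctness facts
  have hd2 : ∀ v ∈ s2, v ≠ x3 ∧ v ≠ x2 ∧ v ≠ x1 := by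
    intro v hv
    exact ⟨hnd4 v hv x3 (by simp), hnd4 v hv x2 (by simp), hnd4 v hv x1 (by simp)⟩
  have hdj : xj ≠ x3 ∧ xj ≠ x2 ∧ xj ≠ x1 ∧ xj ∉ s2 := by
    push Not at hxj
    exact ⟨hxj.2.1, hxj.2.2.1, hxj.2.2.2, hxj.1⟩
  have hd1 : ∀ v ∈ s1, v ≠ xj ∧ v ∉ s2 ∧ v ≠ x3 ∧ v ≠ x2 ∧ v ≠ x1 := by
    intro v hv
    refine ⟨hnd5 v hv xj (by simp), fun h => hnd5 v hv v (by simp [h]) rfl,
      hnd5 v hv x3 (by simp), hnd5 v hv x2 (by simp), hnd5 v hv x1 (by simp)⟩
  have hne23 : x2 ≠ x3 ∧ x2 ≠ x1 := by
    have h1 := hnd3.1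
    have h2 := hnd3.2.1
    push Not at h1 h2
    exact ⟨fun h => h1.1 h.symm, h2⟩
  -- first greedy run
  obtain ⟨c3, hc3, hc3'⟩ := greedy_chain hd xj (hU _ hxjl) s2.reverse A2 _ hA2U
    (fun v hv => hU v (hs2l v (List.mem_reverse.1 hv)))
    (fun h => by
      rcases hA2l xj h hxjl with h | h
      · exact hdj.1 h
      · exact hdj.2.2.1 h)
    (fun v hv h => by
      have hv' := List.mem_reverse.1 hv
      rcases hA2l v h (hs2l v hv') with h | h
      · exact (hd2 v hv').1 h
      · exact (hd2 v hv').2.2 h)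
    (by
      rw [← List.reverse_cons, List.nodup_reverse, List.nodup_cons]
      exact ⟨hdj.2.2.2, hnd2⟩)
    hch3 hp2
  -- second greedy run
  have hA3U : A2 ∪ s2.reverse.toFinset ⊆ U := by
    apply Finset.union_subset hA2U
    intro v hv
    rw [List.mem_toFinset, List.mem_reverse] at hv
    exact hU v (hs2l v hv)
  have hx2A3 : x2 ∉ A2 ∪ s2.reverse.toFinset := by
    rw [Finset.mem_union, List.mem_toFinset, List.mem_reverse]
    rintro (h | h)
    · rcases hA2l x2 h hx2l with h | h
      · exact hne23.1 h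
      · exact hne23.2 h
    · exact (hd2 _ h).2.1 rfl
  obtain ⟨c4, hc4, hc4'⟩ := greedy_chain hd x2 (hU _ hx2l) (s1 ++ [xj])
    (A2 ∪ s2.reverse.toFinset) c3 hA3U
    (fun v hv => by
      rw [List.mem_append, List.mem_singleton] at hv
      rcases hv with h | h
      · exact hU v (hs1l v h)
      · exact h ▸ hU _ hxjl)
    hx2A3
    (fun v hv h => by
      rw [List.mem_append, List.mem_singleton] at hv
      rw [Finset.mem_union, List.mem_toFinset, List.mem_reverse] at h
      rcases hv with hv | hv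
      · rcases h with h | h
        · rcases hA2l v h (hs1l v hv) with h | h
          · exact (hd1 v hv).2.2.1 h
          · exact (hd1 v hv).2.2.2.2 h
        · exact (hd1 v hv).2.1 h
      · subst hv
        rcases h with h | h
        · rcases hA2l v h hxjl with h | h
          · exact hdj.1 h
          · exact hdj.2.2.1 h
        · exact hdj.2.2.2 h)
    (by
      rw [List.append_assoc, List.nodup_append]
      refine ⟨hnd1, by simp [hdj.2.1], ?_⟩
      intro a ha b hb
      simp only [List.singleton_append, List.mem_cons, List.not_mem_nil, or_false] at hb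
      rcases hb with rfl | rfl
      · exact (hd1 a ha).1
      · exact (hd1 a ha).2.2.2.1)
    hch4 hc3
  have hx1A2 : x1 ∈ A2 := by rw [hA2]; simp
  have hx3A2 : x3 ∈ A2 := by rw [hA2]; simp
  have hx1A3 : x1 ∈ A2 ∪ s2.reverse.toFinset := Finset.mem_union_left _ hx1A2
  have hx3A3 : x3 ∈ A2 ∪ s2.reverse.toFinset := Finset.mem_union_left _ hx3A2
  have hcol : c4 x1 = c4 x3 := by
    rw [hc4' x1 hx1A3, hc4' x3 hx3A3, hc3' x1 hx1A2, hc3' x3 hx3A2, Function.update_self,
      Function.update_of_ne hne31.symm, Function.update_self]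
  have hA4U : A2 ∪ s2.reverse.toFinset ∪ (s1 ++ [xj]).toFinset ⊆ U := by
    apply Finset.union_subset hA3U
    intro v hv
    rw [List.mem_toFinset, List.mem_append, List.mem_singleton] at hv
    rcases hv with h | h
    · exact hU v (hs1l v h)
    · exact h ▸ hU _ hxjl
  have hx2A4 : x2 ∉ A2 ∪ s2.reverse.toFinset ∪ (s1 ++ [xj]).toFinset := by
    rw [Finset.mem_union]
    rintro (h | h)
    · exact hx2A3 h
    · rw [List.mem_toFinset, List.mem_append, List.mem_singleton] at h
      rcases h with h | h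
      · exact (hd1 _ h).2.2.2.1 rfl
      · exact hdj.2.1 h.symm
  have hadj21 : G.Adj x2 x1 := by
    have := hchB.2.1
    rw [List.isChain_cons_cons, List.isChain_cons_cons] at this
    exact this.2.1
  have hadj23 : G.Adj x2 x3 := by
    have := hchB.2.1
    rw [List.isChain_cons_cons] at this
    exact this.1.symm
  obtain ⟨a, ha⟩ := last_step hc4 hA4U hx2A4 (hd _ (hU _ hx2l))
    (Finset.mem_union_left _ hx1A3) (Finset.mem_union_left _ hx3A3) hne31.symm hadj21 hadj23 hcol
  refine ⟨_, ha.mono ?_⟩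
  intro v hv
  by_cases hvl : v ∈ l
  · rw [hl] at hvl
    simp only [List.mem_append, List.mem_cons, List.not_mem_nil, or_false] at hvl
    have m2 : ∀ w ∈ A2, w ∈ insert x2 (A2 ∪ s2.reverse.toFinset ∪ (s1 ++ [xj]).toFinset) :=
      fun w hw => Finset.mem_insert_of_mem (Finset.mem_union_left _ (Finset.mem_union_left _ hw))
    rcases hvl with (h | h | h) | h | h | h
    · exact Finset.mem_insert_of_mem (Finset.mem_union_right _
        (List.mem_toFinset.2 (List.mem_append_left _ h)))
    · exact Finset.mem_insert_of_mem (Finset.mem_union_right _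
        (List.mem_toFinset.2 (List.mem_append_right _ (by simp [h]))))
    · exact Finset.mem_insert_of_mem (Finset.mem_union_left _ (Finset.mem_union_right _
        (List.mem_toFinset.2 (List.mem_reverse.2 h))))
    · exact m2 v (h ▸ hx3A2)
    · rw [h]; exact Finset.mem_insert_self _ _
    · exact m2 v (h ▸ hx1A2)
  · have h1 : v ∈ U \ l.toFinset := by
      rw [Finset.mem_sdiff, List.mem_toFinset]; exact ⟨hv, hvl⟩
    have h2 : v ∈ A2 := by
      rw [hA2]; exact Finset.mem_insert_of_mem (Finset.mem_insert_of_mem h1)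
    exact Finset.mem_insert_of_mem (Finset.mem_union_left _ (Finset.mem_union_left _ h2))

/-- The cycle case: the set of the cycle `h :: ...` where `v` has no outside neighbour and the next
vertex `u` has one. -/
lemma case_two {U : Finset V} (hd : ∀ v ∈ U, dg G U v ≤ k) {C1 C2 : List V} {v u y : V}
    (IH : ∀ W : Finset V, W ⊂ U → ∃ c : V → Fin k, Proper G W c)
    (hnd : (C1 ++ v :: u :: C2).Nodup)
    (hch : (C1 ++ v :: u :: C2).IsChain G.Adj)
    (hcl : ∀ a ∈ (C1 ++ v :: u :: C2).head?, ∀ b ∈ (C1 ++ v :: u :: C2).getLast?, G.Adj a b)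
    (hU : ∀ w ∈ C1 ++ v :: u :: C2, w ∈ U)
    (hvout : ∀ w ∈ U, w ∉ C1 ++ v :: u :: C2 → ¬ G.Adj v w)
    (hyU : y ∈ U) (hyC : y ∉ C1 ++ v :: u :: C2) (huy : G.Adj u y) :
    ∃ c : V → Fin k, Proper G U c := by
  set l := C1 ++ v :: u :: C2 with hl
  have hvl : v ∈ l := by rw [hl]; simp
  have hul : u ∈ l := by rw [hl]; simp
  have hC1l : ∀ w ∈ C1, w ∈ l := by intro w hw; rw [hl]; simp [hw]
  have hC2l : ∀ w ∈ C2, w ∈ l := by intro w hw; rw [hl]; simp [hw]
  have hnd' := hnd
  rw [hl] at hnd hch
  have hchA := List.isChain_append.1 hch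
  have hchB := List.isChain_cons_cons.1 hchA.2.1
  simp only [List.nodup_append, List.nodup_cons, List.mem_cons] at hnd
  obtain ⟨hnd1, ⟨hv1, hu1, hnd2⟩, hnd5⟩ := hnd
  push Not at hv1
  have hsymm : (fun a b => G.Adj b a) = G.Adj := by
    funext a b; exact propext ⟨fun h => h.symm, fun h => h.symm⟩
  have hss : U \ l.toFinset ⊂ U := by
    rw [Finset.ssubset_iff_subset_ne]
    refine ⟨Finset.sdiff_subset, fun h => ?_⟩
    have h2 := hU v hvl
    rw [← h] at h2
    simp only [Finset.mem_sdiff, List.mem_toFinset] at h2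
    exact h2.2 hvl
  obtain ⟨c0, hc0⟩ := IH _ hss
  have hA0 : ∀ w ∈ U \ l.toFinset, w ∈ U ∧ w ∉ l := by
    intro w hw
    simpa only [Finset.mem_sdiff, List.mem_toFinset] using hw
  have hvA : v ∉ U \ l.toFinset := fun h => (hA0 _ h).2 hvl
  have hp1 : Proper G (insert v (U \ l.toFinset)) (Function.update c0 v (c0 y)) :=
    hc0.update hvA (fun w hw h => absurd h (hvout w (hA0 w hw).1 (hA0 w hw).2))
  set A1 := insert v (U \ l.toFinset) with hA1
  have hA1U : A1 ⊆ U := by
    rw [hA1]; exact Finset.insert_subset (hU _ hvl) Finset.sdiff_subset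
  have hA1l : ∀ w ∈ A1, w ∈ l → w = v := by
    intro w hw hwl
    rw [hA1, Finset.mem_insert] at hw
    rcases hw with h | h
    · exact h
    · exact absurd hwl (hA0 w h).2
  have hL : ∀ w ∈ C1.reverse ++ C2.reverse, w ∈ l ∧ w ≠ v ∧ w ≠ u := by
    intro w hw
    rw [List.mem_append, List.mem_reverse, List.mem_reverse] at hw
    rcases hw with hw | hw
    · exact ⟨hC1l w hw, hnd5 w hw v (by simp), hnd5 w hw u (by simp)⟩
    · refine ⟨hC2l w hw, fun h => hv1.2 (h ▸ hw), fun h => hu1 (h ▸ hw)⟩
  have hchL : (C1.reverse ++ C2.reverse ++ [u]).IsChain G.Adj := by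
    rw [List.append_assoc, ← List.reverse_cons, List.isChain_append]
    refine ⟨?_, ?_, ?_⟩
    · rw [List.isChain_reverse, hsymm]; exact hchA.1
    · rw [List.isChain_reverse, hsymm]; exact hchB.2
    · intro a ha b hb
      rw [List.getLast?_reverse] at ha
      rw [List.head?_reverse] at hb
      refine hcl a ?_ b ?_
      · cases C1 with
        | nil => simp at ha
        | cons p C1' => simpa [hl] using ha
      · rw [hl, List.getLast?_append, List.getLast?_cons_cons]
        simp only [Option.mem_def] at hb ⊢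
        rw [hb]; rfl
  have hndL : (C1.reverse ++ C2.reverse ++ [u]).Nodup := by
    rw [List.append_assoc, ← List.reverse_cons, List.nodup_append]
    refine ⟨List.nodup_reverse.2 hnd1, List.nodup_reverse.2 ?_, ?_⟩
    · rw [List.nodup_cons]; exact ⟨hu1, hnd2⟩
    · intro a ha b hb
      rw [List.mem_reverse] at ha hb
      refine hnd5 a ha b ?_
      rw [List.mem_cons] at hb
      right; exact hb
  have hne : u ≠ v := fun h => hv1.1 h.symm
  obtain ⟨c3, hc3, hc3'⟩ := greedy_chain hd u (hU _ hul) (C1.reverse ++ C2.reverse) A1 _ hA1U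
    (fun w hw => hU w (hL w hw).1)
    (fun h => hne (hA1l u h hul))
    (fun w hw h => (hL w hw).2.1 (hA1l w h (hL w hw).1))
    hndL hchL hp1
  have hA3U : A1 ∪ (C1.reverse ++ C2.reverse).toFinset ⊆ U := by
    apply Finset.union_subset hA1U
    intro w hw
    rw [List.mem_toFinset] at hw
    exact hU w (hL w hw).1
  have huA3 : u ∉ A1 ∪ (C1.reverse ++ C2.reverse).toFinset := by
    rw [Finset.mem_union, List.mem_toFinset]
    rintro (h | h)
    · exact hne (hA1l u h hul)
    · exact (hL u h).2.2 rfl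
  have hyA1 : y ∈ A1 := by
    rw [hA1]
    apply Finset.mem_insert_of_mem
    rw [Finset.mem_sdiff, List.mem_toFinset]
    exact ⟨hyU, hyC⟩
  have hvA1 : v ∈ A1 := by rw [hA1]; exact Finset.mem_insert_self _ _
  have hvy : v ≠ y := fun h => hyC (h ▸ hvl)
  have hcol : c3 v = c3 y := by
    rw [hc3' v hvA1, hc3' y hyA1, Function.update_self, Function.update_of_ne hvy.symm]
  obtain ⟨a, ha⟩ := last_step hc3 hA3U huA3 (hd _ (hU _ hul))
    (Finset.mem_union_left _ hvA1) (Finset.mem_union_left _ hyA1) hvy hchB.1.symm huy hcol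
  refine ⟨_, ha.mono ?_⟩
  intro w hw
  by_cases hwl : w ∈ l
  · rw [hl] at hwl
    simp only [List.mem_append, List.mem_cons] at hwl
    rcases hwl with h | h | h | h
    · exact Finset.mem_insert_of_mem (Finset.mem_union_right _
        (List.mem_toFinset.2 (List.mem_append_left _ (List.mem_reverse.2 h))))
    · exact Finset.mem_insert_of_mem (Finset.mem_union_left _ (h ▸ hvA1))
    · rw [h]; exact Finset.mem_insert_self _ _
    · exact Finset.mem_insert_of_mem (Finset.mem_union_right _
        (List.mem_toFinset.2 (List.mem_append_right _ (List.mem_reverse.2 h))))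
  · have h1 : w ∈ U \ l.toFinset := by
      rw [Finset.mem_sdiff, List.mem_toFinset]; exact ⟨hw, hwl⟩
    exact Finset.mem_insert_of_mem (Finset.mem_union_left _
      (by rw [hA1]; exact Finset.mem_insert_of_mem h1))

open Classical in
/-- Regular case of Brooks. -/
lemma regular_case {U : Finset V} (hk : 3 ≤ k) (hne : U.Nonempty)
    (hd : ∀ v ∈ U, dg G U v = k)
    (IH : ∀ W : Finset V, W ⊂ U → ∃ c : V → Fin k, Proper G W c)
    (hK : ∀ W : Finset V, W ⊆ U → W.card = k + 1 → ¬ (W : Set V).Pairwise G.Adj) :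
    ∃ c : V → Fin k, Proper G U c := by
  obtain ⟨x2, hx2⟩ := hne
  have hd' : ∀ v ∈ U, dg G U v ≤ k := fun v hv => (hd v hv).le
  have hcard : (U.filter (fun w => G.Adj x2 w)).card = k := hd x2 hx2
  -- two nonadjacent neighbours of x2
  obtain ⟨x1, hx1, x3, hx3, h13, h13'⟩ : ∃ x1 ∈ U.filter (fun w => G.Adj x2 w),
      ∃ x3 ∈ U.filter (fun w => G.Adj x2 w), x1 ≠ x3 ∧ ¬ G.Adj x1 x3 := by
    by_contra hcon
    push Not at hcon
    refine hK (insert x2 (U.filter (fun w => G.Adj x2 w))) ?_ ?_ ?_
    · exact Finset.insert_subset hx2 (Finset.filter_subset _ _)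
    · rw [Finset.card_insert_of_notMem, hcard]
      rw [Finset.mem_filter]
      exact fun h => G.loopless.irrefl _ h.2
    · intro a ha b hb hab
      rw [Finset.mem_coe, Finset.mem_insert] at ha hb
      rcases ha with rfl | ha <;> rcases hb with rfl | hb
      · exact absurd rfl hab
      · exact (Finset.mem_filter.1 hb).2
      · exact (Finset.mem_filter.1 ha).2.symm
      · exact hcon a ha b hb hab
  rw [Finset.mem_filter] at hx1 hx3
  have hx12 : x1 ≠ x2 := fun h => G.loopless.irrefl x2 (by simpa [h] using hx1.2)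
  have hx32 : x3 ≠ x2 := fun h => G.loopless.irrefl x2 (by simpa [h] using hx3.2)
  obtain ⟨s, h, l', e1, e2, e3, e4, e5⟩ := exists_max_path (G := G) (U := U) [x3, x2, x1]
    (by simp) (by simp [h13.symm, hx32, hx12.symm])
    (by simp [hx3.2.symm, hx1.2])
    (by intro v hv; simp at hv; rcases hv with rfl | rfl | rfl
        · exact hx3.1
        · exact hx2
        · exact hx1.1)
  by_cases hout : ∀ u ∈ h :: l', ∀ v ∈ U, v ∉ h :: l' → ¬ G.Adj u v
  · -- case one
    obtain ⟨xj, hxj⟩ : ∃ xj ∈ U, G.Adj x2 xj ∧ xj ≠ x1 ∧ xj ≠ x3 := by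
      have h3 : 0 < (((U.filter (fun w => G.Adj x2 w)).erase x1).erase x3).card := by
        rw [Finset.card_erase_of_mem, Finset.card_erase_of_mem, hcard]
        · omega
        · rw [Finset.mem_filter]; exact hx1
        · rw [Finset.mem_erase, Finset.mem_filter]; exact ⟨h13.symm, hx3⟩
      obtain ⟨xj, hxj⟩ := Finset.card_pos.1 h3
      rw [Finset.mem_erase, Finset.mem_erase, Finset.mem_filter] at hxj
      exact ⟨xj, hxj.2.2.1, hxj.2.2.2, hxj.2.1, hxj.1⟩
    have hx2l : x2 ∈ h :: l' := by rw [← e1]; simp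
    have hxjl : xj ∈ h :: l' := by
      by_contra hcon
      exact hout x2 hx2l xj hxj.1 hcon hxj.2.1
    have hxj2 : xj ≠ x2 := fun h => G.loopless.irrefl x2 (by simpa [h] using hxj.2.1)
    rw [← e1, List.mem_append] at hxjl
    have hxjs : xj ∈ s := by
      rcases hxjl with h | h
      · exact h
      · simp at h
        rcases h with h | h | h
        · exact absurd h hxj.2.2.2
        · exact absurd h hxj2
        · exact absurd h hxj.2.2.1
    obtain ⟨s1, s2, hs⟩ := List.append_of_mem hxjs
    have e1' : s1 ++ xj :: s2 ++ [x3, x2, x1] = h :: l' := by rw [← e1, hs]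
    refine case_one (xj := xj) (s1 := s1) (s2 := s2) (x1 := x1) (x2 := x2) (x3 := x3) hd'
      (by omega) IH ?_ ?_ ?_ h13' hxj.2.1 ?_
    · rw [e1']; exact e2
    · rw [e1']; exact e3
    · rw [e1']; exact e4
    · rw [e1']; exact hout
  · -- case two
    push Not at hout
    obtain ⟨p, hp, q, hq, hql, hpq⟩ := hout
    -- neighbour of h farthest along the path
    have hl'ne : ∃ y ∈ l', G.Adj h y := by
      cases l' with
      | nil =>
        exfalso
        have := congrArg List.length e1
        simp at this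
      | cons z l'' =>
        exact ⟨z, List.mem_cons_self, (List.isChain_cons_cons.1 e3).1⟩
    obtain ⟨M, xj, R, h1, h2, h3⟩ := exists_last (fun y => G.Adj h y) l' hl'ne
    have eC : h :: l' = (h :: (M ++ [xj])) ++ R := by rw [h1]; simp
    have hndC : (h :: (M ++ [xj])).Nodup := by
      rw [eC] at e2
      exact (List.nodup_append.1 e2).1
    have hchC : (h :: (M ++ [xj])).IsChain G.Adj := by
      rw [eC] at e3
      exact (List.isChain_append.1 e3).1
    have hCl : ∀ w ∈ h :: (M ++ [xj]), w ∈ h :: l' := by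
      intro w hw; rw [eC]; exact List.mem_append_left _ hw
    have hCR : ∀ w ∈ R, w ∉ h :: (M ++ [xj]) := by
      intro w hw hw'
      rw [eC] at e2
      exact (List.nodup_append.1 e2).2.2 w hw' w hw rfl
    -- h has no outside neighbour
    have hhout : ∀ w ∈ U, w ∉ h :: (M ++ [xj]) → ¬ G.Adj h w := by
      intro w hwU hwC hhw
      have h5 := e5 w hwU hhw
      rw [eC, List.mem_append] at h5
      rcases h5 with h5 | h5
      · exact hwC h5
      · exact h3 w h5 hhw
    -- somebody has an outside neighbour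
    have hsome : ∃ u ∈ M ++ [xj], ∃ y ∈ U, y ∉ h :: (M ++ [xj]) ∧ G.Adj u y := by
      by_cases hR : R = []
      · subst hR
        rw [List.append_nil] at eC
        rw [eC] at hp hql
        rw [List.mem_cons] at hp
        rcases hp with rfl | hp
        · exact absurd hpq (hhout q hq hql)
        · exact ⟨p, hp, q, hq, hql, hpq⟩
      · obtain ⟨z, R', hR'⟩ := List.exists_cons_of_ne_nil hR
        refine ⟨xj, by simp, z, e4 z (by rw [eC, hR']; simp), hCR z (by rw [hR']; simp), ?_⟩
        rw [eC, hR'] at e3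
        refine (List.isChain_append.1 e3).2.2 xj ?_ z (by simp)
        rw [List.getLast?_cons, List.getLast?_append]
        simp
    obtain ⟨C1, v, u, C2, g1, g2, g3⟩ := exists_switch
      (fun u => ∃ y ∈ U, y ∉ h :: (M ++ [xj]) ∧ G.Adj u y) (M ++ [xj]) h
      (by rintro ⟨y, hy1, hy2, hy3⟩; exact hhout y hy1 hy2 hy3) hsome
    obtain ⟨y, hyU, hyC, huy⟩ := g3
    refine case_two (C1 := C1) (C2 := C2) (v := v) (u := u) (y := y) hd' IH ?_ ?_ ?_ ?_ ?_ hyU ?_ huy
    · rw [← g1]; exact hndC
    · rw [← g1]; exact hchC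
    · rw [← g1]
      intro a ha b hb
      have ha' : a = h := by simpa using ha.symm
      have hb' : b = xj := by
        rw [List.getLast?_cons, List.getLast?_append] at hb
        simpa using hb.symm
      rw [ha', hb']
      exact h2
    · rw [← g1]; intro w hw; exact e4 w (hCl w hw)
    · rw [← g1]
      intro w hwU hwC hvw
      exact g2 ⟨w, hwU, hwC, hvw⟩
    · rw [← g1]; exact hyC

open Classical in
/-- Brooks theorem inside a vertex set, core form. -/
theorem brooks_on (hk : 3 ≤ k) : ∀ (n : ℕ) (U : Finset V), U.card = n →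
    (∀ W : Finset V, W ⊆ U → (∀ v ∈ W, k ≤ dg G W v) → ∀ v ∈ W, dg G W v ≤ k) →
    (∀ W : Finset V, W ⊆ U → W.card = k + 1 → ¬ (W : Set V).Pairwise G.Adj) →
    ∃ c : V → Fin k, Proper G U c := by
  intro n
  induction n using Nat.strong_induction_on with
  | _ n ih =>
    intro U hUn hcore hK
    have IH : ∀ W : Finset V, W ⊂ U → ∃ c : V → Fin k, Proper G W c := by
      intro W hW
      exact ih W.card (hUn ▸ Finset.card_lt_card hW) W rfl
        (fun W' hW' => hcore W' (hW'.trans hW.1)) (fun W' hW' => hK W' (hW'.trans hW.1))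
    by_cases hlow : ∃ v ∈ U, dg G U v < k
    · obtain ⟨v, hv, hdv⟩ := hlow
      obtain ⟨c, hc⟩ := IH (U.erase v) (Finset.erase_ssubset hv)
      have h1 : (((U.erase v).filter (fun w => G.Adj v w)).image c).card < k := by
        refine lt_of_le_of_lt Finset.card_image_le (lt_of_le_of_lt ?_ hdv)
        apply Finset.card_le_card
        intro w hw
        rw [Finset.mem_filter] at hw ⊢
        exact ⟨Finset.mem_of_mem_erase hw.1, hw.2⟩
      obtain ⟨a, ha⟩ := free_color h1
      have h2 := hc.update (Finset.notMem_erase v U) ha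
      rw [Finset.insert_erase hv] at h2
      exact ⟨_, h2⟩
    · push Not at hlow
      rcases U.eq_empty_or_nonempty with rfl | hne
      · exact ⟨fun _ => ⟨0, by omega⟩, fun u hu => by simp at hu⟩
      · exact regular_case hk hne
          (fun v hv => le_antisymm (hcore U subset_rfl hlow v hv) (hlow v hv)) IH hK

/-- Brooks theorem, core form: every vertex set with all inner degrees at least `k` has all inner
degrees at most `k`, and there is no clique of size `k + 1`. -/
theorem brooks_core [Fintype V] (hk : 3 ≤ k)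
    (hcore : ∀ W : Finset V, (∀ v ∈ W, k ≤ dg G W v) → ∀ v ∈ W, dg G W v ≤ k)
    (hK : G.CliqueFree (k + 1)) : G.Colorable k := by
  obtain ⟨c, hc⟩ := brooks_on (G := G) hk _ Finset.univ rfl (fun W _ => hcore W)
    (fun W _ hW hp => hK W ⟨hp, hW⟩)
  exact ⟨SimpleGraph.Coloring.mk c (fun {u v} h => hc u (Finset.mem_univ _) v (Finset.mem_univ _) h)⟩

open Classical in
/-- Brooks theorem for maximum degree at most `k`. -/
theorem brooks [Fintype V] (hk : 3 ≤ k) (hdeg : ∀ v, (Finset.univ.filter (fun w => G.Adj v w)).card ≤ k)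
    (hK : G.CliqueFree (k + 1)) : G.Colorable k := by
  refine brooks_core hk (fun W _ v _ => le_trans ?_ (hdeg v)) hK
  apply Finset.card_le_card
  intro w hw
  rw [Finset.mem_filter] at hw ⊢
  exact ⟨Finset.mem_univ _, hw.2⟩

end CLB.H95
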