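import Pool.Agent.Helper95_CLB.Win

/-!
Windows: the labels of the caterpillar stay tight; the counting form.
-/

set_option autoImplicit false
set_option linter.unusedSectionVars false

namespace CLB.H95

open Finset Classical
open H3DA (Q neg nr)
open CLB.H3 (CExt Cat IsTwo Fits UPath he_of_unc cat_structure chn_side KTight exists_ktight no_cext
  Leaf cext_or)

variable {V : Type*} {G : SimpleGraph V} {R : V → Bool} [Fintype V] {k r : ℕ} {x y X Y : ℕ → V}
  {m : ℕ} {z c : ℕ → V} {f : V → Q}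

/-- The vertex is in the unit `i`. -/
def InU (X Y : ℕ → V) (i : ℕ) (v : V) : Prop := v = X i ∨ v = Y i

lemma InU.inC {i : ℕ} (h1 : 1 ≤ i) (h2 : i ≤ r) {v : V} (h : InU X Y i v) : InC r X Y v :=
  ⟨i, h1, h2, h⟩

/-- The label of a vertex of unit `i` as a function of the label of the unit. -/
noncomputable def ul (X : ℕ → V) (i : ℕ) (v : V) (t : Q) : Q := if v = X i then sg i t else neg (sg i t)

lemma ul_inj (X : ℕ → V) (i : ℕ) (v : V) : Function.Injective (ul X i v) := by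
  intro s t h
  unfold ul at h
  split_ifs at h
  · rw [← sg_sg i s, h, sg_sg]
  · have := H3DA.neg_inj h
    rw [← sg_sg i s, this, sg_sg]

lemma lbl_ul (h : Chn G R r X Y) {i : ℕ} (h1 : 1 ≤ i) (h2 : i ≤ r) {v : V} (hv : InU X Y i v)
    {mu : ℕ → Q} : lbl r X Y mu f v = ul X i v (mu i) := by
  unfold ul
  rcases hv with rfl | rfl
  · rw [if_pos rfl, lbl_x h h1 h2]
  · rw [if_neg (fun he => h.xy i i h1 h2 h1 h2 he.symm), lbl_y h h1 h2]

/-- The labels of the unit `i` in conflict with a label of the fork partner. -/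
noncomputable def cfs (X Y : ℕ → V) (i : ℕ) (v : V) (q : Q) : Finset Q :=
  if InU X Y i v then univ.filter (fun t => ul X i v t = neg q) else ∅

lemma cfs_card (i : ℕ) (v : V) (q : Q) :
    (cfs X Y i v q).card ≤ if InU X Y i v then 1 else 0 := by
  unfold cfs
  split_ifs
  · rw [Finset.card_le_one]
    intro a ha b hb
    rw [mem_filter] at ha hb
    exact ul_inj X i v (ha.2.trans hb.2.symm)
  · simp

/-- The number of labels lost by a fork conflict at unit `i`: `v` is a port, `w` its fork partner. -/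
noncomputable def cw (r : ℕ) (X Y : ℕ → V) (i : ℕ) (v w : V) : ℕ :=
  if InU X Y i v then (if InC r X Y w then (if idx r X Y w < i then 2 else 0) else 1) else 0

/-- The number of labels lost by fork conflicts in unit `i`. -/
noncomputable def lfn (r : ℕ) (X Y : ℕ → V) (m : ℕ) (c : ℕ → V) (i : ℕ) : ℕ :=
  cw r X Y i (c 0) (c 1) + cw r X Y i (c 1) (c 0) + cw r X Y i (c m) (c (m + 1)) +
    cw r X Y i (c (m + 1)) (c m)

/-- The conflict labels at unit `i`. -/
noncomputable def cq (r : ℕ) (X Y : ℕ → V) (f : V → Q) (i : ℕ) (v w : V) (g : ℕ → Q) : Finset Q :=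
  if InC r X Y w ∧ i ≤ idx r X Y w then ∅ else cfs X Y i v (lbl r X Y g f w)

lemma cq_card (i : ℕ) (v w : V) (g g' : ℕ → Q) :
    (cq r X Y f i v w g ∪ cq r X Y f i v w g').card ≤ cw r X Y i v w := by
  unfold cq cw
  have e1 := cfs_card (X := X) (Y := Y) i v (lbl r X Y g f w)
  have e2 := cfs_card (X := X) (Y := Y) i v (lbl r X Y g' f w)
  by_cases h1 : InC r X Y w ∧ i ≤ idx r X Y w
  · rw [if_pos h1, if_pos h1]; simp
  · rw [if_neg h1, if_neg h1]
    by_cases h2 : InC r X Y w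
    · have h3 : idx r X Y w < i := by
        by_contra hcon
        exact h1 ⟨h2, by omega⟩
      rw [if_pos h2, if_pos h3]
      have e3 := Finset.card_union_le (cfs X Y i v (lbl r X Y g f w)) (cfs X Y i v (lbl r X Y g' f w))
      split_ifs at e1 e2 ⊢ <;> omega
    · rw [if_neg h2, lbl_out h2, lbl_out h2, Finset.union_self]
      rw [lbl_out h2] at e1
      exact e1

lemma cq_dep (h : Chn G R r X Y) {i : ℕ} (h1 : 1 ≤ i) (h2 : i ≤ r) {a v w : V} (ha : ¬ Cov G R a)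
    (hv : G.Adj a v) (hw : G.Adj a w) {g g' : ℕ → Q} (hs : Same (i - 1) g g') :
    cq r X Y f i v w g = cq r X Y f i v w g' := by
  unfold cq
  by_cases h3 : InC r X Y w ∧ i ≤ idx r X Y w
  · rw [if_pos h3, if_pos h3]
  · rw [if_neg h3, if_neg h3]
    by_cases h4 : InC r X Y w
    · by_cases h5 : InU X Y i v
      · have h6 : idx r X Y w < i := by
          by_contra hcon
          exact h3 ⟨h4, by omega⟩
        have h7 : idx r X Y v = i := by
          rcases h5 with e | e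
          · rw [e]; exact idx_x h h1 h2
          · rw [e]; exact idx_y h h1 h2
        have := lbl_earlier h h4 (h5.inC h1 h2) hw hv ha (by rw [h7]; exact h6) h5 h1 h2 hs (f := f)
        rw [this]
      · unfold cfs
        rw [if_neg h5, if_neg h5]
    · rw [lbl_out h4, lbl_out h4]

/-- **The window: the labels stay tight.** -/
theorem win_tight (hG : ClassC G R) (hc : Crit G R) (hcat : Cat G R m z c) (hm : 2 ≤ m)
    (h : Chn G R r X Y) (hcyc : ¬ Lk G R (Y r) (X 1)) (hf : OffC G R r X Y f) {D : Ty}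
    (hD : Tight D (fun j => f (c j)) m) (hcl : CleanW G R r X Y m z) :
    ∃ A, HG r A (fun i => wsz G R r X Y m z i - lfn r X Y m c i) ∧ ∀ mu, HW r A mu →
      ∃ D', Tight D' (fun j => lbl r X Y mu f (c j)) m := by
  obtain ⟨A, hA, hK⟩ := win_game hG hc hcat h hcyc hf hcl
  have a0 : G.Adj (z 1) (c 0) := hcat.adj0
  have a1 : G.Adj (z 1) (c 1) := hcat.adjc 1 le_rfl (by omega)
  have am : G.Adj (z m) (c m) := hcat.adjc m (by omega) le_rfl
  have am1 : G.Adj (z m) (c (m + 1)) := hcat.adjm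
  have u1 := hcat.unc 1 le_rfl (by omega)
  have um := hcat.unc m (by omega) le_rfl
  let Z : ℕ → (ℕ → Q) → Finset Q := fun i g =>
    (cq r X Y f i (c 0) (c 1) g ∪ cq r X Y f i (c 1) (c 0) g) ∪
      (cq r X Y f i (c m) (c (m + 1)) g ∪ cq r X Y f i (c (m + 1)) (c m) g)
  have hZd : ∀ i, 1 ≤ i → i ≤ r → ∀ g g', Same (i - 1) g g' → Z i g = Z i g' := by
    intro i h1 h2 g g' hs
    simp only [Z]
    rw [cq_dep h h1 h2 u1 a0 a1 hs, cq_dep h h1 h2 u1 a1 a0 hs, cq_dep h h1 h2 um am am1 hs,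
      cq_dep h h1 h2 um am1 am hs]
  have hZ : ∀ i, 1 ≤ i → i ≤ r → ∀ g g', (Z i g ∪ Z i g').card ≤ lfn r X Y m c i := by
    intro i _ _ g g'
    have e0 := cq_card (X := X) (Y := Y) (r := r) (f := f) i (c 0) (c 1) g g'
    have e1 := cq_card (X := X) (Y := Y) (r := r) (f := f) i (c 1) (c 0) g g'
    have e2 := cq_card (X := X) (Y := Y) (r := r) (f := f) i (c m) (c (m + 1)) g g'
    have e3 := cq_card (X := X) (Y := Y) (r := r) (f := f) i (c (m + 1)) (c m) g g'
    have hsub : Z i g ∪ Z i g' ⊆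
        ((cq r X Y f i (c 0) (c 1) g ∪ cq r X Y f i (c 0) (c 1) g') ∪
          (cq r X Y f i (c 1) (c 0) g ∪ cq r X Y f i (c 1) (c 0) g')) ∪
        ((cq r X Y f i (c m) (c (m + 1)) g ∪ cq r X Y f i (c m) (c (m + 1)) g') ∪
          (cq r X Y f i (c (m + 1)) (c m) g ∪ cq r X Y f i (c (m + 1)) (c m) g')) := by
      intro t ht
      simp only [Z, mem_union] at ht ⊢
      tauto
    have e4 := Finset.card_le_card hsub
    have e5 := Finset.card_union_le
      ((cq r X Y f i (c 0) (c 1) g ∪ cq r X Y f i (c 0) (c 1) g') ∪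
          (cq r X Y f i (c 1) (c 0) g ∪ cq r X Y f i (c 1) (c 0) g'))
      ((cq r X Y f i (c m) (c (m + 1)) g ∪ cq r X Y f i (c m) (c (m + 1)) g') ∪
          (cq r X Y f i (c (m + 1)) (c m) g ∪ cq r X Y f i (c (m + 1)) (c m) g'))
    have e6 := Finset.card_union_le (cq r X Y f i (c 0) (c 1) g ∪ cq r X Y f i (c 0) (c 1) g')
      (cq r X Y f i (c 1) (c 0) g ∪ cq r X Y f i (c 1) (c 0) g')
    have e7 := Finset.card_union_le
      (cq r X Y f i (c m) (c (m + 1)) g ∪ cq r X Y f i (c m) (c (m + 1)) g')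
      (cq r X Y f i (c (m + 1)) (c m) g ∪ cq r X Y f i (c (m + 1)) (c m) g')
    unfold lfn
    omega
  refine ⟨fun i g => A i g \ Z i g, hA.sdiff hZd hZ, fun mu hmu => ?_⟩
  have hmu' : HW r A mu := ⟨hmu.nwk, fun i h1 h2 => (mem_sdiff.1 (hmu.mem i h1 h2)).1⟩
  have hno := hK mu hmu'
  have nc : ∀ a b, (∀ i, cq r X Y f i (c a) (c b) mu ⊆ Z i mu) → InC r X Y (c a) →
      (InC r X Y (c b) → idx r X Y (c b) < idx r X Y (c a)) →
      lbl r X Y mu f (c a) ≠ neg (lbl r X Y mu f (c b)) := by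
    intro a b hsub ha hb he
    obtain ⟨h1, h2, h3⟩ := idx_spec ha
    set i := idx r X Y (c a) with hi
    rw [lbl_ul h h1 h2 h3] at he
    have := (mem_sdiff.1 (hmu.mem i h1 h2)).2
    apply this
    apply hsub i
    unfold cq
    rw [if_neg (fun h4 => by have := hb h4.1; omega)]
    unfold cfs
    rw [if_pos (show InU X Y i (c a) from h3), mem_filter]
    exact ⟨mem_univ _, he⟩
  have f0 := (frk_ne _ _ _ hD.1).2
  have fm := (frk_ne _ _ _ hD.2.2).2
  have pair : ∀ a b, (∀ i, cq r X Y f i (c a) (c b) mu ⊆ Z i mu) →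
      (∀ i, cq r X Y f i (c b) (c a) mu ⊆ Z i mu) → f (c a) ≠ neg (f (c b)) →
      (InC r X Y (c a) → InC r X Y (c b) → idx r X Y (c a) ≠ idx r X Y (c b)) →
      lbl r X Y mu f (c a) ≠ neg (lbl r X Y mu f (c b)) := by
    intro a b s1 s2 h0 hne
    by_cases ha : InC r X Y (c a)
    · by_cases hb : InC r X Y (c b)
      · rcases Nat.lt_or_ge (idx r X Y (c b)) (idx r X Y (c a)) with h1 | h1
        · exact nc a b s1 ha (fun _ => h1)
        · have h2 := hne ha hb
          exact H3DA.ne_neg_symm (nc b a s2 hb (fun _ => by omega))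
      · exact nc a b s1 ha (fun h' => absurd h' hb)
    · by_cases hb : InC r X Y (c b)
      · exact H3DA.ne_neg_symm (nc b a s2 hb (fun h' => absurd h' ha))
      · rw [lbl_out ha, lbl_out hb]
        exact h0
  have n0 := pair 0 1 (fun i => Finset.subset_union_left.trans Finset.subset_union_left)
    (fun i => Finset.subset_union_right.trans Finset.subset_union_left) f0
    (fun h1 h2 => idx_ne hG h h1 h2 hcat.ne0 a0 a1)
  have nm := pair m (m + 1) (fun i => Finset.subset_union_left.trans Finset.subset_union_right)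
    (fun i => Finset.subset_union_right.trans Finset.subset_union_right) fm
    (fun h1 h2 => idx_ne hG h h1 h2 hcat.nem am am1)
  by_contra hcon
  push Not at hcon
  exact hno ((cext_iff (by omega)).2 ⟨n0, nm, hcon⟩)

/-- The labels of a target port on the walks through the window. -/
lemma target_card (h : Chn G R r X Y) {u : ℕ} (h1 : 1 ≤ u) (h2 : u ≤ r) {v : V} (hv : InU X Y u v)
    {A : ℕ → (ℕ → Q) → Finset Q} {T B : Finset Q}
    (hT : ∀ t ∈ T, ∃ mu, HW r A mu ∧ mu u = t)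
    (hB : ∀ mu, HW r A mu → lbl r X Y mu f v ∈ B) : T.card ≤ B.card := by
  have e : T.image (ul X u v) ⊆ B := by
    intro q hq
    rw [mem_image] at hq
    obtain ⟨t, ht, rfl⟩ := hq
    obtain ⟨mu, hmu, hmt⟩ := hT t ht
    have := hB mu hmu
    rw [lbl_ul h h1 h2 hv, hmt] at this
    exact this
  have := Finset.card_le_card e
  rwa [Finset.card_image_of_injective _ (ul_inj X u v)] at this

lemma HG.mono {r : ℕ} {A : ℕ → (ℕ → Q) → Finset Q} {s s' : ℕ → ℕ} (h : HG r A s)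
    (hs : ∀ i, 1 ≤ i → i ≤ r → s' i ≤ s i) : HG r A s' :=
  ⟨h.dep, fun i h1 h2 g g' => (hs i h1 h2).trans (h.size i h1 h2 g g')⟩

/-- The data of a window. -/
structure Wn (G : SimpleGraph V) (R : V → Bool) (r : ℕ) (X Y : ℕ → V) (m : ℕ) (z c : ℕ → V)
    (f : V → Q) (D : Ty) : Prop where
  hG : ClassC G R
  hc : Crit G R
  cat : Cat G R m z c
  hm : 2 ≤ m
  ch : Chn G R r X Y
  ncyc : ¬ Lk G R (Y r) (X 1)
  off : OffC G R r X Y f
  tight : Tight D (fun j => f (c j)) m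
  clean : CleanW G R r X Y m z

/-- A window of an open chain. -/
theorem wn_of (hG : ClassC G R) (hc : Crit G R) (hcat : Cat G R m z c) (hm : 2 ≤ m)
    (h : Chn G R k x y) (hends : (∀ w, ¬ Lk G R (x 1) w) ∧ ∀ w, ¬ Lk G R (y k) w) {D : Ty}
    (hK : KTight G R m z c f D) {a b : ℕ} (ha : 1 ≤ a) (hab : a ≤ b) (hb : b ≤ k)
    (hin : ∃ j ≤ m + 1, ∃ i, a ≤ i ∧ i ≤ b ∧ (c j = x i ∨ c j = y i))
    (hcl : CleanW G R (b + 1 - a) (fun i => x (a - 1 + i)) (fun i => y (a - 1 + i)) m z) :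
    ∃ f', Wn G R (b + 1 - a) (fun i => x (a - 1 + i)) (fun i => y (a - 1 + i)) m z c f' D ∧
      ∀ v, Cov G R v → f' v = f v := by
  obtain ⟨j, hj, hin⟩ := hin
  obtain ⟨f', h1, h2⟩ := exists_offw hcat hm hK hj ((inC_sub ha hab).2 hin)
  refine ⟨f', ⟨hG, hc, hcat, hm, h.sub ha hab hb, ?_, h1, ?_, hcl⟩, h2⟩
  · show ¬ Lk G R (y (a - 1 + (b + 1 - a))) (x (a - 1 + 1))
    rw [show a - 1 + (b + 1 - a) = b by omega, show a - 1 + 1 = a by omega]
    intro hl
    by_cases hbk : b = k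
    · subst hbk; exact hends.2 _ hl
    · have h3 := h.lk b (by omega) (by omega)
      have := h.injx _ _ (by omega) (by omega) ha (by omega) (h3.unique hG hl)
      omega
  · have e : ∀ j ≤ m + 1, f' (c j) = f (c j) := fun j hj => h2 _ (hcat.cov j hj)
    obtain ⟨t1, t2, t3⟩ := hK.tight
    refine ⟨?_, fun i i1 i2 => ?_, ?_⟩
    · show frk D (f' (c 0)) (f' (c 1)) = true
      rw [e 0 (by omega), e 1 (by omega)]; exact t1
    · show stp (altT D i) (neg (f' (c i))) (f' (c (i + 1))) = true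
      rw [e i (by omega), e (i + 1) (by omega)]; exact t2 i i1 i2
    · show frk (altT D (m + 1)) (f' (c m)) (f' (c (m + 1))) = true
      rw [e m (by omega), e (m + 1) le_rfl]; exact t3

/-! ### Bounds for the sizes of the lists -/

lemma wl_le (i : ℕ) : wl G R X i ≤ 4 := by unfold wl; split_ifs <;> omega
lemma wr_le (i : ℕ) : wr G R r Y i ≤ 4 := by unfold wr; split_ifs <;> omega
lemma wl_ne {i : ℕ} (hi : i ≠ 1) : wl G R X i = 0 := by unfold wl; rw [if_neg (fun h => hi h.1)]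
lemma wr_ne {i : ℕ} (hi : i ≠ r) : wr G R r Y i = 0 := by unfold wr; rw [if_neg (fun h => hi h.1)]
lemma wl_end {i : ℕ} (h : ∀ w, ¬ Lk G R (X 1) w) : wl G R X i = 0 := by
  unfold wl; rw [if_neg (fun h' => by obtain ⟨w, hw⟩ := h'.2; exact h w hw)]
lemma wr_end {i : ℕ} (h : ∀ w, ¬ Lk G R (Y r) w) : wr G R r Y i = 0 := by
  unfold wr; rw [if_neg (fun h' => by obtain ⟨w, hw⟩ := h'.2; exact h w hw)]

/-- Inner units of the window have at most one foreign port at each vertex. -/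
lemma fp_X (hG : ClassC G R) (h : Chn G R r X Y) {i : ℕ} (h1 : 1 < i) (h2 : i ≤ r) :
    fp G R m z (X i) ≤ 1 := by
  have h3 := h.lk (i - 1) (by omega) (by omega)
  rw [show i - 1 + 1 = i by omega] at h3
  exact fp_lk hG h3.symm

lemma fp_Y (hG : ClassC G R) (h : Chn G R r X Y) {i : ℕ} (h1 : 1 ≤ i) (h2 : i < r) :
    fp G R m z (Y i) ≤ 1 := fp_lk hG (h.lk i h1 h2)

lemma fp_X_own (hG : ClassC G R) (hcat : Cat G R m z c) (h : Chn G R r X Y) {i : ℕ} (h1 : 1 < i)
    (h2 : i ≤ r) {j : ℕ} (hj : j ≤ m + 1) (e : c j = X i) : fp G R m z (X i) = 0 := by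
  have h3 := h.lk (i - 1) (by omega) (by omega)
  rw [show i - 1 + 1 = i by omega] at h3
  rw [← e]
  exact fp_own_lk hG hcat hj (e ▸ h3.symm)

lemma fp_Y_own (hG : ClassC G R) (hcat : Cat G R m z c) (h : Chn G R r X Y) {i : ℕ} (h1 : 1 ≤ i)
    (h2 : i < r) {j : ℕ} (hj : j ≤ m + 1) (e : c j = Y i) : fp G R m z (Y i) = 0 := by
  rw [← e]
  exact fp_own_lk hG hcat hj (e ▸ h.lk i h1 h2)

/-- No leaf port in the unit: no label is lost by conflicts. -/
lemma lfn_zero {i : ℕ} (h0 : ¬ InU X Y i (c 0)) (h1 : ¬ InU X Y i (c 1)) (h2 : ¬ InU X Y i (c m))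
    (h3 : ¬ InU X Y i (c (m + 1))) : lfn r X Y m c i = 0 := by
  unfold lfn cw
  rw [if_neg h0, if_neg h1, if_neg h2, if_neg h3]

lemma cw_zero {i : ℕ} {v w : V} (h : ¬ InU X Y i v) : cw r X Y i v w = 0 := by
  unfold cw; rw [if_neg h]

lemma cw_out {i : ℕ} {v w : V} (h : ¬ InC r X Y w) : cw r X Y i v w ≤ 1 := by
  unfold cw; rw [if_neg h]; split_ifs <;> omega

lemma cw_le (i : ℕ) (v w : V) : cw r X Y i v w ≤ 2 := by
  unfold cw; split_ifs <;> omega

lemma cw_late {i : ℕ} {v w : V} (h : InC r X Y w) (hi : i ≤ idx r X Y w) : cw r X Y i v w = 0 := by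
  unfold cw
  rw [if_pos h, if_neg (show ¬ idx r X Y w < i by omega)]
  split_ifs <;> rfl

namespace Wn

variable {D : Ty}

/-- The lists. -/
theorem lists (w : Wn G R r X Y m z c f D) {s : ℕ → ℕ}
    (hs : ∀ i, 1 ≤ i → i ≤ r → s i ≤ wsz G R r X Y m z i - lfn r X Y m c i) :
    ∃ A, HG r A s ∧ ∀ mu, HW r A mu → ∃ D', Tight D' (fun j => lbl r X Y mu f (c j)) m := by
  obtain ⟨A, h1, h2⟩ := win_tight w.hG w.hc w.cat w.hm w.ch w.ncyc w.off w.tight w.clean
  exact ⟨A, h1.mono hs, h2⟩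

/-- Target in the last unit. -/
theorem last (w : Wn G R r X Y m z c f D) {s : ℕ → ℕ}
    (hs : ∀ i, 1 ≤ i → i ≤ r → s i ≤ wsz G R r X Y m z i - lfn r X Y m c i) (hr : 3 ≤ r)
    (h1 : 2 ≤ s 1) (h4 : ∀ i, 2 ≤ i → i + 2 ≤ r → 4 ≤ s i) {v : V} (hv : InU X Y r v) {B : Finset Q}
    (hB : ∀ mu D', Tight D' (fun j => lbl r X Y mu f (c j)) m → lbl r X Y mu f v ∈ B) :
    nbc (6 + s (r - 1) - 8) + s r - 8 ≤ B.card := by
  obtain ⟨A, hA, hK⟩ := w.lists hs
  obtain ⟨T, hT1, hT2⟩ := game_last hA hr h1 h4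
  refine hT1.trans (target_card w.ch (by omega) le_rfl hv hT2 (f := f) (fun mu hmu => ?_))
  obtain ⟨D', hD'⟩ := hK mu hmu
  exact hB mu D' hD'

/-- Target in the last but one unit. -/
theorem prev (w : Wn G R r X Y m z c f D) {s : ℕ → ℕ}
    (hs : ∀ i, 1 ≤ i → i ≤ r → s i ≤ wsz G R r X Y m z i - lfn r X Y m c i) (hr : 3 ≤ r)
    (h1 : 2 ≤ s 1) (h4 : ∀ i, 2 ≤ i → i + 2 ≤ r → 4 ≤ s i) {v : V} (hv : InU X Y (r - 1) v)
    {B : Finset Q}
    (hB : ∀ mu D', Tight D' (fun j => lbl r X Y mu f (c j)) m → lbl r X Y mu f v ∈ B) :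
    6 + s (r - 1) - 8 + nbc (s r) - 8 ≤ B.card := by
  obtain ⟨A, hA, hK⟩ := w.lists hs
  obtain ⟨T, hT1, hT2⟩ := game_prev hA hr h1 h4
  refine hT1.trans (target_card w.ch (by omega) (by omega) hv hT2 (f := f) (fun mu hmu => ?_))
  obtain ⟨D', hD'⟩ := hK mu hmu
  exact hB mu D' hD'

/-- Two units, target in the second one. -/
theorem last2 (w : Wn G R 2 X Y m z c f D) {s : ℕ → ℕ}
    (hs : ∀ i, 1 ≤ i → i ≤ 2 → s i ≤ wsz G R 2 X Y m z i - lfn 2 X Y m c i) {v : V}
    (hv : InU X Y 2 v) {B : Finset Q}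
    (hB : ∀ mu D', Tight D' (fun j => lbl 2 X Y mu f (c j)) m → lbl 2 X Y mu f v ∈ B) :
    nbc (s 1) + s 2 - 8 ≤ B.card := by
  obtain ⟨A, hA, hK⟩ := w.lists hs
  obtain ⟨T, hT1, hT2⟩ := (game_two hA).1
  refine hT1.trans (target_card w.ch (by omega) le_rfl hv hT2 (f := f) (fun mu hmu => ?_))
  obtain ⟨D', hD'⟩ := hK mu hmu
  exact hB mu D' hD'

/-- Two units, target in the first one. -/
theorem first2 (w : Wn G R 2 X Y m z c f D) {s : ℕ → ℕ}
    (hs : ∀ i, 1 ≤ i → i ≤ 2 → s i ≤ wsz G R 2 X Y m z i - lfn 2 X Y m c i) {v : V}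
    (hv : InU X Y 1 v) {B : Finset Q}
    (hB : ∀ mu D', Tight D' (fun j => lbl 2 X Y mu f (c j)) m → lbl 2 X Y mu f v ∈ B) :
    s 1 + nbc (s 2) - 8 ≤ B.card := by
  obtain ⟨A, hA, hK⟩ := w.lists hs
  obtain ⟨T, hT1, hT2⟩ := (game_two hA).2
  refine hT1.trans (target_card w.ch le_rfl (by omega) hv hT2 (f := f) (fun mu hmu => ?_))
  obtain ⟨D', hD'⟩ := hK mu hmu
  exact hB mu D' hD'

end Wn

end CLB.H95
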