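import Pool.Agent.Helper95_CLB.Game
import Pool.Agent.Helper95_CLB.StatQG
import Pool.Agent.Helper3_DA.CritK

/-!
Relabelling a piece of a chain next to a tight caterpillar.
-/

set_option autoImplicit false
set_option linter.unusedSectionVars false

namespace CLB.H95

open Finset Classical
open H3DA (Q neg nr)
open CLB.H3 (CExt Cat IsTwo Fits UPath he_of_unc cat_structure chn_side KTight exists_ktight no_cext
  Leaf cext_or)

variable {V : Type*} {G : SimpleGraph V} {R : V → Bool} [Fintype V] {k r : ℕ} {x y X Y : ℕ → V}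
  {m : ℕ} {z c : ℕ → V} {f : V → Q}

/-- A piece of a chain. -/
lemma Chn.sub (h : Chn G R k x y) {a b : ℕ} (ha : 1 ≤ a) (hab : a ≤ b) (hb : b ≤ k) :
    Chn G R (b + 1 - a) (fun i => x (a - 1 + i)) (fun i => y (a - 1 + i)) where
  pos := by omega
  me i h1 h2 := h.me _ (by omega) (by omega)
  lk i h1 h2 := h.lk (a - 1 + i) (by omega) (by omega)
  injx i j h1 h2 h3 h4 he := by
    have := h.injx _ _ (by omega) (by omega) (by omega) (by omega) he
    omega
  injy i j h1 h2 h3 h4 he := by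
    have := h.injy _ _ (by omega) (by omega) (by omega) (by omega) he
    omega
  xy i j h1 h2 h3 h4 := h.xy _ _ (by omega) (by omega) (by omega) (by omega)

lemma inC_sub {a b : ℕ} (ha : 1 ≤ a) (hab : a ≤ b) {v : V} :
    InC (b + 1 - a) (fun i => x (a - 1 + i)) (fun i => y (a - 1 + i)) v ↔
      ∃ i, a ≤ i ∧ i ≤ b ∧ (v = x i ∨ v = y i) := by
  constructor
  · rintro ⟨i, h1, h2, h3⟩
    exact ⟨a - 1 + i, by omega, by omega, h3⟩
  · rintro ⟨i, h1, h2, h3⟩
    refine ⟨i + 1 - a, by omega, by omega, ?_⟩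
    show v = x (a - 1 + (i + 1 - a)) ∨ v = y (a - 1 + (i + 1 - a))
    rw [show a - 1 + (i + 1 - a) = i by omega]
    exact h3

/-- A tight labelling of the caterpillar gives a labelling of all edges outside a piece with a port. -/
theorem exists_offw (hcat : Cat G R m z c) (hm : 2 ≤ m) {D : Ty} (hK : KTight G R m z c f D)
    {j0 : ℕ} (hj0 : j0 ≤ m + 1) (hin : InC r X Y (c j0)) :
    ∃ f', OffC G R r X Y f' ∧ ∀ v, Cov G R v → f' v = f v := by
  set s : ℕ → Q := fun j => f (c j) with hs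
  -- a label for the port
  obtain ⟨t, ht⟩ : ∃ t, t ∉ ({s j0, neg (s 0), neg (s 1), neg (s m), neg (s (m + 1))} : Finset Q) := by
    by_contra hcon
    push Not at hcon
    have h1 : (univ : Finset Q) ⊆ {s j0, neg (s 0), neg (s 1), neg (s m), neg (s (m + 1))} :=
      fun t _ => hcon t
    have h2 := Finset.card_le_card h1
    rw [card_univ_Q] at h2
    have h3 : ({s j0, neg (s 0), neg (s 1), neg (s m), neg (s (m + 1))} : Finset Q).card ≤ 5 :=
      Finset.card_le_five
    omega
  simp only [mem_insert, mem_singleton, not_or] at ht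
  obtain ⟨t1, t2, t3, t4, t5⟩ := ht
  have hn : ¬ CExt m s := by
    rw [cext_iff (by omega)]
    exact fun h => h.2.2 D hK.tight
  have hl : Leaf m s := by
    have h1 := (frk_ne _ _ _ hK.tight.1).2
    have h2 := (frk_ne _ _ _ hK.tight.2.2).2
    exact ⟨h1, h2⟩
  set s' : ℕ → Q := fun j => if j = j0 then t else s j with hs'
  have hl' : Leaf m s' := by
    refine ⟨?_, ?_⟩
    · simp only [hs']
      by_cases h1 : 0 = j0
      · rw [if_pos h1, if_neg (by omega)]
        exact t3
      · rw [if_neg h1]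
        by_cases h2 : 1 = j0
        · rw [if_pos h2]
          exact fun h' => t2 (by rw [h', H3DA.neg_neg])
        · rw [if_neg h2]
          exact hl.1
    · simp only [hs']
      by_cases h1 : m = j0
      · rw [if_pos h1, if_neg (by omega)]
        exact t5
      · rw [if_neg h1]
        by_cases h2 : m + 1 = j0
        · rw [if_pos h2]
          exact fun h' => t4 (by rw [h', H3DA.neg_neg])
        · rw [if_neg h2]
          exact hl.2
  have hE : CExt m s' := by
    rcases cext_or hm hj0 (s := s) (s' := s') (fun i _ hi => by simp only [hs']; rw [if_neg hi])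
      (by simp only [hs', if_true]; exact fun h' => t1 h'.symm) hl hl' with h1 | h1
    · exact absurd h1 hn
    · exact h1
  obtain ⟨g, g1, g2, g3, g4⟩ := hE
  refine ⟨fun v => if hv : ∃ i, 1 ≤ i ∧ i ≤ m ∧ z i = v then g hv.choose else f v, ?_, ?_⟩
  · have gz : ∀ i, 1 ≤ i → i ≤ m → (if hv : ∃ i', 1 ≤ i' ∧ i' ≤ m ∧ z i' = z i then g hv.choose
        else f (z i)) = g i := by
      intro i h1 h2
      have hv : ∃ i', 1 ≤ i' ∧ i' ≤ m ∧ z i' = z i := ⟨i, h1, h2, rfl⟩
      rw [dif_pos hv]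
      have h3 := hv.choose_spec
      rw [hcat.inj _ _ h3.1 h3.2.1 h1 h2 h3.2.2]
    have gn : ∀ v, (¬ ∃ i, 1 ≤ i ∧ i ≤ m ∧ z i = v) → (if hv : ∃ i', 1 ≤ i' ∧ i' ≤ m ∧ z i' = v
        then g hv.choose else f v) = f v := by
      intro v hv
      rw [dif_neg hv]
    have gc : ∀ j ≤ m + 1, (if hv : ∃ i', 1 ≤ i' ∧ i' ≤ m ∧ z i' = c j then g hv.choose
        else f (c j)) = f (c j) := by
      intro j hj
      refine gn _ ?_
      rintro ⟨i, h1, h2, h3⟩
      exact hcat.unc i h1 h2 (by rw [h3]; exact hcat.cov j hj)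
    -- edges at the caterpillar
    have key : ∀ i, 1 ≤ i → i ≤ m → ∀ v, G.Adj (z i) v → ¬ InC r X Y v →
        nr (g i) (if hv : ∃ i', 1 ≤ i' ∧ i' ≤ m ∧ z i' = v then g hv.choose else f v) = true := by
      intro i h1 h2 v hv hvn
      rcases hcat.nbr i h1 h2 v hv with h3 | ⟨h3, h4⟩ | ⟨h3, h4⟩ | ⟨h3, h4⟩ | ⟨h3, h4⟩
      · subst h3
        rw [gc i (by omega)]
        have := g1 i h1 h2
        simp only [hs'] at this
        rwa [if_neg (fun he => hvn (by rw [he]; exact hin))] at this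
      · subst h4; subst h3
        rw [gc 0 (by omega)]
        have := g2
        simp only [hs'] at this
        rwa [if_neg (fun he => hvn (by rw [he]; exact hin))] at this
      · subst h4; subst h3
        rw [gc (i + 1) (by omega)]
        have := g3
        simp only [hs'] at this
        rwa [if_neg (fun he => hvn (by rw [he]; exact hin))] at this
      · subst h4
        rw [gz (i - 1) (by omega) (by omega)]
        have := g4 (i - 1) (by omega) (by omega)
        rw [show i - 1 + 1 = i by omega] at this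
        exact nr_symm this
      · subst h4
        rw [gz (i + 1) (by omega) (by omega)]
        exact g4 i h1 h3
    intro u v huv hu hv
    by_cases hzu : ∃ i, 1 ≤ i ∧ i ≤ m ∧ z i = u
    · obtain ⟨i, h1, h2, rfl⟩ := hzu
      have hR := (he_of_unc (hcat.unc i h1 h2) huv).2
      refine ⟨fun h' => absurd h' hR, fun _ => ?_⟩
      show nr (if hv : ∃ i', 1 ≤ i' ∧ i' ≤ m ∧ z i' = z i then g hv.choose else f (z i)) _ = true
      rw [gz i h1 h2]
      exact key i h1 h2 v huv hv
    · by_cases hzv : ∃ i, 1 ≤ i ∧ i ≤ m ∧ z i = v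
      · obtain ⟨i, h1, h2, rfl⟩ := hzv
        have hR := (he_of_unc (hcat.unc i h1 h2) huv.symm).2
        refine ⟨fun h' => absurd h'.symm hR, fun _ => ?_⟩
        show nr _ (if hv : ∃ i', 1 ≤ i' ∧ i' ≤ m ∧ z i' = z i then g hv.choose else f (z i)) = true
        rw [gz i h1 h2]
        exact nr_symm (key i h1 h2 u huv.symm hu)
      · have h1 := hK.ok u v huv (fun h' => hzu (by
          obtain ⟨i, i1, i2, i3⟩ := h'.1
          exact ⟨i, i1, i2, i3⟩))
        show (R u = R v → _) ∧ (R u ≠ R v → _)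
        simp only [dif_neg hzu, dif_neg hzv]
        exact h1
  · intro v hv
    have : ¬ ∃ i, 1 ≤ i ∧ i ≤ m ∧ z i = v := by
      rintro ⟨i, h1, h2, rfl⟩
      exact hcat.unc i h1 h2 hv
    simp only [dif_neg this]

/-- A vertex of a piece with a link leading out of it is one of the two end vertices. -/
lemma lk_out (hG : ClassC G R) (h : Chn G R r X Y) {u v : V} (hl : Lk G R u v) (hu : InC r X Y u) :
    (u = X 1) ∨ (u = Y r) ∨ (∃ i, 1 ≤ i ∧ i < r ∧ ((u = Y i ∧ v = X (i + 1)) ∨ (u = X (i + 1) ∧ v = Y i))) := by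
  obtain ⟨i, h1, h2, rfl | rfl⟩ := hu
  · by_cases hi : i = 1
    · subst hi; exact Or.inl rfl
    · right; right
      have h3 := h.lk (i - 1) (by omega) (by omega)
      rw [show i - 1 + 1 = i by omega] at h3
      refine ⟨i - 1, by omega, by omega, Or.inr ⟨by rw [show i - 1 + 1 = i by omega], ?_⟩⟩
      exact hl.unique hG h3.symm
  · by_cases hi : i = r
    · subst hi; exact Or.inr (Or.inl rfl)
    · right; right
      have h3 := h.lk i h1 (by omega)
      exact ⟨i, h1, by omega, Or.inl ⟨rfl, hl.unique hG h3⟩⟩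

/-- **New labels of a piece do not extend to the caterpillar.** -/
theorem win_contra (hG : ClassC G R) (hc : Crit G R) (hcat : Cat G R m z c) (h : Chn G R r X Y)
    (hcyc : ¬ Lk G R (Y r) (X 1)) (hf : OffC G R r X Y f) {mu : ℕ → Q} (hw : Nwk r mu)
    (hL : ∀ v, Lk G R (X 1) v → nr (sg 1 (mu 1)) (f v) = true)
    (hR : ∀ v, Lk G R (Y r) v → nr (neg (sg r (mu r))) (f v) = true)
    (htwo : ∀ v a b, IsTwo G R v a b → InC r X Y a → lbl r X Y mu f a ≠ neg (lbl r X Y mu f b))
    (hC : ∀ m' z' c', Cat G R m' z' c' → (∃ j ≤ m' + 1, InC r X Y (c' j)) →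
      cSupp m' z' ≠ cSupp m z → CExt m' (fun j => lbl r X Y mu f (c' j))) :
    ¬ CExt m (fun j => lbl r X Y mu f (c j)) := by
  have hrp := h.pos
  have key : ∀ i, 1 ≤ i → i < r → nr (lbl r X Y mu f (Y i)) (lbl r X Y mu f (X (i + 1))) = true := by
    intro i h1 h2
    rw [lbl_y h h1 (by omega), lbl_x h (by omega) (by omega), ← sg_succ, nr_sg]
    exact hw i h1 h2
  -- links with an end in the piece
  have hin : ∀ u v, Lk G R u v → InC r X Y u → nr (lbl r X Y mu f u) (lbl r X Y mu f v) = true := by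
    intro u v hl hu
    rcases lk_out hG h hl hu with h1 | h1 | ⟨i, i1, i2, ⟨h1, h2⟩ | ⟨h1, h2⟩⟩
    · by_cases hv : InC r X Y v
      · rcases lk_out hG h hl.symm hv with h3 | h3 | ⟨i, i1, i2, ⟨h3, h4⟩ | ⟨h3, h4⟩⟩
        · rw [h1, h3] at hl
          exact absurd rfl hl.1.1.ne
        · rw [h1, h3] at hl
          exact absurd hl.symm hcyc
        · rw [h3, h4]
          exact nr_symm (key i i1 i2)
        · rw [h3, h4]
          exact key i i1 i2
      · rw [h1, lbl_x h le_rfl hrp, lbl_out hv]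
        exact hL v (h1 ▸ hl)
    · by_cases hv : InC r X Y v
      · rcases lk_out hG h hl.symm hv with h3 | h3 | ⟨i, i1, i2, ⟨h3, h4⟩ | ⟨h3, h4⟩⟩
        · rw [h1, h3] at hl
          exact absurd hl hcyc
        · rw [h1, h3] at hl
          exact absurd rfl hl.1.1.ne
        · rw [h3, h4]
          exact nr_symm (key i i1 i2)
        · rw [h3, h4]
          exact key i i1 i2
      · rw [h1, lbl_y h hrp le_rfl, lbl_out hv]
        exact hR v (h1 ▸ hl)
    · rw [h1, h2]; exact key i i1 i2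
    · rw [h1, h2]; exact nr_symm (key i i1 i2)
  refine no_cext hG hc hcat (f := lbl r X Y mu f) ?_ ?_ ?_ ?_
  · intro u v huv
    by_cases hu : InC r X Y u
    · obtain ⟨i, h1, h2, rfl | rfl⟩ := hu
      · rw [hG.matching huv (h.me i h1 h2), lbl_x h h1 h2, lbl_y h h1 h2]
      · rw [hG.matching huv (h.me i h1 h2).symm, lbl_x h h1 h2, lbl_y h h1 h2, H3DA.neg_neg]
    · have hv : ¬ InC r X Y v := fun hv => hu (h.mate hG hv huv.symm)
      rw [lbl_out hu, lbl_out hv]
      exact (hf u v huv.1 hu hv).1 huv.2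
  · intro u v huv
    by_cases hu : InC r X Y u
    · exact hin u v huv hu
    · by_cases hv : InC r X Y v
      · exact nr_symm (hin v u huv.symm hv)
      · rw [lbl_out hu, lbl_out hv]
        exact (hf u v huv.1.1 hu hv).2 huv.1.2
  · intro v a b hT
    by_cases ha : InC r X Y a
    · exact htwo v a b hT ha
    · by_cases hb : InC r X Y b
      · exact H3DA.ne_neg_symm (htwo v b a (isTwo_symm hT) hb)
      · rw [lbl_out ha, lbl_out hb]
        obtain ⟨h1, h2, h3, h4, h5, h6, h7⟩ := hT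
        have hv : ¬ InC r X Y v := fun h' => h1 (h.cov h')
        have e1 := (hf v a h2 hv ha).2 (he_of_unc h1 h2).2
        have e2 := (hf v b h3 hv hb).2 (he_of_unc h1 h3).2
        exact H3DA.nr_common e1 e2
  · intro m' z' c' hC' hd
    by_cases hex : ∃ j ≤ m' + 1, InC r X Y (c' j)
    · refine hC m' z' c' hC' hex (fun he => ?_)
      have h1 : z 1 ∈ cSupp m z := mem_cSupp le_rfl hcat.pos
      exact hd _ h1 (by rw [he]; exact h1)
    · push Not at hex
      have e : ∀ j ≤ m' + 1, lbl r X Y mu f (c' j) = f (c' j) := fun j hj => lbl_out (hex j hj)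
      have hz : ∀ i, 1 ≤ i → i ≤ m' → ¬ InC r X Y (z' i) := fun i h1 h2 h' => hC'.unc i h1 h2 (h.cov h')
      have h0 : CExt m' (fun j => f (c' j)) := by
        refine hC'.cext_of_near (fun i h1 h2 v hv => ?_)
        have hR := (he_of_unc (hC'.unc i h1 h2) hv).2
        refine (hf (z' i) v hv (hz i h1 h2) ?_).2 hR
        rcases hC'.nbr i h1 h2 v hv with h3 | ⟨h3, h4⟩ | ⟨h3, h4⟩ | ⟨h3, h4⟩ | ⟨h3, h4⟩
        · rw [h3]; exact hex i (by omega)
        · rw [h4]; exact hex 0 (by omega)
        · rw [h4]; exact hex (m' + 1) le_rfl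
        · rw [h4]; exact hz (i - 1) (by omega) (by omega)
        · rw [h4]; exact hz (i + 1) (by omega) (by omega)
      exact cext_congr (fun j hj => (e j hj).symm) h0

/-! ### Foreign ports -/

/-- The number of ports of `v` outside the caterpillar. -/
noncomputable def fp (G : SimpleGraph V) (R : V → Bool) (m : ℕ) (z : ℕ → V) (v : V) : ℕ :=
  ((prt G R v).filter (fun w => w ∉ cSupp m z)).card

lemma fp_le_prt (v : V) : fp G R m z v ≤ (prt G R v).card := Finset.card_filter_le _ _

lemma fp_lk (hG : ClassC G R) {v w : V} (hl : Lk G R v w) : fp G R m z v ≤ 1 :=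
  (fp_le_prt v).trans (prt_card_lk hG hl)

lemma fp_cov (hG : ClassC G R) {v : V} (hv : Cov G R v) : fp G R m z v ≤ 2 :=
  (fp_le_prt v).trans (prt_card hG hv)

/-- A port of the caterpillar is not counted. -/
lemma fp_own (hcat : Cat G R m z c) {j : ℕ} (hj : j ≤ m + 1) :
    fp G R m z (c j) + 1 ≤ (prt G R (c j)).card := by
  have h1 := cl_mem hcat.pos hj
  have h2 : z (cl m j) ∈ prt G R (c j) := by
    rw [mem_prt]; exact ⟨cat_adj_cl hcat hj, hcat.unc _ h1.1 h1.2⟩
  have h3 : (prt G R (c j)).filter (fun w => w ∉ cSupp m z) ⊆ (prt G R (c j)).erase (z (cl m j)) := by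
    intro w hw
    rw [mem_filter] at hw
    rw [mem_erase]
    exact ⟨fun he => hw.2 (by rw [he]; exact mem_cSupp h1.1 h1.2), hw.1⟩
  have h4 := Finset.card_le_card h3
  rw [Finset.card_erase_of_mem h2] at h4
  have h5 := Finset.card_pos.2 ⟨_, h2⟩
  unfold fp
  omega

lemma fp_own_lk (hG : ClassC G R) (hcat : Cat G R m z c) {j : ℕ} (hj : j ≤ m + 1) {w : V}
    (hl : Lk G R (c j) w) : fp G R m z (c j) = 0 := by
  have h1 := fp_own hcat hj
  have h2 := prt_card_lk hG hl
  omega

lemma fp_own_cov (hG : ClassC G R) (hcat : Cat G R m z c) {j : ℕ} (hj : j ≤ m + 1) :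
    fp G R m z (c j) ≤ 1 := by
  have h1 := fp_own hcat hj
  have h2 := prt_card hG (hcat.cov j hj)
  omega

/-- The cost of a vertex. -/
lemma cst_le_fp {Φ : V → V → Finset Q} (h2 : ∀ v w, (Φ v w).card ≤ 2)
    (h0 : ∀ v w, w ∈ cSupp m z → Φ v w = ∅) (v : V) : cst G R Φ v ≤ 2 * fp G R m z v := by
  unfold cst fp
  rw [← Finset.sum_filter_add_sum_filter_not (prt G R v) (fun w => w ∉ cSupp m z)]
  have e1 : ∑ w ∈ (prt G R v).filter (fun w => ¬ w ∉ cSupp m z), (Φ v w).card = 0 := by
    refine Finset.sum_eq_zero fun w hw => ?_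
    rw [mem_filter, not_not] at hw
    rw [h0 v w hw.2]; simp
  rw [e1, Nat.add_zero]
  calc ∑ w ∈ (prt G R v).filter (fun w => w ∉ cSupp m z), (Φ v w).card
      ≤ ∑ _w ∈ (prt G R v).filter (fun w => w ∉ cSupp m z), 2 := Finset.sum_le_sum fun w _ => h2 v w
    _ = 2 * ((prt G R v).filter (fun w => w ∉ cSupp m z)).card := by simp [mul_comm]
    _ ≤ _ := le_rfl

/-- The components other than the caterpillar meet the piece in a harmless way. -/
def CleanW (G : SimpleGraph V) (R : V → Bool) (r : ℕ) (X Y : ℕ → V) (m : ℕ) (z : ℕ → V) : Prop :=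
  ∀ m' z' c', Cat G R m' z' c' → cSupp m' z' ≠ cSupp m z → (∃ j ≤ m' + 1, InC r X Y (c' j)) →
    (m' = 1 → ∀ i j, i ≤ 2 → j ≤ 2 → InC r X Y (c' i) → InC r X Y (c' j) → i = j) ∧
    (2 ≤ m' → ¬ NCp m' (fun j => InC r X Y (c' j)))

/-- The labels of the ends near the labels outside the piece. -/
noncomputable def wall (G : SimpleGraph V) (R : V → Bool) (r : ℕ) (X Y : ℕ → V) (f : V → Q) (i : ℕ) :
    Finset Q :=
  univ.filter (fun t => (i = 1 → ∀ v, Lk G R (X 1) v → nr (sg 1 t) (f v) = true)) ∩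
  univ.filter (fun t => (i = r → ∀ v, Lk G R (Y r) v → nr (neg (sg r t)) (f v) = true))

/-- The number of labels lost by the left wall. -/
noncomputable def wl (G : SimpleGraph V) (R : V → Bool) (X : ℕ → V) (i : ℕ) : ℕ :=
  if i = 1 ∧ ∃ v, Lk G R (X 1) v then 4 else 0

/-- The number of labels lost by the right wall. -/
noncomputable def wr (G : SimpleGraph V) (R : V → Bool) (r : ℕ) (Y : ℕ → V) (i : ℕ) : ℕ :=
  if i = r ∧ ∃ v, Lk G R (Y r) v then 4 else 0

lemma sg_ball_card (i : ℕ) (a : Q) : (univ.filter (fun t : Q => nr (sg i t) a = true)).card = 4 := by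
  have h : univ.filter (fun t : Q => nr (sg i t) a = true) = ball (sg i a) := by
    ext t
    rw [mem_filter, mem_ball]
    have e : nr (sg i t) a = nr (sg i a) t := by
      rw [← nr_sg i (sg i t) a, sg_sg, H3DA.nr_comm]
    rw [e]
    simp
  rw [h, ball_card]

lemma neg_sg_ball_card (i : ℕ) (a : Q) :
    (univ.filter (fun t : Q => nr (neg (sg i t)) a = true)).card = 4 := by
  have h : univ.filter (fun t : Q => nr (neg (sg i t)) a = true) =
      univ.filter (fun t : Q => nr (sg i t) (neg a) = true) := by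
    ext t
    rw [mem_filter, mem_filter, ← nr_neg_neg (neg (sg i t)) a, H3DA.neg_neg]
  rw [h, sg_ball_card]

lemma wall_card (hG : ClassC G R) (i : ℕ) :
    8 ≤ (wall G R r X Y f i).card + wl G R X i + wr G R r Y i := by
  have h1 : 8 ≤ (univ.filter (fun t : Q => (i = 1 → ∀ v, Lk G R (X 1) v →
      nr (sg 1 t) (f v) = true))).card + wl G R X i := by
    unfold wl
    by_cases h : i = 1 ∧ ∃ v, Lk G R (X 1) v
    · rw [if_pos h]
      obtain ⟨hi, v, hv⟩ := h
      have e : univ.filter (fun t : Q => (i = 1 → ∀ v, Lk G R (X 1) v → nr (sg 1 t) (f v) = true)) =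
          univ.filter (fun t : Q => nr (sg 1 t) (f v) = true) := by
        ext t
        rw [mem_filter, mem_filter]
        constructor
        · exact fun h' => ⟨h'.1, h'.2 hi v hv⟩
        · refine fun h' => ⟨h'.1, fun _ w hw => ?_⟩
          rw [hw.unique hG hv]; exact h'.2
      rw [e, sg_ball_card]
    · rw [if_neg h]
      have e : univ.filter (fun t : Q => (i = 1 → ∀ v, Lk G R (X 1) v → nr (sg 1 t) (f v) = true)) =
          univ := by
        rw [Finset.filter_eq_self]
        exact fun t _ hi v hv => absurd ⟨hi, v, hv⟩ h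
      rw [e, card_univ_Q]
  have h2 : 8 ≤ (univ.filter (fun t : Q => (i = r → ∀ v, Lk G R (Y r) v →
      nr (neg (sg r t)) (f v) = true))).card + wr G R r Y i := by
    unfold wr
    by_cases h : i = r ∧ ∃ v, Lk G R (Y r) v
    · rw [if_pos h]
      obtain ⟨hi, v, hv⟩ := h
      have e : univ.filter (fun t : Q => (i = r → ∀ v, Lk G R (Y r) v →
          nr (neg (sg r t)) (f v) = true)) = univ.filter (fun t : Q => nr (neg (sg r t)) (f v) = true) := by
        ext t
        rw [mem_filter, mem_filter]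
        constructor
        · exact fun h' => ⟨h'.1, h'.2 hi v hv⟩
        · refine fun h' => ⟨h'.1, fun _ w hw => ?_⟩
          rw [hw.unique hG hv]; exact h'.2
      rw [e, neg_sg_ball_card]
    · rw [if_neg h]
      have e : univ.filter (fun t : Q => (i = r → ∀ v, Lk G R (Y r) v →
          nr (neg (sg r t)) (f v) = true)) = univ := by
        rw [Finset.filter_eq_self]
        exact fun t _ hi v hv => absurd ⟨hi, v, hv⟩ h
      rw [e, card_univ_Q]
  have h3 := card_inter_ge (univ.filter (fun t : Q => (i = 1 → ∀ v, Lk G R (X 1) v →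
      nr (sg 1 t) (f v) = true))) (univ.filter (fun t : Q => (i = r → ∀ v, Lk G R (Y r) v →
      nr (neg (sg r t)) (f v) = true)))
  unfold wall
  omega

/-- The sizes of the lists. -/
noncomputable def wsz (G : SimpleGraph V) (R : V → Bool) (r : ℕ) (X Y : ℕ → V) (m : ℕ) (z : ℕ → V)
    (i : ℕ) : ℕ :=
  8 - 2 * (fp G R m z (X i) + fp G R m z (Y i)) - wl G R X i - wr G R r Y i

/-- **The forbidden sets of a window.** -/
theorem win_forb (hG : ClassC G R) (hc : Crit G R) (hcat : Cat G R m z c) (h : Chn G R r X Y)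
    (hcyc : ¬ Lk G R (Y r) (X 1)) (hf : OffC G R r X Y f) (hcl : CleanW G R r X Y m z) :
    ∃ F : ℕ → (ℕ → Q) → Finset Q,
      (∀ i, 1 ≤ i → i ≤ r → ∀ g g', Same (i - 1) g g' → F i g = F i g') ∧
      (∀ i, ∀ g g', (F i g ∪ F i g').card ≤ 2 * (fp G R m z (X i) + fp G R m z (Y i))) ∧
      ∀ mu, Nwk r mu → (∀ i, 1 ≤ i → i ≤ r → mu i ∉ F i mu) →
        (∀ i, 1 ≤ i → i ≤ r → mu i ∈ wall G R r X Y f i) →
        ¬ CExt m (fun j => lbl r X Y mu f (c j)) := by
  have hrp := h.pos
  obtain ⟨Φ, hΦ⟩ := exists_oforb hG h (f := f) (cSupp m z) (z 1) (z 1)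
  refine ⟨fun i g => (olst G R X Y Φ g i)ᶜ, ?_, ?_, ?_⟩
  · intro i h1 h2 g g' hs
    have e : olst G R X Y Φ g i = olst G R X Y Φ g' i := lst_congr' (fun w => hΦ.dep i h1 h2 w g g' hs)
    show (olst G R X Y Φ g i)ᶜ = (olst G R X Y Φ g' i)ᶜ
    rw [e]
  · intro i g g'
    have e1 : (olst G R X Y Φ g i)ᶜ ∪ (olst G R X Y Φ g' i)ᶜ ⊆ (lst G R X Y (uni Φ g g') i)ᶜ := by
      intro t ht
      rw [mem_union, mem_compl, mem_compl] at ht
      rw [mem_compl]
      intro ht'
      rcases ht with ht | ht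
      · exact ht (uni_left _ _ _ _ ht')
      · exact ht (uni_right _ _ _ _ ht')
    have e2 := Finset.card_le_card e1
    have e3 := Finset.card_compl_add_card (lst G R X Y (uni Φ g g') i)
    have e4 := lst_card (G := G) (R := R) (x := X) (y := Y) (uni Φ g g') i
    have c2 : ∀ v w, (uni Φ g g' v w).card ≤ 2 := fun v w => hΦ.two v w g g'
    have c0 : ∀ v w, w ∈ cSupp m z → uni Φ g g' v w = ∅ := by
      intro v w hw
      unfold uni
      rw [hΦ.triv v w g hw, hΦ.triv v w g' hw, Finset.union_empty]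
    have e5 := cst_le_fp (G := G) (R := R) c2 c0 (X i)
    have e6 := cst_le_fp (G := G) (R := R) c2 c0 (Y i)
    have e7 : Fintype.card Q = 8 := by
      rw [← Finset.card_univ, card_univ_Q]
    show ((olst G R X Y Φ g i)ᶜ ∪ (olst G R X Y Φ g' i)ᶜ).card ≤ _
    omega
  · intro mu hmu hF hwl
    have hpw : PW G R X Y Φ r mu := ⟨hmu, fun i h1 h2 => by
      have := hF i h1 h2
      rwa [mem_compl, not_not] at this⟩
    have av := hpw.avoid h (f := f)
    refine win_contra hG hc hcat h hcyc hf hmu ?_ ?_ ?_ ?_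
    · intro v hv
      have := hwl 1 le_rfl hrp
      unfold wall at this
      rw [mem_inter, mem_filter, mem_filter] at this
      exact this.1.2 rfl v hv
    · intro v hv
      have := hwl r hrp le_rfl
      unfold wall at this
      rw [mem_inter, mem_filter, mem_filter] at this
      exact this.2.2 rfl v hv
    · intro v a b hT ha
      refine hΦ.isTwo mu av v a b hT ?_ ha
      rintro ⟨i, h1, h2, rfl⟩
      exact isTwo_not_cat hcat h1 h2 hT
    · intro m' z' c' hC' hex hne
      obtain ⟨o1, o2⟩ := hcl m' z' c' hC' hne hex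
      refine hΦ.cat mu hmu av m' z' c' hC' ?_ (fun i h1 h2 hi => ?_)
      · refine okill_of_not_nc hG h hf hC' hex o1 o2 ?_
        intro p p1 p2 p3 _ _
        exact hcat.unc 1 le_rfl hcat.pos (p3 ▸ hC'.cov p (by omega))
      · exact hne (cSupp_eq hC' hcat (mem_cSupp h1 h2) hi)

/-- **The lists of a window.** -/
theorem win_game (hG : ClassC G R) (hc : Crit G R) (hcat : Cat G R m z c) (h : Chn G R r X Y)
    (hcyc : ¬ Lk G R (Y r) (X 1)) (hf : OffC G R r X Y f) (hcl : CleanW G R r X Y m z) :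
    ∃ A, HG r A (wsz G R r X Y m z) ∧ ∀ mu, HW r A mu → ¬ CExt m (fun j => lbl r X Y mu f (c j)) := by
  obtain ⟨F, hd, hF, hK⟩ := win_forb hG hc hcat h hcyc hf hcl
  refine ⟨fun i g => wall G R r X Y f i \ F i g, ⟨?_, ?_⟩, fun mu hmu => ?_⟩
  · intro i h1 h2 g g' hs
    show _ \ F i g = _ \ F i g'
    rw [hd i h1 h2 g g' hs]
  · intro i h1 h2 g g'
    have e1 : wall G R r X Y f i \ (F i g ∪ F i g') ⊆
        (wall G R r X Y f i \ F i g) ∩ (wall G R r X Y f i \ F i g') := by
      intro t ht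
      simp only [mem_sdiff, mem_inter, mem_union, not_or] at ht ⊢
      exact ⟨⟨ht.1, ht.2.1⟩, ht.1, ht.2.2⟩
    have e2 := Finset.card_le_card e1
    have e3 := Finset.le_card_sdiff (F i g ∪ F i g') (wall G R r X Y f i)
    have e4 := hF i g g'
    have e7 := wall_card (r := r) (X := X) (Y := Y) (f := f) hG i
    unfold wsz
    omega
  · exact hK mu hmu.nwk (fun i h1 h2 => (mem_sdiff.1 (hmu.mem i h1 h2)).2)
      (fun i h1 h2 => (mem_sdiff.1 (hmu.mem i h1 h2)).1)

/-- A full unit inside the chain has no foreign ports: the window is clean. -/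
lemma clean_full (hG : ClassC G R) (hcat : Cat G R m z c) {v w v' w' : V} (hv : Lk G R v w)
    (hv' : Lk G R v' w') {j j' : ℕ} (hj : j ≤ m + 1) (hj' : j' ≤ m + 1) (e : c j = v) (e' : c j' = v')
    {X Y : ℕ → V} (hX : X 1 = v) (hY : Y 1 = v') : CleanW G R 1 X Y m z := by
  intro m' z' c' hC' hne hex
  exfalso
  obtain ⟨l, hl, i, i1, i2, h3⟩ := hex
  have hi : i = 1 := by omega
  subst hi
  have key : ∀ {v w : V} {j : ℕ}, Lk G R v w → j ≤ m + 1 → c j = v → c' l = v → False := by
    intro v w j hv hj e e2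
    have a1 := cl_mem hcat.pos hj
    have a2 := cl_mem hC'.pos hl
    have b1 : z (cl m j) ∈ prt G R v := by
      rw [mem_prt, ← e]; exact ⟨cat_adj_cl hcat hj, hcat.unc _ a1.1 a1.2⟩
    have b2 : z' (cl m' l) ∈ prt G R v := by
      rw [mem_prt, ← e2]; exact ⟨cat_adj_cl hC' hl, hC'.unc _ a2.1 a2.2⟩
    have h5 := Finset.card_le_one.1 (prt_card_lk hG hv) _ b1 _ b2
    exact hne (cSupp_eq hC' hcat (mem_cSupp a2.1 a2.2) (by rw [← h5]; exact mem_cSupp a1.1 a1.2))
  rcases h3 with h3 | h3
  · exact key hv hj e (h3.trans hX)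
  · exact key hv' hj' e' (h3.trans hY)

end CLB.H95
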