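import Pool.Agent.Helper95_CLB.Static

/-!
Linked chains: units `x i`, `y i` with links `y i`, `x (i+1)`; existence of maximal chains; labellings of a
chain; the contradiction in an edge-minimal graph without a labelling.
-/

set_option autoImplicit false
set_option linter.unusedSectionVars false

namespace CLB.H95

open Finset Classical
open H3DA (Q neg nr)
open CLB.H3 (CExt Cat IsTwo)

variable {V : Type*} {G : SimpleGraph V} {R : V → Bool}

/-- A chain of `k` units. -/
structure Chn (G : SimpleGraph V) (R : V → Bool) (k : ℕ) (x y : ℕ → V) : Prop where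
  pos : 1 ≤ k
  me : ∀ i, 1 ≤ i → i ≤ k → Me G R (x i) (y i)
  lk : ∀ i, 1 ≤ i → i < k → Lk G R (y i) (x (i + 1))
  injx : ∀ i j, 1 ≤ i → i ≤ k → 1 ≤ j → j ≤ k → x i = x j → i = j
  injy : ∀ i j, 1 ≤ i → i ≤ k → 1 ≤ j → j ≤ k → y i = y j → i = j
  xy : ∀ i j, 1 ≤ i → i ≤ k → 1 ≤ j → j ≤ k → x i ≠ y j

/-- The vertices of a chain. -/
def InC (k : ℕ) (x y : ℕ → V) (v : V) : Prop := ∃ i, 1 ≤ i ∧ i ≤ k ∧ (v = x i ∨ v = y i)

lemma InC.x {k : ℕ} {x y : ℕ → V} {i : ℕ} (h1 : 1 ≤ i) (h2 : i ≤ k) : InC k x y (x i) :=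
  ⟨i, h1, h2, Or.inl rfl⟩

lemma InC.y {k : ℕ} {x y : ℕ → V} {i : ℕ} (h1 : 1 ≤ i) (h2 : i ≤ k) : InC k x y (y i) :=
  ⟨i, h1, h2, Or.inr rfl⟩

namespace Chn

variable {k : ℕ} {x y : ℕ → V}

/-- Reversal. -/
lemma rev (h : Chn G R k x y) : Chn G R k (fun i => y (k + 1 - i)) (fun i => x (k + 1 - i)) where
  pos := h.pos
  me i h1 h2 := (h.me (k + 1 - i) (by omega) (by omega)).symm
  lk i h1 h2 := by
    have := h.lk (k - i) (by omega) (by omega)
    rw [show k - i + 1 = k + 1 - i by omega] at this
    show Lk G R (x (k + 1 - i)) (y (k + 1 - (i + 1)))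
    rw [show k + 1 - (i + 1) = k - i by omega]
    exact this.symm
  injx i j h1 h2 h3 h4 h5 := by
    have := h.injy (k + 1 - i) (k + 1 - j) (by omega) (by omega) (by omega) (by omega) h5
    omega
  injy i j h1 h2 h3 h4 h5 := by
    have := h.injx (k + 1 - i) (k + 1 - j) (by omega) (by omega) (by omega) (by omega) h5
    omega
  xy i j h1 h2 h3 h4 := (h.xy (k + 1 - j) (k + 1 - i) (by omega) (by omega) (by omega) (by omega)).symm

lemma cov (h : Chn G R k x y) {v : V} (hv : InC k x y v) : Cov G R v := by
  obtain ⟨i, h1, h2, rfl | rfl⟩ := hv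
  · exact (h.me i h1 h2).cov
  · exact (h.me i h1 h2).cov'

end Chn

variable [Fintype V]

namespace Chn

variable {k : ℕ} {x y : ℕ → V}

/-- The mate of a vertex of the chain is in the chain. -/
lemma mate (h : Chn G R k x y) (hG : ClassC G R) {v w : V} (hv : InC k x y v) (hvw : Me G R v w) :
    InC k x y w := by
  obtain ⟨i, h1, h2, rfl | rfl⟩ := hv
  · rw [hG.matching hvw (h.me i h1 h2)]; exact InC.y h1 h2
  · rw [hG.matching hvw (h.me i h1 h2).symm]; exact InC.x h1 h2

/-- Extension at the left end. -/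
lemma extL (h : Chn G R k x y) (hG : ClassC G R) {w : V} (hw : Lk G R (x 1) w) :
    Lk G R (y k) (x 1) ∨ ∃ x' y', Chn G R (k + 1) x' y' := by
  by_cases hin : InC k x y w
  · left
    obtain ⟨i, h1, h2, rfl | rfl⟩ := hin
    · exfalso
      by_cases hi : i = 1
      · subst hi; exact hw.1.ne rfl
      · have h3 := h.lk (i - 1) (by omega) (by omega)
        rw [show i - 1 + 1 = i by omega] at h3
        exact h.xy 1 (i - 1) le_rfl h.pos (by omega) (by omega) (hw.symm.unique hG h3.symm)
    · by_cases hi : i = k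
      · subst hi; exact hw.symm
      · exfalso
        have h3 := h.lk i h1 (by omega)
        have := h.injx 1 (i + 1) le_rfl h.pos (by omega) (by omega) (hw.symm.unique hG h3)
        omega
  · right
    obtain ⟨w', hw'⟩ := hw.2.2
    have hin' : ¬ InC k x y w' := fun h' => hin (h.mate hG h' hw'.symm)
    refine ⟨fun i => if i = 1 then w' else x (i - 1), fun i => if i = 1 then w else y (i - 1),
      by omega, ?_, ?_, ?_, ?_, ?_⟩
    · intro i h1 h2
      by_cases hi : i = 1
      · simp only [hi, if_true]; exact hw'.symm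
      · simp only [hi, if_false]; exact h.me (i - 1) (by omega) (by omega)
    · intro i h1 h2
      have hi' : ¬ (i + 1 = 1) := by omega
      by_cases hi : i = 1
      · subst hi
        simp only [if_true, hi', if_false, Nat.add_sub_cancel]; exact hw.symm
      · simp only [hi, hi', if_false]
        have := h.lk (i - 1) (by omega) (by omega)
        rw [show i + 1 - 1 = i - 1 + 1 by omega]; exact this
    · intro i j h1 h2 h3 h4 h5
      by_cases hi : i = 1 <;> by_cases hj : j = 1
      · omega
      · simp only [hi, hj, if_true, if_false] at h5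
        exact absurd (h5 ▸ InC.x (by omega) (by omega)) hin'
      · simp only [hi, hj, if_true, if_false] at h5
        exact absurd (h5 ▸ InC.x (by omega) (by omega)) hin'
      · simp only [hi, hj, if_false] at h5
        have := h.injx (i - 1) (j - 1) (by omega) (by omega) (by omega) (by omega) h5
        omega
    · intro i j h1 h2 h3 h4 h5
      by_cases hi : i = 1 <;> by_cases hj : j = 1
      · omega
      · simp only [hi, hj, if_true, if_false] at h5
        exact absurd (h5 ▸ InC.y (by omega) (by omega)) hin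
      · simp only [hi, hj, if_true, if_false] at h5
        exact absurd (h5 ▸ InC.y (by omega) (by omega)) hin
      · simp only [hi, hj, if_false] at h5
        have := h.injy (i - 1) (j - 1) (by omega) (by omega) (by omega) (by omega) h5
        omega
    · intro i j h1 h2 h3 h4 h5
      by_cases hi : i = 1 <;> by_cases hj : j = 1
      · simp only [hi, hj, if_true] at h5
        exact hw'.ne h5.symm
      · simp only [hi, hj, if_true, if_false] at h5
        exact hin' (h5 ▸ InC.y (by omega) (by omega))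
      · simp only [hi, hj, if_true, if_false] at h5
        exact hin (h5 ▸ InC.x (by omega) (by omega))
      · simp only [hi, hj, if_false] at h5
        exact h.xy (i - 1) (j - 1) (by omega) (by omega) (by omega) (by omega) h5

lemma card_le (h : Chn G R k x y) : k ≤ Fintype.card V := by
  have h1 : Function.Injective (fun i : Fin k => x (i + 1)) := by
    intro i j hij
    have := h.injx (i + 1) (j + 1) (by omega) (by omega) (by omega) (by omega) hij
    exact Fin.ext (by omega)
  have := Fintype.card_le_of_injective _ h1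
  rwa [Fintype.card_fin] at this

end Chn

/-- A link starts a chain of two units. -/
lemma chn_of_link (hG : ClassC G R) {u v : V} (h : Lk G R u v) : ∃ x y, Chn G R 2 x y := by
  obtain ⟨u', hu⟩ := h.2.1
  obtain ⟨v', hv⟩ := h.2.2
  have huv := h.1.ne
  have n1 : u' ≠ v := by
    rintro rfl; exact h.1.2 hu.2
  have n2 : u ≠ v' := by
    rintro rfl; exact h.1.2 hv.2.symm
  have n3 : u' ≠ v' := by
    rintro rfl; exact huv (hG.matching hu.symm hv.symm)
  have n4 := hu.ne
  have n5 := hv.ne
  refine ⟨fun i => if i = 1 then u' else v, fun i => if i = 1 then u else v', by omega, ?_, ?_, ?_, ?_,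
    ?_⟩
  · intro i h1 h2
    by_cases hi : i = 1
    · simp only [hi, if_true]; exact hu.symm
    · simp only [hi, if_false]; exact hv
  · intro i h1 h2
    have hi : i = 1 := by omega
    subst hi
    simpa using h
  · intro i j h1 h2 h3 h4 h5
    by_cases hi : i = 1 <;> by_cases hj : j = 1
    · omega
    · simp only [hi, hj, if_true, if_false] at h5; exact absurd h5 n1
    · simp only [hi, hj, if_true, if_false] at h5; exact absurd h5.symm n1
    · omega
  · intro i j h1 h2 h3 h4 h5
    by_cases hi : i = 1 <;> by_cases hj : j = 1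
    · omega
    · simp only [hi, hj, if_true, if_false] at h5; exact absurd h5 n2
    · simp only [hi, hj, if_true, if_false] at h5; exact absurd h5.symm n2
    · omega
  · intro i j h1 h2 h3 h4 h5
    by_cases hi : i = 1 <;> by_cases hj : j = 1
    · simp only [hi, hj, if_true] at h5; exact n4 h5.symm
    · simp only [hi, hj, if_true, if_false] at h5; exact n3 h5
    · simp only [hi, hj, if_true, if_false] at h5; exact huv h5.symm
    · simp only [hi, hj, if_false] at h5; exact n5 h5

/-- Every link gives a chain with at least two units which is closed or has unlinked ends. -/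
theorem exists_chain (hG : ClassC G R) {u v : V} (h : Lk G R u v) : ∃ k x y, 2 ≤ k ∧ Chn G R k x y ∧
    (Lk G R (y k) (x 1) ∨ ((∀ w, ¬ Lk G R (x 1) w) ∧ ∀ w, ¬ Lk G R (y k) w)) := by
  have hb : ∀ k, (∃ x y, Chn G R k x y) → k ≤ Fintype.card V := by
    rintro k ⟨x, y, hxy⟩; exact hxy.card_le
  set k := Nat.findGreatest (fun k => ∃ x y, Chn G R k x y) (Fintype.card V) with hk
  have h2 := chn_of_link hG h
  have hP : ∃ x y, Chn G R k x y :=
    Nat.findGreatest_spec (P := fun k => ∃ x y, Chn G R k x y) (hb 2 h2) h2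
  have hk2 : 2 ≤ k := Nat.le_findGreatest (hb 2 h2) h2
  have hno : ∀ x y, ¬ Chn G R (k + 1) x y := by
    intro x y hxy
    have : k + 1 ≤ k := Nat.le_findGreatest (P := fun k => ∃ x y, Chn G R k x y)
      (hb _ ⟨x, y, hxy⟩) ⟨x, y, hxy⟩
    omega
  obtain ⟨x, y, hxy⟩ := hP
  refine ⟨k, x, y, hk2, hxy, ?_⟩
  by_cases hcl : Lk G R (y k) (x 1)
  · exact Or.inl hcl
  · right
    constructor
    · intro w hw
      rcases hxy.extL hG hw with h | ⟨x', y', h⟩
      · exact hcl h
      · exact hno _ _ h
    · intro w hw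
      have hr := hxy.rev
      have hw' : Lk G R ((fun i => y (k + 1 - i)) 1) w := by
        show Lk G R (y (k + 1 - 1)) w
        rw [Nat.add_sub_cancel]; exact hw
      rcases hr.extL hG hw' with h | ⟨x', y', h⟩
      · apply hcl
        have e1 : k + 1 - k = 1 := by omega
        simp only [e1, Nat.add_sub_cancel] at h
        exact h.symm
      · exact hno _ _ h

/-- The labelling with the labels `mu` on the chain and `f` elsewhere. -/
noncomputable def lbl (k : ℕ) (x y : ℕ → V) (mu : ℕ → Q) (f : V → Q) (v : V) : Q :=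
  if h : ∃ i, 1 ≤ i ∧ i ≤ k ∧ v = x i then sg h.choose (mu h.choose)
  else if h : ∃ i, 1 ≤ i ∧ i ≤ k ∧ v = y i then neg (sg h.choose (mu h.choose)) else f v

section lbl

variable {k : ℕ} {x y : ℕ → V} {mu : ℕ → Q} {f : V → Q}

lemma lbl_x (h : Chn G R k x y) {i : ℕ} (h1 : 1 ≤ i) (h2 : i ≤ k) :
    lbl k x y mu f (x i) = sg i (mu i) := by
  have hex : ∃ j, 1 ≤ j ∧ j ≤ k ∧ x i = x j := ⟨i, h1, h2, rfl⟩
  unfold lbl
  rw [dif_pos hex]
  have hs := hex.choose_spec
  have := h.injx i _ h1 h2 hs.1 hs.2.1 hs.2.2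
  rw [← this]

lemma lbl_y (h : Chn G R k x y) {i : ℕ} (h1 : 1 ≤ i) (h2 : i ≤ k) :
    lbl k x y mu f (y i) = neg (sg i (mu i)) := by
  have hne : ¬ ∃ j, 1 ≤ j ∧ j ≤ k ∧ y i = x j := by
    rintro ⟨j, h3, h4, h5⟩
    exact h.xy j i h3 h4 h1 h2 h5.symm
  have hex : ∃ j, 1 ≤ j ∧ j ≤ k ∧ y i = y j := ⟨i, h1, h2, rfl⟩
  unfold lbl
  rw [dif_neg hne, dif_pos hex]
  have hs := hex.choose_spec
  have := h.injy i _ h1 h2 hs.1 hs.2.1 hs.2.2
  rw [← this]

lemma lbl_out {v : V} (hv : ¬ InC k x y v) : lbl k x y mu f v = f v := by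
  unfold lbl
  rw [dif_neg (fun ⟨i, h1, h2, h3⟩ => hv ⟨i, h1, h2, Or.inl h3⟩),
    dif_neg (fun ⟨i, h1, h2, h3⟩ => hv ⟨i, h1, h2, Or.inr h3⟩)]

lemma sg_succ (i : ℕ) (t : Q) : sg (i + 1) t = neg (sg i t) := by
  rcases Nat.mod_two_eq_zero_or_one i with h | h
  · rw [sg_even h, sg_odd (show (i + 1) % 2 = 1 by omega)]
  · rw [sg_odd h, sg_even (show (i + 1) % 2 = 0 by omega), H3DA.neg_neg]

lemma nr_sg (i : ℕ) (s t : Q) : nr (sg i s) (sg i t) = nr s t := by
  unfold sg
  split_ifs
  · rfl
  · exact nr_neg_neg s t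

end lbl

/-- A labelling of all edges away from the chain. -/
def OffC (G : SimpleGraph V) (R : V → Bool) (k : ℕ) (x y : ℕ → V) (f : V → Q) : Prop :=
  ∀ u v, G.Adj u v → ¬ InC k x y u → ¬ InC k x y v → okE R f u v

lemma exists_off {k : ℕ} {x y : ℕ → V} (h : Chn G R k x y) (hc : Crit G R) :
    ∃ f, OffC G R k x y f := by
  obtain ⟨f, hf⟩ := hc.del_set {v | InC k x y v} (InC.x le_rfl h.pos) (h.me 1 le_rfl h.pos).1
  exact ⟨f, fun u v huv hu hv => hf u v huv hu hv⟩

/-- The conditions on the labels of the chain. -/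
structure FitC (G : SimpleGraph V) (R : V → Bool) (k : ℕ) (x y : ℕ → V) (f : V → Q)
    (mu : ℕ → Q) : Prop where
  walk : ∀ i, 1 ≤ i → i < k → nr (mu i) (mu (i + 1)) = true
  cyc : Lk G R (y k) (x 1) → nr (mu k) (mu 1) = true
  two : ∀ v a b, IsTwo G R v a b → InC k x y a → lbl k x y mu f a ≠ neg (lbl k x y mu f b)
  cat : ∀ m z c, Cat G R m z c → (∃ j ≤ m + 1, InC k x y (c j)) →
    CExt m (fun j => lbl k x y mu f (c j))

lemma isTwo_symm {v a b : V} (h : IsTwo G R v a b) : IsTwo G R v b a := by
  obtain ⟨h1, h2, h3, h4, h5, h6, h7⟩ := h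
  exact ⟨h1, h3, h2, h4.symm, h6, h5, fun w hw => (h7 w hw).symm⟩

/-- In an edge-minimal graph without a labelling a chain has no fitting labels. -/
theorem chain_contra (hG : ClassC G R) (hc : Crit G R) {k : ℕ} {x y : ℕ → V} (h : Chn G R k x y)
    (hends : Lk G R (y k) (x 1) ∨ ((∀ w, ¬ Lk G R (x 1) w) ∧ ∀ w, ¬ Lk G R (y k) w))
    {f : V → Q} (hf : OffC G R k x y f) {mu : ℕ → Q} (hmu : FitC G R k x y f mu) : False := by
  -- parity of closed chains
  have hside : ∀ i, 1 ≤ i → i ≤ k → (R (x i) = R (x 1) ↔ i % 2 = 1) := by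
    intro i hi
    induction i, hi using Nat.le_induction with
    | base => intro _; simp
    | succ n hn ih =>
      intro hk
      have h1 := ih (by omega)
      have h2 := (h.lk n hn (by omega)).1.2
      have h3 := (h.me n hn (by omega)).2
      have h4 : (R (x (n + 1)) = R (x 1)) ↔ ¬ (R (x n) = R (x 1)) := by
        revert h2 h3
        rcases R (x n) <;> rcases R (y n) <;> rcases R (x (n + 1)) <;> rcases R (x 1) <;> simp
      rw [h4, h1]; omega
  refine CLB.H3.cat_glue hG hc (lbl k x y mu f) ?_ ?_ ?_ ?_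
  · intro u v huv
    by_cases hu : InC k x y u
    · obtain ⟨i, h1, h2, rfl | rfl⟩ := hu
      · rw [hG.matching huv (h.me i h1 h2), lbl_x h h1 h2, lbl_y h h1 h2]
      · rw [hG.matching huv (h.me i h1 h2).symm, lbl_x h h1 h2, lbl_y h h1 h2, H3DA.neg_neg]
    · have hv : ¬ InC k x y v := fun hv => hu (h.mate hG hv huv.symm)
      rw [lbl_out hu, lbl_out hv]
      exact (hf u v huv.1 hu hv).1 huv.2
  · -- links
    have key : ∀ i, 1 ≤ i → i < k →
        nr (lbl k x y mu f (y i)) (lbl k x y mu f (x (i + 1))) = true := by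
      intro i h1 h2
      rw [lbl_y h h1 (by omega), lbl_x h (by omega) (by omega), ← sg_succ, nr_sg]
      exact hmu.walk i h1 h2
    have keyc : Lk G R (y k) (x 1) → nr (lbl k x y mu f (y k)) (lbl k x y mu f (x 1)) = true := by
      intro hl
      have hpar : k % 2 = 0 := by
        have h1 := (hside k h.pos le_rfl)
        have h2 := (h.me k h.pos le_rfl).2
        have h3 := hl.1.2
        by_contra h4
        have h5 := h1.2 (by omega)
        exact h3 (by rw [← h2, h5])
      rw [lbl_y h h.pos le_rfl, lbl_x h le_rfl h.pos, ← sg_succ,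
        sg_odd (show (k + 1) % 2 = 1 by omega), sg_odd (show 1 % 2 = 1 by rfl), nr_neg_neg]
      exact hmu.cyc hl
    intro u v huv
    by_cases hu : InC k x y u
    · obtain ⟨i, h1, h2, rfl | rfl⟩ := hu
      · by_cases hi : i = 1
        · subst hi
          rcases hends with hl | ⟨hl, -⟩
          · rw [huv.unique hG hl.symm]
            exact nr_symm (keyc hl)
          · exact absurd huv (hl v)
        · have h3 := h.lk (i - 1) (by omega) (by omega)
          have h4 := key (i - 1) (by omega) (by omega)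
          rw [show i - 1 + 1 = i by omega] at h3 h4
          rw [huv.unique hG h3.symm]
          exact nr_symm h4
      · by_cases hi : i = k
        · subst hi
          rcases hends with hl | ⟨-, hl⟩
          · rw [huv.unique hG hl]
            exact keyc hl
          · exact absurd huv (hl v)
        · have h3 := h.lk i h1 (by omega)
          rw [huv.unique hG h3]
          exact key i h1 (by omega)
    · have hv : ¬ InC k x y v := by
        rintro ⟨i, h1, h2, rfl | rfl⟩
        · by_cases hi : i = 1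
          · subst hi
            rcases hends with hl | ⟨hl, -⟩
            · rw [huv.symm.unique hG hl.symm] at hu
              exact hu (InC.y h.pos le_rfl)
            · exact hl u huv.symm
          · have h3 := h.lk (i - 1) (by omega) (by omega)
            rw [show i - 1 + 1 = i by omega] at h3
            rw [huv.symm.unique hG h3.symm] at hu
            exact hu (InC.y (by omega) (by omega))
        · by_cases hi : i = k
          · subst hi
            rcases hends with hl | ⟨-, hl⟩
            · rw [huv.symm.unique hG hl] at hu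
              exact hu (InC.x le_rfl h.pos)
            · exact hl u huv.symm
          · have h3 := h.lk i h1 (by omega)
            rw [huv.symm.unique hG h3] at hu
            exact hu (InC.x (by omega) (by omega))
      rw [lbl_out hu, lbl_out hv]
      exact (hf u v huv.1.1 hu hv).2 huv.1.2
  · intro v a b hT
    by_cases ha : InC k x y a
    · exact hmu.two v a b hT ha
    · by_cases hb : InC k x y b
      · exact H3DA.ne_neg_symm (hmu.two v b a (isTwo_symm hT) hb)
      · rw [lbl_out ha, lbl_out hb]
        obtain ⟨h1, h2, h3, h4, h5, h6, h7⟩ := hT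
        have hv : ¬ InC k x y v := fun h' => h1 (h.cov h')
        have e1 := (hf v a h2 hv ha).2 (CLB.H3.he_of_unc h1 h2).2
        have e2 := (hf v b h3 hv hb).2 (CLB.H3.he_of_unc h1 h3).2
        exact H3DA.nr_common e1 e2
  · intro m z c hC
    by_cases hex : ∃ j ≤ m + 1, InC k x y (c j)
    · exact hmu.cat m z c hC hex
    · push Not at hex
      have e : ∀ j ≤ m + 1, lbl k x y mu f (c j) = f (c j) := fun j hj => lbl_out (hex j hj)
      have hz : ∀ i, 1 ≤ i → i ≤ m → ¬ InC k x y (z i) := fun i h1 h2 h' => hC.unc i h1 h2 (h.cov h')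
      have h0 : CExt m (fun j => f (c j)) := by
        refine hC.cext_of_near (fun i h1 h2 v hv => ?_)
        have hR := (CLB.H3.he_of_unc (hC.unc i h1 h2) hv).2
        refine (hf (z i) v hv (hz i h1 h2) ?_).2 hR
        rcases hC.nbr i h1 h2 v hv with h3 | ⟨h3, h4⟩ | ⟨h3, h4⟩ | ⟨h3, h4⟩ | ⟨h3, h4⟩
        · rw [h3]; exact hex i (by omega)
        · rw [h4]; exact hex 0 (by omega)
        · rw [h4]; exact hex (m + 1) le_rfl
        · rw [h4]; exact hz (i - 1) (by omega) (by omega)
        · rw [h4]; exact hz (i + 1) (by omega) (by omega)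
      obtain ⟨w, g1, g2, g3, g4⟩ := h0
      refine ⟨w, fun i h1 h2 => ?_, ?_, ?_, g4⟩
      · show nr (w i) (lbl k x y mu f (c i)) = true
        rw [e i (by omega)]; exact g1 i h1 h2
      · show nr (w 1) (lbl k x y mu f (c 0)) = true
        rw [e 0 (by omega)]; exact g2
      · show nr (w m) (lbl k x y mu f (c (m + 1))) = true
        rw [e (m + 1) le_rfl]; exact g3

end CLB.H95
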