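import Pool.Agent.Helper95_CLB.AlphaLab

/-!
The path of two vertices with one port in the first unit and one in the second unit: three starts are
enough even if every start forbids one label of the second unit.
-/

set_option autoImplicit false

namespace CLB.H95

open Finset
open H3DA (Q neg nr)
open CLB.H3 (CExt)

def okL (g g2 a : Q) : List Q := allQ.filter (fun u => ok2 g g2 a u)

def chkA : Bool := allQ.all (fun g => allQ.all (fun g2 => allQ.all (fun a =>
  a == g || Nat.ble 3 (okL g g2 a).length || (Nat.ble 2 (okL g g2 a).length && nr (neg g2) a))))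

lemma chkA_true : chkA = true := by decide +kernel

lemma allQ_nodup : allQ.Nodup := by decide

lemma okL_card (g g2 a : Q) : (univ.filter (fun u => ok2 g g2 a u = true)).card = (okL g g2 a).length := by
  have h1 : (okL g g2 a).Nodup := allQ_nodup.filter _
  rw [← List.toFinset_card_of_nodup h1]
  congr 1
  ext u
  simp [okL, mem_allQ]

lemma ok_many (g g2 a : Q) (h : a ≠ g) : 3 ≤ (univ.filter (fun u => ok2 g g2 a u = true)).card ∨
    (2 ≤ (univ.filter (fun u => ok2 g g2 a u = true)).card ∧ nr (neg g2) a = true) := by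
  rw [okL_card]
  have h1 := chkA_true
  unfold chkA at h1
  rw [List.all_eq_true] at h1
  have h1 := h1 g (mem_allQ _)
  rw [List.all_eq_true] at h1
  have h1 := h1 g2 (mem_allQ _)
  rw [List.all_eq_true] at h1
  have h1 := h1 a (mem_allQ _)
  simp only [Bool.or_eq_true, Bool.and_eq_true, beq_iff_eq, h, false_or] at h1
  rcases h1 with h1 | h1
  · exact Or.inl (Nat.le_of_ble_eq_true h1)
  · exact Or.inr ⟨Nat.le_of_ble_eq_true h1.1, h1.2⟩

lemma three_common : ∀ w a b c : Q, a ≠ b → a ≠ c → b ≠ c → nr w a = true → nr w b = true →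
    nr w c = true → ∀ u, nr a u = true → nr b u = true → nr c u = true → u = w := by decide +kernel

lemma ok2_ne (g g2 a u : Q) (h : ok2 g g2 a u = true) : u ≠ neg g2 ∧ nr a u = true := by
  unfold ok2 ext2 at h
  simp only [Bool.and_eq_true, Bool.not_eq_true', beq_eq_false_iff_ne] at h
  refine ⟨?_, h.1⟩
  have h1 := h.2.1.2
  intro he
  apply h1
  rw [he, H3DA.neg_neg]

/-- **Three starts.** -/
theorem alpha_two (g g2 : Q) {A : Finset Q} (hA : 3 ≤ A.card) (hg : g ∉ A) (t : Q → Q) :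
    ∃ a ∈ A, ∃ b ∈ A, ∃ u v, u ≠ v ∧ ok2 g g2 a u = true ∧ u ≠ t a ∧ ok2 g g2 b v = true ∧ v ≠ t b := by
  obtain ⟨a, ha, b, hb, c, hc, hab, hac, hbc⟩ := Finset.two_lt_card.1 (show 2 < A.card by omega)
  have ga : a ≠ g := fun h => hg (h ▸ ha)
  have gb : b ≠ g := fun h => hg (h ▸ hb)
  have gc : c ≠ g := fun h => hg (h ▸ hc)
  have one : ∀ a ∈ A, 3 ≤ (univ.filter (fun u => ok2 g g2 a u = true)).card →
      ∃ a ∈ A, ∃ b ∈ A, ∃ u v, u ≠ v ∧ ok2 g g2 a u = true ∧ u ≠ t a ∧ ok2 g g2 b v = true ∧ v ≠ t b := by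
    intro a ha h3
    have h4 := Finset.pred_card_le_card_erase (s := univ.filter (fun u => ok2 g g2 a u = true)) (a := t a)
    obtain ⟨u, hu, v, hv, huv⟩ := Finset.one_lt_card.1
      (show 1 < ((univ.filter (fun u => ok2 g g2 a u = true)).erase (t a)).card by omega)
    rw [mem_erase, mem_filter] at hu hv
    exact ⟨a, ha, a, ha, u, v, huv, hu.2.2, hu.1, hv.2.2, hv.1⟩
  have two : ∀ a, 2 ≤ (univ.filter (fun u => ok2 g g2 a u = true)).card →
      ∃ u, ok2 g g2 a u = true ∧ u ≠ t a := by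
    intro a h2
    have h4 := Finset.pred_card_le_card_erase (s := univ.filter (fun u => ok2 g g2 a u = true)) (a := t a)
    obtain ⟨u, hu⟩ := Finset.card_pos.1
      (show 0 < ((univ.filter (fun u => ok2 g g2 a u = true)).erase (t a)).card by omega)
    rw [mem_erase, mem_filter] at hu
    exact ⟨u, hu.2.2, hu.1⟩
  rcases ok_many g g2 a ga with h1 | ⟨h1, n1⟩
  · exact one a ha h1
  rcases ok_many g g2 b gb with h2 | ⟨h2, n2⟩
  · exact one b hb h2
  rcases ok_many g g2 c gc with h3 | ⟨h3, n3⟩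
  · exact one c hc h3
  obtain ⟨u, u1, u2⟩ := two a h1
  obtain ⟨v, v1, v2⟩ := two b h2
  obtain ⟨w, w1, w2⟩ := two c h3
  by_cases huv : u = v
  · by_cases huw : u = w
    · exfalso
      subst huv
      subst huw
      have e1 := ok2_ne _ _ _ _ u1
      have e2 := ok2_ne _ _ _ _ v1
      have e3 := ok2_ne _ _ _ _ w1
      exact e1.1 (three_common _ _ _ _ hab hac hbc n1 n2 n3 u e1.2 e2.2 e3.2)
    · exact ⟨a, ha, c, hc, u, w, huw, u1, u2, w1, w2⟩
  · exact ⟨a, ha, b, hb, u, v, huv, u1, u2, v1, v2⟩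

end CLB.H95
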