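import Pool.Agent.Helper95_CLB.OnlStart
import Pool.Agent.Helper95_CLB.AlphaTwo

/-!
The start with a path of two vertices, when the other port of the second unit is charged with one label
depending on the start.
-/

set_option autoImplicit false
set_option linter.unusedSectionVars false

namespace CLB.H95

open Finset Classical
open H3DA (Q neg nr)
open CLB.H3 (CExt Cat IsTwo Fits UPath he_of_unc cat_structure chn_side)

variable {V : Type*} {G H : SimpleGraph V} {R : V → Bool} [Fintype V] {k : ℕ} {x y : ℕ → V}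

/-- The start: two walks through the first two units. -/
theorem alpha_start2 (hG : ClassC G R) (h : Chn G R k x y) (hk : 3 ≤ k) {z c : ℕ → V}
    (hA : Cat G R 2 z c) (hAL : AL k x y c (x 1) (x 2)) {f : V → Q}
    {Φ : V → V → (ℕ → Q) → Finset Q} (h2 : ∀ v z g g', (Φ v z g ∪ Φ v z g').card ≤ 2)
    (hd : Dep k x y Φ) {w₂ : V} (hw₂ : w₂ ∈ prt G R (y 2)) (h1 : ∀ g, (Φ (y 2) w₂ g).card ≤ 1)
    (hz : ∀ v w h, w ∈ cSupp 2 z → Φ v w h = ∅) :
    ∃ g g', PW G R x y Φ 2 g ∧ PW G R x y Φ 2 g' ∧ g 2 ≠ g' 2 ∧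
      CExt 2 (fun j => lbl k x y g f (c j)) ∧ CExt 2 (fun j => lbl k x y g' f (c j)) := by
  obtain ⟨a, b, hab, ha, hb, hout⟩ := hAL
  have g0 : ℕ → Q := fun _ => (false, false, false)
  have h2' : ∀ v z, (Φ v z g0).card ≤ 2 := by
    intro v z
    have := h2 v z g0 g0
    rwa [Finset.union_self] at this
  have ham : a ≤ 2 + 1 := by omega
  have hbm : b ≤ 2 + 1 := by omega
  have pa := cl_mem hA.pos ham
  have pb := cl_mem hA.pos hbm
  have hza : z (cl 2 a) ∈ prt G R (x 1) := by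
    rw [mem_prt, ← ha]
    exact ⟨cat_adj_cl hA ham, hA.unc _ pa.1 pa.2⟩
  have hzb : z (cl 2 b) ∈ prt G R (x 2) := by
    rw [mem_prt, ← hb]
    exact ⟨cat_adj_cl hA hbm, hA.unc _ pb.1 pb.2⟩
  have l1 := lst_card (G := G) (R := R) (x := x) (y := y) (fun v z => Φ v z g0) 1
  have e1 := cst_le_zero h2' (n := 1) (prt_card hG (h.cov (InC.x le_rfl h.pos))) hza
    (hz _ _ _ (mem_cSupp pa.1 pa.2))
  have e2 := cst_le h2' (prt_card_lk hG (h.lk 1 le_rfl (by omega)))
  have hlk2 : Lk G R (x 2) (y 1) := (h.lk 1 le_rfl (by omega)).symm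
  have px2 := prt_card_lk hG hlk2
  have py2 := prt_card_lk hG (h.lk 2 (by omega) (by omega))
  set A := (lst G R x y (fun v z => Φ v z g0) 1).erase (f (c (mt a))) with hAdef
  have hA3 : 3 ≤ A.card := by
    have := Finset.pred_card_le_card_erase (s := lst G R x y (fun v z => Φ v z g0) 1)
      (a := f (c (mt a)))
    rw [← hAdef] at this
    omega
  -- the label forbidden by the start
  set hist : Q → ℕ → Q := fun a' i => if i ≤ 0 then g0 i else a' with hhist
  set t : Q → Q := fun a' => if hh : ∃ s, s ∈ Φ (y 2) w₂ (hist a') then neg hh.choose else a' with ht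
  have htt : ∀ a' u, u ≠ t a' → neg u ∉ Φ (y 2) w₂ (hist a') := by
    intro a' u hu hin
    apply hu
    have hh : ∃ s, s ∈ Φ (y 2) w₂ (hist a') := ⟨_, hin⟩
    rw [ht]
    simp only [dif_pos hh]
    have h3 := hh.choose_spec
    have h4 := Finset.card_le_one.1 (h1 (hist a')) _ hin _ h3
    rw [← h4, H3DA.neg_neg]
  obtain ⟨a1, ha1, a2, ha2, u, v, huv, ok1, u1, ok2', v1⟩ := alpha_two (f (c (mt a))) (f (c (mt b)))
    hA3 (Finset.notMem_erase _ _) t
  have key : ∀ a' ∈ A, ∀ u, ok2 (f (c (mt a))) (f (c (mt b))) a' u = true → u ≠ t a' →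
      ∃ g, PW G R x y Φ 2 g ∧ g 2 = u ∧ CExt 2 (fun j => lbl k x y g f (c j)) := by
    intro a' ha' u hok hu
    have hp : PW G R x y Φ 0 g0 := ⟨fun i h1 h2 => by omega, fun i h1 h2 => by omega⟩
    have p1 := hp.snoc hd (n := 0) (a := a') (by omega) (Finset.mem_of_mem_erase ha')
      (fun h' => by omega)
    have hna : nr a' u = true := by
      unfold ok2 at hok
      rw [Bool.and_eq_true] at hok
      exact hok.1
    have p2 := p1.snoc hd (n := 0 + 1) (a := u) (by omega) (by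
      show u ∈ lst G R x y (fun v z => Φ v z (hist a')) 2
      rw [mem_lst]
      constructor
      · intro s hs
        have hss : s = z (cl 2 b) := Finset.card_le_one.1 px2 _ hs _ hzb
        rw [hss, hz _ _ _ (mem_cSupp pb.1 pb.2)]
        exact Finset.notMem_empty _
      · intro s hs
        have hss : s = w₂ := Finset.card_le_one.1 py2 _ hs _ hw₂
        rw [hss]
        have := htt a' u hu
        rwa [sg_even (by omega)]) (fun _ => by simpa using hna)
    refine ⟨_, p2, by simp, alpha_reach h (by omega) hab ha hb hout ?_⟩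
    simpa using hok
  obtain ⟨g, h3, h4, h5⟩ := key a1 ha1 u ok1 u1
  obtain ⟨g', h3', h4', h5'⟩ := key a2 ha2 v ok2' v1
  exact ⟨g, g', h3, h3', by rw [h4, h4']; exact huv, h5, h5'⟩

/-- A start component and a component killed in the last two units, which also owns the other port of the
second unit. -/
theorem open_start_end2 (hR : Opt G R) (hG : ClassC G R) (hle : H ≤ G) (hc : Crit H R)
    (h : Chn H R k x y) (hk : 4 ≤ k) (hends : (∀ w, ¬ Lk H R (x 1) w) ∧ ∀ w, ¬ Lk H R (y k) w)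
    {zA cA : ℕ → V} (hA : Cat H R 2 zA cA) (hAL : AL k x y cA (x 1) (x 2))
    {mE : ℕ} {zE cE : ℕ → V} (hE : Cat H R mE zE cE) (hAE : cSupp 2 zA ≠ cSupp mE zE)
    {zy zk w₂ : V} (hzy : zy ∈ prt H R (y (k - 1)))
    (hzyE : zy ∈ cSupp mE zE) (hzk : zk ∈ prt H R (y k)) (hzkE : zk ∈ cSupp mE zE)
    (hw₂ : w₂ ∈ prt H R (y 2)) (hw₂E : w₂ ∈ cSupp mE zE)
    (hEK : ∀ f, OffC H R k x y f → ∃ φ, EKill H R k x y f (cSupp mE zE)
      (if InnerPt H R zy then 4 else 3) φ ∧ ∀ v w g, (φ v w g).card ≤ 1)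
    (hC : ∀ f, OffC H R k x y f → ∀ v₀ z₀, v₀ = x k → ∀ m z c, Cat H R m z c →
      (∃ j ≤ m + 1, InC k x y (c j)) → cSupp m z ≠ cSupp mE zE → cSupp m z ≠ cSupp 2 zA →
        ∃ φ, OKill H R k x y f (cSupp m z) v₀ z₀ φ) : False := by
  have hH := hG.mono hle
  obtain ⟨f, hf⟩ := exists_off h hc
  obtain ⟨φ, hφ, hφ1⟩ := hEK f hf
  -- the designated port
  obtain ⟨z₀, hz₀⟩ : ∃ z₀, (prt H R (x k)).card = 0 ∨ z₀ ∈ prt H R (x k) := by
    by_cases h0 : (prt H R (x k)).card = 0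
    · exact ⟨x k, Or.inl h0⟩
    · obtain ⟨v, hv⟩ := Finset.card_pos.1 (Nat.pos_of_ne_zero h0)
      exact ⟨v, Or.inr hv⟩
  obtain ⟨Φ, hΦ⟩ := exists_oforb hH h (f := f) (cSupp mE zE ∪ cSupp 2 zA) (x k) z₀
  have hdisj : ∀ w, w ∈ cSupp 2 zA → w ∉ cSupp mE zE := fun w h1 h2 => hAE (cSupp_eq hA hE h1 h2)
  set Φ' : V → V → (ℕ → Q) → Finset Q := fun v z g => if z ∈ cSupp mE zE then φ v z g else Φ v z g
    with hΦ'
  have h2 : ∀ v z g g', (Φ' v z g ∪ Φ' v z g').card ≤ 2 := by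
    intro v z g g'
    simp only [hΦ']
    split_ifs
    · exact hφ.two v z g g'
    · exact hΦ.two v z g g'
  have hd : Dep k x y Φ' := by
    intro i h1 h2 z g g' hs
    simp only [hΦ']
    split_ifs
    · exact hφ.dep i h1 h2 z g g' hs
    · exact hΦ.dep i h1 h2 z g g' (hs.mono (by omega))
  obtain ⟨g0, g0', hg0, hg0', hne0, hP, hP'⟩ := alpha_start2 hH h (by omega) hA hAL (f := f) h2 hd
    hw₂ (fun g => by
      simp only [hΦ']
      rw [if_pos hw₂E]
      exact hφ1 _ _ _)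
    (fun v w g hw => by
      simp only [hΦ']
      rw [if_neg (hdisj w hw)]
      exact hΦ.triv v w g (Or.inr hw))
  obtain ⟨g, g', hg, hg', hne, hPg, hPg'⟩ := walks_from hH h h2 hd (n0 := 2) (by omega)
    (alpha_inv h (by omega) hAL (f := f)) hg0 hg0' hne0 hP hP' (n := k - 2) (by omega) (by omega)
  refine end_finish hR hG hle hc h (by omega) hends hE hzy hzyE hzk hzkE hf hφ hz₀
    Set.subset_union_left hΦ ?_ hg hg' hne ?_
  · rintro v (⟨j, j1, j2, rfl⟩ | ⟨j, j1, j2, rfl⟩) a b hT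
    · exact isTwo_not_cat hE j1 j2 hT
    · exact isTwo_not_cat hA j1 j2 hT
  · intro mu _ hs m z c hC' hex hS
    by_cases hSA : cSupp m z = cSupp 2 zA
    · right
      rw [cext_iff_fits hC', hSA, ← cext_iff_fits hA]
      rcases hs with hs | hs
      · exact alpha_inv h (by omega) hAL g mu (hs.mono (by omega)) hPg
      · exact alpha_inv h (by omega) hAL g' mu (hs.mono (by omega)) hPg'
    · left
      refine ⟨hC f hf (x k) z₀ rfl m z c hC' hex hS hSA, fun i i1 i2 hi => ?_⟩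
      rcases hi with hi | hi
      · exact hS (cSupp_eq hC' hE (mem_cSupp i1 i2) hi)
      · exact hSA (cSupp_eq hC' hA (mem_cSupp i1 i2) hi)

end CLB.H95
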