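import Pool.Agent.Helper95_CLB.OnlPair
import Pool.Agent.Helper95_CLB.OnlStart2
import Pool.Agent.Helper95_CLB.StatQG
import Pool.Agent.Helper91_DA.EGraph

/-!
Open chains of at least three units: the final case distinction.
-/

set_option autoImplicit false
set_option linter.unusedSectionVars false

namespace CLB.H95

open Finset Classical
open H3DA (Q neg nr)
open CLB.H3 (CExt Cat IsTwo Fits UPath he_of_unc cat_structure chn_side)

variable {V : Type*} {G H : SimpleGraph V} {R : V → Bool} [Fintype V] {k : ℕ} {x y : ℕ → V}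

/-- The component sees exactly the vertices `x 1, ..., x a, y (k+1-b), ..., y k` of the chain, each of
them once. -/
structure Sp (k : ℕ) (x y : ℕ → V) (m : ℕ) (c : ℕ → V) (a b : ℕ) : Prop where
  a1 : 1 ≤ a
  b1 : 1 ≤ b
  ab : a + b ≤ k
  px : ∀ i, 1 ≤ i → i ≤ a → ∃ j ≤ m + 1, c j = x i
  py : ∀ i, i ≤ k → k + 1 ≤ i + b → ∃ j ≤ m + 1, c j = y i
  all : ∀ j ≤ m + 1, InC k x y (c j) →
    (∃ i, 1 ≤ i ∧ i ≤ a ∧ c j = x i) ∨ ∃ i, i ≤ k ∧ k + 1 ≤ i + b ∧ c j = y i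
  inj : ∀ i j, i ≤ m + 1 → j ≤ m + 1 → InC k x y (c i) → c i = c j → i = j

/-- The ports in the chain. -/
def JC (k : ℕ) (x y : ℕ → V) (c : ℕ → V) : ℕ → Prop := fun j => InC k x y (c j)

lemma inC_rev {v : V} : InC k (fun i => y (k + 1 - i)) (fun i => x (k + 1 - i)) v ↔ InC k x y v := by
  constructor
  · rintro ⟨i, h1, h2, h3 | h3⟩
    · exact ⟨k + 1 - i, by omega, by omega, Or.inr h3⟩
    · exact ⟨k + 1 - i, by omega, by omega, Or.inl h3⟩
  · rintro ⟨i, h1, h2, h3 | h3⟩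
    · refine ⟨k + 1 - i, by omega, by omega, Or.inr ?_⟩
      show v = x (k + 1 - (k + 1 - i))
      rw [show k + 1 - (k + 1 - i) = i by omega]; exact h3
    · refine ⟨k + 1 - i, by omega, by omega, Or.inl ?_⟩
      show v = y (k + 1 - (k + 1 - i))
      rw [show k + 1 - (k + 1 - i) = i by omega]; exact h3

lemma jc_rev (c : ℕ → V) : JC k (fun i => y (k + 1 - i)) (fun i => x (k + 1 - i)) c = JC k x y c := by
  funext j
  exact propext inC_rev

lemma Sp.rev {m : ℕ} {c : ℕ → V} {a b : ℕ} (h : Sp k x y m c a b) :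
    Sp k (fun i => y (k + 1 - i)) (fun i => x (k + 1 - i)) m c b a where
  a1 := h.b1
  b1 := h.a1
  ab := by have := h.ab; omega
  px i i1 i2 := h.py (k + 1 - i) (by omega) (by have := h.ab; omega)
  py i i1 i2 := h.px (k + 1 - i) (by omega) (by omega)
  all j hj hin := by
    rcases h.all j hj (inC_rev.1 hin) with ⟨i, i1, i2, i3⟩ | ⟨i, i1, i2, i3⟩
    · right
      have := h.ab
      refine ⟨k + 1 - i, by omega, by omega, ?_⟩
      show c j = x (k + 1 - (k + 1 - i))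
      rw [show k + 1 - (k + 1 - i) = i by omega]; exact i3
    · left
      have := h.ab
      refine ⟨k + 1 - i, by omega, by omega, ?_⟩
      show c j = y (k + 1 - (k + 1 - i))
      rw [show k + 1 - (k + 1 - i) = i by omega]; exact i3
  inj i j hi hj hin he := h.inj i j hi hj (inC_rev.1 hin) he

lemma AL.rev {c : ℕ → V} {v w : V} (h : AL k x y c v w) :
    AL k (fun i => y (k + 1 - i)) (fun i => x (k + 1 - i)) c v w := by
  obtain ⟨a, b, hab, h1, h2, h3⟩ := h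
  exact ⟨a, b, hab, h1, h2, fun j hj h4 h5 h6 => h3 j hj h4 h5 (inC_rev.1 h6)⟩

/-! ### The hypotheses -/

/-- Nearly closed patterns. -/
def LocH (H : SimpleGraph V) (R : V → Bool) (k : ℕ) (x y : ℕ → V) : Prop :=
  ∀ m z c, Cat H R m z c → 2 ≤ m → NCp m (JC k x y c) →
    (∃ a b, Sp k x y m c a b) ∨ (m = 2 ∧ AL k x y c (x 1) (x 2)) ∨ (m = 2 ∧ AL k x y c (y k) (y (k - 1)))

/-- The conclusion for a bad pattern. -/
def BadC (k : ℕ) (x y : ℕ → V) (m : ℕ) (c : ℕ → V) (p : ℕ) : Prop :=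
  c p ≠ x k ∧ (c p = y (k - 1) →
    (∃ q ≤ m + 1, c q = y k ∧ ∀ j ≤ m + 1, j ≠ p → j ≠ q → InC k x y (c j) → idx k x y (c j) + 2 ≤ k) ∨
    (k = 3 ∧ (∃ i j, i ≤ m + 1 ∧ j ≤ m + 1 ∧ i ≠ j ∧ c i = y k ∧ c j = y k) ∧
      (∃ l ≤ m + 1, c l = x 1) ∧ ∀ j ≤ m + 1, c j ≠ x (k - 1)))

/-- The bad patterns. -/
def BadH (H : SimpleGraph V) (R : V → Bool) (k : ℕ) (x y : ℕ → V) : Prop :=
  ∀ m z c, Cat H R m z c → ∀ p, BadP m (JC k x y c) p → BadC k x y m c p

/-- Components with one vertex. -/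
def OneH (H : SimpleGraph V) (R : V → Bool) (k : ℕ) (x y : ℕ → V) : Prop :=
  ∀ z c, Cat H R 1 z c → Sp k x y 1 c 1 1 ∨
    ∀ i j, i ≤ 2 → j ≤ 2 → InC k x y (c i) → InC k x y (c j) → i = j

/-- One nearly closed component seeing the two ends only. -/
def K0H (H : SimpleGraph V) (R : V → Bool) (k : ℕ) (x y : ℕ → V) : Prop :=
  ∀ m z c, Cat H R m z c → (m = 1 ∨ (2 ≤ m ∧ NCp m (JC k x y c))) → Sp k x y m c 1 1 → False

/-- Two nearly closed components seeing both ends. -/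
def PairH (H : SimpleGraph V) (R : V → Bool) (k : ℕ) (x y : ℕ → V) : Prop :=
  ∀ m z c m' z' c', Cat H R m z c → Cat H R m' z' c' → cSupp m z ≠ cSupp m' z' → 2 ≤ m → 2 ≤ m' →
    NCp m (JC k x y c) → NCp m' (JC k x y c') → ∀ a b, 2 ≤ a → 2 ≤ b → Sp k x y m c a 1 →
      Sp k x y m' c' 1 b → k = 5 ∧ m = 3 ∧ m' = 3 ∧ ∃ f1 f2,
        W3 k x y c (x 1) (x 2) (x 3) (y 5) f1 ∧ W3 k x y c' (y 5) (y 4) (y 3) (x 1) f2 ∧ Me H R f1 f2

/-- Three units. -/
def ThreeH (H : SimpleGraph V) (R : V → Bool) (k : ℕ) (x y : ℕ → V) : Prop :=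
  k = 3 → ∀ m z c, Cat H R m z c → 2 ≤ m → NCp m (JC k x y c) → Sp k x y m c 1 2 → False

/-! ### Components killed at the right end -/

/-- The ports in the last two units are `y (k-1)` and `y k`. -/
def ER (H : SimpleGraph V) (R : V → Bool) (k : ℕ) (x y : ℕ → V) (m : ℕ) (z c : ℕ → V) (p q : ℕ) : Prop :=
  2 ≤ m ∧ p ≤ m + 1 ∧ q ≤ m + 1 ∧ c p = y (k - 1) ∧ c q = y k ∧
    (∀ j ≤ m + 1, j ≠ p → j ≠ q → InC k x y (c j) → idx k x y (c j) + 2 ≤ k) ∧
    (m % 4 = 0 → ¬ InnerPt H R (z (cl m p)) → ¬ InnerPt H R (z (cl m q)) →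
      (∃ j ≤ m + 1, j ≠ p ∧ j ≠ q ∧ InC k x y (c j)) ∧ ∀ i j, i ≤ m + 1 → j ≤ m + 1 →
        InC k x y (c i) → InC k x y (c j) → idx k x y (c i) = idx k x y (c j) → i = j)

lemma er_of_sp (h : Chn H R k x y) (hk : 3 ≤ k) {m : ℕ} {z c : ℕ → V} (hm : 2 ≤ m) {a b : ℕ}
    (hs : Sp k x y m c a b) (hb : 2 ≤ b) : ∃ p q, ER H R k x y m z c p q := by
  obtain ⟨p, hp, hcp⟩ := hs.py (k - 1) (by omega) (by omega)
  obtain ⟨q, hq, hcq⟩ := hs.py k (by omega) (by have := hs.b1; omega)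
  have hab := hs.ab
  have ha1 := hs.a1
  refine ⟨p, q, hm, hp, hq, hcp, hcq, ?_, ?_⟩
  · intro j hj hjp hjq hin
    rcases hs.all j hj hin with ⟨i, i1, i2, i3⟩ | ⟨i, i1, i2, i3⟩
    · rw [i3, idx_x h i1 (by omega)]; omega
    · rw [i3, idx_y h (by omega) i1]
      have h1 : i ≠ k := by
        rintro rfl
        exact hjq (hs.inj j q hj hq hin (i3.trans hcq.symm))
      have h2 : i ≠ k - 1 := by
        rintro rfl
        exact hjp (hs.inj j p hj hp hin (i3.trans hcp.symm))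
      omega
  · intro _ _ _
    refine ⟨?_, ?_⟩
    · obtain ⟨j, hj, hcj⟩ := hs.px 1 le_rfl ha1
      refine ⟨j, hj, ?_, ?_, by rw [hcj]; exact InC.x le_rfl (by omega)⟩
      · rintro rfl
        exact h.xy 1 (k - 1) le_rfl (by omega) (by omega) (by omega) (hcj.symm.trans hcp)
      · rintro rfl
        exact h.xy 1 k le_rfl (by omega) (by omega) (by omega) (hcj.symm.trans hcq)
    · intro i j hi hj hin hin' he
      refine hs.inj i j hi hj hin ?_
      rcases hs.all i hi hin with ⟨s, s1, s2, s3⟩ | ⟨s, s1, s2, s3⟩ <;>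
        rcases hs.all j hj hin' with ⟨t, t1, t2, t3⟩ | ⟨t, t1, t2, t3⟩
      · rw [s3, t3, idx_x h s1 (by omega), idx_x h t1 (by omega)] at he
        rw [s3, t3, he]
      · rw [s3, t3, idx_x h s1 (by omega), idx_y h (by omega) t1] at he
        omega
      · rw [s3, t3, idx_y h (by omega) s1, idx_x h t1 (by omega)] at he
        omega
      · rw [s3, t3, idx_y h (by omega) s1, idx_y h (by omega) t1] at he
        rw [s3, t3, he]

lemma er_of_al {c z : ℕ → V} (hs : AL k x y c (y k) (y (k - 1))) :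
    ∃ p q, ER H R k x y 2 z c p q := by
  obtain ⟨a, b, hab, h1, h2, h3⟩ := hs
  exact ⟨b, a, le_rfl, by omega, by omega, h2, h1,
    fun j hj hjp hjq hin => absurd hin (h3 j (by omega) hjq hjp), fun h' => absurd h' (by omega)⟩

/-- The vertex `y (k-1)` has at most one port. -/
lemma own_unique (hG : ClassC H R) (h : Chn H R k x y) (hk : 3 ≤ k) {m : ℕ} {z c : ℕ → V}
    (hc : Cat H R m z c) {m' : ℕ} {z' c' : ℕ → V} (hc' : Cat H R m' z' c') {p p' : ℕ} (hp : p ≤ m + 1)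
    (hp' : p' ≤ m' + 1) (e : c p = y (k - 1)) (e' : c' p' = y (k - 1)) : cSupp m z = cSupp m' z' := by
  have hlk : Lk H R (y (k - 1)) (x (k - 1 + 1)) := h.lk (k - 1) (by omega) (by omega)
  have h1 := prt_card_lk hG hlk
  have a1 := cl_mem hc.pos hp
  have a2 := cl_mem hc'.pos hp'
  have b1 : z (cl m p) ∈ prt H R (y (k - 1)) := by
    rw [mem_prt, ← e]
    exact ⟨cat_adj_cl hc hp, hc.unc _ a1.1 a1.2⟩
  have b2 : z' (cl m' p') ∈ prt H R (y (k - 1)) := by
    rw [mem_prt, ← e']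
    exact ⟨cat_adj_cl hc' hp', hc'.unc _ a2.1 a2.2⟩
  have h2 := Finset.card_le_one.1 h1 _ b1 _ b2
  exact cSupp_eq hc hc' (mem_cSupp a1.1 a1.2) (by rw [h2]; exact mem_cSupp a2.1 a2.2)

/-- All other components have online strategies, one is killed at the end. -/
theorem fin_end (hR : Opt G R) (hG : ClassC G R) (hle : H ≤ G) (hc : Crit H R)
    (h : Chn H R k x y) (hk : 3 ≤ k) (hends : (∀ w, ¬ Lk H R (x 1) w) ∧ ∀ w, ¬ Lk H R (y k) w)
    (hone : ∀ z c, Cat H R 1 z c →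
      ∀ i j, i ≤ 2 → j ≤ 2 → InC k x y (c i) → InC k x y (c j) → i = j)
    (hbad : BadH H R k x y) {m : ℕ} {z c : ℕ → V} (hK : Cat H R m z c) {p q : ℕ}
    (hE : ER H R k x y m z c p q)
    (hoth : ∀ m' z' c', Cat H R m' z' c' → cSupp m' z' ≠ cSupp m z → 2 ≤ m' →
      ¬ NCp m' (JC k x y c')) : False := by
  have hH := hG.mono hle
  obtain ⟨hm, hp, hq, hcp, hcq, h3, h4⟩ := hE
  have a1 := cl_mem hK.pos hp
  have a2 := cl_mem hK.pos hq
  have b1 : z (cl m p) ∈ prt H R (y (k - 1)) := by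
    rw [mem_prt, ← hcp]
    exact ⟨cat_adj_cl hK hp, hK.unc _ a1.1 a1.2⟩
  have b2 : z (cl m q) ∈ prt H R (y k) := by
    rw [mem_prt, ← hcq]
    exact ⟨cat_adj_cl hK hq, hK.unc _ a2.1 a2.2⟩
  refine open_online_end hR hG hle hc h hk hends hK b1 (mem_cSupp a1.1 a1.2) b2
    (mem_cSupp a2.1 a2.2) ?_ ?_
  · intro f hf
    obtain ⟨φ, hφ, -⟩ := CLB.H91.ekill_of_ports hH h hk hf hK hm hp hq hcp hcq h3 h4
    exact ⟨φ, hφ⟩
  · intro f hf v₀ z₀ hv₀ m' z' c' hc' hex hne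
    refine okill_of_not_nc hH h hf hc' hex ?_ (hoth m' z' c' hc' hne) ?_
    · rintro rfl
      exact hone _ _ hc'
    · intro p' _ _ h5 _ h6
      exact (hbad m' z' c' hc' p' h6).1 (h5.trans hv₀)

/-- A vertex with both ports in one component. -/
lemma own_double (hG : ClassC H R) {m : ℕ} {z c : ℕ → V} (hc : Cat H R m z c) {m' : ℕ}
    {z' c' : ℕ → V} (hc' : Cat H R m' z' c') {i j l : ℕ} (hi : i ≤ m + 1) (hj : j ≤ m + 1)
    (hij : i ≠ j) (hl : l ≤ m' + 1) {v : V} (ei : c i = v) (ej : c j = v) (el : c' l = v) :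
    cSupp m z = cSupp m' z' := by
  have a1 := cl_mem hc.pos hi
  have a2 := cl_mem hc.pos hj
  have a3 := cl_mem hc'.pos hl
  have b1 : z (cl m i) ∈ prt H R v := by
    rw [mem_prt, ← ei]
    exact ⟨cat_adj_cl hc hi, hc.unc _ a1.1 a1.2⟩
  have b2 : z (cl m j) ∈ prt H R v := by
    rw [mem_prt, ← ej]
    exact ⟨cat_adj_cl hc hj, hc.unc _ a2.1 a2.2⟩
  have b3 : z' (cl m' l) ∈ prt H R v := by
    rw [mem_prt, ← el]
    exact ⟨cat_adj_cl hc' hl, hc'.unc _ a3.1 a3.2⟩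
  have hne : z (cl m i) ≠ z (cl m j) := fun he => hij (port_unique hc hi hj (ei.trans ej.symm) he)
  have hcov : Cov H R v := by rw [← ei]; exact hc.cov i hi
  have hsub : ({z (cl m i), z (cl m j)} : Finset V) = prt H R v := by
    apply Finset.eq_of_subset_of_card_le
    · intro t ht
      simp only [mem_insert, mem_singleton] at ht
      rcases ht with rfl | rfl
      · exact b1
      · exact b2
    · rw [Finset.card_pair hne]; exact prt_card hG hcov
  rw [← hsub] at b3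
  simp only [mem_insert, mem_singleton] at b3
  rcases b3 with e | e
  · exact cSupp_eq hc hc' (mem_cSupp a1.1 a1.2) (by rw [← e]; exact mem_cSupp a3.1 a3.2)
  · exact cSupp_eq hc hc' (mem_cSupp a2.1 a2.2) (by rw [← e]; exact mem_cSupp a3.1 a3.2)

/-- Ports do not depend on the description of the component. -/
lemma own_transfer {m : ℕ} {z c : ℕ → V} (hc : Cat H R m z c) {m' : ℕ} {z' c' : ℕ → V}
    (hc' : Cat H R m' z' c') (he : cSupp m z = cSupp m' z') {l : ℕ} (hl : l ≤ m' + 1) :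
    ∃ j ≤ m + 1, c j = c' l := by
  have a3 := cl_mem hc'.pos hl
  have h1 : z' (cl m' l) ∈ cSupp m z := by rw [he]; exact mem_cSupp a3.1 a3.2
  obtain ⟨i, i1, i2, i3⟩ := h1
  have h2 : H.Adj (z i) (c' l) := by rw [i3]; exact (cat_adj_cl hc' hl).symm
  have hcov := hc'.cov l hl
  rcases hc.nbr i i1 i2 _ h2 with e | ⟨-, e⟩ | ⟨-, e⟩ | ⟨e1, e⟩ | ⟨e1, e⟩
  · exact ⟨i, by omega, e.symm⟩
  · exact ⟨0, by omega, e.symm⟩
  · exact ⟨m + 1, le_rfl, e.symm⟩
  · exact absurd (e ▸ hcov) (hc.unc (i - 1) (by omega) (by omega))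
  · exact absurd (e ▸ hcov) (hc.unc (i + 1) (by omega) (by omega))

/-- A bad pattern killed at the end, no nearly closed component. -/
theorem fin_bad (hR : Opt G R) (hG : ClassC G R) (hle : H ≤ G) (hc : Crit H R)
    (h : Chn H R k x y) (hk : 3 ≤ k) (hends : (∀ w, ¬ Lk H R (x 1) w) ∧ ∀ w, ¬ Lk H R (y k) w)
    (hone : ∀ z c, Cat H R 1 z c →
      ∀ i j, i ≤ 2 → j ≤ 2 → InC k x y (c i) → InC k x y (c j) → i = j)
    (hbad : BadH H R k x y)
    (hoth : ∀ m' z' c', Cat H R m' z' c' → 2 ≤ m' → ¬ NCp m' (JC k x y c'))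
    {m : ℕ} {z c : ℕ → V} {p : ℕ} (hK : Cat H R m z c) (hp : BadP m (JC k x y c) p)
    (hcp : c p = y (k - 1)) (hq : ∃ q ≤ m + 1, c q = y k ∧
      ∀ j ≤ m + 1, j ≠ p → j ≠ q → InC k x y (c j) → idx k x y (c j) + 2 ≤ k) : False := by
  obtain ⟨q, hq, hcq, hoth'⟩ := hq
  have hpm : 2 ≤ m ∧ 2 ≤ p ∧ p + 1 ≤ m := by
    unfold BadP at hp; omega
  refine fin_end hR hG hle hc h hk hends hone hbad hK (p := p) (q := q)
    ⟨hpm.1, by omega, hq, hcp, hcq, hoth', fun _ h1 _ => ?_⟩ (fun m' z' c' h1 _ h2 => hoth m' z' c' h1 h2)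
  exact absurd ((CLB.H91.innerPt_iff hK (by omega)).2 ⟨hpm.2.1, hpm.2.2⟩) h1

/-- No nearly closed component and no bad pattern. -/
theorem fin_clean (hR : Opt G R) (hG : ClassC G R) (hle : H ≤ G) (hc : Crit H R)
    (h : Chn H R k x y) (hk : 3 ≤ k) (hends : (∀ w, ¬ Lk H R (x 1) w) ∧ ∀ w, ¬ Lk H R (y k) w)
    (hone : ∀ z c, Cat H R 1 z c →
      ∀ i j, i ≤ 2 → j ≤ 2 → InC k x y (c i) → InC k x y (c j) → i = j)
    (hbad : BadH H R k x y)
    (hoth : ∀ m' z' c', Cat H R m' z' c' → 2 ≤ m' → ¬ NCp m' (JC k x y c'))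
    (hB : ∀ m z c p, Cat H R m z c → BadP m (JC k x y c) p → c p ≠ y (k - 1)) : False := by
  have hH := hG.mono hle
  refine open_online hR hG hle hc h hk hends ?_
  intro f hf v₀ z₀ hv₀ m' z' c' hc' hex
  refine okill_of_not_nc hH h hf hc' hex ?_ (hoth m' z' c' hc') ?_
  · rintro rfl
    exact hone _ _ hc'
  · intro p' _ _ h5 _ h6
    rcases hv₀ with hv₀ | hv₀
    · exact (hbad m' z' c' hc' p' h6).1 (h5.trans hv₀)
    · exact hB m' z' c' p' hc' h6 (h5.trans hv₀)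

/-- No nearly closed component. -/
theorem fin_none (hR : Opt G R) (hG : ClassC G R) (hle : H ≤ G) (hc : Crit H R)
    (h : Chn H R k x y) (hk : 3 ≤ k) (hends : (∀ w, ¬ Lk H R (x 1) w) ∧ ∀ w, ¬ Lk H R (y k) w)
    (hone : ∀ z c, Cat H R 1 z c →
      ∀ i j, i ≤ 2 → j ≤ 2 → InC k x y (c i) → InC k x y (c j) → i = j)
    (hbad : BadH H R k x y) (hbad' : BadH H R k (fun i => y (k + 1 - i)) (fun i => x (k + 1 - i)))
    (hoth : ∀ m' z' c', Cat H R m' z' c' → 2 ≤ m' → ¬ NCp m' (JC k x y c')) : False := by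
  have hH := hG.mono hle
  have hrev := h.rev
  have hends' : (∀ w, ¬ Lk H R ((fun i => y (k + 1 - i)) 1) w) ∧
      ∀ w, ¬ Lk H R ((fun i => x (k + 1 - i)) k) w := by
    have e1 : k + 1 - 1 = k := by omega
    have e2 : k + 1 - k = 1 := by omega
    simp only [e1, e2]
    exact ⟨hends.2, hends.1⟩
  have hone' : ∀ z c, Cat H R 1 z c → ∀ i j, i ≤ 2 → j ≤ 2 →
      InC k (fun i => y (k + 1 - i)) (fun i => x (k + 1 - i)) (c i) →
      InC k (fun i => y (k + 1 - i)) (fun i => x (k + 1 - i)) (c j) → i = j :=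
    fun z c h1 i j h2 h3 h4 h5 => hone z c h1 i j h2 h3 (inC_rev.1 h4) (inC_rev.1 h5)
  have hoth' : ∀ m' z' c', Cat H R m' z' c' → 2 ≤ m' →
      ¬ NCp m' (JC k (fun i => y (k + 1 - i)) (fun i => x (k + 1 - i)) c') := by
    intro m' z' c' h1 h2
    rw [jc_rev]
    exact hoth m' z' c' h1 h2
  by_cases hB : ∃ m z c p, Cat H R m z c ∧ BadP m (JC k x y c) p ∧ c p = y (k - 1)
  · obtain ⟨m, z, c, p, hK, hp, hcp⟩ := hB
    rcases (hbad m z c hK p hp).2 hcp with hq | ⟨hk3, ⟨i, j, hi, hj, hij, ei, ej⟩, -, hnx⟩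
    · exact fin_bad hR hG hle hc h hk hends hone hbad hoth hK hp hcp hq
    · by_cases hB' : ∃ m z c p, Cat H R m z c ∧
          BadP m (JC k (fun i => y (k + 1 - i)) (fun i => x (k + 1 - i)) c) p ∧
          c p = (fun i => x (k + 1 - i)) (k - 1)
      · obtain ⟨m', z', c', p', hK', hp', hcp'⟩ := hB'
        rcases (hbad' m' z' c' hK' p' hp').2 hcp' with hq | ⟨-, -, ⟨l, hl, el⟩, -⟩
        · exact fin_bad hR hG hle hc hrev hk hends' hone' hbad' hoth' hK' hp' hcp' hq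
        · have el' : c' l = y k := by
            have e1 : k + 1 - 1 = k := by omega
            simp only [e1] at el
            exact el
          have hSS := own_double hH hK hK' hi hj hij hl ei ej el'
          have hpm : p' ≤ m' + 1 := by unfold BadP at hp'; omega
          obtain ⟨s, hs, es⟩ := own_transfer hK hK' hSS hpm
          refine hnx s hs (es.trans ?_)
          have e2 : k + 1 - (k - 1) = k - 1 := by omega
          simp only [e2] at hcp'
          exact hcp'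
      · refine fin_clean hR hG hle hc hrev hk hends' hone' hbad' hoth' ?_
        intro m' z' c' p' h1 h2 h3
        exact hB' ⟨m', z', c', p', h1, h2, h3⟩
  · refine fin_clean hR hG hle hc h hk hends hone hbad hoth ?_
    intro m' z' c' p' h1 h2 h3
    exact hB ⟨m', z', c', p', h1, h2, h3⟩

/-- A start component and a component killed at the end. -/
theorem fin_start (hR : Opt G R) (hG : ClassC G R) (hle : H ≤ G) (hc : Crit H R)
    (h : Chn H R k x y) (hk : 4 ≤ k) (hends : (∀ w, ¬ Lk H R (x 1) w) ∧ ∀ w, ¬ Lk H R (y k) w)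
    (hone : ∀ z c, Cat H R 1 z c →
      ∀ i j, i ≤ 2 → j ≤ 2 → InC k x y (c i) → InC k x y (c j) → i = j)
    (hbad : BadH H R k x y) {m : ℕ} {z c : ℕ → V} (hK : Cat H R m z c) {p q : ℕ}
    (hE : ER H R k x y m z c p q) (hd2 : m % 4 ≠ 0 ∨ InnerPt H R (z (cl m p)) ∨
      InnerPt H R (z (cl m q)) ∨ ∀ j ≤ m + 1, InC k x y (c j) → idx k x y (c j) ≠ 2)
    {zA cA : ℕ → V} (hA : Cat H R 2 zA cA) (hAL : AL k x y cA (x 1) (x 2))
    (hAE : cSupp 2 zA ≠ cSupp m z)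
    (hoth : ∀ m' z' c', Cat H R m' z' c' → cSupp m' z' ≠ cSupp m z → cSupp m' z' ≠ cSupp 2 zA →
      2 ≤ m' → ¬ NCp m' (JC k x y c')) : False := by
  have hH := hG.mono hle
  obtain ⟨hm, hp, hq, hcp, hcq, h3, h4⟩ := hE
  have a1 := cl_mem hK.pos hp
  have a2 := cl_mem hK.pos hq
  have b1 : z (cl m p) ∈ prt H R (y (k - 1)) := by
    rw [mem_prt, ← hcp]
    exact ⟨cat_adj_cl hK hp, hK.unc _ a1.1 a1.2⟩
  have b2 : z (cl m q) ∈ prt H R (y k) := by
    rw [mem_prt, ← hcq]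
    exact ⟨cat_adj_cl hK hq, hK.unc _ a2.1 a2.2⟩
  refine open_start_end hR hG hle hc h hk hends hA hAL hK hAE b1 (mem_cSupp a1.1 a1.2) b2
    (mem_cSupp a2.1 a2.2) ?_ ?_
  · intro f hf
    obtain ⟨φ, hφ, hφ2⟩ := CLB.H91.ekill_of_ports hH h (by omega) hf hK hm hp hq hcp hcq h3 h4
    exact ⟨φ, hφ, hφ2 hd2⟩
  · intro f hf v₀ z₀ hv₀ m' z' c' hc' hex hne hne'
    refine okill_of_not_nc hH h hf hc' hex ?_ (hoth m' z' c' hc' hne hne') ?_
    · rintro rfl
      exact hone _ _ hc'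
    · intro p' _ _ h5 _ h6
      exact (hbad m' z' c' hc' p' h6).1 (h5.trans hv₀)

/-- A start component and a component killed at the end which owns `y 2`. -/
theorem fin_start2 (hR : Opt G R) (hG : ClassC G R) (hle : H ≤ G) (hc : Crit H R)
    (h : Chn H R k x y) (hk : 4 ≤ k) (hends : (∀ w, ¬ Lk H R (x 1) w) ∧ ∀ w, ¬ Lk H R (y k) w)
    (hone : ∀ z c, Cat H R 1 z c →
      ∀ i j, i ≤ 2 → j ≤ 2 → InC k x y (c i) → InC k x y (c j) → i = j)
    (hbad : BadH H R k x y) {m : ℕ} {z c : ℕ → V} (hK : Cat H R m z c) {p q : ℕ}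
    (hE : ER H R k x y m z c p q) {r : ℕ} (hr : r ≤ m + 1) (hcr : c r = y 2)
    {zA cA : ℕ → V} (hA : Cat H R 2 zA cA) (hAL : AL k x y cA (x 1) (x 2))
    (hAE : cSupp 2 zA ≠ cSupp m z)
    (hoth : ∀ m' z' c', Cat H R m' z' c' → cSupp m' z' ≠ cSupp m z → cSupp m' z' ≠ cSupp 2 zA →
      2 ≤ m' → ¬ NCp m' (JC k x y c')) : False := by
  have hH := hG.mono hle
  obtain ⟨hm, hp, hq, hcp, hcq, h3, h4⟩ := hE
  have a1 := cl_mem hK.pos hp
  have a2 := cl_mem hK.pos hq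
  have a3 := cl_mem hK.pos hr
  have b1 : z (cl m p) ∈ prt H R (y (k - 1)) := by
    rw [mem_prt, ← hcp]
    exact ⟨cat_adj_cl hK hp, hK.unc _ a1.1 a1.2⟩
  have b2 : z (cl m q) ∈ prt H R (y k) := by
    rw [mem_prt, ← hcq]
    exact ⟨cat_adj_cl hK hq, hK.unc _ a2.1 a2.2⟩
  have b3 : z (cl m r) ∈ prt H R (y 2) := by
    rw [mem_prt, ← hcr]
    exact ⟨cat_adj_cl hK hr, hK.unc _ a3.1 a3.2⟩
  refine open_start_end2 hR hG hle hc h hk hends hA hAL hK hAE b1 (mem_cSupp a1.1 a1.2) b2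
    (mem_cSupp a2.1 a2.2) b3 (mem_cSupp a3.1 a3.2) ?_ ?_
  · intro f hf
    obtain ⟨φ, hφ, -, hφ2⟩ := CLB.H91.ekill_of_ports_card hH h (by omega) hf hK hm hp hq hcp hcq h3 h4
    exact ⟨φ, hφ, hφ2⟩
  · intro f hf v₀ z₀ hv₀ m' z' c' hc' hex hne hne'
    refine okill_of_not_nc hH h hf hc' hex ?_ (hoth m' z' c' hc' hne hne') ?_
    · rintro rfl
      exact hone _ _ hc'
    · intro p' _ _ h5 _ h6
      exact (hbad m' z' c' hc' p' h6).1 (h5.trans hv₀)

/-- Nearly closed components owning `y (k-1)` and `y k`, or `x 1` and `x 2`. -/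
def NR (k : ℕ) (x y : ℕ → V) (m : ℕ) (c : ℕ → V) : Prop :=
  (∃ a b, 2 ≤ b ∧ Sp k x y m c a b) ∨ (m = 2 ∧ AL k x y c (y k) (y (k - 1)))

def NL (k : ℕ) (x y : ℕ → V) (m : ℕ) (c : ℕ → V) : Prop :=
  (∃ a b, 2 ≤ a ∧ Sp k x y m c a b) ∨ (m = 2 ∧ AL k x y c (x 1) (x 2))

lemma NL.rev {m : ℕ} {c : ℕ → V} (hk : 3 ≤ k) (h : NL k x y m c) :
    NR k (fun i => y (k + 1 - i)) (fun i => x (k + 1 - i)) m c := by
  rcases h with ⟨a, b, h1, h2⟩ | ⟨h1, h2⟩
  · exact Or.inl ⟨b, a, h1, h2.rev⟩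
  · refine Or.inr ⟨h1, ?_⟩
    have e1 : k + 1 - k = 1 := by omega
    have e2 : k + 1 - (k - 1) = 2 := by omega
    simp only [e1, e2]
    exact h2.rev

lemma NR.rev {m : ℕ} {c : ℕ → V} (hk : 3 ≤ k) (h : NR k x y m c) :
    NL k (fun i => y (k + 1 - i)) (fun i => x (k + 1 - i)) m c := by
  rcases h with ⟨a, b, h1, h2⟩ | ⟨h1, h2⟩
  · exact Or.inl ⟨b, a, h1, h2.rev⟩
  · refine Or.inr ⟨h1, ?_⟩
    have e1 : k + 1 - 1 = k := by omega
    have e2 : k + 1 - 2 = k - 1 := by omega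
    simp only [e1, e2]
    exact h2.rev

lemma NR.er (h : Chn H R k x y) (hk : 3 ≤ k) {m : ℕ} {z c : ℕ → V} (hm : 2 ≤ m)
    (hn : NR k x y m c) : ∃ p q, ER H R k x y m z c p q := by
  rcases hn with ⟨a, b, h1, h2⟩ | ⟨rfl, h2⟩
  · exact er_of_sp h hk hm h2 h1
  · exact er_of_al h2

lemma NR.own (h : Chn H R k x y) (hk : 3 ≤ k) {m : ℕ} {c : ℕ → V} (hm : 2 ≤ m)
    (hn : NR k x y m c) : ∃ p ≤ m + 1, c p = y (k - 1) := by
  obtain ⟨p, q, hE⟩ := hn.er (H := H) (R := R) (z := x) h hk hm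
  exact ⟨p, hE.2.1, hE.2.2.2.1⟩

/-- The hypotheses for one chain. -/
structure Hyp (H : SimpleGraph V) (R : V → Bool) (k : ℕ) (x y : ℕ → V) : Prop where
  loc : LocH H R k x y
  bad : BadH H R k x y
  one : OneH H R k x y
  k0 : K0H H R k x y
  pair : PairH H R k x y
  three : ThreeH H R k x y

/-- Two components owning `y (k-1)` and `x 2`. -/
theorem fin_two (hR : Opt G R) (hG : ClassC G R) (hle : H ≤ G) (hc : Crit H R)
    (h : Chn H R k x y) (hk : 3 ≤ k) (hends : (∀ w, ¬ Lk H R (x 1) w) ∧ ∀ w, ¬ Lk H R (y k) w)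
    (hy : Hyp H R k x y) (hy' : Hyp H R k (fun i => y (k + 1 - i)) (fun i => x (k + 1 - i)))
    (hone : ∀ z c, Cat H R 1 z c →
      ∀ i j, i ≤ 2 → j ≤ 2 → InC k x y (c i) → InC k x y (c j) → i = j)
    {m : ℕ} {z c : ℕ → V} (hK : Cat H R m z c) (hm : 2 ≤ m) (hN : NCp m (JC k x y c))
    (hr : NR k x y m c) {m' : ℕ} {z' c' : ℕ → V} (hK' : Cat H R m' z' c') (hm' : 2 ≤ m')
    (hN' : NCp m' (JC k x y c')) (hl : NL k x y m' c') (hne : cSupp m z ≠ cSupp m' z') : False := by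
  have hH := hG.mono hle
  have hrev := h.rev
  have hne' := hne.symm
  -- every nearly closed component is one of the two
  have hcls : ∀ m z c, Cat H R m z c → 2 ≤ m → NCp m (JC k x y c) → NR k x y m c ∨ NL k x y m c := by
    intro m z c hK hm hN
    rcases hy.loc m z c hK hm hN with ⟨a, b, hs⟩ | h1 | h1
    · by_cases h2 : 2 ≤ b
      · exact Or.inl (Or.inl ⟨a, b, h2, hs⟩)
      · by_cases h3 : 2 ≤ a
        · exact Or.inr (Or.inl ⟨a, b, h3, hs⟩)
        · have h4 : a = 1 := by have := hs.a1; omega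
          have h5 : b = 1 := by have := hs.b1; omega
          subst h4; subst h5
          exact absurd hs (fun hs => hy.k0 m z c hK (Or.inr ⟨hm, hN⟩) hs)
    · exact Or.inr (Or.inr h1)
    · exact Or.inl (Or.inr h1)
  have uR : ∀ m z c m' z' c', Cat H R m z c → Cat H R m' z' c' → 2 ≤ m → 2 ≤ m' → NR k x y m c →
      NR k x y m' c' → cSupp m z = cSupp m' z' := by
    intro m z c m' z' c' h1 h2 h3 h4 h5 h6
    obtain ⟨p, hp, e⟩ := h5.own h hk h3
    obtain ⟨p', hp', e'⟩ := h6.own h hk h4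
    exact own_unique hH h hk h1 h2 hp hp' e e'
  have uL : ∀ m z c m' z' c', Cat H R m z c → Cat H R m' z' c' → 2 ≤ m → 2 ≤ m' → NL k x y m c →
      NL k x y m' c' → cSupp m z = cSupp m' z' := by
    intro m z c m' z' c' h1 h2 h3 h4 h5 h6
    obtain ⟨p, hp, e⟩ := (h5.rev hk).own hrev hk h3
    obtain ⟨p', hp', e'⟩ := (h6.rev hk).own hrev hk h4
    exact own_unique hH hrev hk h1 h2 hp hp' e e'
  have hoth : ∀ m1 z1 c1, Cat H R m1 z1 c1 → cSupp m1 z1 ≠ cSupp m z → cSupp m1 z1 ≠ cSupp m' z' →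
      2 ≤ m1 → ¬ NCp m1 (JC k x y c1) := by
    intro m1 z1 c1 h1 h2 h3 h4 h5
    rcases hcls m1 z1 c1 h1 h4 h5 with h6 | h6
    · exact h2 (uR _ _ _ _ _ _ h1 hK h4 hm h6 hr)
    · exact h3 (uL _ _ _ _ _ _ h1 hK' h4 hm' h6 hl)
  have hoth' : ∀ m1 z1 c1, Cat H R m1 z1 c1 → cSupp m1 z1 ≠ cSupp m' z' → cSupp m1 z1 ≠ cSupp m z →
      2 ≤ m1 → ¬ NCp m1 (JC k (fun i => y (k + 1 - i)) (fun i => x (k + 1 - i)) c1) := by
    intro m1 z1 c1 h1 h2 h3 h4
    rw [jc_rev]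
    exact hoth m1 z1 c1 h1 h3 h2 h4
  have hends' : (∀ w, ¬ Lk H R ((fun i => y (k + 1 - i)) 1) w) ∧
      ∀ w, ¬ Lk H R ((fun i => x (k + 1 - i)) k) w := by
    have e1 : k + 1 - 1 = k := by omega
    have e2 : k + 1 - k = 1 := by omega
    simp only [e1, e2]
    exact ⟨hends.2, hends.1⟩
  have hone' : ∀ z c, Cat H R 1 z c → ∀ i j, i ≤ 2 → j ≤ 2 →
      InC k (fun i => y (k + 1 - i)) (fun i => x (k + 1 - i)) (c i) →
      InC k (fun i => y (k + 1 - i)) (fun i => x (k + 1 - i)) (c j) → i = j :=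
    fun z c h1 i j h2 h3 h4 h5 => hone z c h1 i j h2 h3 (inC_rev.1 h4) (inC_rev.1 h5)
  -- `K` is not of the left kind, `K'` is not of the right kind
  have hnl : ¬ NL k x y m c := fun h1 => hne (uL _ _ _ _ _ _ hK hK' hm hm' h1 hl)
  have hnr : ¬ NR k x y m' c' := fun h1 => hne (uR _ _ _ _ _ _ hK hK' hm hm' hr h1)
  rcases hr with ⟨a, b, hb, hs⟩ | ⟨hm2, hal⟩
  · have ha : a = 1 := by
      by_contra hcon
      exact hnl (Or.inl ⟨a, b, by have := hs.a1; omega, hs⟩)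
    subst ha
    rcases hl with ⟨a', b', ha', hs'⟩ | ⟨hm2', hal'⟩
    · have hb' : b' = 1 := by
        by_contra hcon
        exact hnr (Or.inl ⟨a', b', by have := hs'.b1; omega, hs'⟩)
      subst hb'
      obtain ⟨hk5, e3, e3', f1, f2, w1, w2, hme⟩ := hy.pair m' z' c' m z c hK' hK hne' hm' hm hN' hN
        a' b ha' hb hs' hs
      subst e3
      subst e3'
      refine open_pair5 hR hG hle hc h hk5 hends hK' hK hne' w1 w2 hme ?_
      intro f hf v₀ z₀ hv₀ m1 z1 c1 hc1 hex h1 h2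
      refine okill_of_not_nc hH h hf hc1 hex ?_ (hoth m1 z1 c1 hc1 h2 h1) ?_
      · rintro rfl
        exact hone _ _ hc1
      · intro p' _ _ h5 _ h6
        exact (hy.bad m1 z1 c1 hc1 p' h6).1 (h5.trans hv₀)
    · subst hm2'
      by_cases hk4 : 4 ≤ k
      · obtain ⟨p, q, hE⟩ := er_of_sp (H := H) (R := R) (z := z) h hk hm hs hb
        by_cases hb1 : b = k - 1
        · obtain ⟨r, hr, hcr⟩ := hs.py 2 (by omega) (by omega)
          exact fin_start2 hR hG hle hc h hk4 hends hone hy.bad hK hE hr hcr hK' hal' hne' hoth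
        · refine fin_start hR hG hle hc h hk4 hends hone hy.bad hK hE ?_ hK' hal' hne' hoth
          refine Or.inr (Or.inr (Or.inr ?_))
          intro j hj hin he
          have hab := hs.ab
          rcases hs.all j hj hin with ⟨i, i1, i2, i3⟩ | ⟨i, i1, i2, i3⟩
          · rw [i3, idx_x h i1 (by omega)] at he; omega
          · rw [i3, idx_y h (by omega) i1] at he; omega
      · have hk3 : k = 3 := by omega
        have hb2 : b = 2 := by have := hs.ab; omega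
        subst hb2
        exact hy.three hk3 m z c hK hm hN hs
  · subst hm2
    rcases hl with ⟨a', b', ha', hs'⟩ | ⟨hm2', hal'⟩
    · have hb' : b' = 1 := by
        by_contra hcon
        exact hnr (Or.inl ⟨a', b', by have := hs'.b1; omega, hs'⟩)
      subst hb'
      by_cases hk4 : 4 ≤ k
      · obtain ⟨p, q, hE⟩ := er_of_sp (H := H) (R := R) (z := z') hrev hk hm' hs'.rev ha'
        have hal2 : AL k (fun i => y (k + 1 - i)) (fun i => x (k + 1 - i)) c
            ((fun i => y (k + 1 - i)) 1) ((fun i => y (k + 1 - i)) 2) := by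
          have e1 : k + 1 - 1 = k := by omega
          have e2 : k + 1 - 2 = k - 1 := by omega
          simp only [e1, e2]
          exact hal.rev
        have hs2 := hs'.rev
        by_cases hb1 : a' = k - 1
        · obtain ⟨r, hr, hcr⟩ := hs2.py 2 (by omega) (by omega)
          exact fin_start2 hR hG hle hc hrev hk4 hends' hone' hy'.bad hK' hE hr hcr hK hal2 hne hoth'
        · refine fin_start hR hG hle hc hrev hk4 hends' hone' hy'.bad hK' hE ?_ hK hal2 hne hoth'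
          refine Or.inr (Or.inr (Or.inr ?_))
          intro j hj hin he
          have hab := hs2.ab
          rcases hs2.all j hj hin with ⟨i, i1, i2, i3⟩ | ⟨i, i1, i2, i3⟩
          · rw [i3, idx_x hrev i1 (by omega)] at he; omega
          · rw [i3, idx_y hrev (by omega) i1] at he; omega
      · have hk3 : k = 3 := by omega
        have hb2 : a' = 2 := by have := hs'.ab; omega
        subst hb2
        exact hy'.three hk3 m' z' c' hK' hm' (by rw [jc_rev]; exact hN') hs'.rev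
    · subst hm2'
      by_cases hk4 : 4 ≤ k
      · obtain ⟨p, q, hE⟩ := er_of_al (H := H) (R := R) (z := z) hal
        exact fin_start hR hG hle hc h hk4 hends hone hy.bad hK hE (Or.inl (by omega)) hK' hal' hne' hoth
      · have hk3 : k = 3 := by omega
        subst hk3
        refine open_three hR hG hle hc h rfl hends hK' hal' hK hal ?_
        intro f hf v₀ z₀ hv₀ m1 z1 c1 hc1 hex h1 h2
        refine okill_of_not_nc hH h hf hc1 hex ?_ (hoth m1 z1 c1 hc1 h2 h1) ?_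
        · rintro rfl
          exact hone _ _ hc1
        · intro p' _ _ h5 _ h6
          exact (hy.bad m1 z1 c1 hc1 p' h6).1 (h5.trans hv₀)

/-- **Open chains of at least three units.** -/
theorem open_false (hR : Opt G R) (hG : ClassC G R) (hle : H ≤ G) (hc : Crit H R)
    (h : Chn H R k x y) (hk : 3 ≤ k) (hends : (∀ w, ¬ Lk H R (x 1) w) ∧ ∀ w, ¬ Lk H R (y k) w)
    (hy : Hyp H R k x y) (hy' : Hyp H R k (fun i => y (k + 1 - i)) (fun i => x (k + 1 - i))) :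
    False := by
  have hH := hG.mono hle
  have hrev := h.rev
  have hone : ∀ z c, Cat H R 1 z c →
      ∀ i j, i ≤ 2 → j ≤ 2 → InC k x y (c i) → InC k x y (c j) → i = j := by
    intro z c hK
    rcases hy.one z c hK with h1 | h1
    · exact absurd h1 (fun h1 => hy.k0 1 z c hK (Or.inl rfl) h1)
    · exact h1
  have hone' : ∀ z c, Cat H R 1 z c → ∀ i j, i ≤ 2 → j ≤ 2 →
      InC k (fun i => y (k + 1 - i)) (fun i => x (k + 1 - i)) (c i) →
      InC k (fun i => y (k + 1 - i)) (fun i => x (k + 1 - i)) (c j) → i = j :=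
    fun z c h1 i j h2 h3 h4 h5 => hone z c h1 i j h2 h3 (inC_rev.1 h4) (inC_rev.1 h5)
  have hends' : (∀ w, ¬ Lk H R ((fun i => y (k + 1 - i)) 1) w) ∧
      ∀ w, ¬ Lk H R ((fun i => x (k + 1 - i)) k) w := by
    have e1 : k + 1 - 1 = k := by omega
    have e2 : k + 1 - k = 1 := by omega
    simp only [e1, e2]
    exact ⟨hends.2, hends.1⟩
  have hcls : ∀ m z c, Cat H R m z c → 2 ≤ m → NCp m (JC k x y c) → NR k x y m c ∨ NL k x y m c := by
    intro m z c hK hm hN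
    rcases hy.loc m z c hK hm hN with ⟨a, b, hs⟩ | h1 | h1
    · by_cases h2 : 2 ≤ b
      · exact Or.inl (Or.inl ⟨a, b, h2, hs⟩)
      · by_cases h3 : 2 ≤ a
        · exact Or.inr (Or.inl ⟨a, b, h3, hs⟩)
        · have h4 : a = 1 := by have := hs.a1; omega
          have h5 : b = 1 := by have := hs.b1; omega
          subst h4; subst h5
          exact absurd hs (fun hs => hy.k0 m z c hK (Or.inr ⟨hm, hN⟩) hs)
    · exact Or.inr (Or.inr h1)
    · exact Or.inl (Or.inr h1)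
  have uR : ∀ m z c m' z' c', Cat H R m z c → Cat H R m' z' c' → 2 ≤ m → 2 ≤ m' → NR k x y m c →
      NR k x y m' c' → cSupp m z = cSupp m' z' := by
    intro m z c m' z' c' h1 h2 h3 h4 h5 h6
    obtain ⟨p, hp, e⟩ := h5.own h hk h3
    obtain ⟨p', hp', e'⟩ := h6.own h hk h4
    exact own_unique hH h hk h1 h2 hp hp' e e'
  have uL : ∀ m z c m' z' c', Cat H R m z c → Cat H R m' z' c' → 2 ≤ m → 2 ≤ m' → NL k x y m c →
      NL k x y m' c' → cSupp m z = cSupp m' z' := by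
    intro m z c m' z' c' h1 h2 h3 h4 h5 h6
    obtain ⟨p, hp, e⟩ := (h5.rev hk).own hrev hk h3
    obtain ⟨p', hp', e'⟩ := (h6.rev hk).own hrev hk h4
    exact own_unique hH hrev hk h1 h2 hp hp' e e'
  by_cases hNR : ∃ m z c, Cat H R m z c ∧ 2 ≤ m ∧ NCp m (JC k x y c) ∧ NR k x y m c
  · obtain ⟨m, z, c, hK, hm, hN, hr⟩ := hNR
    by_cases hNL : ∃ m' z' c', Cat H R m' z' c' ∧ 2 ≤ m' ∧ NCp m' (JC k x y c') ∧ NL k x y m' c' ∧
        cSupp m z ≠ cSupp m' z'
    · obtain ⟨m', z', c', hK', hm', hN', hl, hne⟩ := hNL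
      exact fin_two hR hG hle hc h hk hends hy hy' hone hK hm hN hr hK' hm' hN' hl hne
    · obtain ⟨p, q, hE⟩ := hr.er (H := H) (R := R) (z := z) h hk hm
      refine fin_end hR hG hle hc h hk hends hone hy.bad hK hE ?_
      intro m1 z1 c1 h1 h2 h3 h4
      rcases hcls m1 z1 c1 h1 h3 h4 with h5 | h5
      · exact h2 (uR _ _ _ _ _ _ h1 hK h3 hm h5 hr)
      · exact hNL ⟨m1, z1, c1, h1, h3, h4, h5, fun he => h2 he.symm⟩
  · by_cases hNL : ∃ m z c, Cat H R m z c ∧ 2 ≤ m ∧ NCp m (JC k x y c) ∧ NL k x y m c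
    · obtain ⟨m, z, c, hK, hm, hN, hl⟩ := hNL
      obtain ⟨p, q, hE⟩ := (hl.rev hk).er (H := H) (R := R) (z := z) hrev hk hm
      refine fin_end hR hG hle hc hrev hk hends' hone' hy'.bad hK hE ?_
      intro m1 z1 c1 h1 h2 h3 h4
      rw [jc_rev] at h4
      rcases hcls m1 z1 c1 h1 h3 h4 with h5 | h5
      · exact hNR ⟨m1, z1, c1, h1, h3, h4, h5⟩
      · exact h2 (uL _ _ _ _ _ _ h1 hK h3 hm h5 hl)
    · refine fin_none hR hG hle hc h hk hends hone hy.bad hy'.bad ?_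
      intro m1 z1 c1 h1 h3 h4
      rcases hcls m1 z1 c1 h1 h3 h4 with h5 | h5
      · exact hNR ⟨m1, z1, c1, h1, h3, h4, h5⟩
      · exact hNL ⟨m1, z1, c1, h1, h3, h4, h5⟩

end CLB.H95
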