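import Pool.Agent.Helper95_CLB.Game

/-!
The finite window games: static lists of given sizes, relations between units at distance two, one
forbidden pair of labels in the first two units.
-/

set_option autoImplicit false

namespace CLB.H95

open Finset
open H3DA (Q neg nr)

/-- A unit of a window code: size of the list (`8` is everything; at the last unit the wall takes four
labels of the list), target, part of `phi`, part of `psi`, relation with the unit two steps later. -/
structure UC where
  s : ℕ
  tg : Bool
  ph : Bool
  ps : Bool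
  rel : Bool
deriving DecidableEq, Repr

/-- A window code: the units and whether one pair of labels is forbidden in the first two units. -/
structure Code where
  us : List UC
  cp : Bool
deriving DecidableEq, Repr

/-- The unit `i` of a code. -/
def Code.u (C : Code) (i : ℕ) : UC := C.us.getD (i - 1) ⟨0, false, false, false, false⟩

/-- The number of units. -/
def Code.r (C : Code) : ℕ := C.us.length

/-- The valid walks of a code. -/
structure VW (C : Code) (A : ℕ → Finset Q) (P : Q × Q) (mu : ℕ → Q) : Prop where
  nwk : Nwk C.r mu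
  mem : ∀ i, 1 ≤ i → i ≤ C.r → mu i ∈ A i
  rel : ∀ i, 1 ≤ i → i + 2 ≤ C.r → (C.u i).rel = true → mu i ≠ mu (i + 2)
  cpl : C.cp = true → 2 ≤ C.r → (mu 1, mu 2) ≠ P

/-- The sum of the labels of the chosen units among the first `n`. -/
def sumU (b : ℕ → Bool) (mu : ℕ → Q) : ℕ → Q
  | 0 => (false, false, false)
  | n + 1 => if b (n + 1) then add (sumU b mu n) (mu (n + 1)) else sumU b mu n

/-- **The code is won.** -/
def Code.Win (C : Code) : Prop :=
  ∀ (A : ℕ → Finset Q) (w : Q) (P : Q × Q),
    (∀ i, 1 ≤ i → i < C.r → (C.u i).s ≤ (A i).card) →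
    A C.r ⊆ ball w → (C.u C.r).s ≤ (A C.r).card + 4 →
    (∀ mu mu' v, VW C A P mu → VW C A P mu' → 1 ≤ v → v ≤ C.r → (C.u v).tg = true →
      (∀ i, 1 ≤ i → i ≤ C.r → i ≠ v → mu i = mu' i) → mu v = mu' v) →
    (∀ mu mu', VW C A P mu → VW C A P mu' →
      sumU (fun i => (C.u i).ph) mu C.r = sumU (fun i => (C.u i).ph) mu' C.r) →
    (∃ S : Finset Q, S.card ≤ 2 ∧ ∀ mu, VW C A P mu → sumU (fun i => (C.u i).ps) mu C.r ∈ S) →
    False

end CLB.H95
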