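import Pool.Agent.Helper95_CLB.UStar
import Pool.Agent.Helper95_CLB.Game2

/-!
The facts of `UStar` for the labels of a window.
-/

set_option autoImplicit false
set_option linter.unusedSectionVars false

namespace CLB.H95

open Finset Classical
open H3DA (Q neg nr)
open CLB.H3 (CExt Cat IsTwo Fits UPath he_of_unc cat_structure chn_side KTight exists_ktight no_cext
  Leaf cext_or)

variable {V : Type*} {G : SimpleGraph V} {R : V → Bool} [Fintype V] {k r : ℕ} {x y X Y : ℕ → V}
  {m : ℕ} {z c : ℕ → V} {f : V → Q}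

lemma InU.idx (h : Chn G R r X Y) {i : ℕ} (h1 : 1 ≤ i) (h2 : i ≤ r) {v : V} (hv : InU X Y i v) :
    CLB.H95.idx r X Y v = i := by
  rcases hv with rfl | rfl
  · exact idx_x h h1 h2
  · exact idx_y h h1 h2

lemma InU.color (h : Chn G R r X Y) {i : ℕ} (h1 : 1 ≤ i) (h2 : i ≤ r) {v w : V} (hv : InU X Y i v)
    (hw : InU X Y i w) : R v = R w := by
  have hm := (h.me i h1 h2).2
  rcases hv with rfl | rfl <;> rcases hw with rfl | rfl
  · rfl
  · exact hm
  · exact hm.symm
  · rfl

/-- The labels outside the changed unit. -/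
lemma lbl_same (h : Chn G R r X Y) {v : ℕ} {mu mu' : ℕ → Q}
    (hs : ∀ i, 1 ≤ i → i ≤ r → i ≠ v → mu i = mu' i) {a : V} (ha : ¬ InU X Y v a) :
    lbl r X Y mu f a = lbl r X Y mu' f a := by
  by_cases hin : InC r X Y a
  · obtain ⟨i, h1, h2, h3⟩ := hin
    have hiv : i ≠ v := fun e => ha (e ▸ h3)
    rw [lbl_ul h h1 h2 h3, lbl_ul h h1 h2 h3, hs i h1 h2 hiv]
  · rw [lbl_out hin, lbl_out hin]

/-- **(U) for a window.** -/
theorem win_one (hG : ClassC G R) (hcat : Cat G R m z c) (hm : 2 ≤ m) (h : Chn G R r X Y) {v : ℕ}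
    (h1 : 1 ≤ v) (h2 : v ≤ r) {mu mu' : ℕ → Q} (hs : ∀ i, 1 ≤ i → i ≤ r → i ≠ v → mu i = mu' i)
    (hseen : ∃ j ≤ m + 1, InU X Y v (c j))
    (hLL : ¬ ((InU X Y v (c 0) ∨ InU X Y v (c 1)) ∧ (InU X Y v (c m) ∨ InU X Y v (c (m + 1)))))
    {D D' : Ty} (hT : Tight D (fun j => lbl r X Y mu f (c j)) m)
    (hT' : Tight D' (fun j => lbl r X Y mu' f (c j)) m) : mu v = mu' v := by
  by_contra hne
  have hidx : ∀ a b : V, InU X Y v a → InU X Y v b → a ≠ b → ∀ w, G.Adj w a → G.Adj w b → False := by
    intro a b ha hb hab w hwa hwb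
    have := idx_ne hG h (ha.inC h1 h2) (hb.inC h1 h2) hab hwa hwb
    exact this ((InU.idx h h1 h2 ha).trans (InU.idx h h1 h2 hb).symm)
  refine tight_one hm hT hT' (P := fun j => InU X Y v (c j)) (fun j _ hp => ?_) (fun j _ hp => ?_)
    hseen ?_ ?_ hLL (fun j j1 j2 hp => ?_)
  · exact lbl_same h hs hp
  · show lbl r X Y mu f (c j) ≠ lbl r X Y mu' f (c j)
    rw [lbl_ul h h1 h2 hp, lbl_ul h h1 h2 hp]
    exact fun he => hne (ul_inj X v (c j) he)
  · rintro ⟨a, b⟩
    exact hidx _ _ a b hcat.ne0 _ hcat.adj0 (hcat.adjc 1 le_rfl (by omega))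
  · rintro ⟨a, b⟩
    exact hidx _ _ a b hcat.nem _ (hcat.adjc m (by omega) le_rfl) hcat.adjm
  · have e1 := (he_of_unc (hcat.unc j j1 (by omega)) (hcat.adjc j j1 (by omega))).2
    have e2 := (he_of_unc (hcat.unc j j1 (by omega)) (hcat.adjz j j1 j2)).2
    have e3 := (he_of_unc (hcat.unc (j + 1) (by omega) (by omega))
      (hcat.adjc (j + 1) (by omega) (by omega))).2
    have e4 := InU.color h h1 h2 hp.1 hp.2
    revert e1 e2 e3 e4
    cases R (z j) <;> cases R (c j) <;> cases R (z (j + 1)) <;> cases R (c (j + 1)) <;> simp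

/-! ### Sums over units -/

lemma add_comm3 : ∀ a b c' d : Q, add (add a b) (add c' d) = add (add a c') (add b d) := by
  decide +kernel

lemma sumU_congr {b b' : ℕ → Bool} {d d' : ℕ → Q} {n : ℕ}
    (h : ∀ i, 1 ≤ i → i ≤ n → b i = b' i ∧ d i = d' i) : sumU b d n = sumU b' d' n := by
  induction n with
  | zero => rfl
  | succ n ih =>
    have h1 := h (n + 1) (by omega) le_rfl
    simp only [sumU, h1.1, h1.2, ih (fun i a1 a2 => h i a1 (by omega))]

lemma sumU_false {d : ℕ → Q} {n : ℕ} : sumU (fun _ => false) d n = (false, false, false) := by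
  induction n with
  | zero => rfl
  | succ n ih => simp only [sumU, ih]; simp

lemma sumU_xor {b b' : ℕ → Bool} {d : ℕ → Q} {n : ℕ} :
    sumU (fun i => xor (b i) (b' i)) d n = add (sumU b d n) (sumU b' d n) := by
  induction n with
  | zero => rfl
  | succ n ih =>
    have key : ∀ u v w : Q, add (add u w) v = add (add u v) w ∧ add u (add v w) = add (add u v) w ∧
        add (add u w) (add v w) = add u v := by decide +kernel
    simp only [sumU, ih]
    cases b (n + 1) <;> cases b' (n + 1) <;> simp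
    · exact ((key _ _ _).2.1).symm
    · exact ((key _ _ _).1).symm
    · exact ((key _ _ _).2.2).symm

lemma sumU_add {b : ℕ → Bool} {d d' : ℕ → Q} {n : ℕ} :
    sumU b (fun i => add (d i) (d' i)) n = add (sumU b d n) (sumU b d' n) := by
  induction n with
  | zero => rfl
  | succ n ih =>
    simp only [sumU, ih]
    split_ifs
    · exact add_comm3 _ _ _ _
    · rfl

lemma sumU_single {d : ℕ → Q} {n i : ℕ} (h1 : 1 ≤ i) (h2 : i ≤ n) {b : ℕ → Bool}
    (hb : ∀ j, 1 ≤ j → j ≤ n → (b j = true ↔ j = i)) : sumU b d n = d i := by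
  induction n with
  | zero => omega
  | succ n ih =>
    simp only [sumU]
    by_cases he : i = n + 1
    · subst he
      rw [if_pos ((hb (n + 1) (by omega) le_rfl).2 rfl)]
      have : sumU b d n = (false, false, false) := by
        rw [← sumU_false (d := d) (n := n)]
        refine sumU_congr fun j a1 a2 => ⟨?_, rfl⟩
        have := (hb j a1 (by omega)).not.2 (by omega)
        simpa using this
      rw [this, zero_add']
    · have : ¬ b (n + 1) = true := fun h => he ((hb (n + 1) (by omega) le_rfl).1 h).symm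
      rw [if_neg this]
      exact ih (by omega) (fun j a1 a2 => hb j a1 (by omega))

lemma ul_add (X : ℕ → V) (i : ℕ) (v : V) (t t' : Q) : add (ul X i v t) (ul X i v t') = add t t' := by
  have key : ∀ (t t' : Q) (b : Bool), add (if b then t else neg t) (if b then t' else neg t') =
      add t t' := by decide
  unfold ul
  have k1 : ∀ t t' : Q, add (sg i t) (sg i t') = add t t' := by
    intro t t'
    unfold sg
    have := key t t'
    split_ifs
    · rfl
    · exact this false
  have k2 : ∀ t t' : Q, add (neg t) (neg t') = add t t' := fun t t' => key t t' false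
  split_ifs
  · exact k1 t t'
  · rw [k2, k1]

/-- The indicator of the unit of a port. -/
noncomputable def ind (X Y : ℕ → V) (v : V) (i : ℕ) : Bool := decide (InU X Y i v)

lemma lbl_add (h : Chn G R r X Y) {mu mu' : ℕ → Q} (v : V) :
    add (lbl r X Y mu f v) (lbl r X Y mu' f v) =
      sumU (ind X Y v) (fun i => add (mu i) (mu' i)) r := by
  by_cases hin : InC r X Y v
  · obtain ⟨i, h1, h2, h3⟩ := hin
    rw [lbl_ul h h1 h2 h3, lbl_ul h h1 h2 h3, ul_add, sumU_single h1 h2 (fun j j1 j2 => ?_)]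
    unfold ind
    rw [decide_eq_true_iff]
    constructor
    · intro h4
      rw [← InU.idx h j1 j2 h4, InU.idx h h1 h2 h3]
    · rintro rfl; exact h3
  · rw [lbl_out hin, lbl_out hin, add_self', ← sumU_false (d := fun i => add (mu i) (mu' i)) (n := r)]
    refine sumU_congr fun i h1 h2 => ⟨?_, rfl⟩
    unfold ind
    symm
    rw [decide_eq_false_iff_not]
    exact fun h3 => hin ⟨i, h1, h2, h3⟩

/-- The parity of the number of leaf ports of a unit. -/
noncomputable def lfp (X Y : ℕ → V) (m : ℕ) (c : ℕ → V) (i : ℕ) : Bool :=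
  xor (xor (ind X Y (c 0) i) (ind X Y (c 1) i)) (xor (ind X Y (c m) i) (ind X Y (c (m + 1)) i))

/-- The parity of the number of ports of the first fork in a unit. -/
noncomputable def fkp (X Y : ℕ → V) (c : ℕ → V) (i : ℕ) : Bool :=
  xor (ind X Y (c 0) i) (ind X Y (c 1) i)

/-- **(PHI) for a window.** -/
theorem win_phi (h : Chn G R r X Y) {mu mu' : ℕ → Q} {D D' : Ty}
    (hT : Tight D (fun j => lbl r X Y mu f (c j)) m)
    (hT' : Tight D' (fun j => lbl r X Y mu' f (c j)) m) :
    sumU (lfp X Y m c) mu r = sumU (lfp X Y m c) mu' r := by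
  have e := tight_phi hT hT'
  have key : ∀ a b c' d a' b' c'' d' : Q,
      add (add a b) (add c' d) = add (add a' b') (add c'' d') →
      add (add (add a a') (add b b')) (add (add c' c'') (add d d')) = (false, false, false) := by
    intro a b c' d a' b' c'' d' he
    have k1 : add (add a a') (add b b') = add (add a b) (add a' b') := add_comm3 _ _ _ _
    have k2 : add (add c' c'') (add d d') = add (add c' d) (add c'' d') := add_comm3 _ _ _ _
    rw [k1, k2, add_comm3, he, add_self']
  have e2 := key _ _ _ _ _ _ _ _ e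
  rw [lbl_add h, lbl_add h, lbl_add h, lbl_add h] at e2
  apply add_eq_zero'
  rw [← sumU_add]
  have e3 : sumU (lfp X Y m c) (fun i => add (mu i) (mu' i)) r = _ := sumU_xor
  have e4 : sumU (fun i => xor (ind X Y (c 0) i) (ind X Y (c 1) i))
    (fun i => add (mu i) (mu' i)) r = _ := sumU_xor
  have e5 : sumU (fun i => xor (ind X Y (c m) i) (ind X Y (c (m + 1)) i))
    (fun i => add (mu i) (mu' i)) r = _ := sumU_xor
  rw [e3, e4, e5]
  exact e2

/-- **(PSI) for a window.** -/
theorem win_psi (h : Chn G R r X Y) {i a b i' a' b' : ℕ} (h1 : StepAt m i a b) (hi : i % 2 = 1)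
    (h2 : StepAt m i' a' b') (hi' : i' % 2 = 0) (oa : ¬ InC r X Y (c a)) (ob : ¬ InC r X Y (c b))
    (oa' : ¬ InC r X Y (c a')) (ob' : ¬ InC r X Y (c b')) :
    ∃ S : Finset Q, S.card ≤ 2 ∧ ∀ mu D, Tight D (fun j => lbl r X Y mu f (c j)) m →
      sumU (fkp X Y c) mu r ∈ S := by
  obtain ⟨S, hS, hall⟩ := tight_psi (s₀ := fun j => f (c j)) h1 hi h2 hi'
  set mu0 : ℕ → Q := fun _ => (false, false, false) with hmu0
  set q : Q := add (add (lbl r X Y mu0 f (c 0)) (lbl r X Y mu0 f (c 1))) (sumU (fkp X Y c) mu0 r) with hq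
  refine ⟨S.image (fun t => add t q), (Finset.card_image_le).trans hS, fun mu D hT => ?_⟩
  rw [mem_image]
  refine ⟨_, hall _ D hT (lbl_out oa) (lbl_out ob) (lbl_out oa') (lbl_out ob'), ?_⟩
  have key : ∀ a b a' b' s s' : Q, add (add a a') (add b b') = add s s' →
      add (add a b) (add (add a' b') s') = s := by
    intro a b a' b' s s' he
    rw [add_comm3] at he
    rw [← add_assoc', he, add_assoc', add_self', add_zero']
  rw [hq]
  apply key
  rw [lbl_add h, lbl_add h, ← sumU_add]
  exact (sumU_xor).symm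

end CLB.H95
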