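import Pool.Agent.Helper95_CLB.WinR

/-!
The static forbidden sets of a window for all components.
-/

set_option autoImplicit false
set_option linter.unusedSectionVars false

namespace CLB.H95

open H3DA (Q neg nr)
open Finset Classical
open CLB.H3 (CExt Cat IsTwo Fits UPath he_of_unc cat_structure chn_side KTight exists_ktight no_cext
  Leaf cext_or)

variable {V : Type*} {G : SimpleGraph V} {R : V → Bool} [Fintype V] {k r : ℕ} {x y X Y : ℕ → V}
  {m : ℕ} {z c : ℕ → V} {f : V → Q}

/-- The window is clean up to couples. -/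
def CleanR (G : SimpleGraph V) (R : V → Bool) (r : ℕ) (X Y : ℕ → V) (m : ℕ) (z : ℕ → V) : Prop :=
  ∀ m' z' c', Cat G R m' z' c' → cSupp m' z' ≠ cSupp m z → (∃ j ≤ m' + 1, InC r X Y (c' j)) →
    (m' = 1 → ∀ i j, i ≤ 2 → j ≤ 2 → InC r X Y (c' i) → InC r X Y (c' j) → i = j) ∧
    (2 ≤ m' → Cpl X r Y m' c' ∨ ¬ NCp m' (fun j => InC r X Y (c' j)))

/-- There is a couple. -/
def HasCpl (G : SimpleGraph V) (R : V → Bool) (r : ℕ) (X Y : ℕ → V) (m : ℕ) (z : ℕ → V) : Prop :=
  ∃ m' z' c', Cat G R m' z' c' ∧ cSupp m' z' ≠ cSupp m z ∧ Cpl X r Y m' c'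

/-- All neighbours of the two uncovered neighbours. -/
lemma isTwo_other {w a b v : V} (hT : IsTwo G R w a b) (ha : G.Adj w v) (hv : v ≠ a) : v = b := by
  rcases hT.2.2.2.2.2.2 v ha with h | h
  · exact absurd h hv
  · exact h

theorem win_rel (hG : ClassC G R) (hc : Crit G R) (hcat : Cat G R m z c) (h : Chn G R r X Y)
    (hcyc : ¬ Lk G R (Y r) (X 1)) (hf : OffC G R r X Y f) (hr : 2 ≤ r ∨ ¬ HasCpl G R r X Y m z)
    (hcl : CleanR G R r X Y m z) (o : Bool) :
    ∃ (Φ : V → V → Finset Q) (P : Q × Q), (∀ v w, (Φ v w).card ≤ 2) ∧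
      (∀ v w, w ∈ cSupp m z → Φ v w = ∅) ∧
      (∀ v w b, ¬ Cov G R w → G.Adj w v → G.Adj w b → v ≠ b → InC r X Y v → InC r X Y b →
        ltO o (idx r X Y b) (idx r X Y v) → Φ v w = ∅) ∧
      ∀ mu, Nwk r mu → (∀ i, 1 ≤ i → i ≤ r → mu i ∈ wall G R r X Y f i) →
        (∀ v w, InC r X Y v → w ∈ prt G R v → lbl r X Y mu f v ∉ Φ v w) →
        (∀ w a b, ¬ Cov G R w → G.Adj w a → G.Adj w b → a ≠ b → InC r X Y a → InC r X Y b →
          lbl r X Y mu f a ≠ neg (lbl r X Y mu f b)) →
        (HasCpl G R r X Y m z → (mu 1, mu 2) ≠ P) →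
        ¬ CExt m (fun j => lbl r X Y mu f (c j)) := by
  -- the property of a support
  let cpS : Set V → Prop := fun S => ∃ m' z' c', Cat G R m' z' c' ∧ cSupp m' z' = S ∧ S ≠ cSupp m z ∧
    Cpl X r Y m' c'
  have hsel : ∀ S : Set V, ∃ (φ : V → V → Finset Q) (P : Q × Q), (∀ v w, (φ v w).card ≤ 2) ∧
      (∀ w ∈ S, ∀ v b, G.Adj w v → G.Adj w b → v ≠ b → InC r X Y v → InC r X Y b →
        ltO o (idx r X Y b) (idx r X Y v) → φ v w = ∅) ∧
      ((∃ P φ, RKill G R r X Y f o S (cpS S) P φ) → RKill G R r X Y f o S (cpS S) P φ) := by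
    intro S
    by_cases hS : ∃ P φ, RKill G R r X Y f o S (cpS S) P φ
    · obtain ⟨P, φ, hφ⟩ := hS
      exact ⟨φ, P, hφ.two, hφ.late, fun _ => hφ⟩
    · exact ⟨fun _ _ => ∅, ((false, false, false), (false, false, false)), by simp, fun _ _ _ _ _ _ _ _ _ _ => rfl,
        fun h' => absurd h' hS⟩
  choose φ PS hφ2 hφl hφ using hsel
  let sup : V → Set V := fun v => {w | ∃ m z c, Cat G R m z c ∧ v ∈ cSupp m z ∧ w ∈ cSupp m z}
  have hsup : ∀ {m : ℕ} {z c : ℕ → V}, Cat G R m z c → ∀ v ∈ cSupp m z, sup v = cSupp m z := by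
    intro m z c h v hv
    ext w
    constructor
    · rintro ⟨m', z', c', h', hv', hw'⟩
      rw [← cSupp_eq h' h hv' hv]; exact hw'
    · intro hw
      exact ⟨m, z, c, h, hv, hw⟩
  let ψ : Set V → V → V → Finset Q := fun S v w => if w ∈ S then φ S v w else ∅
  have hψ1 : ∀ S v w, w ∈ S → ψ S v w = φ S v w := fun S v w hw => by simp only [ψ, if_pos hw]
  have hψ0 : ∀ S v w, w ∉ S → ψ S v w = ∅ := fun S v w hw => by simp only [ψ, if_neg hw]
  let tw : V → V → Finset Q := fun v w => univ.filter (fun t => ∃ b, IsTwo G R w v b ∧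
    ¬ InC r X Y b ∧ t = neg (f b))
  have htw : ∀ v w, (tw v w).card ≤ 1 := by
    intro v w
    by_cases hex : ∃ b, IsTwo G R w v b
    · obtain ⟨b, hb⟩ := hex
      have : tw v w ⊆ {neg (f b)} := by
        intro t ht
        simp only [tw, mem_filter, mem_univ, true_and] at ht
        obtain ⟨b', hb1, -, rfl⟩ := ht
        rw [mem_singleton]
        rcases hb.2.2.2.2.2.2 b' hb1.2.2.1 with h' | h'
        · exact absurd h'.symm hb1.2.2.2.1
        · rw [h']
      exact (Finset.card_le_card this).trans (by simp)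
    · have : tw v w = ∅ := by
        rw [Finset.eq_empty_iff_forall_notMem]
        intro t ht
        simp only [tw, mem_filter, mem_univ, true_and] at ht
        obtain ⟨b', hb1, -⟩ := ht
        exact hex ⟨b', hb1⟩
      rw [this]; simp
  -- the pair
  obtain ⟨P0, hP0⟩ : ∃ P0 : Q × Q, ∀ S, cpS S → P0 = PS S := by
    by_cases hex : ∃ S, cpS S
    · obtain ⟨S, hS⟩ := hex
      refine ⟨PS S, fun S' hS' => ?_⟩
      have hSS : S = S' := by
        have hS2 := hS
        obtain ⟨m1, z1, c1, k1, k2, k3, k4⟩ := hS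
        obtain ⟨m2, z2, c2, l1, l2, l3, l4⟩ := hS'
        have hr2 : 2 ≤ r := by
          rcases hr with hr | hr
          · exact hr
          · exact absurd ⟨m1, z1, c1, k1, k2 ▸ k3, k4⟩ hr
        have key : ∀ {m1 : ℕ} {z1 c1 : ℕ → V}, Cat G R m1 z1 c1 → Cpl X r Y m1 c1 →
            ∃ j ≤ m1 + 1, c1 j = X 2 := by
          rintro m1 z1 c1 k1 ⟨rfl, a, b, ha, hb, -, -, hab⟩
          rcases hab with ⟨_, h1⟩ | ⟨h1, _⟩
          · exact ⟨b, by omega, h1⟩
          · exact ⟨a, by omega, h1⟩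
        obtain ⟨j1, j2, j3⟩ := key k1 k4
        obtain ⟨i1, i2, i3⟩ := key l1 l4
        have h4 := cl_mem k1.pos j2
        have h5 := cl_mem l1.pos i2
        have b1 : z1 (cl m1 j1) ∈ prt G R (X 2) := by
          rw [mem_prt, ← j3]; exact ⟨cat_adj_cl k1 j2, k1.unc _ h4.1 h4.2⟩
        have b2 : z2 (cl m2 i1) ∈ prt G R (X 2) := by
          rw [mem_prt, ← i3]; exact ⟨cat_adj_cl l1 i2, l1.unc _ h5.1 h5.2⟩
        have h6 := Finset.card_le_one.1 (prt_card_lk hG (h.lk 1 le_rfl (by omega)).symm) _ b1 _ b2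
        rw [← k2, ← l2]
        exact cSupp_eq k1 l1 (mem_cSupp h4.1 h4.2) (by rw [h6]; exact mem_cSupp h5.1 h5.2)
      rw [hSS]
    · exact ⟨((false, false, false), (false, false, false)), fun S hS => absurd ⟨S, hS⟩ hex⟩
  refine ⟨fun v w => if w ∈ cSupp m z then ∅ else if ∃ a b, IsTwo G R w a b then tw v w
    else ψ (sup w) v w, (sg 1 P0.1, sg 2 P0.2), ?_, ?_, ?_, ?_⟩
  · intro v w
    dsimp only
    split_ifs
    · simp
    · exact (htw v w).trans (by omega)
    · by_cases hw : w ∈ sup w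
      · rw [hψ1 _ _ _ hw]; exact hφ2 _ v w
      · rw [hψ0 _ _ _ hw]; simp
  · intro v w hw
    dsimp only
    rw [if_pos hw]
  · intro v w b hw hv hb hvb hin hin' hlt
    dsimp only
    split_ifs with h1 h2
    · rfl
    · rw [Finset.eq_empty_iff_forall_notMem]
      intro t ht
      simp only [tw, mem_filter, mem_univ, true_and] at ht
      obtain ⟨b', hb1, hb2, -⟩ := ht
      exact hb2 (isTwo_other hb1 hb (Ne.symm hvb) ▸ hin')
    · by_cases h3 : w ∈ sup w
      · rw [hψ1 _ _ _ h3]; exact hφl _ w h3 v b hv hb hvb hin hin' hlt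
      · exact hψ0 _ _ _ h3
  · intro mu hmu hwl hav hrel hcp
    have hrp := h.pos
    refine win_contra hG hc hcat h hcyc hf hmu ?_ ?_ ?_ ?_
    · intro v hv
      have := hwl 1 le_rfl hrp
      unfold wall at this
      rw [mem_inter, mem_filter, mem_filter] at this
      exact this.1.2 rfl v hv
    · intro v hv
      have := hwl r hrp le_rfl
      unfold wall at this
      rw [mem_inter, mem_filter, mem_filter] at this
      exact this.2.2 rfl v hv
    · intro w a b hT ha he
      by_cases hb : InC r X Y b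
      · exact hrel w a b hT.1 hT.2.1 hT.2.2.1 hT.2.2.2.1 ha hb he
      · have h2 : ∃ a b, IsTwo G R w a b := ⟨a, b, hT⟩
        have := hav a w ha (by rw [mem_prt]; exact ⟨hT.2.1.symm, hT.1⟩)
        have hwK : w ∉ cSupp m z := by
          rintro ⟨i, i1, i2, rfl⟩
          exact isTwo_not_cat hcat i1 i2 hT
        dsimp only at this
        rw [if_neg hwK, if_pos h2] at this
        apply this
        simp only [tw, mem_filter, mem_univ, true_and]
        exact ⟨b, hT, hb, by rw [he, lbl_out hb]⟩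
    · intro m' z' c' hC' hex hne
      obtain ⟨o1, o2⟩ := hcl m' z' c' hC' hne hex
      have hK : RKill G R r X Y f o (cSupp m' z') (cpS (cSupp m' z')) (PS (cSupp m' z'))
          (φ (cSupp m' z')) := by
        apply hφ
        by_cases hm1 : m' = 1
        · subst hm1
          obtain ⟨φ', hφ'⟩ := rkill_star h hf hC' hex (o1 rfl) o (cpS (cSupp 1 z')) P0
          exact ⟨P0, φ', hφ'⟩
        · have hm2 : 2 ≤ m' := by have := hC'.pos; omega
          rcases o2 hm2 with h5 | h5
          · have hcc : cpS (cSupp m' z') := ⟨m', z', c', hC', rfl, hne, h5⟩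
            have hr2 : 2 ≤ r := by
              rcases hr with hr | hr
              · exact hr
              · exact absurd ⟨m', z', c', hC', hne, h5⟩ hr
            obtain ⟨P', φ', hφ'⟩ := rkill_couple (f := f) h hC' h5 hr2 o
            refine ⟨P', φ', ⟨hφ'.two, hφ'.late, fun f' e1 e2 e3 e4 => hφ'.ok f' e1 e2 e3
              (fun _ => e4 hcc)⟩⟩
          · obtain ⟨φ', hφ'⟩ := rkill_of_not_nc hG h hf hC' hm2 hex h5 o (cpS (cSupp m' z')) P0
            exact ⟨P0, φ', hφ'⟩
      rw [cext_iff_fits hC']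
      refine hK.ok _ (fun v _ hv => lbl_out hv) (fun w hw v hv hin => ?_) (fun w hw a b ha hb hab
        hia hib => ?_) (fun hcc => ?_)
      · have hw' := hw
        obtain ⟨i, h1, h2, rfl⟩ := hw
        have := hav v (z' i) hin (by rw [mem_prt]; exact ⟨hv, hC'.unc i h1 h2⟩)
        have hno : ¬ ∃ a b, IsTwo G R (z' i) a b := fun ⟨a, b, hT⟩ => isTwo_not_cat hC' h1 h2 hT
        have hwK : z' i ∉ cSupp m z := fun hi => hne (cSupp_eq hC' hcat hw' hi)
        dsimp only at this
        rw [if_neg hwK, if_neg hno, hsup hC' (z' i) hw', hψ1 _ _ _ hw'] at this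
        exact this
      · obtain ⟨i, h1, h2, rfl⟩ := hw
        exact hrel _ a b (hC'.unc i h1 h2) ha hb hab hia hib
      · obtain ⟨m1, z1, c1, k1, k2, k3, k4⟩ := id hcc
        have hH : HasCpl G R r X Y m z := ⟨m1, z1, c1, k1, k2 ▸ k3, k4⟩
        have h7 := hcp hH
        rw [← hP0 _ hcc]
        have hr2 : 2 ≤ r := by
          rcases hr with hr | hr
          · exact hr
          · exact absurd hH hr
        rw [lbl_x h le_rfl hrp, lbl_x h (by omega) hr2]
        intro he
        apply h7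
        rw [← he]
        simp [sg_sg]

end CLB.H95
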