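import Pool.Agent.Helper95_CLB.Chn

/-!
Forbidden labels at the port edges of a chain, from the static kill lemma, for all components at once.
-/

set_option autoImplicit false
set_option linter.unusedSectionVars false

namespace CLB.H95

open Finset Classical
open H3DA (Q neg nr)
open CLB.H3 (CExt Cat IsTwo Fits UPath he_of_unc)

variable {V : Type*} {G : SimpleGraph V} {R : V → Bool}

/-- The vertices of the caterpillar. -/
def cSupp (m : ℕ) (z : ℕ → V) : Set V := {v | ∃ i, 1 ≤ i ∧ i ≤ m ∧ z i = v}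

lemma mem_cSupp {m : ℕ} {z : ℕ → V} {i : ℕ} (h1 : 1 ≤ i) (h2 : i ≤ m) : z i ∈ cSupp m z :=
  ⟨i, h1, h2, rfl⟩

/-- Extension depends only on the set of vertices. -/
lemma cext_iff_fits {m : ℕ} {z c : ℕ → V} (h : Cat G R m z c) (f : V → Q) :
    CExt m (fun j => f (c j)) ↔ ∃ g : V → Q, Fits G R f g (cSupp m z) := by
  constructor
  · intro hE
    obtain ⟨g, hg⟩ := h.toU.fits ((h.ext_iff f).2 hE)
    refine ⟨g, fun u hu w hw => hg u ?_ w hw⟩
    obtain ⟨i, h1, h2, rfl⟩ := hu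
    refine ⟨i - 1, ?_, ?_⟩
    · show i - 1 ≤ m - 1
      omega
    · show z (i - 1 + 1) = z i
      rw [show i - 1 + 1 = i by omega]
  · rintro ⟨g, hg⟩
    refine ⟨fun i => g (z i), fun i h1 h2 => ?_, ?_, ?_, fun i h1 h2 => ?_⟩
    · exact (hg (z i) (mem_cSupp h1 h2) (c i) (h.adjc i h1 h2)).1 (h.cov i (by omega))
    · exact (hg (z 1) (mem_cSupp le_rfl h.pos) (c 0) h.adj0).1 (h.cov 0 (by omega))
    · exact (hg (z m) (mem_cSupp h.pos le_rfl) (c (m + 1)) h.adjm).1 (h.cov (m + 1) le_rfl)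
    · exact (hg (z i) (mem_cSupp h1 (by omega)) (z (i + 1)) (h.adjz i h1 h2)).2
        (h.unc (i + 1) (by omega) (by omega))

/-- The support is closed under uncovered neighbours. -/
lemma cSupp_closed {m : ℕ} {z c : ℕ → V} (h : Cat G R m z c) {u v : V} (hu : u ∈ cSupp m z)
    (hv : ¬ Cov G R v) (huv : G.Adj u v) : v ∈ cSupp m z := by
  obtain ⟨i, h1, h2, rfl⟩ := hu
  rcases h.nbr i h1 h2 v huv with h3 | ⟨h3, h4⟩ | ⟨h3, h4⟩ | ⟨h3, h4⟩ | ⟨h3, h4⟩
  · exact absurd (h3 ▸ h.cov i (by omega)) hv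
  · exact absurd (h4 ▸ h.cov 0 (by omega)) hv
  · exact absurd (h4 ▸ h.cov (m + 1) le_rfl) hv
  · rw [h4]; exact mem_cSupp (by omega) (by omega)
  · rw [h4]; exact mem_cSupp (by omega) (by omega)

lemma cSupp_subset {m m' : ℕ} {z c z' c' : ℕ → V} (h : Cat G R m z c) (h' : Cat G R m' z' c')
    {v : V} (hv : v ∈ cSupp m z) (hv' : v ∈ cSupp m' z') : cSupp m z ⊆ cSupp m' z' := by
  obtain ⟨i, h1, h2, rfl⟩ := hv
  have hup : ∀ j, i ≤ j → j ≤ m → z j ∈ cSupp m' z' := by
    intro j hj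
    induction j, hj using Nat.le_induction with
    | base => intro _; exact hv'
    | succ n hn ih =>
      intro hm
      exact cSupp_closed h' (ih (by omega)) (h.unc (n + 1) (by omega) hm) (h.adjz n (by omega) (by omega))
  have hdown : ∀ t, t < i → z (i - t) ∈ cSupp m' z' := by
    intro t
    induction t with
    | zero => intro _; exact hv'
    | succ n ih =>
      intro hm
      refine cSupp_closed h' (ih (by omega)) (h.unc (i - (n + 1)) (by omega) (by omega)) ?_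
      have := h.adjz (i - (n + 1)) (by omega) (by omega)
      rw [show i - (n + 1) + 1 = i - n by omega] at this
      exact this.symm
  rintro w ⟨j, h3, h4, rfl⟩
  by_cases hij : i ≤ j
  · exact hup j hij h4
  · have := hdown (i - j) (by omega)
    rwa [show i - (i - j) = j by omega] at this

lemma cSupp_eq {m m' : ℕ} {z c z' c' : ℕ → V} (h : Cat G R m z c) (h' : Cat G R m' z' c')
    {v : V} (hv : v ∈ cSupp m z) (hv' : v ∈ cSupp m' z') : cSupp m z = cSupp m' z' :=
  Set.Subset.antisymm (cSupp_subset h h' hv hv') (cSupp_subset h' h hv' hv)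

/-- The position on the path of the port with index `j`. -/
def cl (m j : ℕ) : ℕ := if j = 0 then 1 else if j = m + 1 then m else j

lemma cl_mem {m j : ℕ} (hm : 1 ≤ m) (hj : j ≤ m + 1) : 1 ≤ cl m j ∧ cl m j ≤ m := by
  unfold cl; split_ifs <;> omega

lemma cat_adj_cl {m : ℕ} {z c : ℕ → V} (h : Cat G R m z c) {j : ℕ} (hj : j ≤ m + 1) :
    G.Adj (c j) (z (cl m j)) := by
  unfold cl
  split_ifs with h1 h2
  · subst h1; exact h.adj0.symm
  · subst h2; exact h.adjm.symm
  · exact (h.adjc j (by omega) (by omega)).symm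

/-- A port edge determines the index. -/
lemma port_unique {m : ℕ} {z c : ℕ → V} (h : Cat G R m z c) {i j : ℕ} (hi : i ≤ m + 1) (hj : j ≤ m + 1)
    (hc : c i = c j) (hz : z (cl m i) = z (cl m j)) : i = j := by
  have hp := h.pos
  have h1 := cl_mem hp hi
  have h2 := cl_mem hp hj
  have h3 := h.inj _ _ h1.1 h1.2 h2.1 h2.2 hz
  by_contra hne
  have h0 := h.ne0
  have hm := h.nem
  unfold cl at h3
  by_cases hm1 : m = 1
  · subst hm1
    have h01 := h.ne1 rfl
    have : (i = 0 ∧ j = 1) ∨ (i = 0 ∧ j = 2) ∨ (i = 1 ∧ j = 0) ∨ (i = 1 ∧ j = 2) ∨ (i = 2 ∧ j = 0) ∨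
      (i = 2 ∧ j = 1) := by omega
    rcases this with ⟨rfl, rfl⟩ | ⟨rfl, rfl⟩ | ⟨rfl, rfl⟩ | ⟨rfl, rfl⟩ | ⟨rfl, rfl⟩ | ⟨rfl, rfl⟩
    · exact h0 hc
    · exact h01 hc
    · exact h0 hc.symm
    · exact hm hc
    · exact h01 hc.symm
    · exact hm hc.symm
  · have : (i = 0 ∧ j = 1) ∨ (i = 1 ∧ j = 0) ∨ (i = m ∧ j = m + 1) ∨ (i = m + 1 ∧ j = m) := by
      split_ifs at h3 <;> omega
    rcases this with ⟨rfl, rfl⟩ | ⟨rfl, rfl⟩ | ⟨rfl, rfl⟩ | ⟨rfl, rfl⟩
    · exact h0 hc
    · exact h0 hc.symm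
    · exact hm hc
    · exact hm hc.symm

/-- Every edge from a vertex of the caterpillar to a covered vertex is a port edge. -/
lemma port_exists {m : ℕ} {z c : ℕ → V} (h : Cat G R m z c) {i : ℕ} (h1 : 1 ≤ i) (h2 : i ≤ m) {v : V}
    (hv : Cov G R v) (hzv : G.Adj (z i) v) : ∃ j ≤ m + 1, c j = v ∧ cl m j = i := by
  have hp := h.pos
  rcases h.nbr i h1 h2 v hzv with h3 | ⟨h3, h4⟩ | ⟨h3, h4⟩ | ⟨h3, h4⟩ | ⟨h3, h4⟩
  · exact ⟨i, by omega, h3.symm, by unfold cl; rw [if_neg (by omega), if_neg (by omega)]⟩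
  · exact ⟨0, by omega, h4.symm, by unfold cl; rw [if_pos rfl, h3]⟩
  · exact ⟨m + 1, le_rfl, h4.symm, by unfold cl; rw [if_neg (by omega), if_pos rfl, h3]⟩
  · exact absurd (h4 ▸ hv) (h.unc (i - 1) (by omega) (by omega))
  · exact absurd (h4 ▸ hv) (h.unc (i + 1) (by omega) (by omega))

section stat

variable {k : ℕ} {x y : ℕ → V}

/-- The component can be treated by static forbidden sets. -/
def StatC (k : ℕ) (x y : ℕ → V) (m : ℕ) (c : ℕ → V) : Prop :=
  (m = 1 → ∀ i j, i ≤ 2 → j ≤ 2 → InC k x y (c i) → InC k x y (c j) → i = j) ∧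
  (2 ≤ m → ¬ (InC k x y (c 0) ∧ InC k x y (c 1)) ∧ ¬ (InC k x y (c m) ∧ InC k x y (c (m + 1))) ∧
    (InC k x y (c 0) ∨ InC k x y (c 1) → InC k x y (c m) ∨ InC k x y (c (m + 1)) → 3 ≤ m))

/-- A port edge at an inner vertex of the caterpillar: both other neighbours are uncovered. -/
def InnerPt (G : SimpleGraph V) (R : V → Bool) (z : V) : Prop :=
  ∃ u w, u ≠ w ∧ G.Adj z u ∧ G.Adj z w ∧ ¬ Cov G R u ∧ ¬ Cov G R w

/-- Forbidden sets on the port edges of one component. -/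
structure SetKill (G : SimpleGraph V) (R : V → Bool) (k : ℕ) (x y : ℕ → V) (f : V → Q) (S : Set V)
    (v₀ z₀ : V) (φ : V → V → Finset Q) : Prop where
  two : ∀ v z, (φ v z).card ≤ 2
  one : InnerPt G R z₀ → (φ v₀ z₀).card ≤ 1
  ok : ∀ f' : V → Q, (∀ v, Cov G R v → ¬ InC k x y v → f' v = f v) →
    (∀ z ∈ S, ∀ v, G.Adj v z → InC k x y v → f' v ∉ φ v z) → ∃ g, Fits G R f' g S

/-- The inner vertices have the inner positions. -/
lemma innerPt_pos {m : ℕ} {z c : ℕ → V} (h : Cat G R m z c) {i : ℕ} (h1 : 1 ≤ i) (h2 : i ≤ m)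
    (hi : InnerPt G R (z i)) : 2 ≤ i ∧ i + 1 ≤ m := by
  obtain ⟨u, w, huw, hu, hw, hcu, hcw⟩ := hi
  have key : ∀ v, G.Adj (z i) v → ¬ Cov G R v → (1 < i ∧ v = z (i - 1)) ∨ (i < m ∧ v = z (i + 1)) := by
    intro v hv hcv
    rcases h.nbr i h1 h2 v hv with h3 | ⟨h3, h4⟩ | ⟨h3, h4⟩ | h3 | h3
    · exact absurd (h3 ▸ h.cov i (by omega)) hcv
    · exact absurd (h4 ▸ h.cov 0 (by omega)) hcv
    · exact absurd (h4 ▸ h.cov (m + 1) le_rfl) hcv
    · exact Or.inl h3
    · exact Or.inr h3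
  rcases key u hu hcu with ⟨a1, a2⟩ | ⟨a1, a2⟩ <;> rcases key w hw hcw with ⟨b1, b2⟩ | ⟨b1, b2⟩
  · exact absurd (a2.trans b2.symm) huw
  · omega
  · omega
  · exact absurd (a2.trans b2.symm) huw

theorem setKill_of_stat (hch : Chn G R k x y) {f : V → Q} (hf : OffC G R k x y f) {m : ℕ}
    {z c : ℕ → V} (h : Cat G R m z c) (hst : StatC k x y m c) (hex : ∃ j ≤ m + 1, InC k x y (c j))
    (v₀ z₀ : V) : ∃ φ, SetKill G R k x y f (cSupp m z) v₀ z₀ φ := by
  have hp := h.pos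
  -- labels of two ports of one vertex outside the chain are not antipodal
  have hfork : ∀ i j, i ≤ m + 1 → j ≤ m + 1 → cl m i = cl m j → ¬ InC k x y (c i) →
      ¬ InC k x y (c j) → f (c i) ≠ neg (f (c j)) := by
    intro i j hi hj hij h1 h2
    have hz := cl_mem hp hi
    have hzu := h.unc _ hz.1 hz.2
    have hzn : ¬ InC k x y (z (cl m i)) := fun h' => hzu (hch.cov h')
    have a1 := (cat_adj_cl h hi).symm
    have a2 := (cat_adj_cl h hj).symm
    rw [← hij] at a2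
    have e1 := (hf _ _ a1 hzn h1).2 (he_of_unc hzu a1).2
    have e2 := (hf _ _ a2 hzn h2).2 (he_of_unc hzu a2).2
    exact H3DA.nr_common e1 e2
  -- the designated place
  obtain ⟨p, hpp⟩ : ∃ p, ∀ j ≤ m + 1, c j = v₀ → z (cl m j) = z₀ → InnerPt G R z₀ → j = p := by
    by_cases hex : ∃ j ≤ m + 1, c j = v₀ ∧ z (cl m j) = z₀
    · obtain ⟨j, hj, h1, h2⟩ := hex
      exact ⟨j, fun j' hj' h3 h4 _ => port_unique h hj' hj (h3.trans h1.symm) (h4.trans h2.symm)⟩
    · exact ⟨0, fun j hj h1 h2 _ => absurd ⟨j, hj, h1, h2⟩ hex⟩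
  have hK : Kills m (fun j => InC k x y (c j)) (fun j => f (c j)) p := by
    by_cases hm1 : m = 1
    · subst hm1
      obtain ⟨j₀, hj₀, hJ⟩ := hex
      refine kills_star hj₀ hJ (fun j hj hJ' => hst.1 rfl j j₀ hj hj₀ hJ' hJ) ?_
      intro i j hi hj hij hi0 hj0
      refine hfork i j hi hj ?_ (fun h' => hi0 (hst.1 rfl _ _ hi hj₀ h' hJ))
        (fun h' => hj0 (hst.1 rfl _ _ hj hj₀ h' hJ))
      have a1 := cl_mem le_rfl hi
      have a2 := cl_mem le_rfl hj
      omega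
    · obtain ⟨s1, s2, s3⟩ := hst.2 (by omega)
      have e0 : cl m 0 = 1 := by unfold cl; simp
      have e1 : cl m 1 = 1 := by unfold cl; rw [if_neg (by omega), if_neg (by omega)]
      have em : cl m m = m := by unfold cl; rw [if_neg (by omega), if_neg (by omega)]
      have em1 : cl m (m + 1) = m := by unfold cl; rw [if_neg (by omega), if_pos rfl]
      exact kills (by omega) s1 s2 hex
        (fun h1 h2 => hfork 0 1 (by omega) (by omega) (by rw [e0, e1]) h1 h2)
        (fun h1 h2 => hfork m (m + 1) (by omega) le_rfl (by rw [em, em1]) h1 h2) s3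
  obtain ⟨F, hF2, hF1, hF⟩ := hK
  refine ⟨fun v w => if hh : ∃ j ≤ m + 1, c j = v ∧ z (cl m j) = w then F hh.choose else ∅,
    ⟨fun v w => ?_, fun hin => ?_, fun f' hf' hav => ?_⟩⟩
  · split_ifs
    · exact hF2 _
    · simp
  · split_ifs with hh
    · obtain ⟨a1, a2, a3⟩ := hh.choose_spec
      have e := hpp _ a1 a2 a3 hin
      rw [e]
      have h4 := cl_mem hp a1
      have h5 := innerPt_pos h h4.1 h4.2 (a3.symm ▸ hin)
      have h6 : cl m hh.choose = hh.choose := by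
        unfold cl at h5 ⊢
        split_ifs at h5 ⊢ <;> omega
      rw [h6] at h5
      exact hF1 (by omega) (by omega)
    · simp
  · rw [← cext_iff_fits h f']
    refine hF _ (fun j hj hJ => hf' _ (h.cov j hj) hJ) (fun j hj hJ => ?_)
    have h4 := cl_mem hp hj
    have := hav (z (cl m j)) (mem_cSupp h4.1 h4.2) (c j) (cat_adj_cl h hj) hJ
    have hh : ∃ j' ≤ m + 1, c j' = c j ∧ z (cl m j') = z (cl m j) := ⟨j, hj, rfl, rfl⟩
    rw [dif_pos hh] at this
    have hs := hh.choose_spec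
    rwa [port_unique h hs.1 hj hs.2.1 hs.2.2] at this

end stat

section global

variable {k : ℕ} {x y : ℕ → V}

/-- Forbidden sets on all port edges of the chain; the components meeting `E` are left uncharged. -/
structure Forb (G : SimpleGraph V) (R : V → Bool) (k : ℕ) (x y : ℕ → V) (f : V → Q) (E : Set V)
    (v₀ z₀ : V) (Φ : V → V → Finset Q) : Prop where
  two : ∀ v z, (Φ v z).card ≤ 2
  one : InnerPt G R z₀ → (Φ v₀ z₀).card ≤ 1
  triv : ∀ v z, z ∈ E → Φ v z = ∅
  deg2 : ∀ z a b, IsTwo G R z a b → (Φ a z).card ≤ 1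
  isTwo : ∀ f' : V → Q, (∀ v, Cov G R v → ¬ InC k x y v → f' v = f v) →
    (∀ z v, ¬ Cov G R z → G.Adj v z → InC k x y v → f' v ∉ Φ v z) →
    ∀ z a b, IsTwo G R z a b → z ∉ E → InC k x y a → ¬ InC k x y b → f' a ≠ neg (f' b)
  cat : ∀ f' : V → Q, (∀ v, Cov G R v → ¬ InC k x y v → f' v = f v) →
    (∀ z v, ¬ Cov G R z → G.Adj v z → InC k x y v → f' v ∉ Φ v z) →
    ∀ m z c, Cat G R m z c → StatC k x y m c → (∃ j ≤ m + 1, InC k x y (c j)) →
      (∀ i, 1 ≤ i → i ≤ m → z i ∉ E) → CExt m (fun j => f' (c j))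

lemma isTwo_not_cat {m : ℕ} {z c : ℕ → V} (h : Cat G R m z c) {i : ℕ} (h1 : 1 ≤ i) (h2 : i ≤ m)
    {a b : V} (hT : IsTwo G R (z i) a b) : False := by
  obtain ⟨t1, t2, t3, t4, t5, t6, t7⟩ := hT
  have hp := h.pos
  by_cases hm1 : m = 1
  · subst hm1
    have hi : i = 1 := by omega
    subst hi
    have h0 := h.ne0
    have h01 := h.ne1 rfl
    have hm := h.nem
    have b0 := t7 _ h.adj0
    have b1 := t7 _ (h.adjc 1 le_rfl le_rfl)
    have b2 := t7 _ h.adjm
    rcases b0 with e0 | e0 <;> rcases b1 with e1 | e1 <;> rcases b2 with e2 | e2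
    · exact h0 (e0.trans e1.symm)
    · exact h0 (e0.trans e1.symm)
    · exact h01 (e0.trans e2.symm)
    · exact hm (e1.trans e2.symm)
    · exact hm (e1.trans e2.symm)
    · exact h01 (e0.trans e2.symm)
    · exact h0 (e0.trans e1.symm)
    · exact h0 (e0.trans e1.symm)
  · -- an uncovered neighbour
    have : ∃ w, G.Adj (z i) w ∧ ¬ Cov G R w := by
      by_cases hi : i < m
      · exact ⟨z (i + 1), h.adjz i h1 hi, h.unc (i + 1) (by omega) (by omega)⟩
      · have := h.adjz (i - 1) (by omega) (by omega)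
        rw [show i - 1 + 1 = i by omega] at this
        exact ⟨z (i - 1), this.symm, h.unc (i - 1) (by omega) (by omega)⟩
    obtain ⟨w, hw, hcw⟩ := this
    rcases t7 w hw with e | e
    · exact hcw (e ▸ t5)
    · exact hcw (e ▸ t6)

theorem exists_forb (hch : Chn G R k x y) {f : V → Q} (hf : OffC G R k x y f) (E : Set V)
    (v₀ z₀ : V) : ∃ Φ, Forb G R k x y f E v₀ z₀ Φ := by
  -- choose the forbidden sets of the components
  have hsel : ∀ S : Set V, ∃ φ : V → V → Finset Q, (∀ v z, (φ v z).card ≤ 2) ∧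
      (InnerPt G R z₀ → (φ v₀ z₀).card ≤ 1) ∧
      ((∃ φ, SetKill G R k x y f S v₀ z₀ φ) → SetKill G R k x y f S v₀ z₀ φ) := by
    intro S
    by_cases h : ∃ φ, SetKill G R k x y f S v₀ z₀ φ
    · obtain ⟨φ, hφ⟩ := h
      exact ⟨φ, hφ.two, hφ.one, fun _ => hφ⟩
    · exact ⟨fun _ _ => ∅, by simp, by simp, fun h' => absurd h' h⟩
  choose φ hφ2 hφ1 hφ using hsel
  -- the component of a vertex
  let sup : V → Set V := fun v => {w | ∃ m z c, Cat G R m z c ∧ v ∈ cSupp m z ∧ w ∈ cSupp m z}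
  have hsup : ∀ {m : ℕ} {z c : ℕ → V}, Cat G R m z c → ∀ v ∈ cSupp m z, sup v = cSupp m z := by
    intro m z c h v hv
    ext w
    constructor
    · rintro ⟨m', z', c', h', hv', hw'⟩
      rw [← cSupp_eq h' h hv' hv]; exact hw'
    · intro hw
      exact ⟨m, z, c, h, hv, hw⟩
  refine ⟨fun v z => if z ∈ E then ∅ else if ∃ a b, IsTwo G R z a b then
    (if ∃ b, IsTwo G R z v b ∧ ¬ InC k x y b then
      (univ.filter (fun t => ∃ b, IsTwo G R z v b ∧ t = neg (f b))) else ∅)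
    else φ (sup z) v z, ⟨?_, ?_, ?_, ?_, ?_, ?_⟩⟩
  · intro v z
    split_ifs with h1 h2 h3
    · simp
    · obtain ⟨b, hb, hb'⟩ := h3
      have : (univ.filter (fun t => ∃ b, IsTwo G R z v b ∧ t = neg (f b))) ⊆ {neg (f b)} := by
        intro t ht
        simp only [mem_filter, mem_univ, true_and] at ht
        obtain ⟨b', hb1, rfl⟩ := ht
        rw [mem_singleton]
        rcases hb.2.2.2.2.2.2 b' hb1.2.2.1 with h | h
        · exact absurd h.symm hb1.2.2.2.1
        · rw [h]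
      exact (Finset.card_le_card this).trans (by simp)
    · simp
    · exact hφ2 _ _ _
  · intro hin
    split_ifs with h1 h2 h3
    · simp
    · obtain ⟨b, hb, hb'⟩ := h3
      have : (univ.filter (fun t => ∃ b, IsTwo G R z₀ v₀ b ∧ t = neg (f b))) ⊆ {neg (f b)} := by
        intro t ht
        simp only [mem_filter, mem_univ, true_and] at ht
        obtain ⟨b', hb1, rfl⟩ := ht
        rw [mem_singleton]
        rcases hb.2.2.2.2.2.2 b' hb1.2.2.1 with h | h
        · exact absurd h.symm hb1.2.2.2.1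
        · rw [h]
      exact (Finset.card_le_card this).trans (by simp)
    · simp
    · exact hφ1 _ hin
  · intro v z hz
    rw [if_pos hz]
  · intro z a b hT
    have h2 : ∃ a b, IsTwo G R z a b := ⟨a, b, hT⟩
    split_ifs with h1 h3
    · simp
    · have : (univ.filter (fun t => ∃ b, IsTwo G R z a b ∧ t = neg (f b))) ⊆ {neg (f b)} := by
        intro t ht
        simp only [mem_filter, mem_univ, true_and] at ht
        obtain ⟨b', hb1, rfl⟩ := ht
        rw [mem_singleton]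
        rcases hT.2.2.2.2.2.2 b' hb1.2.2.1 with h | h
        · exact absurd h.symm hb1.2.2.2.1
        · rw [h]
      exact (Finset.card_le_card this).trans (by simp)
    · simp
  · intro f' hf' hav z a b hT hzE ha hb
    have h2 : ∃ a b, IsTwo G R z a b := ⟨a, b, hT⟩
    have h3 : ∃ b, IsTwo G R z a b ∧ ¬ InC k x y b := ⟨b, hT, hb⟩
    have := hav z a hT.1 hT.2.1.symm ha
    rw [if_neg hzE, if_pos h2, if_pos h3] at this
    intro he
    apply this
    simp only [mem_filter, mem_univ, true_and]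
    exact ⟨b, hT, by rw [he, hf' b hT.2.2.2.2.2.1 hb]⟩
  · intro f' hf' hav m z c h hst hex hE
    have hK := hφ (cSupp m z) (setKill_of_stat hch hf h hst hex v₀ z₀)
    rw [cext_iff_fits h f']
    refine hK.ok f' hf' (fun w hw v hv hin => ?_)
    obtain ⟨i, h1, h2, rfl⟩ := hw
    have := hav (z i) v (h.unc i h1 h2) hv hin
    have hno : ¬ ∃ a b, IsTwo G R (z i) a b := fun ⟨a, b, hT⟩ => isTwo_not_cat h h1 h2 hT
    rw [if_neg (hE i h1 h2), if_neg hno, hsup h (z i) (mem_cSupp h1 h2)] at this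
    exact this

end global

end CLB.H95
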