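import Pool.Agent.Helper95_CLB.StaK
import Pool.Agent.Helper95_CLB.WinU

/-!
The status of a window at the left end of a chain.
-/

set_option autoImplicit false
set_option linter.unusedSectionVars false

namespace CLB.H95

open H3DA (Q neg nr)
open Finset Classical
open CLB.H3 (CExt Cat IsTwo Fits UPath he_of_unc cat_structure chn_side KTight exists_ktight no_cext
  Leaf cext_or pc pc_pos pc_le pc_lk pc_cov pc_two pc_one cat_side_z)

variable {V : Type*} {G : SimpleGraph V} {R : V → Bool} [Fintype V] {k r : ℕ} {x y X Y : ℕ → V}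
  {m : ℕ} {z c : ℕ → V} {f : V → Q}

/-- The place of a vertex in the window of the first `N` units. -/
noncomputable def plv (N : ℕ) (x y : ℕ → V) (v : V) : ℕ :=
  if InC N x y v then (if v = x (idx N x y v) then 2 * idx N x y v else 2 * idx N x y v + 1) else 0

lemma plv_x {N : ℕ} (h : Chn G R N x y) {i : ℕ} (h1 : 1 ≤ i) (h2 : i ≤ N) : plv N x y (x i) = 2 * i := by
  unfold plv
  rw [if_pos (InC.x h1 h2), idx_x h h1 h2, if_pos rfl]

lemma plv_y {N : ℕ} (h : Chn G R N x y) {i : ℕ} (h1 : 1 ≤ i) (h2 : i ≤ N) :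
    plv N x y (y i) = 2 * i + 1 := by
  unfold plv
  rw [if_pos (InC.y h1 h2), idx_y h h1 h2, if_neg (fun e => h.xy i i h1 h2 h1 h2 e.symm)]

lemma plv_out {N : ℕ} {v : V} (hv : ¬ InC N x y v) : plv N x y v = 0 := by
  unfold plv; rw [if_neg hv]

lemma plv_div {N : ℕ} (h : Chn G R N x y) {i : ℕ} (h1 : 1 ≤ i) (h2 : i ≤ N) {v : V} :
    plv N x y v / 2 = i ↔ InU x y i v := by
  by_cases hv : InC N x y v
  · obtain ⟨j, j1, j2, rfl | rfl⟩ := hv
    · rw [plv_x h j1 j2, Nat.mul_div_cancel_left _ (by norm_num)]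
      constructor
      · rintro rfl; exact Or.inl rfl
      · intro hu
        have := InU.idx h h1 h2 hu
        rw [idx_x h j1 j2] at this
        exact this
    · rw [plv_y h j1 j2, show (2 * j + 1) / 2 = j by omega]
      constructor
      · rintro rfl; exact Or.inr rfl
      · intro hu
        have := InU.idx h h1 h2 hu
        rw [idx_y h j1 j2] at this
        exact this
  · rw [plv_out hv]
    constructor
    · intro h0; omega
    · intro hu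
      exact absurd ⟨i, h1, h2, hu⟩ hv

lemma plv_inW {N : ℕ} (h : Chn G R N x y) {n : ℕ} (hn : n ≤ N) {v : V} :
    Sta.inW n (plv N x y v) = true ↔ InC n x y v := by
  unfold Sta.inW
  rw [Bool.and_eq_true]
  constructor
  · rintro ⟨h1, h2⟩
    have h1 := Nat.le_of_ble_eq_true h1
    have h2 := Nat.le_of_ble_eq_true h2
    have h3 : 1 ≤ plv N x y v / 2 := by omega
    exact ⟨plv N x y v / 2, h3, h2, (plv_div h h3 (by omega)).1 rfl⟩
  · rintro ⟨i, i1, i2, i3⟩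
    have := (plv_div h i1 (by omega)).2 i3
    exact ⟨Nat.ble_eq_true_of_le (by omega), Nat.ble_eq_true_of_le (by omega)⟩

lemma plv_inW' {N : ℕ} (h : Chn G R N x y) {n : ℕ} (hn : n ≤ N) {v : V} :
    Sta.inW n (plv N x y v) = decide (InC n x y v) := by
  rw [Bool.eq_iff_iff, plv_inW h hn, decide_eq_true_iff]

lemma plv_pos {N : ℕ} {v : V} (hv : plv N x y v ≠ 0) : InC N x y v := by
  by_contra h
  exact hv (plv_out h)

lemma plv_le {N : ℕ} {v : V} : plv N x y v / 2 ≤ N := by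
  by_cases hv : InC N x y v
  · have := idx_spec hv
    unfold plv
    rw [if_pos hv]
    split_ifs <;> omega
  · rw [plv_out hv]; omega

/-- The vertex of a place. -/
noncomputable def vpl (x y : ℕ → V) (a : ℕ) : V := if a % 2 = 0 then x (a / 2) else y (a / 2)

lemma vpl_plv {N : ℕ} {v : V} (hv : InC N x y v) : vpl x y (plv N x y v) = v := by
  obtain ⟨h1, h2, h3⟩ := idx_spec hv
  unfold vpl plv
  rw [if_pos hv]
  by_cases e : v = x (idx N x y v)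
  · rw [if_pos e, if_pos (by omega), show 2 * idx N x y v / 2 = idx N x y v by omega]
    exact e.symm
  · rw [if_neg e, if_neg (by omega), show (2 * idx N x y v + 1) / 2 = idx N x y v by omega]
    rcases h3 with h3 | h3
    · exact absurd h3 e
    · exact h3.symm

/-- A foreign vertex sees different letters of the units `i`, `i + 2`. -/
def FR (G : SimpleGraph V) (R : V → Bool) (X Y : ℕ → V) (m : ℕ) (z : ℕ → V) (i : ℕ) : Prop :=
  ∃ w, w ∉ cSupp m z ∧ ¬ Cov G R w ∧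
    ((G.Adj w (X i) ∧ G.Adj w (Y (i + 2))) ∨ (G.Adj w (Y i) ∧ G.Adj w (X (i + 2))))

/-- `{X 1, X 3 | X 2, o}`. -/
def Trn (r : ℕ) (X Y : ℕ → V) (m : ℕ) (c : ℕ → V) : Prop :=
  m = 2 ∧ ∃ a a' b b', a ≤ 3 ∧ a' ≤ 3 ∧ b ≤ 3 ∧ b' ≤ 3 ∧ a ≠ a' ∧ b ≠ b' ∧ cl 2 a = cl 2 a' ∧
    cl 2 b = cl 2 b' ∧ cl 2 a ≠ cl 2 b ∧ c a = X 1 ∧ c a' = X 3 ∧ c b = X 2 ∧ ¬ InC r X Y (c b')

/-- `{X 1, X 3 | ., . | X 2, X 4}`. -/
def Qdr (r : ℕ) (X Y : ℕ → V) (m : ℕ) (c : ℕ → V) : Prop :=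
  m = 4 ∧ ∃ a a' b b', a ≤ 5 ∧ a' ≤ 5 ∧ b ≤ 5 ∧ b' ≤ 5 ∧ a ≠ a' ∧ b ≠ b' ∧ cl 4 a = cl 4 a' ∧
    cl 4 b = cl 4 b' ∧ c a = X 1 ∧ c a' = X 3 ∧ c b = X 2 ∧ c b' = X 4

def HasTrn (G : SimpleGraph V) (R : V → Bool) (X Y : ℕ → V) (m : ℕ) (z : ℕ → V) : Prop :=
  ∃ m' z' c', Cat G R m' z' c' ∧ cSupp m' z' ≠ cSupp m z ∧ Trn 3 X Y m' c'

def HasQdr (G : SimpleGraph V) (R : V → Bool) (X Y : ℕ → V) (m : ℕ) (z : ℕ → V) : Prop :=
  ∃ m' z' c', Cat G R m' z' c' ∧ cSupp m' z' ≠ cSupp m z ∧ Qdr 4 X Y m' c'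

/-- The number of the exceptional component. -/
noncomputable def kapv (G : SimpleGraph V) (R : V → Bool) (N : ℕ) (X Y : ℕ → V) (m : ℕ) (z : ℕ → V) :
    ℕ :=
  if 4 ≤ N ∧ HasQdr G R X Y m z then 3 else if 3 ≤ N ∧ HasTrn G R X Y m z then 2 else
    if HasCpl G R 2 X Y m z then 1 else 0

/-- **The status.** -/
noncomputable def rst (G : SimpleGraph V) (R : V → Bool) (N : ℕ) (X Y : ℕ → V) (m : ℕ) (z c : ℕ → V) :
    Sta where
  w := (List.range N).map (fun j => (pc m c (X (j + 1)), pc m c (Y (j + 1))))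
  a0 := plv N X Y (c 0)
  a1 := plv N X Y (c 1)
  b0 := plv N X Y (c m)
  b1 := plv N X Y (c (m + 1))
  odd := decide (m % 2 = 1)
  f1 := decide (3 ≤ N ∧ FR G R X Y m z 1)
  f2 := decide (4 ≤ N ∧ kapv G R N X Y m z ≤ 1 ∧ FR G R X Y m z 2)
  kap := kapv G R N X Y m z

variable {N : ℕ}

lemma rst_ow {i : ℕ} (h1 : 1 ≤ i) (h2 : i ≤ N) :
    (rst G R N X Y m z c).ow i = (pc m c (X i), pc m c (Y i)) := by
  unfold Sta.ow rst
  rw [List.getD_eq_getElem?_getD, List.getElem?_map, List.getElem?_range (by omega)]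
  simp only [Option.map_some, Option.getD_some]
  rw [show i - 1 + 1 = i by omega]

lemma rst_ow_out {i : ℕ} (h2 : N < i) : (rst G R N X Y m z c).ow i = (0, 0) := by
  unfold Sta.ow rst
  rw [List.getD_eq_getElem?_getD, List.getElem?_map, List.getElem?_eq_none (by simp; omega)]
  simp

lemma rst_own {i : ℕ} (h1 : 1 ≤ i) (h2 : i ≤ N) :
    (rst G R N X Y m z c).own i = pc m c (X i) + pc m c (Y i) := by
  unfold Sta.own
  rw [rst_ow h1 h2]

/-- The number of vertices of a support. -/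
lemma cSupp_card {m : ℕ} {z c : ℕ → V} (h : Cat G R m z c) : (cSupp m z).ncard = m := by
  have e : cSupp m z = z '' (Set.Icc 1 m) := by
    ext v
    constructor
    · rintro ⟨i, h1, h2, rfl⟩; exact ⟨i, ⟨h1, h2⟩, rfl⟩
    · rintro ⟨i, ⟨h1, h2⟩, rfl⟩; exact ⟨i, h1, h2, rfl⟩
  rw [e, Set.InjOn.ncard_image (fun i hi j hj he => h.inj _ _ hi.1 hi.2 hj.1 hj.2 he)]
  simp [Set.ncard_eq_toFinset_card']

lemma Trn.x2 {m' : ℕ} {c' : ℕ → V} (h : Trn r X Y m' c') : ∃ j ≤ m' + 1, c' j = X 2 := by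
  obtain ⟨rfl, a, a', b, b', h1, h2, h3, h4, -, -, -, -, -, -, -, h5, -⟩ := h
  exact ⟨b, by omega, h5⟩

lemma Qdr.x2 {m' : ℕ} {c' : ℕ → V} (h : Qdr r X Y m' c') : ∃ j ≤ m' + 1, c' j = X 2 := by
  obtain ⟨rfl, a, a', b, b', h1, h2, h3, h4, -, -, -, -, -, -, h5, -⟩ := h
  exact ⟨b, by omega, h5⟩

/-- The exceptional components exclude each other. -/
lemma kap_excl (hG : ClassC G R) (h : Chn G R N X Y) (hN : 2 ≤ N) (h1 : HasQdr G R X Y m z) :
    ¬ HasTrn G R X Y m z ∧ ∀ r, ¬ HasCpl G R r X Y m z := by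
  obtain ⟨m1, z1, c1, k1, -, k3⟩ := h1
  obtain ⟨i1, i2, i3⟩ := k3.x2
  have hm1 : m1 = 4 := k3.1
  have key : ∀ {m2 : ℕ} {z2 c2 : ℕ → V}, Cat G R m2 z2 c2 → (∃ j ≤ m2 + 1, c2 j = X 2) → m2 = 2 →
      False := by
    intro m2 z2 c2 l1 ⟨j1, j2, j3⟩ hm2
    have := supp_x2 hG h hN k1 l1 i2 j2 i3 j3
    have e1 := cSupp_card k1
    have e2 := cSupp_card l1
    rw [this] at e1
    omega
  exact ⟨fun ⟨m2, z2, c2, l1, _, l3⟩ => key l1 l3.x2 l3.1,
    fun r ⟨m2, z2, c2, l1, _, l3⟩ => key l1 l3.x2 l3.1⟩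

lemma InC.mono {n n' : ℕ} (hn : n ≤ n') {v : V} (h : InC n x y v) : InC n' x y v := by
  obtain ⟨i, h1, h2, h3⟩ := h
  exact ⟨i, h1, by omega, h3⟩

lemma Cpl.mono {n n' : ℕ} (hn : n ≤ n') {m' : ℕ} {c' : ℕ → V} (h : Cpl x n' y m' c') :
    Cpl x n y m' c' := by
  obtain ⟨h1, a, b, ha, hb, oa, ob, hab⟩ := h
  exact ⟨h1, a, b, ha, hb, fun h' => oa (h'.mono hn), fun h' => ob (h'.mono hn), hab⟩

lemma HasCpl.mono {n n' : ℕ} (hn : n ≤ n') (h : HasCpl G R n' X Y m z) : HasCpl G R n X Y m z := by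
  obtain ⟨m', z', c', h1, h2, h3⟩ := h
  exact ⟨m', z', c', h1, h2, h3.mono hn⟩

lemma Trn.mono {n n' : ℕ} (hn : n ≤ n') {m' : ℕ} {c' : ℕ → V} (h : Trn n' X Y m' c') :
    Trn n X Y m' c' := by
  obtain ⟨h1, a, a', b, b', g1, g2, g3, g4, g5, g6, g7, g8, g9, g10, g11, g12, g13⟩ := h
  exact ⟨h1, a, a', b, b', g1, g2, g3, g4, g5, g6, g7, g8, g9, g10, g11, g12,
    fun h' => g13 (h'.mono hn)⟩

/-- The classification of the foreign components at the window of the first `n` units. -/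
def EndClean (G : SimpleGraph V) (R : V → Bool) (n : ℕ) (X Y : ℕ → V) (m : ℕ) (z : ℕ → V) : Prop :=
  ∀ m' z' c', Cat G R m' z' c' → cSupp m' z' ≠ cSupp m z → (∃ j ≤ m' + 1, InC n X Y (c' j)) →
    (m' = 1 → ∀ i j, i ≤ 2 → j ≤ 2 → InC n X Y (c' i) → InC n X Y (c' j) → i = j) ∧
    (2 ≤ m' → ¬ NCp m' (fun j => InC n X Y (c' j)) ∨ (2 ≤ n ∧ Cpl X n Y m' c') ∨
      (3 ≤ n ∧ Trn n X Y m' c') ∨ (n = 4 ∧ Qdr n X Y m' c'))

lemma kapv_le : kapv G R N X Y m z ≤ 3 := by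
  unfold kapv; split_ifs <;> omega

/-- The windows which may be used are clean up to couples. -/
lemma cleanC_of (hG : ClassC G R) (h : Chn G R N X Y) (hN : 2 ≤ N) (hN4 : N ≤ 4) {n : ℕ} (hn : n ≤ N)
    (hl : n ≤ Sta.lim (kapv G R N X Y m z)) (hE : EndClean G R n X Y m z) :
    CleanC G R n X Y m z := by
  intro m' z' c' hC hne hex
  obtain ⟨e1, e2⟩ := hE m' z' c' hC hne hex
  refine ⟨e1, fun hm2 => ?_⟩
  rcases e2 hm2 with h1 | h1 | ⟨h1, h2⟩ | ⟨h1, h2⟩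
  · exact Or.inr h1
  · exact Or.inl h1
  · exfalso
    have hT : HasTrn G R X Y m z := ⟨m', z', c', hC, hne, h2.mono (by omega)⟩
    have hQ : ¬ HasQdr G R X Y m z := fun hQ => (kap_excl hG h hN hQ).1 hT
    have : kapv G R N X Y m z = 2 := by
      unfold kapv
      rw [if_neg (fun h' => hQ h'.2), if_pos ⟨by omega, hT⟩]
    rw [this] at hl
    have : Sta.lim 2 = 2 := rfl
    omega
  · exfalso
    subst h1
    have hQ : HasQdr G R X Y m z := ⟨m', z', c', hC, hne, h2⟩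
    have : kapv G R N X Y m z = 3 := by
      unfold kapv
      rw [if_pos ⟨by omega, hQ⟩]
    rw [this] at hl
    have : Sta.lim 3 = 3 := rfl
    omega

lemma cp_of (hG : ClassC G R) (h : Chn G R N X Y) (hN : 2 ≤ N) {n : ℕ} (hn2 : 2 ≤ n)
    (hH : HasCpl G R n X Y m z) : kapv G R N X Y m z = 1 ∨ kapv G R N X Y m z = 2 := by
  have hQ : ¬ HasQdr G R X Y m z := fun hQ => (kap_excl hG h hN hQ).2 _ hH
  unfold kapv
  rw [if_neg (fun h' => hQ h'.2)]
  by_cases hT : 3 ≤ N ∧ HasTrn G R X Y m z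
  · rw [if_pos hT]; exact Or.inr rfl
  · rw [if_neg hT, if_pos (hH.mono hn2)]; exact Or.inl rfl

end CLB.H95
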