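import Pool.Agent.Helper95_CLB.OnlThree

/-!
Open chains of five units with two paths of three vertices, both seeing the two ends, whose outside ports
are mates.
-/

set_option autoImplicit false
set_option linter.unusedSectionVars false

namespace CLB.H95

open Finset Classical
open H3DA (Q neg nr)
open CLB.H3 (CExt Cat IsTwo Fits UPath he_of_unc cat_structure chn_side)

variable {V : Type*} {G H : SimpleGraph V} {R : V → Bool} [Fintype V] {k : ℕ} {x y : ℕ → V}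

lemma pre_near : ∀ (D : Ty) (x y : Q), x ∈ pre D y → nr (neg x) y = true := by decide

/-- In a tight labelling the port next to a fork is near the antipodes of both labels of the fork. -/
lemma Tight.near {D : Ty} {s : ℕ → Q} {m : ℕ} (hm : 2 ≤ m) (h : Tight D s m) :
    nr (neg (s 0)) (s 2) = true ∧ nr (neg (s 1)) (s 2) = true := by
  have h1 := h.2.1 1 le_rfl (by omega)
  rw [altT_one] at h1
  have h2 := fork_pre D _ _ _ h1 h.1
  exact ⟨pre_near _ _ _ h2.1, pre_near _ _ _ h2.2⟩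

lemma Tight.nearR {D : Ty} {s : ℕ → Q} {m : ℕ} (hm : 2 ≤ m) (h : Tight D s m) :
    nr (neg (s (m + 1))) (s (m - 1)) = true ∧ nr (neg (s m)) (s (m - 1)) = true := by
  have h1 := h.rev.near hm
  simpa [show m + 1 - 2 = m - 1 by omega] using h1

/-- The partner in the fork, three vertices. -/
def mt3 (a : ℕ) : ℕ := if a = 0 then 1 else if a = 1 then 0 else if a = 3 then 4 else 3

lemma cext3_of {s : ℕ → Q} {a b : ℕ} (hab : (a ≤ 1 ∧ 3 ≤ b ∧ b ≤ 4) ∨ (3 ≤ a ∧ a ≤ 4 ∧ b ≤ 1))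
    (h1 : s a ≠ neg (s (mt3 a))) (h2 : s b ≠ neg (s (mt3 b)))
    (h3 : nr (neg (s (mt3 a))) (s 2) = false) : CExt 3 s := by
  rw [cext_iff (by omega)]
  have e : ∀ x y : Q, x ≠ neg y → y ≠ neg x := fun x y => H3DA.ne_neg_symm
  have hcase : (a = 0 ∨ a = 1) ∧ (b = 3 ∨ b = 4) ∨ (a = 3 ∨ a = 4) ∧ (b = 0 ∨ b = 1) := by omega
  have ht : ∀ D, ¬ Tight D s 3 := by
    intro D hD
    have n1 := hD.near (by omega)
    have n2 := hD.nearR (by omega)
    simp only [show 3 - 1 = 2 by rfl, show 3 + 1 = 4 by rfl] at n2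
    rcases hcase with ⟨rfl | rfl, -⟩ | ⟨rfl | rfl, -⟩
    · rw [show mt3 0 = 1 by rfl, n1.2] at h3; simp at h3
    · rw [show mt3 1 = 0 by rfl, n1.1] at h3; simp at h3
    · rw [show mt3 3 = 4 by rfl, n2.1] at h3; simp at h3
    · rw [show mt3 4 = 3 by rfl, n2.2] at h3; simp at h3
  rcases hcase with ⟨rfl | rfl, rfl | rfl⟩ | ⟨rfl | rfl, rfl | rfl⟩
  · exact ⟨h1, h2, ht⟩
  · exact ⟨h1, e _ _ h2, ht⟩
  · exact ⟨e _ _ h1, h2, ht⟩
  · exact ⟨e _ _ h1, e _ _ h2, ht⟩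
  · exact ⟨h2, h1, ht⟩
  · exact ⟨e _ _ h2, h1, ht⟩
  · exact ⟨h2, e _ _ h1, ht⟩
  · exact ⟨e _ _ h2, e _ _ h1, ht⟩

/-- The pattern `{v1, f0 | v2 | v3, w}`. -/
def W3 (k : ℕ) (x y : ℕ → V) (c : ℕ → V) (v1 v2 v3 w f0 : V) : Prop :=
  ∃ a b : ℕ, ((a ≤ 1 ∧ 3 ≤ b ∧ b ≤ 4) ∨ (3 ≤ a ∧ a ≤ 4 ∧ b ≤ 1)) ∧ c a = v1 ∧ c (mt3 a) = f0 ∧
    c 2 = v2 ∧ c b = v3 ∧ c (mt3 b) = w ∧ ¬ InC k x y f0

lemma W3_prt {c z : ℕ → V} {v1 v2 v3 w f0 : V} (hZ : Cat H R 3 z c) (h : W3 k x y c v1 v2 v3 w f0) :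
    ∀ v, (v = v1 ∨ v = v2 ∨ v = v3 ∨ v = w) → ∃ u ∈ cSupp 3 z, u ∈ prt H R v := by
  obtain ⟨a, b, hab, h1, h2, h3, h4, h5, h6⟩ := h
  have key : ∀ j ≤ 3 + 1, ∃ u ∈ cSupp 3 z, u ∈ prt H R (c j) := by
    intro j hj
    have pj := cl_mem hZ.pos hj
    refine ⟨z (cl 3 j), mem_cSupp pj.1 pj.2, ?_⟩
    rw [mem_prt]
    exact ⟨cat_adj_cl hZ hj, hZ.unc _ pj.1 pj.2⟩
  rintro v (rfl | rfl | rfl | rfl)
  · rw [← h1]; exact key a (by omega)
  · rw [← h3]; exact key 2 (by omega)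
  · rw [← h4]; exact key b (by omega)
  · rw [← h5]; exact key _ (by unfold mt3; split_ifs <;> omega)

lemma nr_of_not : ∀ a t : Q, nr a t = true → nr (neg a) t = false := by decide

lemma ball_inter6 (a : Q) {L : Finset Q} (h : 6 ≤ L.card) : 2 ≤ (L ∩ ball a).card := by
  have h1 := card_inter_ge L (ball a)
  have h2 := ball_card a
  omega

theorem open_pair5 (hR : Opt G R) (hG : ClassC G R) (hle : H ≤ G) (hc : Crit H R)
    (h : Chn H R k x y) (hk : k = 5) (hends : (∀ w, ¬ Lk H R (x 1) w) ∧ ∀ w, ¬ Lk H R (y k) w)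
    {z1 c1 : ℕ → V} (hZ1 : Cat H R 3 z1 c1) {z2 c2 : ℕ → V} (hZ2 : Cat H R 3 z2 c2)
    (hne : cSupp 3 z1 ≠ cSupp 3 z2) {f1 f2 : V}
    (w1 : W3 k x y c1 (x 1) (x 2) (x 3) (y 5) f1) (w2 : W3 k x y c2 (y 5) (y 4) (y 3) (x 1) f2)
    (hm : Me H R f1 f2)
    (hC : ∀ f, OffC H R k x y f → ∀ v₀ z₀, v₀ = x k → ∀ m z c, Cat H R m z c →
      (∃ j ≤ m + 1, InC k x y (c j)) → cSupp m z ≠ cSupp 3 z1 → cSupp m z ≠ cSupp 3 z2 →
        ∃ φ, OKill H R k x y f (cSupp m z) v₀ z₀ φ) : False := by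
  have hH := hG.mono hle
  subst hk
  obtain ⟨f, hf⟩ := exists_off h hc
  have P1 := W3_prt hZ1 w1
  have P2 := W3_prt hZ2 w2
  obtain ⟨a, b, hab, ha, hfa, h2a, hb, hbw, hout⟩ := w1
  obtain ⟨a', b', hab', ha', hfa', h2a', hb', hbw', hout'⟩ := w2
  obtain ⟨Φ, hΦ⟩ := exists_oforb hH h (f := f) (cSupp 3 z1 ∪ cSupp 3 z2) (x 5) (x 5)
  have hd : Dep 5 x y Φ := fun i h1 h2 z g g' hs => hΦ.dep i h1 h2 z g g' (hs.mono (by omega))
  have t1 : ∀ v w g, w ∈ cSupp 3 z1 → Φ v w g = ∅ := fun v w g hw => hΦ.triv v w g (Or.inl hw)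
  have t2 : ∀ v w g, w ∈ cSupp 3 z2 → Φ v w g = ∅ := fun v w g hw => hΦ.triv v w g (Or.inr hw)
  have hΦ2 : ∀ g v z, (Φ v z g).card ≤ 2 := by
    intro g v z
    have := hΦ.two v z g g
    rwa [Finset.union_self] at this
  have hlk : ∀ i, 1 ≤ i → i < 5 → Lk H R (y i) (x (i + 1)) := fun i i1 i2 => h.lk i i1 i2
  -- costs
  have both0 : ∀ g v, Cov H R v → (∃ u ∈ cSupp 3 z1, u ∈ prt H R v) → (∃ u ∈ cSupp 3 z2, u ∈ prt H R v) →
      cst H R (fun v z => Φ v z g) v = 0 := by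
    rintro g v hv ⟨u, u1, u2⟩ ⟨w, w1, w2⟩
    have huw : u ≠ w := by
      rintro rfl
      exact hne (cSupp_eq hZ1 hZ2 u1 w1)
    have hsub : ({u, w} : Finset V) = prt H R v := by
      apply Finset.eq_of_subset_of_card_le
      · intro t ht
        simp only [mem_insert, mem_singleton] at ht
        rcases ht with rfl | rfl
        · exact u2
        · exact w2
      · rw [Finset.card_pair huw]; exact prt_card hH hv
    unfold cst
    rw [← hsub, Finset.sum_pair huw]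
    show (Φ v u g).card + (Φ v w g).card = 0
    rw [t1 _ _ _ u1, t2 _ _ _ w1]
    simp
  have one0 : ∀ g v u, Lk H R v u → ((∃ w ∈ cSupp 3 z1, w ∈ prt H R v) ∨
      ∃ w ∈ cSupp 3 z2, w ∈ prt H R v) → cst H R (fun v z => Φ v z g) v = 0 := by
    rintro g v u hv (⟨w, w1, w2⟩ | ⟨w, w1, w2⟩)
    · have := cst_le_zero (hΦ2 g) (n := 0) (prt_card_lk hH hv) w2 (t1 _ _ _ w1)
      omega
    · have := cst_le_zero (hΦ2 g) (n := 0) (prt_card_lk hH hv) w2 (t2 _ _ _ w1)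
      omega
  have cx1 : ∀ g, cst H R (fun v z => Φ v z g) (x 1) = 0 := fun g =>
    both0 g _ (h.cov (InC.x le_rfl h.pos)) (P1 _ (Or.inl rfl)) (P2 _ (Or.inr (Or.inr (Or.inr rfl))))
  have cy5 : ∀ g, cst H R (fun v z => Φ v z g) (y 5) = 0 := fun g =>
    both0 g _ (h.cov (InC.y h.pos le_rfl)) (P1 _ (Or.inr (Or.inr (Or.inr rfl)))) (P2 _ (Or.inl rfl))
  have L1 : ∀ g, 6 ≤ (olst H R x y Φ g 1).card := by
    intro g
    have l := lst_card (G := H) (R := R) (x := x) (y := y) (fun v z => Φ v z g) 1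
    have e1 := cx1 g
    have e2 := cst_le (hΦ2 g) (prt_card_lk hH (hlk 1 le_rfl (by omega)))
    show 6 ≤ (lst H R x y (fun v z => Φ v z g) 1).card
    omega
  have L2 : ∀ g, 6 ≤ (olst H R x y Φ g 2).card := by
    intro g
    have l := lst_card (G := H) (R := R) (x := x) (y := y) (fun v z => Φ v z g) 2
    have e1 := one0 g (x 2) _ (hlk 1 le_rfl (by omega)).symm (Or.inl (P1 _ (Or.inr (Or.inl rfl))))
    have e2 := cst_le (hΦ2 g) (prt_card_lk hH (hlk 2 (by omega) (by omega)))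
    show 6 ≤ (lst H R x y (fun v z => Φ v z g) 2).card
    omega
  have L3 : ∀ g, olst H R x y Φ g 3 = univ := by
    intro g
    have l := lst_card (G := H) (R := R) (x := x) (y := y) (fun v z => Φ v z g) 3
    have e1 := one0 g (x 3) _ (hlk 2 (by omega) (by omega)).symm
      (Or.inl (P1 _ (Or.inr (Or.inr (Or.inl rfl)))))
    have e2 := one0 g (y 3) _ (hlk 3 (by omega) (by omega))
      (Or.inr (P2 _ (Or.inr (Or.inr (Or.inl rfl)))))
    apply Finset.eq_univ_of_card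
    have h8 : Fintype.card Q = 8 := by decide
    have := Finset.card_le_univ (olst H R x y Φ g 3)
    have e3 : olst H R x y Φ g 3 = lst H R x y (fun v z => Φ v z g) 3 := rfl
    rw [e3] at this ⊢
    omega
  have L4 : ∀ g, 6 ≤ (olst H R x y Φ g 4).card := by
    intro g
    have l := lst_card (G := H) (R := R) (x := x) (y := y) (fun v z => Φ v z g) 4
    have e1 := one0 g (y 4) _ (hlk 4 (by omega) (by omega)) (Or.inr (P2 _ (Or.inr (Or.inl rfl))))
    have e2 : cst H R (fun v z => Φ v z g) (x 4) ≤ 2 :=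
      cst_le (hΦ2 g) (prt_card_lk hH (hlk 3 (by omega) (by omega)).symm)
    show 6 ≤ (lst H R x y (fun v z => Φ v z g) 4).card
    omega
  have L5 : ∀ g, 6 ≤ (olst H R x y Φ g 5).card := by
    intro g
    have l := lst_card (G := H) (R := R) (x := x) (y := y) (fun v z => Φ v z g) 5
    have e1 := cy5 g
    have e2 : cst H R (fun v z => Φ v z g) (x 5) ≤ 2 :=
      cst_le (hΦ2 g) (prt_card_lk hH (hlk 4 (by omega) (by omega)).symm)
    show 6 ≤ (lst H R x y (fun v z => Φ v z g) 5).card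
    omega
  set α := f f1 with hα
  have hα2 : f f2 = neg α := by
    have h1 := (hf f1 f2 hm.1 hout hout').1 hm.2
    rw [hα, h1]
  -- the labels
  have g0 : ℕ → Q := fun _ => α
  obtain ⟨τ2, hτ2⟩ := Finset.card_pos.1 (show 0 < (olst H R x y Φ g0 2 ∩ ball α).card by
    have := ball_inter6 α (L2 g0)
    omega)
  obtain ⟨τ1, hτ1⟩ := Finset.card_pos.1 (show 0 < ((olst H R x y Φ g0 1 ∩ ball τ2).erase α).card by
    have h1 := ball_inter6 τ2 (L1 g0)
    have h2 := Finset.pred_card_le_card_erase (s := olst H R x y Φ g0 1 ∩ ball τ2) (a := α)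
    omega)
  rw [mem_erase, mem_inter, mem_ball] at hτ1
  rw [mem_inter, mem_ball] at hτ2
  have p1 : PW H R x y Φ 1 (fun i => if i ≤ 0 then g0 i else τ1) :=
    PW.snoc (n := 0) hd ⟨fun i h1 h2 => by omega, fun i h1 h2 => by omega⟩ (by omega) hτ1.2.1
      (fun h' => by omega)
  have p2 := p1.snoc hd (n := 1) (a := τ2) (by omega) (by
    have : olst H R x y Φ (fun i => if i ≤ 0 then g0 i else τ1) (1 + 1) = olst H R x y Φ g0 2 :=
      lst_congr' (fun z => hΦ.dep 2 (by omega) (by omega) z _ _ (fun j j1 j2 => by omega))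
    rw [this]; exact hτ2.1) (fun _ => by simpa using nr_symm hτ1.2.2)
  have p3 := p2.snoc hd (n := 1 + 1) (a := α) (by omega) (by
    rw [show 1 + 1 + 1 = 3 by rfl, L3]; exact mem_univ _) (fun _ => by simpa using nr_symm hτ2.2)
  set g3 : ℕ → Q := fun i => if i ≤ 1 + 1 then (fun i => if i ≤ 1 then
    (fun i => if i ≤ 0 then g0 i else τ1) i else τ2) i else α with hg3
  obtain ⟨τ4, hτ4⟩ := Finset.card_pos.1 (show 0 < (olst H R x y Φ g3 4 ∩ ball α).card by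
    have := ball_inter6 α (L4 g3)
    omega)
  rw [mem_inter, mem_ball] at hτ4
  have e3 : g3 3 = α := by simp [hg3]
  have p4 := p3.snoc hd (n := 1 + 1 + 1) (a := τ4) (by omega) hτ4.1 (fun _ => by
    show nr (g3 3) τ4 = true
    rw [e3]; exact hτ4.2)
  set g4 : ℕ → Q := fun i => if i ≤ 1 + 1 + 1 then g3 i else τ4 with hg4
  obtain ⟨τ5, hτ5⟩ := Finset.card_pos.1 (show 0 < ((olst H R x y Φ g4 5 ∩ ball τ4).erase α).card by
    have h1 := ball_inter6 τ4 (L5 g4)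
    have h2 := Finset.pred_card_le_card_erase (s := olst H R x y Φ g4 5 ∩ ball τ4) (a := α)
    omega)
  rw [mem_erase, mem_inter, mem_ball] at hτ5
  have e4 : g4 4 = τ4 := by simp [hg4]
  have p5 := p4.snoc hd (n := 1 + 1 + 1 + 1) (a := τ5) (by omega) hτ5.2.1 (fun _ => by
    show nr (g4 4) τ5 = true
    rw [e4]; exact hτ5.2.2)
  set mu : ℕ → Q := fun i => if i ≤ 1 + 1 + 1 + 1 then g4 i else τ5 with hmu
  have m1 : mu 1 = τ1 := by simp [hmu, hg4, hg3]
  have m2 : mu 2 = τ2 := by simp [hmu, hg4, hg3]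
  have m3 : mu 3 = α := by simp [hmu, hg4, hg3]
  have m4 : mu 4 = τ4 := by simp [hmu, hg4]
  have m5 : mu 5 = τ5 := by simp [hmu]
  have hp : PW H R x y Φ 5 mu := p5
  have vx : ∀ i, 1 ≤ i → i ≤ 5 → lbl 5 x y mu f (x i) = sg i (mu i) := fun i i1 i2 => lbl_x h i1 i2
  have vy : ∀ i, 1 ≤ i → i ≤ 5 → lbl 5 x y mu f (y i) = neg (sg i (mu i)) :=
    fun i i1 i2 => lbl_y h i1 i2
  have v1 : lbl 5 x y mu f (x 1) = neg τ1 := by rw [vx 1 (by omega) (by omega), m1, sg_odd (by omega)]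
  have v2 : lbl 5 x y mu f (x 2) = τ2 := by rw [vx 2 (by omega) (by omega), m2, sg_even (by omega)]
  have v3 : lbl 5 x y mu f (x 3) = neg α := by rw [vx 3 (by omega) (by omega), m3, sg_odd (by omega)]
  have v3' : lbl 5 x y mu f (y 3) = α := by
    rw [vy 3 (by omega) (by omega), m3, sg_odd (by omega), H3DA.neg_neg]
  have v4' : lbl 5 x y mu f (y 4) = neg τ4 := by
    rw [vy 4 (by omega) (by omega), m4, sg_even (by omega)]
  have v5' : lbl 5 x y mu f (y 5) = τ5 := by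
    rw [vy 5 (by omega) (by omega), m5, sg_odd (by omega), H3DA.neg_neg]
  have vf1 : lbl 5 x y mu f f1 = α := by rw [lbl_out hout]
  have vf2 : lbl 5 x y mu f f2 = neg α := by rw [lbl_out hout', hα2]
  have negi : ∀ p q : Q, neg p = neg q → p = q := by decide
  refine chain_contra hH hc h (Or.inr hends) hf (mu := mu) ?_
  refine fit_of_walk h hΦ hp (hends.2 _) ?_ ?_
  · rintro v p q hT hin (⟨j, j1, j2, rfl⟩ | ⟨j, j1, j2, rfl⟩)
    · exact absurd hT (fun hT => isTwo_not_cat hZ1 j1 j2 hT)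
    · exact absurd hT (fun hT => isTwo_not_cat hZ2 j1 j2 hT)
  · intro m z c hC' hex
    by_cases hS1 : cSupp m z = cSupp 3 z1
    · right
      rw [cext_iff_fits hC', hS1, ← cext_iff_fits hZ1]
      refine cext3_of hab ?_ ?_ ?_
      · show lbl 5 x y mu f (c1 a) ≠ neg (lbl 5 x y mu f (c1 (mt3 a)))
        rw [ha, hfa, v1, vf1]
        exact fun h' => hτ1.1 (negi _ _ h')
      · show lbl 5 x y mu f (c1 b) ≠ neg (lbl 5 x y mu f (c1 (mt3 b)))
        rw [hb, hbw, v3, v5']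
        exact fun h' => hτ5.1 (negi _ _ h').symm
      · show nr (neg (lbl 5 x y mu f (c1 (mt3 a)))) (lbl 5 x y mu f (c1 2)) = false
        rw [hfa, h2a, vf1, v2]
        exact nr_of_not _ _ hτ2.2
    · by_cases hS2 : cSupp m z = cSupp 3 z2
      · right
        rw [cext_iff_fits hC', hS2, ← cext_iff_fits hZ2]
        refine cext3_of hab' ?_ ?_ ?_
        · show lbl 5 x y mu f (c2 a') ≠ neg (lbl 5 x y mu f (c2 (mt3 a')))
          rw [ha', hfa', v5', vf2, H3DA.neg_neg]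
          exact hτ5.1
        · show lbl 5 x y mu f (c2 b') ≠ neg (lbl 5 x y mu f (c2 (mt3 b')))
          rw [hb', hbw', v3', v1, H3DA.neg_neg]
          exact fun h' => hτ1.1 h'.symm
        · show nr (neg (lbl 5 x y mu f (c2 (mt3 a')))) (lbl 5 x y mu f (c2 2)) = false
          rw [hfa', h2a', vf2, v4', nr_nn]
          exact nr_of_not _ _ hτ4.2
      · left
        refine ⟨hC f hf (x 5) (x 5) rfl m z c hC' hex hS1 hS2, fun i i1 i2 hi => ?_⟩
        rcases hi with hi | hi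
        · exact hS1 (cSupp_eq hC' hZ1 (mem_cSupp i1 i2) hi)
        · exact hS2 (cSupp_eq hC' hZ2 (mem_cSupp i1 i2) hi)

end CLB.H95
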