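import Pool.Agent.Helper95_CLB.OpenAsm
import Pool.Agent.Helper3_DA.RSet

/-!
Components with one vertex: the three neighbours have no links.
-/

set_option autoImplicit false
set_option linter.unusedSectionVars false

namespace CLB.H95

open Finset Classical
open H3DA (Q neg nr)
open CLB.H3 (CExt Cat IsTwo Fits UPath he_of_unc cat_structure chn_side rlaw_sets llS mmS uuS eU)

variable {V : Type*} {G H : SimpleGraph V} {R : V → Bool} [Fintype V] {k : ℕ} {x y : ℕ → V}

lemma star_unlinked (hG : ClassC G R) {z c : ℕ → V} (h : Cat G R 1 z c) {j : ℕ} (hj : j ≤ 2) {w : V}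
    (hw : Lk G R (c j) w) : False := by
  have adj : ∀ i ≤ 2, G.Adj (z 1) (c i) := by
    intro i hi
    have : i = 0 ∨ i = 1 ∨ i = 2 := by omega
    rcases this with rfl | rfl | rfl
    · exact h.adj0
    · exact h.adjc 1 le_rfl le_rfl
    · exact h.adjm
  have hu := h.unc 1 le_rfl le_rfl
  have side : ∀ i ≤ 2, R (z 1) ≠ R (c i) := fun i hi => (he_of_unc hu (adj i hi)).2
  have same : ∀ i ≤ 2, R (c i) = R (c j) := by
    intro i hi
    have h1 := side i hi
    have h2 := side j hj
    revert h1 h2
    cases R (z 1) <;> cases R (c i) <;> cases R (c j) <;> simp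
  have hwR : R w ≠ R (c j) := fun he => hw.1.2 he.symm
  have hwz : w ≠ z 1 := by
    rintro rfl
    exact hu hw.2.2
  have wne : ∀ i ≤ 2, w ≠ c i := by
    rintro i hi rfl
    exact hwR (same i hi)
  set S : Finset V := {c 0, c 1, c 2, w} with hS
  have hmem : ∀ v, v ∈ S ↔ (∃ i ≤ 2, v = c i) ∨ v = w := by
    intro v
    simp only [hS, mem_insert, mem_singleton]
    constructor
    · rintro (rfl | rfl | rfl | rfl)
      · exact Or.inl ⟨0, by omega, rfl⟩
      · exact Or.inl ⟨1, by omega, rfl⟩
      · exact Or.inl ⟨2, by omega, rfl⟩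
      · exact Or.inr rfl
    · rintro (⟨i, hi, rfl⟩ | rfl)
      · have : i = 0 ∨ i = 1 ∨ i = 2 := by omega
        rcases this with rfl | rfl | rfl <;> simp
      · simp
  have key := rlaw_sets hG {z 1} S (by
      intro u hu'
      rw [mem_singleton] at hu'
      rw [hu']; exact hu) (by
      intro v hv
      rcases (hmem v).1 hv with ⟨i, hi, rfl⟩ | rfl
      · exact h.cov i hi
      · exact hw.2.2)
  have hcard : S.card ≤ 4 := Finset.card_le_four
  have hmm : mmS G R S = 0 := by
    unfold mmS
    refine Finset.sum_eq_zero fun v hv => ?_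
    rw [Finset.card_eq_zero, Finset.filter_eq_empty_iff]
    intro u hu' hm
    rcases (hmem v).1 hv with ⟨i, hi, rfl⟩ | rfl <;> rcases (hmem u).1 hu' with ⟨l, hl, rfl⟩ | rfl
    · exact hG.tri (z 1) (c i) (c l) (adj i hi) hm.1 (adj l hl)
    · exact hwR (hm.2.symm.trans (same i hi))
    · exact hwR (hm.2.trans (same l hl))
    · exact hm.1.ne rfl
  have hcj : c j ∈ S := (hmem _).2 (Or.inl ⟨j, hj, rfl⟩)
  have hwS : w ∈ S := (hmem _).2 (Or.inr rfl)
  have hll : 2 ≤ llS G R S := by
    unfold llS
    have h1 : 1 ≤ (S.filter (fun v => He G R (c j) v)).card :=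
      Finset.card_pos.2 ⟨w, by rw [mem_filter]; exact ⟨hwS, hw.1⟩⟩
    have h2 : 1 ≤ (S.filter (fun v => He G R w v)).card :=
      Finset.card_pos.2 ⟨c j, by rw [mem_filter]; exact ⟨hcj, hw.symm.1⟩⟩
    have h3 : ∑ v ∈ ({c j, w} : Finset V), (S.filter (fun u => He G R v u)).card ≤
        ∑ v ∈ S, (S.filter (fun u => He G R v u)).card := by
      refine Finset.sum_le_sum_of_subset ?_
      intro v hv
      simp only [mem_insert, mem_singleton] at hv
      rcases hv with rfl | rfl
      · exact hcj
      · exact hwS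
    rw [Finset.sum_pair (wne j hj).symm] at h3
    omega
  have hee : 3 ≤ ∑ v ∈ S, eU G {z 1} v := by
    have h1 : ∀ i ≤ 2, eU G {z 1} (c i) = 1 := by
      intro i hi
      unfold eU
      rw [Finset.card_eq_one]
      refine ⟨z 1, ?_⟩
      ext v
      simp only [mem_filter, mem_singleton]
      exact ⟨fun h' => h'.1, fun h' => ⟨h', by rw [h']; exact (adj i hi).symm⟩⟩
    have h3 : ∑ v ∈ ({c 0, c 1, c 2} : Finset V), eU G {z 1} v ≤ ∑ v ∈ S, eU G {z 1} v := by
      refine Finset.sum_le_sum_of_subset ?_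
      intro v hv
      simp only [mem_insert, mem_singleton] at hv
      rw [hmem]
      rcases hv with rfl | rfl | rfl
      · exact Or.inl ⟨0, by omega, rfl⟩
      · exact Or.inl ⟨1, by omega, rfl⟩
      · exact Or.inl ⟨2, by omega, rfl⟩
    have h4 : ∑ v ∈ ({c 0, c 1, c 2} : Finset V), eU G {z 1} v = 3 := by
      rw [Finset.sum_insert (by
        simp only [mem_insert, mem_singleton, not_or]
        exact ⟨h.ne0, h.ne1 rfl⟩), Finset.sum_pair h.nem, h1 0 (by omega), h1 1 (by omega),
        h1 2 (by omega)]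
      norm_num
    omega
  rw [hmm, Finset.card_singleton] at key
  omega

/-- **Components with one vertex.** -/
theorem oneH (hG : ClassC H R) (h : Chn H R k x y) (hk : 3 ≤ k) : OneH H R k x y := by
  intro z c hK
  have cne : ∀ i j, i ≤ 2 → j ≤ 2 → c i = c j → i = j := by
    intro i j hi hj he
    have h1 := hK.ne0
    have h2 := hK.nem
    have h3 := hK.ne1 rfl
    have hi' : i = 0 ∨ i = 1 ∨ i = 2 := by omega
    have hj' : j = 0 ∨ j = 1 ∨ j = 2 := by omega
    rcases hi' with rfl | rfl | rfl <;> rcases hj' with rfl | rfl | rfl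
    · rfl
    · exact absurd he h1
    · exact absurd he h3
    · exact absurd he.symm h1
    · rfl
    · exact absurd he h2
    · exact absurd he.symm h3
    · exact absurd he.symm h2
    · rfl
  have ends : ∀ j ≤ 2, InC k x y (c j) → c j = x 1 ∨ c j = y k := by
    rintro j hj ⟨i, i1, i2, i3 | i3⟩
    · by_cases hi : i = 1
      · left; rw [i3, hi]
      · exfalso
        have hl := h.lk (i - 1) (by omega) (by omega)
        rw [show i - 1 + 1 = i by omega, ← i3] at hl
        exact star_unlinked hG hK hj hl.symm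
    · by_cases hi : i = k
      · right; rw [i3, hi]
      · exfalso
        have hl := h.lk i (by omega) (by omega)
        rw [← i3] at hl
        exact star_unlinked hG hK hj hl
  by_cases hcon : ∀ i j, i ≤ 2 → j ≤ 2 → InC k x y (c i) → InC k x y (c j) → i = j
  · exact Or.inr hcon
  · left
    push Not at hcon
    obtain ⟨i, j, hi, hj, hin, hin', hne⟩ := hcon
    have hex : (∃ i ≤ 2, c i = x 1) ∧ ∃ i ≤ 2, c i = y k := by
      rcases ends i hi hin with h1 | h1 <;> rcases ends j hj hin' with h2 | h2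
      · exact absurd (cne i j hi hj (h1.trans h2.symm)) hne
      · exact ⟨⟨i, hi, h1⟩, ⟨j, hj, h2⟩⟩
      · exact ⟨⟨j, hj, h2⟩, ⟨i, hi, h1⟩⟩
      · exact absurd (cne i j hi hj (h1.trans h2.symm)) hne
    refine ⟨le_rfl, le_rfl, by omega, ?_, ?_, ?_, ?_⟩
    · intro i i1 i2
      obtain rfl : i = 1 := by omega
      exact hex.1
    · intro i i1 i2
      obtain rfl : i = k := by omega
      exact hex.2
    · intro j hj hin
      rcases ends j hj hin with h1 | h1
      · exact Or.inl ⟨1, le_rfl, le_rfl, h1⟩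
      · exact Or.inr ⟨k, le_rfl, by omega, h1⟩
    · intro i j hi hj _ he
      exact cne i j hi hj he

end CLB.H95
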