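import Pool.Agent.Helper95_CLB.StatQ

/-!
The path of two vertices with one port in the first unit and one in the second unit of a chain: from three
(four) labels of the first unit all but four (three) labels of the second unit are reached.
-/

set_option autoImplicit false

namespace CLB.H95

open Finset
open H3DA (Q neg nr)
open CLB.H3 (CExt)

/-- All labels. -/
def allQ : List Q := [(false, false, false), (true, false, false), (false, true, false),
  (true, true, false), (false, false, true), (true, false, true), (false, true, true),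
  (true, true, true)]

lemma mem_allQ : ∀ x : Q, x ∈ allQ := by decide

/-- All types. -/
def allT : List Ty := [(0, true), (0, false), (1, true), (1, false), (2, true), (2, false)]

lemma mem_allT : ∀ D : Ty, D ∈ allT := by decide

/-- The extension criterion for a path of two vertices. -/
def ext2 (a b c d : Q) : Bool := !(a == neg b) && !(c == neg d) &&
  allT.all (fun D => !(frk D a b && stp D (neg b) c && frk D c d))

lemma ext2_iff {s : ℕ → Q} : ext2 (s 0) (s 1) (s 2) (s 3) = true → CExt 2 s := by
  intro h
  unfold ext2 at h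
  simp only [Bool.and_eq_true, Bool.not_eq_true', beq_eq_false_iff_ne, List.all_eq_true] at h
  obtain ⟨⟨h1, h2⟩, h3⟩ := h
  rw [cext_iff (by omega)]
  refine ⟨h1, h2, fun D hD => ?_⟩
  have h4 := h3 D (mem_allT D)
  have g1 := hD.1
  have g2 := hD.2.1 1 le_rfl (by omega)
  have g3 := hD.2.2
  rw [altT_one] at g2
  have e : altT D (2 + 1) = D := by
    rw [altT_succ, show (2 : ℕ) = 1 + 1 by rfl, altT_succ, altT_one, co_co]
  rw [e] at g3
  have g2' : stp D (neg (s 1)) (s 2) = true := g2
  have g3' : frk D (s 2) (s 3) = true := g3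
  rw [g1, g2', g3'] at h4
  simp at h4

/-- A label of the first unit allows a label of the second one. -/
def ok2 (g g2 a t : Q) : Bool := nr a t && ext2 (neg a) g g2 t

/-- Translation. -/
lemma nr_add : ∀ q a b : Q, nr (add q a) (add q b) = nr a b := by decide

lemma add_neg_right : ∀ q a : Q, add q (neg a) = neg (add q a) := by decide

lemma add_inj : ∀ q a b : Q, add q a = add q b → a = b := by decide

lemma add_frk : ∀ (D : Ty) (q x y : Q), frk D (add q x) (add q y) = frk D x y := by decide

lemma ext2_add (q a b c d : Q) : ext2 (add q a) (add q b) (add q c) (add q d) = ext2 a b c d := by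
  have e1 : ∀ a b : Q, ((add q a == neg (add q b)) : Bool) = (a == neg b) := by
    intro a b
    rw [← add_neg_right]
    by_cases h : a = neg b
    · rw [h]; simp
    · have h' : add q a ≠ add q (neg b) := fun h' => h (add_inj _ _ _ h')
      simp [h, h']
  unfold ext2
  rw [e1, e1]
  simp only [← add_neg_right, add_frk, add_stp]

lemma ok2_add (q g g2 a t : Q) : ok2 (add q g) (add q g2) (add q a) (add q t) = ok2 g g2 a t := by
  unfold ok2
  rw [nr_add, ← add_neg_right, ext2_add]

/-- The lost labels. -/
def lost (g g2 : Q) (l : List Q) : List Q := allQ.filter (fun t => l.all (fun a => !ok2 g g2 a t))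

/-- The checks. -/
def chk3 (g2 : Q) : Bool := allQ.all (fun a => allQ.all (fun b => allQ.all (fun c =>
  a == b || a == c || b == c || a == (false, false, false) || b == (false, false, false) ||
  c == (false, false, false) || Nat.ble (lost (false, false, false) g2 [a, b, c]).length 4)))

def chk4 (g2 : Q) : Bool := allQ.all (fun a => allQ.all (fun b => allQ.all (fun c => allQ.all (fun d =>
  a == b || a == c || b == c || a == d || b == d || c == d ||
  a == (false, false, false) || b == (false, false, false) ||
  c == (false, false, false) || d == (false, false, false) ||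
  Nat.ble (lost (false, false, false) g2 [a, b, c, d]).length 3))))

def chk2 (g2 : Q) : Bool := allQ.all (fun a => allQ.all (fun b =>
  a == b || a == (false, false, false) || b == (false, false, false) ||
  Nat.ble (lost (false, false, false) g2 [a, b]).length 4))

lemma chk2_all : ∀ g2, chk2 g2 = true := by decide +kernel

lemma chk3_all : ∀ g2, chk3 g2 = true := by decide +kernel

lemma chk4_all : ∀ g2, chk4 g2 = true := by decide +kernel

lemma ok2_shift (g g2 a t : Q) :
    ok2 (false, false, false) (add g g2) (add g a) (add g t) = ok2 g g2 a t := by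
  have := ok2_add g g g2 a t
  rw [add_self_zero] at this
  exact this

lemma lost_card {g g2 : Q} {A : Finset Q} {l : List Q} {n : ℕ} (hl : ∀ a ∈ l, a ∈ A)
    (hn : (lost (false, false, false) (add g g2) (l.map (add g))).length ≤ n) :
    (univ.filter (fun t => ∀ a ∈ A, ok2 g g2 a t = false)).card ≤ n := by
  refine le_trans ?_ hn
  refine le_trans ?_ (List.toFinset_card_le _)
  rw [← Finset.card_image_of_injective _ (fun a b h => add_inj g a b h : Function.Injective (add g))]
  apply Finset.card_le_card
  intro t ht
  rw [mem_image] at ht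
  obtain ⟨t', ht', rfl⟩ := ht
  simp only [mem_filter, mem_univ, true_and] at ht'
  rw [List.mem_toFinset]
  unfold lost
  rw [List.mem_filter]
  refine ⟨mem_allQ _, ?_⟩
  rw [List.all_eq_true]
  intro a ha
  rw [List.mem_map] at ha
  obtain ⟨a', ha', rfl⟩ := ha
  rw [ok2_shift, ht' a' (hl a' ha')]
  rfl

lemma add_ne_zero {g a : Q} (h : a ≠ g) : ¬ (add g a = (false, false, false)) := by
  intro h'
  apply h
  rw [← add_self_zero g] at h'
  exact add_inj _ _ _ h'

theorem alpha_lost2 (g g2 : Q) {A : Finset Q} (hA : 2 ≤ A.card) (hg : g ∉ A) :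
    (univ.filter (fun t => ∀ a ∈ A, ok2 g g2 a t = false)).card ≤ 4 := by
  obtain ⟨a, ha, b, hb, hab⟩ := Finset.one_lt_card.1 (show 1 < A.card by omega)
  refine lost_card (l := [a, b]) (by simp [ha, hb]) ?_
  have h := chk2_all (add g g2)
  unfold chk2 at h
  rw [List.all_eq_true] at h
  have h := h (add g a) (mem_allQ _)
  rw [List.all_eq_true] at h
  have h := h (add g b) (mem_allQ _)
  have n1 : add g a ≠ add g b := fun h' => hab (add_inj _ _ _ h')
  have m1 := add_ne_zero (show a ≠ g from fun h' => hg (h' ▸ ha))
  have m2 := add_ne_zero (show b ≠ g from fun h' => hg (h' ▸ hb))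
  simp only [Bool.or_eq_true, beq_iff_eq, n1, m1, m2, false_or] at h
  exact Nat.le_of_ble_eq_true h

theorem alpha_lost3 (g g2 : Q) {A : Finset Q} (hA : 3 ≤ A.card) (hg : g ∉ A) :
    (univ.filter (fun t => ∀ a ∈ A, ok2 g g2 a t = false)).card ≤ 4 := by
  obtain ⟨a, ha, b, hb, c, hc, hab, hac, hbc⟩ := Finset.two_lt_card.1 (show 2 < A.card by omega)
  refine lost_card (l := [a, b, c]) (by simp [ha, hb, hc]) ?_
  have h := chk3_all (add g g2)
  unfold chk3 at h
  rw [List.all_eq_true] at h
  have h := h (add g a) (mem_allQ _)
  rw [List.all_eq_true] at h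
  have h := h (add g b) (mem_allQ _)
  rw [List.all_eq_true] at h
  have h := h (add g c) (mem_allQ _)
  have n1 : add g a ≠ add g b := fun h' => hab (add_inj _ _ _ h')
  have n2 : add g a ≠ add g c := fun h' => hac (add_inj _ _ _ h')
  have n3 : add g b ≠ add g c := fun h' => hbc (add_inj _ _ _ h')
  have m1 := add_ne_zero (show a ≠ g from fun h' => hg (h' ▸ ha))
  have m2 := add_ne_zero (show b ≠ g from fun h' => hg (h' ▸ hb))
  have m3 := add_ne_zero (show c ≠ g from fun h' => hg (h' ▸ hc))
  simp only [Bool.or_eq_true, beq_iff_eq, n1, n2, n3, m1, m2, m3, false_or] at h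
  exact Nat.le_of_ble_eq_true h

theorem alpha_lost4 (g g2 : Q) {A : Finset Q} (hA : 4 ≤ A.card) (hg : g ∉ A) :
    (univ.filter (fun t => ∀ a ∈ A, ok2 g g2 a t = false)).card ≤ 3 := by
  obtain ⟨a, ha, b, hb, c, hc, d, hd, hab, hac, had, hbc, hbd, hcd⟩ :=
    Finset.three_lt_card.1 (show 3 < A.card by omega)
  refine lost_card (l := [a, b, c, d]) (by simp [ha, hb, hc, hd]) ?_
  have h := chk4_all (add g g2)
  unfold chk4 at h
  rw [List.all_eq_true] at h
  have h := h (add g a) (mem_allQ _)
  rw [List.all_eq_true] at h
  have h := h (add g b) (mem_allQ _)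
  rw [List.all_eq_true] at h
  have h := h (add g c) (mem_allQ _)
  rw [List.all_eq_true] at h
  have h := h (add g d) (mem_allQ _)
  have n1 : add g a ≠ add g b := fun h' => hab (add_inj _ _ _ h')
  have n2 : add g a ≠ add g c := fun h' => hac (add_inj _ _ _ h')
  have n3 : add g b ≠ add g c := fun h' => hbc (add_inj _ _ _ h')
  have n4 : add g a ≠ add g d := fun h' => had (add_inj _ _ _ h')
  have n5 : add g b ≠ add g d := fun h' => hbd (add_inj _ _ _ h')
  have n6 : add g c ≠ add g d := fun h' => hcd (add_inj _ _ _ h')
  have m1 := add_ne_zero (show a ≠ g from fun h' => hg (h' ▸ ha))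
  have m2 := add_ne_zero (show b ≠ g from fun h' => hg (h' ▸ hb))
  have m3 := add_ne_zero (show c ≠ g from fun h' => hg (h' ▸ hc))
  have m4 := add_ne_zero (show d ≠ g from fun h' => hg (h' ▸ hd))
  simp only [Bool.or_eq_true, beq_iff_eq, n1, n2, n3, n4, n5, n6, m1, m2, m3, m4, false_or] at h
  exact Nat.le_of_ble_eq_true h

end CLB.H95
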