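import Pool.Agent.Helper95_CLB.OnlEnd
import Pool.Agent.Helper95_CLB.AlphaLab

/-!
Open chains with a path of two vertices seeing the first two units at the start and a component killed in
the last two units at the end.
-/

set_option autoImplicit false
set_option linter.unusedSectionVars false

namespace CLB.H95

open Finset Classical
open H3DA (Q neg nr)
open CLB.H3 (CExt Cat IsTwo Fits UPath he_of_unc cat_structure chn_side)

variable {V : Type*} {G H : SimpleGraph V} {R : V → Bool} [Fintype V] {k : ℕ} {x y : ℕ → V}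

/-- A path of two vertices sees the chain only at `v` (in one fork) and at `w` (in the other fork). -/
def AL (k : ℕ) (x y : ℕ → V) (c : ℕ → V) (v w : V) : Prop :=
  ∃ a b : ℕ, ((a ≤ 1 ∧ 2 ≤ b ∧ b ≤ 3) ∨ (2 ≤ a ∧ a ≤ 3 ∧ b ≤ 1)) ∧ c a = v ∧ c b = w ∧
    ∀ j ≤ 3, j ≠ a → j ≠ b → ¬ InC k x y (c j)

/-- The partner in the fork. -/
def mt (a : ℕ) : ℕ := if a = 0 then 1 else if a = 1 then 0 else if a = 2 then 3 else 2

lemma cext2_iff {s : ℕ → Q} : CExt 2 s ↔ ∃ p q : Q, nr p (s 0) = true ∧ nr p (s 1) = true ∧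
    nr q (s 2) = true ∧ nr q (s 3) = true ∧ nr p q = true := by
  constructor
  · rintro ⟨w, h1, h2, h3, h4⟩
    exact ⟨w 1, w 2, h2, h1 1 le_rfl (by omega), h1 2 (by omega) le_rfl, h3, h4 1 le_rfl (by omega)⟩
  · rintro ⟨p, q, h1, h2, h3, h4, h5⟩
    refine ⟨fun i => if i = 1 then p else q, fun i i1 i2 => ?_, h1, h4, fun i i1 i2 => ?_⟩
    · have : i = 1 ∨ i = 2 := by omega
      rcases this with rfl | rfl
      · simpa using h2
      · simpa using h3
    · have : i = 1 := by omega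
      subst this
      simpa using h5

/-- The extension for the two seen ports. -/
lemma cext2_of_ok {s : ℕ → Q} {a b : ℕ} (h : (a ≤ 1 ∧ 2 ≤ b ∧ b ≤ 3) ∨ (2 ≤ a ∧ a ≤ 3 ∧ b ≤ 1))
    (hx : ext2 (s a) (s (mt a)) (s (mt b)) (s b) = true) : CExt 2 s := by
  have h1 : CExt 2 (fun j => if j = 0 then s a else if j = 1 then s (mt a) else
      if j = 2 then s (mt b) else s b) := ext2_iff (by simpa using hx)
  rw [cext2_iff] at h1 ⊢
  simp only [if_true, if_false, OfNat.ofNat_ne_zero, OfNat.ofNat_ne_one, one_ne_zero,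
    show ¬ (3 : ℕ) = 2 by omega] at h1
  obtain ⟨p, q, h1, h2, h3, h4, h5⟩ := h1
  have hab : (a = 0 ∨ a = 1) ∧ (b = 2 ∨ b = 3) ∨ (a = 2 ∨ a = 3) ∧ (b = 0 ∨ b = 1) := by omega
  rcases hab with ⟨rfl | rfl, rfl | rfl⟩ | ⟨rfl | rfl, rfl | rfl⟩
  · exact ⟨p, q, h1, h2, h4, h3, h5⟩
  · exact ⟨p, q, h1, h2, h3, h4, h5⟩
  · exact ⟨p, q, h2, h1, h4, h3, h5⟩
  · exact ⟨p, q, h2, h1, h3, h4, h5⟩
  · exact ⟨q, p, h4, h3, h1, h2, nr_symm h5⟩
  · exact ⟨q, p, h3, h4, h1, h2, nr_symm h5⟩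
  · exact ⟨q, p, h4, h3, h2, h1, nr_symm h5⟩
  · exact ⟨q, p, h3, h4, h2, h1, nr_symm h5⟩

/-- Two walks starting from two given ones, preserving a property of the first units. -/
theorem walks_from (hG : ClassC G R) (h : Chn G R k x y) {Φ : V → V → (ℕ → Q) → Finset Q}
    (h2 : ∀ v z g g', (Φ v z g ∪ Φ v z g').card ≤ 2) (hd : Dep k x y Φ) {n0 : ℕ} (h0 : 1 ≤ n0)
    {P : (ℕ → Q) → Prop} (hP : ∀ g w, Same (n0 + 1) g w → P g → P w) {g0 g0' : ℕ → Q}
    (hg0 : PW G R x y Φ n0 g0) (hg0' : PW G R x y Φ n0 g0') (hne0 : g0 n0 ≠ g0' n0) (hP0 : P g0)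
    (hP0' : P g0') {n : ℕ} (hn : n0 ≤ n) :
    n + 1 ≤ k → ∃ g g', PW G R x y Φ n g ∧ PW G R x y Φ n g' ∧ g n ≠ g' n ∧ P g ∧ P g' := by
  induction n, hn using Nat.le_induction with
  | base => intro _; exact ⟨g0, g0', hg0, hg0', hne0, hP0, hP0'⟩
  | succ n hn ih =>
    intro hk
    obtain ⟨g, g', hg, hg', hne, hPg, hPg'⟩ := ih (by omega)
    have e1 : 4 ≤ (lst G R x y (uni Φ g g') (n + 1)).card :=
      lst_inner hG h (fun v z => h2 v z g g') (by omega) (by omega)
    have e2 : 6 ≤ (nb {g n, g' n}).card := nb_card2 (by rw [Finset.card_pair hne])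
    have e3 := card_inter_ge (nb {g n, g' n}) (lst G R x y (uni Φ g g') (n + 1))
    obtain ⟨a, ha, b, hb, hab⟩ := Finset.one_lt_card.1
      (show 1 < (nb {g n, g' n} ∩ lst G R x y (uni Φ g g') (n + 1)).card by omega)
    have hsame : ∀ (g : ℕ → Q) (a : Q), Same (n0 + 1) g (fun i => if i ≤ n then g i else a) := by
      intro g a j j1 j2
      have : j ≤ n := by omega
      simp only [this, if_true]
    have key : ∀ a ∈ nb {g n, g' n} ∩ lst G R x y (uni Φ g g') (n + 1),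
        ∃ w, PW G R x y Φ (n + 1) w ∧ w (n + 1) = a ∧ P w := by
      intro a ha
      rw [mem_inter, mem_nb] at ha
      obtain ⟨⟨t, ht, hta⟩, hal⟩ := ha
      simp only [mem_insert, mem_singleton] at ht
      rcases ht with rfl | rfl
      · exact ⟨_, hg.snoc hd (by omega) (uni_left _ _ _ _ hal) (fun _ => hta), by simp,
          hP _ _ (hsame g a) hPg⟩
      · exact ⟨_, hg'.snoc hd (by omega) (uni_right _ _ _ _ hal) (fun _ => hta), by simp,
          hP _ _ (hsame g' a) hPg'⟩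
    obtain ⟨w, hw, hwa, hPw⟩ := key a ha
    obtain ⟨w', hw', hwb, hPw'⟩ := key b hb
    exact ⟨w, w', hw, hw', by rw [hwa, hwb]; exact hab, hPw, hPw'⟩

/-- The reached labels of the second unit. -/
lemma alpha_reach (h : Chn G R k x y) (hk : 2 ≤ k) {c : ℕ → V} {a b : ℕ}
    (hab : (a ≤ 1 ∧ 2 ≤ b ∧ b ≤ 3) ∨ (2 ≤ a ∧ a ≤ 3 ∧ b ≤ 1)) (ha : c a = x 1) (hb : c b = x 2)
    (hout : ∀ j ≤ 3, j ≠ a → j ≠ b → ¬ InC k x y (c j)) {f : V → Q} {g : ℕ → Q}
    (hok : ok2 (f (c (mt a))) (f (c (mt b))) (g 1) (g 2) = true) :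
    CExt 2 (fun j => lbl k x y g f (c j)) := by
  unfold ok2 at hok
  rw [Bool.and_eq_true] at hok
  refine cext2_of_ok hab ?_
  show ext2 (lbl k x y g f (c a)) (lbl k x y g f (c (mt a))) (lbl k x y g f (c (mt b)))
    (lbl k x y g f (c b)) = true
  have e1 : ¬ InC k x y (c (mt a)) := hout _ (by unfold mt; split_ifs <;> omega)
    (by unfold mt; split_ifs <;> omega) (by unfold mt; split_ifs <;> omega)
  have e2 : ¬ InC k x y (c (mt b)) := hout _ (by unfold mt; split_ifs <;> omega)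
    (by unfold mt; split_ifs <;> omega) (by unfold mt; split_ifs <;> omega)
  rw [lbl_out e1, lbl_out e2, ha, hb, lbl_x h le_rfl h.pos, lbl_x h (by omega) hk,
    sg_odd (by omega), sg_even (by omega)]
  exact hok.2

/-- The start: two walks through the first two units. -/
theorem alpha_start (hG : ClassC G R) (h : Chn G R k x y) (hk : 3 ≤ k) {z c : ℕ → V}
    (hA : Cat G R 2 z c) (hAL : AL k x y c (x 1) (x 2)) {f : V → Q}
    {Φ : V → V → (ℕ → Q) → Finset Q} (h2 : ∀ v z g g', (Φ v z g ∪ Φ v z g').card ≤ 2)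
    (hd : Dep k x y Φ) (hd2 : ∀ z h h', Φ (x 2) z h = Φ (x 2) z h' ∧ Φ (y 2) z h = Φ (y 2) z h')
    (hz : ∀ v w h, w ∈ cSupp 2 z → Φ v w h = ∅) :
    ∃ g g', PW G R x y Φ 2 g ∧ PW G R x y Φ 2 g' ∧ g 2 ≠ g' 2 ∧
      CExt 2 (fun j => lbl k x y g f (c j)) ∧ CExt 2 (fun j => lbl k x y g' f (c j)) := by
  obtain ⟨a, b, hab, ha, hb, hout⟩ := hAL
  have g0 : ℕ → Q := fun _ => (false, false, false)
  have h2' : ∀ v z, (Φ v z g0).card ≤ 2 := by
    intro v z
    have := h2 v z g0 g0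
    rwa [Finset.union_self] at this
  have ham : a ≤ 2 + 1 := by omega
  have hbm : b ≤ 2 + 1 := by omega
  have pa := cl_mem hA.pos ham
  have pb := cl_mem hA.pos hbm
  have hza : z (cl 2 a) ∈ prt G R (x 1) := by
    rw [mem_prt, ← ha]
    exact ⟨cat_adj_cl hA ham, hA.unc _ pa.1 pa.2⟩
  have hzb : z (cl 2 b) ∈ prt G R (x 2) := by
    rw [mem_prt, ← hb]
    exact ⟨cat_adj_cl hA hbm, hA.unc _ pb.1 pb.2⟩
  have l1 := lst_card (G := G) (R := R) (x := x) (y := y) (fun v z => Φ v z g0) 1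
  have l2 := lst_card (G := G) (R := R) (x := x) (y := y) (fun v z => Φ v z g0) 2
  have e1 := cst_le_zero h2' (n := 1) (prt_card hG (h.cov (InC.x le_rfl h.pos))) hza
    (hz _ _ _ (mem_cSupp pa.1 pa.2))
  have e2 := cst_le h2' (prt_card_lk hG (h.lk 1 le_rfl (by omega)))
  have hlk2 : Lk G R (x 2) (y 1) := (h.lk 1 le_rfl (by omega)).symm
  have e3 := cst_le_zero h2' (n := 0) (prt_card_lk hG hlk2) hzb (hz _ _ _ (mem_cSupp pb.1 pb.2))
  have e4 := cst_le h2' (prt_card_lk hG (h.lk 2 (by omega) (by omega)))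
  set A := (lst G R x y (fun v z => Φ v z g0) 1).erase (f (c (mt a))) with hAdef
  have hA3 : 3 ≤ A.card := by
    have := Finset.pred_card_le_card_erase (s := lst G R x y (fun v z => Φ v z g0) 1)
      (a := f (c (mt a)))
    rw [← hAdef] at this
    omega
  have hl := alpha_lost3 (f (c (mt a))) (f (c (mt b))) hA3 (Finset.notMem_erase _ _)
  set B := univ.filter (fun t => ∀ a' ∈ A, ok2 (f (c (mt a))) (f (c (mt b))) a' t = false) with hB
  have e5 : 1 < ((lst G R x y (fun v z => Φ v z g0) 2) \ B).card := by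
    have := Finset.le_card_sdiff B (lst G R x y (fun v z => Φ v z g0) 2)
    omega
  obtain ⟨t, ht, t', ht', htt⟩ := Finset.one_lt_card.1 e5
  have key : ∀ t ∈ (lst G R x y (fun v z => Φ v z g0) 2) \ B, ∃ g, PW G R x y Φ 2 g ∧ g 2 = t ∧
      CExt 2 (fun j => lbl k x y g f (c j)) := by
    intro t ht
    rw [mem_sdiff, hB, mem_filter] at ht
    have h3 : ∃ a' ∈ A, ok2 (f (c (mt a))) (f (c (mt b))) a' t = true := by
      by_contra hcon
      push Not at hcon
      exact ht.2 ⟨mem_univ _, fun a' ha' => by simpa using hcon a' ha'⟩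
    obtain ⟨a', ha', hok⟩ := h3
    have hp : PW G R x y Φ 0 g0 := ⟨fun i h1 h2 => by omega, fun i h1 h2 => by omega⟩
    have p1 := hp.snoc hd (n := 0) (a := a') (by omega) (Finset.mem_of_mem_erase ha')
      (fun h' => by omega)
    have hna : nr a' t = true := by
      unfold ok2 at hok
      rw [Bool.and_eq_true] at hok
      exact hok.1
    have p2 := p1.snoc hd (n := 0 + 1) (a := t) (by omega) (by
      have e6 : olst G R x y Φ (fun i => if i ≤ 0 then g0 i else a') (0 + 1 + 1) =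
          lst G R x y (fun v z => Φ v z g0) 2 := lst_congr' (fun z => hd2 z _ _)
      rw [e6]; exact ht.1) (fun _ => by simpa using hna)
    refine ⟨_, p2, by simp, alpha_reach h (by omega) hab ha hb hout ?_⟩
    simpa using hok
  obtain ⟨g, h3, h4, h5⟩ := key t ht
  obtain ⟨g', h3', h4', h5'⟩ := key t' ht'
  exact ⟨g, g', h3, h3', by rw [h4, h4']; exact htt, h5, h5'⟩

/-- The extension of the start component depends on the first two units only. -/
lemma alpha_inv (h : Chn G R k x y) (hk : 2 ≤ k) {c : ℕ → V} (hAL : AL k x y c (x 1) (x 2)) {f : V → Q}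
    (g w : ℕ → Q) (hs : Same 3 g w) (hE : CExt 2 (fun j => lbl k x y g f (c j))) :
    CExt 2 (fun j => lbl k x y w f (c j)) := by
  obtain ⟨a, b, hab, ha, hb, hout⟩ := hAL
  refine cext_congr (fun j hj => ?_) hE
  by_cases hja : j = a
  · subst hja
    show lbl k x y g f (c j) = lbl k x y w f (c j)
    rw [ha, lbl_x h le_rfl h.pos, lbl_x h le_rfl h.pos, hs 1 le_rfl (by omega)]
  · by_cases hjb : j = b
    · subst hjb
      show lbl k x y g f (c j) = lbl k x y w f (c j)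
      rw [hb, lbl_x h (by omega) hk, lbl_x h (by omega) hk, hs 2 (by omega) (by omega)]
    · have := hout j (by omega) hja hjb
      show lbl k x y g f (c j) = lbl k x y w f (c j)
      rw [lbl_out this, lbl_out this]

/-- A start component and a component killed in the last two units. -/
theorem open_start_end (hR : Opt G R) (hG : ClassC G R) (hle : H ≤ G) (hc : Crit H R)
    (h : Chn H R k x y) (hk : 4 ≤ k) (hends : (∀ w, ¬ Lk H R (x 1) w) ∧ ∀ w, ¬ Lk H R (y k) w)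
    {zA cA : ℕ → V} (hA : Cat H R 2 zA cA) (hAL : AL k x y cA (x 1) (x 2))
    {mE : ℕ} {zE cE : ℕ → V} (hE : Cat H R mE zE cE) (hAE : cSupp 2 zA ≠ cSupp mE zE)
    {zy zk : V} (hzy : zy ∈ prt H R (y (k - 1)))
    (hzyE : zy ∈ cSupp mE zE) (hzk : zk ∈ prt H R (y k)) (hzkE : zk ∈ cSupp mE zE)
    (hEK : ∀ f, OffC H R k x y f → ∃ φ, EKill H R k x y f (cSupp mE zE)
      (if InnerPt H R zy then 4 else 3) φ ∧
        ∀ z h h', φ (x 2) z h = φ (x 2) z h' ∧ φ (y 2) z h = φ (y 2) z h')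
    (hC : ∀ f, OffC H R k x y f → ∀ v₀ z₀, v₀ = x k → ∀ m z c, Cat H R m z c →
      (∃ j ≤ m + 1, InC k x y (c j)) → cSupp m z ≠ cSupp mE zE → cSupp m z ≠ cSupp 2 zA →
        ∃ φ, OKill H R k x y f (cSupp m z) v₀ z₀ φ) : False := by
  have hH := hG.mono hle
  obtain ⟨f, hf⟩ := exists_off h hc
  obtain ⟨φ, hφ, hφ2⟩ := hEK f hf
  -- the designated port
  obtain ⟨z₀, hz₀⟩ : ∃ z₀, (prt H R (x k)).card = 0 ∨ z₀ ∈ prt H R (x k) := by
    by_cases h0 : (prt H R (x k)).card = 0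
    · exact ⟨x k, Or.inl h0⟩
    · obtain ⟨v, hv⟩ := Finset.card_pos.1 (Nat.pos_of_ne_zero h0)
      exact ⟨v, Or.inr hv⟩
  obtain ⟨Φ, hΦ⟩ := exists_oforb hH h (f := f) (cSupp mE zE ∪ cSupp 2 zA) (x k) z₀
  have hdisj : ∀ w, w ∈ cSupp 2 zA → w ∉ cSupp mE zE := fun w h1 h2 => hAE (cSupp_eq hA hE h1 h2)
  set Φ' : V → V → (ℕ → Q) → Finset Q := fun v z g => if z ∈ cSupp mE zE then φ v z g else Φ v z g
    with hΦ'
  have h2 : ∀ v z g g', (Φ' v z g ∪ Φ' v z g').card ≤ 2 := by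
    intro v z g g'
    simp only [hΦ']
    split_ifs
    · exact hφ.two v z g g'
    · exact hΦ.two v z g g'
  have hd : Dep k x y Φ' := by
    intro i h1 h2 z g g' hs
    simp only [hΦ']
    split_ifs
    · exact hφ.dep i h1 h2 z g g' hs
    · exact hΦ.dep i h1 h2 z g g' (hs.mono (by omega))
  obtain ⟨g0, g0', hg0, hg0', hne0, hP, hP'⟩ := alpha_start hH h (by omega) hA hAL (f := f) h2 hd
    (fun z g g' => by
      simp only [hΦ']
      split_ifs
      · exact hφ2 z g g'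
      · exact hΦ.dep 2 (by omega) (by omega) z g g' (fun j j1 j2 => by omega))
    (fun v w g hw => by
      simp only [hΦ']
      rw [if_neg (hdisj w hw)]
      exact hΦ.triv v w g (Or.inr hw))
  obtain ⟨g, g', hg, hg', hne, hPg, hPg'⟩ := walks_from hH h h2 hd (n0 := 2) (by omega)
    (alpha_inv h (by omega) hAL (f := f)) hg0 hg0' hne0 hP hP' (n := k - 2) (by omega) (by omega)
  refine end_finish hR hG hle hc h (by omega) hends hE hzy hzyE hzk hzkE hf hφ hz₀
    Set.subset_union_left hΦ ?_ hg hg' hne ?_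
  · rintro v (⟨j, j1, j2, rfl⟩ | ⟨j, j1, j2, rfl⟩) a b hT
    · exact isTwo_not_cat hE j1 j2 hT
    · exact isTwo_not_cat hA j1 j2 hT
  · intro mu _ hs m z c hC' hex hS
    by_cases hSA : cSupp m z = cSupp 2 zA
    · right
      rw [cext_iff_fits hC', hSA, ← cext_iff_fits hA]
      rcases hs with hs | hs
      · exact alpha_inv h (by omega) hAL g mu (hs.mono (by omega)) hPg
      · exact alpha_inv h (by omega) hAL g' mu (hs.mono (by omega)) hPg'
    · left
      refine ⟨hC f hf (x k) z₀ rfl m z c hC' hex hS hSA, fun i i1 i2 hi => ?_⟩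
      rcases hi with hi | hi
      · exact hS (cSupp_eq hC' hE (mem_cSupp i1 i2) hi)
      · exact hSA (cSupp_eq hC' hA (mem_cSupp i1 i2) hi)

end CLB.H95
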