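import Mathlib

/-!
Counting edges of a symmetric relation: total number of darts, boundary of a vertex set, inside of a
vertex set, and how they change when the relation is changed across the boundary of a set or near a set.
-/

set_option autoImplicit false
set_option linter.unusedSectionVars false

namespace CLB.H95

open Finset Classical

variable {V : Type*} [Fintype V] [DecidableEq V]

/-- Degree of `u` in the relation `T`. -/
noncomputable def deg (T : V → V → Prop) (u : V) : ℕ := (univ.filter (fun v => T u v)).card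

/-- Number of darts (ordered pairs) of `T`. -/
noncomputable def cnt (T : V → V → Prop) : ℕ := ∑ u, deg T u

/-- Number of darts of `T` from `W` to its complement. -/
noncomputable def bd (T : V → V → Prop) (W : Finset V) : ℕ :=
  ∑ u ∈ W, (univ.filter (fun v => v ∉ W ∧ T u v)).card

/-- Number of darts of `T` inside `W`. -/
noncomputable def inn (T : V → V → Prop) (W : Finset V) : ℕ :=
  ∑ u ∈ W, (univ.filter (fun v => v ∈ W ∧ T u v)).card

lemma sum_deg (T : V → V → Prop) (W : Finset V) : ∑ u ∈ W, deg T u = inn T W + bd T W := by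
  unfold inn bd deg
  rw [← Finset.sum_add_distrib]
  refine Finset.sum_congr rfl fun u _ => ?_
  rw [← Finset.card_filter_add_card_filter_not (s := univ.filter (fun v => T u v)) (fun v => v ∈ W)]
  congr 1 <;> congr 1 <;> ext v <;> simp only [mem_filter, mem_univ, true_and] <;> tauto

lemma bd_compl {T : V → V → Prop} (hT : ∀ u v, T u v → T v u) (W : Finset V) :
    bd T Wᶜ = bd T W := by
  unfold bd
  simp only [Finset.card_filter]
  have h1 : ∀ A : Finset V, (∑ u ∈ A, ∑ v : V, if v ∉ A ∧ T u v then 1 else 0)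
      = ∑ u ∈ A, ∑ v ∈ Aᶜ, if T u v then 1 else 0 := by
    intro A
    refine Finset.sum_congr rfl fun u _ => ?_
    rw [← Finset.sum_filter_add_sum_filter_not (s := (univ : Finset V)) (fun v => v ∈ Aᶜ)]
    rw [Finset.sum_eq_zero (s := univ.filter (fun v => ¬ v ∈ Aᶜ)), add_zero]
    · refine Finset.sum_congr (by ext; simp) fun v hv => ?_
      simp only [mem_compl] at hv
      simp [hv]
    · intro v hv
      simp only [mem_filter, mem_compl, not_not] at hv
      simp [hv.2]
  rw [h1, h1, compl_compl, Finset.sum_comm]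
  refine Finset.sum_congr rfl fun u _ => Finset.sum_congr rfl fun v _ => ?_
  by_cases h : T v u
  · simp [h, hT _ _ h]
  · have : ¬ T u v := fun h' => h (hT _ _ h')
    simp [h, this]

lemma cnt_split {T : V → V → Prop} (hT : ∀ u v, T u v → T v u) (W : Finset V) :
    cnt T = inn T W + inn T Wᶜ + 2 * bd T W := by
  have h1 : cnt T = ∑ u ∈ W, deg T u + ∑ u ∈ Wᶜ, deg T u := by
    unfold cnt
    rw [← Finset.sum_add_sum_compl W]
  rw [h1, sum_deg, sum_deg, bd_compl hT]
  ring

lemma inn_congr {T T' : V → V → Prop} {W : Finset V} (h : ∀ u ∈ W, ∀ v ∈ W, (T u v ↔ T' u v)) :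
    inn T W = inn T' W := by
  unfold inn
  refine Finset.sum_congr rfl fun u hu => ?_
  congr 1
  ext v
  simp only [mem_filter, mem_univ, true_and]
  constructor
  · rintro ⟨hv, ht⟩; exact ⟨hv, (h u hu v hv).1 ht⟩
  · rintro ⟨hv, ht⟩; exact ⟨hv, (h u hu v hv).2 ht⟩

lemma bd_congr {T T' : V → V → Prop} {W : Finset V} (h : ∀ u ∈ W, ∀ v, v ∉ W → (T u v ↔ T' u v)) :
    bd T W = bd T' W := by
  unfold bd
  refine Finset.sum_congr rfl fun u hu => ?_
  congr 1
  ext v
  simp only [mem_filter, mem_univ, true_and]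
  constructor
  · rintro ⟨hv, ht⟩; exact ⟨hv, (h u hu v hv).1 ht⟩
  · rintro ⟨hv, ht⟩; exact ⟨hv, (h u hu v hv).2 ht⟩

/-- Changing a relation across the boundary of `W`. -/
lemma cnt_switch {T T' T2 : V → V → Prop} (hT : ∀ u v, T u v → T v u)
    (hT' : ∀ u v, T' u v → T' v u) (W : Finset V)
    (hin : ∀ u v, (u ∈ W ↔ v ∈ W) → (T' u v ↔ T u v))
    (hout : ∀ u v, u ∈ W → v ∉ W → (T' u v ↔ T2 u v)) :
    cnt T' + 2 * bd T W = cnt T + 2 * bd T2 W := by
  rw [cnt_split hT W, cnt_split hT' W]
  have h1 : inn T' W = inn T W := inn_congr fun u hu v hv => hin u v (by simp [hu, hv])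
  have h2 : inn T' Wᶜ = inn T Wᶜ := inn_congr fun u hu v hv => hin u v (by
    rw [mem_compl] at hu hv; simp [hu, hv])
  have h3 : bd T' W = bd T2 W := bd_congr fun u hu v hv => hout u v hu hv
  rw [h1, h2, h3]
  ring

lemma bd_le_of_cnt_le {T T' T2 : V → V → Prop} (hT : ∀ u v, T u v → T v u)
    (hT' : ∀ u v, T' u v → T' v u) (W : Finset V)
    (hin : ∀ u v, (u ∈ W ↔ v ∈ W) → (T' u v ↔ T u v))
    (hout : ∀ u v, u ∈ W → v ∉ W → (T' u v ↔ T2 u v)) (hle : cnt T ≤ cnt T') :
    bd T W ≤ bd T2 W := by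
  have := cnt_switch hT hT' W hin hout
  omega

/-- Changing a relation only at darts meeting a set `C`. -/
lemma cnt_local {T T' : V → V → Prop} (hT : ∀ u v, T u v → T v u)
    (hT' : ∀ u v, T' u v → T' v u) (C : Finset V)
    (h : ∀ u v, u ∉ C → v ∉ C → (T' u v ↔ T u v)) :
    cnt T' + 2 * ∑ u ∈ C, deg T u + inn T' C = cnt T + 2 * ∑ u ∈ C, deg T' u + inn T C := by
  have h2 : inn T' Cᶜ = inn T Cᶜ := inn_congr fun u hu v hv => by
    rw [mem_compl] at hu hv; exact h u v hu hv
  rw [cnt_split hT C, cnt_split hT' C, sum_deg, sum_deg, h2]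
  ring

/-- Edge form of the slack: boundary of `P` minus boundary of `Q`. -/
lemma bd_sub (P Q : V → V → Prop) (W : Finset V) :
    (bd P W : ℤ) - bd Q W = ∑ u ∈ W, ((deg P u : ℤ) - deg Q u) - ((inn P W : ℤ) - inn Q W) := by
  have h1 := sum_deg P W
  have h2 := sum_deg Q W
  have h3 : ∑ u ∈ W, ((deg P u : ℤ) - deg Q u) = ((∑ u ∈ W, deg P u : ℕ) : ℤ)
      - ((∑ u ∈ W, deg Q u : ℕ) : ℤ) := by
    push_cast
    rw [Finset.sum_sub_distrib]
  rw [h3, h1, h2]
  push_cast
  ring

/-- Existence of lexicographic minima, one level. -/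
lemma exists_min_of {α : Type*} (P : α → Prop) (hP : ∃ a, P a) (f : α → ℕ) :
    ∃ a, P a ∧ ∀ b, P b → f a ≤ f b := by
  obtain ⟨a, ha, hmin⟩ := WellFounded.has_min (measure f).wf {a | P a} hP
  refine ⟨a, ha, fun b hb => ?_⟩
  by_contra hlt
  push Not at hlt
  exact hmin b hb hlt

end CLB.H95
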