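import Pool.Agent.Helper3_DA.Lab

/-!
Label toolbox on `H3DA.Q` (the eight vertices of the 3-cube): balls, neighbourhoods of sets, messages.
-/

set_option autoImplicit false

namespace CLB.H95

open Finset
open H3DA (Q neg nr)

lemma nr_neg_neg : ∀ x y : Q, nr (neg x) (neg y) = nr x y := by decide

/-- The complement of a ball is the antipodal ball. -/
lemma nr_neg : ∀ x y : Q, nr (neg x) y = !(nr x y) := by decide

lemma nr_neg' : ∀ x y : Q, nr x (neg y) = !(nr x y) := by decide

lemma nr_neg_self : ∀ x : Q, nr x (neg x) = false := by decide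

lemma neg_eq_iff {x y : Q} : neg x = y ↔ x = neg y :=
  ⟨fun h => by rw [← h, H3DA.neg_neg], fun h => by rw [h, H3DA.neg_neg]⟩

lemma nr_symm {x y : Q} (h : nr x y = true) : nr y x = true := by
  rw [H3DA.nr_comm, h]

/-- The ball of radius one. -/
def ball (x : Q) : Finset Q := univ.filter (fun y => nr x y = true)

lemma mem_ball {x y : Q} : y ∈ ball x ↔ nr x y = true := by
  unfold ball; simp

lemma ball_card : ∀ x : Q, (ball x).card = 4 := by decide

lemma ball_compl : ∀ x : Q, (ball x)ᶜ = ball (neg x) := by decide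

lemma ball_inter_card : ∀ x y : Q, x ≠ neg y → 2 ≤ (ball x ∩ ball y).card := by decide

lemma ball_inter_neg : ∀ x : Q, ball x ∩ ball (neg x) = ∅ := by decide

lemma ball_union_card : ∀ x y : Q, x ≠ y → 6 ≤ (ball x ∪ ball y).card := by decide

lemma ball_union3_card : ∀ x y z : Q, x ≠ y → x ≠ z → y ≠ z →
    7 ≤ (ball x ∪ ball y ∪ ball z).card := by decide

/-- Labels near some element of a set. -/
def nb (L : Finset Q) : Finset Q := univ.filter (fun y => ∃ x ∈ L, nr x y = true)

lemma mem_nb {L : Finset Q} {y : Q} : y ∈ nb L ↔ ∃ x ∈ L, nr x y = true := by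
  unfold nb; simp

lemma ball_subset_nb {L : Finset Q} {x : Q} (hx : x ∈ L) : ball x ⊆ nb L :=
  fun _ hy => mem_nb.2 ⟨x, hx, mem_ball.1 hy⟩

lemma nb_mono {L L' : Finset Q} (h : L ⊆ L') : nb L ⊆ nb L' := fun _ hy => by
  rw [mem_nb] at hy ⊢
  obtain ⟨x, hx, hxy⟩ := hy
  exact ⟨x, h hx, hxy⟩

lemma nb_card1 {L : Finset Q} (h : 1 ≤ L.card) : 4 ≤ (nb L).card := by
  obtain ⟨x, hx⟩ := Finset.card_pos.1 h
  calc 4 = (ball x).card := (ball_card x).symm
    _ ≤ (nb L).card := Finset.card_le_card (ball_subset_nb hx)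

lemma nb_card2 {L : Finset Q} (h : 2 ≤ L.card) : 6 ≤ (nb L).card := by
  obtain ⟨x, hx, y, hy, hxy⟩ := Finset.one_lt_card.1 h
  refine le_trans (ball_union_card x y hxy) (Finset.card_le_card ?_)
  exact Finset.union_subset (ball_subset_nb hx) (ball_subset_nb hy)

lemma nb_card3 {L : Finset Q} (h : 3 ≤ L.card) : 7 ≤ (nb L).card := by
  obtain ⟨x, hx, y, hy, z, hz, hxy, hxz, hyz⟩ := Finset.two_lt_card.1 h
  refine le_trans (ball_union3_card x y z hxy hxz hyz) (Finset.card_le_card ?_)
  exact Finset.union_subset (Finset.union_subset (ball_subset_nb hx) (ball_subset_nb hy))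
    (ball_subset_nb hz)

lemma nb_card5 {L : Finset Q} (h : 5 ≤ L.card) : nb L = univ := by
  ext y
  simp only [mem_univ, iff_true, mem_nb]
  by_contra hcon
  push Not at hcon
  have h1 : L ⊆ (ball y)ᶜ := by
    intro x hx
    rw [mem_compl, mem_ball]
    intro h'
    exact hcon x hx (nr_symm h')
  have h2 := Finset.card_le_card h1
  rw [ball_compl, ball_card] at h2
  omega

lemma card_univ_Q : (univ : Finset Q).card = 8 := by decide

/-- The size of a neighbourhood minus a forbidden set. -/
lemma card_sdiff_ge (A B : Finset Q) : A.card - B.card ≤ (A \ B).card := by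
  have := Finset.le_card_sdiff B A
  omega

/-- Antipodal set. -/
def negS (L : Finset Q) : Finset Q := L.image neg

lemma mem_negS {L : Finset Q} {y : Q} : y ∈ negS L ↔ neg y ∈ L := by
  unfold negS
  rw [Finset.mem_image]
  constructor
  · rintro ⟨x, hx, rfl⟩; rw [H3DA.neg_neg]; exact hx
  · intro h; exact ⟨neg y, h, H3DA.neg_neg y⟩

lemma negS_card (L : Finset Q) : (negS L).card = L.card :=
  Finset.card_image_of_injective _ (fun _ _ h => H3DA.neg_inj h)

/-- Three balls meet if and only if they meet pairwise. -/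
lemma near3_iff : ∀ a b c : Q, (∃ x, nr a x = true ∧ nr b x = true ∧ nr c x = true) ↔
    a ≠ neg b ∧ a ≠ neg c ∧ b ≠ neg c := by decide

lemma near2_iff : ∀ a b : Q, (∃ x, nr a x = true ∧ nr b x = true) ↔ a ≠ neg b := by decide

end CLB.H95
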