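import Pool.Agent.Helper95_CLB.Crit
import Pool.Agent.Helper95_CLB.Q3
import Pool.Agent.Helper3_DA.Cut

/-!
Labellings of the vertices by the eight vertices of the 3-cube: uncut edges antipodal, cut edges at
distance at most one. Such a labelling gives a good colouring. Edge minimal graphs without a labelling.
-/

set_option autoImplicit false

namespace CLB.H95

open Finset
open H3DA (Q neg nr)

variable {V : Type*}

/-- The condition on an edge. -/
def okE (R : V → Bool) (f : V → Q) (u v : V) : Prop :=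
  (R u = R v → f v = neg (f u)) ∧ (R u ≠ R v → nr (f u) (f v) = true)

lemma okE.symm {R : V → Bool} {f : V → Q} {u v : V} (h : okE R f u v) : okE R f v u :=
  ⟨fun he => by rw [h.1 he.symm, H3DA.neg_neg], fun he => nr_symm (h.2 (Ne.symm he))⟩

/-- A labelling. -/
def Lab (G : SimpleGraph V) (R : V → Bool) (f : V → Q) : Prop :=
  ∀ u v, G.Adj u v → okE R f u v

/-- Existence of a labelling. -/
def TStar (G : SimpleGraph V) (R : V → Bool) : Prop := ∃ f : V → Q, Lab G R f

/-- A labelling gives a good colouring. -/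
theorem TStar.good {G : SimpleGraph V} {R : V → Bool} (h : TStar G R) : Good G := by
  obtain ⟨f, hf⟩ := h
  let H : SimpleGraph V :=
    { Adj := fun u v => G.Adj u v ∧ R u ≠ R v
      symm := ⟨fun _ _ h => ⟨h.1.symm, h.2.symm⟩⟩
      loopless := ⟨fun _ h => h.2 rfl⟩ }
  let M : SimpleGraph V :=
    { Adj := fun u v => G.Adj u v ∧ R u = R v
      symm := ⟨fun _ _ h => ⟨h.1.symm, h.2.symm⟩⟩
      loopless := ⟨fun _ h => h.1.ne rfl⟩ }
  refine H3DA.good_of_lab (G := G) (H := H) (M := M) (R := R) (f := f) ?_ ?_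
  · exact ⟨fun u v huv => (hf u v huv.1).2 huv.2, fun u v huv => (hf u v huv.1).1 huv.2⟩
  · intro u v huv
    by_cases h : R u = R v
    · exact Or.inr ⟨⟨huv, h⟩, h⟩
    · exact Or.inl ⟨⟨huv, h⟩, h⟩

lemma TStar.mono {G G' : SimpleGraph V} {R : V → Bool} (h : TStar G R) (hle : G' ≤ G) :
    TStar G' R := by
  obtain ⟨f, hf⟩ := h
  exact ⟨f, fun u v huv => hf u v (hle huv)⟩

/-- Edge minimal graph without a labelling. -/
def Crit (G : SimpleGraph V) (R : V → Bool) : Prop :=
  ¬ TStar G R ∧ ∀ G' : SimpleGraph V, G' < G → TStar G' R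

theorem exists_crit [Finite V] {G : SimpleGraph V} {R : V → Bool} (h : ¬ TStar G R) :
    ∃ G' : SimpleGraph V, G' ≤ G ∧ Crit G' R := by
  have : Finite (SimpleGraph V) := by
    classical
    have := Fintype.ofFinite V
    exact Finite.of_injective (fun G : SimpleGraph V => G.Adj) (fun a b hab => by
      ext x y; exact iff_of_eq (congrFun (congrFun hab x) y))
  obtain ⟨G', hG', hmin⟩ := (Set.toFinite {G' : SimpleGraph V | G' ≤ G ∧ ¬ TStar G' R}).exists_minimal
    ⟨G, le_refl G, h⟩
  refine ⟨G', hG'.1, hG'.2, fun G'' hlt => ?_⟩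
  by_contra hcon
  have h1 := hmin (show G'' ∈ {G' : SimpleGraph V | G' ≤ G ∧ ¬ TStar G' R} from
    ⟨hlt.le.trans hG'.1, hcon⟩) hlt.le
  exact absurd h1 (not_le_of_gt hlt)

/-- In a minimal graph, every relation killing at least one edge leaves a labelling of the rest. -/
theorem Crit.del {G : SimpleGraph V} {R : V → Bool} (h : Crit G R) (P : V → V → Prop)
    (hP : ∀ u v, P u v → P v u) {a b : V} (hab : G.Adj a b) (hPab : P a b) :
    ∃ f : V → Q, ∀ u v, G.Adj u v → ¬ P u v → okE R f u v := by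
  let G' : SimpleGraph V :=
    { Adj := fun u v => G.Adj u v ∧ ¬ P u v
      symm := ⟨fun u v huv => ⟨huv.1.symm, fun hp => huv.2 (hP _ _ hp)⟩⟩
      loopless := ⟨fun u hu => G.loopless.irrefl u hu.1⟩ }
  have hle : G' ≤ G := fun u v huv => huv.1
  have hlt : G' < G := by
    refine lt_of_le_of_ne hle ?_
    intro he
    have : G'.Adj a b := by rw [he]; exact hab
    exact this.2 hPab
  obtain ⟨f, hf⟩ := h.2 G' hlt
  exact ⟨f, fun u v huv hp => hf u v ⟨huv, hp⟩⟩

/-- In a minimal graph, one edge may be ignored, and then it is violated. -/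
theorem Crit.edge {G : SimpleGraph V} {R : V → Bool} (h : Crit G R) {a b : V} (hab : G.Adj a b) :
    ∃ f : V → Q, (∀ u v, G.Adj u v → ¬ (u = a ∧ v = b) → ¬ (u = b ∧ v = a) → okE R f u v) ∧
      ¬ okE R f a b := by
  obtain ⟨f, hf⟩ := h.del (fun u v => (u = a ∧ v = b) ∨ (u = b ∧ v = a))
    (fun u v huv => by tauto) hab (Or.inl ⟨rfl, rfl⟩)
  refine ⟨f, fun u v huv h1 h2 => hf u v huv (by tauto), fun hok => h.1 ⟨f, fun u v huv => ?_⟩⟩
  by_cases h1 : u = a ∧ v = b
  · rw [h1.1, h1.2]; exact hok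
  · by_cases h2 : u = b ∧ v = a
    · rw [h2.1, h2.2]; exact hok.symm
    · exact hf u v huv (by tauto)

/-- In a minimal graph, all edges at a nonempty set of vertices may be ignored. -/
theorem Crit.del_set {G : SimpleGraph V} {R : V → Bool} (h : Crit G R) (W : Set V) {a b : V}
    (ha : a ∈ W) (hab : G.Adj a b) :
    ∃ f : V → Q, ∀ u v, G.Adj u v → u ∉ W → v ∉ W → okE R f u v := by
  obtain ⟨f, hf⟩ := h.del (fun u v => u ∈ W ∨ v ∈ W) (fun u v huv => by tauto) hab (Or.inl ha)
  exact ⟨f, fun u v huv hu hv => hf u v huv (by tauto)⟩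

end CLB.H95
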