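import Pool.Agent.Helper95_CLB.State
import Pool.Agent.Helper95_CLB.TStar

/-!
The hereditary class of pairs `(G, R)` defined by the inequality of maximum cuts with `3 * |Z|`, the
slack function `sig`, how it changes when a vertex is inserted, and first consequences.
-/

set_option autoImplicit false
set_option linter.unusedSectionVars false

namespace CLB.H95

open Finset Classical

variable {V : Type*}

/-- Uncut edges. -/
def Me (G : SimpleGraph V) (R : V → Bool) (u v : V) : Prop := G.Adj u v ∧ R u = R v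

/-- Cut edges. -/
def He (G : SimpleGraph V) (R : V → Bool) (u v : V) : Prop := G.Adj u v ∧ R u ≠ R v

/-- Covered vertices: endpoints of uncut edges. -/
def Cov (G : SimpleGraph V) (R : V → Bool) (u : V) : Prop := ∃ v, Me G R u v

section basic

variable {G : SimpleGraph V} {R : V → Bool} {u v w : V}

lemma Me.symm (h : Me G R u v) : Me G R v u := ⟨h.1.symm, h.2.symm⟩
lemma He.symm (h : He G R u v) : He G R v u := ⟨h.1.symm, Ne.symm h.2⟩
lemma Me.ne (h : Me G R u v) : u ≠ v := G.ne_of_adj h.1
lemma He.ne (h : He G R u v) : u ≠ v := G.ne_of_adj h.1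
lemma adj_iff : G.Adj u v ↔ Me G R u v ∨ He G R u v := by unfold Me He; tauto
lemma Me.cov (h : Me G R u v) : Cov G R u := ⟨v, h⟩
lemma Me.cov' (h : Me G R u v) : Cov G R v := ⟨u, h.symm⟩
lemma Me.not_He (h : Me G R u v) : ¬ He G R u v := fun h' => h'.2 h.2

/-- Two H-steps keep the side. -/
lemma He.side2 (h1 : He G R u v) (h2 : He G R v w) : R u = R w := by
  have a := h1.2
  have b := h2.2
  rcases hu : R u <;> rcases hv : R v <;> rcases hw : R w <;> simp_all

end basic

variable [Fintype V] [DecidableEq V]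

/-- Number of H-neighbours of `x` in `Z`. -/
noncomputable def hc (G : SimpleGraph V) (R : V → Bool) (Z : Finset V) (x : V) : ℕ :=
  (Z.filter (fun v => He G R x v)).card

/-- Number of M-neighbours of `x` outside `Z`. -/
noncomputable def mo (G : SimpleGraph V) (R : V → Bool) (Z : Finset V) (x : V) : ℕ :=
  (univ.filter (fun v => v ∉ Z ∧ Me G R x v)).card

/-- Number of neighbours of `x` in `Z`. -/
noncomputable def ic (G : SimpleGraph V) (Z : Finset V) (x : V) : ℕ :=
  (Z.filter (fun v => G.Adj x v)).card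

/-- The slack of a vertex set. -/
noncomputable def sig (G : SimpleGraph V) (R : V → Bool) (Z : Finset V) : ℤ :=
  3 * Z.card - ∑ u ∈ Z, ((ic G Z u : ℤ) + 2 * mo G R Z u)

/-- The class. -/
structure ClassC (G : SimpleGraph V) (R : V → Bool) : Prop where
  deg3 : ∀ u, (univ.filter (fun v => G.Adj u v)).card ≤ 3
  tri : ∀ a b c, G.Adj a b → G.Adj b c → ¬ G.Adj a c
  sig0 : ∀ Z, 0 ≤ sig G R Z

variable {G G' : SimpleGraph V} {R : V → Bool}

lemma sig_mono (h : G' ≤ G) (Z : Finset V) : sig G R Z ≤ sig G' R Z := by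
  unfold sig
  have : ∑ u ∈ Z, ((ic G' Z u : ℤ) + 2 * mo G' R Z u) ≤ ∑ u ∈ Z, ((ic G Z u : ℤ) + 2 * mo G R Z u) := by
    refine Finset.sum_le_sum fun u _ => ?_
    have h1 : ic G' Z u ≤ ic G Z u := by
      unfold ic
      refine Finset.card_le_card fun v hv => ?_
      rw [mem_filter] at hv ⊢
      exact ⟨hv.1, h hv.2⟩
    have h2 : mo G' R Z u ≤ mo G R Z u := by
      unfold mo
      refine Finset.card_le_card fun v hv => ?_
      rw [mem_filter] at hv ⊢
      exact ⟨hv.1, hv.2.1, h hv.2.2.1, hv.2.2.2⟩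
    have h1' : (ic G' Z u : ℤ) ≤ ic G Z u := by exact_mod_cast h1
    have h2' : (mo G' R Z u : ℤ) ≤ mo G R Z u := by exact_mod_cast h2
    linarith
  linarith

/-- The class is hereditary. -/
theorem ClassC.mono (hG : ClassC G R) (h : G' ≤ G) : ClassC G' R where
  deg3 u := by
    refine le_trans (Finset.card_le_card fun v hv => ?_) (hG.deg3 u)
    rw [mem_filter] at hv ⊢
    exact ⟨hv.1, h hv.2⟩
  tri a b c hab hbc hac := hG.tri a b c (h hab) (h hbc) (h hac)
  sig0 Z := (hG.sig0 Z).trans (sig_mono h Z)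

/-- Minimal numbers of uncut edges give members of the class. -/
theorem ClassC.of_minD (hdeg : ∀ u, (univ.filter (fun v => G.Adj u v)).card ≤ 3)
    (htri : ∀ a b c, G.Adj a b → G.Adj b c → ¬ G.Adj a c)
    (hR : MinD G ⟨R, R⟩) : ClassC G R where
  deg3 := hdeg
  tri := htri
  sig0 Z := by
    have h1 := M1 hR Z
    have h2 : inn G.Adj Z + bd G.Adj Z = ∑ u ∈ Z, deg G.Adj u := (sum_deg _ _).symm
    have h3 : bd G.Adj Z = bd (isD G ⟨R, R⟩) Z + bd (isH G ⟨R, R⟩) Z := by
      unfold bd
      rw [← Finset.sum_add_distrib]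
      refine Finset.sum_congr rfl fun u _ => ?_
      rw [← Finset.card_union_of_disjoint]
      · congr 1
        ext v
        simp only [mem_filter, mem_univ, true_and, mem_union]
        unfold isD isH; tauto
      · rw [Finset.disjoint_filter]
        rintro v _ h1 h2
        exact h2.2.2 h1.2.2
    have h4 : ∑ u ∈ Z, deg G.Adj u ≤ 3 * Z.card := by
      calc ∑ u ∈ Z, deg G.Adj u ≤ ∑ _u ∈ Z, 3 := Finset.sum_le_sum fun u _ => hdeg u
        _ = 3 * Z.card := by simp [mul_comm]
    have h5 : ∑ u ∈ Z, ((ic G Z u : ℤ) + 2 * mo G R Z u)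
        = (inn G.Adj Z : ℤ) + 2 * bd (isD G ⟨R, R⟩) Z := by
      rw [Finset.sum_add_distrib, ← Finset.mul_sum]
      congr 1
      · unfold inn ic
        push_cast
        refine Finset.sum_congr rfl fun u _ => ?_
        congr 2
        ext v
        simp
      · congr 1
        unfold bd mo
        push_cast
        exact Finset.sum_congr rfl fun u _ => by congr 2
    unfold sig
    rw [h5]
    have h6 : (inn G.Adj Z : ℤ) + 2 * bd (isD G ⟨R, R⟩) Z ≤ 3 * Z.card := by
      have : inn G.Adj Z + 2 * bd (isD G ⟨R, R⟩) Z ≤ 3 * Z.card := by omega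
      exact_mod_cast this
    linarith

lemma sig_empty : sig G R ∅ = 0 := by unfold sig; simp

/-- Inserting a vertex. -/
theorem sig_insert {Z : Finset V} {x : V} (hx : x ∉ Z) :
    sig G R (insert x Z) = sig G R Z + 3 - 2 * hc G R Z x - 2 * mo G R Z x := by
  have hxx : ¬ G.Adj x x := G.loopless.irrefl x
  have e1 : ∀ u ∈ Z, (ic G (insert x Z) u : ℤ) + 2 * mo G R (insert x Z) u
      = ((ic G Z u : ℤ) + 2 * mo G R Z u) + ((if He G R x u then (1 : ℤ) else 0)
        - (if Me G R x u then (1 : ℤ) else 0)) := by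
    intro u hu
    have hux : u ≠ x := fun h => hx (h ▸ hu)
    have h1 : (ic G (insert x Z) u : ℤ) = ic G Z u + (if G.Adj x u then (1 : ℤ) else 0) := by
      unfold ic
      rw [Finset.filter_insert]
      by_cases h : G.Adj u x
      · rw [if_pos h, if_pos h.symm, Finset.card_insert_of_notMem (by simp [hx])]
        push_cast; ring
      · rw [if_neg h, if_neg (fun h' => h h'.symm)]; ring
    have h2 : (mo G R (insert x Z) u : ℤ) = mo G R Z u - (if Me G R x u then (1 : ℤ) else 0) := by
      unfold mo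
      by_cases h : Me G R u x
      · rw [if_pos h.symm]
        have : (univ.filter (fun v => v ∉ Z ∧ Me G R u v))
            = insert x (univ.filter (fun v => v ∉ insert x Z ∧ Me G R u v)) := by
          ext v
          simp only [mem_filter, mem_univ, true_and, mem_insert, not_or]
          constructor
          · rintro ⟨ha, hb⟩
            by_cases hv : v = x
            · exact Or.inl hv
            · exact Or.inr ⟨⟨hv, ha⟩, hb⟩
          · rintro (rfl | ⟨⟨_, ha⟩, hb⟩)
            · exact ⟨hx, h⟩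
            · exact ⟨ha, hb⟩
        rw [this, Finset.card_insert_of_notMem (by simp)]
        push_cast; ring
      · rw [if_neg (fun h' => h h'.symm), sub_zero]
        congr 2
        ext v
        simp only [mem_filter, mem_univ, true_and, mem_insert, not_or]
        constructor
        · rintro ⟨⟨_, ha⟩, hb⟩; exact ⟨ha, hb⟩
        · rintro ⟨ha, hb⟩; exact ⟨⟨fun hv => h (hv ▸ hb), ha⟩, hb⟩
    rw [h1, h2]
    by_cases hM : Me G R x u
    · rw [if_pos hM, if_pos hM.1, if_neg hM.not_He]; ring
    · by_cases hH : He G R x u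
      · rw [if_neg hM, if_pos hH.1, if_pos hH]; ring
      · rw [if_neg hM, if_neg hH, if_neg (fun h => (adj_iff.1 h).elim hM hH)]; ring
  have e2 : (ic G (insert x Z) x : ℤ) = ∑ u ∈ Z, ((if He G R x u then (1 : ℤ) else 0)
      + (if Me G R x u then (1 : ℤ) else 0)) := by
    unfold ic
    rw [Finset.filter_insert, if_neg hxx, Finset.card_filter]
    push_cast
    refine Finset.sum_congr rfl fun u _ => ?_
    by_cases hM : Me G R x u
    · rw [if_pos hM, if_pos hM.1, if_neg hM.not_He]; ring
    · by_cases hH : He G R x u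
      · rw [if_neg hM, if_pos hH.1, if_pos hH]; ring
      · rw [if_neg hM, if_neg hH, if_neg (fun h => (adj_iff.1 h).elim hM hH)]; ring
  have e3 : (mo G R (insert x Z) x : ℤ) = mo G R Z x := by
    unfold mo
    congr 2
    ext v
    simp only [mem_filter, mem_univ, true_and, mem_insert, not_or]
    constructor
    · rintro ⟨⟨_, ha⟩, hb⟩; exact ⟨ha, hb⟩
    · rintro ⟨ha, hb⟩; exact ⟨⟨fun hv => by subst hv; exact hxx hb.1, ha⟩, hb⟩
  have e4 : (hc G R Z x : ℤ) = ∑ u ∈ Z, (if He G R x u then (1 : ℤ) else 0) := by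
    unfold hc
    rw [Finset.card_filter]
    push_cast
    rfl
  unfold sig
  rw [Finset.sum_insert hx, Finset.sum_congr rfl e1, e2, e3, e4, Finset.card_insert_of_notMem hx]
  simp only [Finset.sum_add_distrib, Finset.sum_sub_distrib]
  push_cast
  ring

lemma sig_insert_le {Z : Finset V} {x : V} (hx : x ∉ Z) {k l : ℕ} (hk : k ≤ hc G R Z x)
    (hl : l ≤ mo G R Z x) : sig G R (insert x Z) ≤ sig G R Z + 3 - 2 * k - 2 * l := by
  rw [sig_insert hx]
  have h1 : (k : ℤ) ≤ hc G R Z x := by exact_mod_cast hk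
  have h2 : (l : ℤ) ≤ mo G R Z x := by exact_mod_cast hl
  linarith

lemma one_le_hc {Z : Finset V} {x a : V} (ha : a ∈ Z) (h : He G R x a) : 1 ≤ hc G R Z x := by
  unfold hc
  exact Finset.card_pos.2 ⟨a, by simp [ha, h]⟩

lemma two_le_hc {Z : Finset V} {x a b : V} (ha : a ∈ Z) (hb : b ∈ Z) (hab : a ≠ b)
    (h1 : He G R x a) (h2 : He G R x b) : 2 ≤ hc G R Z x := by
  unfold hc
  exact Finset.one_lt_card.2 ⟨a, by simp [ha, h1], b, by simp [hb, h2], hab⟩

lemma three_le_hc {Z : Finset V} {x a b c : V} (ha : a ∈ Z) (hb : b ∈ Z) (hc' : c ∈ Z) (hab : a ≠ b)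
    (hac : a ≠ c) (hbc : b ≠ c) (h1 : He G R x a) (h2 : He G R x b) (h3 : He G R x c) :
    3 ≤ hc G R Z x := by
  unfold hc
  exact Finset.two_lt_card.2 ⟨a, by simp [ha, h1], b, by simp [hb, h2], c, by simp [hc', h3],
    hab, hac, hbc⟩

lemma one_le_mo {Z : Finset V} {x m : V} (hm : m ∉ Z) (h : Me G R x m) : 1 ≤ mo G R Z x := by
  unfold mo
  exact Finset.card_pos.2 ⟨m, by simp [hm, h]⟩

/-- Insert a vertex with an H-neighbour in the set: slack grows by at most one. -/
lemma sig_u1 {Z : Finset V} {x a : V} (hx : x ∉ Z) (ha : a ∈ Z) (h : He G R x a) :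
    sig G R (insert x Z) ≤ sig G R Z + 1 := by
  have := sig_insert_le (G := G) (R := R) hx (one_le_hc ha h) (Nat.zero_le _)
  push_cast at this; linarith

lemma sig_u2 {Z : Finset V} {x a b : V} (hx : x ∉ Z) (ha : a ∈ Z) (hb : b ∈ Z) (hab : a ≠ b)
    (h1 : He G R x a) (h2 : He G R x b) : sig G R (insert x Z) ≤ sig G R Z - 1 := by
  have := sig_insert_le (G := G) (R := R) hx (two_le_hc ha hb hab h1 h2) (Nat.zero_le _)
  push_cast at this; linarith

lemma sig_u3 {Z : Finset V} {x a b c : V} (hx : x ∉ Z) (ha : a ∈ Z) (hb : b ∈ Z) (hc' : c ∈ Z)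
    (hab : a ≠ b) (hac : a ≠ c) (hbc : b ≠ c) (h1 : He G R x a) (h2 : He G R x b)
    (h3 : He G R x c) : sig G R (insert x Z) ≤ sig G R Z - 3 := by
  have := sig_insert_le (G := G) (R := R) hx (three_le_hc ha hb hc' hab hac hbc h1 h2 h3)
    (Nat.zero_le _)
  push_cast at this; linarith

/-- Insert a covered vertex whose partner stays outside. -/
lemma sig_c0 {Z : Finset V} {x m : V} (hx : x ∉ Z) (hm : m ∉ Z) (h : Me G R x m) :
    sig G R (insert x Z) ≤ sig G R Z + 1 := by
  have := sig_insert_le (G := G) (R := R) (k := 0) hx (Nat.zero_le _) (one_le_mo hm h)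
  push_cast at this; linarith

lemma sig_c1 {Z : Finset V} {x m a : V} (hx : x ∉ Z) (hm : m ∉ Z) (h : Me G R x m) (ha : a ∈ Z)
    (h1 : He G R x a) : sig G R (insert x Z) ≤ sig G R Z - 1 := by
  have := sig_insert_le (G := G) (R := R) hx (one_le_hc ha h1) (one_le_mo hm h)
  push_cast at this; linarith

lemma sig_c2 {Z : Finset V} {x m a b : V} (hx : x ∉ Z) (hm : m ∉ Z) (h : Me G R x m) (ha : a ∈ Z)
    (hb : b ∈ Z) (hab : a ≠ b) (h1 : He G R x a) (h2 : He G R x b) :
    sig G R (insert x Z) ≤ sig G R Z - 3 := by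
  have := sig_insert_le (G := G) (R := R) hx (two_le_hc ha hb hab h1 h2) (one_le_mo hm h)
  push_cast at this; linarith

/-- M is a matching. -/
lemma ClassC.matching (hG : ClassC G R) {u v w : V} (h1 : Me G R u v) (h2 : Me G R u w) : v = w := by
  by_contra hne
  have h3 : 2 ≤ mo G R ∅ u := by
    unfold mo
    exact Finset.one_lt_card.2 ⟨v, by simp [h1], w, by simp [h2], hne⟩
  have h4 := sig_insert_le (G := G) (R := R) (Z := ∅) (x := u) (by simp) (Nat.zero_le _) h3
  have h5 := hG.sig0 (insert u ∅)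
  rw [sig_empty] at h4
  push_cast at h4
  linarith

/-- A covered vertex has at most one covered H-neighbour. -/
lemma ClassC.link_unique (hG : ClassC G R) {v v' a a' b b' : V} (hv : Me G R v v')
    (ha : Me G R a a') (hb : Me G R b b') (h1 : He G R v a) (h2 : He G R v b) : a = b := by
  by_contra hne
  have hRv := hv.2
  have hRa := ha.2
  have hRb := hb.2
  have h1' := h1.2
  have h2' := h2.2
  have hva : v ≠ a := h1.ne
  have hvb : v ≠ b := h2.ne
  have s0 := sig_c0 (G := G) (R := R) (Z := ∅) (x := v) (m := v') (by simp) (by simp) hv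
  have s1 := sig_c1 (G := G) (R := R) (Z := {v}) (x := a) (m := a') (a := v)
    (by simp [hva.symm]) (by
      simp only [mem_singleton]
      rintro rfl
      exact h1' (by rw [hRa])) ha (by simp) h1.symm
  have s2 := sig_c1 (G := G) (R := R) (Z := {a, v}) (x := b) (m := b') (a := v)
    (by simp [hvb.symm, Ne.symm hne]) (by
      simp only [mem_insert, mem_singleton, not_or]
      constructor
      · rintro rfl
        exact hG.tri v b' b h1.1 hb.1.symm h2.1
      · rintro rfl
        exact h2' (by rw [hRb])) hb (by simp) h2.symm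
  have s3 := hG.sig0 (insert b {a, v})
  rw [sig_empty] at s0
  have e0 : (insert v (∅ : Finset V)) = {v} := rfl
  rw [e0] at s0
  have e1 : (insert a ({v} : Finset V)) = {a, v} := rfl
  rw [e1] at s1
  linarith

/-- Fact (L): a neighbour `s` of a linked vertex `v` has at most one other covered neighbour. -/
lemma ClassC.factL (hG : ClassC G R) {v v' w w' s a a' b b' : V} (hv : Me G R v v')
    (hw : Me G R w w') (hvw : He G R v w) (hs : ¬ Cov G R s) (hvs : He G R v s)
    (ha : Me G R a a') (hb : Me G R b b') (hsa : He G R s a) (hsb : He G R s b)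
    (hav : a ≠ v) (hbv : b ≠ v) : a = b := by
  by_contra hne
  have r1 : R v ≠ R w := hvw.2
  have r2 : R v ≠ R s := hvs.2
  have r3 : R a = R v := (hvs.side2 hsa).symm
  have r4 : R b = R v := (hvs.side2 hsb).symm
  have r5 : R w = R w' := hw.2
  have r6 : R v = R v' := hv.2
  have r7 : R a = R a' := ha.2
  have r8 : R b = R b' := hb.2
  have hsv : s ≠ v := hvs.ne.symm
  have hsw : s ≠ w := fun h => hs (h ▸ hw.cov)
  have n1 : v' ≠ w := fun h => r1 (by rw [r6, h])
  have n2 : v' ≠ s := fun h => hs (h ▸ hv.cov')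
  have s0 := sig_c0 (G := G) (R := R) (Z := ∅) (x := v) (m := v') (by simp) (by simp) hv
  have s1 := sig_c1 (G := G) (R := R) (Z := {v}) (x := w) (m := w') (a := v)
    (by simp [hvw.ne.symm]) (by
      simp only [mem_singleton]
      rintro rfl; exact r1 (by rw [r5])) hw (by simp) hvw.symm
  have s2 := sig_u1 (G := G) (R := R) (Z := {w, v}) (x := s) (a := v)
    (by simp [hsv, hsw]) (by simp) hvs.symm
  have haw : a ≠ w := fun h => r1 (by rw [← r3, h])
  have hbw : b ≠ w := fun h => r1 (by rw [← r4, h])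
  have has : a ≠ s := fun h => hs (h ▸ ha.cov)
  have hbs : b ≠ s := fun h => hs (h ▸ hb.cov)
  have s3 := sig_c1 (G := G) (R := R) (Z := {s, w, v}) (x := a) (m := a') (a := s)
    (by simp [hav, haw, has]) (by
      simp only [mem_insert, mem_singleton, not_or]
      refine ⟨fun h => hs (h ▸ ha.cov'), fun h => r1 (by rw [← r3, r7, h]), fun h => ?_⟩
      subst h
      exact hG.tri a' s a hvs.1 hsa.1 ha.1.symm) ha (by simp) hsa.symm
  have s4 := sig_c1 (G := G) (R := R) (Z := {a, s, w, v}) (x := b) (m := b') (a := s)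
    (by simp [Ne.symm hne, hbs, hbw, hbv]) (by
      simp only [mem_insert, mem_singleton, not_or]
      refine ⟨fun h => ?_, fun h => hs (h ▸ hb.cov'), fun h => r1 (by rw [← r4, r8, h]),
        fun h => ?_⟩
      · subst h
        exact hG.tri s b' b hsa.1 hb.1.symm hsb.1
      · subst h
        exact hG.tri b' s b hvs.1 hsb.1 hb.1.symm) hb (by simp) hsb.symm
  have s5 := hG.sig0 (insert b {a, s, w, v})
  rw [sig_empty] at s0
  have e0 : (insert v (∅ : Finset V)) = {v} := rfl
  have e1 : (insert w ({v} : Finset V)) = {w, v} := rfl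
  have e2 : (insert s ({w, v} : Finset V)) = {s, w, v} := rfl
  have e3 : (insert a ({s, w, v} : Finset V)) = {a, s, w, v} := rfl
  rw [e0] at s0
  rw [e1] at s1
  rw [e2] at s2
  rw [e3] at s3
  linarith

end CLB.H95
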