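import Pool.Agent.Helper95_CLB.StaK

/-!
The predicates on statuses which are checked.
-/

set_option autoImplicit false

namespace CLB.H95

namespace Sta

/-- The status is won. -/
def gd (S : Sta) (N : ℕ) : Bool := S.wonk N || (Nat.beq S.kap 2 && (Nat.ble 3 N && S.tern))

/-- The exceptional statuses of the pattern `2 0 1 1`: the second fork is `{Y 1, X 3}` or `{X 1, Y 3}`. -/
def x1b (S : Sta) : Bool :=
  (!S.odd && (Nat.ble S.kap 1 && Nat.beq S.a0 0)) && ((Nat.beq S.a1 8 || Nat.beq S.a1 9) &&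
    ((Nat.beq S.b0 3 && Nat.beq S.b1 6) || (Nat.beq S.b0 2 && Nat.beq S.b1 7)))

/-- The same for the first fork. -/
def x1a (S : Sta) : Bool :=
  (!S.odd && (Nat.ble S.kap 1 && Nat.beq S.b0 0)) && ((Nat.beq S.b1 8 || Nat.beq S.b1 9) &&
    ((Nat.beq S.a0 3 && Nat.beq S.a1 6) || (Nat.beq S.a0 2 && Nat.beq S.a1 7)))

/-- The exceptional statuses of the pattern `x x x x`. -/
def x2 (S : Sta) : Bool :=
  (!S.odd && (Nat.beq S.kap 0 && (Nat.beq S.a0 0 && Nat.beq S.b0 0))) &&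
    ((Nat.beq S.a1 6 && Nat.beq S.b1 8) || (Nat.beq S.a1 8 && Nat.beq S.b1 6))

/-- The place is a leaf. -/
def lf (S : Sta) (a : ℕ) : Bool :=
  (Nat.beq S.a0 a || Nat.beq S.a1 a) || (Nat.beq S.b0 a || Nat.beq S.b1 a)

end Sta

end CLB.H95
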