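import Pool.Agent.Helper95_CLB.WinTn

/-!
The ternary window is won: contradiction.
-/

set_option autoImplicit false
set_option linter.unusedSectionVars false

namespace CLB.H95

open H3DA (Q neg nr)
open Finset Classical
open CLB.H3 (CExt Cat IsTwo Fits UPath he_of_unc cat_structure chn_side KTight exists_ktight no_cext
  Leaf cext_or pc pc_pos pc_le pc_lk pc_cov pc_two pc_one)
open CLB.H86.Gm (TVW TWin t1_win t2_win t3_win t4_win)

variable {V : Type*} {G : SimpleGraph V} {R : V → Bool} [Fintype V] {k r : ℕ} {x y X Y : ℕ → V}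
  {m : ℕ} {z c : ℕ → V} {f : V → Q} {N n : ℕ}

/-- The two vertices of the component at `X 1`, `X 3` and at `X 2`. -/
lemma trn_edges {m' : ℕ} {z' c' : ℕ → V} (hC : Cat G R m' z' c') (hT : Trn r X Y m' c') :
    (∃ w ∈ cSupp m' z', w ∈ prt G R (X 1) ∧ w ∈ prt G R (X 3) ∧
      ∀ v, G.Adj w v → Cov G R v → v = X 1 ∨ v = X 3) ∧ ∃ w ∈ cSupp m' z', w ∈ prt G R (X 2) := by
  obtain ⟨rfl, a, a', b, b', g1, g2, g3, g4, g5, g6, g7, g8, g9, g10, g11, g12, g13⟩ := hT
  have ha := cl_mem hC.pos (show a ≤ 2 + 1 by omega)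
  have hb := cl_mem hC.pos (show b ≤ 2 + 1 by omega)
  refine ⟨⟨z' (cl 2 a), mem_cSupp ha.1 ha.2, ?_, ?_, ?_⟩, z' (cl 2 b), mem_cSupp hb.1 hb.2, ?_⟩
  · rw [mem_prt, ← g10]; exact ⟨cat_adj_cl hC (by omega), hC.unc _ ha.1 ha.2⟩
  · rw [mem_prt, ← g11, g7]
    exact ⟨cat_adj_cl hC (by omega), by rw [← g7]; exact hC.unc _ ha.1 ha.2⟩
  · intro v hv hcv
    obtain ⟨j, j1, j2, j3⟩ := cat_port hC ha.1 ha.2 hv hcv
    subst j2
    have : j = a ∨ j = a' := by
      unfold cl at g7 j3
      split_ifs at g7 j3 <;> omega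
    rcases this with rfl | rfl
    · exact Or.inl g10
    · exact Or.inr g11
  · rw [mem_prt, ← g12]; exact ⟨cat_adj_cl hC (by omega), hC.unc _ hb.1 hb.2⟩

/-- **The ternary window.** -/
theorem tern_false (hG : ClassC G R) (hc : Crit G R) (hcat : Cat G R m z c) (hm : 6 ≤ m)
    (h : Chn G R k x y) (hend : ∀ w, ¬ Lk G R (x 1) w) (hN3 : 3 ≤ N) (hN4 : N ≤ 4) (hNk : N < k)
    (hkap : kapv G R N x y m z = 2) (hE : EndClean G R 3 x y m z)
    (hin : ∃ j ≤ m + 1, InC 3 x y (c j)) (ht : (rst G R N x y m z c).tern = true) : False := by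
  have hchN : Chn G R N x y := h.take (by omega) (by omega)
  have hch3 : Chn G R 3 x y := h.take (by omega) (by omega)
  obtain ⟨-, m0, z0, c0, k1, k2, k3⟩ := kapv_two hkap
  obtain ⟨f, D, w⟩ := wb_open hG hc hcat (by omega) h hend (r := 3) (by omega) (by omega) hin
  obtain ⟨p, hK⟩ := xkill_trn (f := f) (r := 3) hch3 k1 (by omega) k3 true (bd := bdz (cSupp m0 z0))
  have hall := xkill_all (m := m) (z := z) hG hch3 (by omega) w.off k1 k3.x2 hE true ⟨_, hK⟩
  have hbd : ∀ v w b, IsTwo G R w v b → 1 ≤ bdz (cSupp m0 z0) v w := by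
    intro v w b hT
    unfold bdz
    rw [if_neg]
    · norm_num
    · rintro ⟨i, i1, i2, rfl⟩
      exact isTwo_not_cat k1 i1 i2 hT
  obtain ⟨Φ, hcst, hT⟩ := w.walks (by norm_num) true hbd hall
  obtain ⟨b0, hb1, hb2⟩ := w.last hend ⟨_, h.lk 3 (by omega) (by omega)⟩ Φ
  -- the bounds
  obtain ⟨⟨w0, w0S, w0x1, w0x3, w0n⟩, w1, w1S, w1x2⟩ := trn_edges k1 k3
  have w0K : w0 ∉ cSupp m z := fun hi => k2 (cSupp_eq k1 hcat w0S hi)
  have w1K : w1 ∉ cSupp m z := fun hi => k2 (cSupp_eq k1 hcat w1S hi)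
  have x1 := bdz_sub (r := 3) (X := x) (Y := y) (m := m) true w0x1 w0K w0S
  have x2 := bdz_sub (r := 3) (X := x) (Y := y) (m := m) true w1x2 w1K w1S
  have x3 := bdz_sub (r := 3) (X := x) (Y := y) (m := m) true w0x3 w0K w0S
  have y1 := bdz_le (G := G) (R := R) (r := 3) (X := x) (Y := y) (m := m) (z := z)
    (S := cSupp m0 z0) true (y 1)
  have y2 := bdz_le (G := G) (R := R) (r := 3) (X := x) (Y := y) (m := m) (z := z)
    (S := cSupp m0 z0) true (y 2)
  have y3 := bdz_le (G := G) (R := R) (r := 3) (X := x) (Y := y) (m := m) (z := z)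
    (S := cSupp m0 z0) true (y 3)
  have a1 : chg G R 3 x y m z true (y 1) ≤ fp G R m z (y 1) := chg_le_fp true (y 1)
  have a2 : chg G R 3 x y m z true (y 2) ≤ fp G R m z (y 2) := chg_le_fp true (y 2)
  have cx1 := cap_x hG hcat h (i := 1) le_rfl (by omega)
  have cx2 := cap_x hG hcat h (i := 2) (by omega) (by omega)
  have cx3 := cap_x hG hcat h (i := 3) (by omega) (by omega)
  have cy1 := cap_y hG hcat h (i := 1) le_rfl (by omega)
  have cy2 := cap_y hG hcat h (i := 2) (by omega) (by omega)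
  have cy3 := cap_y hG hcat h (i := 3) (by omega) (by omega)
  rw [if_pos rfl] at cx1
  rw [if_neg (by norm_num)] at cx2 cx3
  have hlatey : chg G R 3 x y m z true (y 3) +
      (if (rst G R N x y m z c).fr 1 = true then 1 else 0) ≤ fp G R m z (y 3) := by
    have a3 : chg G R 3 x y m z true (y 3) ≤ fp G R m z (y 3) := chg_le_fp true (y 3)
    split_ifs with hfr
    · obtain ⟨u, u1, u2, u3⟩ := (rst_fr hfr).2.2.1
      rcases u3 with ⟨u3, u4⟩ | ⟨u3, u4⟩
      · exact chg_late (mem_prt.2 ⟨u4.symm, u2⟩) u1 ⟨x 1, u2, u4, u3,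
          fun e => h.xy 1 3 le_rfl (by omega) (by omega) (by omega) e.symm,
          InC.y (by omega) le_rfl, InC.x le_rfl (by omega), by
          unfold ltO
          rw [idx_x hch3 le_rfl (by omega), idx_y hch3 (by omega) le_rfl, if_pos rfl]
          norm_num⟩
      · exfalso
        have hx3 : Lk G R (x 3) (y 2) := (h.lk 2 (by omega) (by omega)).symm
        have e1 := Finset.card_le_one.1 (prt_card_lk hG hx3) w0 w0x3 u (mem_prt.2 ⟨u4.symm, u2⟩)
        subst e1
        rcases w0n _ u3 (h.cov (InC.y le_rfl (by omega))) with e | e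
        · exact h.xy 1 1 le_rfl (by omega) le_rfl (by omega) e.symm
        · exact h.xy 3 1 (by omega) (by omega) le_rfl (by omega) e.symm
    · omega
  -- the code data
  have hbon1 : (rst G R N x y m z c).bon 3 true 1 = 0 := by
    unfold Sta.bon; simp [Nat.ble]
  have hbon2 : (rst G R N x y m z c).bon 3 true 2 = 0 := by
    unfold Sta.bon; simp [Nat.ble]
  have hbon3 : (rst G R N x y m z c).bon 3 true 3 =
      if (rst G R N x y m z c).fr 1 = true then 1 else 0 := by
    unfold Sta.bon
    have e : (rst G R N x y m z c).kap = 2 := hkap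
    rw [if_pos rfl, e]
    simp [Nat.ble]
  have hlos : ∀ i, 1 ≤ i → i ≤ 3 → (rst G R N x y m z c).los 3 true i = 2 * (Sta.cap i -
      (rst G R N x y m z c).own i - (rst G R N x y m z c).bon 3 true i) +
      (if i = 3 then min (cnf 3 x y m c i) 1 else cnf 3 x y m c i) := by
    intro i h1 h2
    unfold Sta.los
    rw [cfn_eq hchN hN3 h1 (by omega)]
    by_cases hi : i = 3
    · rw [if_pos hi, if_pos (by simpa using hi)]
    · rw [if_neg hi, if_neg (by simpa using hi)]
  have l1 := hlos 1 le_rfl (by norm_num)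
  have l2 := hlos 2 (by norm_num) (by norm_num)
  have l3 := hlos 3 (by norm_num) (by norm_num)
  rw [hbon1, rst_own le_rfl (by omega), if_neg (by norm_num)] at l1
  rw [hbon2, rst_own (by norm_num) (by omega), if_neg (by norm_num)] at l2
  rw [hbon3, rst_own (by norm_num) hN3, if_pos rfl] at l3
  have cp1 : Sta.cap 1 = 3 := rfl
  have cp2 : Sta.cap 2 = 2 := rfl
  have cp3 : Sta.cap 3 = 2 := rfl
  rw [cp1] at l1
  rw [cp2] at l2
  rw [cp3] at l3
  have c1 := WB.card (m := m) (c := c) (f := f) (X := x) (Y := y) hend Φ (i := 1) (r := 3) (by norm_num)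
  have c2 := WB.card (m := m) (c := c) (f := f) (X := x) (Y := y) hend Φ (i := 2) (r := 3) (by norm_num)
  have q1 := hcst (x 1)
  have q2 := hcst (x 2)
  have q3 := hcst (x 3)
  have q4 := hcst (y 1)
  have q5 := hcst (y 2)
  have q6 := hcst (y 3)
  set A : ℕ → Finset Q := fun i => if i = 2 then (wls G R 3 x y m c f Φ 2).erase (neg p) else
    wls G R 3 x y m c f Φ i with hA
  have hA1 : A 1 = wls G R 3 x y m c f Φ 1 := by simp [hA]
  have hA3 : A 3 = wls G R 3 x y m c f Φ 3 := by simp [hA]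
  have hA2 : A 2 = (wls G R 3 x y m c f Φ 2).erase (neg p) := by simp [hA]
  have hAsub : ∀ i, A i ⊆ wls G R 3 x y m c f Φ i := by
    intro i
    by_cases hi : i = 2
    · rw [hi, hA2]; exact Finset.erase_subset _ _
    · simp only [hA]; rw [if_neg hi]
  have e2 : (wls G R 3 x y m c f Φ 2).card ≤ (A 2).card + 1 := by
    rw [hA2]; have := Finset.pred_card_le_card_erase (s := wls G R 3 x y m c f Φ 2) (a := neg p)
    omega
  have tight : ∀ rel : Bool, ((rst G R N x y m z c).uc 3 true 0 1).rel = true → rel = true →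
      ∀ mu, TVW rel A p mu → ∃ D', Tight D' (fun j => lbl 3 x y mu f (c j)) m := by
    intro rel hr1 hr2 mu hmu
    exact hT mu ⟨hmu.nwk, fun i h1 h2 => hAsub i (hmu.mem i h1 h2), fun i h1 h2 _ => by
      have : i = 1 := by omega
      subst this
      exact hmu.rel hr2, by
      have m2 := hmu.mem 2 (by norm_num) (by norm_num)
      rw [hA2, mem_erase] at m2
      rw [lbl_x hch3 (by norm_num) (by norm_num), lbl_x hch3 (by norm_num) (by norm_num),
        lbl_x hch3 (by norm_num) (by norm_num), sg_even (by norm_num), sg_odd (by norm_num),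
        sg_odd (by norm_num)]
      refine ⟨m2.1, ?_⟩
      rcases hmu.ter with h1 | h1
      · left; rw [h1]
      · right
        have : ∀ a b d : Q, add (add (neg a) b) (neg d) = add (add a b) d := by decide +kernel
        rw [this]; exact h1⟩
  have tight' : ∀ rel : Bool, (rel = true ∨ ((rst G R N x y m z c).uc 3 true 0 1).rel = false) →
      ∀ mu, TVW rel A p mu → ∃ D', Tight D' (fun j => lbl 3 x y mu f (c j)) m := by
    intro rel hr mu hmu
    exact hT mu ⟨hmu.nwk, fun i h1 h2 => hAsub i (hmu.mem i h1 h2), fun i h1 h2 h3 => by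
      have : i = 1 := by omega
      subst this
      rcases hr with hr | hr
      · exact hmu.rel hr
      · have := rel_of hcat (by omega) hchN hN3 hN4 (fun h => by omega) true 0 le_rfl le_rfl h3
        rw [hr] at this
        exact absurd this (by simp), by
      have m2 := hmu.mem 2 (by norm_num) (by norm_num)
      rw [hA2, mem_erase] at m2
      rw [lbl_x hch3 (by norm_num) (by norm_num), lbl_x hch3 (by norm_num) (by norm_num),
        lbl_x hch3 (by norm_num) (by norm_num), sg_even (by norm_num), sg_odd (by norm_num),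
        sg_odd (by norm_num)]
      refine ⟨m2.1, ?_⟩
      rcases hmu.ter with h1 | h1
      · left; rw [h1]
      · right
        have : ∀ a b d : Q, add (add (neg a) b) (neg d) = add (add a b) d := by decide +kernel
        rw [this]; exact h1⟩
  -- one game
  have game : ∀ s1 s2 s3 v rel, TWin s1 s2 s3 v rel → 1 ≤ v → v ≤ 3 →
      (rst G R N x y m z c).tok s1 s2 s3 v rel = true → False := by
    intro s1 s2 s3 v rel hW hv1 hv3 hok
    unfold Sta.tok at hok
    rw [Bool.and_eq_true, Bool.and_eq_true, Bool.and_eq_true, Bool.and_eq_true, Bool.and_eq_true,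
      Bool.or_eq_true] at hok
    obtain ⟨⟨⟨⟨o1, o2⟩, o3⟩, o4, o5⟩, o6⟩ := hok
    have o1 := Nat.le_of_ble_eq_true o1
    have o2 := Nat.le_of_ble_eq_true o2
    have o3 := Nat.le_of_ble_eq_true o3
    have o5' : rel = true ∨ ((rst G R N x y m z c).uc 3 true 0 1).rel = false := by
      rcases o5 with o5 | o5
      · exact Or.inl o5
      · right; simpa using o5
    unfold Sta.sml at o6
    rw [List.all_eq_true] at o6
    have g1 := Nat.le_of_ble_eq_true (o6 0 (by simp))
    have g2 := Nat.le_of_ble_eq_true (o6 1 (by simp))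
    have g3 := Nat.le_of_ble_eq_true (o6 2 (by simp))
    have t1 : (rst G R N x y m z c).tsz 1 = 8 - (rst G R N x y m z c).los 3 true 1 + 2 := by
      unfold Sta.tsz; simp
    have t2 : (rst G R N x y m z c).tsz 2 = 8 - (rst G R N x y m z c).los 3 true 2 + 1 := by
      unfold Sta.tsz; simp
    have t3 : (rst G R N x y m z c).tsz 3 = 8 - (rst G R N x y m z c).los 3 true 3 + 2 := by
      unfold Sta.tsz; simp
    rw [t1] at o1
    rw [t2] at o2
    rw [t3] at o3
    simp only [Nat.zero_add, Nat.reduceAdd] at g1 g2 g3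
    have htg' : (Nat.ble 1 ((rst G R N x y m z c).own v) && !(((plv N x y (c 0) / 2 == v) ||
      (plv N x y (c 1) / 2 == v)) && ((plv N x y (c m) / 2 == v) ||
      (plv N x y (c (m + 1)) / 2 == v)))) = true := o4
    rw [ind_eq hchN hv1 (by omega), ind_eq hchN hv1 (by omega), ind_eq hchN hv1 (by omega),
      ind_eq hchN hv1 (by omega), Bool.and_eq_true] at htg'
    have hseen : ∃ j ≤ m + 1, InU x y v (c j) := by
      have e1 := Nat.le_of_ble_eq_true htg'.1
      rw [rst_own hv1 (by omega)] at e1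
      by_cases e2 : 1 ≤ pc m c (x v)
      · obtain ⟨j, j1, j2⟩ := pc_pos.1 e2
        exact ⟨j, j1, Or.inl j2⟩
      · obtain ⟨j, j1, j2⟩ := pc_pos.1 (show 1 ≤ pc m c (y v) by omega)
        exact ⟨j, j1, Or.inr j2⟩
    have hLL : ¬ ((InU x y v (c 0) ∨ InU x y v (c 1)) ∧ (InU x y v (c m) ∨ InU x y v (c (m + 1)))) := by
      intro hcon
      have e2 := htg'.2
      unfold ind at e2
      have e3 : ((decide (InU x y v (c 0)) || decide (InU x y v (c 1))) &&
        (decide (InU x y v (c m)) || decide (InU x y v (c (m + 1))))) = true := by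
        rw [Bool.and_eq_true, Bool.or_eq_true, Bool.or_eq_true, decide_eq_true_iff, decide_eq_true_iff,
          decide_eq_true_iff, decide_eq_true_iff]
        exact hcon
      rw [e3] at e2
      exact absurd e2 (by simp)
    refine hW A b0 p ?_ ?_ ?_ ?_ ?_ ?_
    · rw [hA1]; omega
    · omega
    · rw [hA2]; simp
    · rw [hA3]; exact hb1
    · rw [hA3]; omega
    · intro mu mu' h1 h2 h3
      obtain ⟨D1, hD1⟩ := tight' rel o5' mu h1
      obtain ⟨D2, hD2⟩ := tight' rel o5' mu' h2
      exact win_one hG hcat (by omega) hch3 hv1 hv3 h3 hseen hLL hD1 hD2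
  unfold Sta.tern at ht
  rw [Bool.or_eq_true, Bool.or_eq_true, Bool.or_eq_true] at ht
  rcases ht with (ht | ht) | (ht | ht)
  · exact game _ _ _ _ _ t1_win (by norm_num) (by norm_num) ht
  · exact game _ _ _ _ _ t2_win (by norm_num) (by norm_num) ht
  · exact game _ _ _ _ _ t3_win (by norm_num) (by norm_num) ht
  · exact game _ _ _ _ _ t4_win (by norm_num) (by norm_num) ht

end CLB.H95
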