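import Pool.Agent.Helper95_CLB.TernF
import Pool.Agent.Helper86_DA.Cc

/-!
The status X1: a full unit, an unseen unit, a seen unit, a seen unit; the leaf ports of the first and the
third unit are in the same fork.
-/

set_option autoImplicit false
set_option linter.unusedSectionVars false

namespace CLB.H95

open H3DA (Q neg nr)
open Finset Classical
open CLB.H3 (CExt Cat IsTwo Fits UPath he_of_unc cat_structure chn_side KTight exists_ktight no_cext
  Leaf cext_or pc pc_pos pc_le pc_lk pc_cov pc_two pc_one cat_side_z)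
open CLB.H86.Gm (XVW XWin x1a_win x1b_win)

variable {V : Type*} {G : SimpleGraph V} {R : V → Bool} [Fintype V] {k r : ℕ} {x y X Y : ℕ → V}
  {m : ℕ} {z c : ℕ → V} {f : V → Q} {N n : ℕ}

/-- The labels of an inner port are fixed by its neighbours and the sum of the second fork. -/
lemma tight_sum {m : ℕ} {D D' : Ty} {s s' : ℕ → Q} (hT : Tight D s m) (hT' : Tight D' s' m) {i : ℕ}
    (h2 : 2 ≤ i) (him : i + 2 ≤ m) (hP : ∀ j ≤ m + 1, j ≠ i → j ≠ m → j ≠ m + 1 → s j = s' j)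
    (hsum : add (s m) (s (m + 1)) = add (s' m) (s' (m + 1))) : s i = s' i := by
  have hDD : D = D' := by
    rw [frk_add _ _ _ hT.2.2, frk_add _ _ _ hT'.2.2] at hsum
    exact altT_inj (wD_inj _ _ hsum)
  subst hDD
  have e3 := hP (i - 1) (by omega) (by omega) (by omega) (by omega)
  have e4 := hP (i + 1) (by omega) (by omega) (by omega) (by omega)
  have t1 := hT.2.1 (i - 1) (by omega) (by omega)
  have t2 := hT'.2.1 (i - 1) (by omega) (by omega)
  have t3 := hT.2.1 i (by omega) (by omega)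
  have t4 := hT'.2.1 i (by omega) (by omega)
  rw [show i - 1 + 1 = i by omega] at t1 t2
  have ea : altT D i = co (altT D (i - 1)) := by
    have := altT_succ D (i - 1)
    rwa [show i - 1 + 1 = i by omega] at this
  rw [← e3] at t2
  rw [ea] at t3 t4
  rw [← e4] at t4
  exact stp_pin _ _ _ _ _ t1 t2 t3 t4

/-- **The couple, exactly.** -/
theorem xkill_cpl {m' : ℕ} {z' c' : ℕ → V} (hC : Cat G R m' z' c')
    (hT : Cpl X r Y m' c') (o : Bool) {bd : V → V → ℕ} : ∃ (p q : Q) (PP : Finset (Q × Q)), PP.card ≤ 3 ∧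
    XKill G R r X Y f o bd (fun f' => f' (X 1) ≠ neg p ∧ f' (X 2) ≠ neg q ∧ (f' (X 1), f' (X 2)) ∉ PP)
      (cSupp m' z') (fun _ _ => ∅) := by
  obtain ⟨rfl, a, b, ha, hb, oa, ob, hab⟩ := hT
  -- the labels of the outer ports
  set pa := f (c' (1 - a)) with hpa
  set pb := f (c' (5 - b)) with hpb
  obtain ⟨D1, D2, D3, hD⟩ := couple_types pa pb
  have core : ∀ f' : V → Q, (∀ v, Cov G R v → ¬ InC r X Y v → f' v = f v) →
      f' (c' a) ≠ neg pa → f' (c' b) ≠ neg pb →
      (∀ D : Ty, f' (c' a) = leafL D pa → f' (c' b) = leafL D pb → D = D1 ∨ D = D2 ∨ D = D3 → False) →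
      ∃ g, Fits G R f' g (cSupp 2 z') := by
    intro f' e1 e2 e3 e4
    have qa : f' (c' (1 - a)) = pa := e1 _ (hC.cov _ (by omega)) oa
    have qb : f' (c' (5 - b)) = pb := e1 _ (hC.cov _ (by omega)) ob
    rw [← cext_iff_fits hC]
    have e01 : (f' (c' 0) = pa ∧ f' (c' 1) = f' (c' a)) ∨ (f' (c' 1) = pa ∧ f' (c' 0) = f' (c' a)) := by
      rcases ha with rfl | rfl
      · right; exact ⟨qa, rfl⟩
      · left; exact ⟨qa, rfl⟩
    have e23 : (f' (c' 2) = f' (c' b) ∧ f' (c' 3) = pb) ∨ (f' (c' 3) = f' (c' b) ∧ f' (c' 2) = pb) := by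
      rcases hb with rfl | rfl
      · left; exact ⟨rfl, qb⟩
      · right; exact ⟨rfl, qb⟩
    rw [cext_iff (by omega)]
    refine ⟨?_, ?_, ?_⟩
    · show f' (c' 0) ≠ neg (f' (c' 1))
      rcases e01 with ⟨a1, a2⟩ | ⟨a1, a2⟩
      · rw [a1, a2]; exact H3DA.ne_neg_symm e2
      · rw [a1, a2]; exact e2
    · show f' (c' 2) ≠ neg (f' (c' 3))
      rcases e23 with ⟨a1, a2⟩ | ⟨a1, a2⟩
      · rw [a1, a2]; exact e3
      · rw [a1, a2]; exact H3DA.ne_neg_symm e3
    · intro D hT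
      obtain ⟨t1, t2, t3⟩ := hT
      have t2' := t2 1 le_rfl (by omega)
      rw [altT_one] at t2'
      have t3' : frk D (f' (c' 2)) (f' (c' 3)) = true := by
        have : altT D (2 + 1) = D := by unfold altT; rw [if_pos (by omega)]
        rw [this] at t3
        exact t3
      have t1' : frk D (f' (c' 0)) (f' (c' 1)) = true := t1
      have t2'' : stp D (neg (f' (c' 1))) (f' (c' 2)) = true := t2'
      have s1 : stp D (neg (f' (c' 0))) (f' (c' 2)) = true := stp_frk' _ _ _ _ t1' t2''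
      have s2 : stp D (neg (f' (c' 1))) (f' (c' 3)) = true := stp_frk'' _ _ _ _ t2'' t3'
      have s3 : stp D (neg (f' (c' 0))) (f' (c' 3)) = true := stp_frk'' _ _ _ _ s1 t3'
      have ea : f' (c' a) = leafL D pa := by
        rcases e01 with ⟨a1, a2⟩ | ⟨a1, a2⟩
        · rw [← a2, ← a1]; exact frk_iff.1 t1'
        · rw [← a2, ← a1]; exact frk_iff'.1 t1'
      have eb : f' (c' b) = leafL D pb := by
        rcases e23 with ⟨a1, a2⟩ | ⟨a1, a2⟩
        · rw [← a1, ← a2]; exact frk_iff'.1 t3'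
        · rw [← a1, ← a2]; exact frk_iff.1 t3'
      have es : stp D (neg (f' (c' a))) (f' (c' b)) = true := by
        rcases e01 with ⟨a1, a2⟩ | ⟨a1, a2⟩ <;> rcases e23 with ⟨b1, b2⟩ | ⟨b1, b2⟩
        · rw [← a2, ← b1]; exact t2''
        · rw [← a2, ← b1]; exact s2
        · rw [← a2, ← b1]; exact s1
        · rw [← a2, ← b1]; exact s3
      rw [ea, eb] at es
      exact e4 D ea eb (hD D es)
  rcases hab with ⟨h1, h2⟩ | ⟨h1, h2⟩
  · refine ⟨pa, pb, {(leafL D1 pa, leafL D1 pb), (leafL D2 pa, leafL D2 pb), (leafL D3 pa, leafL D3 pb)},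
      Finset.card_le_three, ⟨by simp, fun _ _ _ _ _ _ _ _ _ _ => rfl, fun f' e1 _ _ ⟨g1, g2, g3⟩ => ?_⟩⟩
    refine core f' e1 (by rw [h1]; exact g1) (by rw [h2]; exact g2) (fun D d1 d2 d3 => ?_)
    apply g3
    rw [← h1, ← h2, d1, d2]
    rcases d3 with rfl | rfl | rfl <;> simp
  · refine ⟨pb, pa, {(leafL D1 pb, leafL D1 pa), (leafL D2 pb, leafL D2 pa), (leafL D3 pb, leafL D3 pa)},
      Finset.card_le_three, ⟨by simp, fun _ _ _ _ _ _ _ _ _ _ => rfl, fun f' e1 _ _ ⟨g1, g2, g3⟩ => ?_⟩⟩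
    refine core f' e1 (by rw [h1]; exact g2) (by rw [h2]; exact g1) (fun D d1 d2 d3 => ?_)
    apply g3
    rw [← h1, ← h2, d1, d2]
    rcases d3 with rfl | rfl | rfl <;> simp

/-- **The status X1**, the common fork is the second one. -/
theorem x1_core (hG : ClassC G R) (hc : Crit G R) (hcat : Cat G R m z c) (hm : 6 ≤ m)
    (h : Chn G R k x y) (hend : ∀ w, ¬ Lk G R (x 1) w) (hk : 4 ≤ k)
    (p1 : pc m c (x 1) = 1) (p2 : pc m c (y 1) = 1) (p3 : pc m c (x 2) = 0) (p4 : pc m c (y 2) = 0)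
    (p5 : pc m c (x 3) + pc m c (y 3) = 1)
    (hb : ((c m = y 1 ∧ c (m + 1) = x 3) ∨ (c m = x 3 ∧ c (m + 1) = y 1)) ∨
      ((c m = x 1 ∧ c (m + 1) = y 3) ∨ (c m = y 3 ∧ c (m + 1) = x 1)))
    (a0 : ¬ InC 3 x y (c 0)) (a1 : ¬ InC 3 x y (c 1)) (hT : ¬ HasTrn G R x y m z)
    (hE : EndClean G R 3 x y m z) : False := by
  have hch3 : Chn G R 3 x y := h.take (by omega) (by omega)
  -- the leaf letter and the inner letter of the first unit
  obtain ⟨v, v', w3, hvv, hv3⟩ : ∃ v v' w3 : V, ((v = x 1 ∧ v' = y 1) ∨ (v = y 1 ∧ v' = x 1)) ∧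
      ((c m = v ∧ c (m + 1) = w3) ∨ (c m = w3 ∧ c (m + 1) = v)) ∧
      ((v = x 1 ∧ w3 = y 3) ∨ (v = y 1 ∧ w3 = x 3)) := by
    rcases hb with (⟨e1, e2⟩ | ⟨e1, e2⟩) | (⟨e1, e2⟩ | ⟨e1, e2⟩)
    · exact ⟨y 1, x 1, x 3, Or.inr ⟨rfl, rfl⟩, Or.inl ⟨e1, e2⟩, Or.inr ⟨rfl, rfl⟩⟩
    · exact ⟨y 1, x 1, x 3, Or.inr ⟨rfl, rfl⟩, Or.inr ⟨e1, e2⟩, Or.inr ⟨rfl, rfl⟩⟩
    · exact ⟨x 1, y 1, y 3, Or.inl ⟨rfl, rfl⟩, Or.inl ⟨e1, e2⟩, Or.inl ⟨rfl, rfl⟩⟩
    · exact ⟨x 1, y 1, y 3, Or.inl ⟨rfl, rfl⟩, Or.inr ⟨e1, e2⟩, Or.inl ⟨rfl, rfl⟩⟩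
  obtain ⟨hfk, hw3⟩ := hv3
  have hxy1 : x 1 ≠ y 1 := h.xy 1 1 le_rfl (by omega) le_rfl (by omega)
  have hx13 : x 1 ≠ x 3 := fun e => by
    have := h.injx 1 3 le_rfl (by omega) (by omega) (by omega) e
    omega
  have hy13 : y 1 ≠ y 3 := fun e => by
    have := h.injy 1 3 le_rfl (by omega) (by omega) (by omega) e
    omega
  have hx1y3 : x 1 ≠ y 3 := h.xy 1 3 le_rfl (by omega) (by omega) (by omega)
  have hx3y1 : x 3 ≠ y 1 := h.xy 3 1 (by omega) (by omega) le_rfl (by omega)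
  have hv'ne : v' ≠ v ∧ v' ≠ w3 := by
    rcases hvv with ⟨rfl, rfl⟩ | ⟨rfl, rfl⟩
    · rcases hw3 with ⟨_, rfl⟩ | ⟨e, _⟩
      · exact ⟨hxy1.symm, hy13⟩
      · exact absurd e hxy1
    · rcases hw3 with ⟨e, _⟩ | ⟨_, rfl⟩
      · exact absurd e.symm hxy1
      · exact ⟨hxy1, hx13⟩
  have hpv' : pc m c v' = 1 := by rcases hvv with ⟨_, rfl⟩ | ⟨_, rfl⟩ <;> assumption
  have hpv : pc m c v = 1 := by rcases hvv with ⟨rfl, _⟩ | ⟨rfl, _⟩ <;> assumption
  have hin1 : InC 3 x y v' := by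
    rcases hvv with ⟨_, rfl⟩ | ⟨_, rfl⟩
    · exact InC.y le_rfl (by omega)
    · exact InC.x le_rfl (by omega)
  obtain ⟨i, hi1, hi2⟩ := pc_pos.1 (show 1 ≤ pc m c v' by omega)
  have i0 : i ≠ 0 := by rintro rfl; exact a0 (hi2 ▸ hin1)
  have i1 : i ≠ 1 := by rintro rfl; exact a1 (hi2 ▸ hin1)
  have im : i ≠ m := by
    rintro rfl
    rcases hfk with ⟨e, _⟩ | ⟨e, _⟩
    · exact hv'ne.1 (hi2.symm.trans e)
    · exact hv'ne.2 (hi2.symm.trans e)
  have im1 : i ≠ m + 1 := by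
    rintro rfl
    rcases hfk with ⟨_, e⟩ | ⟨_, e⟩
    · exact hv'ne.2 (hi2.symm.trans e)
    · exact hv'ne.1 (hi2.symm.trans e)
  -- parity
  have hpar : i + 1 ≠ m := by
    intro he
    have z1 := cat_side_z hcat i (by omega) (by omega)
    have z2 := cat_side_z hcat m (by omega) le_rfl
    have r1 := (he_of_unc (hcat.unc i (by omega) (by omega)) (hcat.adjc i (by omega) (by omega))).2
    have r2 := (he_of_unc (hcat.unc m (by omega) le_rfl) (hcat.adjc m (by omega) le_rfl)).2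
    have r3 := (he_of_unc (hcat.unc m (by omega) le_rfl) hcat.adjm).2
    have r4 : R v' = R v := by
      have hme := (h.me 1 le_rfl (by omega)).2
      rcases hvv with ⟨rfl, rfl⟩ | ⟨rfl, rfl⟩
      · exact hme.symm
      · exact hme
    have r5 : R (z m) ≠ R v := by
      rcases hfk with ⟨e, _⟩ | ⟨_, e⟩
      · rw [← e]; exact r2
      · rw [← e]; exact r3
    rw [hi2, r4] at r1
    have r6 : R (z i) = R (z m) := by
      revert r1 r5
      cases R (z i) <;> cases R (z m) <;> cases R v <;> simp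
    rw [z1, z2] at r6
    have : decide (i % 2 = 0) = decide (m % 2 = 0) := by
      revert r6
      cases R (z 1) <;> simp
    rw [decide_eq_decide] at this
    omega
  -- the ports in the window
  have hports : ∀ j ≤ m + 1, InC 3 x y (c j) → j = i ∨ j = m ∨ j = m + 1 := by
    intro j hj ⟨u, u1, u2, u3⟩
    have hu : u = 1 ∨ u = 2 ∨ u = 3 := by omega
    have hvw : ∀ a : V, pc m c a = 1 → ∀ j' ≤ m + 1, c j' = a → c j = a → j = j' := by
      intro a ha j' hj' e1 e2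
      exact pc_one (by omega) hj hj' e2 e1
    have hz2 : ∀ a : V, pc m c a = 0 → c j ≠ a := by
      intro a ha e
      have := pc_pos.2 ⟨j, hj, e⟩
      omega
    have hfm : c j = v → j = m ∨ j = m + 1 := by
      intro e
      rcases hfk with ⟨e1, _⟩ | ⟨_, e1⟩
      · exact Or.inl (hvw v hpv m (by omega) e1 e)
      · exact Or.inr (hvw v hpv (m + 1) le_rfl e1 e)
    have hfw : pc m c w3 = 1 → c j = w3 → j = m ∨ j = m + 1 := by
      intro hp e
      rcases hfk with ⟨_, e1⟩ | ⟨e1, _⟩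
      · exact Or.inr (hvw w3 hp (m + 1) le_rfl e1 e)
      · exact Or.inl (hvw w3 hp m (by omega) e1 e)
    have hpw3 : 1 ≤ pc m c w3 := by
      rcases hfk with ⟨_, e⟩ | ⟨e, _⟩
      · exact pc_pos.2 ⟨m + 1, le_rfl, e⟩
      · exact pc_pos.2 ⟨m, by omega, e⟩
    rcases hu with rfl | rfl | rfl
    · have : c j = v ∨ c j = v' := by
        rcases hvv with ⟨e1, e2⟩ | ⟨e1, e2⟩
        · rw [e1, e2]; exact u3
        · rw [e1, e2]; exact u3.symm
      rcases this with e | e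
      · exact Or.inr (hfm e)
      · exact Or.inl (hvw v' hpv' i hi1 hi2 e)
    · rcases u3 with e | e
      · exact absurd e (hz2 _ p3)
      · exact absurd e (hz2 _ p4)
    · right
      rcases hw3 with ⟨_, e3⟩ | ⟨_, e3⟩
      · rw [e3] at hpw3 hfw
        rcases u3 with e | e
        · exact absurd e (hz2 _ (by omega))
        · exact hfw (by omega) e
      · rw [e3] at hpw3 hfw
        rcases u3 with e | e
        · exact hfw (by omega) e
        · exact absurd e (hz2 _ (by omega))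
  -- the leaf ports
  have hu1 : ∀ j, InU x y 1 (c j) → j ≤ m + 1 → j = i ∨ j = m ∨ j = m + 1 := fun j hj hj' =>
    hports j hj' (hj.inC le_rfl (by omega))
  have hu3 : ∀ j, InU x y 3 (c j) → j ≤ m + 1 → j = i ∨ j = m ∨ j = m + 1 := fun j hj hj' =>
    hports j hj' (hj.inC (by omega) le_rfl)
  have hseen1 : ∃ j ≤ m + 1, InU x y 1 (c j) := ⟨i, hi1, by
    rcases hvv with ⟨_, e⟩ | ⟨_, e⟩
    · exact Or.inr (hi2.trans e)
    · exact Or.inl (hi2.trans e)⟩
  have hseen3 : ∃ j ≤ m + 1, InU x y 3 (c j) := by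
    rcases hfk with ⟨_, e⟩ | ⟨e, _⟩
    · refine ⟨m + 1, le_rfl, ?_⟩
      rcases hw3 with ⟨_, e'⟩ | ⟨_, e'⟩
      · exact Or.inr (e.trans e')
      · exact Or.inl (e.trans e')
    · refine ⟨m, by omega, ?_⟩
      rcases hw3 with ⟨_, e'⟩ | ⟨_, e'⟩
      · exact Or.inr (e.trans e')
      · exact Or.inl (e.trans e')
  have hLL1 : ¬ ((InU x y 1 (c 0) ∨ InU x y 1 (c 1)) ∧ (InU x y 1 (c m) ∨ InU x y 1 (c (m + 1)))) := by
    rintro ⟨e | e, _⟩
    · exact a0 (e.inC le_rfl (by omega))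
    · exact a1 (e.inC le_rfl (by omega))
  have hLL3 : ¬ ((InU x y 3 (c 0) ∨ InU x y 3 (c 1)) ∧ (InU x y 3 (c m) ∨ InU x y 3 (c (m + 1)))) := by
    rintro ⟨e | e, _⟩
    · exact a0 (e.inC (by omega) le_rfl)
    · exact a1 (e.inC (by omega) le_rfl)
  obtain ⟨f, D, w⟩ := wb_open hG hc hcat (by omega) h hend (r := 3) (by omega) (by omega)
    ⟨i, hi1, by rw [hi2]; exact hin1⟩
  -- no conflicts
  have hin3 : InC 3 x y v ∧ InC 3 x y w3 := by
    constructor
    · rcases hvv with ⟨rfl, _⟩ | ⟨rfl, _⟩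
      · exact InC.x le_rfl (by omega)
      · exact InC.y le_rfl (by omega)
    · rcases hw3 with ⟨_, rfl⟩ | ⟨_, rfl⟩
      · exact InC.y (by omega) le_rfl
      · exact InC.x (by omega) le_rfl
  have hcm : InC 3 x y (c m) ∧ InC 3 x y (c (m + 1)) := by
    rcases hfk with ⟨e1, e2⟩ | ⟨e1, e2⟩
    · rw [e1, e2]; exact hin3
    · rw [e1, e2]; exact ⟨hin3.2, hin3.1⟩
  have hcnf : ∀ u, 1 ≤ u → u ≤ 3 → cnf 3 x y m c u = 0 := by
    intro u u1 u2
    unfold cnf cn1
    rw [if_neg (fun e => a0 (e.1.inC u1 u2)), if_neg (fun e => a1 (e.1.inC u1 u2)),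
      if_neg (fun e => e.2 hcm.2), if_neg (fun e => e.2 hcm.1)]
  -- the sum rule
  have sumr : ∀ mu mu' : ℕ → Q, (∃ D', Tight D' (fun j => lbl 3 x y mu f (c j)) m) →
      (∃ D', Tight D' (fun j => lbl 3 x y mu' f (c j)) m) →
      add (mu 1) (mu 3) = add (mu' 1) (mu' 3) → mu 1 = mu' 1 := by
    rintro mu mu' ⟨D1, hD1⟩ ⟨D2, hD2⟩ hs
    have lv : ∀ nu : ℕ → Q, add (lbl 3 x y nu f (c m)) (lbl 3 x y nu f (c (m + 1))) =
        neg (add (nu 1) (nu 3)) := by
      intro nu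
      have hcm' : ∀ a b : Q, add a b = add b a := by decide
      have k1 : ∀ a b : Q, add (neg a) b = neg (add a b) := by decide
      have k2 : ∀ a b : Q, add a (neg b) = neg (add a b) := by decide
      have hs' : add (lbl 3 x y nu f v) (lbl 3 x y nu f w3) = neg (add (nu 1) (nu 3)) := by
        rcases hw3 with ⟨rfl, rfl⟩ | ⟨rfl, rfl⟩
        · rw [lbl_x hch3 le_rfl (by norm_num), lbl_y hch3 (by norm_num) le_rfl,
            sg_odd (by norm_num), sg_odd (by norm_num), H3DA.neg_neg, k1]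
        · rw [lbl_y hch3 le_rfl (by norm_num), lbl_x hch3 (by norm_num) le_rfl,
            sg_odd (by norm_num), sg_odd (by norm_num), H3DA.neg_neg, k2]
      rcases hfk with ⟨e1, e2⟩ | ⟨e1, e2⟩
      · rw [e1, e2]; exact hs'
      · rw [e1, e2, hcm']; exact hs'
    have e := tight_sum hD1 hD2 (i := i) (by omega) (by omega) (fun j hj j1 j2 j3 => by
      have : ¬ InC 3 x y (c j) := fun hin => by
        rcases hports j hj hin with e | e | e
        · exact j1 e
        · exact j2 e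
        · exact j3 e
      show lbl 3 x y mu f (c j) = lbl 3 x y mu' f (c j)
      rw [lbl_out this, lbl_out this]) (by
        show add (lbl 3 x y mu f (c m)) (lbl 3 x y mu f (c (m + 1))) =
          add (lbl 3 x y mu' f (c m)) (lbl 3 x y mu' f (c (m + 1)))
        rw [lv, lv, hs])
    have e' : lbl 3 x y mu f (c i) = lbl 3 x y mu' f (c i) := e
    have hU : InU x y 1 (c i) := by
      rcases hvv with ⟨_, e⟩ | ⟨_, e⟩
      · exact Or.inr (hi2.trans e)
      · exact Or.inl (hi2.trans e)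
    rw [lbl_ul hch3 le_rfl (by norm_num) hU, lbl_ul hch3 le_rfl (by norm_num) hU] at e'
    exact ul_inj x 1 (c i) e'
  -- one unit
  have one : ∀ u, 1 ≤ u → u ≤ 3 → (∃ j ≤ m + 1, InU x y u (c j)) →
      (¬ ((InU x y u (c 0) ∨ InU x y u (c 1)) ∧ (InU x y u (c m) ∨ InU x y u (c (m + 1))))) →
      ∀ mu mu' : ℕ → Q, (∃ D', Tight D' (fun j => lbl 3 x y mu f (c j)) m) →
      (∃ D', Tight D' (fun j => lbl 3 x y mu' f (c j)) m) →
      (∀ j, 1 ≤ j → j ≤ 3 → j ≠ u → mu j = mu' j) → mu u = mu' u := by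
    rintro u u1 u2 g1 g2 mu mu' ⟨D1, hD1⟩ ⟨D2, hD2⟩ hs
    exact win_one hG hcat (by omega) hch3 u1 u2 hs g1 g2 hD1 hD2
  have cx1 := cap_x hG hcat h (i := 1) le_rfl (by omega)
  have cx2 := cap_x hG hcat h (i := 2) (by omega) (by omega)
  have cx3 := cap_x hG hcat h (i := 3) (by omega) (by omega)
  have cy1 := cap_y hG hcat h (i := 1) le_rfl (by omega)
  have cy2 := cap_y hG hcat h (i := 2) (by omega) (by omega)
  have cy3 := cap_y hG hcat h (i := 3) (by omega) (by omega)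
  rw [if_pos rfl] at cx1
  rw [if_neg (by norm_num)] at cx2 cx3
  have n1 := hcnf 1 le_rfl (by norm_num)
  have n2 := hcnf 2 (by norm_num) (by norm_num)
  have n3 := hcnf 3 (by norm_num) le_rfl
  have g1 : chg G R 3 x y m z true (x 1) ≤ fp G R m z (x 1) := chg_le_fp true (x 1)
  have g2 : chg G R 3 x y m z true (x 2) ≤ fp G R m z (x 2) := chg_le_fp true (x 2)
  have g3 : chg G R 3 x y m z true (x 3) ≤ fp G R m z (x 3) := chg_le_fp true (x 3)
  have g4 : chg G R 3 x y m z true (y 1) ≤ fp G R m z (y 1) := chg_le_fp true (y 1)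
  have g5 : chg G R 3 x y m z true (y 2) ≤ fp G R m z (y 2) := chg_le_fp true (y 2)
  have g6 : chg G R 3 x y m z true (y 3) ≤ fp G R m z (y 3) := chg_le_fp true (y 3)
  by_cases hcp : HasCpl G R 3 x y m z
  · -- the couple
    obtain ⟨m0, z0, c0, k1, k2, k3⟩ := hcp
    obtain ⟨p, q, PP, hPP, hK⟩ := xkill_cpl (f := f) (r := 3) (X := x) (Y := y) k1 k3 true
      (bd := bdz (cSupp m0 z0))
    have hall := xkill_all (m := m) (z := z) hG hch3 (by omega) w.off k1 k3.x2 hE true ⟨_, hK⟩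
    have hbd : ∀ v w b, IsTwo G R w v b → 1 ≤ bdz (cSupp m0 z0) v w := by
      intro v w b hT
      unfold bdz
      rw [if_neg]
      · norm_num
      · rintro ⟨i, i1, i2, rfl⟩
        exact isTwo_not_cat k1 i1 i2 hT
    obtain ⟨Φ, hcst, hT0⟩ := w.walks (by norm_num) true hbd hall
    obtain ⟨b0, hb1, hb2⟩ := w.last hend ⟨_, h.lk 3 (by omega) (by omega)⟩ Φ
    have c1 := WB.card (m := m) (c := c) (f := f) (X := x) (Y := y) hend Φ (i := 1) (r := 3) (by norm_num)
    have c2 := WB.card (m := m) (c := c) (f := f) (X := x) (Y := y) hend Φ (i := 2) (r := 3) (by norm_num)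
    have q1 := hcst (x 1)
    have q2 := hcst (x 2)
    have q3 := hcst (x 3)
    have q4 := hcst (y 1)
    have q5 := hcst (y 2)
    have q6 := hcst (y 3)
    have b3 := bdz_le (G := G) (R := R) (r := 3) (X := x) (Y := y) (m := m) (z := z)
      (S := cSupp m0 z0) true (x 3)
    have b4 := bdz_le (G := G) (R := R) (r := 3) (X := x) (Y := y) (m := m) (z := z)
      (S := cSupp m0 z0) true (y 1)
    have b5 := bdz_le (G := G) (R := R) (r := 3) (X := x) (Y := y) (m := m) (z := z)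
      (S := cSupp m0 z0) true (y 2)
    have b6 := bdz_le (G := G) (R := R) (r := 3) (X := x) (Y := y) (m := m) (z := z)
      (S := cSupp m0 z0) true (y 3)
    have hmm : m0 = 2 := k3.1
    subst hmm
    have hedge : ∀ {j : ℕ} {a : V}, j ≤ 2 + 1 → c0 j = a → ∃ w ∈ cSupp 2 z0, w ∈ prt G R a := by
      intro j a hj e
      have hcl := cl_mem k1.pos hj
      refine ⟨z0 (cl 2 j), mem_cSupp hcl.1 hcl.2, ?_⟩
      rw [mem_prt, ← e]
      exact ⟨cat_adj_cl k1 hj, k1.unc _ hcl.1 hcl.2⟩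
    obtain ⟨s1, s2⟩ : (∃ w ∈ cSupp 2 z0, w ∈ prt G R (x 1)) ∧ ∃ w ∈ cSupp 2 z0, w ∈ prt G R (x 2) := by
      obtain ⟨-, a, b, ha, hb, -, -, hab⟩ := k3
      rcases hab with ⟨e1, e2⟩ | ⟨e1, e2⟩
      · exact ⟨hedge (by omega) e1, hedge (by omega) e2⟩
      · exact ⟨hedge (by omega) e2, hedge (by omega) e1⟩
    obtain ⟨w1, w1S, w1p⟩ := s1
    obtain ⟨w2, w2S, w2p⟩ := s2
    have b1 := bdz_sub (r := 3) (X := x) (Y := y) (m := m) true w1p
      (fun hi => k2 (cSupp_eq k1 hcat w1S hi)) w1S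
    have b2 := bdz_sub (r := 3) (X := x) (Y := y) (m := m) true w2p
      (fun hi => k2 (cSupp_eq k1 hcat w2S hi)) w2S
    set A : ℕ → Finset Q := fun i => if i = 1 then (wls G R 3 x y m c f Φ 1).erase p else
      if i = 2 then (wls G R 3 x y m c f Φ 2).erase (neg q) else wls G R 3 x y m c f Φ i with hA
    have hA1 : A 1 = (wls G R 3 x y m c f Φ 1).erase p := by simp [hA]
    have hA2 : A 2 = (wls G R 3 x y m c f Φ 2).erase (neg q) := by simp [hA]
    have hA3 : A 3 = wls G R 3 x y m c f Φ 3 := by simp [hA]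
    have hAsub : ∀ i, A i ⊆ wls G R 3 x y m c f Φ i := by
      intro i
      by_cases hi : i = 1
      · rw [hi, hA1]; exact Finset.erase_subset _ _
      · by_cases hi2 : i = 2
        · rw [hi2, hA2]; exact Finset.erase_subset _ _
        · simp only [hA]; rw [if_neg hi, if_neg hi2]
    have e1 : (wls G R 3 x y m c f Φ 1).card ≤ (A 1).card + 1 := by
      rw [hA1]; have := Finset.pred_card_le_card_erase (s := wls G R 3 x y m c f Φ 1) (a := p)
      omega
    have e2 : (wls G R 3 x y m c f Φ 2).card ≤ (A 2).card + 1 := by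
      rw [hA2]; have := Finset.pred_card_le_card_erase (s := wls G R 3 x y m c f Φ 2) (a := neg q)
      omega
    have tight : ∀ mu, XVW A (PP.image (fun P => (neg P.1, P.2))) mu →
        ∃ D', Tight D' (fun j => lbl 3 x y mu f (c j)) m := by
      intro mu hmu
      refine hT0 mu ⟨hmu.nwk, fun i h1 h2 => hAsub i (hmu.mem i h1 h2), fun i h1 h2 _ => by
        have : i = 1 := by omega
        subst this
        exact hmu.rel, ?_⟩
      have m1 := hmu.mem 1 le_rfl (by norm_num)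
      have m2 := hmu.mem 2 (by norm_num) (by norm_num)
      rw [hA1, mem_erase] at m1
      rw [hA2, mem_erase] at m2
      rw [lbl_x hch3 le_rfl (by norm_num), lbl_x hch3 (by norm_num) (by norm_num),
        sg_odd (t := 1) (by norm_num), sg_even (t := 2) (by norm_num)]
      refine ⟨fun e => m1.1 (H3DA.neg_inj e), m2.1, fun hmem => hmu.pp ?_⟩
      rw [mem_image]
      exact ⟨(neg (mu 1), mu 2), hmem, Prod.ext (H3DA.neg_neg _) rfl⟩
    refine x1b_win A b0 (PP.image (fun P => (neg P.1, P.2))) ?_ ?_ ?_ ?_ ?_ ?_ ?_ ?_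
    · rw [hA1] at e1 ⊢; omega
    · rw [hA2] at e2 ⊢; omega
    · rw [hA3]; exact hb1
    · rw [hA3]; omega
    · exact Finset.card_image_le.trans hPP
    · intro mu mu' h1 h2 h3 h4
      exact one 1 le_rfl (by norm_num) hseen1 hLL1 mu mu' (tight mu h1) (tight mu' h2) (fun j j1 j2 j3 => by
        have : j = 2 ∨ j = 3 := by omega
        rcases this with rfl | rfl <;> assumption)
    · intro mu mu' h1 h2 h3 h4
      exact one 3 (by norm_num) le_rfl hseen3 hLL3 mu mu' (tight mu h1) (tight mu' h2) (fun j j1 j2 j3 => by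
        have : j = 1 ∨ j = 2 := by omega
        rcases this with rfl | rfl <;> assumption)
    · intro mu mu' h1 h2 h3
      exact sumr mu mu' (tight mu h1) (tight mu' h2) h3
  · -- no couple
    have hcl : CleanC G R 3 x y m z := by
      intro m' z' c' hC hne hex
      obtain ⟨e1, e2⟩ := hE m' z' c' hC hne hex
      refine ⟨e1, fun hm2 => ?_⟩
      rcases e2 hm2 with h1 | ⟨_, h1⟩ | ⟨_, h1⟩ | ⟨h1, _⟩
      · exact Or.inr h1
      · exact absurd ⟨m', z', c', hC, hne, h1⟩ hcp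
      · exact absurd ⟨m', z', c', hC, hne, h1⟩ hT
      · omega
    obtain ⟨P, hP⟩ := ekill_clean w.hG w.ch w.off hcl true
    obtain ⟨Φ, hcst, hT0⟩ := w.walks (by norm_num) true (fun _ _ _ _ => by norm_num) hP
    obtain ⟨b0, hb1, hb2⟩ := w.last hend ⟨_, h.lk 3 (by omega) (by omega)⟩ Φ
    have c1 := WB.card (m := m) (c := c) (f := f) (X := x) (Y := y) hend Φ (i := 1) (r := 3) (by norm_num)
    have c2 := WB.card (m := m) (c := c) (f := f) (X := x) (Y := y) hend Φ (i := 2) (r := 3) (by norm_num)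
    have q1 := hcst (x 1)
    have q2 := hcst (x 2)
    have q3 := hcst (x 3)
    have q4 := hcst (y 1)
    have q5 := hcst (y 2)
    have q6 := hcst (y 3)
    rw [chb_two] at q1 q2 q3 q4 q5 q6
    have tight : ∀ mu, XVW (wls G R 3 x y m c f Φ) ∅ mu →
        ∃ D', Tight D' (fun j => lbl 3 x y mu f (c j)) m := by
      intro mu hmu
      exact hT0 mu ⟨hmu.nwk, fun i h1 h2 => hmu.mem i h1 h2, fun i h1 h2 _ => by
        have : i = 1 := by omega
        subst this
        exact hmu.rel, fun _ hH => absurd hH hcp⟩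
    refine x1a_win (wls G R 3 x y m c f Φ) b0 ∅ ?_ ?_ ?_ ?_ ?_ ?_ ?_ ?_
    · omega
    · omega
    · exact hb1
    · omega
    · simp
    · intro mu mu' h1 h2 h3 h4
      exact one 1 le_rfl (by norm_num) hseen1 hLL1 mu mu' (tight mu h1) (tight mu' h2) (fun j j1 j2 j3 => by
        have : j = 2 ∨ j = 3 := by omega
        rcases this with rfl | rfl <;> assumption)
    · intro mu mu' h1 h2 h3 h4
      exact one 3 (by norm_num) le_rfl hseen3 hLL3 mu mu' (tight mu h1) (tight mu' h2) (fun j j1 j2 j3 => by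
        have : j = 1 ∨ j = 2 := by omega
        rcases this with rfl | rfl <;> assumption)
    · intro mu mu' h1 h2 h3
      exact sumr mu mu' (tight mu h1) (tight mu' h2) h3

end CLB.H95
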