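import Pool.Agent.Helper95_CLB.StaL
import Pool.Agent.Helper95_CLB.X1F
import Pool.Agent.Helper95_CLB.TernF
import Pool.Agent.Helper95_CLB.StaP
import Pool.Agent.Helper62_DA.EndC
import Pool.Agent.Helper3_DA.NoGl
import Pool.Agent.Helper86_DA.Cc

/-!
The windows at the left end of an open chain: the statuses of a pattern.
-/

set_option autoImplicit false
set_option linter.unusedSectionVars false

namespace CLB.H95

open H3DA (Q neg nr)
open Finset Classical
open CLB.H3 (CExt Cat IsTwo Fits UPath pc pc_pos pc_le pc_lk pc_cov pc_two pc_one outN total_ports ltr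
  NoG wt_ltr)
open CLB.H3.Wd (pt wt)

variable {V : Type*} {G : SimpleGraph V} {R : V → Bool} [Fintype V] {k r : ℕ} {x y X Y : ℕ → V}
  {m : ℕ} {z c : ℕ → V} {f : V → Q} {N n : ℕ}

/-! ### Exchange of the two ports of a fork -/

def s0 (j : ℕ) : ℕ := if j = 0 then 1 else if j = 1 then 0 else j

def sm (m j : ℕ) : ℕ := if j = m then m + 1 else if j = m + 1 then m else j

lemma pc_inv {s : ℕ → ℕ} (h1 : ∀ j ≤ m + 1, s (s j) = j) (h2 : ∀ j ≤ m + 1, s j ≤ m + 1) (v : V) :
    pc m (fun j => c (s j)) v = pc m c v := by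
  unfold pc
  refine Finset.card_bij (fun j _ => s j) ?_ ?_ ?_
  · intro j hj
    rw [mem_filter, mem_range] at hj ⊢
    have := h2 j (by omega)
    exact ⟨by omega, hj.2⟩
  · intro i hi j hj he
    rw [mem_filter, mem_range] at hi hj
    have := congrArg s he
    rwa [h1 i (by omega), h1 j (by omega)] at this
  · intro j hj
    rw [mem_filter, mem_range] at hj
    refine ⟨s j, ?_, h1 j (by omega)⟩
    rw [mem_filter, mem_range]
    have := h2 j (by omega)
    refine ⟨by omega, ?_⟩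
    show c (s (s j)) = v
    rw [h1 j (by omega)]; exact hj.2

lemma s0_inv (j : ℕ) : s0 (s0 j) = j := by
  unfold s0
  by_cases h0 : j = 0
  · subst h0; simp
  · by_cases h1 : j = 1
    · subst h1; simp
    · rw [if_neg h0, if_neg h1, if_neg h0, if_neg h1]

lemma sm_inv (j : ℕ) : sm m (sm m j) = j := by unfold sm; split_ifs <;> omega

lemma s0_le (hm : 2 ≤ m) (j : ℕ) (hj : j ≤ m + 1) : s0 j ≤ m + 1 := by unfold s0; split_ifs <;> omega

lemma sm_le (j : ℕ) (hj : j ≤ m + 1) : sm m j ≤ m + 1 := by unfold sm; split_ifs <;> omega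

lemma s0_ge {j : ℕ} (h : 2 ≤ j) : s0 j = j := by unfold s0; split_ifs <;> omega

lemma sm_lt {j : ℕ} (h : j < m) : sm m j = j := by unfold sm; split_ifs <;> omega

lemma sm_m : sm m m = m + 1 := by unfold sm; rw [if_pos rfl]

lemma sm_m1 : sm m (m + 1) = m := by unfold sm; rw [if_neg (by omega), if_pos rfl]

lemma cat_s0 (h : Cat G R m z c) (hm : 2 ≤ m) : Cat G R m z (fun j => c (s0 j)) where
  pos := h.pos
  inj := h.inj
  unc := h.unc
  cov j hj := h.cov _ (s0_le hm j hj)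
  adjz := h.adjz
  adjc i h1 h2 := by
    by_cases hi : i = 1
    · subst hi; exact h.adj0
    · show G.Adj (z i) (c (s0 i))
      rw [s0_ge (by omega)]; exact h.adjc i h1 h2
  adj0 := h.adjc 1 le_rfl (by omega)
  adjm := by
    show G.Adj (z m) (c (s0 (m + 1)))
    rw [s0_ge (by omega)]; exact h.adjm
  ne0 := h.ne0.symm
  nem := by
    show c (s0 m) ≠ c (s0 (m + 1))
    rw [s0_ge hm, s0_ge (by omega)]; exact h.nem
  ne1 hm1 := by omega
  nbr i h1 h2 w hw := by
    rcases h.nbr i h1 h2 w hw with e | e | e | e | e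
    · by_cases hi : i = 1
      · subst hi
        exact Or.inr (Or.inl ⟨rfl, e⟩)
      · left
        show w = c (s0 i)
        rw [s0_ge (by omega)]; exact e
    · left
      obtain ⟨rfl, e⟩ := e
      exact e
    · right; right; left
      refine ⟨e.1, ?_⟩
      show w = c (s0 (m + 1))
      rw [s0_ge (by omega)]; exact e.2
    · exact Or.inr (Or.inr (Or.inr (Or.inl e)))
    · exact Or.inr (Or.inr (Or.inr (Or.inr e)))

lemma cat_sm (h : Cat G R m z c) (hm : 2 ≤ m) : Cat G R m z (fun j => c (sm m j)) where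
  pos := h.pos
  inj := h.inj
  unc := h.unc
  cov j hj := h.cov _ (sm_le j hj)
  adjz := h.adjz
  adjc i h1 h2 := by
    show G.Adj (z i) (c (sm m i))
    by_cases hi : i = m
    · rw [hi, sm_m]; exact h.adjm
    · rw [sm_lt (by omega)]; exact h.adjc i h1 h2
  adj0 := by
    show G.Adj (z 1) (c (sm m 0))
    rw [sm_lt (by omega)]; exact h.adj0
  adjm := by
    show G.Adj (z m) (c (sm m (m + 1)))
    rw [sm_m1]; exact h.adjc m (by omega) le_rfl
  ne0 := by
    show c (sm m 0) ≠ c (sm m 1)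
    rw [sm_lt (by omega), sm_lt (by omega)]; exact h.ne0
  nem := by
    show c (sm m m) ≠ c (sm m (m + 1))
    rw [sm_m, sm_m1]; exact h.nem.symm
  ne1 hm1 := by omega
  nbr i h1 h2 w hw := by
    show w = c (sm m i) ∨ (i = 1 ∧ w = c (sm m 0)) ∨ (i = m ∧ w = c (sm m (m + 1))) ∨ _ ∨ _
    rw [sm_m1, sm_lt (show 0 < m by omega)]
    rcases h.nbr i h1 h2 w hw with e | e | e | e | e
    · by_cases hi : i = m
      · exact Or.inr (Or.inr (Or.inl ⟨hi, by rw [← hi]; exact e⟩))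
      · left; rw [sm_lt (by omega)]; exact e
    · exact Or.inr (Or.inl e)
    · left
      rw [e.1, sm_m]; exact e.2
    · exact Or.inr (Or.inr (Or.inr (Or.inl e)))
    · exact Or.inr (Or.inr (Or.inr (Or.inr e)))

/-- The same caterpillar with other names of the leaf ports. -/
structure Ren (m : ℕ) (c c' : ℕ → V) : Prop where
  pc : ∀ v, CLB.H3.pc m c' v = CLB.H3.pc m c v
  f0 : (c' 0 = c 0 ∧ c' 1 = c 1) ∨ (c' 0 = c 1 ∧ c' 1 = c 0)
  fm : (c' m = c m ∧ c' (m + 1) = c (m + 1)) ∨ (c' m = c (m + 1) ∧ c' (m + 1) = c m)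

theorem cat_ord (hcat : Cat G R m z c) (hm : 2 ≤ m) (g : V → ℕ) : ∃ c' : ℕ → V, Cat G R m z c' ∧
    g (c' 0) ≤ g (c' 1) ∧ g (c' m) ≤ g (c' (m + 1)) ∧ Ren m c c' := by
  obtain ⟨c1, k1, k2, k3, k4, k5⟩ : ∃ c1 : ℕ → V, Cat G R m z c1 ∧ g (c1 0) ≤ g (c1 1) ∧
      (∀ v, pc m c1 v = pc m c v) ∧ ((c1 0 = c 0 ∧ c1 1 = c 1) ∨ (c1 0 = c 1 ∧ c1 1 = c 0)) ∧
      ∀ j, 2 ≤ j → c1 j = c j := by
    rcases le_total (g (c 0)) (g (c 1)) with h1 | h1
    · exact ⟨c, hcat, h1, fun _ => rfl, Or.inl ⟨rfl, rfl⟩, fun _ _ => rfl⟩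
    · refine ⟨_, cat_s0 hcat hm, h1, fun v => pc_inv (fun j _ => s0_inv j) (s0_le hm) v, Or.inr ⟨rfl, rfl⟩,
        fun j hj => ?_⟩
      show c (s0 j) = c j
      rw [s0_ge hj]
  rcases le_total (g (c1 m)) (g (c1 (m + 1))) with h1 | h1
  · exact ⟨c1, k1, k2, h1, ⟨k3, k4, Or.inl ⟨k5 m hm, k5 (m + 1) (by omega)⟩⟩⟩
  · refine ⟨_, cat_sm k1 hm, ?_, ?_, ⟨fun v => ?_, ?_, Or.inr ⟨?_, ?_⟩⟩⟩
    · show g (c1 (sm m 0)) ≤ g (c1 (sm m 1))
      rw [sm_lt (by omega), sm_lt (by omega)]; exact k2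
    · show g (c1 (sm m m)) ≤ g (c1 (sm m (m + 1)))
      rw [sm_m, sm_m1]; exact h1
    · rw [pc_inv (fun j _ => sm_inv j) sm_le, k3]
    · show (c1 (sm m 0) = _ ∧ c1 (sm m 1) = _) ∨ (c1 (sm m 0) = _ ∧ c1 (sm m 1) = _)
      rw [sm_lt (by omega), sm_lt (by omega)]; exact k4
    · show c1 (sm m m) = _
      rw [sm_m]; exact k5 _ (by omega)
    · show c1 (sm m (m + 1)) = _
      rw [sm_m1]; exact k5 _ hm

/-- A port of one is a port of the other. -/
lemma Ren.port {c' : ℕ → V} (h : Ren m c c') {v : V} (hv : ∃ j ≤ m + 1, c j = v) :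
    ∃ j ≤ m + 1, c' j = v := by
  rw [← pc_pos] at hv ⊢
  rw [h.pc]; exact hv

/-! ### The statuses -/

/-- The data of an end. -/
structure EH (G : SimpleGraph V) (R : V → Bool) (k : ℕ) (x y : ℕ → V) (m : ℕ) (z c : ℕ → V) :
    Prop where
  hG : ClassC G R
  hc : Crit G R
  h : Chn G R k x y
  cat : Cat G R m z c
  hm : 6 ≤ m
  ends : (∀ w, ¬ Lk G R (x 1) w) ∧ ∀ w, ¬ Lk G R (y k) w
  hno : NoG k x y m c

/-- A won status. -/
theorem gd_false (E : EH G R k x y m z c) (hN2 : 2 ≤ N) (hN4 : N ≤ 4) (hNk : N < k)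
    (hE : ∀ n, 1 ≤ n → n ≤ N → EndClean G R n x y m z) (h1 : ∃ j ≤ m + 1, InC 1 x y (c j))
    (hg : (rst G R N x y m z c).gd N = true) : False := by
  have hin : ∀ n, 1 ≤ n → ∃ j ≤ m + 1, InC n x y (c j) := by
    intro n hn
    obtain ⟨j, hj, h2⟩ := h1
    exact ⟨j, hj, h2.mono hn⟩
  unfold Sta.gd at hg
  rw [Bool.or_eq_true, Bool.and_eq_true, Bool.and_eq_true] at hg
  rcases hg with hg | ⟨g1, g2, g3⟩
  · obtain ⟨n, o, ps, n1, n2, n3, n4, n5, n6⟩ := Sta.wonk_win hN4 hg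
    exact rst_false E.hG E.hc E.cat E.hm E.h E.ends.1 hN2 hN4 hNk n1 n2 n3 (hE n n1 n2) (hin n n1)
      n4 n5 n6
  · have g2 := Nat.le_of_ble_eq_true g2
    exact tern_false E.hG E.hc E.cat E.hm E.h E.ends.1 g2 hN4 hNk (Nat.eq_of_beq_eq_true g1)
      (hE 3 (by norm_num) g2) (hin 3 (by norm_num)) g3

/-- The number of ports of a pattern. -/
def ptw (a : ℕ) : ℕ := if a = 0 then 0 else if a = 1 then 1 else 2

lemma wt_pt (l : ℕ) : wt l = ptw (pt l) := by
  unfold ptw pt wt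
  split_ifs <;> omega

/-- The ports in the window. -/
lemma own_sum (h : Chn G R k x y) (h1 : 1 ≤ n) (h2 : n ≤ k) :
    ((range (m + 2)).filter (fun j => InC n x y (c j))).card =
      ∑ i ∈ Icc 1 n, (pc m c (x i) + pc m c (y i)) := by
  have h3 := total_ports (m := m) (c := c) (h.take h1 h2)
  have h4 : outN n x y m c + ((range (m + 2)).filter (fun j => InC n x y (c j))).card = m + 2 := by
    have := Finset.card_filter_add_card_filter_not (s := range (m + 2)) (fun j => ¬ InC n x y (c j))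
    simp only [not_not] at this
    rw [card_range] at this
    exact this
  omega

/-- The window of a pattern has enough ports. -/
def okP (p : List ℕ) : Bool :=
  (Nat.blt p.length 3 || Nat.ble 2 (ptw (p.getD 0 0) + ptw (p.getD 1 0) + ptw (p.getD 2 0))) &&
  (Nat.blt p.length 4 ||
    Nat.ble 4 (ptw (p.getD 0 0) + ptw (p.getD 1 0) + ptw (p.getD 2 0) + ptw (p.getD 3 0)))

lemma clean_pat (E : EH G R k x y m z c) {p : List ℕ} (hp4 : p.length ≤ 4) (hpk : p.length < k)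
    (hk : (p.length ≤ 3 ∧ 5 ≤ k) ∨ 7 ≤ k ∨ (p.length = 2 ∧ 4 ≤ k ∧ p.getD 1 0 = 2))
    (hpt : ∀ i (hi : i < p.length), pt (ltr m c x y (i + 1)) = p[i]) (ho : okP p = true) :
    ∀ n, 1 ≤ n → n ≤ p.length → EndClean G R n x y m z := by
  intro n hn1 hn
  have hw : ∀ i, 1 ≤ i → i ≤ p.length → pc m c (x i) + pc m c (y i) = ptw (p.getD (i - 1) 0) := by
    intro i h1 h2
    have e := wt_ltr E.hG E.cat E.h E.hno h1 (by omega : i ≤ k)
    have e2 := hpt (i - 1) (by omega)
    rw [show i - 1 + 1 = i by omega] at e2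
    rw [← e, wt_pt, e2, List.getD_eq_getElem _ _ (by omega)]
  by_cases hk' : (p.length ≤ 3 ∧ 5 ≤ k) ∨ 7 ≤ k
  · refine CLB.H62.endClean_of E.hG E.hc E.h E.ends E.cat (by omega) ?_
    rw [own_sum E.h hn1 (by omega)]
    unfold okP at ho
    rw [Bool.and_eq_true, Bool.or_eq_true, Bool.or_eq_true] at ho
    obtain ⟨o1, o2⟩ := ho
    have hn' : n = 1 ∨ n = 2 ∨ n = 3 ∨ n = 4 := by omega
    rcases hn' with rfl | rfl | rfl | rfl
    · omega
    · omega
    · have t1 := hw 1 le_rfl (by omega)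
      have t2 := hw 2 (by norm_num) (by omega)
      have t3 := hw 3 (by norm_num) (by omega)
      rcases o1 with o1 | o1
      · rw [Nat.blt_eq] at o1
        omega
      · have o1 := Nat.le_of_ble_eq_true o1
        rw [show Icc 1 3 = {1, 2, 3} by decide, sum_insert (by decide), sum_insert (by decide),
          sum_singleton]
        simp only [Nat.sub_self, show 2 - 1 = 1 from rfl, show 3 - 1 = 2 from rfl] at t1 t2 t3
        omega
    · have t1 := hw 1 le_rfl (by omega)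
      have t2 := hw 2 (by norm_num) (by omega)
      have t3 := hw 3 (by norm_num) (by omega)
      have t4 := hw 4 (by norm_num) (by omega)
      rcases o2 with o1 | o1
      · rw [Nat.blt_eq] at o1
        omega
      · have o1 := Nat.le_of_ble_eq_true o1
        rw [show Icc 1 4 = {1, 2, 3, 4} by decide, sum_insert (by decide), sum_insert (by decide),
          sum_insert (by decide), sum_singleton]
        simp only [Nat.sub_self, show 2 - 1 = 1 from rfl, show 3 - 1 = 2 from rfl,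
          show 4 - 1 = 3 from rfl] at t1 t2 t3 t4
        omega
  · have hk2 : p.length = 2 ∧ 4 ≤ k ∧ p.getD 1 0 = 2 := by tauto
    have e2 := hpt 1 (by omega)
    have e4 := hk2.2.2
    rw [List.getD_eq_getElem _ _ (by omega)] at e4
    have e3 : pt (ltr m c x y 2) = 2 := e2.trans e4
    have hl : ltr m c x y 2 = 3 := by
      unfold pt at e3
      split_ifs at e3 <;> omega
    have hxy : 1 ≤ pc m c (x 2) ∧ 1 ≤ pc m c (y 2) := by
      unfold ltr at hl
      split_ifs at hl <;> omega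
    exact CLB.H62.endClean_two E.hG E.hc E.h E.cat (by omega) hk2.2.1 (pc_pos.1 hxy.1)
      (pc_pos.1 hxy.2)

lemma EH.ren (E : EH G R k x y m z c) {c' : ℕ → V} (hr : Ren m c c') (h : Cat G R m z c') :
    EH G R k x y m z c' :=
  ⟨E.hG, E.hc, E.h, h, E.hm, E.ends, fun i h1 h2 => by
    rw [hr.pc, hr.pc]; exact E.hno i h1 h2⟩

lemma Ren.ltr {c' : ℕ → V} (hr : Ren m c c') (i : ℕ) : CLB.H3.ltr m c' x y i = CLB.H3.ltr m c x y i := by
  unfold CLB.H3.ltr
  rw [hr.pc, hr.pc]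

/-- **The statuses of a pattern.** -/
theorem end_pat (E : EH G R k x y m z c) {p : List ℕ} (hp2 : 2 ≤ p.length) (hp4 : p.length ≤ 4)
    (hpk : p.length < k)
    (hk : (p.length ≤ 3 ∧ 5 ≤ k) ∨ 7 ≤ k ∨ (p.length = 2 ∧ 4 ≤ k ∧ p.getD 1 0 = 2))
    (hpt : ∀ i (hi : i < p.length), pt (ltr m c x y (i + 1)) = p[i]) (ho : okP p = true)
    (hp0 : p.getD 0 0 ≠ 0) {P T : Sta → Bool} (chk : Sta.allSt p P = true)
    (hP : ∀ S, P S = true → S.gd p.length = true ∨ T S = true) : ∃ c', EH G R k x y m z c' ∧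
      Ren m c c' ∧ T (rst G R p.length x y m z c') = true := by
  obtain ⟨c', k1, k2, k3, k4⟩ := cat_ord E.cat (by have := E.hm; omega) (plv p.length x y)
  have E' := E.ren k4 k1
  have hm := E.hm
  have hpt' : ∀ i (hi : i < p.length), pt (ltr m c' x y (i + 1)) = p[i] := fun i hi => by
    rw [k4.ltr]; exact hpt i hi
  have hw := rst_w_mem E'.hG E'.cat E'.h E'.hno hpk hpt'
  have hS := allW_rst E'.hG E'.cat (by omega) E'.h hp2 hpk hw k2 k3 chk
  rcases hP _ hS with h1 | h1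
  · exfalso
    refine gd_false E' hp2 hp4 hpk (clean_pat E' hp4 hpk hk hpt' ho) ?_ h1
    -- a port in the first unit
    have e2 := hpt' 0 (by omega)
    have e3 : pt (ltr m c' x y 1) ≠ 0 := by
      rw [List.getD_eq_getElem _ _ (by omega)] at hp0
      rw [← e2] at hp0; exact hp0
    have hl : 1 ≤ pc m c' (x 1) ∨ 1 ≤ pc m c' (y 1) := by
      by_contra hcon
      have h3 : pc m c' (x 1) = 0 := by omega
      have h4 : pc m c' (y 1) = 0 := by omega
      apply e3
      unfold ltr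
      rw [if_pos h3, if_pos h4]
      rfl
    rcases hl with hl | hl
    · obtain ⟨j, hj, e⟩ := pc_pos.1 hl
      exact ⟨j, hj, e ▸ InC.x le_rfl le_rfl⟩
    · obtain ⟨j, hj, e⟩ := pc_pos.1 hl
      exact ⟨j, hj, e ▸ InC.y le_rfl le_rfl⟩
  · exact ⟨c', E', k4, h1⟩

/-- A pattern all of whose statuses are won. -/
theorem end_pat_false (E : EH G R k x y m z c) {p : List ℕ} (hp2 : 2 ≤ p.length)
    (hp4 : p.length ≤ 4) (hpk : p.length < k)
    (hk : (p.length ≤ 3 ∧ 5 ≤ k) ∨ 7 ≤ k ∨ (p.length = 2 ∧ 4 ≤ k ∧ p.getD 1 0 = 2))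
    (hpt : ∀ i (hi : i < p.length), pt (ltr m c x y (i + 1)) = p[i]) (ho : okP p = true)
    (hp0 : p.getD 0 0 ≠ 0) (chk : Sta.allSt p (fun S => S.gd p.length) = true) : False := by
  obtain ⟨c', -, -, h⟩ := end_pat E hp2 hp4 hpk hk hpt ho hp0 (T := fun _ => false) chk
    (fun S h => Or.inl h)
  exact Bool.noConfusion h

end CLB.H95
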