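import Pool.Agent.Helper95_CLB.StaP

/-!
The status checks of some patterns.
-/

set_option autoImplicit false

namespace CLB.H95

namespace Sta

set_option maxRecDepth 100000 in
theorem ck_22 : allSt [2, 2] (fun S => S.gd 2) = true := by decide +kernel

set_option maxRecDepth 100000 in
theorem ck_32 : allSt [3, 2] (fun S => S.gd 2) = true := by decide +kernel

set_option maxRecDepth 100000 in
theorem ck_202 : allSt [2, 0, 2] (fun S => S.gd 3) = true := by decide +kernel

set_option maxRecDepth 100000 in
theorem ck_112 : allSt [1, 1, 2] (fun S => S.gd 3) = true := by decide +kernel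

set_option maxRecDepth 100000 in
theorem ck_121 : allSt [1, 2, 1] (fun S => S.gd 3) = true := by decide +kernel

set_option maxRecDepth 100000 in
theorem ck_211 : allSt [2, 1, 1] (fun S => S.gd 3) = true := by decide +kernel

set_option maxRecDepth 100000 in
theorem ck_212 : allSt [2, 1, 2] (fun S => S.gd 3) = true := by decide +kernel

set_option maxRecDepth 100000 in
theorem ck_311 : allSt [3, 1, 1] (fun S => S.gd 3) = true := by decide +kernel

set_option maxRecDepth 100000 in
theorem ck_312 : allSt [3, 1, 2] (fun S => S.gd 3) = true := by decide +kernel

end Sta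

end CLB.H95
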