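import Pool.Agent.Helper95_CLB.StaP

/-!
The status checks of some patterns.
-/

set_option autoImplicit false

namespace CLB.H95

namespace Sta

set_option maxRecDepth 100000 in
theorem ck_1112 : allSt [1, 1, 1, 2] (fun S => S.gd 4) = true := by decide +kernel

end Sta

end CLB.H95
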