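import Pool.Agent.Helper95_CLB.StaP

/-!
The status checks of some patterns.
-/

set_option autoImplicit false

namespace CLB.H95

namespace Sta

set_option maxRecDepth 100000 in
theorem ck_1201 : allSt [1, 2, 0, 1] (fun S => S.gd 4) = true := by decide +kernel

set_option maxRecDepth 100000 in
theorem ck_2101 : allSt [2, 1, 0, 1] (fun S => S.gd 4) = true := by decide +kernel

set_option maxRecDepth 100000 in
theorem ck_2102 : allSt [2, 1, 0, 2] (fun S => S.gd 4) = true := by decide +kernel

set_option maxRecDepth 100000 in
theorem ck_2012 : allSt [2, 0, 1, 2] (fun S => S.gd 4) = true := by decide +kernel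

end Sta

end CLB.H95
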