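import Pool.Agent.Helper95_CLB.StaP

/-!
The status checks of some patterns.
-/

set_option autoImplicit false

namespace CLB.H95

namespace Sta

set_option maxRecDepth 100000 in
theorem ck_2011 : allSt [2, 0, 1, 1] (fun S => S.gd 4 || (S.x1a || S.x1b)) = true := by decide +kernel

set_option maxRecDepth 100000 in
theorem ck_xxxx : allW 4 [[(1, 0), (1, 0), (1, 0), (1, 0)]] (fun S => S.gd 4 || S.x2) = true := by decide +kernel

end Sta

end CLB.H95
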