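import Pool.Agent.Helper95_CLB.EndA
import Pool.Agent.Helper95_CLB.StaC1
import Pool.Agent.Helper95_CLB.StaC2
import Pool.Agent.Helper95_CLB.StaC3
import Pool.Agent.Helper95_CLB.StaC4
import Pool.Agent.Helper95_CLB.StaC5
import Pool.Agent.Helper62_DA.SmallW
import Pool.Agent.Helper86_DA.X2F
import Pool.Agent.Helper3_DA.LocAsm

/-!
The windows at the left end of an open chain: no good end.
-/

set_option autoImplicit false
set_option linter.unusedSectionVars false

namespace CLB.H95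

open H3DA (Q neg nr)
open Finset Classical
open CLB.H3 (CExt Cat IsTwo Fits UPath pc pc_pos pc_le pc_lk pc_cov pc_two pc_one outN total_ports ltr
  NoG wt_ltr LGx NX2 ltr_mir outN_le SmallH)
open CLB.H3.Wd (pt wt L4 R4)

variable {V : Type*} {G : SimpleGraph V} {R : V → Bool} [Fintype V] {k r : ℕ} {x y X Y : ℕ → V}
  {m : ℕ} {z c : ℕ → V} {f : V → Q} {N n : ℕ}

lemma vpl_even (i : ℕ) : vpl x y (2 * i) = x i := by
  unfold vpl
  rw [if_pos (by omega), show 2 * i / 2 = i by omega]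

lemma vpl_odd (i : ℕ) : vpl x y (2 * i + 1) = y i := by
  unfold vpl
  rw [if_neg (by omega), show (2 * i + 1) / 2 = i by omega]

/-- The vertex at an even place. -/
lemma at_x {v : V} {i : ℕ} (h1 : 1 ≤ i) (h : plv N x y v = 2 * i) : v = x i := by
  have := vpl_plv (plv_pos (N := N) (x := x) (y := y) (v := v) (by omega))
  rw [h, vpl_even] at this
  exact this.symm

/-- The vertex at an odd place. -/
lemma at_y {v : V} {i : ℕ} (h : plv N x y v = 2 * i + 1) : v = y i := by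
  have := vpl_plv (plv_pos (N := N) (x := x) (y := y) (v := v) (by omega))
  rw [h, vpl_odd] at this
  exact this.symm

lemma no_trn (hN : 3 ≤ N) (h : kapv G R N X Y m z ≤ 1) : ¬ HasTrn G R X Y m z := by
  intro hT
  unfold kapv at h
  split_ifs at h with h1 h2 h3
  · omega
  · omega
  · exact h2 ⟨hN, hT⟩
  · exact h2 ⟨hN, hT⟩

lemma sum_pat (E : EH G R k x y m z c) {i a : ℕ} (h1 : 1 ≤ i) (h2 : i ≤ k)
    (hp : pt (ltr m c x y i) = a) : pc m c (x i) + pc m c (y i) = ptw a := by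
  rw [← wt_ltr E.hG E.cat E.h E.hno h1 h2, wt_pt, hp]

lemma full_pat (E : EH G R k x y m z c) {i : ℕ} (h1 : 1 ≤ i) (h2 : i ≤ k)
    (hp : pt (ltr m c x y i) = 2) : pc m c (x i) = 1 ∧ pc m c (y i) = 1 := by
  have hl : ltr m c x y i = 3 := by
    unfold pt at hp
    split_ifs at hp <;> omega
  refine E.hno i h1 h2 ?_ ?_
  · unfold ltr at hl
    split_ifs at hl <;> omega
  · unfold ltr at hl
    split_ifs at hl <;> omega

/-- The exceptional statuses of `2 0 1 1`. -/
theorem x1b_false (E : EH G R k x y m z c) (hk : 5 ≤ k)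
    (p1 : pt (ltr m c x y 1) = 2) (p2 : pt (ltr m c x y 2) = 0) (p3 : pt (ltr m c x y 3) = 1)
    (hE : EndClean G R 3 x y m z) (hS : (rst G R 4 x y m z c).x1b = true) : False := by
  have hch : Chn G R 4 x y := E.h.take (by norm_num) (by omega)
  obtain ⟨e1, e2⟩ := full_pat E le_rfl (by omega) p1
  have e3 := sum_pat E (by norm_num) (by omega) p2
  have e4 := sum_pat E (by norm_num) (by omega) p3
  have e3' : ptw 0 = 0 := rfl
  have e4' : ptw 1 = 1 := rfl
  unfold Sta.x1b at hS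
  simp only [Bool.and_eq_true, Bool.or_eq_true, Nat.beq_eq] at hS
  obtain ⟨⟨s1, s2, s3⟩, s4, s5⟩ := hS
  have s2 := Nat.le_of_ble_eq_true s2
  have a0 : plv 4 x y (c 0) = 0 := s3
  have a1 : plv 4 x y (c 1) = 8 ∨ plv 4 x y (c 1) = 9 := s4
  have b0 : (plv 4 x y (c m) = 3 ∧ plv 4 x y (c (m + 1)) = 6) ∨
    (plv 4 x y (c m) = 2 ∧ plv 4 x y (c (m + 1)) = 7) := s5
  refine x1_core E.hG E.hc E.cat E.hm E.h E.ends.1 (by omega) e1 e2 (by omega) (by omega) (by omega)
    ?_ ?_ ?_ (no_trn (N := 4) (by norm_num) s2) hE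
  · rcases b0 with ⟨b1, b2⟩ | ⟨b1, b2⟩
    · exact Or.inl (Or.inl ⟨at_y (N := 4) (i := 1) b1, at_x (N := 4) (i := 3) (by norm_num) b2⟩)
    · exact Or.inr (Or.inl ⟨at_x (N := 4) (i := 1) le_rfl b1, at_y (N := 4) (i := 3) b2⟩)
  · intro hin
    have := (plv_inW hch (n := 3) (by norm_num) (v := c 0)).2 hin
    rw [a0] at this
    exact absurd this (by decide)
  · intro hin
    have := (plv_inW hch (n := 3) (by norm_num) (v := c 1)).2 hin
    rcases a1 with a1 | a1 <;> rw [a1] at this <;> exact absurd this (by decide)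

theorem x1a_false (E : EH G R k x y m z c) (hk : 5 ≤ k)
    (p1 : pt (ltr m c x y 1) = 2) (p2 : pt (ltr m c x y 2) = 0) (p3 : pt (ltr m c x y 3) = 1)
    (hE : EndClean G R 3 x y m z) (hS : (rst G R 4 x y m z c).x1a = true) : False := by
  have hch : Chn G R 4 x y := E.h.take (by norm_num) (by omega)
  obtain ⟨e1, e2⟩ := full_pat E le_rfl (by omega) p1
  have e3 := sum_pat E (by norm_num) (by omega) p2
  have e4 := sum_pat E (by norm_num) (by omega) p3
  have e3' : ptw 0 = 0 := rfl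
  have e4' : ptw 1 = 1 := rfl
  unfold Sta.x1a at hS
  simp only [Bool.and_eq_true, Bool.or_eq_true, Nat.beq_eq] at hS
  obtain ⟨⟨s1, s2, s3⟩, s4, s5⟩ := hS
  have s2 := Nat.le_of_ble_eq_true s2
  have a0 : plv 4 x y (c m) = 0 := s3
  have a1 : plv 4 x y (c (m + 1)) = 8 ∨ plv 4 x y (c (m + 1)) = 9 := s4
  have b0 : (plv 4 x y (c 0) = 3 ∧ plv 4 x y (c 1) = 6) ∨
    (plv 4 x y (c 0) = 2 ∧ plv 4 x y (c 1) = 7) := s5
  have hpc : ∀ v, pc m (fun j => c (m + 1 - j)) v = pc m c v := fun v =>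
    pc_inv (s := fun j => m + 1 - j) (fun j hj => by omega) (fun j hj => by omega) v
  have hT : ¬ HasTrn G R x y m (fun i => z (m + 1 - i)) := by
    have := no_trn (N := 4) (by norm_num) s2
    unfold HasTrn at this ⊢
    rw [CLB.H86.cSupp_rev]; exact this
  have hE' : EndClean G R 3 x y m (fun i => z (m + 1 - i)) := by
    unfold EndClean at hE ⊢
    rw [CLB.H86.cSupp_rev]; exact hE
  have hm1 : m + 1 - m = 1 := by omega
  have hm0 : m + 1 - (m + 1) = 0 := by omega
  refine x1_core E.hG E.hc (cat_rev E.cat) E.hm E.h E.ends.1 (by omega) (by rw [hpc]; exact e1)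
    (by rw [hpc]; exact e2) (by rw [hpc]; omega) (by rw [hpc]; omega) (by rw [hpc, hpc]; omega)
    ?_ ?_ ?_ hT hE'
  · show ((c (m + 1 - m) = y 1 ∧ c (m + 1 - (m + 1)) = x 3) ∨
      (c (m + 1 - m) = x 3 ∧ c (m + 1 - (m + 1)) = y 1)) ∨
      ((c (m + 1 - m) = x 1 ∧ c (m + 1 - (m + 1)) = y 3) ∨
      (c (m + 1 - m) = y 3 ∧ c (m + 1 - (m + 1)) = x 1))
    rw [hm1, hm0]
    rcases b0 with ⟨b1, b2⟩ | ⟨b1, b2⟩
    · exact Or.inl (Or.inr ⟨at_x (N := 4) (i := 3) (by norm_num) b2, at_y (N := 4) (i := 1) b1⟩)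
    · exact Or.inr (Or.inr ⟨at_y (N := 4) (i := 3) b2, at_x (N := 4) (i := 1) le_rfl b1⟩)
  · show ¬ InC 3 x y (c (m + 1 - 0))
    rw [show m + 1 - 0 = m + 1 by omega]
    intro hin
    have := (plv_inW hch (n := 3) (by norm_num) (v := c (m + 1))).2 hin
    rcases a1 with a1 | a1 <;> rw [a1] at this <;> exact absurd this (by decide)
  · show ¬ InC 3 x y (c (m + 1 - 1))
    rw [show m + 1 - 1 = m by omega]
    intro hin
    have := (plv_inW hch (n := 3) (by norm_num) (v := c m)).2 hin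
    rw [a0] at this
    exact absurd this (by decide)

/-- The pattern `2 0 1 1`. -/
theorem end_2011 (E : EH G R k x y m z c) (hk : 7 ≤ k)
    (hpt : ∀ i (hi : i < [2, 0, 1, 1].length), pt (ltr m c x y (i + 1)) = [2, 0, 1, 1][i]) : False := by
  obtain ⟨c', E', hr, hT⟩ := end_pat E (p := [2, 0, 1, 1]) (by decide) (by decide)
    (by show 4 < k; omega) (Or.inr (Or.inl hk)) hpt (by decide) (by decide)
    (T := fun S => S.x1a || S.x1b) Sta.ck_2011 (fun S h => by
      rw [Bool.or_eq_true] at h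
      exact h)
  have hC := clean_pat E (p := [2, 0, 1, 1]) (by decide) (by show 4 < k; omega) (Or.inr (Or.inl hk)) hpt
    (by decide) 3 (by norm_num) (by decide)
  have p1 : pt (ltr m c' x y 1) = 2 := by rw [hr.ltr]; exact hpt 0 (by decide)
  have p2 : pt (ltr m c' x y 2) = 0 := by rw [hr.ltr]; exact hpt 1 (by decide)
  have p3 : pt (ltr m c' x y 3) = 1 := by rw [hr.ltr]; exact hpt 2 (by decide)
  simp only [Bool.or_eq_true] at hT
  rcases hT with hT | hT
  · exact x1a_false E' (by omega) p1 p2 p3 hC hT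
  · exact x1b_false E' (by omega) p1 p2 p3 hC hT

end CLB.H95
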