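import Pool.Agent.Helper95_CLB.EndB

/-!
The pattern `x x x x` and the theorem on the ends.
-/

set_option autoImplicit false
set_option linter.unusedSectionVars false

namespace CLB.H95

open H3DA (Q neg nr)
open Finset Classical
open CLB.H3 (CExt Cat IsTwo Fits UPath pc pc_pos pc_le pc_lk pc_cov pc_two pc_one outN total_ports ltr
  NoG wt_ltr LGx NX2 ltr_mir outN_le SmallH fork_cases pos)
open CLB.H3.Wd (pt wt L4 R4)

variable {V : Type*} {G : SimpleGraph V} {R : V → Bool} [Fintype V] {k r : ℕ} {x y X Y : ℕ → V}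
  {m : ℕ} {z c : ℕ → V} {f : V → Q} {N n : ℕ}

/-- The mates of the leaf ports `x 3`, `x 4`. -/
lemma mate_x34 (E : EH G R k x y m z c) (hk : 5 ≤ k) {j j' : ℕ} (hj : j ≤ m + 1) (hj' : j' ≤ m + 1)
    (hne : j ≠ j') (hp : pos m j = pos m j') {u : ℕ} (hu : u = 3 ∨ u = 4) (hl : c j = x u)
    (hout : ¬ InC 4 x y (c j')) (hin : InC k x y (c j')) : c j' = y k := by
  rcases fork_cases E.hG E.h E.cat hj hj' hne hp (hl ▸ InC.x (by omega) (by omega)) hin with
    (h1 | h1) | (h1 | h1) | ⟨i, i1, i2, (⟨h1, h2⟩ | ⟨h1, h2⟩)⟩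
  · exfalso
    rw [hl] at h1
    have := E.h.injx u 1 (by omega) (by omega) le_rfl (by omega) h1
    omega
  · exfalso
    rw [hl] at h1
    exact E.h.xy u k (by omega) (by omega) (by omega) le_rfl h1
  · exfalso
    exact hout (h1 ▸ InC.x le_rfl (by norm_num))
  · exact h1
  · exfalso
    rw [hl] at h1
    exact E.h.xy u i (by omega) (by omega) i1 (by omega) h1
  · exfalso
    rw [hl] at h2
    have := E.h.injx u (i + 2) (by omega) (by omega) (by omega) i2 h2
    exact hout (h1 ▸ InC.y i1 (by omega))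

lemma ends_rev (E : EH G R k x y m z c) :
    EH G R k (fun i => y (k + 1 - i)) (fun i => x (k + 1 - i)) m z c := by
  have hk := E.h.pos
  refine ⟨E.hG, E.hc, Chn.rev E.h, E.cat, E.hm, ⟨fun w => ?_, fun w => ?_⟩, E.hno.rev⟩
  · show ¬ Lk G R (y (k + 1 - 1)) w
    rw [show k + 1 - 1 = k by omega]; exact E.ends.2 w
  · show ¬ Lk G R (x (k + 1 - k)) w
    rw [show k + 1 - k = 1 by omega]; exact E.ends.1 w

lemma Ren.leaf {c' : ℕ → V} (hr : Ren m c c') {v : V}
    (h : c 0 = v ∨ c 1 = v ∨ c m = v ∨ c (m + 1) = v) :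
    c' 0 = v ∨ c' 1 = v ∨ c' m = v ∨ c' (m + 1) = v := by
  rcases hr.f0 with ⟨f0, f1⟩ | ⟨f0, f1⟩ <;> rcases hr.fm with ⟨g0, g1⟩ | ⟨g0, g1⟩ <;>
    rw [f0, f1, g0, g1] <;> rcases h with e | e | e | e
  all_goals first
    | exact Or.inl e
    | exact Or.inr (Or.inl e)
    | exact Or.inr (Or.inr (Or.inl e))
    | exact Or.inr (Or.inr (Or.inr e))

lemma pos_mm (hm : 1 ≤ m) : pos m (m + 1) = pos m m := by
  unfold pos
  rw [if_neg (by omega), if_pos rfl, if_neg (by omega), if_neg (by omega)]

/-- **The pattern `x x x x`.** -/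
theorem end_xxxx (E : EH G R k x y m z c) (hk : 7 ≤ k) (hS : SmallH G R k x y)
    (hN : NCp m (JC k x y c)) (h4 : L4 (ltr m c x y) k)
    (hcase : (ltr m c x y 5 = 1 ∨ ltr m c x y 5 = 3) ∨ R4 (ltr m c x y) k ∨ (m = 6 ∧ NX2 m c x)) :
    False := by
  have hm := E.hm
  have hL : ∀ i, 1 ≤ i → i ≤ 4 → pc m c (x i) = 1 ∧ pc m c (y i) = 0 := by
    intro i h1 h2
    have := h4.2 (i - 1) (by omega)
    rw [show i - 1 + 1 = i by omega] at this
    unfold ltr at this
    split_ifs at this <;> omega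
  have hown : ∀ n, 1 ≤ n → n ≤ 4 → ((range (m + 2)).filter (fun j => InC n x y (c j))).card = n := by
    intro n h1 h2
    rw [own_sum E.h h1 (by omega), Finset.sum_congr rfl (g := fun _ => 1) (fun i hi => by
      rw [mem_Icc] at hi
      have := hL i hi.1 (by omega)
      omega)]
    simp
  have hEC : ∀ n, 1 ≤ n → n ≤ 4 → EndClean G R n x y m z := fun n h1 h2 =>
    CLB.H62.endClean_of E.hG E.hc E.h E.ends E.cat (Or.inr ⟨h2, hk⟩) (by rw [hown n h1 h2]; omega)
  obtain ⟨c', k1, k2, k3, k4⟩ := cat_ord E.cat (by omega) (plv 4 x y)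
  have E' := E.ren k4 k1
  have hch : Chn G R 4 x y := E.h.take (by norm_num) (by omega)
  have hw : (rst G R 4 x y m z c').w ∈ [[(1, 0), (1, 0), (1, 0), (1, 0)]] := by
    rw [List.mem_singleton]
    show (List.range 4).map (fun j => (pc m c' (x (j + 1)), pc m c' (y (j + 1)))) = _
    have e := fun i h1 h2 => hL i h1 h2
    simp only [k4.pc]
    show [(pc m c (x 1), pc m c (y 1)), (pc m c (x 2), pc m c (y 2)), (pc m c (x 3), pc m c (y 3)),
      (pc m c (x 4), pc m c (y 4))] = _
    rw [(e 1 (by norm_num) (by norm_num)).1, (e 1 (by norm_num) (by norm_num)).2,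
      (e 2 (by norm_num) (by norm_num)).1, (e 2 (by norm_num) (by norm_num)).2,
      (e 3 (by norm_num) (by norm_num)).1, (e 3 (by norm_num) (by norm_num)).2,
      (e 4 (by norm_num) (by norm_num)).1, (e 4 (by norm_num) (by norm_num)).2]
  have hS' := allW_rst E'.hG E'.cat (by omega) E'.h (by norm_num) (by omega) hw k2 k3 Sta.ck_xxxx
  rw [Bool.or_eq_true] at hS'
  rcases hS' with hS' | hS'
  · refine gd_false E' (by norm_num) le_rfl (by omega) hEC ?_ hS'
    have h1 : 1 ≤ pc m c' (x 1) := by rw [k4.pc, (hL 1 le_rfl (by norm_num)).1]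
    obtain ⟨j, hj, e⟩ := pc_pos.1 h1
    exact ⟨j, hj, e ▸ InC.x le_rfl le_rfl⟩
  unfold Sta.x2 at hS'
  simp only [Bool.and_eq_true, Bool.or_eq_true, Nat.beq_eq] at hS'
  obtain ⟨⟨s1, s2, s3, s4⟩, s5⟩ := hS'
  have a0 : plv 4 x y (c' 0) = 0 := s3
  have b0 : plv 4 x y (c' m) = 0 := s4
  have a1 : (plv 4 x y (c' 1) = 6 ∧ plv 4 x y (c' (m + 1)) = 8) ∨
    (plv 4 x y (c' 1) = 8 ∧ plv 4 x y (c' (m + 1)) = 6) := s5
  have o0 : ¬ InC 4 x y (c' 0) := by
    intro hin
    have := (plv_inW hch (n := 4) le_rfl (v := c' 0)).2 hin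
    rw [a0] at this
    exact absurd this (by decide)
  have om : ¬ InC 4 x y (c' m) := by
    intro hin
    have := (plv_inW hch (n := 4) le_rfl (v := c' m)).2 hin
    rw [b0] at this
    exact absurd this (by decide)
  obtain ⟨u, v, huv, e1, em1⟩ : ∃ u v, ((u = 3 ∧ v = 4) ∨ (u = 4 ∧ v = 3)) ∧ c' 1 = x u ∧
      c' (m + 1) = x v := by
    rcases a1 with ⟨b1, b2⟩ | ⟨b1, b2⟩
    · exact ⟨3, 4, Or.inl ⟨rfl, rfl⟩, at_x (N := 4) (i := 3) (by norm_num) b1,
        at_x (N := 4) (i := 4) (by norm_num) b2⟩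
    · exact ⟨4, 3, Or.inr ⟨rfl, rfl⟩, at_x (N := 4) (i := 4) (by norm_num) b1,
        at_x (N := 4) (i := 3) (by norm_num) b2⟩
  have q0 : InC k x y (c' 0) → c' 0 = y k := fun hin =>
    mate_x34 E' (by omega) (j := 1) (j' := 0) (by omega) (by omega) (by omega)
      (by unfold pos; split_ifs <;> omega) (u := u) (by omega) e1 o0 hin
  have qm : InC k x y (c' m) → c' m = y k := fun hin =>
    mate_x34 E' (by omega) (j := m + 1) (j' := m) le_rfl (by omega) (by omega)
      (pos_mm (by omega)) (u := v) (by omega) em1 om hin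
  rcases hcase with h5 | hR | ⟨hm6, hX⟩
  · -- five units
    have h5' : pc m c (x 5) = 1 := by
      rcases h5 with h5 | h5
      · unfold ltr at h5
        split_ifs at h5 <;> omega
      · refine (E.hno 5 (by norm_num) (by omega) ?_ ?_).1
        · unfold ltr at h5
          split_ifs at h5 <;> omega
        · unfold ltr at h5
          split_ifs at h5 <;> omega
    have hyk : ¬ InC 5 x y (y k) := by
      rintro ⟨i, i1, i2, i3 | i3⟩
      · exact E.h.xy i k i1 (by omega) (by omega) le_rfl i3.symm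
      · have := E.h.injy k i (by omega) le_rfl i1 (by omega) i3
        omega
    have out5 : ∀ w, (InC k x y w → w = y k) → ¬ InC 5 x y w := by
      intro w hw hin
      have := hw (hin.mono (by omega))
      rw [this] at hin
      exact hyk hin
    have hE5 : EndClean G R 5 x y m z := by
      refine CLB.H62.endClean_five E.hG E.hc E.h hk E.ends E.cat (fun i h1 h2 => ?_) ?_
      · refine pc_pos.1 ?_
        by_cases hi : i ≤ 4
        · rw [(hL i h1 hi).1]
        · rw [show i = 5 by omega, h5']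
      · intro z1 c1 hC1 hN1
        rcases hS 5 z1 c1 hC1 (by norm_num) le_rfl hN1 with h1 | h1 | h1 | h1 | h1
        · exact Or.inl h1
        · exact absurd h1.1 (by norm_num)
        · exact absurd h1.1 (by norm_num)
        · exact Or.inr (Or.inl h1)
        · exact Or.inr (Or.inr h1)
    refine CLB.H86.x2_five E'.hG E'.hc E'.cat hm E'.h E'.ends.1 hk (fun i h1 h2 => ?_) ?_
      ⟨1, 0, m + 1, m, Or.inr ⟨rfl, rfl⟩, Or.inr ⟨rfl, rfl⟩, ?_, out5 _ q0, out5 _ qm⟩ hE5
    · rw [k4.pc, k4.pc]; exact hL i h1 h2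
    · rw [k4.pc]; exact h5'
    · rcases huv with ⟨rfl, rfl⟩ | ⟨rfl, rfl⟩
      · exact Or.inl ⟨e1, em1⟩
      · exact Or.inr ⟨e1, em1⟩
  · -- the right end is `1 1 1 1`: the vertex `y k` is a leaf port
    have hleaf : c 0 = y k ∨ c 1 = y k ∨ c m = y k ∨ c (m + 1) = y k := by
      have hout := outN_le (by omega) hN
      by_contra hcon
      push Not at hcon
      have n0 : ¬ InC k x y (c' 0) := fun hin => by
        have := q0 hin
        rcases k4.f0 with ⟨f1, -⟩ | ⟨f1, -⟩
        · exact hcon.1 (f1 ▸ this)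
        · exact hcon.2.1 (f1 ▸ this)
      have nm : ¬ InC k x y (c' m) := fun hin => by
        have := qm hin
        rcases k4.fm with ⟨f1, -⟩ | ⟨f1, -⟩
        · exact hcon.2.2.1 (f1 ▸ this)
        · exact hcon.2.2.2 (f1 ▸ this)
      obtain ⟨s, s1, s2⟩ : ∃ s ≤ 1, ¬ InC k x y (c s) := by
        rcases k4.f0 with ⟨f1, -⟩ | ⟨f1, -⟩
        · exact ⟨0, by omega, f1 ▸ n0⟩
        · exact ⟨1, le_rfl, f1 ▸ n0⟩
      obtain ⟨t, t1, t2, t3⟩ : ∃ t, m ≤ t ∧ t ≤ m + 1 ∧ ¬ InC k x y (c t) := by
        rcases k4.fm with ⟨f1, -⟩ | ⟨f1, -⟩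
        · exact ⟨m, le_rfl, by omega, f1 ▸ nm⟩
        · exact ⟨m + 1, by omega, le_rfl, f1 ▸ nm⟩
      unfold outN at hout
      rw [card_le_one] at hout
      have := hout s (by rw [mem_filter, mem_range]; exact ⟨by omega, s2⟩) t
        (by rw [mem_filter, mem_range]; exact ⟨by omega, t3⟩)
      omega
    have Er := ends_rev E
    have hchr : Chn G R 4 (fun i => y (k + 1 - i)) (fun i => x (k + 1 - i)) :=
      Er.h.take (by norm_num) (by omega)
    obtain ⟨c2, E2, hr2, hT⟩ := end_pat Er (p := [1, 1, 1, 1]) (by decide) (by decide)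
      (by show 4 < k; omega) (Or.inr (Or.inl hk)) (fun i hi => by
        have hi' : i < 4 := hi
        rw [ltr_mir, show k + 1 - (i + 1) = k - i by omega, hR.2 i hi']
        have : i = 0 ∨ i = 1 ∨ i = 2 ∨ i = 3 := by omega
        rcases this with rfl | rfl | rfl | rfl <;> rfl) (by decide) (by decide)
      (T := fun S => !S.lf 2) Sta.ck_1111 (fun S h => by
        rw [Bool.or_eq_true] at h
        exact h.symm)
    have hpl : plv 4 (fun i => y (k + 1 - i)) (fun i => x (k + 1 - i)) (y k) = 2 := by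
      have := plv_x hchr (i := 1) le_rfl (by norm_num)
      rw [show k + 1 - 1 = k by omega] at this
      exact this
    have hlf : (rst G R 4 (fun i => y (k + 1 - i)) (fun i => x (k + 1 - i)) m z c2).lf 2 = true := by
      have hor := hr2.leaf hleaf
      unfold Sta.lf
      simp only [Bool.or_eq_true, Nat.beq_eq]
      show (plv 4 _ _ (c2 0) = 2 ∨ plv 4 _ _ (c2 1) = 2) ∨
        (plv 4 _ _ (c2 m) = 2 ∨ plv 4 _ _ (c2 (m + 1)) = 2)
      rcases hor with e | e | e | e
      · left; left; rw [e]; exact hpl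
      · left; right; rw [e]; exact hpl
      · right; left; rw [e]; exact hpl
      · right; right; rw [e]; exact hpl
    simp only [List.length_cons, List.length_nil] at hT
    rw [Bool.not_eq_true'] at hT
    have : (rst G R (0 + 1 + 1 + 1 + 1) (fun i => y (k + 1 - i)) (fun i => x (k + 1 - i)) m z c2).lf 2
      = true := hlf
    rw [this] at hT
    exact Bool.noConfusion hT
  · -- the vertex `x 2` is a leaf port
    obtain ⟨a, ha, ha'⟩ : ∃ a ≤ 1, c a = c' 1 := by
      rcases k4.f0 with ⟨-, f1⟩ | ⟨-, f1⟩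
      · exact ⟨1, le_rfl, f1.symm⟩
      · exact ⟨0, by omega, f1.symm⟩
    obtain ⟨b, hb1, hb2, hb'⟩ : ∃ b, m ≤ b ∧ b ≤ m + 1 ∧ c b = c' (m + 1) := by
      rcases k4.fm with ⟨-, f1⟩ | ⟨-, f1⟩
      · exact ⟨m + 1, by omega, le_rfl, f1.symm⟩
      · exact ⟨m, le_rfl, by omega, f1.symm⟩
    obtain ⟨l, hl1, hl2, hl3⟩ : ∃ l ≤ m + 1, (l ≤ 1 ∨ m ≤ l) ∧ c l = x 2 := by
      rcases huv with ⟨rfl, rfl⟩ | ⟨rfl, rfl⟩
      · exact hX a b (by omega) hb2 (ha'.trans e1) (hb'.trans em1) (Or.inl ⟨ha, hb1⟩)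
      · exact hX b a hb2 (by omega) (hb'.trans em1) (ha'.trans e1) (Or.inr ⟨hb1, ha⟩)
    have hx2 : c' 0 = x 2 ∨ c' 1 = x 2 ∨ c' m = x 2 ∨ c' (m + 1) = x 2 := by
      refine k4.leaf ?_
      have hor : l = 0 ∨ l = 1 ∨ l = m ∨ l = m + 1 := by omega
      rcases hor with e | e | e | e
      · exact Or.inl (e ▸ hl3)
      · exact Or.inr (Or.inl (e ▸ hl3))
      · exact Or.inr (Or.inr (Or.inl (e ▸ hl3)))
      · exact Or.inr (Or.inr (Or.inr (e ▸ hl3)))
    have hin2 : InC 4 x y (x 2) := InC.x (by norm_num) (by norm_num)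
    rcases hx2 with e | e | e | e
    · exact o0 (e ▸ hin2)
    · have := E.h.injx u 2 (by omega) (by omega) (by omega) (by omega) (e1.symm.trans e)
      omega
    · exact om (e ▸ hin2)
    · have := E.h.injx v 2 (by omega) (by omega) (by omega) (by omega) (em1.symm.trans e)
      omega

/-- Short chains. -/
theorem end_small (E : EH G R k x y m z c) (hk : 4 ≤ k) (hg : CLB.H62.GoodS k x y m c) : False := by
  rcases hg with ⟨g, hg, hpt⟩ | ⟨hk5, g, hg, hpt⟩
  · simp only [CLB.H62.gd2, List.mem_cons, List.mem_nil_iff, or_false] at hg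
    rcases hg with rfl | rfl
    · exact end_pat_false E (by decide) (by decide) (by show 2 < k; omega)
        (Or.inr (Or.inr ⟨rfl, hk, rfl⟩)) hpt (by decide) (by decide) Sta.ck_22
    · exact end_pat_false E (by decide) (by decide) (by show 2 < k; omega)
        (Or.inr (Or.inr ⟨rfl, hk, rfl⟩)) hpt (by decide) (by decide) Sta.ck_32
  · simp only [CLB.H62.gd3, List.mem_cons, List.mem_nil_iff, or_false] at hg
    rcases hg with rfl | rfl | rfl | rfl | rfl | rfl | rfl
    · exact end_pat_false E (by decide) (by decide) (by show 3 < k; omega)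
        (Or.inl ⟨le_rfl, hk5⟩) hpt (by decide) (by decide) Sta.ck_202
    · exact end_pat_false E (by decide) (by decide) (by show 3 < k; omega)
        (Or.inl ⟨le_rfl, hk5⟩) hpt (by decide) (by decide) Sta.ck_112
    · exact end_pat_false E (by decide) (by decide) (by show 3 < k; omega)
        (Or.inl ⟨le_rfl, hk5⟩) hpt (by decide) (by decide) Sta.ck_121
    · exact end_pat_false E (by decide) (by decide) (by show 3 < k; omega)
        (Or.inl ⟨le_rfl, hk5⟩) hpt (by decide) (by decide) Sta.ck_211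
    · exact end_pat_false E (by decide) (by decide) (by show 3 < k; omega)
        (Or.inl ⟨le_rfl, hk5⟩) hpt (by decide) (by decide) Sta.ck_212
    · exact end_pat_false E (by decide) (by decide) (by show 3 < k; omega)
        (Or.inl ⟨le_rfl, hk5⟩) hpt (by decide) (by decide) Sta.ck_311
    · exact end_pat_false E (by decide) (by decide) (by show 3 < k; omega)
        (Or.inl ⟨le_rfl, hk5⟩) hpt (by decide) (by decide) Sta.ck_312

/-- Long chains. -/
theorem end_long (E : EH G R k x y m z c) (hk : 7 ≤ k) (hS : SmallH G R k x y)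
    (hN : NCp m (JC k x y c)) (hg : LGx k x y m c) : False := by
  rcases hg with ⟨g, hg, -, hpt⟩ | ⟨-, h4, hcase⟩
  · simp only [CLB.H3.goods4, CLB.H3.Wd.goods, List.mem_cons, List.mem_nil_iff, or_false] at hg
    have hk' : ∀ {p : List ℕ}, (p.length ≤ 3 ∧ 5 ≤ k) ∨ 7 ≤ k ∨
      (p.length = 2 ∧ 4 ≤ k ∧ p.getD 1 0 = 2) := Or.inr (Or.inl hk)
    rcases hg with rfl | rfl | rfl | rfl | rfl | rfl | rfl | rfl | rfl | rfl | rfl | rfl | rfl |
      rfl | rfl
    · exact end_pat_false E (by decide) (by decide) (by show 2 < k; omega) hk' hpt (by decide)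
        (by decide) Sta.ck_22
    · exact end_pat_false E (by decide) (by decide) (by show 3 < k; omega) hk' hpt (by decide)
        (by decide) Sta.ck_202
    · exact end_pat_false E (by decide) (by decide) (by show 3 < k; omega) hk' hpt (by decide)
        (by decide) Sta.ck_112
    · exact end_pat_false E (by decide) (by decide) (by show 3 < k; omega) hk' hpt (by decide)
        (by decide) Sta.ck_121
    · exact end_pat_false E (by decide) (by decide) (by show 3 < k; omega) hk' hpt (by decide)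
        (by decide) Sta.ck_211
    · exact end_pat_false E (by decide) (by decide) (by show 3 < k; omega) hk' hpt (by decide)
        (by decide) Sta.ck_212
    · exact end_pat_false E (by decide) (by decide) (by show 4 < k; omega) hk' hpt (by decide)
        (by decide) Sta.ck_1112
    · exact end_pat_false E (by decide) (by decide) (by show 4 < k; omega) hk' hpt (by decide)
        (by decide) Sta.ck_1201
    · exact end_pat_false E (by decide) (by decide) (by show 4 < k; omega) hk' hpt (by decide)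
        (by decide) Sta.ck_2101
    · exact end_pat_false E (by decide) (by decide) (by show 4 < k; omega) hk' hpt (by decide)
        (by decide) Sta.ck_2102
    · exact end_2011 E hk hpt
    · exact end_pat_false E (by decide) (by decide) (by show 4 < k; omega) hk' hpt (by decide)
        (by decide) Sta.ck_2012
    · exact end_pat_false E (by decide) (by decide) (by show 2 < k; omega) hk' hpt (by decide)
        (by decide) Sta.ck_32
    · exact end_pat_false E (by decide) (by decide) (by show 3 < k; omega) hk' hpt (by decide)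
        (by decide) Sta.ck_311
    · exact end_pat_false E (by decide) (by decide) (by show 3 < k; omega) hk' hpt (by decide)
        (by decide) Sta.ck_312
  · refine end_xxxx E hk hS hN h4 ?_
    rcases hcase with ⟨-, h5⟩ | h5 | h5
    · exact Or.inl h5
    · exact Or.inr (Or.inl h5)
    · exact Or.inr (Or.inr h5)

/-- **The theorem on the ends.** -/
theorem end_all : CLB.H3.EndAll := by
  intro V _ H R k m x y z c hG hc h hk e1 e2 hS hcat hm hN hL
  have hno := CLB.H3.noG hG hc hcat h (by omega) ⟨e1, e2⟩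
  have E : EH H R k x y m z c := ⟨hG, hc, h, hcat, hm, ⟨e1, e2⟩, hno⟩
  by_cases hk7 : 7 ≤ k
  · exact end_long E hk7 hS hN hL
  · obtain ⟨hk4, hg | hg⟩ := CLB.H62.small_good hG hc h hcat (by omega) hm hN hno
    · exact end_small E hk4 hg
    · exact end_small (ends_rev E) hk4 hg

end CLB.H95
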