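import Pool.Agent.Helper95_CLB.OnlWalk

/-!
List games with histories: the number of labels of a unit which lie on full walks.
-/

set_option autoImplicit false
set_option linter.unusedSectionVars false

namespace CLB.H95

open Finset
open H3DA (Q neg nr)

/-- A lower bound for the number of neighbours of `n` labels. -/
def nbc (n : ℕ) : ℕ :=
  if n = 0 then 0 else if n = 1 then 4 else if n = 2 then 6 else if n ≤ 4 then 7 else 8

lemma nbc_le (L : Finset Q) : nbc L.card ≤ (nb L).card := by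
  unfold nbc
  split_ifs with h1 h2 h3 h4
  · omega
  · exact nb_card1 (by omega)
  · exact nb_card2 (by omega)
  · exact nb_card3 (by omega)
  · rw [nb_card5 (by omega), card_univ_Q]

lemma nbc_mono {a b : ℕ} (h : a ≤ b) : nbc a ≤ nbc b := by
  unfold nbc
  split_ifs <;> omega

lemma nb_ge {L : Finset Q} {n : ℕ} (h : n ≤ L.card) : nbc n ≤ (nb L).card :=
  (nbc_mono h).trans (nbc_le L)

lemma inter_ge {X Y : Finset Q} {a b : ℕ} (ha : a ≤ X.card) (hb : b ≤ Y.card) :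
    a + b - 8 ≤ (X ∩ Y).card := by
  have := card_inter_ge X Y
  omega

/-- History dependent lists with lower bounds for the common lists of two histories. -/
structure HG (r : ℕ) (A : ℕ → (ℕ → Q) → Finset Q) (s : ℕ → ℕ) : Prop where
  dep : ∀ i, 1 ≤ i → i ≤ r → ∀ h h', Same (i - 1) h h' → A i h = A i h'
  size : ∀ i, 1 ≤ i → i ≤ r → ∀ h h', s i ≤ (A i h ∩ A i h').card

/-- A walk through the first `n` lists. -/
structure HW (n : ℕ) (A : ℕ → (ℕ → Q) → Finset Q) (h : ℕ → Q) : Prop where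
  nwk : Nwk n h
  mem : ∀ i, 1 ≤ i → i ≤ n → h i ∈ A i h

variable {r : ℕ} {A : ℕ → (ℕ → Q) → Finset Q} {s : ℕ → ℕ}

/-- Appending a label. -/
def ap (n : ℕ) (h : ℕ → Q) (a : Q) : ℕ → Q := fun i => if i ≤ n then h i else a

lemma ap_le {n : ℕ} {h : ℕ → Q} {a : Q} {i : ℕ} (hi : i ≤ n) : ap n h a i = h i := by
  unfold ap; rw [if_pos hi]

lemma ap_gt {n : ℕ} {h : ℕ → Q} {a : Q} {i : ℕ} (hi : n < i) : ap n h a i = a := by
  unfold ap; rw [if_neg (by omega)]

lemma ap_same {n : ℕ} {h : ℕ → Q} {a : Q} {i : ℕ} (hi : i ≤ n + 1) : Same i h (ap n h a) := by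
  intro j _ h2
  rw [ap_le (by omega)]

lemma HW.snoc (hA : HG r A s) {n : ℕ} {h : ℕ → Q} (hp : HW n A h) (hn : n + 1 ≤ r) {a : Q}
    (ha : a ∈ A (n + 1) h) (hna : 1 ≤ n → nr (h n) a = true) : HW (n + 1) A (ap n h a) := by
  refine ⟨fun i h1 h2 => ?_, fun i h1 h2 => ?_⟩
  · by_cases h3 : i + 1 ≤ n
    · rw [ap_le (by omega), ap_le h3]
      exact hp.nwk i h1 (by omega)
    · have h4 : i = n := by omega
      subst h4
      rw [ap_le le_rfl, ap_gt (by omega)]
      exact hna h1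
  · rw [← hA.dep i h1 (by omega) h (ap n h a) (ap_same (by omega))]
    by_cases h3 : i ≤ n
    · rw [ap_le h3]
      exact hp.mem i h1 h3
    · have h4 : i = n + 1 := by omega
      subst h4
      rw [ap_gt (by omega)]
      exact ha

lemma HW.zero (h : ℕ → Q) : HW 0 A h :=
  ⟨fun i h1 h2 => by omega, fun i h1 h2 => by omega⟩

/-- Two walks with different last labels. -/
theorem two_hist (hA : HG r A s) {n : ℕ} (h1 : 1 ≤ n) : n ≤ r → 2 ≤ s 1 →
    (∀ i, 2 ≤ i → i ≤ n → 4 ≤ s i) → ∃ g g', HW n A g ∧ HW n A g' ∧ g n ≠ g' n := by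
  induction n, h1 using Nat.le_induction with
  | base =>
    intro hr hs _
    have g0 : ℕ → Q := fun _ => (false, false, false)
    have e1 := hA.size 1 le_rfl hr g0 g0
    rw [Finset.inter_self] at e1
    obtain ⟨a, ha, b, hb, hab⟩ := Finset.one_lt_card.1 (show 1 < (A 1 g0).card by omega)
    refine ⟨_, _, (HW.zero g0).snoc hA (n := 0) (by omega) ha (fun h' => by omega),
      (HW.zero g0).snoc hA (n := 0) (by omega) hb (fun h' => by omega), ?_⟩
    rw [ap_gt (by omega), ap_gt (by omega)]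
    exact hab
  | succ n hn ih =>
    intro hr hs h4
    obtain ⟨g, g', hg, hg', hne⟩ := ih (by omega) hs (fun i i1 i2 => h4 i i1 (by omega))
    have e1 : 4 ≤ (A (n + 1) g ∩ A (n + 1) g').card :=
      (h4 (n + 1) (by omega) le_rfl).trans (hA.size _ (by omega) hr _ _)
    have e2 : 6 ≤ (nb {g n, g' n}).card := nb_card2 (by rw [Finset.card_pair hne])
    have e3 := card_inter_ge (nb {g n, g' n}) (A (n + 1) g ∩ A (n + 1) g')
    obtain ⟨a, ha, b, hb, hab⟩ := Finset.one_lt_card.1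
      (show 1 < (nb {g n, g' n} ∩ (A (n + 1) g ∩ A (n + 1) g')).card by omega)
    have key : ∀ a ∈ nb {g n, g' n} ∩ (A (n + 1) g ∩ A (n + 1) g'),
        ∃ w, HW (n + 1) A w ∧ w (n + 1) = a := by
      intro a ha
      rw [mem_inter, mem_inter, mem_nb] at ha
      obtain ⟨⟨t, ht, hta⟩, ha1, ha2⟩ := ha
      simp only [mem_insert, mem_singleton] at ht
      rcases ht with rfl | rfl
      · exact ⟨_, hg.snoc hA hr ha1 (fun _ => hta), ap_gt (by omega)⟩
      · exact ⟨_, hg'.snoc hA hr ha2 (fun _ => hta), ap_gt (by omega)⟩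
    obtain ⟨w, hw, hwa⟩ := key a ha
    obtain ⟨w', hw', hwb⟩ := key b hb
    exact ⟨w, w', hw, hw', by rw [hwa, hwb]; exact hab⟩

/-- The last two units after two histories. -/
theorem tail_two (hA : HG r A s) {n : ℕ} (hn : n + 2 = r) {g g' : ℕ → Q} (hg : HW n A g)
    (hg' : HW n A g') (h0 : 1 ≤ n) (hne : g n ≠ g' n) :
    (∃ T : Finset Q, nbc (6 + s (n + 1) - 8) + s (n + 2) - 8 ≤ T.card ∧
      ∀ t ∈ T, ∃ mu, HW r A mu ∧ mu (n + 2) = t) ∧
    (∃ T : Finset Q, 6 + s (n + 1) - 8 + nbc (s (n + 2)) - 8 ≤ T.card ∧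
      ∀ t ∈ T, ∃ mu, HW r A mu ∧ mu (n + 1) = t) := by
  have e2 : 6 ≤ (nb {g n, g' n}).card := nb_card2 (by rw [Finset.card_pair hne])
  have e1 := hA.size (n + 1) (by omega) (by omega) g g'
  have e3 := hA.size (n + 2) (by omega) (by omega) g g'
  set S := nb {g n, g' n} ∩ (A (n + 1) g ∩ A (n + 1) g') with hS
  set L := A (n + 2) g ∩ A (n + 2) g' with hL
  have e4 : 6 + s (n + 1) - 8 ≤ S.card := inter_ge e2 e1
  have fin : ∀ a ∈ S, ∀ b ∈ L, nr a b = true → ∃ mu, HW r A mu ∧ mu (n + 1) = a ∧ mu (n + 2) = b := by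
    intro a ha b hb hab
    rw [hS, mem_inter, mem_inter, mem_nb] at ha
    rw [hL, mem_inter] at hb
    obtain ⟨⟨t, ht, hta⟩, ha1, ha2⟩ := ha
    have key : ∀ w, HW n A w → nr (w n) a = true → a ∈ A (n + 1) w → b ∈ A (n + 2) w →
        ∃ mu, HW r A mu ∧ mu (n + 1) = a ∧ mu (n + 2) = b := by
      intro w hw h1 h2 h3
      have p1 := hw.snoc hA (by omega) h2 (fun _ => h1)
      have p2 := p1.snoc hA (n := n + 1) (by omega) (a := b) (by
        rw [← hA.dep (n + 1 + 1) (by omega) (by omega) w (ap n w a) (ap_same (by omega))]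
        exact h3) (fun _ => by rw [ap_gt (by omega)]; exact hab)
      rw [show n + 1 + 1 = r by omega] at p2
      refine ⟨_, p2, ?_, ?_⟩
      · rw [ap_le le_rfl, ap_gt (by omega)]
      · rw [ap_gt (by omega)]
    simp only [mem_insert, mem_singleton] at ht
    rcases ht with rfl | rfl
    · exact key g hg hta ha1 hb.1
    · exact key g' hg' hta ha2 hb.2
  constructor
  · refine ⟨nb S ∩ L, inter_ge (nb_ge e4) e3, fun t ht => ?_⟩
    rw [mem_inter, mem_nb] at ht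
    obtain ⟨⟨a, ha, hat⟩, htL⟩ := ht
    obtain ⟨mu, h1, -, h2⟩ := fin a ha t htL hat
    exact ⟨mu, h1, h2⟩
  · refine ⟨S ∩ nb L, inter_ge e4 (nb_ge e3), fun t ht => ?_⟩
    rw [mem_inter, mem_nb] at ht
    obtain ⟨htS, b, hb, hbt⟩ := ht
    obtain ⟨mu, h1, h2, -⟩ := fin t htS b hb (nr_symm hbt)
    exact ⟨mu, h1, h2⟩

/-- **At least three units, the target is the last unit.** -/
theorem game_last (hA : HG r A s) (hr : 3 ≤ r) (h1 : 2 ≤ s 1) (h4 : ∀ i, 2 ≤ i → i + 2 ≤ r → 4 ≤ s i) :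
    ∃ T : Finset Q, nbc (6 + s (r - 1) - 8) + s r - 8 ≤ T.card ∧ ∀ t ∈ T, ∃ mu, HW r A mu ∧ mu r = t := by
  obtain ⟨g, g', hg, hg', hne⟩ := two_hist hA (n := r - 2) (by omega) (by omega) h1
    (fun i i1 i2 => h4 i i1 (by omega))
  have := (tail_two hA (n := r - 2) (by omega) hg hg' (by omega) hne).1
  rwa [show r - 2 + 1 = r - 1 by omega, show r - 2 + 2 = r by omega] at this

/-- **At least three units, the target is the last but one unit.** -/
theorem game_prev (hA : HG r A s) (hr : 3 ≤ r) (h1 : 2 ≤ s 1) (h4 : ∀ i, 2 ≤ i → i + 2 ≤ r → 4 ≤ s i) :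
    ∃ T : Finset Q, 6 + s (r - 1) - 8 + nbc (s r) - 8 ≤ T.card ∧
      ∀ t ∈ T, ∃ mu, HW r A mu ∧ mu (r - 1) = t := by
  obtain ⟨g, g', hg, hg', hne⟩ := two_hist hA (n := r - 2) (by omega) (by omega) h1
    (fun i i1 i2 => h4 i i1 (by omega))
  have := (tail_two hA (n := r - 2) (by omega) hg hg' (by omega) hne).2
  rwa [show r - 2 + 1 = r - 1 by omega, show r - 2 + 2 = r by omega] at this

/-- **Two units.** -/
theorem game_two (hA : HG 2 A s) :
    (∃ T : Finset Q, nbc (s 1) + s 2 - 8 ≤ T.card ∧ ∀ t ∈ T, ∃ mu, HW 2 A mu ∧ mu 2 = t) ∧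
    ∃ T : Finset Q, s 1 + nbc (s 2) - 8 ≤ T.card ∧ ∀ t ∈ T, ∃ mu, HW 2 A mu ∧ mu 1 = t := by
  have g0 : ℕ → Q := fun _ => (false, false, false)
  have e1 := hA.size 1 le_rfl (by norm_num) g0 g0
  have e2 := hA.size 2 (by norm_num) le_rfl g0 g0
  rw [Finset.inter_self] at e1 e2
  have fin : ∀ a ∈ A 1 g0, ∀ b ∈ A 2 g0, nr a b = true → ∃ mu, HW 2 A mu ∧ mu 1 = a ∧ mu 2 = b := by
    intro a ha b hb hab
    have p1 := (HW.zero g0).snoc hA (n := 0) (by omega) ha (fun h' => by omega)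
    have p2 := p1.snoc hA (n := 0 + 1) (by omega) (a := b) (by
      rw [← hA.dep (0 + 1 + 1) (by omega) (by omega) g0 (ap 0 g0 a) (ap_same (by omega))]
      exact hb) (fun _ => by rw [ap_gt (by omega)]; exact hab)
    refine ⟨_, p2, ?_, ?_⟩
    · rw [ap_le (by omega), ap_gt (by omega)]
    · rw [ap_gt (by omega)]
  constructor
  · refine ⟨nb (A 1 g0) ∩ A 2 g0, inter_ge (nb_ge e1) e2, fun t ht => ?_⟩
    rw [mem_inter, mem_nb] at ht
    obtain ⟨⟨a, ha, hat⟩, htL⟩ := ht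
    obtain ⟨mu, h1, -, h2⟩ := fin a ha t htL hat
    exact ⟨mu, h1, h2⟩
  · refine ⟨A 1 g0 ∩ nb (A 2 g0), inter_ge e1 (nb_ge e2), fun t ht => ?_⟩
    rw [mem_inter, mem_nb] at ht
    obtain ⟨htS, b, hb, hbt⟩ := ht
    obtain ⟨mu, h1, h2, -⟩ := fin t htS b hb (nr_symm hbt)
    exact ⟨mu, h1, h2⟩

/-- Removing further labels. -/
theorem HG.sdiff (hA : HG r A s) {X : ℕ → (ℕ → Q) → Finset Q} {e : ℕ → ℕ}
    (hd : ∀ i, 1 ≤ i → i ≤ r → ∀ h h', Same (i - 1) h h' → X i h = X i h')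
    (hx : ∀ i, 1 ≤ i → i ≤ r → ∀ h h', (X i h ∪ X i h').card ≤ e i) :
    HG r (fun i h => A i h \ X i h) (fun i => s i - e i) where
  dep i h1 h2 h h' hs := by
    show A i h \ X i h = A i h' \ X i h'
    rw [hA.dep i h1 h2 h h' hs, hd i h1 h2 h h' hs]
  size i h1 h2 h h' := by
    have e1 := hA.size i h1 h2 h h'
    have e2 := hx i h1 h2 h h'
    have e3 : (A i h ∩ A i h') \ (X i h ∪ X i h') ⊆ (A i h \ X i h) ∩ (A i h' \ X i h') := by
      intro t ht
      simp only [mem_sdiff, mem_inter, mem_union, not_or] at ht ⊢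
      exact ⟨⟨ht.1.1, ht.2.1⟩, ht.1.2, ht.2.2⟩
    have e4 := Finset.card_le_card e3
    have e5 := Finset.le_card_sdiff (X i h ∪ X i h') (A i h ∩ A i h')
    omega

end CLB.H95
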