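import Pool.Agent.Helper95_CLB.One
import Pool.Agent.Helper3_DA.RStar
import Pool.Agent.Helper3_DA.CritK

/-!
Convenient forms of the inequality of maximum cuts for ports of a caterpillar in a chain.
-/

set_option autoImplicit false
set_option linter.unusedSectionVars false

namespace CLB.H95

open Finset Classical
open H3DA (Q neg nr)
open CLB.H3 (CExt Cat IsTwo Fits UPath he_of_unc cat_structure chn_side rlaw_path seg_isP llS mmS eS
  eS_eq_ek eS_sum_ge pos KTight exists_ktight)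

variable {V : Type*} {G H : SimpleGraph V} {R : V → Bool} [Fintype V] {k : ℕ} {x y : ℕ → V}
  {m : ℕ} {z c : ℕ → V}

/-- The general form. -/
theorem law_gen (hG : ClassC G R) (hcat : Cat G R m z c) {p q : ℕ} (hp : 1 ≤ p) (hpq : p ≤ q)
    (hq : q ≤ m) {J : Finset ℕ} (hJ : ∀ j ∈ J, j ≤ m + 1 ∧ p ≤ pos m j ∧ pos m j ≤ q)
    {T : Finset V} (hT : ∀ t ∈ T, Cov G R t) {E F : ℕ} (hll : E ≤ llS G R (J.image c ∪ T))
    (hmm : mmS G R (J.image c ∪ T) ≤ F) :
    E + 2 * J.card ≤ (q - p) + 3 + ((J.image c).card + T.card) + F := by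
  have hcov : ∀ w ∈ J.image c ∪ T, Cov G R w := by
    intro w hw
    rw [mem_union, mem_image] at hw
    rcases hw with ⟨j, hj, rfl⟩ | hw
    · exact hcat.cov j (hJ j hj).1
    · exact hT w hw
  have key := rlaw_path hG (seg_isP hcat hp hpq hq) (J.image c ∪ T) hcov
  have h1 : J.card ≤ ∑ w ∈ J.image c ∪ T, eS G z p q w :=
    eS_sum_ge hcat hJ (fun j hj => mem_union_left _ (mem_image_of_mem _ hj))
  have h2 : ∑ w ∈ J.image c ∪ T, eS G z p q w =
      ∑ w ∈ J.image c ∪ T, CLB.H3.ek G (fun i => z (i + p)) (q - p) w :=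
    Finset.sum_congr rfl fun w _ => eS_eq_ek z hpq w
  have h3 := Finset.card_union_le (J.image c) T
  omega

/-- Open vertices. -/
theorem law_open (hG : ClassC G R) (hcat : Cat G R m z c) {p q : ℕ} (hp : 1 ≤ p) (hpq : p ≤ q)
    (hq : q ≤ m) {J : Finset ℕ} (hJ : ∀ j ∈ J, j ≤ m + 1 ∧ p ≤ pos m j ∧ pos m j ≤ q)
    (hnm : ∀ i ∈ J, ∀ j ∈ J, ¬ Me G R (c i) (c j)) {T : Finset V}
    (hT : ∀ t ∈ T, (∃ j ∈ J, Lk G R (c j) t) ∧ (∀ j ∈ J, c j ≠ t ∧ ¬ Me G R (c j) t) ∧
      ∀ t' ∈ T, ¬ Me G R t t') :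
    2 * J.card + T.card ≤ (q - p) + 3 + (J.image c).card := by
  have hdis : Disjoint (J.image c) T := by
    rw [Finset.disjoint_left]
    intro w hw hw'
    rw [mem_image] at hw
    obtain ⟨j, hj, rfl⟩ := hw
    exact ((hT _ hw').2.1 j hj).1 rfl
  have hll : 2 * T.card ≤ llS G R (J.image c ∪ T) := by
    unfold llS
    rw [Finset.sum_union hdis]
    have h1 : T.card ≤ ∑ w ∈ T, ((J.image c ∪ T).filter (fun v => He G R w v)).card := by
      rw [Finset.card_eq_sum_ones]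
      refine Finset.sum_le_sum fun t ht => ?_
      obtain ⟨j, hj, hl⟩ := (hT t ht).1
      exact Finset.card_pos.2 ⟨c j, by
        rw [mem_filter, mem_union]
        exact ⟨Or.inl (mem_image_of_mem _ hj), hl.symm.1⟩⟩
    have h2 : T.card ≤ ∑ w ∈ J.image c, ((J.image c ∪ T).filter (fun v => He G R w v)).card := by
      have h3 := Finset.sum_card_bipartiteAbove_eq_sum_card_bipartiteBelow (s := J.image c) (t := T)
        (fun w v => He G R w v)
      have h4 : T.card ≤ ∑ v ∈ T, (Finset.bipartiteBelow (fun w v => He G R w v) (J.image c) v).card := by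
        rw [Finset.card_eq_sum_ones]
        refine Finset.sum_le_sum fun t ht => ?_
        obtain ⟨j, hj, hl⟩ := (hT t ht).1
        exact Finset.card_pos.2 ⟨c j, by
          rw [Finset.mem_bipartiteBelow]
          exact ⟨mem_image_of_mem _ hj, hl.1⟩⟩
      rw [← h3] at h4
      refine h4.trans (Finset.sum_le_sum fun w _ => Finset.card_le_card fun v hv => ?_)
      rw [Finset.mem_bipartiteAbove] at hv
      rw [mem_filter, mem_union]
      exact ⟨Or.inr hv.1, hv.2⟩
    omega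
  have hmm : mmS G R (J.image c ∪ T) ≤ 0 := by
    unfold mmS
    refine le_of_eq (Finset.sum_eq_zero fun v hv => ?_)
    rw [Finset.card_eq_zero, Finset.filter_eq_empty_iff]
    intro u hu hm
    rw [mem_union, mem_image] at hv hu
    rcases hv with ⟨i, hi, rfl⟩ | hv <;> rcases hu with ⟨j, hj, rfl⟩ | hu
    · exact hnm i hi j hj hm
    · exact ((hT u hu).2.1 i hi).2 hm
    · exact ((hT v hv).2.1 j hj).2 hm.symm
    · exact (hT v hv).2.2 u hu hm
  have key := law_gen hG hcat hp hpq hq hJ (T := T) (fun t ht => by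
    obtain ⟨j, hj, hl⟩ := (hT t ht).1
    exact hl.2.2) hll hmm
  omega

/-- A link between two ports. -/
theorem law_link (hG : ClassC G R) (hcat : Cat G R m z c) {p q : ℕ} (hp : 1 ≤ p) (hpq : p ≤ q)
    (hq : q ≤ m) {J : Finset ℕ} (hJ : ∀ j ∈ J, j ≤ m + 1 ∧ p ≤ pos m j ∧ pos m j ≤ q)
    (hnm : ∀ i ∈ J, ∀ j ∈ J, ¬ Me G R (c i) (c j)) {i j : ℕ} (hi : i ∈ J) (hj : j ∈ J)
    (hl : Lk G R (c i) (c j)) : 2 * J.card + 2 ≤ (q - p) + 3 + (J.image c).card := by
  have hne : c i ≠ c j := fun he => by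
    have := hl.1.1
    rw [he] at this
    exact this.ne rfl
  have hll : 2 ≤ llS G R (J.image c ∪ ∅) := by
    rw [Finset.union_empty]
    unfold llS
    have h1 : 1 ≤ ((J.image c).filter (fun v => He G R (c i) v)).card :=
      Finset.card_pos.2 ⟨c j, by rw [mem_filter]; exact ⟨mem_image_of_mem _ hj, hl.1⟩⟩
    have h2 : 1 ≤ ((J.image c).filter (fun v => He G R (c j) v)).card :=
      Finset.card_pos.2 ⟨c i, by rw [mem_filter]; exact ⟨mem_image_of_mem _ hi, hl.symm.1⟩⟩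
    have h3 : ∑ v ∈ ({c i, c j} : Finset V), ((J.image c).filter (fun u => He G R v u)).card ≤
        ∑ v ∈ J.image c, ((J.image c).filter (fun u => He G R v u)).card := by
      refine Finset.sum_le_sum_of_subset ?_
      intro v hv
      simp only [mem_insert, mem_singleton] at hv
      rcases hv with rfl | rfl
      · exact mem_image_of_mem _ hi
      · exact mem_image_of_mem _ hj
    rw [Finset.sum_pair hne] at h3
    omega
  have hmm : mmS G R (J.image c ∪ ∅) ≤ 0 := by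
    rw [Finset.union_empty]
    unfold mmS
    refine le_of_eq (Finset.sum_eq_zero fun v hv => ?_)
    rw [Finset.card_eq_zero, Finset.filter_eq_empty_iff]
    intro u hu hm
    rw [mem_image] at hv hu
    obtain ⟨a, ha, rfl⟩ := hv
    obtain ⟨b, hb, rfl⟩ := hu
    exact hnm a ha b hb hm
  have key := law_gen hG hcat hp hpq hq hJ (T := ∅) (fun t ht => absurd ht (Finset.notMem_empty t))
    hll hmm
  rw [Finset.card_empty] at key
  omega

/-! ### The forms for chains -/

/-- The unit `u` is unseen, and linked to a port in `J`. -/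
def Opn (k : ℕ) (x y : ℕ → V) (c : ℕ → V) (J : Finset ℕ) (u : ℕ) : Prop :=
  1 ≤ u ∧ u ≤ k ∧ (∀ j ∈ J, c j ≠ x u ∧ c j ≠ y u) ∧
    ((∃ j ∈ J, 2 ≤ u ∧ c j = y (u - 1)) ∨ ∃ j ∈ J, u < k ∧ c j = x (u + 1))

lemma Opn.vert (hG : ClassC G R) (h : Chn G R k x y) {J : Finset ℕ} {u : ℕ} (hu : Opn k x y c J u) :
    ∃ t, (t = x u ∨ t = y u) ∧ (∃ j ∈ J, Lk G R (c j) t) ∧ ∀ j ∈ J, c j ≠ t ∧ ¬ Me G R (c j) t := by
  obtain ⟨h1, h2, h3, h4⟩ := hu
  have hm : ∀ j ∈ J, ¬ Me G R (c j) (x u) ∧ ¬ Me G R (c j) (y u) := by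
    intro j hj
    have hme := h.me u h1 h2
    constructor
    · intro hc
      exact (h3 j hj).2 (hG.matching hc.symm hme)
    · intro hc
      exact (h3 j hj).1 (hG.matching hc.symm hme.symm)
  rcases h4 with ⟨j, hj, h5, h6⟩ | ⟨j, hj, h5, h6⟩
  · refine ⟨x u, Or.inl rfl, ⟨j, hj, ?_⟩, fun i hi => ⟨(h3 i hi).1, (hm i hi).1⟩⟩
    have := h.lk (u - 1) (by omega) (by omega)
    rw [show u - 1 + 1 = u by omega] at this
    rw [h6]; exact this
  · refine ⟨y u, Or.inr rfl, ⟨j, hj, ?_⟩, fun i hi => ⟨(h3 i hi).2, (hm i hi).2⟩⟩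
    rw [h6]; exact (h.lk u h1 h5).symm

lemma unit_me (hG : ClassC G R) (h : Chn G R k x y) {u v : ℕ} (hu : 1 ≤ u ∧ u ≤ k)
    (hv : 1 ≤ v ∧ v ≤ k) {s t : V} (hs : s = x u ∨ s = y u) (ht : t = x v ∨ t = y v)
    (hm : Me G R s t) : u = v := by
  have hmu := h.me u hu.1 hu.2
  rcases hs with rfl | rfl
  · have e := hG.matching hm hmu
    rcases ht with rfl | rfl
    · exact absurd e (h.xy v u hv.1 hv.2 hu.1 hu.2)
    · exact (h.injy _ _ hv.1 hv.2 hu.1 hu.2 e).symm
  · have e := hG.matching hm hmu.symm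
    rcases ht with rfl | rfl
    · exact (h.injx _ _ hv.1 hv.2 hu.1 hu.2 e).symm
    · exact absurd e.symm (h.xy u v hu.1 hu.2 hv.1 hv.2)

/-- No open unit. -/
theorem law0 (hG : ClassC G R) (hcat : Cat G R m z c) {p q : ℕ} (hp : 1 ≤ p) (hpq : p ≤ q)
    (hq : q ≤ m) {J : Finset ℕ} (hJ : ∀ j ∈ J, j ≤ m + 1 ∧ p ≤ pos m j ∧ pos m j ≤ q)
    (hnm : ∀ i ∈ J, ∀ j ∈ J, ¬ Me G R (c i) (c j)) :
    2 * J.card ≤ (q - p) + 3 + (J.image c).card := by
  have key := law_open hG hcat hp hpq hq hJ hnm (T := ∅) (fun t ht => absurd ht (Finset.notMem_empty t))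
  rw [Finset.card_empty] at key
  omega

/-- One open unit. -/
theorem law1 (hG : ClassC G R) (h : Chn G R k x y) (hcat : Cat G R m z c) {p q : ℕ} (hp : 1 ≤ p)
    (hpq : p ≤ q) (hq : q ≤ m) {J : Finset ℕ} (hJ : ∀ j ∈ J, j ≤ m + 1 ∧ p ≤ pos m j ∧ pos m j ≤ q)
    (hnm : ∀ i ∈ J, ∀ j ∈ J, ¬ Me G R (c i) (c j)) {u : ℕ} (hu : Opn k x y c J u) :
    2 * J.card + 1 ≤ (q - p) + 3 + (J.image c).card := by
  obtain ⟨t, ht1, ht2, ht3⟩ := hu.vert hG h
  have key := law_open hG hcat hp hpq hq hJ hnm (T := {t}) (fun s hs => by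
    rw [mem_singleton] at hs
    subst hs
    refine ⟨ht2, ht3, fun t' ht' hm => ?_⟩
    rw [mem_singleton] at ht'
    subst ht'
    exact hm.1.ne rfl)
  rw [Finset.card_singleton] at key
  omega

/-- Two open units. -/
theorem law2 (hG : ClassC G R) (h : Chn G R k x y) (hcat : Cat G R m z c) {p q : ℕ} (hp : 1 ≤ p)
    (hpq : p ≤ q) (hq : q ≤ m) {J : Finset ℕ} (hJ : ∀ j ∈ J, j ≤ m + 1 ∧ p ≤ pos m j ∧ pos m j ≤ q)
    (hnm : ∀ i ∈ J, ∀ j ∈ J, ¬ Me G R (c i) (c j)) {u v : ℕ} (hu : Opn k x y c J u)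
    (hv : Opn k x y c J v) (huv : u ≠ v) :
    2 * J.card + 2 ≤ (q - p) + 3 + (J.image c).card := by
  obtain ⟨t, ht1, ht2, ht3⟩ := hu.vert hG h
  obtain ⟨s, hs1, hs2, hs3⟩ := hv.vert hG h
  have hts : t ≠ s := by
    rintro rfl
    rcases ht1 with h1 | h1 <;> rcases hs1 with h2 | h2
    · exact huv (h.injx _ _ hu.1 hu.2.1 hv.1 hv.2.1 (h1.symm.trans h2))
    · exact h.xy _ _ hu.1 hu.2.1 hv.1 hv.2.1 (h1.symm.trans h2)
    · exact h.xy _ _ hv.1 hv.2.1 hu.1 hu.2.1 (h2.symm.trans h1)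
    · exact huv (h.injy _ _ hu.1 hu.2.1 hv.1 hv.2.1 (h1.symm.trans h2))
  have hme : ¬ Me G R t s := fun hm => huv (unit_me hG h ⟨hu.1, hu.2.1⟩ ⟨hv.1, hv.2.1⟩ ht1 hs1 hm)
  have key := law_open hG hcat hp hpq hq hJ hnm (T := {t, s}) (fun w hw => by
    simp only [mem_insert, mem_singleton] at hw
    rcases hw with rfl | rfl
    · refine ⟨ht2, ht3, fun t' ht' hm => ?_⟩
      simp only [mem_insert, mem_singleton] at ht'
      rcases ht' with rfl | rfl
      · exact hm.1.ne rfl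
      · exact hme hm
    · refine ⟨hs2, hs3, fun t' ht' hm => ?_⟩
      simp only [mem_insert, mem_singleton] at ht'
      rcases ht' with rfl | rfl
      · exact hme hm.symm
      · exact hm.1.ne rfl)
  rw [Finset.card_pair hts] at key
  omega

/-! ### Mates -/

lemma nr_neg_swap : ∀ a b : Q, nr (neg a) b = true → nr (neg b) a = true := by decide

lemma ball_anti : ∀ a b : Q, nr a b = true → nr (neg a) b = false := by decide

lemma tight_nr {D : Ty} {s : ℕ → Q} {m : ℕ} (h : Tight D s m) {i : ℕ} (h1 : 1 ≤ i) (h2 : i < m) :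
    nr (neg (s i)) (s (i + 1)) = true := by
  have h3 := h.2.1 i h1 h2
  exact pre_near _ _ _ (mem_pre _ _ _ h3)

/-- Two labels at the positions `v` and `v + 2` of the path are not antipodal. -/
lemma tight_two {D : Ty} {s : ℕ → Q} {m : ℕ} (hm : 2 ≤ m) (h : Tight D s m) {i j : ℕ} (hi : i ≤ m + 1)
    (hj : j ≤ m + 1) (hij : pos m j = pos m i + 2) : s j ≠ neg (s i) := by
  intro he
  have n1 := h.near hm
  have n2 := h.nearR hm
  -- the label in the middle
  have hl : nr (neg (s i)) (s (pos m i + 1)) = true := by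
    unfold pos at hij ⊢
    by_cases h0 : i = 0
    · subst h0
      simp only [if_true] at hij ⊢
      exact n1.1
    · have h1 : i ≠ m + 1 := by
        rintro rfl
        rw [if_neg h0, if_pos rfl] at hij
        split_ifs at hij <;> omega
      rw [if_neg h0, if_neg h1] at hij ⊢
      have h2 : i < m := by split_ifs at hij <;> omega
      exact tight_nr h (by omega) h2
  have hr : nr (neg (s j)) (s (pos m i + 1)) = true := by
    have hji : pos m i + 1 = pos m j - 1 := by omega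
    rw [hji]
    unfold pos at hij ⊢
    by_cases h0 : j = m + 1
    · subst h0
      rw [if_neg (by omega), if_pos rfl]
      exact n2.1
    · have h1 : j ≠ 0 := by
        rintro rfl
        rw [if_pos rfl] at hij
        split_ifs at hij <;> omega
      rw [if_neg h1, if_neg h0] at hij ⊢
      have h2 : 2 ≤ j := by split_ifs at hij <;> omega
      have h3 := tight_nr h (i := j - 1) (by split_ifs at hij <;> omega) (by omega)
      rw [show j - 1 + 1 = j by omega] at h3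
      exact nr_neg_swap _ _ h3
  rw [he, H3DA.neg_neg] at hr
  have := ball_anti _ _ hr
  rw [hl] at this
  exact Bool.noConfusion this

end CLB.H95
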