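import Pool.Agent.Helper95_CLB.Glue

/-!
Maximum cuts with the maximum number of links, and the inequality (PM) obtained by switching a link.
-/

set_option autoImplicit false
set_option linter.unusedSectionVars false

namespace CLB.H95

open Finset Classical

variable {V : Type*}

/-- Links: cut edges between covered vertices. -/
def Lk (G : SimpleGraph V) (R : V → Bool) (u v : V) : Prop := He G R u v ∧ Cov G R u ∧ Cov G R v

lemma Lk.symm {G : SimpleGraph V} {R : V → Bool} {u v : V} (h : Lk G R u v) : Lk G R v u :=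
  ⟨h.1.symm, h.2.2, h.2.1⟩

variable [Fintype V] [DecidableEq V] {G : SimpleGraph V} {R : V → Bool}

lemma Lk.unique (hG : ClassC G R) {x y z : V} (h1 : Lk G R x y) (h2 : Lk G R x z) : y = z := by
  obtain ⟨x', hx⟩ := h1.2.1
  obtain ⟨y', hy⟩ := h1.2.2
  obtain ⟨z', hz⟩ := h2.2.2
  exact hG.link_unique hx hy hz h1.1 h2.1

/-- Ordered pairs of linked vertices. -/
noncomputable def lkF (G : SimpleGraph V) (R : V → Bool) : Finset (V × V) :=
  univ.filter (fun p => Lk G R p.1 p.2)

lemma mem_lkF {p : V × V} : p ∈ lkF G R ↔ Lk G R p.1 p.2 := by unfold lkF; simp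

/-- Minimum number of uncut edges and, under this condition, maximum number of links. -/
structure Opt (G : SimpleGraph V) (R : V → Bool) : Prop where
  min : MinD G ⟨R, R⟩
  max : ∀ R' : V → Bool, MinD G ⟨R', R'⟩ → (lkF G R').card ≤ (lkF G R).card

lemma minD_iff {R R' : V → Bool} : MinD G ⟨R, R'⟩ ↔ MinD G ⟨R, R⟩ := Iff.rfl

theorem exists_opt (G : SimpleGraph V) : ∃ R : V → Bool, Opt G R := by
  obtain ⟨x, -, hx⟩ := exists_min_of (fun _ : St V => True)
    ⟨⟨fun _ => true, fun _ => true⟩, trivial⟩ (fun y => cnt (isD G y))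
  have hmin : MinD G ⟨x.R, x.R⟩ := fun y => hx y trivial
  obtain ⟨R, hR, hmax⟩ := exists_min_of (fun R : V → Bool => MinD G ⟨R, R⟩) ⟨x.R, hmin⟩
    (fun R => (univ : Finset (V × V)).card - (lkF G R).card)
  refine ⟨R, hR, fun R' hR' => ?_⟩
  have h1 := hmax R' hR'
  have h2 : (lkF G R).card ≤ (univ : Finset (V × V)).card := Finset.card_le_card (subset_univ _)
  have h3 : (lkF G R').card ≤ (univ : Finset (V × V)).card := Finset.card_le_card (subset_univ _)
  omega

/-- Number of covered neighbours of `u` other than `a`. -/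
noncomputable def hcv (G : SimpleGraph V) (R : V → Bool) (u a : V) : ℕ :=
  (univ.filter (fun r => G.Adj u r ∧ r ≠ a ∧ Cov G R r)).card

/-- Linked vertices. -/
def Lkd (G : SimpleGraph V) (R : V → Bool) (x : V) : Prop := ∃ r, Lk G R x r

lemma card_from (hG : ClassC G R) (x : V) :
    ((lkF G R).filter (fun p => p.1 = x)).card ≤ if Lkd G R x then 1 else 0 := by
  split_ifs with h
  · rw [Finset.card_le_one]
    rintro ⟨p1, p2⟩ hp ⟨q1, q2⟩ hq
    simp only [mem_filter, mem_lkF] at hp hq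
    obtain ⟨hp, rfl⟩ := hp
    obtain ⟨hq, rfl⟩ := hq
    rw [Lk.unique hG hp hq]
  · rw [Nat.le_zero, Finset.card_eq_zero, Finset.filter_eq_empty_iff]
    rintro ⟨p1, p2⟩ hp rfl
    exact h ⟨p2, mem_lkF.1 hp⟩

lemma card_to (hG : ClassC G R) (x : V) :
    ((lkF G R).filter (fun p => p.2 = x)).card ≤ if Lkd G R x then 1 else 0 := by
  split_ifs with h
  · rw [Finset.card_le_one]
    rintro ⟨p1, p2⟩ hp ⟨q1, q2⟩ hq
    simp only [mem_filter, mem_lkF] at hp hq
    obtain ⟨hp, rfl⟩ := hp
    obtain ⟨hq, rfl⟩ := hq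
    rw [Lk.unique hG hp.symm hq.symm]
  · rw [Nat.le_zero, Finset.card_eq_zero, Finset.filter_eq_empty_iff]
    rintro ⟨p1, p2⟩ hp rfl
    exact h ⟨p1, (mem_lkF.1 hp).symm⟩

lemma card_bad (hG : ClassC G R) (x y : V) :
    ((lkF G R).filter (fun p => p.1 = x ∨ p.2 = y)).card + (if Lk G R x y then 1 else 0)
      ≤ (if Lkd G R x then 1 else 0) + (if Lkd G R y then 1 else 0) := by
  have h1 := card_from hG x
  have h2 := card_to hG y
  have h3 : (lkF G R).filter (fun p => p.1 = x ∨ p.2 = y)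
      = (lkF G R).filter (fun p => p.1 = x) ∪ (lkF G R).filter (fun p => p.2 = y) := by
    ext p; simp only [mem_filter, mem_union]; tauto
  rw [h3]
  have h4 := Finset.card_union_add_card_inter ((lkF G R).filter (fun p => p.1 = x))
    ((lkF G R).filter (fun p => p.2 = y))
  have h5 : (if Lk G R x y then 1 else 0) ≤ ((lkF G R).filter (fun p => p.1 = x)
      ∩ (lkF G R).filter (fun p => p.2 = y)).card := by
    split_ifs with h
    · refine Finset.card_pos.2 ⟨(x, y), ?_⟩
      simp only [mem_inter, mem_filter, mem_lkF, and_true]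
      exact ⟨h, h⟩
    · exact Nat.zero_le _
  omega

/-- The third neighbours of a link are uncovered. -/
lemma third_unc (hG : ClassC G R) {a b u : V} (hab : Lk G R a b) (hu : He G R a u) (hub : u ≠ b) :
    ¬ Cov G R u := fun h => hub (Lk.unique hG ⟨hu, hab.2.1, h⟩ hab)

theorem Opt.classC (hR : Opt G R) (hdeg : ∀ u, (univ.filter (fun v => G.Adj u v)).card ≤ 3)
    (htri : ∀ a b c, G.Adj a b → G.Adj b c → ¬ G.Adj a c) : ClassC G R :=
  ClassC.of_minD hdeg htri hR.min

/-- Degree bound: a vertex with three known neighbours has no other. -/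
lemma ClassC.third (hG : ClassC G R) {x p q r s : V} (hp : G.Adj x p) (hq : G.Adj x q)
    (hr : G.Adj x r) (hpq : p ≠ q) (hpr : p ≠ r) (hqr : q ≠ r) (hs : G.Adj x s) :
    s = p ∨ s = q ∨ s = r := by
  by_contra hcon
  push Not at hcon
  have h1 : ({s, p, q, r} : Finset V) ⊆ univ.filter (fun v => G.Adj x v) := by
    intro v hv
    simp only [mem_insert, mem_singleton] at hv
    simp only [mem_filter, mem_univ, true_and]
    rcases hv with rfl | rfl | rfl | rfl <;> assumption
  have h2 := Finset.card_le_card h1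
  have h3 := hG.deg3 x
  rw [Finset.card_insert_of_notMem (by simp [hcon.1, hcon.2.1, hcon.2.2]),
    Finset.card_insert_of_notMem (by simp [hpq, hpr]), Finset.card_insert_of_notMem (by simp [hqr]),
    Finset.card_singleton] at h2
  omega

/-- Switching a link preserves the minimality. -/
lemma minD_flip (hG : ClassC G R) (hR : MinD G ⟨R, R⟩) {a b a' b' : V} (hab : He G R a b)
    (ha : Me G R a a') (hb : Me G R b b') :
    MinD G ⟨flip {a, b} R, flip {a, b} R⟩ := by
  have hRab := hab.2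
  have hRa := ha.2
  have hRb := hb.2
  have haa : a' ≠ a := ha.ne.symm
  have hbb : b' ≠ b := hb.ne.symm
  have ha'b : a' ≠ b := fun h => hRab (by rw [hRa, h])
  have hb'a : b' ≠ a := fun h => hRab (by rw [hRb, h])
  have hs := cnt_switch (T := isD G ⟨R, R⟩) (T' := isD G ⟨flip {a, b} R, flip {a, b} R⟩)
    (T2 := isH G ⟨R, R⟩) (fun _ _ h => h.symm) (fun _ _ h => h.symm) {a, b}
    (by
      intro u v huv
      unfold isD
      simp only [flip_eq_iff, huv, true_iff])
    (by
      intro u v hu hv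
      unfold isD isH
      simp only [flip_eq_iff, hu, hv]
      simp)
  have h1 : 2 ≤ bd (isD G ⟨R, R⟩) {a, b} := by
    unfold bd
    rw [Finset.sum_pair hab.ne]
    have e1 : 0 < (univ.filter (fun v => v ∉ ({a, b} : Finset V) ∧ isD G ⟨R, R⟩ a v)).card :=
      Finset.card_pos.2 ⟨a', by simp [haa, ha'b, isD, ha.1, hRa]⟩
    have e2 : 0 < (univ.filter (fun v => v ∉ ({a, b} : Finset V) ∧ isD G ⟨R, R⟩ b v)).card :=
      Finset.card_pos.2 ⟨b', by simp [hbb, hb'a, isD, hb.1, hRb]⟩
    omega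
  have h2 : bd (isH G ⟨R, R⟩) {a, b} ≤ 2 := by
    unfold bd
    rw [Finset.sum_pair hab.ne]
    have e1 : (univ.filter (fun v => v ∉ ({a, b} : Finset V) ∧ isH G ⟨R, R⟩ a v)).card ≤ 1 := by
      rw [Finset.card_le_one]
      intro v hv w hw
      simp only [mem_filter, mem_univ, true_and, mem_insert, mem_singleton, not_or] at hv hw
      have hva' : a' ≠ v := fun h => hv.2.2 (by rw [← h]; exact hRa)
      have := hG.third ha.1 hab.1 hv.2.1 ha'b hva' (Ne.symm hv.1.2) hw.2.1
      rcases this with h | h | h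
      · exact absurd (by rw [h]; exact hRa) hw.2.2
      · exact absurd h hw.1.2
      · exact h.symm
    have e2 : (univ.filter (fun v => v ∉ ({a, b} : Finset V) ∧ isH G ⟨R, R⟩ b v)).card ≤ 1 := by
      rw [Finset.card_le_one]
      intro v hv w hw
      simp only [mem_filter, mem_univ, true_and, mem_insert, mem_singleton, not_or] at hv hw
      have hva' : b' ≠ v := fun h => hv.2.2 (by rw [← h]; exact hRb)
      have := hG.third hb.1 hab.1.symm hv.2.1 hb'a hva' (Ne.symm hv.1.1) hw.2.1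
      rcases this with h | h | h
      · exact absurd (by rw [h]; exact hRb) hw.2.2
      · exact absurd h hw.1.1
      · exact h.symm
    omega
  intro y
  have h3 := hR y
  omega

/-- (PM): the inequality obtained by switching a link in a maximum cut with the maximum number of
links. -/
theorem Opt.pm (hR : Opt G R) (hG : ClassC G R) {a b a' b' u v : V} (hab : He G R a b)
    (ha : Me G R a a') (hb : Me G R b b') (hu : He G R a u) (hub : u ≠ b) (hv : He G R b v)
    (hva : v ≠ a) :
    hcv G R u a + hcv G R v b + (if G.Adj u v then 1 else 0) + (if Lk G R a' b' then 1 else 0)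
      ≤ (if Lkd G R a' then 1 else 0) + (if Lkd G R b' then 1 else 0) := by
  have hlk : Lk G R a b := ⟨hab, ha.cov, hb.cov⟩
  have hRab := hab.2
  have hRa := ha.2
  have hRb := hb.2
  have hRu := hu.2
  have hRv := hv.2
  have haa : a' ≠ a := ha.ne.symm
  have hbb : b' ≠ b := hb.ne.symm
  have ha'b : a' ≠ b := fun h => hRab (by rw [hRa, h])
  have hb'a : b' ≠ a := fun h => hRab (by rw [hRb, h])
  have hua : u ≠ a := hu.ne.symm
  have hvb : v ≠ b := hv.ne.symm
  have hu0 : ¬ Cov G R u := third_unc hG hlk hu hub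
  have hv0 : ¬ Cov G R v := third_unc hG hlk.symm hv hva
  have hRuv : R u ≠ R v := by
    intro h
    revert hRab hRu hRv
    rw [h]
    rcases R a <;> rcases R b <;> rcases R v <;> simp
  have huv : u ≠ v := fun h => hRuv (by rw [h])
  set W : Finset V := {a, b} with hW
  set R1 := flip W R with hR1
  have hmin := minD_flip hG hR.min hab ha hb
  have hmax := hR.max R1 hmin
  -- edges not touching `W`
  have houtM : ∀ x y, x ∉ W → y ∉ W → (Me G R1 x y ↔ Me G R x y) := by
    intro x y hx hy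
    unfold Me
    rw [hR1, flip_eq_iff]
    simp [hx, hy]
  have houtH : ∀ x y, x ∉ W → y ∉ W → (He G R1 x y ↔ He G R x y) := by
    intro x y hx hy
    unfold He
    rw [hR1, Ne, flip_eq_iff]
    simp [hx, hy]
  have haW : a ∈ W := by simp [hW]
  have hbW : b ∈ W := by simp [hW]
  have hnW : ∀ x, x ∉ W ↔ x ≠ a ∧ x ≠ b := by intro x; simp [hW]
  have hMau : Me G R1 a u := by
    unfold Me
    refine ⟨hu.1, ?_⟩
    rw [hR1, flip_eq_iff]
    have : u ∉ W := (hnW u).2 ⟨hua, hub⟩
    simp [haW, this, hRu]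
  have hMbv : Me G R1 b v := by
    unfold Me
    refine ⟨hv.1, ?_⟩
    rw [hR1, flip_eq_iff]
    have : v ∉ W := (hnW v).2 ⟨hva, hvb⟩
    simp [hbW, this, hRv]
  have hHab : He G R1 a b := by
    unfold He
    refine ⟨hab.1, ?_⟩
    rw [hR1, Ne, flip_eq_iff]
    simp [haW, hbW, hRab]
  -- covered vertices stay covered except the two mates
  have hcov : ∀ x, Cov G R x → x ≠ a' → x ≠ b' → Cov G R1 x := by
    intro x hx hxa hxb
    by_cases h1 : x = a
    · rw [h1]; exact hMau.cov
    by_cases h2 : x = b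
    · rw [h2]; exact hMbv.cov
    obtain ⟨m, hm⟩ := hx
    have hma : m ≠ a := by
      rintro rfl
      exact hxa (hG.matching hm.symm ha)
    have hmb : m ≠ b := by
      rintro rfl
      exact hxb (hG.matching hm.symm hb)
    exact ⟨m, (houtM x m ((hnW x).2 ⟨h1, h2⟩) ((hnW m).2 ⟨hma, hmb⟩)).2 hm⟩
  -- old links survive
  have hold : ∀ x y, Lk G R x y → x ≠ a' → x ≠ b' → y ≠ a' → y ≠ b' → Lk G R1 x y := by
    intro x y h h1 h2 h3 h4
    refine ⟨?_, hcov x h.2.1 h1 h2, hcov y h.2.2 h3 h4⟩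
    by_cases hxa : x = a
    · subst hxa
      rw [Lk.unique hG h hlk]; exact hHab
    by_cases hxb : x = b
    · subst hxb
      rw [Lk.unique hG h hlk.symm]; exact hHab.symm
    by_cases hya : y = a
    · subst hya
      rw [Lk.unique hG h.symm hlk]; exact hHab.symm
    by_cases hyb : y = b
    · subst hyb
      rw [Lk.unique hG h.symm hlk.symm]; exact hHab
    exact (houtH x y ((hnW x).2 ⟨hxa, hxb⟩) ((hnW y).2 ⟨hya, hyb⟩)).2 h.1
  have hHu : ∀ r, G.Adj u r → He G R u r := fun r h => ⟨h, fun h' => hu0 ⟨r, h, h'⟩⟩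
  have hHv : ∀ r, G.Adj v r → He G R v r := fun r h => ⟨h, fun h' => hv0 ⟨r, h, h'⟩⟩
  have huW : u ∉ W := (hnW u).2 ⟨hua, hub⟩
  have hvW : v ∉ W := (hnW v).2 ⟨hva, hvb⟩
  -- new links at `u`
  have hnewu : ∀ r, G.Adj u r → r ≠ a → Cov G R r → Lk G R1 u r := by
    intro r hr hra hrc
    have hrb : r ≠ b := by
      rintro rfl
      exact hG.tri a r u hab.1 hr.symm hu.1
    have hr1 : r ≠ a' := by
      rintro rfl
      exact hG.tri a r u ha.1 hr.symm hu.1
    have hr2 : r ≠ b' := by
      rintro rfl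
      apply (hHu r hr).2
      revert hRab hRu hRb
      rcases R a <;> rcases R b <;> rcases R r <;> rcases R u <;> simp
    exact ⟨(houtH u r huW ((hnW r).2 ⟨hra, hrb⟩)).2 (hHu r hr), hMau.cov', hcov r hrc hr1 hr2⟩
  have hnewv : ∀ r, G.Adj v r → r ≠ b → Cov G R r → Lk G R1 v r := by
    intro r hr hrb hrc
    have hra : r ≠ a := by
      rintro rfl
      exact hG.tri b r v hab.1.symm hr.symm hv.1
    have hr1 : r ≠ b' := by
      rintro rfl
      exact hG.tri b r v hb.1 hr.symm hv.1
    have hr2 : r ≠ a' := by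
      rintro rfl
      apply (hHv r hr).2
      revert hRab hRv hRa
      rcases R a <;> rcases R b <;> rcases R r <;> rcases R v <;> simp
    exact ⟨(houtH v r hvW ((hnW r).2 ⟨hra, hrb⟩)).2 (hHv r hr), hMbv.cov', hcov r hrc hr2 hr1⟩
  have hnewuv : G.Adj u v → Lk G R1 u v := fun h =>
    ⟨(houtH u v huW hvW).2 (hHu v h), hMau.cov', hMbv.cov'⟩
  -- the sets
  set Su := univ.filter (fun r => G.Adj u r ∧ r ≠ a ∧ Cov G R r) with hSu
  set Sv := univ.filter (fun r => G.Adj v r ∧ r ≠ b ∧ Cov G R r) with hSv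
  set Suv : Finset V := if G.Adj u v then {v} else ∅ with hSuv
  set B1 := (lkF G R).filter (fun p => p.1 = a' ∨ p.2 = b') with hB1
  set B2 := (lkF G R).filter (fun p => p.1 = b' ∨ p.2 = a') with hB2
  have c1 := card_bad hG a' b'
  have c2 := card_bad hG b' a'
  set N1 := (Su ∪ Suv).image (fun r => (u, r)) with hN1
  set N2 := (Su ∪ Suv).image (fun r => (r, u)) with hN2
  set N3 := Sv.image (fun r => (v, r)) with hN3
  set N4 := Sv.image (fun r => (r, v)) with hN4
  have hmemU : ∀ r, r ∈ Su ∪ Suv → Lk G R1 u r ∧ (Cov G R r ∨ r = v) := by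
    intro r hr
    rw [mem_union] at hr
    rcases hr with hr | hr
    · rw [hSu, mem_filter] at hr
      exact ⟨hnewu r hr.2.1 hr.2.2.1 hr.2.2.2, Or.inl hr.2.2.2⟩
    · rw [hSuv] at hr
      split_ifs at hr with h
      · rw [mem_singleton] at hr
        subst hr
        exact ⟨hnewuv h, Or.inr rfl⟩
      · simp at hr
  have hmemV : ∀ r, r ∈ Sv → Lk G R1 v r ∧ Cov G R r := by
    intro r hr
    rw [hSv, mem_filter] at hr
    exact ⟨hnewv r hr.2.1 hr.2.2.1 hr.2.2.2, hr.2.2.2⟩
  have hsub : (lkF G R \ (B1 ∪ B2)) ∪ (N1 ∪ N2 ∪ (N3 ∪ N4)) ⊆ lkF G R1 := by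
    rintro ⟨x, y⟩ hp
    rw [mem_lkF]
    simp only [mem_union, mem_sdiff] at hp
    rcases hp with ⟨hp, hnot⟩ | (hp | hp) | (hp | hp)
    · rw [mem_lkF] at hp
      have hnot1 : ¬ (x = a' ∨ y = b') := fun h => hnot (Or.inl (by
        rw [hB1, mem_filter]; exact ⟨mem_lkF.2 hp, h⟩))
      have hnot2 : ¬ (x = b' ∨ y = a') := fun h => hnot (Or.inr (by
        rw [hB2, mem_filter]; exact ⟨mem_lkF.2 hp, h⟩))
      push Not at hnot1 hnot2
      exact hold x y hp hnot1.1 hnot2.1 hnot2.2 hnot1.2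
    · rw [hN1, mem_image] at hp
      obtain ⟨r, hr, he⟩ := hp
      rw [Prod.mk.injEq] at he
      obtain ⟨rfl, rfl⟩ := he
      exact (hmemU _ hr).1
    · rw [hN2, mem_image] at hp
      obtain ⟨r, hr, he⟩ := hp
      rw [Prod.mk.injEq] at he
      obtain ⟨rfl, rfl⟩ := he
      exact (hmemU _ hr).1.symm
    · rw [hN3, mem_image] at hp
      obtain ⟨r, hr, he⟩ := hp
      rw [Prod.mk.injEq] at he
      obtain ⟨rfl, rfl⟩ := he
      exact (hmemV _ hr).1
    · rw [hN4, mem_image] at hp
      obtain ⟨r, hr, he⟩ := hp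
      rw [Prod.mk.injEq] at he
      obtain ⟨rfl, rfl⟩ := he
      exact (hmemV _ hr).1.symm
  have hd1 : Disjoint (lkF G R \ (B1 ∪ B2)) (N1 ∪ N2 ∪ (N3 ∪ N4)) := by
    rw [Finset.disjoint_left]
    rintro ⟨x, y⟩ hp hq
    have hp' := mem_lkF.1 (Finset.mem_sdiff.1 hp).1
    simp only [mem_union] at hq
    rcases hq with (hq | hq) | (hq | hq)
    · rw [hN1, mem_image] at hq
      obtain ⟨r, hr, he⟩ := hq
      rw [Prod.mk.injEq] at he
      exact hu0 (he.1 ▸ hp'.2.1)
    · rw [hN2, mem_image] at hq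
      obtain ⟨r, hr, he⟩ := hq
      rw [Prod.mk.injEq] at he
      exact hu0 (he.2 ▸ hp'.2.2)
    · rw [hN3, mem_image] at hq
      obtain ⟨r, hr, he⟩ := hq
      rw [Prod.mk.injEq] at he
      exact hv0 (he.1 ▸ hp'.2.1)
    · rw [hN4, mem_image] at hq
      obtain ⟨r, hr, he⟩ := hq
      rw [Prod.mk.injEq] at he
      exact hv0 (he.2 ▸ hp'.2.2)
  have hUne : ∀ r, r ∈ Su ∪ Suv → r ≠ u := by
    rintro r hr rfl
    exact (hmemU _ hr).1.1.ne rfl
  have hd2 : Disjoint N1 N2 := by
    rw [Finset.disjoint_left]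
    rintro ⟨x, y⟩ hp hq
    rw [hN1, mem_image] at hp
    rw [hN2, mem_image] at hq
    obtain ⟨r, hr, he⟩ := hp
    obtain ⟨r', hr', he'⟩ := hq
    rw [Prod.mk.injEq] at he he'
    exact hUne r hr (he.2.trans he'.2.symm)
  have hd3 : Disjoint N3 N4 := by
    rw [Finset.disjoint_left]
    rintro ⟨x, y⟩ hp hq
    rw [hN3, mem_image] at hp
    rw [hN4, mem_image] at hq
    obtain ⟨r, hr, he⟩ := hp
    obtain ⟨r', hr', he'⟩ := hq
    rw [Prod.mk.injEq] at he he'
    exact hv0 ((he.2.trans he'.2.symm) ▸ (hmemV r hr).2)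
  have hd4 : Disjoint (N1 ∪ N2) (N3 ∪ N4) := by
    rw [Finset.disjoint_left]
    rintro ⟨x, y⟩ hp hq
    simp only [mem_union] at hp hq
    rcases hp with hp | hp <;> rcases hq with hq | hq
    · rw [hN1, mem_image] at hp
      rw [hN3, mem_image] at hq
      obtain ⟨r, hr, he⟩ := hp
      obtain ⟨r', hr', he'⟩ := hq
      rw [Prod.mk.injEq] at he he'
      exact huv (he.1.trans he'.1.symm)
    · rw [hN1, mem_image] at hp
      rw [hN4, mem_image] at hq
      obtain ⟨r, hr, he⟩ := hp
      obtain ⟨r', hr', he'⟩ := hq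
      rw [Prod.mk.injEq] at he he'
      exact hu0 ((he.1.trans he'.1.symm) ▸ (hmemV r' hr').2)
    · rw [hN2, mem_image] at hp
      rw [hN3, mem_image] at hq
      obtain ⟨r, hr, he⟩ := hp
      obtain ⟨r', hr', he'⟩ := hq
      rw [Prod.mk.injEq] at he he'
      exact hu0 ((he.2.trans he'.2.symm) ▸ (hmemV r' hr').2)
    · rw [hN2, mem_image] at hp
      rw [hN4, mem_image] at hq
      obtain ⟨r, hr, he⟩ := hp
      obtain ⟨r', hr', he'⟩ := hq
      rw [Prod.mk.injEq] at he he'
      exact huv (he.2.trans he'.2.symm)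
  have hinj1 : ∀ w : V, Function.Injective (fun r : V => (w, r)) := fun w r s h => by
    rw [Prod.mk.injEq] at h; exact h.2
  have hinj2 : ∀ w : V, Function.Injective (fun r : V => (r, w)) := fun w r s h => by
    rw [Prod.mk.injEq] at h; exact h.1
  have n1 : N1.card = (Su ∪ Suv).card := Finset.card_image_of_injective _ (hinj1 u)
  have n2 : N2.card = (Su ∪ Suv).card := Finset.card_image_of_injective _ (hinj2 u)
  have n3 : N3.card = Sv.card := Finset.card_image_of_injective _ (hinj1 v)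
  have n4 : N4.card = Sv.card := Finset.card_image_of_injective _ (hinj2 v)
  have n5 : (Su ∪ Suv).card = Su.card + (if G.Adj u v then 1 else 0) := by
    rw [Finset.card_union_of_disjoint]
    · congr 1
      rw [hSuv]
      split_ifs <;> simp
    · rw [Finset.disjoint_left]
      intro r hr hr'
      rw [hSu, mem_filter] at hr
      rw [hSuv] at hr'
      split_ifs at hr' with h
      · rw [mem_singleton] at hr'
        exact hv0 (hr' ▸ hr.2.2.2)
      · simp at hr'
  have hcard := Finset.card_le_card hsub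
  rw [Finset.card_union_of_disjoint hd1, Finset.card_union_of_disjoint hd4,
    Finset.card_union_of_disjoint hd2, Finset.card_union_of_disjoint hd3, n1, n2, n3, n4, n5] at hcard
  have hb1 : (B1 ∪ B2).card ≤ B1.card + B2.card := Finset.card_union_le _ _
  have hb2 : (lkF G R).card ≤ (lkF G R \ (B1 ∪ B2)).card + (B1 ∪ B2).card := by
    have := Finset.le_card_sdiff (B1 ∪ B2) (lkF G R)
    omega
  have hsw : Lk G R b' a' ↔ Lk G R a' b' := ⟨Lk.symm, Lk.symm⟩
  have e1 : hcv G R u a = Su.card := rfl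
  have e2 : hcv G R v b = Sv.card := rfl
  rw [e1, e2]
  simp only [hsw] at c2
  rw [← hB1] at c1
  rw [← hB2] at c2
  omega

end CLB.H95
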