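import Pool.Agent.Helper95_CLB.OnlStart

/-!
Open chains of three units with a path of two vertices at the first two units and another one at the last
two units.
-/

set_option autoImplicit false
set_option linter.unusedSectionVars false

namespace CLB.H95

open Finset Classical
open H3DA (Q neg nr)
open CLB.H3 (CExt Cat IsTwo Fits UPath he_of_unc cat_structure chn_side)

variable {V : Type*} {G H : SimpleGraph V} {R : V → Bool} [Fintype V] {k : ℕ} {x y : ℕ → V}

lemma nr_nn : ∀ a b : Q, nr (neg a) (neg b) = nr a b := by decide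

lemma cext_neg {m : ℕ} {s : ℕ → Q} (h : CExt m (fun j => neg (s j))) : CExt m s := by
  obtain ⟨w, h1, h2, h3, h4⟩ := h
  refine ⟨fun i => neg (w i), fun i i1 i2 => ?_, ?_, ?_, fun i i1 i2 => ?_⟩
  · have := h1 i i1 i2
    rw [← nr_nn, H3DA.neg_neg] at this
    exact this
  · have := h2
    rw [← nr_nn, H3DA.neg_neg] at this
    exact this
  · have := h3
    rw [← nr_nn, H3DA.neg_neg] at this
    exact this
  · rw [nr_nn]; exact h4 i i1 i2

/-- The reached labels, the last two units. -/
lemma alpha_reachR (h : Chn G R k x y) (hk : k = 3) {c : ℕ → V} {a b : ℕ}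
    (hab : (a ≤ 1 ∧ 2 ≤ b ∧ b ≤ 3) ∨ (2 ≤ a ∧ a ≤ 3 ∧ b ≤ 1)) (ha : c a = y 3) (hb : c b = y 2)
    (hout : ∀ j ≤ 3, j ≠ a → j ≠ b → ¬ InC k x y (c j)) {f : V → Q} {g : ℕ → Q}
    (hok : ok2 (neg (f (c (mt a)))) (neg (f (c (mt b)))) (g 3) (g 2) = true) :
    CExt 2 (fun j => lbl k x y g f (c j)) := by
  unfold ok2 at hok
  rw [Bool.and_eq_true] at hok
  apply cext_neg
  refine cext2_of_ok hab ?_
  show ext2 (neg (lbl k x y g f (c a))) (neg (lbl k x y g f (c (mt a))))
    (neg (lbl k x y g f (c (mt b)))) (neg (lbl k x y g f (c b))) = true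
  have e1 : ¬ InC k x y (c (mt a)) := hout _ (by unfold mt; split_ifs <;> omega)
    (by unfold mt; split_ifs <;> omega) (by unfold mt; split_ifs <;> omega)
  have e2 : ¬ InC k x y (c (mt b)) := hout _ (by unfold mt; split_ifs <;> omega)
    (by unfold mt; split_ifs <;> omega) (by unfold mt; split_ifs <;> omega)
  rw [lbl_out e1, lbl_out e2, ha, hb, lbl_y h (by omega) (by omega), lbl_y h (by omega) (by omega),
    sg_odd (by omega), sg_even (by omega), H3DA.neg_neg, H3DA.neg_neg]
  exact hok.2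

/-- The case of three units. -/
theorem open_three (hR : Opt G R) (hG : ClassC G R) (hle : H ≤ G) (hc : Crit H R)
    (h : Chn H R k x y) (hk : k = 3) (hends : (∀ w, ¬ Lk H R (x 1) w) ∧ ∀ w, ¬ Lk H R (y k) w)
    {zA cA : ℕ → V} (hA : Cat H R 2 zA cA) (hAL : AL k x y cA (x 1) (x 2))
    {zB cB : ℕ → V} (hB : Cat H R 2 zB cB) (hBL : AL k x y cB (y 3) (y 2))
    (hC : ∀ f, OffC H R k x y f → ∀ v₀ z₀, v₀ = x k → ∀ m z c, Cat H R m z c →
      (∃ j ≤ m + 1, InC k x y (c j)) → cSupp m z ≠ cSupp 2 zA → cSupp m z ≠ cSupp 2 zB →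
        ∃ φ, OKill H R k x y f (cSupp m z) v₀ z₀ φ) : False := by
  have hH := hG.mono hle
  subst hk
  obtain ⟨f, hf⟩ := exists_off h hc
  obtain ⟨a, b, hab, ha, hb, hout⟩ := hAL
  obtain ⟨a', b', hab', ha', hb', hout'⟩ := hBL
  -- the designated port
  obtain ⟨z₀, hz₀⟩ : ∃ z₀, (prt H R (x 3)).card = 0 ∨ z₀ ∈ prt H R (x 3) := by
    by_cases h0 : (prt H R (x 3)).card = 0
    · exact ⟨x 3, Or.inl h0⟩
    · obtain ⟨v, hv⟩ := Finset.card_pos.1 (Nat.pos_of_ne_zero h0)
      exact ⟨v, Or.inr hv⟩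
  obtain ⟨Φ, hΦ⟩ := exists_oforb hH h (f := f) (cSupp 2 zA ∪ cSupp 2 zB) (x 3) z₀
  have hd : Dep 3 x y Φ := fun i h1 h2 z g g' hs => hΦ.dep i h1 h2 z g g' (hs.mono (by omega))
  have tA : ∀ v w g, w ∈ cSupp 2 zA → Φ v w g = ∅ := fun v w g hw => hΦ.triv v w g (Or.inl hw)
  have tB : ∀ v w g, w ∈ cSupp 2 zB → Φ v w g = ∅ := fun v w g hw => hΦ.triv v w g (Or.inr hw)
  -- the four ports
  have prtOf : ∀ {z c : ℕ → V}, Cat H R 2 z c → ∀ j ≤ 2 + 1, z (cl 2 j) ∈ prt H R (c j) ∧
      z (cl 2 j) ∈ cSupp 2 z := by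
    intro z c hZ j hj
    have pj := cl_mem hZ.pos hj
    rw [mem_prt]
    exact ⟨⟨cat_adj_cl hZ hj, hZ.unc _ pj.1 pj.2⟩, mem_cSupp pj.1 pj.2⟩
  obtain ⟨qa, qa'⟩ := prtOf hA a (by omega)
  obtain ⟨qb, qb'⟩ := prtOf hA b (by omega)
  obtain ⟨ra, ra'⟩ := prtOf hB a' (by omega)
  obtain ⟨rb, rb'⟩ := prtOf hB b' (by omega)
  rw [ha] at qa
  rw [hb] at qb
  rw [ha'] at ra
  rw [hb'] at rb
  have hlk1 : Lk H R (y 1) (x 2) := h.lk 1 le_rfl (by omega)
  have hlk2 : Lk H R (y 2) (x 3) := h.lk 2 (by omega) (by omega)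
  -- the first unit
  have g0 : ℕ → Q := fun _ => (false, false, false)
  have h20 : ∀ v z, (Φ v z g0).card ≤ 2 := by
    intro v z
    have := hΦ.two v z g0 g0
    rwa [Finset.union_self] at this
  have l1 := lst_card (G := H) (R := R) (x := x) (y := y) (fun v z => Φ v z g0) 1
  have e1 := cst_le_zero h20 (n := 1) (prt_card hH (h.cov (InC.x le_rfl h.pos))) qa (tA _ _ _ qa')
  have e2 := cst_le h20 (prt_card_lk hH hlk1)
  obtain ⟨t, ht, t', ht', htt⟩ := Finset.one_lt_card.1
    (show 1 < ((lst H R x y (fun v z => Φ v z g0) 1).erase (f (cA (mt a)))).card by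
      have := Finset.pred_card_le_card_erase (s := lst H R x y (fun v z => Φ v z g0) 1)
        (a := f (cA (mt a)))
      omega)
  -- two histories
  set g : ℕ → Q := fun _ => t with hg
  set g' : ℕ → Q := fun _ => t' with hg'
  set Ψ := uni Φ g g' with hΨ
  have hΨ2 : ∀ v z, (Ψ v z).card ≤ 2 := fun v z => hΦ.two v z g g'
  -- the last unit
  have l3 := lst_card (G := H) (R := R) (x := x) (y := y) Ψ 3
  have e3 : cst H R Ψ (y 3) ≤ 2 * ((prt H R (y 3)).card - 1) := by
    refine cst_le_zero hΨ2 (by omega) ra ?_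
    simp only [hΨ, uni]
    rw [tB _ _ _ ra', tB _ _ _ ra']; simp
  have py3 := prt_card hH (h.cov (InC.y (x := x) h.pos le_rfl))
  have px3 := prt_card_lk hH hlk2.symm
  have hL3 : 5 ≤ (lst H R x y Ψ 3).card := by
    have e4 := cst_le hΨ2 px3
    by_cases h3 : (prt H R (y 3)).card ≤ 1
    · omega
    · rcases hz₀ with hz₀ | hz₀
      · have := cst_le hΨ2 (le_of_eq hz₀)
        omega
      · have hpm := pm_sub hR hG hle hc hlk2.1.symm (h.me 3 h.pos le_rfl)
          (h.me 2 (by omega) (by omega)).symm hz₀ rb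
        rw [if_neg h3] at hpm
        have hle1 : (if (prt H R (x 2)).card ≤ 1 then 1 else 0) ≤ 1 := by split_ifs <;> omega
        have hin : ¬ InnerPt H R (zB (cl 2 b')) := by
          intro hin
          have pb := cl_mem hB.pos (show b' ≤ 2 + 1 by omega)
          have := innerPt_pos hB pb.1 pb.2 hin
          omega
        have h4 : hcv H R (zB (cl 2 b')) (y 2) ≠ 0 := fun h0 => hin
          (innerPt_of_hcv hH hc rb (h.cov (InC.y (by omega) (by omega))) h0)
        have h5 := innerPt_of_hcv hH hc hz₀ (h.cov (InC.x h.pos le_rfl)) (by omega)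
        have e2 := cst_le_light hΨ2 (n := 0) px3 hz₀ (by
          simp only [hΨ, uni]
          exact hΦ.one hz₀ h5 g g')
        omega
  set A3 := (lst H R x y Ψ 3).erase (neg (f (cB (mt a')))) with hA3
  have hA4 : 4 ≤ A3.card := by
    have := Finset.pred_card_le_card_erase (s := lst H R x y Ψ 3) (a := neg (f (cB (mt a'))))
    rw [← hA3] at this
    omega
  -- the label of the second unit
  have c1 := alpha_lost2 (f (cA (mt a))) (f (cA (mt b))) (A := {t, t'}) (by rw [Finset.card_pair htt])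
    (by
      simp only [mem_insert, mem_singleton, not_or]
      exact ⟨fun h' => Finset.notMem_erase _ _ (h' ▸ ht), fun h' => Finset.notMem_erase _ _ (h' ▸ ht')⟩)
  have c2 := alpha_lost4 (neg (f (cB (mt a')))) (neg (f (cB (mt b')))) hA4 (Finset.notMem_erase _ _)
  obtain ⟨u, hu⟩ : ∃ u : Q, u ∉ (univ.filter (fun t₂ => ∀ a₁ ∈ ({t, t'} : Finset Q),
      ok2 (f (cA (mt a))) (f (cA (mt b))) a₁ t₂ = false)) ∪ (univ.filter (fun t₂ => ∀ a₁ ∈ A3,
      ok2 (neg (f (cB (mt a')))) (neg (f (cB (mt b')))) a₁ t₂ = false)) := by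
    by_contra hcon
    push Not at hcon
    have h8 : Fintype.card Q = 8 := by decide
    have := Finset.card_le_card (show (univ : Finset Q) ⊆ _ from fun u _ => hcon u)
    rw [Finset.card_univ, h8] at this
    have h9 := Finset.card_union_le (univ.filter (fun t₂ => ∀ a₁ ∈ ({t, t'} : Finset Q),
      ok2 (f (cA (mt a))) (f (cA (mt b))) a₁ t₂ = false)) (univ.filter (fun t₂ => ∀ a₁ ∈ A3,
      ok2 (neg (f (cB (mt a')))) (neg (f (cB (mt b')))) a₁ t₂ = false))
    omega
  simp only [mem_union, mem_filter, mem_univ, true_and, not_or, not_forall] at hu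
  obtain ⟨⟨t1, ht1, ok1⟩, ⟨t3, ht3, ok3⟩⟩ := hu
  have ok1 : ok2 (f (cA (mt a))) (f (cA (mt b))) t1 u = true := by simpa using ok1
  have ok3 : ok2 (neg (f (cB (mt a')))) (neg (f (cB (mt b')))) t3 u = true := by simpa using ok3
  have ht1' : t1 = t ∨ t1 = t' := by simpa using ht1
  -- the walk
  set mu : ℕ → Q := fun i => if i = 1 then t1 else if i = 2 then u else t3 with hmu
  have m1 : mu 1 = t1 := by simp [hmu]
  have m2 : mu 2 = u := by simp [hmu]
  have m3 : mu 3 = t3 := by simp [hmu]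
  have n1 : nr t1 u = true := by
    unfold ok2 at ok1
    rw [Bool.and_eq_true] at ok1
    exact ok1.1
  have n2 : nr t3 u = true := by
    unfold ok2 at ok3
    rw [Bool.and_eq_true] at ok3
    exact ok3.1
  have hp : PW H R x y Φ 3 mu := by
    refine ⟨fun i i1 i2 => ?_, fun i i1 i2 => ?_⟩
    · have : i = 1 ∨ i = 2 := by omega
      rcases this with rfl | rfl
      · rw [m1, m2]; exact n1
      · rw [m2, m3]; exact nr_symm n2
    · have : i = 1 ∨ i = 2 ∨ i = 3 := by omega
      rcases this with rfl | rfl | rfl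
      · rw [m1, olst_congr hd le_rfl (by omega) (h' := g0) (fun j j1 j2 => by omega)]
        rcases ht1' with h' | h' <;> rw [h']
        · exact Finset.mem_of_mem_erase ht
        · exact Finset.mem_of_mem_erase ht'
      · have l2 := lst_card (G := H) (R := R) (x := x) (y := y) (fun v z => Φ v z mu) 2
        have h2m : ∀ v z, (Φ v z mu).card ≤ 2 := by
          intro v z
          have := hΦ.two v z mu mu
          rwa [Finset.union_self] at this
        have f1 := cst_le_zero h2m (n := 0) (prt_card_lk hH hlk1.symm) qb (tA _ _ _ qb')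
        have f2 := cst_le_zero h2m (n := 0) (prt_card_lk hH hlk2) rb (tB _ _ _ rb')
        have f3 : lst H R x y (fun v z => Φ v z mu) 2 = univ := by
          apply Finset.eq_univ_of_card
          have h8 : Fintype.card Q = 8 := by decide
          have := Finset.card_le_univ (lst H R x y (fun v z => Φ v z mu) 2)
          omega
        show _ ∈ lst H R x y (fun v z => Φ v z mu) 2
        rw [f3]; exact mem_univ _
      · rw [m3]
        have ht3' : t3 ∈ lst H R x y Ψ 3 := Finset.mem_of_mem_erase ht3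
        rcases ht1' with h' | h'
        · have e : olst H R x y Φ mu 3 = olst H R x y Φ g 3 := by
            refine lst_congr' (fun z => hΦ.dep 3 (by omega) le_rfl z _ _ (fun j j1 j2 => ?_))
            have : j = 1 := by omega
            subst this
            rw [m1, h', hg]
          rw [e]; exact uni_left _ _ _ _ ht3'
        · have e : olst H R x y Φ mu 3 = olst H R x y Φ g' 3 := by
            refine lst_congr' (fun z => hΦ.dep 3 (by omega) le_rfl z _ _ (fun j j1 j2 => ?_))
            have : j = 1 := by omega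
            subst this
            rw [m1, h', hg']
          rw [e]; exact uni_right _ _ _ _ ht3'
  refine chain_contra hH hc h (Or.inr hends) hf (mu := mu) ?_
  refine fit_of_walk h hΦ hp (hends.2 _) ?_ ?_
  · rintro v p q hT hin (⟨j, j1, j2, rfl⟩ | ⟨j, j1, j2, rfl⟩)
    · exact absurd hT (fun hT => isTwo_not_cat hA j1 j2 hT)
    · exact absurd hT (fun hT => isTwo_not_cat hB j1 j2 hT)
  · intro m z c hC' hex
    by_cases hSA : cSupp m z = cSupp 2 zA
    · right
      rw [cext_iff_fits hC', hSA, ← cext_iff_fits hA]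
      exact alpha_reach h (by omega) hab ha hb hout (by rw [m1, m2]; exact ok1)
    · by_cases hSB : cSupp m z = cSupp 2 zB
      · right
        rw [cext_iff_fits hC', hSB, ← cext_iff_fits hB]
        exact alpha_reachR h rfl hab' ha' hb' hout' (by rw [m3, m2]; exact ok3)
      · left
        refine ⟨hC f hf (x 3) z₀ rfl m z c hC' hex hSA hSB, fun i i1 i2 hi => ?_⟩
        rcases hi with hi | hi
        · exact hSA (cSupp_eq hC' hA (mem_cSupp i1 i2) hi)
        · exact hSB (cSupp_eq hC' hB (mem_cSupp i1 i2) hi)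

end CLB.H95
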