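import Pool.Agent.Helper95_CLB.Onl

/-!
Online strategies on open chains: partial walks, the slack at the right end, and the contradiction when
every component has a strategy.
-/

set_option autoImplicit false
set_option linter.unusedSectionVars false

namespace CLB.H95

open Finset Classical
open H3DA (Q neg nr)
open CLB.H3 (CExt Cat IsTwo Fits UPath he_of_unc cat_structure chn_side)

variable {V : Type*} {G H : SimpleGraph V} {R : V → Bool} [Fintype V] {k : ℕ} {x y : ℕ → V}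

/-- The list of unit `i` for the history `h`. -/
noncomputable def olst (G : SimpleGraph V) (R : V → Bool) (x y : ℕ → V)
    (Φ : V → V → (ℕ → Q) → Finset Q) (h : ℕ → Q) (i : ℕ) : Finset Q :=
  lst G R x y (fun v z => Φ v z h) i

/-- A partial walk through the units `1, ..., n`. -/
structure PW (G : SimpleGraph V) (R : V → Bool) (x y : ℕ → V) (Φ : V → V → (ℕ → Q) → Finset Q)
    (n : ℕ) (h : ℕ → Q) : Prop where
  nwk : Nwk n h
  mem : ∀ i, 1 ≤ i → i ≤ n → h i ∈ olst G R x y Φ h i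

/-- The union of the forbidden sets of two histories. -/
noncomputable def uni (Φ : V → V → (ℕ → Q) → Finset Q) (h h' : ℕ → Q) : V → V → Finset Q :=
  fun v z => Φ v z h ∪ Φ v z h'

lemma lst_anti {Φ Φ' : V → V → Finset Q} (hs : ∀ v z, Φ v z ⊆ Φ' v z) (i : ℕ) :
    lst G R x y Φ' i ⊆ lst G R x y Φ i := by
  intro t ht
  rw [mem_lst] at ht ⊢
  exact ⟨fun z hz h' => ht.1 z hz (hs _ _ h'), fun z hz h' => ht.2 z hz (hs _ _ h')⟩

lemma uni_left (Φ : V → V → (ℕ → Q) → Finset Q) (h h' : ℕ → Q) (i : ℕ) :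
    lst G R x y (uni Φ h h') i ⊆ olst G R x y Φ h i :=
  lst_anti (fun _ _ => Finset.subset_union_left) i

lemma uni_right (Φ : V → V → (ℕ → Q) → Finset Q) (h h' : ℕ → Q) (i : ℕ) :
    lst G R x y (uni Φ h h') i ⊆ olst G R x y Φ h' i :=
  lst_anti (fun _ _ => Finset.subset_union_right) i

/-- Dependence on the history. -/
def Dep (k : ℕ) (x y : ℕ → V) (Φ : V → V → (ℕ → Q) → Finset Q) : Prop :=
  ∀ i, 1 ≤ i → i ≤ k → ∀ z h h', Same i h h' → Φ (x i) z h = Φ (x i) z h' ∧ Φ (y i) z h = Φ (y i) z h'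

lemma olst_congr {Φ : V → V → (ℕ → Q) → Finset Q} (hd : Dep k x y Φ) {i : ℕ} (h1 : 1 ≤ i) (h2 : i ≤ k)
    {h h' : ℕ → Q} (hs : Same i h h') : olst G R x y Φ h i = olst G R x y Φ h' i := by
  ext t
  unfold olst
  rw [mem_lst, mem_lst]
  have e : ∀ z, Φ (x i) z h = Φ (x i) z h' ∧ Φ (y i) z h = Φ (y i) z h' := fun z => hd i h1 h2 z h h' hs
  constructor
  · intro ht
    exact ⟨fun z hz => by rw [← (e z).1]; exact ht.1 z hz, fun z hz => by rw [← (e z).2]; exact ht.2 z hz⟩
  · intro ht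
    exact ⟨fun z hz => by rw [(e z).1]; exact ht.1 z hz, fun z hz => by rw [(e z).2]; exact ht.2 z hz⟩

lemma lst_congr' {Φ Φ' : V → V → Finset Q} {i : ℕ}
    (e : ∀ z, Φ (x i) z = Φ' (x i) z ∧ Φ (y i) z = Φ' (y i) z) :
    lst G R x y Φ i = lst G R x y Φ' i := by
  ext t
  rw [mem_lst, mem_lst]
  constructor
  · intro ht
    exact ⟨fun z hz => by rw [← (e z).1]; exact ht.1 z hz, fun z hz => by rw [← (e z).2]; exact ht.2 z hz⟩
  · intro ht
    exact ⟨fun z hz => by rw [(e z).1]; exact ht.1 z hz, fun z hz => by rw [(e z).2]; exact ht.2 z hz⟩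

/-- Lists inside the chain. -/
lemma lst_inner (hG : ClassC G R) (h : Chn G R k x y) {Φ : V → V → Finset Q}
    (h2 : ∀ v z, (Φ v z).card ≤ 2) {i : ℕ} (h1 : 1 < i) (hk : i < k) : 4 ≤ (lst G R x y Φ i).card := by
  have b := lst_card (G := G) (R := R) (x := x) (y := y) Φ i
  have h3 := h.lk (i - 1) (by omega) (by omega)
  rw [show i - 1 + 1 = i by omega] at h3
  have e1 := cst_le h2 (prt_card_lk hG h3.symm)
  have e2 := cst_le h2 (prt_card_lk hG (h.lk i (by omega) hk))
  omega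

/-- The first list. -/
lemma lst_first (hG : ClassC G R) (h : Chn G R k x y) {Φ : V → V → Finset Q}
    (h2 : ∀ v z, (Φ v z).card ≤ 2) (hk : 2 ≤ k) : 2 ≤ (lst G R x y Φ 1).card := by
  have b := lst_card (G := G) (R := R) (x := x) (y := y) Φ 1
  have e1 := cst_le h2 (prt_card hG (h.cov (InC.x le_rfl h.pos)))
  have e2 := cst_le h2 (prt_card_lk hG (h.lk 1 le_rfl (by omega)))
  omega

/-- The last list. -/
lemma lst_last (hG : ClassC G R) (h : Chn G R k x y) {Φ : V → V → Finset Q}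
    (h2 : ∀ v z, (Φ v z).card ≤ 2) (hk : 2 ≤ k) : 2 ≤ (lst G R x y Φ k).card := by
  have b := lst_card (G := G) (R := R) (x := x) (y := y) Φ k
  have h3 := h.lk (k - 1) (by omega) (by omega)
  rw [show k - 1 + 1 = k by omega] at h3
  have e1 := cst_le h2 (prt_card_lk hG h3.symm)
  have e2 := cst_le h2 (prt_card hG (h.cov (InC.y h.pos le_rfl)))
  omega

/-- Appending a label. -/
lemma PW.snoc {Φ : V → V → (ℕ → Q) → Finset Q} (hd : Dep k x y Φ) {n : ℕ} {h : ℕ → Q}
    (hp : PW G R x y Φ n h) (hn : n + 1 ≤ k) {a : Q} (ha : a ∈ olst G R x y Φ h (n + 1))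
    (hna : 1 ≤ n → nr (h n) a = true) :
    PW G R x y Φ (n + 1) (fun i => if i ≤ n then h i else a) := by
  have hs : ∀ i, i ≤ n + 1 → Same i h (fun i => if i ≤ n then h i else a) := by
    intro i hi j h1 h2
    have : j ≤ n := by omega
    simp only [this, if_true]
  refine ⟨fun i h1 h2 => ?_, fun i h1 h2 => ?_⟩
  · by_cases h3 : i + 1 ≤ n
    · have h4 : i ≤ n := by omega
      simp only [h3, h4, if_true]
      exact hp.nwk i h1 (by omega)
    · have h4 : i = n := by omega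
      subst h4
      have h5 : ¬ i + 1 ≤ i := by omega
      simp only [le_refl, h5, if_true, if_false]
      exact hna h1
  · rw [← olst_congr hd h1 (by omega) (hs i h2)]
    by_cases h3 : i ≤ n
    · simp only [h3, if_true]
      exact hp.mem i h1 h3
    · have h4 : i = n + 1 := by omega
      subst h4
      simp only [h3, if_false]
      exact ha

/-- Two partial walks with different last labels. -/
theorem two_walks (hG : ClassC G R) (h : Chn G R k x y) {Φ : V → V → (ℕ → Q) → Finset Q}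
    (h2 : ∀ v z g g', (Φ v z g ∪ Φ v z g').card ≤ 2) (hd : Dep k x y Φ) {n : ℕ} (h1 : 1 ≤ n) :
    n + 1 ≤ k → ∃ g g', PW G R x y Φ n g ∧ PW G R x y Φ n g' ∧ g n ≠ g' n := by
  induction n, h1 using Nat.le_induction with
  | base =>
    intro hk
    have g0 : ℕ → Q := fun _ => (false, false, false)
    have e1 : 2 ≤ (olst G R x y Φ g0 1).card := lst_first hG h (fun v z => by
      have := h2 v z g0 g0
      rwa [Finset.union_self] at this) hk
    obtain ⟨a, ha, b, hb, hab⟩ := Finset.one_lt_card.1 e1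
    have hp : PW G R x y Φ 0 g0 := ⟨fun i h1 h2 => by omega, fun i h1 h2 => by omega⟩
    refine ⟨_, _, hp.snoc hd (by omega) ha (fun h' => by omega),
      hp.snoc hd (by omega) hb (fun h' => by omega), ?_⟩
    simpa using hab
  | succ n hn ih =>
    intro hk
    obtain ⟨g, g', hg, hg', hne⟩ := ih (by omega)
    have e1 : 4 ≤ (lst G R x y (uni Φ g g') (n + 1)).card :=
      lst_inner hG h (fun v z => h2 v z g g') (by omega) (by omega)
    have e2 : 6 ≤ (nb {g n, g' n}).card := nb_card2 (by rw [Finset.card_pair hne])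
    have e3 := card_inter_ge (nb {g n, g' n}) (lst G R x y (uni Φ g g') (n + 1))
    obtain ⟨a, ha, b, hb, hab⟩ := Finset.one_lt_card.1
      (show 1 < (nb {g n, g' n} ∩ lst G R x y (uni Φ g g') (n + 1)).card by omega)
    have key : ∀ a ∈ nb {g n, g' n} ∩ lst G R x y (uni Φ g g') (n + 1),
        ∃ w, PW G R x y Φ (n + 1) w ∧ w (n + 1) = a := by
      intro a ha
      rw [mem_inter, mem_nb] at ha
      obtain ⟨⟨t, ht, hta⟩, hal⟩ := ha
      simp only [mem_insert, mem_singleton] at ht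
      rcases ht with rfl | rfl
      · exact ⟨_, hg.snoc hd (by omega) (uni_left _ _ _ _ hal) (fun _ => hta), by simp⟩
      · exact ⟨_, hg'.snoc hd (by omega) (uni_right _ _ _ _ hal) (fun _ => hta), by simp⟩
    obtain ⟨w, hw, hwa⟩ := key a ha
    obtain ⟨w', hw', hwb⟩ := key b hb
    exact ⟨w, w', hw, hw', by rw [hwa, hwb]; exact hab⟩

/-- A full walk avoids the forbidden sets. -/
lemma PW.avoid (h : Chn G R k x y) {f : V → Q} {Φ : V → V → (ℕ → Q) → Finset Q} {mu : ℕ → Q}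
    (hp : PW G R x y Φ k mu) :
    ∀ z v, ¬ Cov G R z → G.Adj v z → InC k x y v → lbl k x y mu f v ∉ Φ v z mu :=
  lbl_avoid (Φ := fun v z => Φ v z mu) h (fun i h1 h2 => hp.mem i h1 h2)

/-- Reversing the chain does not change the size of the lists. -/
lemma lst_rev_card (Φ : V → V → Finset Q) {i : ℕ} :
    (lst G R (fun i => y (k + 1 - i)) (fun i => x (k + 1 - i)) Φ i).card =
      (lst G R x y Φ (k + 1 - i)).card := by
  set j := k + 1 - i with hj
  have hinj : Function.Injective (fun t : Q => sg j (neg (sg i t))) := by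
    intro s t hst
    have h1 : sg j (neg (sg i s)) = sg j (neg (sg i t)) := hst
    have h2 : neg (sg i s) = neg (sg i t) := by rw [← sg_sg j (neg (sg i s)), h1, sg_sg]
    have h3 : sg i s = sg i t := H3DA.neg_inj h2
    rw [← sg_sg i s, h3, sg_sg]
  have e : (lst G R (fun i => y (k + 1 - i)) (fun i => x (k + 1 - i)) Φ i).image
      (fun t => sg j (neg (sg i t))) = lst G R x y Φ j := by
    ext s
    rw [mem_image]
    constructor
    · rintro ⟨t, ht, rfl⟩
      rw [mem_lst] at ht ⊢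
      rw [sg_sg, H3DA.neg_neg]
      exact ⟨ht.2, ht.1⟩
    · intro hs
      rw [mem_lst] at hs
      refine ⟨sg i (neg (sg j s)), ?_, ?_⟩
      · rw [mem_lst, sg_sg, H3DA.neg_neg]
        exact ⟨hs.2, hs.1⟩
      · rw [sg_sg, H3DA.neg_neg, sg_sg]
  rw [← e, Finset.card_image_of_injective _ hinj]

/-- The vertices of degree two have another covered neighbour. -/
lemma isTwo_hcv {z a b : V} (hT : IsTwo G R z a b) : 1 ≤ hcv G R z a :=
  hcv_pos hT.2.2.1 hT.2.2.2.1.symm hT.2.2.2.2.2.1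

/-- A port vertex without another covered neighbour is inner. -/
lemma innerPt_of_hcv (hG : ClassC H R) (hc : Crit H R) {w a : V} (hw : w ∈ prt H R a) (ha : Cov H R a)
    (h0 : hcv H R w a = 0) : InnerPt H R w := by
  rw [mem_prt] at hw
  rcases cat_structure hG hc hw.2 with h1 | ⟨p, q, h1⟩ | ⟨m, z, c, h1, i, h2, h3, h4⟩
  · exact absurd hw.1.symm (h1 a)
  · exfalso
    rcases h1.2.2.2.2.2.2 a hw.1.symm with h2 | h2
    · subst h2
      have := isTwo_hcv h1
      omega
    · subst h2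
      have := isTwo_hcv (isTwo_symm h1)
      omega
  · subst h4
    exact inner_of_hcv h1 h2 h3 h0

/-- The slack at the left end link: a light inner port. -/
theorem light_left' (hR : Opt G R) (hG : ClassC G R) (hle : H ≤ G) (hc : Crit H R)
    (h : Chn H R k x y) (hk : 3 ≤ k) :
    ∃ v₀ z₀, (v₀ = y 1 ∨ v₀ = x 2) ∧ ∀ Φ : V → V → Finset Q, (∀ v z, (Φ v z).card ≤ 2) →
      (z₀ ∈ prt H R v₀ → InnerPt H R z₀ → (Φ v₀ z₀).card ≤ 1) →
      3 ≤ (lst H R x y Φ 1).card ∨ 5 ≤ (lst H R x y Φ 2).card := by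
  have hH := hG.mono hle
  have hx1 : Cov H R (x 1) := h.cov (InC.x le_rfl h.pos)
  have hlk : Lk H R (y 1) (x 2) := h.lk 1 le_rfl (by omega)
  have py1 := prt_card_lk hH hlk
  have px2 := prt_card_lk hH hlk.symm
  have px1 := prt_card hH hx1
  have py2 := prt_card_lk hH (h.lk 2 (by omega) (by omega))
  have b1 : ∀ Φ : V → V → Finset Q, 8 ≤ (lst H R x y Φ 1).card + cst H R Φ (x 1) + cst H R Φ (y 1) :=
    fun Φ => lst_card Φ 1
  have b2 : ∀ Φ : V → V → Finset Q, 8 ≤ (lst H R x y Φ 2).card + cst H R Φ (x 2) + cst H R Φ (y 2) :=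
    fun Φ => lst_card Φ 2
  by_cases hx : (prt H R (x 1)).card ≤ 1
  · refine ⟨y 1, y 1, Or.inl rfl, fun Φ h2 _ => Or.inl ?_⟩
    have := cst_le h2 hx
    have := cst_le h2 py1
    have := b1 Φ
    omega
  by_cases hy : (prt H R (y 1)).card = 0
  · refine ⟨y 1, y 1, Or.inl rfl, fun Φ h2 _ => Or.inl ?_⟩
    have := cst_le h2 px1
    have := cst_le h2 (le_of_eq hy)
    have := b1 Φ
    omega
  by_cases hx2 : (prt H R (x 2)).card = 0
  · refine ⟨y 1, y 1, Or.inl rfl, fun Φ h2 _ => Or.inr ?_⟩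
    have := cst_le h2 (le_of_eq hx2)
    have := cst_le h2 py2
    have := b2 Φ
    omega
  obtain ⟨u, hu⟩ := Finset.card_pos.1 (Nat.pos_of_ne_zero hy)
  obtain ⟨v, hv⟩ := Finset.card_pos.1 (Nat.pos_of_ne_zero hx2)
  have hpm := pm_sub hR hG hle hc hlk.1 (h.me 1 le_rfl h.pos).symm (h.me 2 (by omega) (by omega)) hu hv
  rw [if_neg hx] at hpm
  have hle1 : (if (prt H R (y 2)).card ≤ 1 then 1 else 0) ≤ 1 := by split_ifs <;> omega
  by_cases h0 : hcv H R u (y 1) = 0
  · refine ⟨y 1, u, Or.inl rfl, fun Φ h2 h3 => Or.inl ?_⟩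
    have e1 := cst_le h2 px1
    have e2 := cst_le_light h2 (n := 0) py1 hu
      (h3 hu (innerPt_of_hcv hH hc hu (h.cov (InC.y le_rfl h.pos)) h0))
    have := b1 Φ
    omega
  · refine ⟨x 2, v, Or.inr rfl, fun Φ h2 h3 => Or.inr ?_⟩
    have e1 := cst_le h2 py2
    have e2 := cst_le_light h2 (n := 0) px2 hv
      (h3 hv (innerPt_of_hcv hH hc hv (h.cov (InC.x (by omega) (by omega))) (by omega)))
    have := b2 Φ
    omega

/-- The slack at the right end link. -/
theorem light_right (hR : Opt G R) (hG : ClassC G R) (hle : H ≤ G) (hc : Crit H R)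
    (h : Chn H R k x y) (hk : 3 ≤ k) :
    ∃ v₀ z₀, (v₀ = x k ∨ v₀ = y (k - 1)) ∧ ∀ Φ : V → V → Finset Q, (∀ v z, (Φ v z).card ≤ 2) →
      (z₀ ∈ prt H R v₀ → InnerPt H R z₀ → (Φ v₀ z₀).card ≤ 1) →
      3 ≤ (lst H R x y Φ k).card ∨ 5 ≤ (lst H R x y Φ (k - 1)).card := by
  obtain ⟨v₀, z₀, hv₀, hh⟩ := light_left' hR hG hle hc h.rev hk
  have e1 : k + 1 - 1 = k := by omega
  have e2 : k + 1 - 2 = k - 1 := by omega
  simp only [e1, e2] at hv₀
  refine ⟨v₀, z₀, hv₀, fun Φ h2 h3 => ?_⟩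
  have := hh Φ h2 h3
  rw [lst_rev_card, lst_rev_card, e1, e2] at this
  exact this

/-- Fitting labels from a full walk. -/
theorem fit_of_walk (h : Chn G R k x y) {f : V → Q} {E : Set V} {v₀ z₀ : V}
    {Φ : V → V → (ℕ → Q) → Finset Q} (hΦ : OForb G R k x y f E v₀ z₀ Φ) {mu : ℕ → Q}
    (hp : PW G R x y Φ k mu) (hcyc : ¬ Lk G R (y k) (x 1))
    (hT : ∀ v a b, IsTwo G R v a b → InC k x y a → v ∈ E →
      lbl k x y mu f a ≠ neg (lbl k x y mu f b))
    (hC : ∀ m z c, Cat G R m z c → (∃ j ≤ m + 1, InC k x y (c j)) →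
      (∃ φ, OKill G R k x y f (cSupp m z) v₀ z₀ φ) ∧ (∀ i, 1 ≤ i → i ≤ m → z i ∉ E) ∨
        CExt m (fun j => lbl k x y mu f (c j))) :
    FitC G R k x y f mu where
  walk := hp.nwk
  cyc hl := absurd hl hcyc
  two v a b hT' ha := by
    by_cases h1 : v ∈ E
    · exact hT v a b hT' ha h1
    · exact hΦ.isTwo mu (hp.avoid h) v a b hT' h1 ha
  cat m z c hC' hex := by
    rcases hC m z c hC' hex with ⟨h1, h2⟩ | h1
    · exact hΦ.cat mu hp.nwk (hp.avoid h) m z c hC' h1 h2
    · exact h1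

/-- The last two units: two partial walks with different labels, one long list. -/
theorem finish_walk (hG : ClassC G R) (h : Chn G R k x y) (hk : 3 ≤ k)
    {Φ : V → V → (ℕ → Q) → Finset Q} (h2 : ∀ v z g g', (Φ v z g ∪ Φ v z g').card ≤ 2)
    (hd : Dep k x y Φ) (hdk : ∀ z g g', Same (k - 1) g g' → Φ (x k) z g = Φ (x k) z g' ∧
      Φ (y k) z g = Φ (y k) z g') {g g' : ℕ → Q} (hg : PW G R x y Φ (k - 2) g)
    (hg' : PW G R x y Φ (k - 2) g') (hne : g (k - 2) ≠ g' (k - 2))
    (hl : 3 ≤ (lst G R x y (uni Φ g g') k).card ∨ 5 ≤ (lst G R x y (uni Φ g g') (k - 1)).card) :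
    ∃ mu, PW G R x y Φ k mu ∧ (Same (k - 1) g mu ∨ Same (k - 1) g' mu) := by
  -- the last list only depends on the past below `k - 1`
  have hsame : ∀ g w : ℕ → Q, Same (k - 1) g w → olst G R x y Φ g k = olst G R x y Φ w k := by
    intro g w hs
    exact lst_congr' (fun z => hdk z g w hs)
  have e2 : 6 ≤ (nb {g (k - 2), g' (k - 2)}).card := nb_card2 (by rw [Finset.card_pair hne])
  set S := nb {g (k - 2), g' (k - 2)} ∩ lst G R x y (uni Φ g g') (k - 1) with hS
  have e3 := card_inter_ge (nb {g (k - 2), g' (k - 2)}) (lst G R x y (uni Φ g g') (k - 1))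
  rw [← hS] at e3
  have e4 : 4 ≤ (lst G R x y (uni Φ g g') (k - 1)).card :=
    lst_inner hG h (fun v z => h2 v z g g') (by omega) (by omega)
  have e5 : 2 ≤ (lst G R x y (uni Φ g g') k).card :=
    lst_last hG h (fun v z => h2 v z g g') (by omega)
  have e6 := card_inter_ge (nb S) (lst G R x y (uni Φ g g') k)
  obtain ⟨b, hb⟩ : ∃ b, b ∈ nb S ∩ lst G R x y (uni Φ g g') k := by
    apply Finset.card_pos.1
    rcases hl with h1 | h1
    · have := nb_card2 (show 2 ≤ S.card by omega)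
      omega
    · have := nb_card3 (show 3 ≤ S.card by omega)
      omega
  rw [mem_inter, mem_nb] at hb
  obtain ⟨⟨a, ha, hab⟩, hbl⟩ := hb
  rw [hS, mem_inter, mem_nb] at ha
  obtain ⟨⟨t, ht, hta⟩, hal⟩ := ha
  simp only [mem_insert, mem_singleton] at ht
  have fin : ∀ w, PW G R x y Φ (k - 2) w → nr (w (k - 2)) a = true → a ∈ olst G R x y Φ w (k - 1) →
      b ∈ olst G R x y Φ w k → ∃ mu, PW G R x y Φ k mu ∧ Same (k - 1) w mu := by
    intro w hw h1 h2 h3
    have p1 := hw.snoc hd (n := k - 2) (by omega) (a := a)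
      (by rw [show k - 2 + 1 = k - 1 by omega]; exact h2) (fun _ => h1)
    have p2 := p1.snoc hd (n := k - 2 + 1) (by omega) (a := b) (by
      rw [show k - 2 + 1 + 1 = k by omega, ← hsame w]
      · exact h3
      · intro j j1 j2
        have : j ≤ k - 2 := by omega
        simp only [this, if_true]) (fun _ => by simpa using hab)
    rw [show k - 2 + 1 + 1 = k by omega] at p2
    refine ⟨_, p2, fun j j1 j2 => ?_⟩
    have h5 : j ≤ k - 2 := by omega
    have h6 : j ≤ k - 2 + 1 := by omega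
    simp only [h5, h6, if_true]
  rcases ht with rfl | rfl
  · obtain ⟨mu, m1, m2⟩ := fin g hg hta (uni_left _ _ _ _ hal) (uni_left _ _ _ _ hbl)
    exact ⟨mu, m1, Or.inl m2⟩
  · obtain ⟨mu, m1, m2⟩ := fin g' hg' hta (uni_right _ _ _ _ hal) (uni_right _ _ _ _ hbl)
    exact ⟨mu, m1, Or.inr m2⟩

/-- An open chain all of whose components have online strategies does not exist. -/
theorem open_online (hR : Opt G R) (hG : ClassC G R) (hle : H ≤ G) (hc : Crit H R)
    (h : Chn H R k x y) (hk : 3 ≤ k) (hends : (∀ w, ¬ Lk H R (x 1) w) ∧ ∀ w, ¬ Lk H R (y k) w)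
    (hC : ∀ f, OffC H R k x y f → ∀ v₀ z₀, (v₀ = x k ∨ v₀ = y (k - 1)) → ∀ m z c, Cat H R m z c →
      (∃ j ≤ m + 1, InC k x y (c j)) → ∃ φ, OKill H R k x y f (cSupp m z) v₀ z₀ φ) : False := by
  have hH := hG.mono hle
  obtain ⟨f, hf⟩ := exists_off h hc
  obtain ⟨v₀, z₀, hv₀, hlight⟩ := light_right hR hG hle hc h hk
  obtain ⟨Φ, hΦ⟩ := exists_oforb hH h (f := f) ∅ v₀ z₀
  have hd : Dep k x y Φ := fun i h1 h2 z g g' hs => hΦ.dep i h1 h2 z g g' (hs.mono (by omega))
  obtain ⟨g, g', hg, hg', hne⟩ := two_walks hH h hΦ.two hd (n := k - 2) (by omega) (by omega)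
  have hl := hlight (uni Φ g g') (fun v z => hΦ.two v z g g') (fun h1 h2 => hΦ.one h1 h2 g g')
  obtain ⟨mu, hmu, -⟩ := finish_walk hH h hk hΦ.two hd (hΦ.depk h.pos) hg hg' hne hl
  refine chain_contra hH hc h (Or.inr hends) hf (mu := mu) ?_
  refine fit_of_walk h hΦ hmu (hends.2 _) (fun v a b _ _ h1 => absurd h1 (Set.notMem_empty v)) ?_
  intro m z c hC' hex
  exact Or.inl ⟨hC f hf v₀ z₀ hv₀ m z c hC' hex, fun i _ _ => Set.notMem_empty _⟩

end CLB.H95
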