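import Pool.Agent.Helper95_CLB.SubH

/-!
Open chains: a light port at the left end link, and the case where all components are static.
-/

set_option autoImplicit false
set_option linter.unusedSectionVars false

namespace CLB.H95

open Finset Classical
open H3DA (Q neg nr)
open CLB.H3 (CExt Cat IsTwo Fits UPath he_of_unc cat_structure)

variable {V : Type*} {G H : SimpleGraph V} {R : V → Bool} [Fintype V] {k : ℕ} {x y : ℕ → V}

/-- A port whose vertex has no other covered neighbour is inner, if it is on a caterpillar. -/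
lemma inner_of_hcv {m : ℕ} {z c : ℕ → V} (h : Cat H R m z c) {i : ℕ} (h1 : 1 ≤ i) (h2 : i ≤ m) {a : V}
    (h0 : hcv H R (z i) a = 0) : InnerPt H R (z i) := by
  have hno : ∀ r, H.Adj (z i) r → Cov H R r → r = a := by
    intro r hr hcr
    by_contra hne
    have := hcv_pos hr hne hcr
    omega
  have hi1 : i ≠ 1 := by
    rintro rfl
    have e0 := hno _ h.adj0 (h.cov 0 (by omega))
    have e1 := hno _ (h.adjc 1 le_rfl h2) (h.cov 1 (by omega))
    exact h.ne0 (e0.trans e1.symm)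
  have him : i ≠ m := by
    rintro rfl
    have e0 := hno _ h.adjm (h.cov (i + 1) (by omega))
    have e1 := hno _ (h.adjc i h1 le_rfl) (h.cov i (by omega))
    exact h.nem (e1.trans e0.symm)
  have a1 := h.adjz (i - 1) (by omega) (by omega)
  rw [show i - 1 + 1 = i by omega] at a1
  refine ⟨z (i - 1), z (i + 1), fun h' => ?_, a1.symm, h.adjz i h1 (by omega),
    h.unc (i - 1) (by omega) (by omega), h.unc (i + 1) (by omega) (by omega)⟩
  have := h.inj (i - 1) (i + 1) (by omega) (by omega) (by omega) (by omega) h'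
  omega

/-- The slack at the left end link, for all forbidden sets with a suitable designated port. -/
theorem light_left (hR : Opt G R) (hG : ClassC G R) (hle : H ≤ G) (hc : Crit H R)
    (h : Chn H R k x y) (hk : 2 ≤ k) :
    ∃ v₀ z₀, ∀ Φ : V → V → Finset Q, (∀ v z, (Φ v z).card ≤ 2) →
      (InnerPt H R z₀ → (Φ v₀ z₀).card ≤ 1) →
      (∀ z a b, IsTwo H R z a b → (Φ a z).card ≤ 1) →
      3 ≤ (lst H R x y Φ 1).card ∨ (k = 2 ∧ 3 ≤ (lst H R x y Φ 2).card) ∨
        (3 ≤ k ∧ 5 ≤ (lst H R x y Φ 2).card) := by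
  have hH := hG.mono hle
  have hx1 : Cov H R (x 1) := h.cov (InC.x le_rfl h.pos)
  have hlk : Lk H R (y 1) (x 2) := h.lk 1 le_rfl (by omega)
  have py1 := prt_card_lk hH hlk
  have px2 := prt_card_lk hH hlk.symm
  have px1 := prt_card hH hx1
  have py2 : (prt H R (y 2)).card ≤ 2 := prt_card hH (h.cov (InC.y (by omega) hk))
  have py2' : 3 ≤ k → (prt H R (y 2)).card ≤ 1 := fun hk3 =>
    prt_card_lk hH (h.lk 2 (by omega) (by omega))
  -- bounds for the lists
  have b1 : ∀ Φ : V → V → Finset Q, 8 ≤ (lst H R x y Φ 1).card + cst H R Φ (x 1) + cst H R Φ (y 1) :=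
    fun Φ => lst_card Φ 1
  have b2 : ∀ Φ : V → V → Finset Q, 8 ≤ (lst H R x y Φ 2).card + cst H R Φ (x 2) + cst H R Φ (y 2) :=
    fun Φ => lst_card Φ 2
  -- a cheap port at `y 1`
  have cheap1 : ∀ v₀ z₀, (∀ Φ : V → V → Finset Q, (∀ v z, (Φ v z).card ≤ 2) →
      (InnerPt H R z₀ → (Φ v₀ z₀).card ≤ 1) → (∀ z a b, IsTwo H R z a b → (Φ a z).card ≤ 1) →
      cst H R Φ (x 1) + cst H R Φ (y 1) ≤ 5) → _ := fun v₀ z₀ hh =>
    (⟨v₀, z₀, fun Φ h2 h3 h4 => by
      have := hh Φ h2 h3 h4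
      have := b1 Φ
      left; omega⟩ : ∃ v₀ z₀, ∀ Φ : V → V → Finset Q, (∀ v z, (Φ v z).card ≤ 2) →
      (InnerPt H R z₀ → (Φ v₀ z₀).card ≤ 1) →
      (∀ z a b, IsTwo H R z a b → (Φ a z).card ≤ 1) →
      3 ≤ (lst H R x y Φ 1).card ∨ (k = 2 ∧ 3 ≤ (lst H R x y Φ 2).card) ∨
        (3 ≤ k ∧ 5 ≤ (lst H R x y Φ 2).card))
  have cheap2 : ∀ v₀ z₀, (∀ Φ : V → V → Finset Q, (∀ v z, (Φ v z).card ≤ 2) →
      (InnerPt H R z₀ → (Φ v₀ z₀).card ≤ 1) → (∀ z a b, IsTwo H R z a b → (Φ a z).card ≤ 1) →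
      cst H R Φ (x 2) ≤ 1) → _ := fun v₀ z₀ hh =>
    (⟨v₀, z₀, fun Φ h2 h3 h4 => by
      have := hh Φ h2 h3 h4
      have := b2 Φ
      right
      by_cases hk3 : 3 ≤ k
      · right
        have := cst_le h2 (py2' hk3)
        exact ⟨hk3, by omega⟩
      · left
        have := cst_le h2 py2
        exact ⟨by omega, by omega⟩⟩ : ∃ v₀ z₀, ∀ Φ : V → V → Finset Q, (∀ v z, (Φ v z).card ≤ 2) →
      (InnerPt H R z₀ → (Φ v₀ z₀).card ≤ 1) →
      (∀ z a b, IsTwo H R z a b → (Φ a z).card ≤ 1) →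
      3 ≤ (lst H R x y Φ 1).card ∨ (k = 2 ∧ 3 ≤ (lst H R x y Φ 2).card) ∨
        (3 ≤ k ∧ 5 ≤ (lst H R x y Φ 2).card))
  by_cases hx : (prt H R (x 1)).card ≤ 1
  · refine cheap1 (x 1) (x 1) (fun Φ h2 _ _ => ?_)
    have := cst_le h2 hx
    have := cst_le h2 py1
    omega
  by_cases hy : (prt H R (y 1)).card = 0
  · refine cheap1 (x 1) (x 1) (fun Φ h2 _ _ => ?_)
    have := cst_le h2 px1
    have := cst_le h2 (le_of_eq hy)
    omega
  by_cases hx2 : (prt H R (x 2)).card = 0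
  · refine cheap2 (x 1) (x 1) (fun Φ h2 _ _ => ?_)
    have := cst_le h2 (le_of_eq hx2)
    omega
  obtain ⟨u, hu⟩ := Finset.card_pos.1 (Nat.pos_of_ne_zero hy)
  obtain ⟨v, hv⟩ := Finset.card_pos.1 (Nat.pos_of_ne_zero hx2)
  have hu' := mem_prt.1 hu
  have hv' := mem_prt.1 hv
  -- the vertex `u`
  have hcase : ∀ (w a : V), w ∈ prt H R a → Cov H R a → (∃ b, IsTwo H R w a b) ∨
      (hcv H R w a = 0 → InnerPt H R w) := by
    intro w a hw ha
    rw [mem_prt] at hw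
    rcases cat_structure hH hc hw.2 with h1 | ⟨p, q, h1⟩ | ⟨m, z, c, h1, i, h2, h3, h4⟩
    · exact absurd hw.1.symm (h1 a)
    · left
      rcases h1.2.2.2.2.2.2 a hw.1.symm with h2 | h2
      · exact ⟨q, h2 ▸ h1⟩
      · exact ⟨p, h2 ▸ isTwo_symm h1⟩
    · right
      intro h5
      subst h4
      exact inner_of_hcv h1 h2 h3 h5
  have hpm := pm_sub hR hG hle hc hlk.1 (h.me 1 le_rfl h.pos).symm (h.me 2 (by omega) hk) hu hv
  rw [if_neg hx] at hpm
  have hle1 : (if (prt H R (y 2)).card ≤ 1 then 1 else 0) ≤ 1 := by split_ifs <;> omega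
  rcases hcase u (y 1) hu (h.cov (InC.y le_rfl h.pos)) with ⟨b, hb⟩ | hin
  · refine cheap1 (x 1) (x 1) (fun Φ h2 _ h4 => ?_)
    have e1 := cst_le h2 px1
    have e2 := cst_le_light h2 (n := 0) py1 hu (h4 u _ b hb)
    omega
  rcases hcase v (x 2) hv (h.cov (InC.x (by omega) hk)) with ⟨b, hb⟩ | hin'
  · refine cheap2 (x 1) (x 1) (fun Φ h2 _ h4 => ?_)
    have e2 := cst_le_light h2 (n := 0) px2 hv (h4 v _ b hb)
    omega
  by_cases h0 : hcv H R u (y 1) = 0
  · refine cheap1 (y 1) u (fun Φ h2 h3 _ => ?_)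
    have e1 := cst_le h2 px1
    have e2 := cst_le_light h2 (n := 0) py1 hu (h3 (hin h0))
    omega
  · refine cheap2 (x 2) v (fun Φ h2 h3 _ => ?_)
    have e2 := cst_le_light h2 (n := 0) px2 hv (h3 (hin' (by omega)))
    omega

/-- An open chain all of whose components are static does not exist. -/
theorem open_static (hR : Opt G R) (hG : ClassC G R) (hle : H ≤ G) (hc : Crit H R)
    (h : Chn H R k x y) (hk : 2 ≤ k) (hends : (∀ w, ¬ Lk H R (x 1) w) ∧ ∀ w, ¬ Lk H R (y k) w)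
    (hT : ∀ v a b, IsTwo H R v a b → InC k x y a → ¬ InC k x y b)
    (hC : ∀ m z c, Cat H R m z c → (∃ j ≤ m + 1, InC k x y (c j)) → StatC k x y m c) : False := by
  have hH := hG.mono hle
  obtain ⟨f, hf⟩ := exists_off h hc
  obtain ⟨v₀, z₀, hlight⟩ := light_left hR hG hle hc h hk
  obtain ⟨Φ, hΦ⟩ := exists_forb h hf ∅ v₀ z₀
  have hl := hlight Φ hΦ.two hΦ.one hΦ.deg2
  have hlist : ∀ i, 1 ≤ i → i ≤ k → 4 ≤ (lst H R x y Φ i).card ∨
      ((i = 1 ∨ i = k) ∧ 2 ≤ (lst H R x y Φ i).card) := by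
    intro i h1 h2
    have b := lst_card (G := H) (R := R) (x := x) (y := y) Φ i
    have hxi := cst_le hΦ.two (prt_card hH (h.cov (InC.x h1 h2)))
    have hyi := cst_le hΦ.two (prt_card hH (h.cov (InC.y h1 h2)))
    by_cases hi1 : i = 1
    · right
      have := cst_le hΦ.two (prt_card_lk hH (h.lk i h1 (by omega)))
      exact ⟨Or.inl hi1, by omega⟩
    · have h3 := h.lk (i - 1) (by omega) (by omega)
      rw [show i - 1 + 1 = i by omega] at h3
      have e1 := cst_le hΦ.two (prt_card_lk hH h3.symm)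
      by_cases hik : i = k
      · right
        exact ⟨Or.inr hik, by omega⟩
      · left
        have := cst_le hΦ.two (prt_card_lk hH (h.lk i h1 (by omega)))
        omega
  have hroot : ∃ r, 1 ≤ r ∧ r ≤ k ∧ ((1 < r ∧ r < k ∧ 5 ≤ (lst H R x y Φ r).card) ∨
      (1 < k ∧ (r = 1 ∨ r = k) ∧ 3 ≤ (lst H R x y Φ r).card)) := by
    rcases hl with h1 | ⟨h1, h2⟩ | ⟨h1, h2⟩
    · exact ⟨1, le_rfl, h.pos, Or.inr ⟨by omega, Or.inl rfl, h1⟩⟩
    · exact ⟨2, by omega, hk, Or.inr ⟨by omega, Or.inr h1.symm, h2⟩⟩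
    · exact ⟨2, by omega, hk, Or.inl ⟨by omega, by omega, h2⟩⟩
  obtain ⟨r, hr1, hr2, hr3⟩ := hroot
  obtain ⟨mu, hmu1, hmu2⟩ := walk_exists hr1 hr2 hlist hr3
  refine chain_contra hH hc h (Or.inr hends) hf (mu := mu) ?_
  refine fit_of_lists h hΦ hmu1 hmu2 (fun hl => absurd hl (hends.2 _)) ?_ ?_
  · intro v a b hT' ha hor
    rcases hor with h1 | h1
    · exact absurd h1 (Set.notMem_empty v)
    · exact absurd h1 (hT v a b hT' ha)
  · intro m z c hC' hex hor
    rcases hor with h1 | ⟨i, -, -, h1⟩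
    · exact absurd (hC m z c hC' hex) h1
    · exact absurd h1 (Set.notMem_empty _)

end CLB.H95
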