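import Pool.Agent.Helper95_CLB.Kext
import Pool.Agent.Helper3_DA.Msg

/-!
The extension criterion for the paths of helper3 (`PExt m ρ a b`) in terms of the six types.
-/

set_option autoImplicit false

namespace CLB.H95

open Finset
open H3DA (Q neg nr)
open CLB.H3 (PExt)

/-- The type used at position `i` (starting at `0`). -/
def al (D : Ty) (i : ℕ) : Ty := if i % 2 = 0 then D else co D

lemma al_zero (D : Ty) : al D 0 = D := by simp [al]

lemma al_succ (D : Ty) (i : ℕ) : al D (i + 1) = co (al D i) := by
  unfold al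
  rcases Nat.mod_two_eq_zero_or_one i with h | h
  · have : (i + 1) % 2 = 1 := by omega
    rw [if_pos h, if_neg (by omega)]
  · have : (i + 1) % 2 = 0 := by omega
    rw [if_pos this, if_neg (by omega), co_co]

lemma al_altT (D : Ty) (i : ℕ) : altT D (i + 1) = al D i := by
  induction i with
  | zero => rw [altT_one, al_zero]
  | succ i ih => rw [altT_succ, ih, al_succ]

lemma al_al (D : Ty) (i j : ℕ) : al (al D i) j = al D (i + j) := by
  induction j with
  | zero => rw [al_zero]; rfl
  | succ j ih => rw [al_succ, ih, ← al_succ]; rfl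

/-- The labels follow the type `D` along the whole path. -/
structure PTight (D : Ty) (m : ℕ) (ρ : ℕ → Q) (a b : Q) : Prop where
  left : frk D a (ρ 0) = true
  step : ∀ i < m, stp (al D i) (neg (ρ i)) (ρ (i + 1)) = true
  right : frk (al D (m + 1)) (ρ m) b = true

/-- The extension criterion. -/
theorem pext_iff {m : ℕ} {ρ : ℕ → Q} {a b : Q} :
    PExt m ρ a b ↔ ρ 0 ≠ neg a ∧ ρ m ≠ neg b ∧ ∀ D, ¬ PTight D m ρ a b := by
  set s : ℕ → Q := fun i => if i = 0 then a else if i = m + 2 then b else ρ (i - 1) with hs
  have hs0 : s 0 = a := by simp [hs]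
  have hsi : ∀ i ≤ m, s (i + 1) = ρ i := by
    intro i hi
    have h1 : ¬ (i + 1 = 0) := by omega
    have h2 : ¬ (i + 1 = m + 2) := by omega
    simp only [hs, h1, h2, if_false, Nat.add_sub_cancel]
  have hsm : s (m + 2) = b := by
    have h1 : ¬ (m + 2 = 0) := by omega
    simp only [hs, h1, if_false, if_true]
  have e1 : PExt m ρ a b ↔ Ext s (m + 1) := by
    constructor
    · rintro ⟨w, h1, h2, h3, h4⟩
      refine ⟨fun i => w (i - 1), ?_, ?_, ?_, ?_⟩
      · rw [hs0]; exact nr_symm h2
      · simp only [Nat.add_sub_cancel]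
        rw [hsm]; exact h3
      · intro i hi hi'
        have := hsi (i - 1) (by omega)
        rw [show i - 1 + 1 = i by omega] at this
        rw [this]
        exact nr_symm (h1 (i - 1) (by omega))
      · intro i hi hi'
        have := h4 (i - 1) (by omega)
        rw [show i - 1 + 1 = i by omega] at this
        simp only [Nat.add_sub_cancel]
        exact this
    · rintro ⟨x, h1, h2, h3, h4⟩
      refine ⟨fun i => x (i + 1), ?_, ?_, ?_, ?_⟩
      · intro i hi
        have := h3 (i + 1) (by omega) (by omega)
        rw [hsi i hi] at this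
        exact nr_symm this
      · rw [hs0] at h1; exact nr_symm h1
      · rw [hsm] at h2; exact h2
      · intro i hi
        exact h4 (i + 1) (by omega) (by omega)
  rw [e1, ext_iff (by omega)]
  have e2 : s (m + 1) = ρ m := hsi m le_rfl
  have e3 : s 1 = ρ 0 := hsi 0 (by omega)
  rw [hs0, hsm, e2, e3]
  have e4 : (a ≠ neg (ρ 0)) ↔ (ρ 0 ≠ neg a) := ⟨H3DA.ne_neg_symm, H3DA.ne_neg_symm⟩
  rw [e4]
  refine and_congr_right fun _ => and_congr_right fun _ => forall_congr' fun D => not_congr ?_
  constructor
  · rintro ⟨h1, h2, h3⟩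
    refine ⟨?_, ?_, ?_⟩
    · rw [hs0, e3] at h1; exact h1
    · intro i hi
      have := h2 (i + 1) (by omega) (by omega)
      rw [al_altT, hsi i (by omega), hsi (i + 1) (by omega)] at this
      exact this
    · rw [e2, hsm, al_altT] at h3; exact h3
  · rintro ⟨h1, h2, h3⟩
    refine ⟨?_, ?_, ?_⟩
    · rw [hs0, e3]; exact h1
    · intro i hi hi'
      have := h2 (i - 1) (by omega)
      rw [← al_altT, show i - 1 + 1 = i by omega] at this
      have g1 := hsi (i - 1) (by omega)
      rw [show i - 1 + 1 = i by omega] at g1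
      rw [g1, hsi i (by omega)]
      exact this
    · rw [e2, hsm, al_altT]; exact h3

end CLB.H95
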