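import Pool.Agent.Helper95_CLB.WinU

/-!
The second fork: two values of the fork sum; the steps outside a window.
-/

set_option autoImplicit false
set_option linter.unusedSectionVars false

namespace CLB.H95

open H3DA (Q neg nr)
open Finset Classical
open CLB.H3 (CExt Cat IsTwo Fits UPath he_of_unc cat_structure chn_side KTight exists_ktight no_cext
  Leaf cext_or pc pc_pos pc_le pc_lk pc_cov pc_two pc_one cat_side_z)

variable {V : Type*} {G : SimpleGraph V} {R : V → Bool} [Fintype V] {k r : ℕ} {x y X Y : ℕ → V}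
  {m : ℕ} {z c : ℕ → V} {f : V → Q}

/-- Two types for the second fork. -/
theorem tight_psiB {m : ℕ} {s₀ : ℕ → Q} {i a b i' a' b' : ℕ} (h : StepAt m i a b) (hi : i % 2 = 1)
    (h' : StepAt m i' a' b') (hi' : i' % 2 = 0) :
    ∃ S : Finset Q, S.card ≤ 2 ∧ ∀ (s : ℕ → Q) (D : Ty), Tight D s m → s a = s₀ a → s b = s₀ b →
      s a' = s₀ a' → s b' = s₀ b' → add (s m) (s (m + 1)) ∈ S := by
  refine ⟨(Finset.univ.filter (fun D : Ty => stp D (neg (s₀ a)) (s₀ b) = true ∧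
    stp (co D) (neg (s₀ a')) (s₀ b') = true)).image (fun D => wD (altT D (m + 1))), ?_,
    fun s D hT e1 e2 e3 e4 => ?_⟩
  · refine (Finset.card_image_le).trans ?_
    have h1 := twoT_card (neg (s₀ a)) (s₀ b) (neg (s₀ a')) (s₀ b')
    unfold twoT at h1
    rwa [Finset.card_image_of_injective _ (fun D D' => wD_inj D D')] at h1
  · have t1 := tight_step' hT h
    have t2 := tight_step' hT h'
    rw [e1, e2] at t1
    rw [e3, e4] at t2
    unfold altT at t1 t2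
    rw [if_pos hi] at t1
    rw [if_neg (by omega)] at t2
    rw [Finset.mem_image]
    exact ⟨D, by simp only [Finset.mem_filter, Finset.mem_univ, true_and]; exact ⟨t1, t2⟩,
      (frk_add _ _ _ hT.2.2).symm⟩

/-- The parity of the number of ports of the second fork in a unit. -/
noncomputable def fkq (X Y : ℕ → V) (m : ℕ) (c : ℕ → V) (i : ℕ) : Bool :=
  xor (ind X Y (c m) i) (ind X Y (c (m + 1)) i)

/-- **(PSI) for a window, second fork.** -/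
theorem win_psiB (h : Chn G R r X Y) {i a b i' a' b' : ℕ} (h1 : StepAt m i a b) (hi : i % 2 = 1)
    (h2 : StepAt m i' a' b') (hi' : i' % 2 = 0) (oa : ¬ InC r X Y (c a)) (ob : ¬ InC r X Y (c b))
    (oa' : ¬ InC r X Y (c a')) (ob' : ¬ InC r X Y (c b')) :
    ∃ S : Finset Q, S.card ≤ 2 ∧ ∀ mu D, Tight D (fun j => lbl r X Y mu f (c j)) m →
      sumU (fkq X Y m c) mu r ∈ S := by
  obtain ⟨S, hS, hall⟩ := tight_psiB (s₀ := fun j => f (c j)) h1 hi h2 hi'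
  set mu0 : ℕ → Q := fun _ => (false, false, false) with hmu0
  set q : Q := add (add (lbl r X Y mu0 f (c m)) (lbl r X Y mu0 f (c (m + 1))))
    (sumU (fkq X Y m c) mu0 r) with hq
  refine ⟨S.image (fun t => add t q), (Finset.card_image_le).trans hS, fun mu D hT => ?_⟩
  rw [mem_image]
  refine ⟨_, hall _ D hT (lbl_out oa) (lbl_out ob) (lbl_out oa') (lbl_out ob'), ?_⟩
  have key : ∀ a b a' b' s s' : Q, add (add a a') (add b b') = add s s' →
      add (add a b) (add (add a' b') s') = s := by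
    intro a b a' b' s s' he
    rw [add_comm3] at he
    rw [← add_assoc', he, add_assoc', add_self', add_zero']
  rw [hq]
  apply key
  rw [lbl_add h, lbl_add h, ← sumU_add]
  exact (sumU_xor).symm

/-- The step `s` is not outside of `J`. -/
def Blk (m : ℕ) (J : ℕ → Prop) (s : ℕ) : Prop :=
  (∃ j, (j = s ∨ j = s + 1) ∧ 2 ≤ j ∧ j + 1 ≤ m ∧ J j) ∨ (s = 1 ∧ J 0 ∧ J 1) ∨
    (s + 1 = m ∧ J m ∧ J (m + 1))

lemma step_of_not_blk {m : ℕ} {J : ℕ → Prop} {s : ℕ} (h1 : 1 ≤ s) (h2 : s < m) (hm : 3 ≤ m)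
    (hb : ¬ Blk m J s) : ∃ a b, StepAt m s a b ∧ ¬ J a ∧ ¬ J b := by
  unfold Blk at hb
  rw [not_or, not_or] at hb
  obtain ⟨b1, b2, b3⟩ := hb
  have ha : ∃ a, (a = s ∨ (s = 1 ∧ a = 0)) ∧ ¬ J a := by
    by_cases hs : s = 1
    · subst hs
      by_cases j0 : J 0
      · exact ⟨1, Or.inl rfl, fun h => b2 ⟨rfl, j0, h⟩⟩
      · exact ⟨0, Or.inr ⟨rfl, rfl⟩, j0⟩
    · exact ⟨s, Or.inl rfl, fun h => b1 ⟨s, Or.inl rfl, by omega, by omega, h⟩⟩
  have hb' : ∃ b, (b = s + 1 ∨ (s + 1 = m ∧ b = m + 1)) ∧ ¬ J b := by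
    by_cases hs : s + 1 = m
    · by_cases j0 : J (m + 1)
      · exact ⟨s + 1, Or.inl rfl, fun h => b3 ⟨hs, by rw [← hs]; exact h, j0⟩⟩
      · exact ⟨m + 1, Or.inr ⟨hs, rfl⟩, j0⟩
    · exact ⟨s + 1, Or.inl rfl, fun h => b1 ⟨s + 1, Or.inr rfl, by omega, by omega, h⟩⟩
  obtain ⟨a, a1, a2⟩ := ha
  obtain ⟨b, b1', b2'⟩ := hb'
  exact ⟨a, b, ⟨h1, h2, a1, b1'⟩, a2, b2'⟩

/-- The number of inner ports in `J`. -/
noncomputable def innN (m : ℕ) (J : ℕ → Prop) : ℕ :=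
  ((range (m + 2)).filter (fun j => (2 ≤ j ∧ j + 1 ≤ m) ∧ J j)).card

lemma innN_two {m : ℕ} {J : ℕ → Prop} {a b : ℕ} (ha : 2 ≤ a ∧ a + 1 ≤ m ∧ J a)
    (hb : 2 ≤ b ∧ b + 1 ≤ m ∧ J b) (hab : a ≠ b) : 2 ≤ innN m J := by
  unfold innN
  refine Finset.one_lt_card.2 ⟨a, ?_, b, ?_, hab⟩
  · rw [mem_filter, mem_range]; exact ⟨by omega, ⟨ha.1, ha.2.1⟩, ha.2.2⟩
  · rw [mem_filter, mem_range]; exact ⟨by omega, ⟨hb.1, hb.2.1⟩, hb.2.2⟩

lemma innN_one {m : ℕ} {J : ℕ → Prop} {a : ℕ} (ha : 2 ≤ a ∧ a + 1 ≤ m ∧ J a) : 1 ≤ innN m J := by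
  unfold innN
  refine Finset.card_pos.2 ⟨a, ?_⟩
  rw [mem_filter, mem_range]; exact ⟨by omega, ⟨ha.1, ha.2.1⟩, ha.2.2⟩

lemma innN_three {m : ℕ} {J : ℕ → Prop} {a b d : ℕ} (ha : 2 ≤ a ∧ a + 1 ≤ m ∧ J a)
    (hb : 2 ≤ b ∧ b + 1 ≤ m ∧ J b) (hd : 2 ≤ d ∧ d + 1 ≤ m ∧ J d) (hab : a ≠ b) (had : a ≠ d)
    (hbd : b ≠ d) : 3 ≤ innN m J := by
  unfold innN
  refine Finset.two_lt_card.2 ⟨a, ?_, b, ?_, d, ?_, hab, had, hbd⟩
  · rw [mem_filter, mem_range]; exact ⟨by omega, ⟨ha.1, ha.2.1⟩, ha.2.2⟩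
  · rw [mem_filter, mem_range]; exact ⟨by omega, ⟨hb.1, hb.2.1⟩, hb.2.2⟩
  · rw [mem_filter, mem_range]; exact ⟨by omega, ⟨hd.1, hd.2.1⟩, hd.2.2⟩

/-- **A free step of odd and of even index.** -/
theorem free_steps {m : ℕ} (hm : 6 ≤ m) {J : ℕ → Prop} {A B : ℕ} (hA : J 0 ∧ J 1 → 1 ≤ A)
    (hB : J m ∧ J (m + 1) → 1 ≤ B)
    (h : if m % 2 = 1 then innN m J + A ≤ 2 ∧ innN m J + B ≤ 2 else
      innN m J ≤ 1 ∧ innN m J + A + B ≤ 2) :
    (∃ s a b, s % 2 = 1 ∧ StepAt m s a b ∧ ¬ J a ∧ ¬ J b) ∧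
      ∃ s a b, s % 2 = 0 ∧ StepAt m s a b ∧ ¬ J a ∧ ¬ J b := by
  have inner : ∀ s, Blk m J s → s ≠ 1 → s + 1 ≠ m →
      ∃ j, (j = s ∨ j = s + 1) ∧ 2 ≤ j ∧ j + 1 ≤ m ∧ J j := by
    rintro s (h1 | h1 | h1) h2 h3
    · exact h1
    · exact absurd h1.1 h2
    · exact absurd h1.1 h3
  constructor
  · by_contra hcon
    have hb : ∀ s, 1 ≤ s → s < m → s % 2 = 1 → Blk m J s := by
      intro s s1 s2 s3
      by_contra hb
      obtain ⟨a, b, h1, h2, h3⟩ := step_of_not_blk s1 s2 (by omega) hb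
      exact hcon ⟨s, a, b, s3, h1, h2, h3⟩
    obtain ⟨j3, j3a, j3b, j3c, j3d⟩ := inner 3 (hb 3 (by omega) (by omega) rfl) (by omega) (by omega)
    rcases hb 1 (by omega) (by omega) rfl with ⟨j1, j1a, j1b, j1c, j1d⟩ | h1 | h1
    · rcases hb 5 (by omega) (by omega) rfl with ⟨j5, j5a, j5b, j5c, j5d⟩ | h5 | h5
      · have := innN_three (m := m) (J := J) ⟨j1b, j1c, j1d⟩ ⟨j3b, j3c, j3d⟩ ⟨j5b, j5c, j5d⟩
          (by omega) (by omega) (by omega)
        split_ifs at h <;> omega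
      · omega
      · have h6 := hB h5.2
        have := innN_two (m := m) (J := J) ⟨j1b, j1c, j1d⟩ ⟨j3b, j3c, j3d⟩ (by omega)
        rw [if_neg (by omega)] at h
        omega
    · have h7 := hA h1.2
      rcases hb 5 (by omega) (by omega) rfl with ⟨j5, j5a, j5b, j5c, j5d⟩ | h5 | h5
      · have := innN_two (m := m) (J := J) ⟨j3b, j3c, j3d⟩ ⟨j5b, j5c, j5d⟩ (by omega)
        split_ifs at h <;> omega
      · omega
      · have h6 := hB h5.2
        have := innN_one (m := m) (J := J) ⟨j3b, j3c, j3d⟩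
        rw [if_neg (by omega)] at h
        omega
    · omega
  · by_contra hcon
    have hb : ∀ s, 1 ≤ s → s < m → s % 2 = 0 → Blk m J s := by
      intro s s1 s2 s3
      by_contra hb
      obtain ⟨a, b, h1, h2, h3⟩ := step_of_not_blk s1 s2 (by omega) hb
      exact hcon ⟨s, a, b, s3, h1, h2, h3⟩
    obtain ⟨j2, j2a, j2b, j2c, j2d⟩ := inner 2 (hb 2 (by omega) (by omega) rfl) (by omega) (by omega)
    obtain ⟨j4, j4a, j4b, j4c, j4d⟩ := inner 4 (hb 4 (by omega) (by omega) rfl) (by omega) (by omega)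
    have h24 := innN_two (m := m) (J := J) ⟨j2b, j2c, j2d⟩ ⟨j4b, j4c, j4d⟩ (by omega)
    by_cases hp : m % 2 = 1
    · rw [if_pos hp] at h
      rcases hb 6 (by omega) (by omega) rfl with ⟨j6, j6a, j6b, j6c, j6d⟩ | h6 | h6
      · have := innN_three (m := m) (J := J) ⟨j2b, j2c, j2d⟩ ⟨j4b, j4c, j4d⟩ ⟨j6b, j6c, j6d⟩
          (by omega) (by omega) (by omega)
        omega
      · omega
      · have := hB h6.2
        omega
    · rw [if_neg hp] at h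
      omega

end CLB.H95
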