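import Pool.Agent.Helper95_CLB.PTight

/-!
Forbidden sets for a run of ports between two known labels: at most two labels at every port, at most one
at a designated port, such that at most two of the six types survive.
-/

set_option autoImplicit false

namespace CLB.H95

open Finset
open H3DA (Q neg nr)

/-- Labels as numbers. -/
def cd (x : Q) : ℕ := (if x.1 then 1 else 0) + (if x.2.1 then 2 else 0) + (if x.2.2 then 4 else 0)

def lab (n : ℕ) : Q := (n.testBit 0, n.testBit 1, n.testBit 2)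

/-- Types as numbers. -/
def ty (n : ℕ) : Ty := (if n / 2 = 0 then 0 else if n / 2 = 1 then 1 else 2, n % 2 == 0)

/-- Sets of labels as numbers. -/
def mk (n : ℕ) : Finset Q := univ.filter (fun x => n.testBit (cd x) = true)

lemma mem_mk {n : ℕ} {x : Q} : x ∈ mk n ↔ n.testBit (cd x) = true := by unfold mk; simp

/-- Is there a walk of type `T` from `x` to `q'` avoiding the forbidden sets? -/
def runTo (q' : Q) : Ty → Q → List ℕ → Bool
  | T, x, [] => stp T x q'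
  | T, x, n :: l => (!(n.testBit (cd (add x (uD T)))) && runTo q' (co T) (add x (uD T)) l) ||
      (!(n.testBit (cd (add x (vD T)))) && runTo q' (co T) (add x (vD T)) l)

/-- Is there a walk of type `T` from `x` avoiding the forbidden sets? -/
def runFree : Ty → Q → List ℕ → Bool
  | _, _, [] => true
  | T, x, n :: l => (!(n.testBit (cd (add x (uD T)))) && runFree (co T) (add x (uD T)) l) ||
      (!(n.testBit (cd (add x (vD T)))) && runFree (co T) (add x (vD T)) l)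

lemma stp_cases {T : Ty} {x y : Q} (h : stp T x y = true) : y = add x (uD T) ∨ y = add x (vD T) := by
  unfold stp at h
  simpa using h

lemma runTo_true {q' : Q} {T : Ty} {l : List ℕ} {s : ℕ → Q} {k : ℕ}
    (hs : ∀ t ≤ l.length, stp (al T t) (s (k + t)) (s (k + t + 1)) = true)
    (hend : s (k + l.length + 1) = q')
    (hF : ∀ t (h : t < l.length), (l[t]).testBit (cd (s (k + t + 1))) = false) :
    runTo q' T (s k) l = true := by
  induction l generalizing T k with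
  | nil =>
    have := hs 0 (Nat.zero_le _)
    rw [al_zero] at this
    simp only [List.length_nil, Nat.add_zero] at hend this
    rw [hend] at this
    exact this
  | cons n l ih =>
    have h0 := hs 0 (Nat.zero_le _)
    rw [al_zero, Nat.add_zero] at h0
    have h1 : runTo q' (co T) (s (k + 1)) l = true := by
      refine ih (k := k + 1) (fun t ht => ?_) ?_ (fun t ht => ?_)
      · have := hs (t + 1) (by simp only [List.length_cons]; omega)
        rw [show al (co T) t = al T (t + 1) by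
          rw [show co T = al T 1 by rw [show (1 : ℕ) = 0 + 1 by rfl, al_succ, al_zero], al_al,
            Nat.add_comm]]
        rw [show k + 1 + t = k + (t + 1) by omega]
        exact this
      · rw [← hend]
        congr 1
        simp only [List.length_cons]; omega
      · have := hF (t + 1) (by simp only [List.length_cons]; omega)
        simp only [List.getElem_cons_succ] at this
        rw [show k + 1 + t + 1 = k + (t + 1) + 1 by omega]
        exact this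
    have h2 : n.testBit (cd (s (k + 1))) = false := by
      have := hF 0 (by simp)
      simpa using this
    rcases stp_cases h0 with h | h
    · rw [h] at h1 h2
      unfold runTo
      simp [h1, h2]
    · rw [h] at h1 h2
      unfold runTo
      simp [h1, h2]

lemma runFree_true {T : Ty} {l : List ℕ} {s : ℕ → Q} {k : ℕ}
    (hs : ∀ t < l.length, stp (al T t) (s (k + t)) (s (k + t + 1)) = true)
    (hF : ∀ t (h : t < l.length), (l[t]).testBit (cd (s (k + t + 1))) = false) :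
    runFree T (s k) l = true := by
  induction l generalizing T k with
  | nil => rfl
  | cons n l ih =>
    have h0 := hs 0 (by simp)
    rw [al_zero, Nat.add_zero] at h0
    have h1 : runFree (co T) (s (k + 1)) l = true := by
      refine ih (k := k + 1) (fun t ht => ?_) (fun t ht => ?_)
      · have := hs (t + 1) (by simp only [List.length_cons]; omega)
        rw [show al (co T) t = al T (t + 1) by
          rw [show co T = al T 1 by rw [show (1 : ℕ) = 0 + 1 by rfl, al_succ, al_zero], al_al,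
            Nat.add_comm]]
        rw [show k + 1 + t = k + (t + 1) by omega]
        exact this
      · have := hF (t + 1) (by simp only [List.length_cons]; omega)
        simp only [List.getElem_cons_succ] at this
        rw [show k + 1 + t + 1 = k + (t + 1) + 1 by omega]
        exact this
    have h2 : n.testBit (cd (s (k + 1))) = false := by
      have := hF 0 (by simp)
      simpa using this
    rcases stp_cases h0 with h | h
    · rw [h] at h1 h2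
      unfold runFree
      simp [h1, h2]
    · rw [h] at h1 h2
      unfold runFree
      simp [h1, h2]

def tab1 : List (ℕ × ℕ × ℕ × ℕ × List ℕ) :=
  [(0, 1, 0, 1, [1]), (1, 1, 2, 4, [2]), (2, 1, 0, 4, [4]), (3, 1, 0, 3, [4]), (4, 1, 0, 2, [16]),
   (5, 1, 0, 5, [16]), (6, 1, 2, 5, [16]), (7, 1, 0, 1, [1])]

def tab2 : List (ℕ × ℕ × ℕ × ℕ × List ℕ) :=
  [(0, 1, 0, 1, [2, 20]), (0, 2, 0, 1, [6, 16]), (1, 1, 0, 1, [1, 40]), (1, 2, 0, 1, [5, 32]),
   (2, 1, 0, 1, [1, 72]), (2, 2, 0, 1, [3, 64]), (3, 1, 0, 1, [4, 6]), (3, 2, 0, 1, [5, 2]),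
   (4, 1, 0, 1, [1, 96]), (4, 2, 0, 1, [3, 64]), (5, 1, 0, 1, [16, 6]), (5, 2, 0, 1, [17, 2]),
   (6, 1, 0, 1, [1, 66]), (6, 2, 0, 1, [3, 64]), (7, 1, 0, 1, [2, 66]), (7, 2, 0, 1, [3, 64])]

def tab3 : List (ℕ × ℕ × ℕ × ℕ × List ℕ) :=
  [(0, 1, 0, 2, [2, 68, 3]), (0, 2, 0, 1, [3, 64, 3]), (0, 3, 0, 2, [18, 68, 2]),
   (1, 1, 0, 1, [1, 6, 3]), (1, 2, 0, 1, [3, 4, 3]), (1, 3, 0, 1, [3, 12, 1]),
   (2, 1, 0, 1, [1, 72, 3]), (2, 2, 0, 1, [3, 64, 9]), (2, 3, 0, 1, [3, 72, 1]),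
   (3, 1, 0, 1, [1, 96, 9]), (3, 2, 0, 1, [3, 64, 10]), (3, 3, 0, 1, [3, 68, 2]),
   (4, 1, 0, 1, [1, 96, 3]), (4, 2, 0, 1, [3, 64, 33]), (4, 3, 0, 1, [3, 68, 32]),
   (5, 1, 0, 1, [1, 72, 33]), (5, 2, 0, 1, [3, 64, 34]), (5, 3, 0, 1, [3, 72, 32]),
   (6, 1, 0, 1, [1, 6, 3]), (6, 2, 0, 1, [3, 4, 3]), (6, 3, 0, 1, [3, 12, 1]),
   (7, 1, 0, 2, [16, 6, 130]), (7, 2, 0, 1, [3, 64, 40]), (7, 3, 0, 2, [17, 6, 128])]

def tab4 : List (ℕ × ℕ × ℕ × ℕ × List ℕ) :=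
  [(0, 1, 0, 1, [1, 6, 72, 17]), (0, 2, 0, 1, [3, 4, 72, 17]), (0, 3, 0, 1, [3, 12, 64, 17]),
   (0, 4, 0, 1, [3, 12, 96, 1]), (1, 1, 0, 1, [1, 6, 129, 33]), (1, 2, 0, 1, [3, 4, 129, 33]),
   (1, 3, 0, 1, [3, 12, 128, 33]), (1, 4, 0, 1, [3, 12, 160, 1]), (2, 1, 0, 1, [1, 6, 129, 5]),
   (2, 2, 0, 1, [3, 4, 129, 5]), (2, 3, 0, 1, [3, 12, 16, 12]), (2, 4, 0, 1, [3, 12, 80, 8]),
   (3, 1, 0, 1, [1, 6, 5, 136]), (3, 2, 0, 1, [3, 4, 5, 136]), (3, 3, 0, 1, [3, 20, 4, 136]),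
   (3, 4, 0, 1, [3, 20, 6, 128]), (4, 1, 0, 1, [1, 6, 96, 33]), (4, 2, 0, 1, [3, 4, 96, 33]),
   (4, 3, 0, 1, [3, 20, 128, 17]), (4, 4, 0, 1, [3, 68, 33, 1]), (5, 1, 0, 1, [1, 6, 17, 160]),
   (5, 2, 0, 1, [3, 4, 17, 160]), (5, 3, 0, 1, [3, 12, 16, 129]), (5, 4, 0, 1, [3, 12, 17, 128]),
   (6, 1, 0, 1, [1, 6, 5, 144]), (6, 2, 0, 1, [3, 4, 5, 144]), (6, 3, 0, 1, [3, 12, 16, 132]),
   (6, 4, 0, 1, [3, 20, 20, 128]), (7, 1, 0, 1, [1, 6, 6, 160]), (7, 2, 0, 1, [3, 4, 6, 160]),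
   (7, 3, 0, 1, [3, 12, 16, 136]), (7, 4, 0, 1, [3, 68, 3, 128])]

def tab5 : List (ℕ × ℕ × ℕ × ℕ × List ℕ) :=
  [(0, 1, 0, 1, [1, 6, 3, 5, 3]), (0, 2, 0, 1, [3, 4, 3, 5, 3]), (0, 3, 0, 1, [3, 12, 1, 5, 3]),
   (0, 4, 0, 1, [3, 12, 3, 1, 3]), (0, 5, 0, 1, [3, 12, 3, 5, 1]),
   (1, 1, 0, 1, [1, 66, 10, 144, 10]), (1, 2, 0, 1, [3, 64, 3, 132, 3]),
   (1, 3, 0, 1, [3, 68, 1, 160, 9]), (1, 4, 0, 1, [3, 68, 3, 128, 3]),
   (1, 5, 0, 1, [3, 68, 3, 160, 1]), (2, 1, 0, 1, [1, 6, 17, 136, 3]),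
   (2, 2, 0, 1, [3, 4, 17, 136, 3]), (2, 3, 0, 1, [3, 12, 16, 136, 3]),
   (2, 4, 0, 1, [3, 12, 144, 1, 9]), (2, 5, 0, 1, [3, 12, 17, 136, 1]),
   (3, 1, 0, 1, [1, 6, 5, 160, 5]), (3, 2, 0, 1, [3, 4, 5, 160, 5]),
   (3, 3, 0, 1, [3, 12, 16, 132, 3]), (3, 4, 0, 1, [3, 12, 80, 1, 10]),
   (3, 5, 0, 1, [3, 12, 5, 160, 4]), (4, 1, 0, 1, [1, 6, 5, 160, 3]),
   (4, 2, 0, 1, [3, 4, 5, 160, 3]), (4, 3, 0, 1, [3, 12, 16, 132, 17]),
   (4, 4, 0, 1, [3, 12, 80, 1, 80]), (4, 5, 0, 1, [3, 12, 5, 160, 1]),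
   (5, 1, 0, 1, [1, 6, 17, 136, 17]), (5, 2, 0, 1, [3, 4, 17, 136, 17]),
   (5, 3, 0, 1, [3, 12, 16, 136, 17]), (5, 4, 0, 1, [3, 12, 144, 1, 144]),
   (5, 5, 0, 1, [3, 12, 17, 136, 16]), (6, 1, 0, 1, [1, 40, 68, 33, 68]),
   (6, 2, 0, 1, [3, 64, 3, 132, 20]), (6, 3, 0, 1, [3, 68, 2, 132, 17]),
   (6, 4, 0, 1, [3, 68, 3, 128, 20]), (6, 5, 0, 1, [3, 68, 3, 132, 16]),
   (7, 1, 0, 1, [1, 6, 3, 5, 3]), (7, 2, 0, 1, [3, 4, 3, 5, 3]), (7, 3, 0, 1, [3, 12, 1, 5, 3]),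
   (7, 4, 0, 1, [3, 12, 3, 1, 3]), (7, 5, 0, 1, [3, 12, 3, 5, 1])]

def tab6 : List (ℕ × ℕ × ℕ × ℕ × List ℕ) :=
  [(0, 1, 0, 1, [1, 6, 3, 5, 68, 18]), (0, 2, 0, 1, [3, 4, 3, 5, 68, 18]),
   (0, 3, 0, 1, [3, 12, 1, 5, 68, 18]), (0, 4, 0, 1, [3, 12, 3, 1, 68, 18]),
   (0, 5, 0, 1, [3, 12, 3, 9, 64, 18]), (0, 6, 0, 1, [3, 12, 3, 9, 80, 2]),
   (1, 1, 0, 1, [1, 6, 3, 5, 129, 34]), (1, 2, 0, 1, [3, 4, 3, 5, 129, 34]),
   (1, 3, 0, 1, [3, 12, 1, 5, 129, 34]), (1, 4, 0, 1, [3, 12, 3, 1, 132, 34]),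
   (1, 5, 0, 1, [3, 12, 3, 5, 128, 34]), (1, 6, 0, 1, [3, 12, 3, 5, 144, 2]),
   (2, 1, 0, 1, [1, 6, 3, 5, 9, 72]), (2, 2, 0, 1, [3, 4, 3, 5, 9, 72]),
   (2, 3, 0, 1, [3, 12, 1, 5, 9, 72]), (2, 4, 0, 1, [3, 12, 3, 1, 9, 72]),
   (2, 5, 0, 1, [3, 12, 3, 17, 8, 72]), (2, 6, 0, 1, [3, 12, 3, 17, 10, 64]),
   (3, 1, 0, 1, [1, 6, 3, 5, 129, 6]), (3, 2, 0, 1, [3, 4, 3, 5, 129, 6]),
   (3, 3, 0, 1, [3, 12, 1, 5, 129, 6]), (3, 4, 0, 1, [3, 12, 3, 1, 68, 10]),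
   (3, 5, 0, 1, [3, 12, 3, 5, 128, 6]), (3, 6, 0, 1, [3, 12, 3, 144, 132, 2]),
   (4, 1, 0, 1, [1, 6, 3, 5, 33, 96]), (4, 2, 0, 1, [3, 4, 3, 5, 33, 96]),
   (4, 3, 0, 1, [3, 12, 1, 5, 33, 96]), (4, 4, 0, 1, [3, 12, 3, 1, 33, 96]),
   (4, 5, 0, 1, [3, 12, 3, 5, 32, 96]), (4, 6, 0, 1, [3, 12, 3, 5, 34, 64]),
   (5, 1, 0, 1, [1, 6, 3, 5, 80, 34]), (5, 2, 0, 1, [3, 4, 3, 5, 80, 34]),
   (5, 3, 0, 1, [3, 12, 1, 5, 80, 34]), (5, 4, 0, 1, [3, 12, 3, 1, 80, 34]),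
   (5, 5, 0, 1, [3, 12, 3, 17, 128, 18]), (5, 6, 0, 1, [3, 12, 3, 132, 144, 2]),
   (6, 1, 0, 1, [1, 6, 3, 5, 9, 80]), (6, 2, 0, 1, [3, 4, 3, 5, 9, 80]),
   (6, 3, 0, 1, [3, 12, 1, 5, 9, 80]), (6, 4, 0, 1, [3, 12, 3, 1, 9, 80]),
   (6, 5, 0, 1, [3, 12, 3, 5, 32, 68]), (6, 6, 0, 1, [3, 12, 3, 136, 33, 64]),
   (7, 1, 0, 1, [1, 6, 3, 5, 10, 96]), (7, 2, 0, 1, [3, 4, 3, 5, 10, 96]),
   (7, 3, 0, 1, [3, 12, 1, 5, 10, 96]), (7, 4, 0, 1, [3, 12, 3, 1, 10, 96]),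
   (7, 5, 0, 1, [3, 12, 3, 9, 32, 72]), (7, 6, 0, 1, [3, 12, 3, 132, 34, 64])]

def tab7 : List (ℕ × ℕ × ℕ × ℕ × List ℕ) :=
  [(0, 1, 0, 1, [1, 6, 5, 136, 17, 10, 17]), (0, 2, 0, 1, [3, 4, 5, 136, 17, 10, 17]),
   (0, 3, 0, 1, [3, 12, 16, 129, 5, 34, 5]), (0, 4, 0, 1, [3, 12, 17, 128, 5, 34, 5]),
   (0, 5, 0, 1, [3, 12, 17, 132, 2, 68, 3]), (0, 6, 0, 1, [3, 12, 17, 132, 6, 16, 6]),
   (0, 7, 0, 1, [3, 12, 17, 132, 18, 68, 2]), (1, 1, 0, 1, [1, 6, 3, 5, 3, 6, 3]),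
   (1, 2, 0, 1, [3, 4, 3, 5, 3, 6, 3]), (1, 3, 0, 1, [3, 12, 1, 5, 3, 6, 3]),
   (1, 4, 0, 1, [3, 12, 3, 1, 3, 6, 3]), (1, 5, 0, 1, [3, 12, 3, 5, 1, 6, 3]),
   (1, 6, 0, 1, [3, 12, 3, 5, 3, 2, 3]), (1, 7, 0, 1, [3, 12, 3, 5, 3, 6, 1]),
   (2, 1, 0, 1, [1, 6, 3, 5, 33, 72, 3]), (2, 2, 0, 1, [3, 4, 3, 5, 33, 72, 3]),
   (2, 3, 0, 1, [3, 12, 1, 5, 33, 72, 3]), (2, 4, 0, 1, [3, 12, 3, 1, 33, 72, 3]),
   (2, 5, 0, 1, [3, 12, 3, 5, 32, 72, 3]), (2, 6, 0, 1, [3, 12, 3, 5, 160, 2, 5]),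
   (2, 7, 0, 1, [3, 12, 3, 5, 33, 72, 1]), (3, 1, 0, 1, [1, 6, 3, 5, 9, 96, 9]),
   (3, 2, 0, 1, [3, 4, 3, 5, 9, 96, 9]), (3, 3, 0, 1, [3, 12, 1, 5, 9, 96, 9]),
   (3, 4, 0, 1, [3, 12, 3, 1, 9, 96, 9]), (3, 5, 0, 1, [3, 12, 3, 9, 32, 68, 3]),
   (3, 6, 0, 1, [3, 12, 3, 9, 96, 2, 6]), (3, 7, 0, 1, [3, 12, 3, 5, 9, 96, 8]),
   (4, 1, 0, 1, [1, 6, 3, 5, 9, 96, 3]), (4, 2, 0, 1, [3, 4, 3, 5, 9, 96, 3]),
   (4, 3, 0, 1, [3, 12, 1, 5, 9, 96, 3]), (4, 4, 0, 1, [3, 12, 3, 1, 9, 96, 3]),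
   (4, 5, 0, 1, [3, 12, 3, 9, 32, 68, 33]), (4, 6, 0, 1, [3, 12, 3, 9, 96, 2, 96]),
   (4, 7, 0, 1, [3, 12, 3, 5, 9, 96, 1]), (5, 1, 0, 1, [1, 6, 3, 5, 33, 72, 33]),
   (5, 2, 0, 1, [3, 4, 3, 5, 33, 72, 33]), (5, 3, 0, 1, [3, 12, 1, 5, 33, 72, 33]),
   (5, 4, 0, 1, [3, 12, 3, 1, 33, 72, 33]), (5, 5, 0, 1, [3, 12, 3, 5, 32, 72, 33]),
   (5, 6, 0, 1, [3, 12, 3, 5, 160, 2, 160]), (5, 7, 0, 1, [3, 12, 3, 5, 33, 72, 32]),
   (6, 1, 0, 1, [1, 6, 3, 5, 3, 6, 3]), (6, 2, 0, 1, [3, 4, 3, 5, 3, 6, 3]),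
   (6, 3, 0, 1, [3, 12, 1, 5, 3, 6, 3]), (6, 4, 0, 1, [3, 12, 3, 1, 3, 6, 3]),
   (6, 5, 0, 1, [3, 12, 3, 5, 1, 6, 3]), (6, 6, 0, 1, [3, 12, 3, 5, 3, 2, 3]),
   (6, 7, 0, 1, [3, 12, 3, 5, 3, 6, 1]), (7, 1, 0, 1, [1, 6, 5, 160, 9, 96, 9]),
   (7, 2, 0, 1, [3, 4, 5, 160, 9, 96, 9]), (7, 3, 0, 1, [3, 12, 16, 12, 96, 72, 96]),
   (7, 4, 0, 1, [3, 12, 80, 1, 34, 68, 160]), (7, 5, 0, 1, [3, 12, 17, 132, 2, 68, 33]),
   (7, 6, 0, 1, [3, 12, 17, 132, 6, 64, 96]), (7, 7, 0, 1, [3, 12, 5, 160, 9, 96, 8])]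

/-- The check of an entry. -/
def good (e : ℕ × ℕ × ℕ × ℕ × List ℕ) : Bool :=
  (List.range 6).all (fun T => (T == e.2.2.1) || (T == e.2.2.2.1) ||
    !(runTo (lab e.1) (ty T) (false, false, false) e.2.2.2.2))

/-- The number of elements. -/
def sz (n : ℕ) : ℕ := ((List.range 8).filter (fun i => n.testBit i)).length

lemma sz_card : ∀ n < 256, (mk n).card = sz n := by decide +kernel

/-- The quota check. -/
def quota (e : ℕ × ℕ × ℕ × ℕ × List ℕ) : Bool :=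
  e.2.2.2.2.all (fun n => decide (n < 256) && decide (sz n ≤ 2)) &&
    decide (sz (e.2.2.2.2.getD (e.2.1 - 1) 0) ≤ 1)

lemma tab1_good : tab1.all (fun e => good e && quota e && e.2.2.2.2.length == 1) = true := by decide
lemma tab2_good : tab2.all (fun e => good e && quota e && e.2.2.2.2.length == 2) = true := by decide
lemma tab3_good : tab3.all (fun e => good e && quota e && e.2.2.2.2.length == 3) = true := by decide
lemma tab4_good : tab4.all (fun e => good e && quota e && e.2.2.2.2.length == 4) = true := by decide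
lemma tab5_good : tab5.all (fun e => good e && quota e && e.2.2.2.2.length == 5) = true := by decide
lemma tab6_good : tab6.all (fun e => good e && quota e && e.2.2.2.2.length == 6) = true := by
  decide +kernel
lemma tab7_good : tab7.all (fun e => good e && quota e && e.2.2.2.2.length == 7) = true := by
  decide +kernel

/-- The tables are complete. -/
def full (r : ℕ) (tab : List (ℕ × ℕ × ℕ × ℕ × List ℕ)) : Bool :=
  (List.range 8).all (fun q => (List.range r).all (fun p =>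
    tab.any (fun e => e.1 == q && e.2.1 == p + 1)))

lemma tab_full : (full 1 tab1 && full 2 tab2 && full 3 tab3 && full 4 tab4 && full 5 tab5 &&
    full 6 tab6 && full 7 tab7) = true := by decide +kernel

/-- Forbidden sets for a run of `r` ports between the labels `q` and `q'`, place `p` is light. -/
def RK (r : ℕ) (q q' : Q) (p : ℕ) : Prop :=
  ∃ (F : ℕ → Finset Q) (D1 D2 : Ty), (∀ t, (F t).card ≤ 2) ∧ (F p).card ≤ 1 ∧
    ∀ D, D ≠ D1 → D ≠ D2 → ∀ s : ℕ → Q, s 0 = q → s (r + 1) = q' →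
      (∀ t ≤ r, stp (al D t) (s t) (s (t + 1)) = true) → ∃ t, 1 ≤ t ∧ t ≤ r ∧ s t ∈ F t

lemma add_stp : ∀ (D : Ty) (q x y : Q), stp D (add q x) (add q y) = stp D x y := by decide

lemma add_self_add : ∀ q x : Q, add q (add q x) = x := by decide

lemma ty_surj : ∀ D : Ty, ∃ T ∈ List.range 6, ty T = D := by decide

lemma lab_cd : ∀ x : Q, lab (cd x) = x ∧ cd x ∈ List.range 8 := by decide

lemma add_self_zero : ∀ q : Q, add q q = (false, false, false) := by decide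

/-- The shifted forbidden sets. -/
def shF (q : Q) (l : List ℕ) (t : ℕ) : Finset Q :=
  if 1 ≤ t ∧ t ≤ l.length then (mk (l.getD (t - 1) 0)).image (add q) else ∅

lemma mem_shF {q : Q} {l : List ℕ} {t : ℕ} (h : t < l.length) {x : Q} :
    x ∈ shF q l (t + 1) ↔ (l[t]).testBit (cd (add q x)) = true := by
  unfold shF
  rw [if_pos ⟨by omega, by omega⟩]
  rw [Nat.add_sub_cancel, List.getD_eq_getElem?_getD, List.getElem?_eq_getElem h, Option.getD_some,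
    mem_image]
  constructor
  · rintro ⟨y, hy, rfl⟩
    rw [add_self_add]; exact mem_mk.1 hy
  · intro hx
    exact ⟨add q x, mem_mk.2 hx, add_self_add q x⟩

lemma shF_card {q : Q} {l : List ℕ} (hl : ∀ n ∈ l, n < 256 ∧ sz n ≤ 2) (t : ℕ) :
    (shF q l t).card ≤ 2 := by
  unfold shF
  by_cases h : 1 ≤ t ∧ t ≤ l.length
  · rw [if_pos h]
    refine le_trans Finset.card_image_le ?_
    have hlt : t - 1 < l.length := by omega
    rw [List.getD_eq_getElem?_getD, List.getElem?_eq_getElem hlt, Option.getD_some]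
    obtain ⟨h1, h2⟩ := hl _ (List.getElem_mem hlt)
    rw [sz_card _ h1]; exact h2
  · rw [if_neg h]; simp

lemma RK_of_entry {r : ℕ} {q q' : Q} {p : ℕ} (hp1 : 1 ≤ p) {e : ℕ × ℕ × ℕ × ℕ × List ℕ}
    (hg : (good e && quota e && e.2.2.2.2.length == r) = true) (hq : lab e.1 = add q q')
    (hp : e.2.1 = p) : RK r q q' p := by
  obtain ⟨c, p', a, b, l⟩ := e
  simp only at hq hp
  subst hp
  simp only [Bool.and_eq_true, beq_iff_eq] at hg
  obtain ⟨⟨hg, hquo⟩, hlen⟩ := hg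
  unfold quota at hquo
  simp only [Bool.and_eq_true, decide_eq_true_eq, List.all_eq_true] at hquo
  obtain ⟨hq1, hq2⟩ := hquo
  refine ⟨shF q l, ty a, ty b, shF_card hq1, ?_, ?_⟩
  · unfold shF
    by_cases h : 1 ≤ p' ∧ p' ≤ l.length
    · rw [if_pos h]
      refine le_trans Finset.card_image_le ?_
      have hlt : p' - 1 < l.length := by omega
      have h3 := (hq1 _ (List.getElem_mem hlt)).1
      rw [List.getD_eq_getElem?_getD, List.getElem?_eq_getElem hlt, Option.getD_some] at hq2 ⊢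
      rw [sz_card _ h3]; exact hq2
    · rw [if_neg h]; simp
  · intro D hD1 hD2 s hs0 hs1 hst
    by_contra hcon
    push Not at hcon
    unfold good at hg
    simp only [List.all_eq_true, Bool.or_eq_true, beq_iff_eq, Bool.not_eq_true'] at hg
    obtain ⟨T, hT, hTD⟩ := ty_surj D
    rcases hg T hT with (h | h) | h
    · exact hD1 (by rw [← hTD, h])
    · exact hD2 (by rw [← hTD, h])
    · have h1 : runTo (lab c) (ty T) ((fun t => add q (s t)) 0) l = true := by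
        refine runTo_true (s := fun t => add q (s t)) (k := 0) (fun t ht => ?_) ?_ (fun t ht => ?_)
        · simp only [Nat.zero_add]
          rw [add_stp, hTD]
          exact hst t (by omega)
        · simp only [Nat.zero_add]
          rw [hlen, hs1, hq]
        · simp only [Nat.zero_add]
          have := hcon (t + 1) (by omega) (by omega)
          rw [mem_shF ht] at this
          simpa using this
      simp only [hs0, add_self_zero] at h1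
      rw [h1] at h
      exact absurd h (by simp)

lemma RK_of_tab {r : ℕ} {tab : List (ℕ × ℕ × ℕ × ℕ × List ℕ)}
    (h1 : tab.all (fun e => good e && quota e && e.2.2.2.2.length == r) = true)
    (h2 : full r tab = true) (q q' : Q) {p : ℕ} (hp : 1 ≤ p) (hpr : p ≤ r) : RK r q q' p := by
  unfold full at h2
  simp only [List.all_eq_true, List.any_eq_true, Bool.and_eq_true, beq_iff_eq, List.mem_range] at h2
  obtain ⟨e, he, he1, he2⟩ := h2 (cd (add q q')) (List.mem_range.1 (lab_cd _).2) (p - 1) (by omega)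
  rw [List.all_eq_true] at h1
  exact RK_of_entry hp (h1 e he) (by rw [he1]; exact (lab_cd _).1) (by omega)

lemma RK_small (r : ℕ) (hr : r ≤ 7) (q q' : Q) {p : ℕ} (hp : 1 ≤ p) (hpr : p ≤ r) : RK r q q' p := by
  have h := tab_full
  simp only [Bool.and_eq_true] at h
  obtain ⟨⟨⟨⟨⟨⟨h1, h2⟩, h3⟩, h4⟩, h5⟩, h6⟩, h7⟩ := h
  have : r = 1 ∨ r = 2 ∨ r = 3 ∨ r = 4 ∨ r = 5 ∨ r = 6 ∨ r = 7 := by omega
  rcases this with h | h | h | h | h | h | h <;> subst h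
  · exact RK_of_tab tab1_good h1 q q' hp hpr
  · exact RK_of_tab tab2_good h2 q q' hp hpr
  · exact RK_of_tab tab3_good h3 q q' hp hpr
  · exact RK_of_tab tab4_good h4 q q' hp hpr
  · exact RK_of_tab tab5_good h5 q q' hp hpr
  · exact RK_of_tab tab6_good h6 q q' hp hpr
  · exact RK_of_tab tab7_good h7 q q' hp hpr

/-- The window of four ports. -/
def win : List ℕ := [18, 6, 130, 17]

lemma win_good : ((List.range 6).all (fun T => (T == 0) || (T == 2) ||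
    !(runFree (ty T) (false, false, false) win)) && win.all (fun n => decide (n < 256) &&
      decide (sz n ≤ 2))) = true := by decide

lemma RK_left {r : ℕ} (hr : 8 ≤ r) (q q' : Q) {p : ℕ} (hp : 4 < p) : RK r q q' p := by
  have hw := win_good
  simp only [Bool.and_eq_true, decide_eq_true_eq, List.all_eq_true, Bool.or_eq_true, beq_iff_eq,
    Bool.not_eq_true'] at hw
  obtain ⟨hw1, hw2⟩ := hw
  refine ⟨shF q win, ty 0, ty 2, shF_card hw2, ?_, ?_⟩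
  · unfold shF
    rw [if_neg (by
      have : win.length = 4 := rfl
      rw [this]; omega)]
    simp
  · intro D hD1 hD2 s hs0 hs1 hst
    by_contra hcon
    push Not at hcon
    have hlen : win.length = 4 := rfl
    obtain ⟨T, hT, hTD⟩ := ty_surj D
    rcases hw1 T hT with (h | h) | h
    · exact hD1 (by rw [← hTD, h])
    · exact hD2 (by rw [← hTD, h])
    · have h1 : runFree (ty T) ((fun t => add q (s t)) 0) win = true := by
        refine runFree_true (s := fun t => add q (s t)) (k := 0) (fun t ht => ?_) (fun t ht => ?_)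
        · simp only [Nat.zero_add]
          rw [add_stp, hTD]
          exact hst t (by omega)
        · simp only [Nat.zero_add]
          have := hcon (t + 1) (by omega) (by omega)
          rw [mem_shF ht] at this
          simpa using this
      simp only [hs0, add_self_zero] at h1
      rw [h1] at h
      exact absurd h (by simp)

lemma al_even (D : Ty) (i : ℕ) (h : i % 2 = 0) : al D i = D := by unfold al; rw [if_pos h]

lemma al_congr (D : Ty) {i j : ℕ} (h : i % 2 = j % 2) : al D i = al D j := by unfold al; rw [h]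

/-- Reversal of a run. -/
lemma RK_rev {r : ℕ} {q q' : Q} {p : ℕ} (hp : p ≤ r) (hp1 : 1 ≤ p) (h : RK r q' q (r + 1 - p)) :
    RK r q q' p := by
  obtain ⟨F, D1, D2, h1, h2, h3⟩ := h
  refine ⟨fun t => F (r + 1 - t), al D1 r, al D2 r, fun t => h1 _, h2, ?_⟩
  intro D hD1 hD2 s hs0 hs1 hst
  obtain ⟨t, ht1, ht2, ht3⟩ := h3 (al D r) (fun h => hD1 (by rw [← h, al_al, al_even _ _ (by omega)]))
    (fun h => hD2 (by rw [← h, al_al, al_even _ _ (by omega)])) (fun t => s (r + 1 - t))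
    (by simp [hs1]) (by simp [hs0]) (fun t ht => by
      rw [al_al, stp_symm]
      have := hst (r - t) (by omega)
      rw [al_congr D (show (r + t) % 2 = (r - t) % 2 by omega)]
      rw [show r + 1 - (t + 1) = r - t by omega, show r + 1 - t = r - t + 1 by omega]
      exact this)
  exact ⟨r + 1 - t, by omega, by omega, by simpa [show r + 1 - (r + 1 - t) = t by omega] using ht3⟩

/-- The run lemma. -/
theorem run_kill (r : ℕ) (q q' : Q) {p : ℕ} (hp : 1 ≤ p) (hpr : p ≤ r) : RK r q q' p := by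
  by_cases hr : r ≤ 7
  · exact RK_small r hr q q' hp hpr
  · by_cases h4 : 4 < p
    · exact RK_left (by omega) q q' h4
    · exact RK_rev hpr hp (RK_left (by omega) q' q (by omega))

end CLB.H95
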