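import Pool.Agent.Helper86_DA.GmAll

/-!
The statuses of the windows at the left end of a chain and their codes.
-/

set_option autoImplicit false

namespace CLB.H95

open CLB.H86.Gm (cov codes)

/-- The status of a window: the numbers of ports of the caterpillar at the two vertices of the units,
the places of its four leaf ports (`0` outside, `2 * i` the vertex `X i`, `2 * i + 1` the vertex `Y i`),
the parity of `m`, the foreign relations, the exceptional component (`1` couple, `2` triple, `3` four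
leaf ports). -/
structure Sta where
  w : List (ℕ × ℕ)
  a0 : ℕ
  a1 : ℕ
  b0 : ℕ
  b1 : ℕ
  odd : Bool
  f1 : Bool
  f2 : Bool
  kap : ℕ
deriving DecidableEq, Repr

namespace Sta

/-- The place is in the window of the first `n` units. -/
def inW (n a : ℕ) : Bool := Nat.ble 2 a && Nat.ble (a / 2) n

/-- The numbers of ports of unit `i`. -/
def ow (S : Sta) (i : ℕ) : ℕ × ℕ := S.w.getD (i - 1) (0, 0)

/-- The number of ports at unit `i`. -/
def own (S : Sta) (i : ℕ) : ℕ := (S.ow i).1 + (S.ow i).2

/-- A conflict at unit `i` of the leaf port `a` with mate `b`. -/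
def cf1 (n i a b : ℕ) : ℕ := if a / 2 == i && !inW n b then 1 else 0

/-- The number of conflicts at unit `i`. -/
def cfn (S : Sta) (n i : ℕ) : ℕ :=
  (cf1 n i S.a0 S.a1 + cf1 n i S.a1 S.a0) + (cf1 n i S.b0 S.b1 + cf1 n i S.b1 S.b0)

/-- The foreign relations. -/
def fr (S : Sta) (i : ℕ) : Bool := if i == 1 then S.f1 else if i == 2 then S.f2 else false

/-- The number of foreign port edges at unit `i` which cost nothing. -/
def bon (S : Sta) (n : ℕ) (o : Bool) (i : ℕ) : ℕ :=
  if o then (if Nat.ble 3 i && S.fr (i - 2) then 1 else 0) + (if i == 3 && S.kap == 3 then 1 else 0)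
  else (if Nat.ble (i + 2) n && S.fr i then 1 else 0)

/-- The capacity of unit `i`. -/
def cap (i : ℕ) : ℕ := if i == 1 then 3 else 2

/-- The labels lost at unit `i`. -/
def los (S : Sta) (n : ℕ) (o : Bool) (i : ℕ) : ℕ :=
  2 * (cap i - S.own i - S.bon n o i) + (if i == n then min (S.cfn n i) 1 else S.cfn n i)

/-- The fork with the places `a`, `b` gives a relation of the units `i`, `i + 2`. -/
def orl (i a b : ℕ) : Bool :=
  ((a / 2 == i && b / 2 == i + 2) || (b / 2 == i && a / 2 == i + 2)) && !(a % 2 == b % 2)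

/-- The unit `i` of the code. -/
def uc (S : Sta) (n : ℕ) (o : Bool) (ps : ℕ) (i : ℕ) : UC where
  s := 8 - S.los n o i
  tg := Nat.ble 1 (S.own i) && !((S.a0 / 2 == i || S.a1 / 2 == i) && (S.b0 / 2 == i || S.b1 / 2 == i))
  ph := xor (xor (S.a0 / 2 == i) (S.a1 / 2 == i)) (xor (S.b0 / 2 == i) (S.b1 / 2 == i))
  ps := if ps == 1 then xor (S.a0 / 2 == i) (S.a1 / 2 == i) else
    if ps == 2 then xor (S.b0 / 2 == i) (S.b1 / 2 == i) else false
  rel := Nat.ble (i + 2) n && (S.fr i || (orl i S.a0 S.a1 || orl i S.b0 S.b1))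

/-- The code of the window of the first `n` units. -/
def code (S : Sta) (n : ℕ) (o : Bool) (ps : ℕ) : Code where
  us := (List.range n).map (fun j => S.uc n o ps (j + 1))
  cp := Nat.ble 2 n && (S.kap == 1 || S.kap == 2)

/-- The number of ports in the window of the first `n` units. -/
def tot (S : Sta) : ℕ → ℕ
  | 0 => 0
  | n + 1 => S.tot n + S.own (n + 1)

def b2n (b : Bool) : ℕ := if b then 1 else 0

/-- The number of inner ports in the window. -/
def inn (S : Sta) (n : ℕ) : ℕ :=
  S.tot n - ((b2n (inW n S.a0) + b2n (inW n S.a1)) + (b2n (inW n S.b0) + b2n (inW n S.b1)))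

/-- The sum `psi` may be used. -/
def psok (S : Sta) (n : ℕ) : Bool :=
  if S.odd then
    Nat.ble (S.inn n + b2n (inW n S.a0 && inW n S.a1)) 2 &&
      Nat.ble (S.inn n + b2n (inW n S.b0 && inW n S.b1)) 2
  else
    Nat.ble (S.inn n) 1 &&
      Nat.ble (S.inn n + b2n (inW n S.a0 && inW n S.a1) + b2n (inW n S.b0 && inW n S.b1)) 2

/-- The losses are at most eight. -/
def sml (S : Sta) (n : ℕ) (o : Bool) : Bool :=
  (List.range n).all (fun j => Nat.ble (S.los n o (j + 1)) 8)

/-- The window of the first `n` units is won. -/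
def wn (S : Sta) (n : ℕ) (o : Bool) (ps : ℕ) : Bool :=
  (S.sml n o && (ps == 0 || S.psok n)) && cov codes (S.code n o ps)

/-- The windows which may be used. -/
def lim (kap : ℕ) : ℕ := if kap == 2 then 2 else if kap == 3 then 3 else 4

/-- One of the windows is won. -/
def won (S : Sta) (N : ℕ) : Bool :=
  (List.range N).any (fun j => Nat.ble (j + 1) (lim S.kap) &&
    ([true, false].any fun o => [0, 1, 2].any fun ps => S.wn (j + 1) o ps))

/-! ### The legal statuses -/

/-- The port numbers of a unit of the pattern. -/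
def opts : ℕ → List (ℕ × ℕ)
  | 0 => [(0, 0)]
  | 1 => [(1, 0), (0, 1)]
  | 2 => [(1, 1)]
  | _ => [(2, 0)]

/-- The port numbers of a pattern. -/
def wsOf : List ℕ → List (List (ℕ × ℕ))
  | [] => [[]]
  | p :: l => (opts p).flatMap fun u => (wsOf l).map fun v => u :: v

/-- The places which are seen, from unit `i` on. -/
def plc : ℕ → List (ℕ × ℕ) → List ℕ
  | _, [] => []
  | i, u :: l => (if u.1 == 0 then [] else [2 * i]) ++ ((if u.2 == 0 then [] else [2 * i + 1]) ++
      plc (i + 1) l)

/-- The number of ports at a place. -/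
def cnt (w : List (ℕ × ℕ)) (a : ℕ) : ℕ :=
  if a % 2 == 0 then (w.getD (a / 2 - 1) (0, 0)).1 else (w.getD (a / 2 - 1) (0, 0)).2

/-- Two leaf ports of the same fork. -/
def frkok (a b : ℕ) : Bool :=
  (a == 0 || b == 0) || (!(a / 2 == b / 2) && ((a / 2 + b / 2) % 2 == 0))

/-- Two leaf ports of different forks. -/
def parok (odd : Bool) (a b : ℕ) : Bool :=
  (a == 0 || b == 0) || (((a / 2 + b / 2) % 2 == 0) == odd)

/-- The leaf ports in `l` at the place `a` are at most the number of ports there. -/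
def cntok (w : List (ℕ × ℕ)) (l : List ℕ) (a : ℕ) : Bool :=
  a == 0 || Nat.ble (l.count a) (cnt w a)

/-- The free port edges of the two vertices of a unit. -/
def fx (S : Sta) (i : ℕ) : ℕ := (if i == 1 then 2 else 1) - (S.ow i).1
def fy (S : Sta) (i : ℕ) : ℕ := 1 - (S.ow i).2

/-- The exceptional component has room. -/
def kapok (S : Sta) : Bool :=
  (S.kap == 0 || (Nat.ble 1 (S.fx 1) && Nat.ble 1 (S.fx 2))) &&
    ((Nat.ble S.kap 1 || Nat.ble 1 (S.fx 3)) && (Nat.ble S.kap 2 || Nat.ble 1 (S.fx 4)))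

/-- The foreign relation has room. -/
def frok (S : Sta) : Bool :=
  (!S.f1 || ((Nat.ble (if Nat.ble 2 S.kap then 2 else 1) (S.fx 1) && Nat.ble 1 (S.fy 3)) ||
    (Nat.ble S.kap 1 && (Nat.ble 1 (S.fy 1) && Nat.ble 1 (S.fx 3))))) &&
  (!S.f2 || (Nat.ble S.kap 1 && ((Nat.ble 1 (S.fx 2) && Nat.ble 1 (S.fy 4)) ||
    (Nat.ble 1 (S.fy 2) && Nat.ble 1 (S.fx 4)))))

/-- The legal statuses with given port numbers satisfy `P`. -/
def allW (N : ℕ) (ws : List (List (ℕ × ℕ))) (P : Sta → Bool) : Bool :=
  ws.all fun w =>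
    let q := 0 :: plc 1 w
    q.all fun a0 => q.all fun a1 => !(Nat.ble a0 a1 && frkok a0 a1) ||
      q.all fun b0 => q.all fun b1 => !(Nat.ble b0 b1 && frkok b0 b1) ||
        (!([a0, a1, b0, b1].all (fun a => cntok w [a0, a1, b0, b1] a)) || [true, false].all fun odd =>
          !((parok odd a0 b0 && parok odd a0 b1) && (parok odd a1 b0 && parok odd a1 b1)) ||
            [0, 1, 2, 3].all fun kap => [false, true].all fun f1 => [false, true].all fun f2 =>
              !(((⟨w, a0, a1, b0, b1, odd, f1, f2, kap⟩ : Sta).kapok &&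
                (⟨w, a0, a1, b0, b1, odd, f1, f2, kap⟩ : Sta).frok) &&
                ((!f1 || Nat.ble 3 N) && (!f2 || Nat.ble 4 N))) ||
                P ⟨w, a0, a1, b0, b1, odd, f1, f2, kap⟩)

/-- The legal statuses of a pattern satisfy `P`. -/
def allSt (p : List ℕ) (P : Sta → Bool) : Bool := allW p.length (wsOf p) P

end Sta

end CLB.H95
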