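import Pool.Agent.Helper95_CLB.Sta

/-!
The codes of the statuses which are won, as a search tree of numbers.
-/

set_option autoImplicit false

namespace CLB.H95

open CLB.H86.Gm (cov codes cov_sound codes_win)

/-- Search trees of numbers. -/
inductive Tr where
  | L : Tr
  | T : Tr → ℕ → Tr → Tr

def Tr.mem : Tr → ℕ → Bool
  | .L, _ => false
  | .T l k r, n => if Nat.beq n k then true else if Nat.blt n k then l.mem n else r.mem n

def Tr.all (P : ℕ → Bool) : Tr → Bool
  | .L => true
  | .T l k r => l.all P && (P k && r.all P)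

lemma Tr.all_mem {P : ℕ → Bool} {n : ℕ} : ∀ {t : Tr}, t.all P = true → t.mem n = true → P n = true := by
  intro t
  induction t with
  | L => intro _ h; exact absurd h (by simp [Tr.mem])
  | T l k r ihl ihr =>
    intro ha hm
    unfold Tr.all at ha
    rw [Bool.and_eq_true, Bool.and_eq_true] at ha
    unfold Tr.mem at hm
    split_ifs at hm with h1 h2
    · rw [Nat.eq_of_beq_eq_true h1]; exact ha.2.1
    · exact ihl ha.1 hm
    · exact ihr ha.2.2 hm

/-- Evaluation of the argument first. -/
def forceN {β : Type} (f : ℕ → β) : ℕ → β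
  | 0 => f 0
  | n + 1 => f (n + 1)

lemma forceN_eq {β : Type} (f : ℕ → β) (n : ℕ) : forceN f n = f n := by
  cases n <;> rfl

def decU (n : ℕ) : UC := ⟨n % 16, n / 16 % 2 == 1, n / 32 % 2 == 1, n / 64 % 2 == 1, n / 128 % 2 == 1⟩

def decL : ℕ → ℕ → List UC
  | 0, _ => []
  | f + 1, n => if Nat.ble n 1 then [] else decU (n % 256) :: decL f (n / 256)

def decC (n : ℕ) : Code := ⟨decL 5 (n / 2), n % 2 == 1⟩

open Tr in
/-- The codes which are won. -/
def tree : Tr := (T (T (T (T (T (T (T (T (T (T L 556 L) 142442 L) 142443 (T L 143368 L)) 143400 (T (T L 143404 L) 143462 (T L 143466 L))) 159272 (T (T (T L 159276 L) 159338 (T L 167464 L)) 167468 (T (T L 34352172 L) 34352264 (T L 34352362 L)))) 34352428 (T (T (T (T L 34352429 L) 34368106 (T L 34369382 L)) 34474092 (T (T L 34474093 L) 34474348 (T L 34474349 L))) 34483240 (T (T (T L 34483241 L) 34483244 (T L 34483245 L)) 34483304 (T (T L 34483305 L) 34483308 (T L 34483309 L))))) 34483560 (T (T (T (T (T (T L 34483561 L) 34483564 L) 34483565 (T L 34614284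 L)) 34614285 (T (T L 34614540 L) 34614541 (T L 36440170 L))) 36440171 (T (T (T L 36441388 L) 36449320 (T L 36449321 L)) 36449324 (T (T L 36449325 L) 36449382 (T L 36449383 L)))) 36449386 (T (T (T (T L 36449387 L) 36449416 (T L 36449417 L)) 36449580 (T (T L 36450344 L) 36450406 (T L 36450604 L))) 36465192 (T (T (T L 36465193 L) 36465196 (T L 36465197 L)) 36465258 (T (T L 36465259 L) 36466216 (T L 36466278 L)))))) 36702216 (T (T (T (T (T (T (T L 36702217 L) 36702252 L) 36702253 (T L 36702314 L)) 36702315 (T (T L 36702508 L) 36702509 (T L 36702570 L))) 36702571 (T (T (T L 36711432 L) 36711433 (T L 36711464 L)) 36711465 (T (T L 36711468 L) 36711469 (T L 36711526 L)))) 36711527 (T (T (T (T L 36711530 L) 36711531 (T L 36711724 L)) 36711725 (T (T L 36711782 L) 36711783 (T L 36711786 L))) 36711787 (T (T (T L 36711816 L) 36711817 (T L 36712806 L)) 36727336 (T (T L 36727337 L) 36727340 (T L 36727341 L))))) 36727398 (T (T (T (T (T L 36727399 L) 36727402 (T L 36727403 L)) 36727592 (T (T L 36727593 L) 36727596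 (T L 36727597 L))) 36727654 (T (T (T L 36727655 L) 36727658 (T L 36727659 L)) 36728616 (T (T L 36728678 L) 40634476 (T L 40634477 L)))) 40643594 (T (T (T (T L 40643595 L) 40643688 (T L 40643689 L)) 40643692 (T (T L 40643693 L) 40643850 (T L 40643851 L))) 40643944 (T (T (T L 40643945 L) 40643948 (T L 40643949 L)) 40644712 (T (T L 40644968 L) 40659564 (T L 40659565 L))))))) 40659820 (T (T (T (T (T (T (T (T L 40659821 L) 40660584 L) 40765546 (T L 40765547 L)) 40774696 (T (T L 40774697 L) 40774700 (T L 40774701 L))) 40774758 (T (T (T L 40774759 L) 40774762 (T L 40774763 L)) 40774952 (T (T L 40774956 L) 40774957 (T L 40775014 L)))) 40775015 (T (T (T (T L 40775018 L) 40775019 (T L 40775976 L)) 40776038 (T (T L 40790568 L) 40790569 (T L 40790572 L))) 40790573 (T (T (T L 40790824 L) 40790825 (T L 40790828 L)) 40790829 (T (T L 40791848 L) 40896522 (T L 40896523 L))))) 40896620 (T (T (T (T (T L 40896621 L) 40896778 (T L 40896779 L)) 40896876 (T (T L 40896877 L) 40905738 (T L 40905739 L))) 40905832 (T (T (T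 L 40905833 L) 40905836 (T L 40905837 L)) 40905994 (T (T L 40905995 L) 40906088 (T L 40906089 L)))) 40906092 (T (T (T (T L 40906093 L) 40907112 (T L 40921704 L)) 40921705 (T (T L 40921708 L) 40921709 (T L 40921964 L))) 40921965 (T (T (T L 42993804 L) 42993805 (T L 42994060 L)) 42994061 (T (T L 49049576 L) 49310696 (T L 49310697 L)))))) 49311720 (T (T (T (T (T (T (T L 8827972904 L) 8827972905 L) 8827989288 (T L 8827989289 L)) 9328667784 (T (T L 9328667785 L) 9328683626 (T L 9328683627 L))) 9328684646 (T (T (T L 9328930056 L) 9328930057 (T L 9328930092 L)) 9328930093 (T (T L 9328930154 L) 9328930155 (T L 9328931112 L)))) 9328946026 (T (T (T (T L 9328946027 L) 9328946984 (T L 9331017864 L)) 9331017865 (T (T L 9331026984 L) 9331027306 (T L 9331027307 L))) 9331042918 (T (T (T L 9331042919 L) 9331043178 (T L 9331043179 L)) 9331280264 (T (T L 9331280265 L) 9331289384 (T L 9335081066 L))))) 9335081067 (T (T (T (T (T L 9335090216 L) 9335090278 (T L 9335090279 L)) 9335106088 (T (T L 9335212042 L) 9335212043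 (T L 9335212140 L))) 9335212141 (T (T (T L 9335212298 L) 9335212299 (T L 9335212396 L)) 9335212397 (T (T L 9335221352 L) 9335221353 (T L 9335221608 L)))) 9335221609 (T (T (T (T L 9335237224 L) 9335237225 (T L 9335237480 L)) 9335237481 (T (T L 9335343404 L) 9335343405 (T L 9335343466 L))) 9335343467 (T (T (T L 9335352616 L) 9335474442 (T L 9335474443 L)) 9335474540 (T (T L 9335474541 L) 9335483752 (T L 9335483753 L)))))))) 9335499624 (T (T (T (T (T (T (T (T (T L 9335499625 L) 9395776520 L) 9395776521 (T L 9395776556 L)) 9395776557 (T (T L 9395776618 L) 9395776619 (T L 9395792490 L))) 9395792491 (T (T (T L 9395842184 L) 9395842185 (T L 9395858026 L)) 9395858027 (T (T L 9396038920 L) 9396038921 (T L 9396038956 L)))) 9396038957 (T (T (T (T L 9396039018 L) 9396039019 (T L 9396054890 L)) 9396054891 (T (T L 9396104456 L) 9396104457 (T L 9396104492 L))) 9396104493 (T (T (T L 9396104554 L) 9396104555 (T L 9396120426 L)) 9396120427 (T (T L 9398126600 L) 9398126601 (T L 9398126636 L))))) 9398126637 (T (T (T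 (T (T (T L 9398126698 L) 9398126699 L) 9398135848 (T L 9398135849 L)) 9398135910 (T (T L 9398135911 L) 9398136170 (T L 9398136171 L))) 9398151720 (T (T (T L 9398151721 L) 9398151782 (T L 9398151783 L)) 9398152042 (T (T L 9398152043 L) 9398192264 (T L 9398192265 L)))) 9398201446 (T (T (T (T L 9398201447 L) 9398217318 (T L 9398217319 L)) 9398389000 (T (T L 9398389001 L) 9398389036 (T L 9398389037 L))) 9398389098 (T (T (T L 9398389099 L) 9398398248 (T L 9398398249 L)) 9398414120 (T (T L 9398414121 L) 9398454536 (T L 9398454537 L)))))) 9398454572 (T (T (T (T (T (T (T L 9398454573 L) 9398454634 L) 9398454635 (T L 9402189930 L)) 9402189931 (T (T L 9402199080 L) 9402199081 (T L 9402199142 L))) 9402199143 (T (T (T L 9402214952 L) 9402214953 (T L 9402255466 L)) 9402255467 (T (T L 9402264678 L) 9402264679 (T L 9402320906 L)))) 9402320907 (T (T (T (T L 9402321004 L) 9402321005 (T L 9402321162 L)) 9402321163 (T (T L 9402321260 L) 9402321261 (T L 9402330216 L))) 9402330217 (T (T (T L 9402330472 L) 9402330473 (T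 L 9402346088 L)) 9402346089 (T (T L 9402346344 L) 9402346345 (T L 9402386442 L))))) 9402386443 (T (T (T (T (T L 9402386540 L) 9402386541 (T L 9402386698 L)) 9402386699 (T (T L 9402386796 L) 9402386797 (T L 9402395752 L))) 9402395753 (T (T (T L 9402396008 L) 9402396009 (T L 9402411624 L)) 9402411625 (T (T L 9402411880 L) 9402411881 (T L 9402452268 L)))) 9402452269 (T (T (T (T L 9402452330 L) 9402452331 (T L 9402461480 L)) 9402461481 (T (T L 9402517804 L) 9402517805 (T L 9402517866 L))) 9402517867 (T (T (T L 9402583306 L) 9402583307 (T L 9402583404 L)) 9402583405 (T (T L 9402592616 L) 9402592617 (T L 9402608488 L))))))) 9402608489 (T (T (T (T (T (T (T (T L 9402648842 L) 9402648843 L) 9402648940 (T L 9402648941 L)) 9402658152 (T (T L 9402658153 L) 9402674024 (T L 9402674025 L))) 10402425962 (T (T (T L 10402425963 L) 10402426982 (T L 10402491498 L)) 10402491499 (T (T L 10402492518 L) 10402688300 (T L 10402688301 L)))) 10402688362 (T (T (T (T L 10402688363 L) 10402689320 (T L 10402753898 L)) 10402753899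 (T (T L 10404785192 L) 10404785254 (T L 10404785255 L))) 10404785514 (T (T (T L 10404785515 L) 10404850790 (T L 10404850791 L)) 10404851050 (T (T L 10404851051 L) 10404852074 (T L 10404852075 L))))) 10405047592 (T (T (T (T (T L 10408848424 L) 10408979560 (T L 10408979561 L)) 10408979816 (T (T L 10408979817 L) 10409045096 (T L 10409045097 L))) 10409110824 (T (T (T L 10409241960 L) 10409241961 (T L 10417434088 L)) 10417434089 (T (T L 10417696232 L) 10417696233 (T L 10436226348 L)))) 10436226349 (T (T (T (T L 10436226410 L) 10436226411 (T L 10438323240 L)) 10438323241 (T (T L 10438323562 L) 10438323563 (T L 10438585640 L))) 10438585641 (T (T (T L 10442386472 L) 10442386473 (T L 10442508396 L)) 10442508397 (T (T L 10442508652 L) 10442508653 (T L 10442517608 L)))))) 10442517609 (T (T (T (T (T (T (T L 10442517864 L) 10442517865 L) 10442573932 (T L 10442573933 L)) 10442574188 (T (T L 10442574189 L) 10442648872 (T L 10442648873 L))) 10442770796 (T (T (T L 10442770797 L) 10442780008 (T L 10442780009 L)) 10442836332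 (T (T L 10442836333 L) 10469534764 (T L 10469534765 L)))) 10469534826 (T (T (T (T L 10469534827 L) 10469600362 (T L 10469600363 L)) 10469797164 (T (T L 10469797165 L) 10469797226 (T L 10469797227 L))) 10469862700 (T (T (T L 10469862701 L) 10469862762 (T L 10469862763 L)) 10471894056 (T (T L 10471894057 L) 10471894118 (T L 10471894119 L))))) 10471894378 (T (T (T (T (T L 10471894379 L) 10471959592 (T L 10471959593 L)) 10471959654 (T (T L 10471959655 L) 10471959914 (T L 10471959915 L))) 10472156456 (T (T (T L 10472156457 L) 10472221992 (T L 10472221993 L)) 10475957288 (T (T L 10475957289 L) 10476022824 (T L 10476022825 L)))) 10476088424 (T (T (T (T L 10476088425 L) 10476088680 (T L 10476088681 L)) 10476153960 (T (T L 10476153961 L) 10476154216 (T L 10476154217 L))) 10476219688 (T (T (T L 10476219689 L) 10476285224 (T L 10476285225 L)) 10476350824 (T (T L 10476350825 L) 10476416360 (T L 10476416361 L)))))))))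

set_option maxRecDepth 100000 in
theorem tree_all : tree.all (fun k => cov codes (decC k)) = true := by decide +kernel

namespace Sta

def keyU (S : Sta) (n : ℕ) (o : Bool) (ps : ℕ) (i : ℕ) : ℕ :=
  (8 - S.los n o i) + 16 * b2n (S.uc n o ps i).tg + 32 * b2n (S.uc n o ps i).ph +
    64 * b2n (S.uc n o ps i).ps + 128 * b2n (S.uc n o ps i).rel

def keyL (S : Sta) (n : ℕ) (o : Bool) (ps : ℕ) : ℕ → ℕ → ℕ
  | 0, _ => 1
  | f + 1, i => keyL S n o ps f (i + 1) * 256 + S.keyU n o ps i

def key (S : Sta) (n : ℕ) (o : Bool) (ps : ℕ) : ℕ :=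
  2 * S.keyL n o ps n 1 + b2n (S.code n o ps).cp

def wnk (S : Sta) (n : ℕ) (o : Bool) (ps : ℕ) : Bool :=
  (S.sml n o && (ps == 0 || S.psok n)) && forceN (fun k => tree.mem k) (S.key n o ps)

/-- One of the windows is won. -/
def wonk (S : Sta) (N : ℕ) : Bool :=
  (List.range N).any (fun j => Nat.ble (j + 1) (lim S.kap) &&
    ([true, false].any fun o => [0, 1, 2].any fun ps => S.wnk (j + 1) o ps))

lemma b2n_le (b : Bool) : b2n b ≤ 1 := by cases b <;> simp [b2n]

lemma b2n_beq (b : Bool) : (b2n b == 1) = b := by cases b <;> rfl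

lemma keyU_lt (S : Sta) (n : ℕ) (o : Bool) (ps i : ℕ) : S.keyU n o ps i < 256 := by
  unfold keyU
  have h1 := b2n_le (S.uc n o ps i).tg
  have h2 := b2n_le (S.uc n o ps i).ph
  have h3 := b2n_le (S.uc n o ps i).ps
  have h4 := b2n_le (S.uc n o ps i).rel
  omega

lemma decU_key (S : Sta) (n : ℕ) (o : Bool) (ps i : ℕ) : decU (S.keyU n o ps i) = S.uc n o ps i := by
  have key : ∀ (u : UC) (s : ℕ), s < 16 → u.s = s →
      decU (s + 16 * b2n u.tg + 32 * b2n u.ph + 64 * b2n u.ps + 128 * b2n u.rel) = u := by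
    intro u s hs e
    obtain ⟨s', tg, ph, ps, rel⟩ := u
    simp only at e
    subst e
    unfold decU
    have h1 := b2n_le tg
    have h2 := b2n_le ph
    have h3 := b2n_le ps
    have h4 := b2n_le rel
    simp only
    have e1 : (s' + 16 * b2n tg + 32 * b2n ph + 64 * b2n ps + 128 * b2n rel) % 16 = s' := by omega
    have e2 : (s' + 16 * b2n tg + 32 * b2n ph + 64 * b2n ps + 128 * b2n rel) / 16 % 2 = b2n tg := by
      omega
    have e3 : (s' + 16 * b2n tg + 32 * b2n ph + 64 * b2n ps + 128 * b2n rel) / 32 % 2 = b2n ph := by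
      omega
    have e4 : (s' + 16 * b2n tg + 32 * b2n ph + 64 * b2n ps + 128 * b2n rel) / 64 % 2 = b2n ps := by
      omega
    have e5 : (s' + 16 * b2n tg + 32 * b2n ph + 64 * b2n ps + 128 * b2n rel) / 128 % 2 = b2n rel := by
      omega
    rw [e1, e2, e3, e4, e5, b2n_beq, b2n_beq, b2n_beq, b2n_beq]
  exact key (S.uc n o ps i) (8 - S.los n o i) (by omega) rfl

lemma keyL_pos (S : Sta) (n : ℕ) (o : Bool) (ps : ℕ) (g i : ℕ) : 1 ≤ S.keyL n o ps g i := by
  induction g generalizing i with
  | zero => exact le_rfl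
  | succ g ih =>
    show 1 ≤ S.keyL n o ps g (i + 1) * 256 + S.keyU n o ps i
    have := ih (i + 1)
    omega

lemma decL_key (S : Sta) (n : ℕ) (o : Bool) (ps : ℕ) : ∀ (g f i : ℕ), g ≤ f →
    decL (f + 1) (S.keyL n o ps g i) = (List.range g).map (fun j => S.uc n o ps (j + i)) := by
  intro g
  induction g with
  | zero =>
    intro f i _
    simp [decL, keyL]
  | succ g ih =>
    intro f i hf
    obtain ⟨f', rfl⟩ : ∃ f', f = f' + 1 := ⟨f - 1, by omega⟩
    have h1 := S.keyL_pos n o ps g (i + 1)
    have h2 := S.keyU_lt n o ps i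
    have e0 : S.keyL n o ps (g + 1) i = S.keyL n o ps g (i + 1) * 256 + S.keyU n o ps i := rfl
    have e1 : (S.keyL n o ps g (i + 1) * 256 + S.keyU n o ps i) % 256 = S.keyU n o ps i := by omega
    have e2 : (S.keyL n o ps g (i + 1) * 256 + S.keyU n o ps i) / 256 = S.keyL n o ps g (i + 1) := by
      omega
    have e3 : Nat.ble (S.keyL n o ps g (i + 1) * 256 + S.keyU n o ps i) 1 = false := by
      rw [Bool.eq_false_iff]
      intro h
      have := Nat.le_of_ble_eq_true h
      omega
    rw [e0]
    show (if Nat.ble (S.keyL n o ps g (i + 1) * 256 + S.keyU n o ps i) 1 = true then [] else _) = _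
    rw [e3, if_neg (by simp), e1, e2, decU_key, ih f' (i + 1) (by omega), List.range_succ_eq_map,
      List.map_cons, List.map_map, Nat.zero_add]
    congr 1
    refine List.map_congr_left fun j _ => ?_
    show S.uc n o ps (j + (i + 1)) = S.uc n o ps (j + 1 + i)
    rw [show j + (i + 1) = j + 1 + i by omega]

lemma dec_key (S : Sta) {n : ℕ} (hn : n ≤ 4) (o : Bool) (ps : ℕ) :
    decC (S.key n o ps) = S.code n o ps := by
  unfold decC key
  have h1 := b2n_le (S.code n o ps).cp
  have e1 : (2 * S.keyL n o ps n 1 + b2n (S.code n o ps).cp) / 2 = S.keyL n o ps n 1 := by omega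
  have e2 : (2 * S.keyL n o ps n 1 + b2n (S.code n o ps).cp) % 2 = b2n (S.code n o ps).cp := by omega
  rw [e1, e2, S.decL_key n o ps n 4 1 hn, b2n_beq]
  rfl

theorem wnk_win {S : Sta} {n : ℕ} (hn : n ≤ 4) {o : Bool} {ps : ℕ} (h : S.wnk n o ps = true) :
    S.sml n o = true ∧ (ps = 0 ∨ S.psok n = true) ∧ (S.code n o ps).Win := by
  unfold wnk at h
  rw [Bool.and_eq_true, Bool.and_eq_true, Bool.or_eq_true, forceN_eq] at h
  refine ⟨h.1.1, h.1.2.imp (fun h => by simpa using h) id, ?_⟩
  have := Tr.all_mem tree_all h.2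
  rw [dec_key S hn] at this
  exact cov_sound codes_win this

theorem wonk_win {S : Sta} {N : ℕ} (hN : N ≤ 4) (h : S.wonk N = true) : ∃ n o ps, 1 ≤ n ∧ n ≤ N ∧
    n ≤ lim S.kap ∧ S.sml n o = true ∧ (ps = 0 ∨ S.psok n = true) ∧ (S.code n o ps).Win := by
  unfold wonk at h
  rw [List.any_eq_true] at h
  obtain ⟨j, hj, h⟩ := h
  rw [List.mem_range] at hj
  rw [Bool.and_eq_true, List.any_eq_true] at h
  obtain ⟨h1, o, -, h⟩ := h
  rw [List.any_eq_true] at h
  obtain ⟨ps, -, h⟩ := h
  have h2 := wnk_win (n := j + 1) (by omega) h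
  exact ⟨j + 1, o, ps, by omega, by omega, Nat.le_of_ble_eq_true h1, h2.1, h2.2.1, h2.2.2⟩

/-! ### The ternary window -/

/-- The sizes of the lists of the ternary window. -/
def tsz (S : Sta) (i : ℕ) : ℕ := 8 - S.los 3 true i + (if i == 2 then 1 else 2)

/-- A ternary game is applicable. -/
def tok (S : Sta) (s1 s2 s3 v : ℕ) (rel : Bool) : Bool :=
  ((Nat.ble s1 (S.tsz 1) && Nat.ble s2 (S.tsz 2)) && Nat.ble s3 (S.tsz 3)) &&
    ((S.uc 3 true 0 v).tg && (rel || !(S.uc 3 true 0 1).rel)) && S.sml 3 true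

/-- The ternary window is won. -/
def tern (S : Sta) : Bool :=
  (S.tok 5 6 6 2 false || S.tok 7 4 8 3 true) || (S.tok 6 5 7 3 false || S.tok 5 6 8 3 true)

end Sta

end CLB.H95
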