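import Pool.Agent.Helper95_CLB.StaN
import Pool.Agent.Helper3_DA.WdOut

/-!
The status of a window is legal.
-/

set_option autoImplicit false
set_option linter.unusedSectionVars false

namespace CLB.H95

open H3DA (Q neg nr)
open Finset Classical
open CLB.H3 (CExt Cat IsTwo Fits UPath he_of_unc cat_structure chn_side KTight exists_ktight no_cext
  Leaf cext_or pc pc_pos pc_le pc_lk pc_cov pc_two pc_one cat_side_z outN total_ports ltr NoG ltr_zero
  ltr_one ltr_two ltr_three)
open CLB.H3.Wd (pt)

variable {V : Type*} {G : SimpleGraph V} {R : V → Bool} [Fintype V] {k r : ℕ} {x y X Y : ℕ → V}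
  {m : ℕ} {z c : ℕ → V} {f : V → Q} {N n : ℕ}

/-! ### The lists -/

lemma mem_wsOf : ∀ (p : List ℕ) (u : ℕ → ℕ × ℕ), (∀ i (h : i < p.length), u i ∈ Sta.opts p[i]) →
    (List.range p.length).map u ∈ Sta.wsOf p := by
  intro p
  induction p with
  | nil => intro u _; simp [Sta.wsOf]
  | cons a l ih =>
    intro u hu
    unfold Sta.wsOf
    rw [List.mem_flatMap]
    refine ⟨u 0, hu 0 (by simp), ?_⟩
    rw [List.mem_map]
    refine ⟨(List.range l.length).map (fun i => u (i + 1)), ih _ (fun i h => ?_), ?_⟩
    · have := hu (i + 1) (by simpa using h)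
      simpa using this
    · rw [List.length_cons, List.range_succ_eq_map, List.map_cons, List.map_map]
      rfl

lemma mem_plc : ∀ (w : List (ℕ × ℕ)) (s j : ℕ) (h : j < w.length),
    (w[j].1 ≠ 0 → 2 * (s + j) ∈ Sta.plc s w) ∧ (w[j].2 ≠ 0 → 2 * (s + j) + 1 ∈ Sta.plc s w) := by
  intro w
  induction w with
  | nil => intro s j h; simp at h
  | cons a l ih =>
    intro s j h
    unfold Sta.plc
    cases j with
    | zero =>
      constructor
      · intro h1
        have h1' : a.1 ≠ 0 := h1
        rw [List.mem_append, if_neg (by simpa using h1')]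
        left; simp
      · intro h1
        have h1' : a.2 ≠ 0 := h1
        rw [List.mem_append, List.mem_append]
        right; left
        rw [if_neg (by simpa using h1')]
        simp
    | succ j =>
      have h2 := ih (s + 1) j (by simpa using h)
      constructor
      · intro h1
        rw [List.mem_append, List.mem_append]
        right; right
        have := h2.1 (by simpa using h1)
        rwa [show s + 1 + j = s + (j + 1) by omega] at this
      · intro h1
        rw [List.mem_append, List.mem_append]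
        right; right
        have := h2.2 (by simpa using h1)
        rwa [show s + 1 + j = s + (j + 1) by omega] at this

lemma rst_w_len : (rst G R N X Y m z c).w.length = N := by
  unfold rst; simp

lemma rst_w_get {j : ℕ} (h : j < (rst G R N X Y m z c).w.length) :
    (rst G R N X Y m z c).w[j] = (pc m c (X (j + 1)), pc m c (Y (j + 1))) := by
  have h' : j < N := by rw [rst_w_len] at h; exact h
  show ((List.range N).map (fun j => (pc m c (X (j + 1)), pc m c (Y (j + 1)))))[j]'(by simpa using h') = _
  rw [List.getElem_map, List.getElem_range]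

/-- The places of the leaf ports. -/
lemma plv_mem {j : ℕ} (hj : j ≤ m + 1) :
    plv N x y (c j) ∈ (0 :: Sta.plc 1 (rst G R N x y m z c).w) := by
  by_cases hin : InC N x y (c j)
  · obtain ⟨i1, i2, i3⟩ := idx_spec hin
    have hlen : idx N x y (c j) - 1 < (rst G R N x y m z c).w.length := by rw [rst_w_len]; omega
    have h1 := mem_plc (rst G R N x y m z c).w 1 (idx N x y (c j) - 1) hlen
    rw [rst_w_get hlen] at h1
    rw [show idx N x y (c j) - 1 + 1 = idx N x y (c j) by omega,
      show 1 + (idx N x y (c j) - 1) = idx N x y (c j) by omega] at h1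
    refine List.mem_cons_of_mem _ ?_
    unfold plv
    rw [if_pos hin]
    by_cases e : c j = x (idx N x y (c j))
    · rw [if_pos e]
      refine h1.1 ?_
      have := (pc_pos (m := m) (c := c) (v := x (idx N x y (c j)))).2 ⟨j, hj, e⟩
      show pc m c (x (idx N x y (c j))) ≠ 0
      omega
    · rw [if_neg e]
      refine h1.2 ?_
      rcases i3 with i3 | i3
      · exact absurd i3 e
      · have := (pc_pos (m := m) (c := c) (v := y (idx N x y (c j)))).2 ⟨j, hj, i3⟩
        show pc m c (y (idx N x y (c j))) ≠ 0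
        omega
  · rw [plv_out hin]; simp

/-! ### The forks -/

lemma plv_idx {v : V} (hin : InC N x y v) : plv N x y v / 2 = idx N x y v := by
  unfold plv
  rw [if_pos hin]
  split_ifs <;> omega

lemma frkok_of (hG : ClassC G R) (h : Chn G R N x y) {w a b : V} (hw : ¬ Cov G R w) (ha : G.Adj w a)
    (hb : G.Adj w b) (hab : a ≠ b) : Sta.frkok (plv N x y a) (plv N x y b) = true := by
  unfold Sta.frkok
  rw [Bool.or_eq_true]
  by_cases ia : InC N x y a
  · by_cases ib : InC N x y b
    · right
      have h1 := idx_ne hG h ia ib hab ha hb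
      have hR : R a = R b := by
        have e1 := (he_of_unc hw ha).2
        have e2 := (he_of_unc hw hb).2
        revert e1 e2
        cases R w <;> cases R a <;> cases R b <;> simp
      have h2 := idx_parity h ia ib hR
      rw [plv_idx ia, plv_idx ib, Bool.and_eq_true]
      refine ⟨by simpa using h1, ?_⟩
      rw [beq_iff_eq]; omega
    · left; rw [plv_out ib]; simp
  · left; rw [plv_out ia]; simp

lemma par_key (a b : Bool) (p q m : ℕ) (e1 : a ≠ xor b (decide (p % 2 = 0)))
    (e2 : xor a (decide (m % 2 = 0)) ≠ xor b (decide (q % 2 = 0))) : (p + q) % 2 = 0 ↔ m % 2 = 1 := by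
  rcases Nat.mod_two_eq_zero_or_one p with t1 | t1 <;>
    rcases Nat.mod_two_eq_zero_or_one q with t2 | t2 <;>
    rcases Nat.mod_two_eq_zero_or_one m with t3 | t3 <;>
    rw [t1] at e1 <;> rw [t2, t3] at e2 <;> revert e1 e2 <;> cases a <;> cases b <;> simp <;> omega

lemma parok_of (hcat : Cat G R m z c) (h : Chn G R N x y) {i j : ℕ} (hi : i = 0 ∨ i = 1)
    (hj : j = m ∨ j = m + 1) (hm : 2 ≤ m) :
    Sta.parok (decide (m % 2 = 1)) (plv N x y (c i)) (plv N x y (c j)) = true := by
  unfold Sta.parok
  rw [Bool.or_eq_true]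
  by_cases ia : InC N x y (c i)
  · by_cases ib : InC N x y (c j)
    · right
      rw [plv_idx ia, plv_idx ib, beq_iff_eq, Bool.eq_iff_iff, beq_iff_eq, decide_eq_true_iff]
      have hz := cat_side_z hcat m (by omega) le_rfl
      have a1 : G.Adj (z 1) (c i) := by
        rcases hi with rfl | rfl
        · exact hcat.adj0
        · exact hcat.adjc 1 le_rfl (by omega)
      have a2 : G.Adj (z m) (c j) := by
        rcases hj with rfl | rfl
        · exact hcat.adjc _ (by omega) le_rfl
        · exact hcat.adjm
      have e1 := (he_of_unc (hcat.unc 1 le_rfl (by omega)) a1).2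
      have e2 := (he_of_unc (hcat.unc m (by omega) le_rfl) a2).2
      obtain ⟨p1, p2, p3⟩ := idx_spec ia
      obtain ⟨q1, q2, q3⟩ := idx_spec ib
      have s1 : R (c i) = xor (R (x 1)) (decide (idx N x y (c i) % 2 = 0)) := by
        rcases p3 with p3 | p3
        · rw [← (chn_side h _ p1 p2).1, ← p3]
        · rw [← (chn_side h _ p1 p2).2, ← p3]
      have s2 : R (c j) = xor (R (x 1)) (decide (idx N x y (c j) % 2 = 0)) := by
        rcases q3 with q3 | q3
        · rw [← (chn_side h _ q1 q2).1, ← q3]
        · rw [← (chn_side h _ q1 q2).2, ← q3]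
      rw [s1] at e1
      rw [hz, s2] at e2
      exact par_key _ _ _ _ _ e1 e2
    · left; rw [plv_out ib]; simp
  · left; rw [plv_out ia]; simp

/-! ### The numbers of leaf ports at a place -/

lemma cnt_of (h : Chn G R N x y) (hm : 2 ≤ m) (a : ℕ)
    (ha : a = 0 ∨ ∃ v, InC N x y v ∧ plv N x y v = a) :
    Sta.cntok (rst G R N x y m z c).w [plv N x y (c 0), plv N x y (c 1), plv N x y (c m),
      plv N x y (c (m + 1))] a = true := by
  unfold Sta.cntok
  rw [Bool.or_eq_true]
  rcases ha with rfl | ⟨v, hv, rfl⟩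
  · left; rfl
  · right
    refine Nat.ble_eq_true_of_le ?_
    have hcnt : Sta.cnt (rst G R N x y m z c).w (plv N x y v) = pc m c v := by
      unfold Sta.cnt
      obtain ⟨i1, i2, i3⟩ := idx_spec hv
      have e1 := rst_ow (G := G) (R := R) (X := x) (Y := y) (m := m) (z := z) (c := c) i1 i2
      unfold Sta.ow at e1
      rw [plv_idx hv, e1]
      unfold plv
      rw [if_pos hv]
      by_cases e : v = x (idx N x y v)
      · rw [if_pos e, if_pos (by simp)]
        show pc m c (x (idx N x y v)) = _
        rw [← e]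
      · rw [if_neg e, if_neg (by simp)]
        rcases i3 with i3 | i3
        · exact absurd i3 e
        · show pc m c (y (idx N x y v)) = _
          rw [← i3]
    rw [hcnt]
    have hinj : ∀ u, plv N x y u = plv N x y v → u = v := by
      intro u hu
      have hp : 1 ≤ plv N x y v := by
        have := plv_idx hv
        have := (idx_spec hv).1
        omega
      have hin : InC N x y u := plv_pos (N := N) (x := x) (y := y) (by omega)
      rw [← vpl_plv hin, ← vpl_plv hv, hu]
    have h1 : (({0, 1, m, m + 1} : Finset ℕ).filter (fun j => c j = v)).card ≤ pc m c v := by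
      unfold pc
      refine card_le_card fun j hj => ?_
      rw [mem_filter] at hj
      rw [mem_filter, mem_range]
      simp only [mem_insert, mem_singleton] at hj
      exact ⟨by omega, hj.2⟩
    refine le_trans ?_ h1
    rw [Finset.card_filter, sum_insert (by simp; omega), sum_insert (by simp; omega),
      sum_insert (by simp), sum_singleton]
    have key : ∀ u, (if (plv N x y u == plv N x y v) = true then 1 else 0) ≤ if u = v then 1 else 0 := by
      intro u
      by_cases e : plv N x y u = plv N x y v
      · rw [if_pos (by simpa using e), if_pos (hinj u e)]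
      · rw [if_neg (by simpa using e)]; exact Nat.zero_le _
    rw [List.count_cons, List.count_cons, List.count_cons, List.count_cons, List.count_nil]
    have k0 := key (c 0)
    have k1 := key (c 1)
    have k2 := key (c m)
    have k3 := key (c (m + 1))
    omega

/-! ### The flags -/

lemma fx_of (hG : ClassC G R) (hcat : Cat G R m z c) (h : Chn G R k x y) (hNk : N < k) {i : ℕ}
    (h1 : 1 ≤ i) (h4 : i ≤ N ∨ i < k) :
    fp G R m z (x i) ≤ (rst G R N x y m z c).fx i := by
  have e := cap_x hG hcat h h1 (by omega : i ≤ k)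
  unfold Sta.fx
  by_cases hi : i = 1
  · subst hi
    rw [if_pos rfl] at e
    rw [if_pos (by simp)]
    by_cases h5 : 1 ≤ N
    · rw [rst_ow le_rfl h5]
      show _ ≤ 2 - pc m c (x 1)
      omega
    · rw [rst_ow_out (by omega)]
      show _ ≤ 2 - 0
      omega
  · rw [if_neg hi] at e
    rw [if_neg (by simpa using hi)]
    by_cases h5 : i ≤ N
    · rw [rst_ow h1 h5]
      show _ ≤ 1 - pc m c (x i)
      omega
    · rw [rst_ow_out (by omega)]
      show _ ≤ 1 - 0
      omega

lemma fy_of (hG : ClassC G R) (hcat : Cat G R m z c) (h : Chn G R k x y) (hNk : N < k) {i : ℕ}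
    (h1 : 1 ≤ i) (h4 : i ≤ N) :
    fp G R m z (y i) ≤ (rst G R N x y m z c).fy i := by
  have e := cap_y hG hcat h h1 (by omega : i < k)
  unfold Sta.fy
  rw [rst_ow h1 h4]
  show _ ≤ 1 - pc m c (y i)
  omega

lemma kapok_of (hG : ClassC G R) (hcat : Cat G R m z c) (h : Chn G R k x y) (hN2 : 2 ≤ N)
    (hNk : N < k) : (rst G R N x y m z c).kapok = true := by
  have fxi := fun i (h1 : 1 ≤ i) (h2 : i ≤ N) => fx_of (z := z) hG hcat h hNk (i := i) h1 (Or.inl h2)
  have hb : ∀ {a b : ℕ}, a ≤ b → Nat.ble a b = true := fun h => Nat.ble_eq_true_of_le h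
  unfold Sta.kapok
  have hkap : (rst G R N x y m z c).kap = kapv G R N x y m z := rfl
  rw [hkap]
  have hle := kapv_le (G := G) (R := R) (N := N) (X := x) (Y := y) (m := m) (z := z)
  have hcase : kapv G R N x y m z = 0 ∨ kapv G R N x y m z = 1 ∨ kapv G R N x y m z = 2 ∨
    kapv G R N x y m z = 3 := by omega
  rcases hcase with e | e | e | e
  · rw [e]; rfl
  · rw [e]
    obtain ⟨f1, f2⟩ := (kapv_one e).fp hcat
    have g1 := fxi 1 le_rfl (by omega)
    have g2 := fxi 2 (by omega) (by omega)
    rw [hb (show 1 ≤ (rst G R N x y m z c).fx 1 by omega),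
      hb (show 1 ≤ (rst G R N x y m z c).fx 2 by omega)]
    rfl
  · rw [e]
    obtain ⟨hN3, hT⟩ := kapv_two e
    obtain ⟨f1, f2, f3⟩ := hT.fp hcat
    have g1 := fxi 1 le_rfl (by omega)
    have g2 := fxi 2 (by omega) (by omega)
    have g3 := fxi 3 (by omega) (by omega)
    rw [hb (show 1 ≤ (rst G R N x y m z c).fx 1 by omega),
      hb (show 1 ≤ (rst G R N x y m z c).fx 2 by omega),
      hb (show 1 ≤ (rst G R N x y m z c).fx 3 by omega)]
    rfl
  · rw [e]
    obtain ⟨hN3, hT⟩ := kapv_three e
    obtain ⟨f1, f2, f3, f4⟩ := hT.fp hcat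
    have g1 := fxi 1 le_rfl (by omega)
    have g2 := fxi 2 (by omega) (by omega)
    have g3 := fxi 3 (by omega) (by omega)
    have g4 := fxi 4 (by omega) (by omega)
    rw [hb (show 1 ≤ (rst G R N x y m z c).fx 1 by omega),
      hb (show 1 ≤ (rst G R N x y m z c).fx 2 by omega),
      hb (show 1 ≤ (rst G R N x y m z c).fx 3 by omega),
      hb (show 1 ≤ (rst G R N x y m z c).fx 4 by omega)]
    rfl

lemma frok_of (hG : ClassC G R) (hcat : Cat G R m z c) (h : Chn G R k x y) (hN2 : 2 ≤ N)
    (hNk : N < k) : (rst G R N x y m z c).frok = true := by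
  have fxi := fun i (h1 : 1 ≤ i) (h2 : i ≤ N) => fx_of (z := z) hG hcat h hNk (i := i) h1 (Or.inl h2)
  have fyi := fun i (h1 : 1 ≤ i) (h2 : i ≤ N) => fy_of (z := z) hG hcat h hNk (i := i) h1 h2
  have hb : ∀ {a b : ℕ}, a ≤ b → Nat.ble a b = true := fun h => Nat.ble_eq_true_of_le h
  unfold Sta.frok
  have hkap : (rst G R N x y m z c).kap = kapv G R N x y m z := rfl
  rw [hkap, Bool.and_eq_true]
  have hle := kapv_le (G := G) (R := R) (N := N) (X := x) (Y := y) (m := m) (z := z)
  constructor
  · by_cases hf : (rst G R N x y m z c).f1 = true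
    · have hf' : 3 ≤ N ∧ FR G R x y m z 1 := by
        have : decide (3 ≤ N ∧ FR G R x y m z 1) = true := hf
        rwa [decide_eq_true_iff] at this
      obtain ⟨hN3, w, w1, w2, w3⟩ := hf'
      rw [hf, Bool.or_eq_true]
      right
      by_cases hk2 : 2 ≤ kapv G R N x y m z
      · -- the exceptional fork
        have hfork : ∃ w, w ∉ cSupp m z ∧ ¬ Cov G R w ∧ G.Adj w (x 1) ∧ G.Adj w (x 3) ∧
            ∀ v, G.Adj w v → Cov G R v → v = x 1 ∨ v = x 3 := by
          have : kapv G R N x y m z = 2 ∨ kapv G R N x y m z = 3 := by omega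
          rcases this with e | e
          · exact (kapv_two e).2.fork hcat
          · exact (kapv_three e).2.fork hcat
        obtain ⟨w', v1, v2, v3, v4, v5⟩ := hfork
        have hx3 : Lk G R (x 3) (y 2) := (h.lk 2 (by omega) (by omega)).symm
        rw [hb hk2, if_pos rfl, Bool.or_eq_true]
        left
        rcases w3 with ⟨w3, w4⟩ | ⟨w3, w4⟩
        · have hne : w ≠ w' := by
            rintro rfl
            rcases v5 _ w4 (h.cov (InC.y (by omega) (by omega))) with e | e
            · exact h.xy 1 3 le_rfl (by omega) (by omega) (by omega) e.symm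
            · exact h.xy 3 3 (by omega) (by omega) (by omega) (by omega) e.symm
          have t1 := fp_two w2 w3 w1 v2 v3 v1 hne
          have t2 := fp_pos w2 w4 w1
          have g1 := fxi 1 le_rfl (by omega)
          have g3 : fp G R m z (y (1 + 2)) ≤ (rst G R N x y m z c).fy 3 := fyi 3 (by omega) (by omega)
          rw [Bool.and_eq_true]
          exact ⟨hb (by omega), hb (by omega)⟩
        · exfalso
          have e1 := Finset.card_le_one.1 (prt_card_lk hG hx3) w' (mem_prt.2 ⟨v4.symm, v2⟩) w
            (mem_prt.2 ⟨w4.symm, w2⟩)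
          subst e1
          rcases v5 _ w3 (h.cov (InC.y le_rfl (by omega))) with e | e
          · exact h.xy 1 1 le_rfl (by omega) le_rfl (by omega) e.symm
          · exact h.xy 3 1 (by omega) (by omega) le_rfl (by omega) e.symm
      · have e0 : Nat.ble 2 (kapv G R N x y m z) = false := by
          rw [Bool.eq_false_iff]
          intro h'
          exact hk2 (Nat.le_of_ble_eq_true h')
        rw [e0, if_neg (by simp), Bool.or_eq_true]
        rcases w3 with ⟨w3, w4⟩ | ⟨w3, w4⟩
        · left
          have t1 := fp_pos w2 w3 w1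
          have t2 := fp_pos w2 w4 w1
          have g1 := fxi 1 le_rfl (by omega)
          have g3 : fp G R m z (y (1 + 2)) ≤ (rst G R N x y m z c).fy 3 := fyi 3 (by omega) (by omega)
          rw [Bool.and_eq_true]
          exact ⟨hb (by omega), hb (by omega)⟩
        · right
          have t1 := fp_pos w2 w3 w1
          have t2 := fp_pos w2 w4 w1
          have g1 := fyi 1 le_rfl (by omega)
          have g3 : fp G R m z (x (1 + 2)) ≤ (rst G R N x y m z c).fx 3 := fxi 3 (by omega) (by omega)
          rw [Bool.and_eq_true, Bool.and_eq_true]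
          exact ⟨hb (by omega), hb (by omega), hb (by omega)⟩
    · rw [Bool.not_eq_true] at hf
      rw [hf]; rfl
  · by_cases hf : (rst G R N x y m z c).f2 = true
    · have hf' : 4 ≤ N ∧ kapv G R N x y m z ≤ 1 ∧ FR G R x y m z 2 := by
        have : decide (4 ≤ N ∧ kapv G R N x y m z ≤ 1 ∧ FR G R x y m z 2) = true := hf
        rwa [decide_eq_true_iff] at this
      obtain ⟨hN3, hk1, w, w1, w2, w3⟩ := hf'
      rw [hf, Bool.or_eq_true]
      right
      rw [hb hk1, Bool.true_and, Bool.or_eq_true]
      rcases w3 with ⟨w3, w4⟩ | ⟨w3, w4⟩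
      · left
        have t1 := fp_pos w2 w3 w1
        have t2 := fp_pos w2 w4 w1
        have g1 := fxi 2 (by omega) (by omega)
        have g3 : fp G R m z (y (2 + 2)) ≤ (rst G R N x y m z c).fy 4 := fyi 4 (by omega) (by omega)
        rw [Bool.and_eq_true]
        exact ⟨hb (by omega), hb (by omega)⟩
      · right
        have t1 := fp_pos w2 w3 w1
        have t2 := fp_pos w2 w4 w1
        have g1 := fyi 2 (by omega) (by omega)
        have g3 : fp G R m z (x (2 + 2)) ≤ (rst G R N x y m z c).fx 4 := fxi 4 (by omega) (by omega)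
        rw [Bool.and_eq_true]
        exact ⟨hb (by omega), hb (by omega)⟩
    · rw [Bool.not_eq_true] at hf
      rw [hf]; rfl

/-- The status is in the list. -/
theorem allW_rst (hG : ClassC G R) (hcat : Cat G R m z c) (hm : 2 ≤ m) (h : Chn G R k x y)
    (hN2 : 2 ≤ N) (hNk : N < k) {ws : List (List (ℕ × ℕ))} (hws : (rst G R N x y m z c).w ∈ ws)
    (h01 : plv N x y (c 0) ≤ plv N x y (c 1)) (hmm : plv N x y (c m) ≤ plv N x y (c (m + 1)))
    {P : Sta → Bool} (hP : Sta.allW N ws P = true) : P (rst G R N x y m z c) = true := by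
  have hch : Chn G R N x y := h.take (by omega) (by omega)
  unfold Sta.allW at hP
  rw [List.all_eq_true] at hP
  have hP1 := hP _ hws
  simp only at hP1
  rw [List.all_eq_true] at hP1
  have hP2 := hP1 _ (plv_mem (G := G) (R := R) (z := z) (N := N) (x := x) (y := y) (c := c) (m := m)
    (j := 0) (by omega))
  rw [List.all_eq_true] at hP2
  have hP3 := hP2 _ (plv_mem (G := G) (R := R) (z := z) (N := N) (x := x) (y := y) (c := c) (m := m)
    (j := 1) (by omega))
  have f0 := frkok_of hG hch (hcat.unc 1 le_rfl (by omega)) hcat.adj0 (hcat.adjc 1 le_rfl (by omega))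
    hcat.ne0
  rw [f0, Nat.ble_eq_true_of_le h01, Bool.and_true, Bool.not_true, Bool.false_or, List.all_eq_true]
    at hP3
  have hP4 := hP3 _ (plv_mem (G := G) (R := R) (z := z) (N := N) (x := x) (y := y) (c := c) (m := m)
    (j := m) (by omega))
  rw [List.all_eq_true] at hP4
  have hP5 := hP4 _ (plv_mem (G := G) (R := R) (z := z) (N := N) (x := x) (y := y) (c := c) (m := m)
    (j := m + 1) (by omega))
  have fm := frkok_of hG hch (hcat.unc m (by omega) le_rfl) (hcat.adjc m (by omega) le_rfl) hcat.adjm
    hcat.nem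
  rw [fm, Nat.ble_eq_true_of_le hmm, Bool.and_true, Bool.not_true, Bool.false_or] at hP5
  have hc : ([plv N x y (c 0), plv N x y (c 1), plv N x y (c m), plv N x y (c (m + 1))].all
      (fun a => Sta.cntok (rst G R N x y m z c).w [plv N x y (c 0), plv N x y (c 1), plv N x y (c m),
        plv N x y (c (m + 1))] a)) = true := by
    rw [List.all_eq_true]
    intro a ha
    refine cnt_of hch hm a ?_
    have key : ∀ v, a = plv N x y v → a = 0 ∨ ∃ v, InC N x y v ∧ plv N x y v = a := by
      intro v hv
      by_cases hin : InC N x y v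
      · exact Or.inr ⟨v, hin, hv.symm⟩
      · left; rw [hv, plv_out hin]
    simp only [List.mem_cons, List.not_mem_nil, or_false] at ha
    rcases ha with ha | ha | ha | ha
    · exact key _ ha
    · exact key _ ha
    · exact key _ ha
    · exact key _ ha
  rw [hc, Bool.not_true, Bool.false_or, List.all_eq_true] at hP5
  have hP6 := hP5 (decide (m % 2 = 1)) (by cases decide (m % 2 = 1) <;> simp)
  have p00 := parok_of hcat hch (i := 0) (j := m) (Or.inl rfl) (Or.inl rfl) hm
  have p01 := parok_of hcat hch (i := 0) (j := m + 1) (Or.inl rfl) (Or.inr rfl) hm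
  have p10 := parok_of hcat hch (i := 1) (j := m) (Or.inr rfl) (Or.inl rfl) hm
  have p11 := parok_of hcat hch (i := 1) (j := m + 1) (Or.inr rfl) (Or.inr rfl) hm
  rw [p00, p01, p10, p11, Bool.and_true, Bool.and_true, Bool.not_true, Bool.false_or,
    List.all_eq_true] at hP6
  have hle := kapv_le (G := G) (R := R) (N := N) (X := x) (Y := y) (m := m) (z := z)
  have hP7 := hP6 (kapv G R N x y m z) (by
    have : kapv G R N x y m z = 0 ∨ kapv G R N x y m z = 1 ∨ kapv G R N x y m z = 2 ∨
      kapv G R N x y m z = 3 := by omega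
    simp only [List.mem_cons, List.not_mem_nil, or_false]
    exact this)
  rw [List.all_eq_true] at hP7
  have hmb : ∀ b : Bool, b ∈ [false, true] := by intro b; cases b <;> simp
  have hP8 := hP7 (decide (3 ≤ N ∧ FR G R x y m z 1)) (hmb _)
  rw [List.all_eq_true] at hP8
  have hP9 := hP8 (decide (4 ≤ N ∧ kapv G R N x y m z ≤ 1 ∧ FR G R x y m z 2)) (hmb _)
  have k1 := kapok_of hG hcat h hN2 hNk (z := z)
  have k2 := frok_of hG hcat h hN2 hNk (z := z)
  have e : (⟨(rst G R N x y m z c).w, plv N x y (c 0), plv N x y (c 1), plv N x y (c m),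
      plv N x y (c (m + 1)), decide (m % 2 = 1), decide (3 ≤ N ∧ FR G R x y m z 1),
      decide (4 ≤ N ∧ kapv G R N x y m z ≤ 1 ∧ FR G R x y m z 2), kapv G R N x y m z⟩ : Sta) =
      rst G R N x y m z c := rfl
  rw [e, k1, k2] at hP9
  have b1 : (!decide (3 ≤ N ∧ FR G R x y m z 1) || Nat.ble 3 N) = true := by
    by_cases h3 : 3 ≤ N
    · rw [Nat.ble_eq_true_of_le h3]; simp
    · rw [decide_eq_false (fun h' => h3 h'.1)]; rfl
  have b2 : (!decide (4 ≤ N ∧ kapv G R N x y m z ≤ 1 ∧ FR G R x y m z 2) || Nat.ble 4 N) = true := by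
    by_cases h3 : 4 ≤ N
    · rw [Nat.ble_eq_true_of_le h3]; simp
    · rw [decide_eq_false (fun h' => h3 h'.1)]; rfl
  rw [b1, b2] at hP9
  simpa using hP9

/-- The port numbers of a pattern. -/
theorem rst_w_mem (hG : ClassC G R) (hcat : Cat G R m z c) (h : Chn G R k x y) (hno : NoG k x y m c)
    {p : List ℕ} (hpk : p.length < k)
    (hp : ∀ i (hi : i < p.length), pt (ltr m c x y (i + 1)) = p[i]) :
    (rst G R p.length x y m z c).w ∈ Sta.wsOf p := by
  unfold rst
  refine mem_wsOf p _ (fun i hi => ?_)
  have h1 := hp i hi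
  rw [← h1]
  have hx := pc_cov hG hcat (h.cov (InC.x (by omega : 1 ≤ i + 1) (by omega : i + 1 ≤ k)))
  have hy := pc_lk hG hcat (h.lk (i + 1) (by omega) (by omega))
  have hn := hno (i + 1) (by omega) (by omega)
  unfold ltr
  by_cases a0 : pc m c (x (i + 1)) = 0
  · rw [if_pos a0]
    by_cases b0 : pc m c (y (i + 1)) = 0
    · rw [if_pos b0, a0, b0]
      simp [pt, Sta.opts]
    · have b1 : pc m c (y (i + 1)) = 1 := by omega
      rw [if_neg b0, if_pos b1, a0, b1]
      simp [pt, Sta.opts]
  · rw [if_neg a0]
    by_cases b0 : pc m c (y (i + 1)) = 0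
    · rw [if_pos b0]
      by_cases a1 : pc m c (x (i + 1)) = 1
      · rw [if_pos a1, a1, b0]
        simp [pt, Sta.opts]
      · rw [if_neg a1, b0, show pc m c (x (i + 1)) = 2 by omega]
        simp [pt, Sta.opts]
    · rw [if_neg b0]
      obtain ⟨e1, e2⟩ := hn (by omega) (by omega)
      rw [e1, e2]
      simp [pt, Sta.opts]

end CLB.H95
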