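import Pool.Agent.Helper95_CLB.StaM
import Pool.Agent.Helper95_CLB.PsiB

/-!
The code of the status is won: contradiction.
-/

set_option autoImplicit false
set_option linter.unusedSectionVars false

namespace CLB.H95

open H3DA (Q neg nr)
open Finset Classical
open CLB.H3 (CExt Cat IsTwo Fits UPath he_of_unc cat_structure chn_side KTight exists_ktight no_cext
  Leaf cext_or pc pc_pos pc_le pc_lk pc_cov pc_two pc_one cat_side_z outN total_ports)

variable {V : Type*} {G : SimpleGraph V} {R : V → Bool} [Fintype V] {k r : ℕ} {x y X Y : ℕ → V}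
  {m : ℕ} {z c : ℕ → V} {f : V → Q} {N n : ℕ}

/-! ### Counting -/

/-- Own and foreign ports. -/
lemma fp_pc (hcat : Cat G R m z c) (v : V) : fp G R m z v + pc m c v ≤ (prt G R v).card := by
  have e := Finset.card_filter_add_card_filter_not (s := prt G R v) (fun w => w ∉ cSupp m z)
  unfold fp
  rw [← e]
  refine Nat.add_le_add_left ?_ _
  unfold pc
  refine card_le_card_of_injOn (fun j => z (cl m j)) ?_ ?_
  · intro j hj
    rw [coe_filter, Set.mem_ofPred_eq, mem_range] at hj
    have h4 := cl_mem hcat.pos (show j ≤ m + 1 by omega)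
    refine mem_coe.2 (mem_filter.2 ⟨mem_prt.2 ⟨?_, hcat.unc _ h4.1 h4.2⟩, ?_⟩)
    · have := cat_adj_cl hcat (j := j) (by omega)
      rwa [hj.2] at this
    · rw [not_not]; exact mem_cSupp h4.1 h4.2
  · intro i hi j hj hij
    rw [coe_filter, Set.mem_ofPred_eq, mem_range] at hi hj
    exact port_unique hcat (by omega) (by omega) (hi.2.trans hj.2.symm) hij

lemma cap_x (hG : ClassC G R) (hcat : Cat G R m z c) (h : Chn G R k x y) {i : ℕ} (h1 : 1 ≤ i)
    (h2 : i ≤ k) : fp G R m z (x i) + pc m c (x i) ≤ if i = 1 then 2 else 1 := by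
  refine (fp_pc hcat _).trans ?_
  split_ifs with hi
  · exact prt_card hG (h.cov (InC.x h1 h2))
  · have h3 := h.lk (i - 1) (by omega) (by omega)
    rw [show i - 1 + 1 = i by omega] at h3
    exact prt_card_lk hG h3.symm

lemma cap_y (hG : ClassC G R) (hcat : Cat G R m z c) (h : Chn G R k x y) {i : ℕ} (h1 : 1 ≤ i)
    (h2 : i < k) : fp G R m z (y i) + pc m c (y i) ≤ 1 :=
  (fp_pc hcat _).trans (prt_card_lk hG (h.lk i h1 h2))

lemma fp_pos {v w : V} (hw : ¬ Cov G R w) (ha : G.Adj w v) (hwK : w ∉ cSupp m z) :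
    1 ≤ fp G R m z v := by
  unfold fp
  exact Finset.card_pos.2 ⟨w, mem_filter.2 ⟨mem_prt.2 ⟨ha.symm, hw⟩, hwK⟩⟩

lemma fp_two {v w w' : V} (hw : ¬ Cov G R w) (ha : G.Adj w v) (hwK : w ∉ cSupp m z)
    (hw' : ¬ Cov G R w') (ha' : G.Adj w' v) (hwK' : w' ∉ cSupp m z) (hne : w ≠ w') :
    2 ≤ fp G R m z v := by
  unfold fp
  exact Finset.one_lt_card.2 ⟨w, mem_filter.2 ⟨mem_prt.2 ⟨ha.symm, hw⟩, hwK⟩, w',
    mem_filter.2 ⟨mem_prt.2 ⟨ha'.symm, hw'⟩, hwK'⟩, hne⟩

/-- The vertex of a foreign component is foreign. -/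
lemma foreign {m' : ℕ} {z' c' : ℕ → V} (h : Cat G R m' z' c') (hcat : Cat G R m z c)
    (hne : cSupp m' z' ≠ cSupp m z) {i : ℕ} (h1 : 1 ≤ i) (h2 : i ≤ m') : z' i ∉ cSupp m z :=
  fun hi => hne (cSupp_eq h hcat (mem_cSupp h1 h2) hi)

/-- The fork of a component which sees `X 1`, `X 3`. -/
lemma fork13 {m' : ℕ} {z' c' : ℕ → V} (h : Cat G R m' z' c') (hcat : Cat G R m z c)
    (hne : cSupp m' z' ≠ cSupp m z) {a a' : ℕ} (ha : a ≤ m' + 1) (ha' : a' ≤ m' + 1) (haa : a ≠ a')
    (hcl : cl m' a = cl m' a') (hm : 2 ≤ m') : ∃ w, w ∉ cSupp m z ∧ ¬ Cov G R w ∧ G.Adj w (c' a) ∧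
      G.Adj w (c' a') ∧ ∀ v, G.Adj w v → Cov G R v → v = c' a ∨ v = c' a' := by
  have h4 := cl_mem h.pos ha
  refine ⟨z' (cl m' a), foreign h hcat hne h4.1 h4.2, h.unc _ h4.1 h4.2, (cat_adj_cl h ha).symm, ?_, ?_⟩
  · rw [hcl]; exact (cat_adj_cl h ha').symm
  · intro v hv hcv
    obtain ⟨j, j1, j2, j3⟩ := cat_port h h4.1 h4.2 hv hcv
    subst j2
    have : j = a ∨ j = a' := by
      unfold cl at hcl j3
      split_ifs at hcl j3 <;> omega
    rcases this with rfl | rfl
    · exact Or.inl rfl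
    · exact Or.inr rfl

lemma HasTrn.fork (hcat : Cat G R m z c) (h : HasTrn G R X Y m z) : ∃ w, w ∉ cSupp m z ∧
    ¬ Cov G R w ∧ G.Adj w (X 1) ∧ G.Adj w (X 3) ∧ ∀ v, G.Adj w v → Cov G R v → v = X 1 ∨ v = X 3 := by
  obtain ⟨m', z', c', hC, hne, rfl, a, a', b, b', g1, g2, g3, g4, g5, g6, g7, g8, g9, g10, g11, g12,
    g13⟩ := h
  have := fork13 hC hcat hne (a := a) (a' := a') (by omega) (by omega) g5 g7 (by omega)
  rwa [g10, g11] at this

lemma HasQdr.fork (hcat : Cat G R m z c) (h : HasQdr G R X Y m z) : ∃ w, w ∉ cSupp m z ∧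
    ¬ Cov G R w ∧ G.Adj w (X 1) ∧ G.Adj w (X 3) ∧ ∀ v, G.Adj w v → Cov G R v → v = X 1 ∨ v = X 3 := by
  obtain ⟨m', z', c', hC, hne, rfl, a, a', b, b', g1, g2, g3, g4, g5, g6, g7, g8, g9, g10, g11, g12⟩ := h
  have := fork13 hC hcat hne (a := a) (a' := a') (by omega) (by omega) g5 g7 (by omega)
  rwa [g9, g10] at this

/-- A port of a foreign component. -/
lemma fp_port {m' : ℕ} {z' c' : ℕ → V} (h : Cat G R m' z' c') (hcat : Cat G R m z c)
    (hne : cSupp m' z' ≠ cSupp m z) {j : ℕ} (hj : j ≤ m' + 1) : 1 ≤ fp G R m z (c' j) := by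
  have h4 := cl_mem h.pos hj
  exact fp_pos (h.unc _ h4.1 h4.2) (cat_adj_cl h hj).symm (foreign h hcat hne h4.1 h4.2)

lemma HasCpl.fp (hcat : Cat G R m z c) (h : HasCpl G R r X Y m z) : 1 ≤ CLB.H95.fp G R m z (X 1) ∧
    1 ≤ CLB.H95.fp G R m z (X 2) := by
  obtain ⟨m', z', c', hC, hne, rfl, a, b, ha, hb, oa, ob, hab⟩ := h
  have h1 := fp_port hC hcat hne (j := a) (by omega)
  have h2 := fp_port hC hcat hne (j := b) (by omega)
  rcases hab with ⟨e1, e2⟩ | ⟨e1, e2⟩
  · rw [e1] at h1; rw [e2] at h2; exact ⟨h1, h2⟩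
  · rw [e1] at h1; rw [e2] at h2; exact ⟨h2, h1⟩

lemma HasTrn.fp (hcat : Cat G R m z c) (h : HasTrn G R X Y m z) : 1 ≤ CLB.H95.fp G R m z (X 1) ∧
    1 ≤ CLB.H95.fp G R m z (X 2) ∧ 1 ≤ CLB.H95.fp G R m z (X 3) := by
  obtain ⟨m', z', c', hC, hne, rfl, a, a', b, b', g1, g2, g3, g4, g5, g6, g7, g8, g9, g10, g11, g12,
    g13⟩ := h
  have h1 := fp_port hC hcat hne (j := a) (by omega)
  have h2 := fp_port hC hcat hne (j := a') (by omega)
  have h3 := fp_port hC hcat hne (j := b) (by omega)
  rw [g10] at h1; rw [g11] at h2; rw [g12] at h3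
  exact ⟨h1, h3, h2⟩

lemma HasQdr.fp (hcat : Cat G R m z c) (h : HasQdr G R X Y m z) : 1 ≤ CLB.H95.fp G R m z (X 1) ∧
    1 ≤ CLB.H95.fp G R m z (X 2) ∧ 1 ≤ CLB.H95.fp G R m z (X 3) ∧ 1 ≤ CLB.H95.fp G R m z (X 4) := by
  obtain ⟨m', z', c', hC, hne, rfl, a, a', b, b', g1, g2, g3, g4, g5, g6, g7, g8, g9, g10, g11, g12⟩ := h
  have h1 := fp_port hC hcat hne (j := a) (by omega)
  have h2 := fp_port hC hcat hne (j := a') (by omega)
  have h3 := fp_port hC hcat hne (j := b) (by omega)
  have h4 := fp_port hC hcat hne (j := b') (by omega)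
  rw [g9] at h1; rw [g10] at h2; rw [g11] at h3; rw [g12] at h4
  exact ⟨h1, h3, h2, h4⟩

lemma rst_fr {i : ℕ} (h : (rst G R N X Y m z c).fr i = true) :
    (i = 1 ∨ i = 2) ∧ i + 2 ≤ N ∧ FR G R X Y m z i ∧ (i = 2 → kapv G R N X Y m z ≤ 1) := by
  unfold Sta.fr rst at h
  by_cases h1 : i = 1
  · subst h1
    simp only [beq_self_eq_true, if_true, decide_eq_true_eq] at h
    exact ⟨Or.inl rfl, by omega, h.2, fun h => by omega⟩
  · rw [if_neg (by simpa using h1)] at h
    by_cases h2 : i = 2
    · subst h2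
      simp only [beq_self_eq_true, if_true, decide_eq_true_eq] at h
      exact ⟨Or.inr rfl, by omega, h.2.2, fun _ => h.2.1⟩
    · rw [if_neg (by simpa using h2)] at h
      exact absurd h (by simp)

lemma kapv_three (h : kapv G R N X Y m z = 3) : 4 ≤ N ∧ HasQdr G R X Y m z := by
  unfold kapv at h
  by_contra hcon
  rw [if_neg hcon] at h
  split_ifs at h <;> omega

lemma kapv_two (h : kapv G R N X Y m z = 2) : 3 ≤ N ∧ HasTrn G R X Y m z := by
  unfold kapv at h
  by_contra hcon
  rw [if_neg hcon] at h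
  split_ifs at h <;> omega

lemma kapv_one (h : kapv G R N X Y m z = 1) : HasCpl G R 2 X Y m z := by
  unfold kapv at h
  by_contra hcon
  rw [if_neg hcon] at h
  split_ifs at h <;> omega

/-- **The charges of a unit.** -/
theorem chg_bound (hG : ClassC G R) (hcat : Cat G R m z c) (h : Chn G R k x y) (hN : N < k)
    (hn : n ≤ N) (o : Bool) {i : ℕ} (h1 : 1 ≤ i) (h2 : i ≤ n) :
    chg G R n x y m z o (x i) + chg G R n x y m z o (y i) + (rst G R N x y m z c).own i +
      (rst G R N x y m z c).bon n o i ≤ Sta.cap i := by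
  rw [rst_own h1 (by omega)]
  have hc1 := cap_x hG hcat h h1 (by omega : i ≤ k)
  have hc2 := cap_y hG hcat h h1 (by omega : i < k)
  have a1 : chg G R n x y m z o (x i) ≤ fp G R m z (x i) := chg_le_fp o (x i)
  have a2 : chg G R n x y m z o (y i) ≤ fp G R m z (y i) := chg_le_fp o (y i)
  have hcap : Sta.cap i = (if i = 1 then 2 else 1) + 1 := by
    unfold Sta.cap
    by_cases hi : i = 1
    · subst hi; simp
    · rw [if_neg (by simpa using hi), if_neg hi]
  have hch : Chn G R n x y := h.take (by omega) (by omega)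
  have key : chg G R n x y m z o (x i) + chg G R n x y m z o (y i) +
      (rst G R N x y m z c).bon n o i ≤ fp G R m z (x i) + fp G R m z (y i) := by
    unfold Sta.bon
    cases o
    · rw [if_neg (by simp)]
      by_cases hb : (Nat.ble (i + 2) n && (rst G R N x y m z c).fr i) = true
      · rw [if_pos hb]
        rw [Bool.and_eq_true] at hb
        have hb1 := Nat.le_of_ble_eq_true hb.1
        obtain ⟨w, w1, w2, w3⟩ := (rst_fr hb.2).2.2.1
        rcases w3 with ⟨w3, w4⟩ | ⟨w3, w4⟩
        · have := chg_late (G := G) (R := R) (r := n) (X := x) (Y := y) (m := m) (z := z) (o := false)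
            (v := x i) (mem_prt.2 ⟨w3.symm, w2⟩) w1 ⟨y (i + 2), w2, w3, w4,
              fun e => h.xy i (i + 2) h1 (by omega) (by omega) (by omega) e,
              InC.x h1 h2, InC.y (by omega) hb1, by
              unfold ltO
              rw [idx_x hch h1 h2, idx_y hch (by omega) hb1, if_neg (by simp)]
              omega⟩
          omega
        · have := chg_late (G := G) (R := R) (r := n) (X := x) (Y := y) (m := m) (z := z) (o := false)
            (v := y i) (mem_prt.2 ⟨w3.symm, w2⟩) w1 ⟨x (i + 2), w2, w3, w4,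
              fun e => h.xy (i + 2) i (by omega) (by omega) h1 (by omega) e.symm,
              InC.y h1 h2, InC.x (by omega) hb1, by
              unfold ltO
              rw [idx_y hch h1 h2, idx_x hch (by omega) hb1, if_neg (by simp)]
              omega⟩
          omega
      · rw [if_neg hb]; omega
    · rw [if_pos rfl]
      -- the exceptional fork
      have hq : ∀ (hb : (i == 3 && (rst G R N x y m z c).kap == 3) = true),
          chg G R n x y m z true (x i) + 1 ≤ fp G R m z (x i) ∧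
          ∀ w, ¬ Cov G R w → G.Adj w (x i) → ¬ G.Adj w (y 1) := by
        intro hb
        rw [Bool.and_eq_true, beq_iff_eq, beq_iff_eq] at hb
        obtain ⟨rfl, hb⟩ := hb
        obtain ⟨w, w1, w2, w3, w4, w5⟩ := (kapv_three hb).2.fork hcat
        have hx3 : Lk G R (x 3) (y 2) := (h.lk 2 (by omega) (by omega)).symm
        refine ⟨chg_late (mem_prt.2 ⟨w4.symm, w2⟩) w1 ⟨x 1, w2, w4, w3, fun e => ?_,
          InC.x h1 h2, InC.x le_rfl (by omega), ?_⟩, fun w' hw' ha' hb' => ?_⟩
        · have := h.injx 3 1 (by omega) (by omega) le_rfl (by omega) e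
          omega
        · unfold ltO
          rw [idx_x hch h1 h2, idx_x hch le_rfl (by omega), if_pos rfl]
          omega
        · have e1 := Finset.card_le_one.1 (prt_card_lk hG hx3) w (mem_prt.2 ⟨w4.symm, w2⟩) w'
            (mem_prt.2 ⟨ha'.symm, hw'⟩)
          subst e1
          rcases w5 _ hb' (h.cov (InC.y le_rfl (by omega))) with e | e
          · exact h.xy 1 1 le_rfl (by omega) le_rfl (by omega) e.symm
          · exact h.xy 3 1 (by omega) (by omega) le_rfl (by omega) e.symm
      by_cases hb : (Nat.ble 3 i && (rst G R N x y m z c).fr (i - 2)) = true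
      · rw [if_pos hb]
        rw [Bool.and_eq_true] at hb
        have hb1 := Nat.le_of_ble_eq_true hb.1
        obtain ⟨w, w1, w2, w3⟩ := (rst_fr hb.2).2.2.1
        have hi2 : i - 2 + 2 = i := by omega
        rw [hi2] at w3
        rcases w3 with ⟨w3, w4⟩ | ⟨w3, w4⟩
        · have := chg_late (G := G) (R := R) (r := n) (X := x) (Y := y) (m := m) (z := z) (o := true)
            (v := y i) (mem_prt.2 ⟨w4.symm, w2⟩) w1 ⟨x (i - 2), w2, w4, w3,
              fun e => h.xy (i - 2) i (by omega) (by omega) (by omega) (by omega) e.symm,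
              InC.y h1 h2, InC.x (by omega) (by omega), by
              unfold ltO
              rw [idx_y hch h1 h2, idx_x hch (by omega) (by omega), if_pos rfl]
              omega⟩
          by_cases hb3 : (i == 3 && (rst G R N x y m z c).kap == 3) = true
          · rw [if_pos hb3]
            have := (hq hb3).1
            omega
          · rw [if_neg hb3]; omega
        · have := chg_late (G := G) (R := R) (r := n) (X := x) (Y := y) (m := m) (z := z) (o := true)
            (v := x i) (mem_prt.2 ⟨w4.symm, w2⟩) w1 ⟨y (i - 2), w2, w4, w3,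
              fun e => h.xy i (i - 2) (by omega) (by omega) (by omega) (by omega) e,
              InC.x h1 h2, InC.y (by omega) (by omega), by
              unfold ltO
              rw [idx_x hch h1 h2, idx_y hch (by omega) (by omega), if_pos rfl]
              omega⟩
          by_cases hb3 : (i == 3 && (rst G R N x y m z c).kap == 3) = true
          · exfalso
            have h3 : i = 3 := by
              rw [Bool.and_eq_true, beq_iff_eq] at hb3
              exact hb3.1
            exact (hq hb3).2 w w2 w4 (by rw [h3] at w3; exact w3)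
          · rw [if_neg hb3]; omega
      · rw [if_neg hb]
        by_cases hb3 : (i == 3 && (rst G R N x y m z c).kap == 3) = true
        · rw [if_pos hb3]
          have := (hq hb3).1
          omega
        · rw [if_neg hb3]; omega
  omega

/-! ### Conflicts, sums, relations -/

lemma cf1_eq (h : Chn G R N x y) (hn : n ≤ N) {i : ℕ} (h1 : 1 ≤ i) (h2 : i ≤ N) (v w : V) :
    Sta.cf1 n i (plv N x y v) (plv N x y w) = cn1 n x y i v w := by
  unfold Sta.cf1 cn1
  rw [plv_inW' h hn]
  have := plv_div h h1 h2 (v := v)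
  by_cases e1 : InU x y i v
  · rw [this.2 e1]
    by_cases e2 : InC n x y w
    · simp [e2]
    · simp [e1, e2]
  · have e3 : ¬ plv N x y v / 2 = i := fun e => e1 (this.1 e)
    simp [e1, e3]

lemma cfn_eq (h : Chn G R N x y) (hn : n ≤ N) {i : ℕ} (h1 : 1 ≤ i) (h2 : i ≤ N) :
    (rst G R N x y m z c).cfn n i = cnf n x y m c i := by
  unfold Sta.cfn cnf rst
  simp only
  rw [cf1_eq h hn h1 h2, cf1_eq h hn h1 h2, cf1_eq h hn h1 h2, cf1_eq h hn h1 h2]

lemma ind_eq (h : Chn G R N x y) {i : ℕ} (h1 : 1 ≤ i) (h2 : i ≤ N) (v : V) :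
    (plv N x y v / 2 == i) = ind x y v i := by
  unfold ind
  rw [Bool.eq_iff_iff, beq_iff_eq, decide_eq_true_iff]
  exact plv_div h h1 h2

lemma code_u {S : Sta} {o : Bool} {ps : ℕ} {i : ℕ} (h1 : 1 ≤ i) (h2 : i ≤ n) :
    (S.code n o ps).u i = S.uc n o ps i := by
  unfold Code.u Sta.code
  simp only
  rw [List.getD_eq_getElem?_getD, List.getElem?_map, List.getElem?_range (by omega)]
  simp only [Option.map_some, Option.getD_some]
  rw [show i - 1 + 1 = i by omega]

lemma code_r {S : Sta} {o : Bool} {ps : ℕ} : (S.code n o ps).r = n := by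
  unfold Code.r Sta.code
  simp

/-- A fork of the caterpillar in the window. -/
lemma orl_of (h : Chn G R N x y) {i : ℕ} (h1 : 1 ≤ i) (h2 : i + 2 ≤ N) {v w : V}
    (he : (v = x i ∧ w = y (i + 2)) ∨ (v = y i ∧ w = x (i + 2)) ∨ (w = x i ∧ v = y (i + 2)) ∨
      (w = y i ∧ v = x (i + 2))) : Sta.orl i (plv N x y v) (plv N x y w) = true := by
  unfold Sta.orl
  have e1 := plv_x h h1 (by omega : i ≤ N)
  have e2 := plv_y h h1 (by omega : i ≤ N)
  have e3 := plv_x h (by omega : 1 ≤ i + 2) h2
  have e4 := plv_y h (by omega : 1 ≤ i + 2) h2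
  have b1 : 2 * i / 2 = i := by omega
  have b2 : (2 * i + 1) / 2 = i := by omega
  have b3 : 2 * (i + 2) / 2 = i + 2 := by omega
  have b4 : (2 * (i + 2) + 1) / 2 = i + 2 := by omega
  have c1 : 2 * i % 2 = 0 := by omega
  have c2 : (2 * i + 1) % 2 = 1 := by omega
  have c3 : 2 * (i + 2) % 2 = 0 := by omega
  have c4 : (2 * (i + 2) + 1) % 2 = 1 := by omega
  rcases he with ⟨rfl, rfl⟩ | ⟨rfl, rfl⟩ | ⟨rfl, rfl⟩ | ⟨rfl, rfl⟩
  · rw [e1, e4, b1, b4, c1, c4]; simp
  · rw [e2, e3, b2, b3, c2, c3]; simp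
  · rw [e1, e4, b1, b4, c1, c4]; simp
  · rw [e2, e3, b2, b3, c2, c3]; simp

/-- **Relations.** -/
theorem rel_of (hcat : Cat G R m z c) (hm : 2 ≤ m) (h : Chn G R N x y) (hn : n ≤ N) (hN4 : N ≤ 4)
    (hl : 4 ≤ n → n ≤ Sta.lim (kapv G R N x y m z)) (o : Bool) (ps : ℕ) {i : ℕ}
    (h1 : 1 ≤ i) (h2 : i + 2 ≤ n) (hr : RelAt G R x y i (i + 2)) :
    ((rst G R N x y m z c).uc n o ps i).rel = true := by
  show (Nat.ble (i + 2) n && ((rst G R N x y m z c).fr i || (Sta.orl i (plv N x y (c 0))
    (plv N x y (c 1)) || Sta.orl i (plv N x y (c m)) (plv N x y (c (m + 1)))))) = true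
  rw [Bool.and_eq_true]
  refine ⟨Nat.ble_eq_true_of_le h2, ?_⟩
  rw [Bool.or_eq_true]
  obtain ⟨w, w1, w2⟩ := hr
  by_cases hw : w ∈ cSupp m z
  · right
    obtain ⟨j, j1, j2, rfl⟩ := hw
    rw [Bool.or_eq_true]
    have key : ∀ u v, u ≠ v → G.Adj (z j) u → G.Adj (z j) v → Cov G R u → Cov G R v →
        ((c 0 = u ∧ c 1 = v) ∨ (c 0 = v ∧ c 1 = u)) ∨
          ((c m = u ∧ c (m + 1) = v) ∨ (c m = v ∧ c (m + 1) = u)) := by
      intro u v huv hu hv cu cv
      obtain ⟨a, a1, a2, a3⟩ := cat_port hcat j1 j2 hu cu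
      obtain ⟨b, b1, b2, b3⟩ := cat_port hcat j1 j2 hv cv
      have hab : a ≠ b := fun e => huv (by rw [← a2, ← b2, e])
      have hcl : cl m a = cl m b := a3.trans b3.symm
      have hcase : (a = 0 ∧ b = 1) ∨ (a = 1 ∧ b = 0) ∨ (a = m ∧ b = m + 1) ∨ (a = m + 1 ∧ b = m) := by
        unfold cl at hcl
        split_ifs at hcl <;> omega
      rcases hcase with ⟨rfl, rfl⟩ | ⟨rfl, rfl⟩ | ⟨rfl, rfl⟩ | ⟨rfl, rfl⟩
      · exact Or.inl (Or.inl ⟨a2, b2⟩)
      · exact Or.inl (Or.inr ⟨b2, a2⟩)
      · exact Or.inr (Or.inl ⟨a2, b2⟩)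
      · exact Or.inr (Or.inr ⟨b2, a2⟩)
    rcases w2 with ⟨g1, g2⟩ | ⟨g1, g2⟩
    · rcases key _ _ (h.xy i (i + 2) h1 (by omega) (by omega) (by omega)) g1 g2
        (h.cov (InC.x h1 (by omega))) (h.cov (InC.y (by omega) (by omega))) with e | e
      · left
        refine orl_of h h1 (by omega) ?_
        rcases e with e | e
        · exact Or.inl e
        · exact Or.inr (Or.inr (Or.inl ⟨e.2, e.1⟩))
      · right
        refine orl_of h h1 (by omega) ?_
        rcases e with e | e
        · exact Or.inl e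
        · exact Or.inr (Or.inr (Or.inl ⟨e.2, e.1⟩))
    · rcases key _ _ (fun e => h.xy (i + 2) i (by omega) (by omega) h1 (by omega) e.symm) g1 g2
        (h.cov (InC.y h1 (by omega))) (h.cov (InC.x (by omega) (by omega))) with e | e
      · left
        refine orl_of h h1 (by omega) ?_
        rcases e with e | e
        · exact Or.inr (Or.inl e)
        · exact Or.inr (Or.inr (Or.inr ⟨e.2, e.1⟩))
      · right
        refine orl_of h h1 (by omega) ?_
        rcases e with e | e
        · exact Or.inr (Or.inl e)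
        · exact Or.inr (Or.inr (Or.inr ⟨e.2, e.1⟩))
  · left
    have hF : FR G R x y m z i := ⟨w, hw, w1, w2⟩
    have hi : i = 1 ∨ i = 2 := by omega
    rcases hi with rfl | rfl
    · show decide (3 ≤ N ∧ FR G R x y m z 1) = true
      rw [decide_eq_true_iff]
      exact ⟨by omega, hF⟩
    · show decide (4 ≤ N ∧ kapv G R N x y m z ≤ 1 ∧ FR G R x y m z 2) = true
      rw [decide_eq_true_iff]
      refine ⟨by omega, ?_, hF⟩
      have hk := kapv_le (G := G) (R := R) (N := N) (X := x) (Y := y) (m := m) (z := z)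
      by_contra hcon
      have : kapv G R N x y m z = 2 ∨ kapv G R N x y m z = 3 := by omega
      have l2 : Sta.lim 2 = 2 := rfl
      have l3 : Sta.lim 3 = 3 := rfl
      have hl := hl (by omega)
      rcases this with e | e
      · rw [e, l2] at hl; omega
      · rw [e, l3] at hl; omega

/-! ### The sum `psi` -/

lemma tot_eq (hn : n ≤ N) : (rst G R N x y m z c).tot n = ∑ i ∈ Icc 1 n, (pc m c (x i) + pc m c (y i)) := by
  induction n with
  | zero => rfl
  | succ n ih =>
    rw [Finset.sum_Icc_succ_top (by omega), ← ih (by omega)]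
    show (rst G R N x y m z c).tot n + (rst G R N x y m z c).own (n + 1) = _
    rw [rst_own (by omega) hn]

lemma innN_le {J : ℕ → Prop} (hm : 2 ≤ m) : innN m J + (((if J 0 then 1 else 0) +
    (if J 1 then 1 else 0)) + ((if J m then 1 else 0) + (if J (m + 1) then 1 else 0))) ≤
    ((range (m + 2)).filter (fun j => J j)).card := by
  have e1 := Finset.card_filter_add_card_filter_not (s := (range (m + 2)).filter (fun j => J j))
    (fun j => 2 ≤ j ∧ j + 1 ≤ m)
  rw [← e1]
  refine Nat.add_le_add ?_ ?_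
  · unfold innN
    refine card_le_card fun j hj => ?_
    rw [mem_filter] at hj
    rw [mem_filter, mem_filter]
    exact ⟨⟨hj.1, hj.2.2⟩, hj.2.1⟩
  · have e2 : (({0, 1, m, m + 1} : Finset ℕ).filter (fun j => J j)).card =
        ((if J 0 then 1 else 0) + (if J 1 then 1 else 0)) +
          ((if J m then 1 else 0) + (if J (m + 1) then 1 else 0)) := by
      rw [Finset.card_filter, sum_insert (by simp; omega), sum_insert (by simp; omega),
        sum_insert (by simp), sum_singleton]
      ring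
    rw [← e2]
    refine card_le_card fun j hj => ?_
    rw [mem_filter] at hj
    rw [mem_filter, mem_filter, mem_range]
    simp only [mem_insert, mem_singleton] at hj
    exact ⟨⟨by omega, hj.2⟩, by omega⟩

lemma inn_le (h : Chn G R N x y) (hn1 : 1 ≤ n) (hn : n ≤ N) (hm : 2 ≤ m) :
    innN m (fun j => InC n x y (c j)) ≤ (rst G R N x y m z c).inn n := by
  have h1 := innN_le (m := m) (J := fun j => InC n x y (c j)) hm
  have h2 := total_ports (m := m) (c := c) (h.take hn1 hn)
  have h3 : outN n x y m c + ((range (m + 2)).filter (fun j => InC n x y (c j))).card = m + 2 := by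
    have := Finset.card_filter_add_card_filter_not (s := range (m + 2)) (fun j => ¬ InC n x y (c j))
    simp only [not_not] at this
    rw [card_range] at this
    exact this
  have b : ∀ v : V, Sta.b2n (Sta.inW n (plv N x y v)) = if InC n x y v then 1 else 0 := by
    intro v
    rw [plv_inW' h hn]
    by_cases hv : InC n x y v <;> simp [hv, Sta.b2n]
  unfold Sta.inn
  rw [tot_eq hn]
  show _ ≤ _ - ((Sta.b2n (Sta.inW n (plv N x y (c 0))) + Sta.b2n (Sta.inW n (plv N x y (c 1)))) +
    (Sta.b2n (Sta.inW n (plv N x y (c m))) + Sta.b2n (Sta.inW n (plv N x y (c (m + 1))))))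
  rw [b, b, b, b]
  omega

/-- **The free steps.** -/
theorem free_of (h : Chn G R N x y) (hn1 : 1 ≤ n) (hn : n ≤ N) (hm : 6 ≤ m)
    (hp : (rst G R N x y m z c).psok n = true) :
    (∃ s a b, s % 2 = 1 ∧ StepAt m s a b ∧ ¬ InC n x y (c a) ∧ ¬ InC n x y (c b)) ∧
      ∃ s a b, s % 2 = 0 ∧ StepAt m s a b ∧ ¬ InC n x y (c a) ∧ ¬ InC n x y (c b) := by
  have h1 := inn_le (z := z) (c := c) h hn1 hn (by omega : 2 ≤ m)
  have b : ∀ v w : V, (Sta.inW n (plv N x y v) && Sta.inW n (plv N x y w)) =
      decide (InC n x y v ∧ InC n x y w) := by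
    intro v w
    rw [plv_inW' h hn, plv_inW' h hn, Bool.decide_and]
  have hb : ∀ v w : V, InC n x y v ∧ InC n x y w → 1 ≤ Sta.b2n (decide (InC n x y v ∧ InC n x y w)) := by
    intro v w hvw
    rw [decide_eq_true hvw]; exact le_rfl
  refine free_steps hm (J := fun j => InC n x y (c j))
    (A := Sta.b2n (decide (InC n x y (c 0) ∧ InC n x y (c 1))))
    (B := Sta.b2n (decide (InC n x y (c m) ∧ InC n x y (c (m + 1))))) (hb _ _) (hb _ _) ?_
  unfold Sta.psok at hp
  by_cases hodd : m % 2 = 1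
  · rw [if_pos hodd]
    rw [if_pos (show (rst G R N x y m z c).odd = true from decide_eq_true hodd), Bool.and_eq_true] at hp
    have p1 : (rst G R N x y m z c).inn n + Sta.b2n (Sta.inW n (plv N x y (c 0)) &&
      Sta.inW n (plv N x y (c 1))) ≤ 2 := Nat.le_of_ble_eq_true hp.1
    have p2 : (rst G R N x y m z c).inn n + Sta.b2n (Sta.inW n (plv N x y (c m)) &&
      Sta.inW n (plv N x y (c (m + 1)))) ≤ 2 := Nat.le_of_ble_eq_true hp.2
    rw [b] at p1 p2
    exact ⟨by omega, by omega⟩
  · rw [if_neg hodd]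
    rw [if_neg (show ¬ (rst G R N x y m z c).odd = true by
      show ¬ decide (m % 2 = 1) = true
      rw [decide_eq_true_iff]; exact hodd), Bool.and_eq_true] at hp
    have p1 : (rst G R N x y m z c).inn n ≤ 1 := Nat.le_of_ble_eq_true hp.1
    have p2 : (rst G R N x y m z c).inn n + Sta.b2n (Sta.inW n (plv N x y (c 0)) &&
      Sta.inW n (plv N x y (c 1))) + Sta.b2n (Sta.inW n (plv N x y (c m)) &&
      Sta.inW n (plv N x y (c (m + 1)))) ≤ 2 := Nat.le_of_ble_eq_true hp.2
    rw [b, b] at p2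
    exact ⟨by omega, by omega⟩

/-- **A won code of the status gives a contradiction.** -/
theorem rst_false (hG : ClassC G R) (hc : Crit G R) (hcat : Cat G R m z c) (hm : 6 ≤ m)
    (h : Chn G R k x y) (hend : ∀ w, ¬ Lk G R (x 1) w) (hN2 : 2 ≤ N) (hN4 : N ≤ 4) (hNk : N < k)
    (hn1 : 1 ≤ n) (hn : n ≤ N) (hl : n ≤ Sta.lim (kapv G R N x y m z))
    (hE : EndClean G R n x y m z) (hin : ∃ j ≤ m + 1, InC n x y (c j)) {o : Bool} {ps : ℕ}
    (hsml : (rst G R N x y m z c).sml n o = true) (hps : ps = 0 ∨ (rst G R N x y m z c).psok n = true)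
    (hW : ((rst G R N x y m z c).code n o ps).Win) : False := by
  have hchN : Chn G R N x y := h.take (by omega) (by omega)
  have hcl := cleanC_of hG hchN hN2 hN4 hn hl hE
  obtain ⟨f, D, w⟩ := wb_open hG hc hcat (by omega) h hend hn1 (by omega : n ≤ k) hin
  have hcode : ∀ i, 1 ≤ i → i ≤ n → ((rst G R N x y m z c).code n o ps).u i =
    (rst G R N x y m z c).uc n o ps i := fun i h1 h2 => code_u h1 h2
  have hlos : ∀ i, 1 ≤ i → i ≤ n → (rst G R N x y m z c).los n o i ≤ 8 := by
    intro i h1 h2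
    unfold Sta.sml at hsml
    rw [List.all_eq_true] at hsml
    have := Nat.le_of_ble_eq_true (hsml (i - 1) (List.mem_range.2 (by omega)))
    rwa [show i - 1 + 1 = i by omega] at this
  have hsz : ∀ i, 1 ≤ i → i ≤ n → ((rst G R N x y m z c).uc n o ps i).s +
      2 * (chg G R n x y m z o (x i) + chg G R n x y m z o (y i)) +
      (if i = n then min (cnf n x y m c i) 1 else cnf n x y m c i) ≤ 8 := by
    intro i h1 h2
    have e1 := chg_bound hG hcat h hNk hn o h1 h2
    have e2 := hlos i h1 h2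
    have e3 : ((rst G R N x y m z c).uc n o ps i).s = 8 - (rst G R N x y m z c).los n o i := rfl
    have e4 : (rst G R N x y m z c).los n o i = 2 * (Sta.cap i - (rst G R N x y m z c).own i -
      (rst G R N x y m z c).bon n o i) + (if i = n then min (cnf n x y m c i) 1 else
        cnf n x y m c i) := by
      unfold Sta.los
      rw [cfn_eq hchN hn h1 (by omega)]
      by_cases hi : i = n
      · rw [if_pos hi, if_pos (by simpa using hi)]
      · rw [if_neg hi, if_neg (by simpa using hi)]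
    rw [e3]
    omega
  refine w.codeC (by omega) o (C := (rst G R N x y m z c).code n o ps) code_r hend
    ⟨_, h.lk n hn1 (by omega)⟩ hcl ?_ ?_ ?_ ?_ ?_ ?_ ?_ hW
  · intro h2 hH
    show (Nat.ble 2 n && ((kapv G R N x y m z) == 1 || (kapv G R N x y m z) == 2)) = true
    rcases cp_of hG hchN hN2 h2 hH with e | e <;> rw [e] <;>
      simp [Nat.ble_eq_true_of_le h2]
  · intro i h1 h2
    rw [hcode i h1 (by omega)]
    have := hsz i h1 (by omega)
    rwa [if_neg (by omega)] at this
  · rw [hcode n hn1 le_rfl]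
    have := hsz n hn1 le_rfl
    rwa [if_pos rfl] at this
  · intro i h1 h2 htg
    rw [hcode i h1 h2] at htg
    have htg' : (Nat.ble 1 ((rst G R N x y m z c).own i) && !(((plv N x y (c 0) / 2 == i) ||
      (plv N x y (c 1) / 2 == i)) && ((plv N x y (c m) / 2 == i) ||
      (plv N x y (c (m + 1)) / 2 == i)))) = true := htg
    rw [ind_eq hchN h1 (by omega), ind_eq hchN h1 (by omega), ind_eq hchN h1 (by omega),
      ind_eq hchN h1 (by omega), Bool.and_eq_true] at htg'
    refine ⟨?_, ?_⟩
    · have e1 := Nat.le_of_ble_eq_true htg'.1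
      rw [rst_own h1 (by omega)] at e1
      by_cases e2 : 1 ≤ pc m c (x i)
      · obtain ⟨j, j1, j2⟩ := pc_pos.1 e2
        exact ⟨j, j1, Or.inl j2⟩
      · obtain ⟨j, j1, j2⟩ := pc_pos.1 (show 1 ≤ pc m c (y i) by omega)
        exact ⟨j, j1, Or.inr j2⟩
    · intro hcon
      have e2 := htg'.2
      unfold ind at e2
      have e3 : ((decide (InU x y i (c 0)) || decide (InU x y i (c 1))) &&
        (decide (InU x y i (c m)) || decide (InU x y i (c (m + 1))))) = true := by
        rw [Bool.and_eq_true, Bool.or_eq_true, Bool.or_eq_true, decide_eq_true_iff, decide_eq_true_iff,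
          decide_eq_true_iff, decide_eq_true_iff]
        exact hcon
      rw [e3] at e2
      exact absurd e2 (by simp)
  · left
    intro i h1 h2
    rw [hcode i h1 h2]
    show xor (xor (plv N x y (c 0) / 2 == i) (plv N x y (c 1) / 2 == i))
      (xor (plv N x y (c m) / 2 == i) (plv N x y (c (m + 1)) / 2 == i)) = _
    rw [ind_eq hchN h1 (by omega), ind_eq hchN h1 (by omega), ind_eq hchN h1 (by omega),
      ind_eq hchN h1 (by omega)]
    rfl
  · rcases hps with rfl | hps
    · refine ⟨{(false, false, false)}, by rw [card_singleton]; norm_num, fun mu _ _ => ?_⟩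
      rw [mem_singleton, ← sumU_false (d := mu) (n := n)]
      refine sumU_congr fun i i1 i2 => ⟨?_, rfl⟩
      rw [hcode i i1 i2]
      rfl
    · obtain ⟨⟨s, a, b, s1, s2, s3, s4⟩, s', a', b', t1, t2, t3, t4⟩ := free_of hchN hn1 hn hm hps
      by_cases p1 : ps = 1
      · obtain ⟨S, q1, q2⟩ := win_psi (f := f) w.ch s2 s1 t2 t1 s3 s4 t3 t4
        refine ⟨S, q1, fun mu D' hD => ?_⟩
        have : sumU (fun i => (((rst G R N x y m z c).code n o ps).u i).ps) mu n =
            sumU (fkp x y c) mu n := sumU_congr fun i i1 i2 => ⟨by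
          rw [hcode i i1 i2]
          show (if ps == 1 then xor (plv N x y (c 0) / 2 == i) (plv N x y (c 1) / 2 == i) else _) = _
          rw [if_pos (by simpa using p1), ind_eq hchN i1 (by omega), ind_eq hchN i1 (by omega)]
          rfl, rfl⟩
        rw [this]
        exact q2 mu D' hD
      · by_cases p2 : ps = 2
        · obtain ⟨S, q1, q2⟩ := win_psiB (f := f) w.ch s2 s1 t2 t1 s3 s4 t3 t4
          refine ⟨S, q1, fun mu D' hD => ?_⟩
          have : sumU (fun i => (((rst G R N x y m z c).code n o ps).u i).ps) mu n =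
              sumU (fkq x y m c) mu n := sumU_congr fun i i1 i2 => ⟨by
            rw [hcode i i1 i2]
            show (if ps == 1 then _ else if ps == 2 then xor (plv N x y (c m) / 2 == i)
              (plv N x y (c (m + 1)) / 2 == i) else _) = _
            rw [if_neg (by simpa using p1), if_pos (by simpa using p2), ind_eq hchN i1 (by omega),
              ind_eq hchN i1 (by omega)]
            rfl, rfl⟩
          rw [this]
          exact q2 mu D' hD
        · refine ⟨{(false, false, false)}, by rw [card_singleton]; norm_num, fun mu _ _ => ?_⟩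
          rw [mem_singleton, ← sumU_false (d := mu) (n := n)]
          refine sumU_congr fun i i1 i2 => ⟨?_, rfl⟩
          rw [hcode i i1 i2]
          show (if ps == 1 then _ else if ps == 2 then _ else false) = _
          rw [if_neg (by simpa using p1), if_neg (by simpa using p2)]
  · intro i h1 h2 hr
    rw [hcode i h1 (by omega)]
    exact rel_of hcat (by omega) hchN hn hN4 (fun _ => hl) o ps h1 h2 hr

end CLB.H95
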