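import Pool.Agent.Helper95_CLB.Base
import Pool.Agent.Helper95_CLB.Crit

/-!
States `(R, S)`, edge types D (`R` equal), F (`R` and `S` differ), N (`R` differs, `S` equal);
existence of valid states, minimality of the number of D edges and then of F edges, and the two
basic inequalities M1 and M2.
-/

set_option autoImplicit false
set_option linter.unusedSectionVars false

namespace CLB.H95

open Finset Classical

variable {V : Type*}

/-- A state: two 2-colourings of the vertices. -/
structure St (V : Type*) where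
  R : V → Bool
  S : V → Bool

/-- Edges of type D: `R` equal. -/
def isD (G : SimpleGraph V) (x : St V) (u v : V) : Prop := G.Adj u v ∧ x.R u = x.R v

/-- Edges of type F: `R` and `S` differ. -/
def isF (G : SimpleGraph V) (x : St V) (u v : V) : Prop :=
  G.Adj u v ∧ x.R u ≠ x.R v ∧ x.S u ≠ x.S v

/-- Edges of type N: `R` differs, `S` equal. -/
def isN (G : SimpleGraph V) (x : St V) (u v : V) : Prop :=
  G.Adj u v ∧ x.R u ≠ x.R v ∧ x.S u = x.S v

/-- Edges of type H: `R` differs. -/
def isH (G : SimpleGraph V) (x : St V) (u v : V) : Prop := G.Adj u v ∧ x.R u ≠ x.R v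

/-- A state is valid if `S` differs on the D edges. -/
def Valid (G : SimpleGraph V) (x : St V) : Prop :=
  ∀ u v, G.Adj u v → x.R u = x.R v → x.S u ≠ x.S v

section basic

variable {G : SimpleGraph V} {x : St V} {u v : V}

lemma isD.symm (h : isD G x u v) : isD G x v u := ⟨h.1.symm, h.2.symm⟩
lemma isF.symm (h : isF G x u v) : isF G x v u := ⟨h.1.symm, Ne.symm h.2.1, Ne.symm h.2.2⟩
lemma isN.symm (h : isN G x u v) : isN G x v u := ⟨h.1.symm, Ne.symm h.2.1, h.2.2.symm⟩
lemma isH.symm (h : isH G x u v) : isH G x v u := ⟨h.1.symm, Ne.symm h.2⟩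

lemma isH_iff : isH G x u v ↔ isF G x u v ∨ isN G x u v := by
  unfold isH isF isN; tauto

lemma adj_cases (h : G.Adj u v) : isD G x u v ∨ isF G x u v ∨ isN G x u v := by
  unfold isD isF isN; tauto

end basic

variable [Fintype V] [DecidableEq V] {G : SimpleGraph V}

lemma deg_H (x : St V) (u : V) : deg (isH G x) u = deg (isF G x) u + deg (isN G x) u := by
  unfold deg
  rw [← Finset.card_union_of_disjoint]
  · congr 1
    ext v
    simp only [mem_filter, mem_univ, true_and, mem_union, isH_iff]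
  · rw [Finset.disjoint_filter]
    rintro v _ h1 h2
    exact h1.2.2 h2.2.2

lemma deg_total (x : St V) (u : V) :
    deg G.Adj u = deg (isD G x) u + deg (isF G x) u + deg (isN G x) u := by
  rw [add_assoc, ← deg_H]
  unfold deg
  rw [← Finset.card_union_of_disjoint]
  · congr 1
    ext v
    simp only [mem_filter, mem_univ, true_and, mem_union]
    unfold isD isH; tauto
  · rw [Finset.disjoint_filter]
    rintro v _ h1 h2
    exact h2.2 h1.2

lemma bd_H (x : St V) (W : Finset V) :
    bd (isH G x) W = bd (isF G x) W + bd (isN G x) W := by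
  unfold bd
  rw [← Finset.sum_add_distrib]
  refine Finset.sum_congr rfl fun u _ => ?_
  rw [← Finset.card_union_of_disjoint]
  · congr 1
    ext v
    simp only [mem_filter, mem_univ, true_and, mem_union, isH_iff]
    tauto
  · rw [Finset.disjoint_filter]
    rintro v _ h1 h2
    exact h1.2.2.2 h2.2.2.2

/-- Flip a Boolean function on a set. -/
def flip (W : Finset V) (f : V → Bool) (v : V) : Bool := if v ∈ W then !(f v) else f v

lemma flip_eq_iff (W : Finset V) (f : V → Bool) (u v : V) :
    (flip W f u = flip W f v) ↔ ((u ∈ W ↔ v ∈ W) ↔ f u = f v) := by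
  unfold flip
  by_cases hu : u ∈ W <;> by_cases hv : v ∈ W <;> simp [hu, hv] <;>
    rcases f u <;> rcases f v <;> simp

/-- `R` minimises the number of uncut edges. -/
def MinD (G : SimpleGraph V) (x : St V) : Prop :=
  ∀ y : St V, cnt (isD G x) ≤ cnt (isD G y)

/-- Inequality M1. -/
lemma M1 {x : St V} (hx : MinD G x) (W : Finset V) : bd (isD G x) W ≤ bd (isH G x) W := by
  refine bd_le_of_cnt_le (T' := isD G ⟨flip W x.R, x.S⟩) (fun _ _ h => h.symm)
    (fun _ _ h => h.symm) W ?_ ?_ (hx _)
  · intro u v huv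
    unfold isD
    simp only [flip_eq_iff, huv, true_iff]
  · intro u v hu hv
    unfold isD isH
    simp only [flip_eq_iff, hu, hv]
    simp

lemma bd_singleton {T : V → V → Prop} {u : V} (h : ¬ T u u) : bd T {u} = deg T u := by
  unfold bd deg
  rw [Finset.sum_singleton]
  congr 1
  ext v
  simp only [mem_filter, mem_univ, true_and, mem_singleton]
  constructor
  · exact fun h' => h'.2
  · intro h'
    exact ⟨fun e => h (e ▸ h'), h'⟩

/-- In a state with the minimum number of D edges every vertex has at most one D edge. -/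
lemma degD_le {x : St V} (hx : MinD G x) (hG : ∀ v, deg G.Adj v ≤ 3) (u : V) :
    deg (isD G x) u ≤ 1 := by
  have h1 := M1 hx {u}
  rw [bd_singleton (fun h => G.loopless.irrefl _ h.1), bd_singleton (fun h => G.loopless.irrefl _ h.1),
    deg_H] at h1
  have h2 := deg_total (G := G) x u
  have h3 := hG u
  omega

lemma eq_of_deg_le_one {T : V → V → Prop} {u v w : V} (h : deg T u ≤ 1) (hv : T u v) (hw : T u w) :
    v = w := by
  unfold deg at h
  rw [Finset.card_le_one] at h
  exact h v (by simp [hv]) w (by simp [hw])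

/-- A minimal `R` extends to a valid state. -/
lemma exists_valid (hG : ∀ v, deg G.Adj v ≤ 3) (R : V → Bool)
    (hR : MinD G ⟨R, R⟩) : ∃ S : V → Bool, Valid G ⟨R, S⟩ := by
  obtain ⟨e⟩ : Nonempty (V ≃ Fin (Fintype.card V)) := ⟨Fintype.equivFin V⟩
  refine ⟨fun u => decide (∃ v, isD G ⟨R, R⟩ u v ∧ e u < e v), ?_⟩
  intro u v huv hR'
  have hR'' : R u = R v := hR'
  have huD : isD G ⟨R, R⟩ u v := ⟨huv, hR''⟩
  have hu1 := degD_le hR hG u
  have hv1 := degD_le hR hG v
  have key : (∃ w, isD G ⟨R, R⟩ u w ∧ e u < e w) ↔ ¬ (∃ w, isD G ⟨R, R⟩ v w ∧ e v < e w) := by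
    constructor
    · rintro ⟨w, hw, hlt⟩ ⟨w', hw', hlt'⟩
      have h1 := eq_of_deg_le_one hu1 hw huD
      have h2 := eq_of_deg_le_one hv1 hw' huD.symm
      subst h1; subst h2
      exact absurd hlt (not_lt.2 hlt'.le)
    · intro hn
      refine ⟨v, huD, ?_⟩
      by_contra hge
      push Not at hge
      have hne : e v ≠ e u := fun h => G.ne_of_adj huv (e.injective h).symm
      exact hn ⟨u, huD.symm, lt_of_le_of_ne hge hne⟩
  intro heq
  have heq' : decide (∃ w, isD G ⟨R, R⟩ u w ∧ e u < e w)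
      = decide (∃ w, isD G ⟨R, R⟩ v w ∧ e v < e w) := heq
  rw [decide_eq_decide] at heq'
  exact iff_not_self (heq'.symm.trans key)

/-- Valid states with the minimum number of D edges. -/
def StD (G : SimpleGraph V) (x : St V) : Prop := Valid G x ∧ MinD G x

lemma exists_StD (hG : ∀ v, deg G.Adj v ≤ 3) : ∃ x : St V, StD G x := by
  obtain ⟨R, _, hR⟩ := exists_min_of (fun _ : V → Bool => True) ⟨fun _ => true, trivial⟩
    (fun R => cnt (isD G ⟨R, R⟩))
  have hR' : MinD G ⟨R, R⟩ := fun y => hR y.R trivial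
  obtain ⟨S, hS⟩ := exists_valid hG R hR'
  exact ⟨⟨R, S⟩, hS, fun y => hR' y⟩

/-- A valid state with at most as many D edges as a minimal one is again minimal. -/
lemma StD.of_le {x y : St V} (hx : StD G x) (hy : Valid G y)
    (h : cnt (isD G y) ≤ cnt (isD G x)) : StD G y := ⟨hy, fun z => h.trans (hx.2 z)⟩

/-- Minimal number of D edges, then of F edges. -/
def StF (G : SimpleGraph V) (x : St V) : Prop :=
  StD G x ∧ ∀ y, StD G y → cnt (isF G x) ≤ cnt (isF G y)

lemma exists_StF (hG : ∀ v, deg G.Adj v ≤ 3) : ∃ x : St V, StF G x :=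
  exists_min_of (StD G) (exists_StD hG) _

lemma StF.of_le {x y : St V} (hx : StF G x) (hy : Valid G y)
    (hD : cnt (isD G y) ≤ cnt (isD G x)) (hF : cnt (isF G y) ≤ cnt (isF G x)) : StF G y :=
  ⟨hx.1.of_le hy hD, fun z hz => hF.trans (hx.2 z hz)⟩

/-- No D edge leaves `W`. -/
def DClosed (G : SimpleGraph V) (x : St V) (W : Finset V) : Prop :=
  ∀ u v, isD G x u v → (u ∈ W ↔ v ∈ W)

/-- Switch `S` on a set. -/
def swS (W : Finset V) (x : St V) : St V := ⟨x.R, flip W x.S⟩

lemma swS_isD (W : Finset V) (x : St V) (u v : V) : isD G (swS W x) u v ↔ isD G x u v := Iff.rfl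

lemma swS_valid {x : St V} (hx : Valid G x) {W : Finset V} (hW : DClosed G x W) :
    Valid G (swS W x) := by
  intro u v huv hR heq
  have h1 := hW u v ⟨huv, hR⟩
  have h2 := (flip_eq_iff W x.S u v).1 heq
  exact hx u v huv hR (h2.1 h1)

lemma swS_isF_in {W : Finset V} {x : St V} {u v : V} (h : u ∈ W ↔ v ∈ W) :
    isF G (swS W x) u v ↔ isF G x u v := by
  unfold isF swS
  simp only [ne_eq, flip_eq_iff, h, true_iff]

lemma swS_isN_in {W : Finset V} {x : St V} {u v : V} (h : u ∈ W ↔ v ∈ W) :
    isN G (swS W x) u v ↔ isN G x u v := by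
  unfold isN swS
  simp only [ne_eq, flip_eq_iff, h, true_iff]

lemma swS_isF_out {W : Finset V} {x : St V} {u v : V} (h : ¬ (u ∈ W ↔ v ∈ W)) :
    isF G (swS W x) u v ↔ isN G x u v := by
  unfold isF isN swS
  simp only [ne_eq, flip_eq_iff, h, false_iff, not_not]

lemma swS_isN_out {W : Finset V} {x : St V} {u v : V} (h : ¬ (u ∈ W ↔ v ∈ W)) :
    isN G (swS W x) u v ↔ isF G x u v := by
  unfold isF isN swS
  simp only [ne_eq, flip_eq_iff, h, false_iff]

lemma swS_cntF (W : Finset V) (x : St V) :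
    cnt (isF G (swS W x)) + 2 * bd (isF G x) W = cnt (isF G x) + 2 * bd (isN G x) W :=
  cnt_switch (fun _ _ h => h.symm) (fun _ _ h => h.symm) W
    (fun _ _ h => swS_isF_in h) (fun _ _ hu hv => swS_isF_out (by simp [hu, hv]))

/-- Inequality M2. -/
lemma M2 {x : St V} (hx : StF G x) {W : Finset V} (hW : DClosed G x W) :
    bd (isF G x) W ≤ bd (isN G x) W := by
  have h1 := hx.2 (swS W x) (hx.1.of_le (swS_valid hx.1.1 hW) le_rfl)
  have h2 := swS_cntF (G := G) W x
  omega

/-- A tie in M2 gives another minimal state. -/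
lemma StF.swS {x : St V} (hx : StF G x) {W : Finset V} (hW : DClosed G x W)
    (h : bd (isN G x) W ≤ bd (isF G x) W) : StF G (swS W x) := by
  refine hx.of_le (swS_valid hx.1.1 hW) le_rfl ?_
  have h2 := swS_cntF (G := G) W x
  omega

/-- Integer form of M2: slack of a set. -/
lemma M2_slack {x : St V} (hx : StF G x) {W : Finset V} (hW : DClosed G x W) :
    0 ≤ ∑ u ∈ W, ((deg (isN G x) u : ℤ) - deg (isF G x) u)
      - ((inn (isN G x) W : ℤ) - inn (isF G x) W) := by
  rw [← bd_sub]
  have := M2 hx hW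
  omega

/-- General moves: a state with the same `R`-`S` values outside `C`. -/
lemma cntD_local {x y : St V} (C : Finset V) (hR : ∀ v, v ∉ C → y.R v = x.R v) :
    cnt (isD G y) + 2 * ∑ u ∈ C, deg (isD G x) u + inn (isD G y) C
      = cnt (isD G x) + 2 * ∑ u ∈ C, deg (isD G y) u + inn (isD G x) C := by
  refine cnt_local (fun _ _ h => h.symm) (fun _ _ h => h.symm) C ?_
  intro u v hu hv
  unfold isD
  rw [hR u hu, hR v hv]

lemma cntF_local {x y : St V} (C : Finset V) (hR : ∀ v, v ∉ C → y.R v = x.R v)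
    (hS : ∀ v, v ∉ C → y.S v = x.S v) :
    cnt (isF G y) + 2 * ∑ u ∈ C, deg (isF G x) u + inn (isF G y) C
      = cnt (isF G x) + 2 * ∑ u ∈ C, deg (isF G y) u + inn (isF G x) C := by
  refine cnt_local (fun _ _ h => h.symm) (fun _ _ h => h.symm) C ?_
  intro u v hu hv
  unfold isF
  rw [hR u hu, hR v hv, hS u hu, hS v hv]

end CLB.H95
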