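import Pool.Agent.Helper95_CLB.Lists

/-!
The inequality (PM) for edge-minimal subgraphs of a graph with an optimal cut.
-/

set_option autoImplicit false
set_option linter.unusedSectionVars false

namespace CLB.H95

open Finset Classical
open H3DA (Q neg nr)
open CLB.H3 (he_of_unc cov_nbr deg_two deg_three)

variable {V : Type*} {G H : SimpleGraph V} {R : V → Bool}

lemma Me.mono (h : H ≤ G) {u v : V} (h1 : Me H R u v) : Me G R u v := ⟨h h1.1, h1.2⟩
lemma He.mono (h : H ≤ G) {u v : V} (h1 : He H R u v) : He G R u v := ⟨h h1.1, h1.2⟩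
lemma Cov.mono (h : H ≤ G) {u : V} (h1 : Cov H R u) : Cov G R u := by
  obtain ⟨v, hv⟩ := h1
  exact ⟨v, hv.mono h⟩
lemma Lk.mono (h : H ≤ G) {u v : V} (h1 : Lk H R u v) : Lk G R u v :=
  ⟨h1.1.mono h, h1.2.1.mono h, h1.2.2.mono h⟩

variable [Fintype V]

/-- An uncovered vertex of an edge-minimal subgraph which is not isolated is uncovered in the whole
graph. -/
theorem unc_big (hle : H ≤ G) (hG : ClassC G R) (hc : Crit H R) {z p : V} (hz : ¬ Cov H R z)
    (hzp : H.Adj z p) : ¬ Cov G R z := by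
  rintro ⟨c, hc'⟩
  have hH := hG.mono hle
  obtain ⟨a, ha, hca⟩ := cov_nbr hH hc hz hzp
  obtain ⟨b, hb, hba⟩ := deg_two hH hc hz ha
  have hac : a ≠ c := by
    rintro rfl
    exact hz ⟨a, ha, hc'.2⟩
  have hbc : b ≠ c := by
    rintro rfl
    exact hz ⟨b, hb, hc'.2⟩
  have hlk : Lk G R z a := ⟨(he_of_unc hz ha).mono hle, ⟨c, hc'⟩, hca.mono hle⟩
  have hbG : ¬ Cov G R b := by
    intro h
    have : Lk G R z b := ⟨(he_of_unc hz hb).mono hle, ⟨c, hc'⟩, h⟩
    exact hba (Lk.unique hG this hlk)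
  have hbH : ¬ Cov H R b := fun h => hbG (h.mono hle)
  obtain ⟨p1, p2, h1, h2, h3, h4, h5, h6, -⟩ := deg_three hH hc hz hb hbH
  -- c is one of p1, p2
  have h7 : ∀ w, H.Adj z w → w ≠ c := by
    rintro w hw rfl
    exact hz ⟨w, hw, hc'.2⟩
  have h8 := hG.third (hle hb) (hle h1) (hle h2) (Ne.symm h4) (Ne.symm h5) h6 hc'.1
  rcases h8 with h | h | h
  · exact hbc h.symm
  · exact h7 p1 h1 h.symm
  · exact h7 p2 h2 h.symm

/-- A covered vertex with two uncovered neighbours in the subgraph is not linked in the whole graph. -/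
lemma not_lkd (hle : H ≤ G) (hG : ClassC G R) (hc : Crit H R) {v : V} (hv : Cov H R v)
    (h2 : 1 < (prt H R v).card) : ¬ Lkd G R v := by
  rintro ⟨r, hr⟩
  obtain ⟨w, hw⟩ := hv
  obtain ⟨z1, hz1, z2, hz2, hz12⟩ := Finset.one_lt_card.1 h2
  rw [mem_prt] at hz1 hz2
  have u1 := unc_big hle hG hc hz1.2 hz1.1.symm
  have u2 := unc_big hle hG hc hz2.2 hz2.1.symm
  have hwG := hw.mono hle
  have n1 : z1 ≠ w := fun h => u1 (h ▸ hwG.cov')
  have n2 : z2 ≠ w := fun h => u2 (h ▸ hwG.cov')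
  rcases hG.third (hle hz1.1) (hle hz2.1) hwG.1 hz12 n1 n2 hr.1.1 with h | h | h
  · exact u1 (h ▸ hr.2.2)
  · exact u2 (h ▸ hr.2.2)
  · subst h; exact hr.1.2 hwG.2

lemma hcv_mono (hle : H ≤ G) (u a : V) : hcv H R u a ≤ hcv G R u a := by
  unfold hcv
  refine Finset.card_le_card fun r hr => ?_
  rw [mem_filter] at hr ⊢
  exact ⟨hr.1, hle hr.2.1, hr.2.2.1, hr.2.2.2.mono hle⟩

/-- (PM) for edge-minimal subgraphs. -/
theorem pm_sub (hR : Opt G R) (hG : ClassC G R) (hle : H ≤ G) (hc : Crit H R) {a b a' b' u v : V}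
    (hab : He H R a b) (ha : Me H R a a') (hb : Me H R b b') (hu : u ∈ prt H R a)
    (hv : v ∈ prt H R b) :
    hcv H R u a + hcv H R v b + (if H.Adj u v then 1 else 0) + (if Lk H R a' b' then 1 else 0)
      ≤ (if (prt H R a').card ≤ 1 then 1 else 0) + (if (prt H R b').card ≤ 1 then 1 else 0) := by
  rw [mem_prt] at hu hv
  have hu' := (he_of_unc hu.2 hu.1.symm).symm
  have hv' := (he_of_unc hv.2 hv.1.symm).symm
  have hub : u ≠ b := fun h => hu.2 (h ▸ hb.cov)
  have hva : v ≠ a := fun h => hv.2 (h ▸ ha.cov)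
  have h1 := hR.pm hG (hab.mono hle) (ha.mono hle) (hb.mono hle) (hu'.mono hle) hub (hv'.mono hle) hva
  have h2 := hcv_mono (R := R) hle u a
  have h3 := hcv_mono (R := R) hle v b
  have h4 : (if H.Adj u v then 1 else 0) ≤ (if G.Adj u v then 1 else 0) := by
    by_cases h : H.Adj u v
    · rw [if_pos h, if_pos (hle h)]
    · rw [if_neg h]; exact Nat.zero_le _
  have h5 : (if Lk H R a' b' then 1 else 0) ≤ (if Lk G R a' b' then 1 else 0) := by
    by_cases h : Lk H R a' b'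
    · rw [if_pos h, if_pos (h.mono hle)]
    · rw [if_neg h]; exact Nat.zero_le _
  have h6 : (if Lkd G R a' then 1 else 0) ≤ (if (prt H R a').card ≤ 1 then 1 else 0) := by
    by_cases h : (prt H R a').card ≤ 1
    · rw [if_pos h]; split_ifs <;> omega
    · rw [if_neg h, if_neg (not_lkd hle hG hc ha.cov' (by omega))]
  have h7 : (if Lkd G R b' then 1 else 0) ≤ (if (prt H R b').card ≤ 1 then 1 else 0) := by
    by_cases h : (prt H R b').card ≤ 1
    · rw [if_pos h]; split_ifs <;> omega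
    · rw [if_neg h, if_neg (not_lkd hle hG hc hb.cov' (by omega))]
  omega

/-- Another covered neighbour makes `hcv` positive. -/
lemma hcv_pos {u a r : V} (h1 : H.Adj u r) (h2 : r ≠ a) (h3 : Cov H R r) : 1 ≤ hcv H R u a := by
  unfold hcv
  exact Finset.card_pos.2 ⟨r, by simp [h1, h2, h3]⟩

end CLB.H95
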