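import Pool.Agent.Helper95_CLB.WinK

/-!
Tight labels of a caterpillar when few ports change: no change at a single unit, the sum of the fork
labels, two types.
-/

set_option autoImplicit false
set_option linter.unusedSectionVars false

namespace CLB.H95

open H3DA (Q neg nr)

lemma stp_pin : ∀ (D : Ty) (a b b' e : Q), stp D a b = true → stp D a b' = true →
    stp (co D) (neg b) e = true → stp (co D) (neg b') e = true → b = b' := by decide +kernel

/-- The sum of the two labels of a fork. -/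
def wD (D : Ty) : Q := add (uD D) (vD D)

lemma leafL_eq (D : Ty) (x : Q) : leafL D x = add x (wD D) := rfl

lemma frk_add : ∀ (D : Ty) (x y : Q), frk D x y = true → add x y = wD D := by decide

lemma add_assoc' : ∀ x y z : Q, add (add x y) z = add x (add y z) := by decide +kernel
lemma add_self' : ∀ x : Q, add x x = (false, false, false) := by decide
lemma add_zero' : ∀ x : Q, add x (false, false, false) = x := by decide
lemma zero_add' : ∀ x : Q, add (false, false, false) x = x := by decide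
lemma add_eq_zero' : ∀ x y : Q, add x y = (false, false, false) → x = y := by decide
lemma wD_co : ∀ D : Ty, add (wD D) (wD (co D)) = (true, true, true) := by decide
lemma wD_inj : ∀ D D' : Ty, wD D = wD D' → D = D' := by decide
lemma neg_eq_add : ∀ x : Q, neg x = add x (true, true, true) := by decide

/-- One side. -/
lemma tight_one_aux {m : ℕ} (hm : 2 ≤ m) {D D' : Ty} {s s' : ℕ → Q} (hT : Tight D s m)
    (hT' : Tight D' s' m) {P : ℕ → Prop} (hP : ∀ j ≤ m + 1, ¬ P j → s j = s' j)
    (hne : ∀ j ≤ m + 1, P j → s j ≠ s' j) (hex : ∃ j ≤ m + 1, P j) (h01 : ¬ (P 0 ∧ P 1))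
    (h2 : ¬ P m) (h3 : ¬ P (m + 1)) (hadj : ∀ j, 1 ≤ j → j < m → ¬ (P j ∧ P (j + 1))) : False := by
  have e1 := hP m (by omega) h2
  have e2 := hP (m + 1) le_rfl h3
  have hDD : D = D' := by
    have a1 := hT.2.2
    have a2 := hT'.2.2
    rw [← e1, ← e2] at a2
    exact altT_inj (frk_unique _ _ _ _ a1 a2)
  subst hDD
  have f1 := hT.1
  have f2 := hT'.1
  by_cases p0 : P 0
  · have e3 := hP 1 (by omega) (fun h => h01 ⟨p0, h⟩)
    rw [frk_iff'] at f1 f2
    exact hne 0 (by omega) p0 (by rw [f1, f2, e3])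
  by_cases p1 : P 1
  · have e3 := hP 0 (by omega) p0
    rw [frk_iff] at f1 f2
    exact hne 1 (by omega) p1 (by rw [f1, f2, e3])
  obtain ⟨j, hj, hpj⟩ := hex
  have j0 : j ≠ 0 := fun h => p0 (h ▸ hpj)
  have j1 : j ≠ 1 := fun h => p1 (h ▸ hpj)
  have j2 : j ≠ m := fun h => h2 (h ▸ hpj)
  have j3 : j ≠ m + 1 := fun h => h3 (h ▸ hpj)
  have q1 : ¬ P (j - 1) := fun h => hadj (j - 1) (by omega) (by omega)
    ⟨h, by rwa [show j - 1 + 1 = j by omega]⟩
  have q2 : ¬ P (j + 1) := fun h => hadj j (by omega) (by omega) ⟨hpj, h⟩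
  have e3 := hP (j - 1) (by omega) q1
  have e4 := hP (j + 1) (by omega) q2
  have t1 := hT.2.1 (j - 1) (by omega) (by omega)
  have t2 := hT'.2.1 (j - 1) (by omega) (by omega)
  have t3 := hT.2.1 j (by omega) (by omega)
  have t4 := hT'.2.1 j (by omega) (by omega)
  rw [show j - 1 + 1 = j by omega] at t1 t2
  have ea : altT D j = co (altT D (j - 1)) := by
    have := altT_succ D (j - 1)
    rwa [show j - 1 + 1 = j by omega] at this
  rw [← e3] at t2
  rw [ea] at t3 t4
  rw [← e4] at t4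
  exact hne j hj hpj (stp_pin _ _ _ _ _ t1 t2 t3 t4)

/-- **(U)**: tight labels do not stay tight if the ports of one unit change. -/
theorem tight_one {m : ℕ} (hm : 2 ≤ m) {D D' : Ty} {s s' : ℕ → Q} (hT : Tight D s m)
    (hT' : Tight D' s' m) {P : ℕ → Prop} (hP : ∀ j ≤ m + 1, ¬ P j → s j = s' j)
    (hne : ∀ j ≤ m + 1, P j → s j ≠ s' j) (hex : ∃ j ≤ m + 1, P j) (h01 : ¬ (P 0 ∧ P 1))
    (hmm : ¬ (P m ∧ P (m + 1))) (hLL : ¬ ((P 0 ∨ P 1) ∧ (P m ∨ P (m + 1))))
    (hadj : ∀ j, 1 ≤ j → j < m → ¬ (P j ∧ P (j + 1))) : False := by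
  by_cases h : P m ∨ P (m + 1)
  · have h0 : ¬ P 0 := fun h' => hLL ⟨Or.inl h', h⟩
    have h1 : ¬ P 1 := fun h' => hLL ⟨Or.inr h', h⟩
    refine tight_one_aux hm hT.rev hT'.rev (P := fun j => P (m + 1 - j)) (fun j hj hp => ?_)
      (fun j hj hp => ?_) ?_ ?_ ?_ ?_ (fun j j1 j2 hp => ?_)
    · exact hP _ (by omega) hp
    · exact hne _ (by omega) hp
    · obtain ⟨j, hj, hp⟩ := hex
      exact ⟨m + 1 - j, by omega, by rwa [show m + 1 - (m + 1 - j) = j by omega]⟩
    · rintro ⟨a, b⟩
      apply hmm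
      simp only [Nat.sub_zero] at a
      rw [show m + 1 - 1 = m by omega] at b
      exact ⟨b, a⟩
    · rw [show m + 1 - m = 1 by omega]; exact h1
    · rw [show m + 1 - (m + 1) = 0 by omega]; exact h0
    · refine hadj (m + 1 - (j + 1)) (by omega) (by omega) ⟨hp.2, ?_⟩
      rw [show m + 1 - (j + 1) + 1 = m + 1 - j by omega]
      exact hp.1
  · exact tight_one_aux hm hT hT' hP hne hex h01 (fun h' => h (Or.inl h')) (fun h' => h (Or.inr h')) hadj

/-- **(PHI)**: the sum of the four fork labels is fixed. -/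
theorem tight_phi {m : ℕ} {D D' : Ty} {s s' : ℕ → Q} (hT : Tight D s m) (hT' : Tight D' s' m) :
    add (add (s 0) (s 1)) (add (s m) (s (m + 1))) = add (add (s' 0) (s' 1)) (add (s' m) (s' (m + 1))) := by
  rw [frk_add _ _ _ hT.1, frk_add _ _ _ hT'.1, frk_add _ _ _ hT.2.2, frk_add _ _ _ hT'.2.2]
  unfold altT
  split_ifs
  · rw [add_self', add_self']
  · rw [wD_co, wD_co]

/-- The step at the left end for both ports of the fork. -/
lemma stp_frk' : ∀ (D : Ty) (x y z : Q), frk D x y = true → stp D (neg y) z = true →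
    stp D (neg x) z = true := by decide +kernel

lemma stp_frk'' : ∀ (D : Ty) (x y z : Q), stp D x y = true → frk D y z = true →
    stp D x z = true := by decide +kernel

/-- The port `a` is at the left end of the step `i`, `b` at its right end. -/
def StepAt (m i a b : ℕ) : Prop :=
  1 ≤ i ∧ i < m ∧ (a = i ∨ (i = 1 ∧ a = 0)) ∧ (b = i + 1 ∨ (i + 1 = m ∧ b = m + 1))

lemma tight_step' {m : ℕ} {D : Ty} {s : ℕ → Q} (hT : Tight D s m) {i a b : ℕ}
    (h : StepAt m i a b) : stp (altT D i) (neg (s a)) (s b) = true := by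
  obtain ⟨h1, h2, h3, h4⟩ := h
  have t := hT.2.1 i h1 h2
  have ta : ∀ y : Q, stp (altT D i) (neg (s i)) y = true → stp (altT D i) (neg (s a)) y = true := by
    intro y hy
    rcases h3 with rfl | ⟨rfl, rfl⟩
    · exact hy
    · rw [altT_one] at hy ⊢
      exact stp_frk' _ _ _ _ hT.1 hy
  rcases h4 with rfl | ⟨h4, rfl⟩
  · exact ta _ t
  · apply ta
    have e : altT D (m + 1) = altT D i := by
      rw [show m + 1 = i + 1 + 1 by omega, altT_succ, altT_succ, co_co]
    have t2 := hT.2.2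
    rw [e] at t2
    rw [h4] at t
    exact stp_frk'' _ _ _ _ t t2

/-- Labels of the types with given steps. -/
def twoT (x y x' y' : Q) : Finset Q :=
  (Finset.univ.filter (fun D : Ty => stp D x y = true ∧ stp (co D) x' y' = true)).image wD

lemma twoT_card : ∀ x y x' y' : Q, (twoT x y x' y').card ≤ 2 := by decide +kernel

/-- **Two types.** A step of odd and a step of even index are fixed: the fork sum has two values. -/
theorem tight_psi {m : ℕ} {s₀ : ℕ → Q} {i a b i' a' b' : ℕ} (h : StepAt m i a b) (hi : i % 2 = 1)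
    (h' : StepAt m i' a' b') (hi' : i' % 2 = 0) :
    ∃ S : Finset Q, S.card ≤ 2 ∧ ∀ (s : ℕ → Q) (D : Ty), Tight D s m → s a = s₀ a → s b = s₀ b →
      s a' = s₀ a' → s b' = s₀ b' → add (s 0) (s 1) ∈ S := by
  refine ⟨twoT (neg (s₀ a)) (s₀ b) (neg (s₀ a')) (s₀ b'), twoT_card _ _ _ _,
    fun s D hT e1 e2 e3 e4 => ?_⟩
  have t1 := tight_step' hT h
  have t2 := tight_step' hT h'
  rw [e1, e2] at t1
  rw [e3, e4] at t2
  unfold altT at t1 t2
  rw [if_pos hi] at t1
  rw [if_neg (by omega)] at t2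
  unfold twoT
  rw [Finset.mem_image]
  exact ⟨D, by simp only [Finset.mem_filter, Finset.mem_univ, true_and]; exact ⟨t1, t2⟩,
    (frk_add _ _ _ hT.1).symm⟩

end CLB.H95
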