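import Pool.Agent.Helper95_CLB.WinT

/-!
The base theorem of windows: any budgets on the port edges, one extra condition on the labels.
-/

set_option autoImplicit false
set_option linter.unusedSectionVars false

namespace CLB.H95

open H3DA (Q neg nr)
open Finset Classical
open CLB.H3 (CExt Cat IsTwo Fits UPath he_of_unc cat_structure chn_side KTight exists_ktight no_cext
  Leaf cext_or)

variable {V : Type*} {G : SimpleGraph V} {R : V → Bool} [Fintype V] {k r : ℕ} {x y X Y : ℕ → V}
  {m : ℕ} {z c : ℕ → V} {f : V → Q}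

/-- Static forbidden sets of a component within a budget, with relations and an extra condition. -/
structure XKill (G : SimpleGraph V) (R : V → Bool) (r : ℕ) (X Y : ℕ → V) (f : V → Q) (o : Bool)
    (bd : V → V → ℕ) (E : (V → Q) → Prop) (S : Set V) (φ : V → V → Finset Q) : Prop where
  bd : ∀ v w, (φ v w).card ≤ bd v w
  late : ∀ w ∈ S, ∀ v b, G.Adj w v → G.Adj w b → v ≠ b → InC r X Y v → InC r X Y b →
    ltO o (idx r X Y b) (idx r X Y v) → φ v w = ∅
  ok : ∀ f' : V → Q, (∀ v, Cov G R v → ¬ InC r X Y v → f' v = f v) →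
    (∀ w ∈ S, ∀ v, G.Adj v w → InC r X Y v → f' v ∉ φ v w) →
    (∀ w ∈ S, ∀ a b, G.Adj w a → G.Adj w b → a ≠ b → InC r X Y a → InC r X Y b →
      f' a ≠ neg (f' b)) →
    E f' → ∃ g, Fits G R f' g S

lemma RKill.toE {o : Bool} {S : Set V} {P : Q × Q} {φ : V → V → Finset Q}
    (h : RKill G R r X Y f o S False P φ) (E : (V → Q) → Prop) :
    XKill G R r X Y f o (fun _ _ => 2) E S φ :=
  ⟨h.two, h.late, fun f' h1 h2 h3 _ => h.ok f' h1 h2 h3 (fun h => h.elim)⟩

theorem win_gen (hG : ClassC G R) (hc : Crit G R) (hcat : Cat G R m z c) (h : Chn G R r X Y)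
    (hcyc : ¬ Lk G R (Y r) (X 1)) (hf : OffC G R r X Y f) (o : Bool) {bd : V → V → ℕ}
    {E : (V → Q) → Prop} (hbd : ∀ v w b, IsTwo G R w v b → 1 ≤ bd v w)
    (hk : ∀ m' z' c', Cat G R m' z' c' → cSupp m' z' ≠ cSupp m z → (∃ j ≤ m' + 1, InC r X Y (c' j)) →
      ∃ φ, XKill G R r X Y f o bd E (cSupp m' z') φ) :
    ∃ Φ : V → V → Finset Q, (∀ v w, (Φ v w).card ≤ bd v w) ∧
      (∀ v w, w ∈ cSupp m z → Φ v w = ∅) ∧
      (∀ v w b, ¬ Cov G R w → G.Adj w v → G.Adj w b → v ≠ b → InC r X Y v → InC r X Y b →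
        ltO o (idx r X Y b) (idx r X Y v) → Φ v w = ∅) ∧
      ∀ mu, Nwk r mu → (∀ i, 1 ≤ i → i ≤ r → mu i ∈ wall G R r X Y f i) →
        (∀ v w, InC r X Y v → w ∈ prt G R v → lbl r X Y mu f v ∉ Φ v w) →
        (∀ w a b, ¬ Cov G R w → G.Adj w a → G.Adj w b → a ≠ b → InC r X Y a → InC r X Y b →
          lbl r X Y mu f a ≠ neg (lbl r X Y mu f b)) →
        E (lbl r X Y mu f) → ¬ CExt m (fun j => lbl r X Y mu f (c j)) := by
  have hsel : ∀ S : Set V, ∃ (φ : V → V → Finset Q), (∀ v w, (φ v w).card ≤ bd v w) ∧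
      (∀ w ∈ S, ∀ v b, G.Adj w v → G.Adj w b → v ≠ b → InC r X Y v → InC r X Y b →
        ltO o (idx r X Y b) (idx r X Y v) → φ v w = ∅) ∧
      ((∃ φ, XKill G R r X Y f o bd E S φ) → XKill G R r X Y f o bd E S φ) := by
    intro S
    by_cases hS : ∃ φ, XKill G R r X Y f o bd E S φ
    · obtain ⟨φ, hφ⟩ := hS
      exact ⟨φ, hφ.bd, hφ.late, fun _ => hφ⟩
    · exact ⟨fun _ _ => ∅, by simp, fun _ _ _ _ _ _ _ _ _ _ => rfl, fun h' => absurd h' hS⟩
  choose φ hφ2 hφl hφ using hsel
  let sup : V → Set V := fun v => {w | ∃ m z c, Cat G R m z c ∧ v ∈ cSupp m z ∧ w ∈ cSupp m z}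
  have hsup : ∀ {m : ℕ} {z c : ℕ → V}, Cat G R m z c → ∀ v ∈ cSupp m z, sup v = cSupp m z := by
    intro m z c h v hv
    ext w
    constructor
    · rintro ⟨m', z', c', h', hv', hw'⟩
      rw [← cSupp_eq h' h hv' hv]; exact hw'
    · intro hw
      exact ⟨m, z, c, h, hv, hw⟩
  let ψ : Set V → V → V → Finset Q := fun S v w => if w ∈ S then φ S v w else ∅
  have hψ1 : ∀ S v w, w ∈ S → ψ S v w = φ S v w := fun S v w hw => by simp only [ψ, if_pos hw]
  have hψ0 : ∀ S v w, w ∉ S → ψ S v w = ∅ := fun S v w hw => by simp only [ψ, if_neg hw]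
  let tw : V → V → Finset Q := fun v w => univ.filter (fun t => ∃ b, IsTwo G R w v b ∧
    ¬ InC r X Y b ∧ t = neg (f b))
  have htw : ∀ v w, (tw v w).card ≤ bd v w := by
    intro v w
    by_cases hex : ∃ b, IsTwo G R w v b
    · obtain ⟨b, hb⟩ := hex
      have : tw v w ⊆ {neg (f b)} := by
        intro t ht
        simp only [tw, mem_filter, mem_univ, true_and] at ht
        obtain ⟨b', hb1, -, rfl⟩ := ht
        rw [mem_singleton]
        rcases hb.2.2.2.2.2.2 b' hb1.2.2.1 with h' | h'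
        · exact absurd h'.symm hb1.2.2.2.1
        · rw [h']
      refine (Finset.card_le_card this).trans ?_
      have := hbd v w b hb
      simpa using this
    · have : tw v w = ∅ := by
        rw [Finset.eq_empty_iff_forall_notMem]
        intro t ht
        simp only [tw, mem_filter, mem_univ, true_and] at ht
        obtain ⟨b', hb1, -⟩ := ht
        exact hex ⟨b', hb1⟩
      rw [this]; simp
  refine ⟨fun v w => if w ∈ cSupp m z then ∅ else if ∃ a b, IsTwo G R w a b then tw v w
    else ψ (sup w) v w, ?_, ?_, ?_, ?_⟩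
  · intro v w
    dsimp only
    split_ifs
    · simp
    · exact htw v w
    · by_cases hw : w ∈ sup w
      · rw [hψ1 _ _ _ hw]; exact hφ2 _ v w
      · rw [hψ0 _ _ _ hw]; simp
  · intro v w hw
    dsimp only
    rw [if_pos hw]
  · intro v w b hw hv hb hvb hin hin' hlt
    dsimp only
    split_ifs with h1 h2
    · rfl
    · rw [Finset.eq_empty_iff_forall_notMem]
      intro t ht
      simp only [tw, mem_filter, mem_univ, true_and] at ht
      obtain ⟨b', hb1, hb2, -⟩ := ht
      exact hb2 (isTwo_other hb1 hb (Ne.symm hvb) ▸ hin')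
    · by_cases h3 : w ∈ sup w
      · rw [hψ1 _ _ _ h3]; exact hφl _ w h3 v b hv hb hvb hin hin' hlt
      · exact hψ0 _ _ _ h3
  · intro mu hmu hwl hav hrel hE
    have hrp := h.pos
    refine win_contra hG hc hcat h hcyc hf hmu ?_ ?_ ?_ ?_
    · intro v hv
      have := hwl 1 le_rfl hrp
      unfold wall at this
      rw [mem_inter, mem_filter, mem_filter] at this
      exact this.1.2 rfl v hv
    · intro v hv
      have := hwl r hrp le_rfl
      unfold wall at this
      rw [mem_inter, mem_filter, mem_filter] at this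
      exact this.2.2 rfl v hv
    · intro w a b hT ha he
      by_cases hb : InC r X Y b
      · exact hrel w a b hT.1 hT.2.1 hT.2.2.1 hT.2.2.2.1 ha hb he
      · have h2 : ∃ a b, IsTwo G R w a b := ⟨a, b, hT⟩
        have := hav a w ha (by rw [mem_prt]; exact ⟨hT.2.1.symm, hT.1⟩)
        have hwK : w ∉ cSupp m z := by
          rintro ⟨i, i1, i2, rfl⟩
          exact isTwo_not_cat hcat i1 i2 hT
        dsimp only at this
        rw [if_neg hwK, if_pos h2] at this
        apply this
        simp only [tw, mem_filter, mem_univ, true_and]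
        exact ⟨b, hT, hb, by rw [he, lbl_out hb]⟩
    · intro m' z' c' hC' hex hne
      have hK : XKill G R r X Y f o bd E (cSupp m' z') (φ (cSupp m' z')) :=
        hφ _ (hk m' z' c' hC' hne hex)
      rw [cext_iff_fits hC']
      refine hK.ok _ (fun v _ hv => lbl_out hv) (fun w hw v hv hin => ?_) (fun w hw a b ha hb hab
        hia hib => ?_) hE
      · have hw' := hw
        obtain ⟨i, h1, h2, rfl⟩ := hw
        have := hav v (z' i) hin (by rw [mem_prt]; exact ⟨hv, hC'.unc i h1 h2⟩)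
        have hno : ¬ ∃ a b, IsTwo G R (z' i) a b := fun ⟨a, b, hT⟩ => isTwo_not_cat hC' h1 h2 hT
        have hwK : z' i ∉ cSupp m z := fun hi => hne (cSupp_eq hC' hcat hw' hi)
        dsimp only at this
        rw [if_neg hwK, if_neg hno, hsup hC' (z' i) hw', hψ1 _ _ _ hw'] at this
        exact this
      · obtain ⟨i, h1, h2, rfl⟩ := hw
        exact hrel _ a b (hC'.unc i h1 h2) ha hb hab hia hib

/-- The base data of a window. -/
structure WB (G : SimpleGraph V) (R : V → Bool) (r : ℕ) (X Y : ℕ → V) (m : ℕ) (z c : ℕ → V)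
    (f : V → Q) (D : Ty) : Prop where
  hG : ClassC G R
  hc : Crit G R
  cat : Cat G R m z c
  hm : 2 ≤ m
  ch : Chn G R r X Y
  ncyc : ¬ Lk G R (Y r) (X 1)
  off : OffC G R r X Y f
  tight : Tight D (fun j => f (c j)) m
  mt : ∀ i, 1 ≤ i → i ≤ r → f (Y i) = neg (f (X i))

/-- The charge of a vertex. -/
noncomputable def chb (G : SimpleGraph V) (R : V → Bool) (r : ℕ) (X Y : ℕ → V) (m : ℕ) (z : ℕ → V)
    (o : Bool) (bd : V → V → ℕ) (v : V) : ℕ :=
  ∑ w ∈ (prt G R v).filter (fun w => w ∉ cSupp m z ∧ ¬ LateAt G R r X Y o v w), bd v w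

lemma cst_le_chb {Φ : V → V → Finset Q} {o : Bool} {bd : V → V → ℕ}
    (h2 : ∀ v w, (Φ v w).card ≤ bd v w)
    (h0 : ∀ v w, w ∈ cSupp m z → Φ v w = ∅)
    (h3 : ∀ v w, LateAt G R r X Y o v w → Φ v w = ∅) (v : V) :
    cst G R Φ v ≤ chb G R r X Y m z o bd v := by
  unfold cst chb
  rw [← Finset.sum_filter_add_sum_filter_not (prt G R v)
    (fun w => w ∉ cSupp m z ∧ ¬ LateAt G R r X Y o v w)]
  have e1 : ∑ w ∈ (prt G R v).filter (fun w => ¬ (w ∉ cSupp m z ∧ ¬ LateAt G R r X Y o v w)),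
      (Φ v w).card = 0 := by
    refine Finset.sum_eq_zero fun w hw => ?_
    rw [mem_filter, not_and_or, not_not, not_not] at hw
    rcases hw.2 with h | h
    · rw [h0 v w h]; simp
    · rw [h3 v w h]; simp
  rw [e1, Nat.add_zero]
  exact Finset.sum_le_sum fun w _ => h2 v w

lemma chb_two (o : Bool) (v : V) :
    chb G R r X Y m z o (fun _ _ => 2) v = 2 * chg G R r X Y m z o v := by
  unfold chb chg
  rw [Finset.sum_const, smul_eq_mul, mul_comm]

/-- **The base theorem.** -/
theorem WB.base {D : Ty} (w : WB G R r X Y m z c f D) (o : Bool) {bd : V → V → ℕ}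
    {E : (V → Q) → Prop} (hbd : ∀ v w b, IsTwo G R w v b → 1 ≤ bd v w)
    (hk : ∀ m' z' c', Cat G R m' z' c' → cSupp m' z' ≠ cSupp m z → (∃ j ≤ m' + 1, InC r X Y (c' j)) →
      ∃ φ, XKill G R r X Y f o bd E (cSupp m' z') φ) :
    ∃ Φ : V → V → Finset Q, (∀ v, cst G R Φ v ≤ chb G R r X Y m z o bd v) ∧
      ∀ mu, Nwk r mu → (∀ i, 1 ≤ i → i ≤ r → mu i ∈ wls G R r X Y m c f Φ i) →
        (∀ w a b, ¬ Cov G R w → G.Adj w a → G.Adj w b → a ≠ b → InC r X Y a → InC r X Y b →
          lbl r X Y mu f a ≠ neg (lbl r X Y mu f b)) →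
        E (lbl r X Y mu f) → ∃ D', Tight D' (fun j => lbl r X Y mu f (c j)) m := by
  obtain ⟨Φ, p2, p0, pl, pK⟩ := win_gen w.hG w.hc w.cat w.ch w.ncyc w.off o hbd hk
  refine ⟨Φ, ?_, ?_⟩
  · refine cst_le_chb p2 p0 (fun v w' h => ?_)
    obtain ⟨b, b1, b2, b3, b4, b5, b6, b7⟩ := h
    exact pl v w' b b1 b2 b3 b4 b5 b6 b7
  · intro mu hnw hmem hok hE
    have hno := pK mu hnw (fun i h1 h2 => (mem_inter.1 (mem_sdiff.1 (hmem i h1 h2)).1).1) ?_ hok hE
    · have a0 : G.Adj (z 1) (c 0) := w.cat.adj0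
      have a1 : G.Adj (z 1) (c 1) := w.cat.adjc 1 le_rfl (by have := w.hm; omega)
      have am : G.Adj (z m) (c m) := w.cat.adjc m (by have := w.hm; omega) le_rfl
      have am1 : G.Adj (z m) (c (m + 1)) := w.cat.adjm
      have u1 := w.cat.unc 1 le_rfl (by have := w.hm; omega)
      have um := w.cat.unc m (by have := w.hm; omega) le_rfl
      have f0 := (frk_ne _ _ _ w.tight.1).2
      have fm := (frk_ne _ _ _ w.tight.2.2).2
      have nc : ∀ a b, (∀ i, co1 r X Y f i (c a) (c b) ⊆ coF r X Y m c f i) → InC r X Y (c a) →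
          ¬ InC r X Y (c b) → lbl r X Y mu f (c a) ≠ neg (lbl r X Y mu f (c b)) := by
        intro a b hsub ha hb he
        obtain ⟨h1, h2, h3⟩ := idx_spec ha
        set i := idx r X Y (c a) with hi
        rw [lbl_ul w.ch h1 h2 h3, lbl_out hb] at he
        have := (mem_sdiff.1 (hmem i h1 h2)).2
        apply this
        apply hsub i
        unfold co1
        rw [if_neg hb]
        unfold cfs
        rw [if_pos (show InU X Y i (c a) from h3), mem_filter]
        exact ⟨mem_univ _, he⟩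
      have pair : ∀ a b z', ¬ Cov G R z' → G.Adj z' (c a) → G.Adj z' (c b) → c a ≠ c b →
          (∀ i, co1 r X Y f i (c a) (c b) ⊆ coF r X Y m c f i) →
          (∀ i, co1 r X Y f i (c b) (c a) ⊆ coF r X Y m c f i) → f (c a) ≠ neg (f (c b)) →
          lbl r X Y mu f (c a) ≠ neg (lbl r X Y mu f (c b)) := by
        intro a b z' hz' ha' hb' hab s1 s2 h0
        by_cases ha : InC r X Y (c a)
        · by_cases hb : InC r X Y (c b)
          · exact hok z' _ _ hz' ha' hb' hab ha hb
          · exact nc a b s1 ha hb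
        · by_cases hb : InC r X Y (c b)
          · exact H3DA.ne_neg_symm (nc b a s2 hb ha)
          · rw [lbl_out ha, lbl_out hb]
            exact h0
      have n0 := pair 0 1 (z 1) u1 a0 a1 w.cat.ne0
        (fun i => Finset.subset_union_left.trans Finset.subset_union_left)
        (fun i => Finset.subset_union_right.trans Finset.subset_union_left) f0
      have nm := pair m (m + 1) (z m) um am am1 w.cat.nem
        (fun i => Finset.subset_union_left.trans Finset.subset_union_right)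
        (fun i => Finset.subset_union_right.trans Finset.subset_union_right) fm
      by_contra hcon
      push Not at hcon
      exact hno ((cext_iff (by have := w.hm; omega)).2 ⟨n0, nm, hcon⟩)
    · intro v w' hv hw'
      obtain ⟨i, h1, h2, h3⟩ := hv
      have h4 := mem_lst.1 (mem_inter.1 (mem_sdiff.1 (hmem i h1 h2)).1).2
      rcases h3 with rfl | rfl
      · rw [lbl_x w.ch h1 h2]; exact h4.1 w' hw'
      · rw [lbl_y w.ch h1 h2]; exact h4.2 w' hw'

lemma coF_pair' {D : Ty} (w : WB G R r X Y m z c f D) {i : ℕ} (h1 : 1 ≤ i) (h2 : i ≤ r) :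
    ∃ q : Q, ∀ t ∈ coF r X Y m c f i, t = q ∨ t = neg q := by
  have key : ∀ (W : Q) (a b : ℕ), add (f (c a)) (f (c b)) = W → ∀ t ∈ co1 r X Y f i (c a) (c b),
      sg i t = neg (add (f (X i)) W) := by
    intro W a b he t ht
    unfold co1 at ht
    split_ifs at ht with h3
    · simp at ht
    · unfold cfs at ht
      split_ifs at ht with h4
      · rw [mem_filter] at ht
        have e := ht.2
        have k1 : f (c b) = add (f (c a)) W := by
          rw [← he, ← add_assoc', add_self', zero_add']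
        rcases h4 with h4 | h4
        · unfold ul at e
          rw [if_pos h4, k1, h4] at e
          exact e
        · unfold ul at e
          rw [h4, if_neg (fun e' => w.ch.xy i i h1 h2 h1 h2 e'.symm)] at e
          have e' := H3DA.neg_inj e
          rw [e', k1, h4, w.mt i h1 h2]
          have : ∀ u v : Q, add (neg u) v = neg (add u v) := by decide
          exact this _ _
      · simp at ht
  have t0 := frk_add _ _ _ w.tight.1
  have tm := frk_add _ _ _ w.tight.2.2
  have hW : wD (altT D (m + 1)) = wD D ∨ wD (altT D (m + 1)) = neg (wD D) := by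
    unfold altT
    split_ifs
    · exact Or.inl rfl
    · right
      have : ∀ D : Ty, wD (co D) = neg (wD D) := by decide
      exact this D
  refine ⟨sg i (neg (add (f (X i)) (wD D))), fun t ht => ?_⟩
  have hcm : ∀ a b : Q, add a b = add b a := by decide
  have hng : ∀ a b : Q, neg (add a (neg b)) = neg (neg (add a b)) := by decide
  have fin : ∀ W : Q, (W = wD D ∨ W = neg (wD D)) → sg i t = neg (add (f (X i)) W) →
      t = sg i (neg (add (f (X i)) (wD D))) ∨ t = neg (sg i (neg (add (f (X i)) (wD D)))) := by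
    intro W hW he
    rcases hW with rfl | rfl
    · left; rw [← he, sg_sg]
    · right
      rw [← sg_neg, ← hng, ← he, sg_sg]
  unfold coF at ht
  rw [mem_union, mem_union, mem_union] at ht
  rcases ht with (ht | ht) | (ht | ht)
  · exact fin _ (Or.inl rfl) (key _ 0 1 t0 t ht)
  · exact fin _ (Or.inl rfl) (key _ 1 0 (by rw [hcm]; exact t0) t ht)
  · exact fin _ hW (key _ m (m + 1) tm t ht)
  · exact fin _ hW (key _ (m + 1) m (by rw [hcm]; exact tm) t ht)

lemma coF_ball' {D : Ty} (w : WB G R r X Y m z c f D) {i : ℕ} (h1 : 1 ≤ i) (h2 : i ≤ r) (b : Q) :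
    (coF r X Y m c f i ∩ ball b).card ≤ min (cnf r X Y m c i) 1 := by
  obtain ⟨q, hq⟩ := coF_pair' w h1 h2
  have e1 := (Finset.card_le_card (Finset.inter_subset_left (s₁ := coF r X Y m c f i)
    (s₂ := ball b))).trans (coF_card (X := X) (Y := Y) (r := r) (m := m) (c := c) (f := f) i)
  refine le_min e1 ?_
  rw [Finset.card_le_one]
  intro s hs t ht
  rw [mem_inter, mem_ball] at hs ht
  rcases hq s hs.1 with h3 | h3 <;> rcases hq t ht.1 with h4 | h4
  · rw [h3, h4]
  · exact absurd (by rw [h3, h4, H3DA.neg_neg]) (near_two (nr_symm hs.2) ht.2)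
  · exact absurd (by rw [h3, h4]) (near_two (nr_symm hs.2) ht.2)
  · rw [h3, h4]

/-- The lists of the inner units. -/
lemma WB.card (hend : ∀ v, ¬ Lk G R (X 1) v) (Φ : V → V → Finset Q) {i : ℕ} (hi : i ≠ r) :
    8 ≤ (wls G R r X Y m c f Φ i).card + cst G R Φ (X i) + cst G R Φ (Y i) + cnf r X Y m c i := by
  have e1 := lst_card (G := G) (R := R) (x := X) (y := Y) Φ i
  have e4 : wall G R r X Y f i ∩ lst G R X Y Φ i = lst G R X Y Φ i := by
    ext t
    rw [mem_inter]
    refine ⟨fun h => h.2, fun h => ⟨?_, h⟩⟩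
    unfold wall
    rw [mem_inter, mem_filter, mem_filter]
    exact ⟨⟨mem_univ _, fun _ v hv => absurd hv (hend v)⟩, mem_univ _, fun h => absurd h hi⟩
  have e5 := Finset.le_card_sdiff (coF r X Y m c f i) (wall G R r X Y f i ∩ lst G R X Y Φ i)
  have e6 := coF_card (X := X) (Y := Y) (r := r) (m := m) (c := c) (f := f) i
  rw [e4] at e5
  unfold wls
  rw [e4]
  omega

/-- The list of the last unit. -/
lemma WB.last {D : Ty} (w : WB G R r X Y m z c f D) (hend : ∀ v, ¬ Lk G R (X 1) v)
    (hwall : ∃ v, Lk G R (Y r) v) (Φ : V → V → Finset Q) : ∃ b0 : Q,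
    wls G R r X Y m c f Φ r ⊆ ball b0 ∧
    8 ≤ (wls G R r X Y m c f Φ r).card + 4 + cst G R Φ (X r) + cst G R Φ (Y r) +
      min (cnf r X Y m c r) 1 := by
  have hrp := w.ch.pos
  obtain ⟨v0, hv0⟩ := hwall
  set b0 : Q := sg r (neg (f v0)) with hb0
  have hwb : ∀ t, t ∈ wall G R r X Y f r ↔ t ∈ ball b0 := by
    intro t
    have e : nr (neg (sg r t)) (f v0) = nr b0 t := by
      rw [← nr_neg_neg (neg (sg r t)) (f v0), H3DA.neg_neg, ← nr_sg r (sg r t) (neg (f v0)), sg_sg,
        H3DA.nr_comm]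
    unfold wall
    rw [mem_inter, mem_filter, mem_filter, mem_ball]
    constructor
    · intro h; rw [← e]; exact h.2.2 rfl v0 hv0
    · intro h
      refine ⟨⟨mem_univ _, fun _ v hv => absurd hv (hend v)⟩, mem_univ _, fun _ v hv => ?_⟩
      rw [hv.unique w.hG hv0, e]; exact h
  refine ⟨b0, fun t ht => (hwb t).1 (mem_inter.1 (mem_sdiff.1 ht).1).1, ?_⟩
  have e1 := lst_card (G := G) (R := R) (x := X) (y := Y) Φ r
  have e4 : (ball b0 ∩ lst G R X Y Φ r) \ (coF r X Y m c f r ∩ ball b0) ⊆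
      wls G R r X Y m c f Φ r := by
    intro t ht
    rw [mem_sdiff, mem_inter, mem_inter] at ht
    unfold wls
    rw [mem_sdiff, mem_inter]
    exact ⟨⟨(hwb t).2 ht.1.1, ht.1.2⟩, fun h => ht.2 ⟨h, ht.1.1⟩⟩
  have e5 := Finset.card_le_card e4
  have e6 := Finset.le_card_sdiff (coF r X Y m c f r ∩ ball b0) (ball b0 ∩ lst G R X Y Φ r)
  have e7 := coF_ball' w hrp le_rfl b0
  have e8 := card_inter_ge (ball b0) (lst G R X Y Φ r)
  have e9 := ball_card b0
  omega

end CLB.H95
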