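import Pool.Agent.Helper95_CLB.WinS

/-!
A window of an open chain gives a finite window game which is not won.
-/

set_option autoImplicit false
set_option linter.unusedSectionVars false

namespace CLB.H95

open H3DA (Q neg nr)
open Finset Classical
open CLB.H3 (CExt Cat IsTwo Fits UPath he_of_unc cat_structure chn_side KTight exists_ktight no_cext
  Leaf cext_or)

variable {V : Type*} {G : SimpleGraph V} {R : V → Bool} [Fintype V] {k r : ℕ} {x y X Y : ℕ → V}
  {m : ℕ} {z c : ℕ → V} {f : V → Q}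

/-- The data of a window (clean up to a couple). -/
structure WR (G : SimpleGraph V) (R : V → Bool) (r : ℕ) (X Y : ℕ → V) (m : ℕ) (z c : ℕ → V)
    (f : V → Q) (D : Ty) : Prop where
  hG : ClassC G R
  hc : Crit G R
  cat : Cat G R m z c
  hm : 2 ≤ m
  ch : Chn G R r X Y
  ncyc : ¬ Lk G R (Y r) (X 1)
  off : OffC G R r X Y f
  tight : Tight D (fun j => f (c j)) m
  mt : ∀ i, 1 ≤ i → i ≤ r → f (Y i) = neg (f (X i))
  hr : 2 ≤ r ∨ ¬ HasCpl G R r X Y m z
  clean : CleanR G R r X Y m z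

/-- The second ports of forks inside the window are not charged. -/
def LateAt (G : SimpleGraph V) (R : V → Bool) (r : ℕ) (X Y : ℕ → V) (o : Bool) (v w : V) : Prop :=
  ∃ b, ¬ Cov G R w ∧ G.Adj w v ∧ G.Adj w b ∧ v ≠ b ∧ InC r X Y v ∧ InC r X Y b ∧
    ltO o (idx r X Y b) (idx r X Y v)

/-- The number of charged foreign port edges. -/
noncomputable def chg (G : SimpleGraph V) (R : V → Bool) (r : ℕ) (X Y : ℕ → V) (m : ℕ) (z : ℕ → V)
    (o : Bool) (v : V) : ℕ :=
  ((prt G R v).filter (fun w => w ∉ cSupp m z ∧ ¬ LateAt G R r X Y o v w)).card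

lemma chg_le_fp (o : Bool) (v : V) : chg G R r X Y m z o v ≤ fp G R m z v := by
  unfold chg fp
  refine Finset.card_le_card fun w hw => ?_
  rw [mem_filter] at hw ⊢
  exact ⟨hw.1, hw.2.1⟩

lemma chg_late {o : Bool} {v w : V} (hw : w ∈ prt G R v) (hwK : w ∉ cSupp m z)
    (hl : LateAt G R r X Y o v w) : chg G R r X Y m z o v + 1 ≤ fp G R m z v := by
  unfold chg fp
  have h1 : (prt G R v).filter (fun w => w ∉ cSupp m z ∧ ¬ LateAt G R r X Y o v w) ⊆
      ((prt G R v).filter (fun w => w ∉ cSupp m z)).erase w := by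
    intro u hu
    rw [mem_filter] at hu
    rw [mem_erase, mem_filter]
    exact ⟨fun e => hu.2.2 (e ▸ hl), hu.1, hu.2.1⟩
  have h2 := Finset.card_le_card h1
  have h3 : w ∈ (prt G R v).filter (fun w => w ∉ cSupp m z) := by
    rw [mem_filter]; exact ⟨hw, hwK⟩
  rw [Finset.card_erase_of_mem h3] at h2
  have h4 := Finset.card_pos.2 ⟨w, h3⟩
  omega

lemma cst_le_chg {Φ : V → V → Finset Q} {o : Bool} (h2 : ∀ v w, (Φ v w).card ≤ 2)
    (h0 : ∀ v w, w ∈ cSupp m z → Φ v w = ∅)
    (h3 : ∀ v w, LateAt G R r X Y o v w → Φ v w = ∅) (v : V) :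
    cst G R Φ v ≤ 2 * chg G R r X Y m z o v := by
  unfold cst chg
  rw [← Finset.sum_filter_add_sum_filter_not (prt G R v)
    (fun w => w ∉ cSupp m z ∧ ¬ LateAt G R r X Y o v w)]
  have e1 : ∑ w ∈ (prt G R v).filter (fun w => ¬ (w ∉ cSupp m z ∧ ¬ LateAt G R r X Y o v w)),
      (Φ v w).card = 0 := by
    refine Finset.sum_eq_zero fun w hw => ?_
    rw [mem_filter, not_and_or, not_not, not_not] at hw
    rcases hw.2 with h | h
    · rw [h0 v w h]; simp
    · rw [h3 v w h]; simp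
  rw [e1, Nat.add_zero]
  calc ∑ w ∈ (prt G R v).filter (fun w => w ∉ cSupp m z ∧ ¬ LateAt G R r X Y o v w), (Φ v w).card
      ≤ ∑ _w ∈ (prt G R v).filter (fun w => w ∉ cSupp m z ∧ ¬ LateAt G R r X Y o v w), 2 :=
        Finset.sum_le_sum fun w _ => h2 v w
    _ = _ := by simp [mul_comm]

/-- The conflict labels of a leaf port `v` with mate `w` outside the window. -/
noncomputable def co1 (r : ℕ) (X Y : ℕ → V) (f : V → Q) (i : ℕ) (v w : V) : Finset Q :=
  if InC r X Y w then ∅ else cfs X Y i v (f w)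

/-- The labels in conflict at unit `i`. -/
noncomputable def coF (r : ℕ) (X Y : ℕ → V) (m : ℕ) (c : ℕ → V) (f : V → Q) (i : ℕ) : Finset Q :=
  (co1 r X Y f i (c 0) (c 1) ∪ co1 r X Y f i (c 1) (c 0)) ∪
    (co1 r X Y f i (c m) (c (m + 1)) ∪ co1 r X Y f i (c (m + 1)) (c m))

/-- The number of conflicts of a port. -/
noncomputable def cn1 (r : ℕ) (X Y : ℕ → V) (i : ℕ) (v w : V) : ℕ :=
  if InU X Y i v ∧ ¬ InC r X Y w then 1 else 0

lemma co1_card (i : ℕ) (v w : V) : (co1 r X Y f i v w).card ≤ cn1 r X Y i v w := by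
  unfold co1 cn1
  have := cfs_card (X := X) (Y := Y) i v (f w)
  by_cases h1 : InC r X Y w
  · rw [if_pos h1]; simp
  · rw [if_neg h1]
    by_cases h2 : InU X Y i v
    · rw [if_pos ⟨h2, h1⟩]
      rwa [if_pos h2] at this
    · rw [if_neg (fun h => h2 h.1)]
      rwa [if_neg h2] at this

/-- The number of conflicts at unit `i`. -/
noncomputable def cnf (r : ℕ) (X Y : ℕ → V) (m : ℕ) (c : ℕ → V) (i : ℕ) : ℕ :=
  (cn1 r X Y i (c 0) (c 1) + cn1 r X Y i (c 1) (c 0)) +
    (cn1 r X Y i (c m) (c (m + 1)) + cn1 r X Y i (c (m + 1)) (c m))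

lemma coF_card (i : ℕ) : (coF r X Y m c f i).card ≤ cnf r X Y m c i := by
  unfold coF cnf
  have e0 := co1_card (X := X) (Y := Y) (r := r) (f := f) i (c 0) (c 1)
  have e1 := co1_card (X := X) (Y := Y) (r := r) (f := f) i (c 1) (c 0)
  have e2 := co1_card (X := X) (Y := Y) (r := r) (f := f) i (c m) (c (m + 1))
  have e3 := co1_card (X := X) (Y := Y) (r := r) (f := f) i (c (m + 1)) (c m)
  have u1 := Finset.card_union_le (co1 r X Y f i (c 0) (c 1) ∪ co1 r X Y f i (c 1) (c 0))
    (co1 r X Y f i (c m) (c (m + 1)) ∪ co1 r X Y f i (c (m + 1)) (c m))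
  have u2 := Finset.card_union_le (co1 r X Y f i (c 0) (c 1)) (co1 r X Y f i (c 1) (c 0))
  have u3 := Finset.card_union_le (co1 r X Y f i (c m) (c (m + 1)))
    (co1 r X Y f i (c (m + 1)) (c m))
  omega

/-- The lists of the window. -/
noncomputable def wls (G : SimpleGraph V) (R : V → Bool) (r : ℕ) (X Y : ℕ → V) (m : ℕ) (c : ℕ → V)
    (f : V → Q) (Φ : V → V → Finset Q) (i : ℕ) : Finset Q :=
  (wall G R r X Y f i ∩ lst G R X Y Φ i) \ coF r X Y m c f i

/-- There is a vertex seeing different letters of two units. -/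
def RelAt (G : SimpleGraph V) (R : V → Bool) (X Y : ℕ → V) (i j : ℕ) : Prop :=
  ∃ w, ¬ Cov G R w ∧ ((G.Adj w (X i) ∧ G.Adj w (Y j)) ∨ (G.Adj w (Y i) ∧ G.Adj w (X j)))

lemma sg_neg (i : ℕ) (t : Q) : sg i (neg t) = neg (sg i t) := by
  unfold sg; split_ifs <;> rfl

lemma near_two {a b d : Q} (h1 : nr a b = true) (h2 : nr b d = true) : a ≠ neg d :=
  H3DA.nr_common (nr_symm h1) h2

/-- Two neighbours of an uncovered vertex in the window are not antipodal. -/
lemma rel_ok (hG : ClassC G R) (h : Chn G R r X Y) (hr4 : r ≤ 4) {mu : ℕ → Q} (hmu : Nwk r mu)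
    (hrel : ∀ i, 1 ≤ i → i + 2 ≤ r → RelAt G R X Y i (i + 2) → mu i ≠ mu (i + 2)) {w a b : V}
    (hw : ¬ Cov G R w) (ha : G.Adj w a) (hb : G.Adj w b) (hab : a ≠ b) (hia : InC r X Y a)
    (hib : InC r X Y b) : lbl r X Y mu f a ≠ neg (lbl r X Y mu f b) := by
  have hRab : R a = R b := by
    have e1 := (he_of_unc hw ha).2
    have e2 := (he_of_unc hw hb).2
    revert e1 e2
    cases R w <;> cases R a <;> cases R b <;> simp
  have key : ∀ a b, R a = R b → a ≠ b → G.Adj w a → G.Adj w b → InC r X Y a → InC r X Y b →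
      idx r X Y a < idx r X Y b → lbl r X Y mu f a ≠ neg (lbl r X Y mu f b) := by
    intro a b hR hab ha hb hia hib hlt
    have hpar := idx_parity h hia hib hR
    obtain ⟨a1, a2, a3⟩ := idx_spec hia
    obtain ⟨b1, b2, b3⟩ := idx_spec hib
    set i := idx r X Y a with hi
    set j := idx r X Y b with hj
    have hij : j = i + 2 := by omega
    rw [hij] at b1 b2 b3
    rw [lbl_ul h a1 a2 a3, lbl_ul h b1 b2 b3]
    have hsg : ∀ t : Q, sg (i + 2) t = sg i t := by
      intro t
      rw [sg_succ, sg_succ, H3DA.neg_neg]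
    have hn1 := hmu i a1 (by omega)
    have hn2 := hmu (i + 1) (by omega) (by omega)
    have hn := near_two hn1 hn2
    have hnl : mu (i + 1 + 1) = mu (i + 2) := rfl
    rw [hnl] at hn
    have hy1 : ∀ l, 1 ≤ l → l ≤ r → ¬ Y l = X l := fun l l1 l2 e => h.xy l l l1 l2 l1 l2 e.symm
    rcases a3 with a3 | a3 <;> rcases b3 with b3 | b3
    · unfold ul
      rw [if_pos a3, if_pos b3, hsg]
      intro he
      apply hn
      have : sg i (mu i) = sg i (neg (mu (i + 2))) := by rw [he, sg_neg]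
      rw [← sg_sg i (mu i), this, sg_sg]
    · unfold ul
      rw [if_pos a3, b3, if_neg (hy1 _ b1 b2), hsg, H3DA.neg_neg]
      intro he
      refine hrel i a1 b2 ⟨w, hw, Or.inl ⟨a3 ▸ ha, b3 ▸ hb⟩⟩ ?_
      rw [← sg_sg i (mu i), he, sg_sg]
    · unfold ul
      rw [a3, if_neg (hy1 _ a1 a2), if_pos b3, hsg]
      intro he
      refine hrel i a1 b2 ⟨w, hw, Or.inr ⟨a3 ▸ ha, b3 ▸ hb⟩⟩ ?_
      rw [← sg_sg i (mu i), H3DA.neg_inj he, sg_sg]
    · unfold ul
      rw [a3, if_neg (hy1 _ a1 a2), b3, if_neg (hy1 _ b1 b2), hsg, H3DA.neg_neg]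
      intro he
      apply hn
      have : sg i (mu i) = sg i (neg (mu (i + 2))) := by
        rw [sg_neg, ← he, H3DA.neg_neg]
      rw [← sg_sg i (mu i), this, sg_sg]
  rcases Nat.lt_trichotomy (idx r X Y a) (idx r X Y b) with h1 | h1 | h1
  · exact key a b hRab hab ha hb hia hib h1
  · exact absurd h1 (idx_ne hG h hia hib hab ha hb)
  · exact H3DA.ne_neg_symm (key b a hRab.symm (Ne.symm hab) hb ha hib hia h1)

/-- The conflict labels of a unit are equal or antipodal. -/
lemma coF_pair {D : Ty} (w : WR G R r X Y m z c f D) {i : ℕ} (h1 : 1 ≤ i) (h2 : i ≤ r) :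
    ∃ q : Q, ∀ t ∈ coF r X Y m c f i, t = q ∨ t = neg q := by
  have key : ∀ (W : Q) (a b : ℕ), add (f (c a)) (f (c b)) = W → ∀ t ∈ co1 r X Y f i (c a) (c b),
      sg i t = neg (add (f (X i)) W) := by
    intro W a b he t ht
    unfold co1 at ht
    split_ifs at ht with h3
    · simp at ht
    · unfold cfs at ht
      split_ifs at ht with h4
      · rw [mem_filter] at ht
        have e := ht.2
        have k1 : f (c b) = add (f (c a)) W := by
          rw [← he, ← add_assoc', add_self', zero_add']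
        rcases h4 with h4 | h4
        · unfold ul at e
          rw [if_pos h4, k1, h4] at e
          exact e
        · unfold ul at e
          rw [h4, if_neg (fun e' => w.ch.xy i i h1 h2 h1 h2 e'.symm)] at e
          have e' := H3DA.neg_inj e
          rw [e', k1, h4, w.mt i h1 h2]
          have : ∀ u v : Q, add (neg u) v = neg (add u v) := by decide
          exact this _ _
      · simp at ht
  have t0 := frk_add _ _ _ w.tight.1
  have tm := frk_add _ _ _ w.tight.2.2
  have hW : wD (altT D (m + 1)) = wD D ∨ wD (altT D (m + 1)) = neg (wD D) := by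
    unfold altT
    split_ifs
    · exact Or.inl rfl
    · right
      have : ∀ D : Ty, wD (co D) = neg (wD D) := by decide
      exact this D
  refine ⟨sg i (neg (add (f (X i)) (wD D))), fun t ht => ?_⟩
  have hcm : ∀ a b : Q, add a b = add b a := by decide
  have hng : ∀ a b : Q, neg (add a (neg b)) = neg (neg (add a b)) := by decide
  have fin : ∀ W : Q, (W = wD D ∨ W = neg (wD D)) → sg i t = neg (add (f (X i)) W) →
      t = sg i (neg (add (f (X i)) (wD D))) ∨ t = neg (sg i (neg (add (f (X i)) (wD D)))) := by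
    intro W hW he
    rcases hW with rfl | rfl
    · left; rw [← he, sg_sg]
    · right
      rw [← sg_neg, ← hng, ← he, sg_sg]
  unfold coF at ht
  rw [mem_union, mem_union, mem_union] at ht
  rcases ht with (ht | ht) | (ht | ht)
  · exact fin _ (Or.inl rfl) (key _ 0 1 t0 t ht)
  · exact fin _ (Or.inl rfl) (key _ 1 0 (by rw [hcm]; exact t0) t ht)
  · exact fin _ hW (key _ m (m + 1) tm t ht)
  · exact fin _ hW (key _ (m + 1) m (by rw [hcm]; exact tm) t ht)

/-- The conflict labels near a wall. -/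
lemma coF_ball {D : Ty} (w : WR G R r X Y m z c f D) {i : ℕ} (h1 : 1 ≤ i) (h2 : i ≤ r) (b : Q) :
    (coF r X Y m c f i ∩ ball b).card ≤ min (cnf r X Y m c i) 1 := by
  obtain ⟨q, hq⟩ := coF_pair w h1 h2
  have e1 := (Finset.card_le_card (Finset.inter_subset_left (s₁ := coF r X Y m c f i)
    (s₂ := ball b))).trans (coF_card (X := X) (Y := Y) (r := r) (m := m) (c := c) (f := f) i)
  refine le_min e1 ?_
  rw [Finset.card_le_one]
  intro s hs t ht
  rw [mem_inter, mem_ball] at hs ht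
  rcases hq s hs.1 with h3 | h3 <;> rcases hq t ht.1 with h4 | h4
  · rw [h3, h4]
  · exact absurd (by rw [h3, h4, H3DA.neg_neg]) (near_two (nr_symm hs.2) ht.2)
  · exact absurd (by rw [h3, h4]) (near_two (nr_symm hs.2) ht.2)
  · rw [h3, h4]

/-- **The window game.** -/
theorem WR.code {D : Ty} (w : WR G R r X Y m z c f D) (hr4 : r ≤ 4) (o : Bool) {C : Code}
    (hC : C.r = r) (hend : ∀ v, ¬ Lk G R (X 1) v) (hwall : ∃ v, Lk G R (Y r) v)
    (hs : ∀ i, 1 ≤ i → i < r → (C.u i).s + 2 * (chg G R r X Y m z o (X i) +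
      chg G R r X Y m z o (Y i)) + cnf r X Y m c i ≤ 8)
    (hs' : (C.u r).s + 2 * (chg G R r X Y m z o (X r) + chg G R r X Y m z o (Y r)) +
      min (cnf r X Y m c r) 1 ≤ 8)
    (htg : ∀ i, 1 ≤ i → i ≤ r → (C.u i).tg = true → (∃ j ≤ m + 1, InU X Y i (c j)) ∧
      ¬ ((InU X Y i (c 0) ∨ InU X Y i (c 1)) ∧ (InU X Y i (c m) ∨ InU X Y i (c (m + 1)))))
    (hph : (∀ i, 1 ≤ i → i ≤ r → (C.u i).ph = lfp X Y m c i) ∨
      ∀ i, 1 ≤ i → i ≤ r → (C.u i).ph = false)
    (hps : ∃ S : Finset Q, S.card ≤ 2 ∧ ∀ mu D', Tight D' (fun j => lbl r X Y mu f (c j)) m →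
      sumU (fun i => (C.u i).ps) mu r ∈ S)
    (hrel : ∀ i, 1 ≤ i → i + 2 ≤ r → RelAt G R X Y i (i + 2) → (C.u i).rel = true)
    (hcp : HasCpl G R r X Y m z → C.cp = true) (hW : C.Win) : False := by
  obtain ⟨Φ, P, p2, p0, pl, pK⟩ := win_rel w.hG w.hc w.cat w.ch w.ncyc w.off w.hr w.clean o
  have hrp := w.ch.pos
  have hcst : ∀ v, cst G R Φ v ≤ 2 * chg G R r X Y m z o v := by
    intro v
    refine cst_le_chg p2 p0 (fun v w' h => ?_) v
    obtain ⟨b, b1, b2, b3, b4, b5, b6, b7⟩ := h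
    exact pl v w' b b1 b2 b3 b4 b5 b6 b7
  obtain ⟨v0, hv0⟩ := hwall
  set b0 : Q := sg r (neg (f v0)) with hb0
  have hwb : ∀ t, t ∈ wall G R r X Y f r ↔ t ∈ ball b0 := by
    intro t
    have e : nr (neg (sg r t)) (f v0) = nr b0 t := by
      rw [← nr_neg_neg (neg (sg r t)) (f v0), H3DA.neg_neg, ← nr_sg r (sg r t) (neg (f v0)), sg_sg,
        H3DA.nr_comm]
    unfold wall
    rw [mem_inter, mem_filter, mem_filter, mem_ball]
    constructor
    · intro h; rw [← e]; exact h.2.2 rfl v0 hv0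
    · intro h
      refine ⟨⟨mem_univ _, fun _ v hv => absurd hv (hend v)⟩, mem_univ _, fun _ v hv => ?_⟩
      rw [hv.unique w.hG hv0, e]; exact h
  have hwu : ∀ i, i ≠ r → ∀ t, t ∈ wall G R r X Y f i := by
    intro i hi t
    unfold wall
    rw [mem_inter, mem_filter, mem_filter]
    exact ⟨⟨mem_univ _, fun _ v hv => absurd hv (hend v)⟩, mem_univ _, fun h => absurd h hi⟩
  -- the tight labels
  have hT : ∀ mu, VW C (wls G R r X Y m c f Φ) P mu →
      ∃ D', Tight D' (fun j => lbl r X Y mu f (c j)) m := by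
    intro mu hmu
    have hnw : Nwk r mu := hC ▸ hmu.nwk
    have hmem : ∀ i, 1 ≤ i → i ≤ r → mu i ∈ wls G R r X Y m c f Φ i := fun i h1 h2 =>
      hmu.mem i h1 (by rw [hC]; exact h2)
    have hrl : ∀ i, 1 ≤ i → i + 2 ≤ r → RelAt G R X Y i (i + 2) → mu i ≠ mu (i + 2) :=
      fun i h1 h2 h3 => hmu.rel i h1 (by rw [hC]; exact h2) (hrel i h1 h2 h3)
    have hok : ∀ w' a b, ¬ Cov G R w' → G.Adj w' a → G.Adj w' b → a ≠ b → InC r X Y a →
        InC r X Y b → lbl r X Y mu f a ≠ neg (lbl r X Y mu f b) := fun w' a b h1 h2 h3 h4 h5 h6 =>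
      rel_ok w.hG w.ch hr4 hnw hrl h1 h2 h3 h4 h5 h6
    have hno := pK mu hnw (fun i h1 h2 => (mem_inter.1 (mem_sdiff.1 (hmem i h1 h2)).1).1) ?_ hok ?_
    · have a0 : G.Adj (z 1) (c 0) := w.cat.adj0
      have a1 : G.Adj (z 1) (c 1) := w.cat.adjc 1 le_rfl (by have := w.hm; omega)
      have am : G.Adj (z m) (c m) := w.cat.adjc m (by have := w.hm; omega) le_rfl
      have am1 : G.Adj (z m) (c (m + 1)) := w.cat.adjm
      have u1 := w.cat.unc 1 le_rfl (by have := w.hm; omega)
      have um := w.cat.unc m (by have := w.hm; omega) le_rfl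
      have f0 := (frk_ne _ _ _ w.tight.1).2
      have fm := (frk_ne _ _ _ w.tight.2.2).2
      have nc : ∀ a b, (∀ i, co1 r X Y f i (c a) (c b) ⊆ coF r X Y m c f i) → InC r X Y (c a) →
          ¬ InC r X Y (c b) → lbl r X Y mu f (c a) ≠ neg (lbl r X Y mu f (c b)) := by
        intro a b hsub ha hb he
        obtain ⟨h1, h2, h3⟩ := idx_spec ha
        set i := idx r X Y (c a) with hi
        rw [lbl_ul w.ch h1 h2 h3, lbl_out hb] at he
        have := (mem_sdiff.1 (hmem i h1 h2)).2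
        apply this
        apply hsub i
        unfold co1
        rw [if_neg hb]
        unfold cfs
        rw [if_pos (show InU X Y i (c a) from h3), mem_filter]
        exact ⟨mem_univ _, he⟩
      have pair : ∀ a b z', ¬ Cov G R z' → G.Adj z' (c a) → G.Adj z' (c b) → c a ≠ c b →
          (∀ i, co1 r X Y f i (c a) (c b) ⊆ coF r X Y m c f i) →
          (∀ i, co1 r X Y f i (c b) (c a) ⊆ coF r X Y m c f i) → f (c a) ≠ neg (f (c b)) →
          lbl r X Y mu f (c a) ≠ neg (lbl r X Y mu f (c b)) := by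
        intro a b z' hz' ha' hb' hab s1 s2 h0
        by_cases ha : InC r X Y (c a)
        · by_cases hb : InC r X Y (c b)
          · exact hok z' _ _ hz' ha' hb' hab ha hb
          · exact nc a b s1 ha hb
        · by_cases hb : InC r X Y (c b)
          · exact H3DA.ne_neg_symm (nc b a s2 hb ha)
          · rw [lbl_out ha, lbl_out hb]
            exact h0
      have n0 := pair 0 1 (z 1) u1 a0 a1 w.cat.ne0
        (fun i => Finset.subset_union_left.trans Finset.subset_union_left)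
        (fun i => Finset.subset_union_right.trans Finset.subset_union_left) f0
      have nm := pair m (m + 1) (z m) um am am1 w.cat.nem
        (fun i => Finset.subset_union_left.trans Finset.subset_union_right)
        (fun i => Finset.subset_union_right.trans Finset.subset_union_right) fm
      by_contra hcon
      push Not at hcon
      exact hno ((cext_iff (by have := w.hm; omega)).2 ⟨n0, nm, hcon⟩)
    · intro v w' hv hw'
      obtain ⟨i, h1, h2, h3⟩ := hv
      have h4 := mem_lst.1 (mem_inter.1 (mem_sdiff.1 (hmem i h1 h2)).1).2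
      rcases h3 with rfl | rfl
      · rw [lbl_x w.ch h1 h2]; exact h4.1 w' hw'
      · rw [lbl_y w.ch h1 h2]; exact h4.2 w' hw'
    · intro hH
      have h2 : 2 ≤ r := by
        rcases w.hr with h' | h'
        · exact h'
        · exact absurd hH h'
      exact hmu.cpl (hcp hH) (by rw [hC]; exact h2)
  refine hW (wls G R r X Y m c f Φ) b0 P ?_ ?_ ?_ ?_ ?_ ?_
  · intro i h1 h2
    rw [hC] at h2
    have e1 := lst_card (G := G) (R := R) (x := X) (y := Y) Φ i
    have e2 := hcst (X i)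
    have e3 := hcst (Y i)
    have e4 : wall G R r X Y f i ∩ lst G R X Y Φ i = lst G R X Y Φ i := by
      ext t
      rw [mem_inter]
      exact ⟨fun h => h.2, fun h => ⟨hwu i (by omega) t, h⟩⟩
    have e5 := Finset.le_card_sdiff (coF r X Y m c f i) (wall G R r X Y f i ∩ lst G R X Y Φ i)
    have e6 := coF_card (X := X) (Y := Y) (r := r) (m := m) (c := c) (f := f) i
    have e7 := hs i h1 h2
    rw [e4] at e5
    unfold wls
    rw [e4]
    omega
  · rw [hC]
    intro t ht
    exact (hwb t).1 (mem_inter.1 (mem_sdiff.1 ht).1).1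
  · rw [hC]
    have e1 := lst_card (G := G) (R := R) (x := X) (y := Y) Φ r
    have e2 := hcst (X r)
    have e3 := hcst (Y r)
    have e4 : (ball b0 ∩ lst G R X Y Φ r) \ (coF r X Y m c f r ∩ ball b0) ⊆
        wls G R r X Y m c f Φ r := by
      intro t ht
      rw [mem_sdiff, mem_inter, mem_inter] at ht
      unfold wls
      rw [mem_sdiff, mem_inter]
      exact ⟨⟨(hwb t).2 ht.1.1, ht.1.2⟩, fun h => ht.2 ⟨h, ht.1.1⟩⟩
    have e5 := Finset.card_le_card e4
    have e6 := Finset.le_card_sdiff (coF r X Y m c f r ∩ ball b0) (ball b0 ∩ lst G R X Y Φ r)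
    have e7 := coF_ball w hrp le_rfl b0
    have e8 := card_inter_ge (ball b0) (lst G R X Y Φ r)
    have e9 := ball_card b0
    omega
  · intro mu mu' v h1 h2 h3 h4 h5 h6
    rw [hC] at h4 h6
    obtain ⟨D1, hD1⟩ := hT mu h1
    obtain ⟨D2, hD2⟩ := hT mu' h2
    obtain ⟨g1, g2⟩ := htg v h3 h4 h5
    exact win_one w.hG w.cat w.hm w.ch h3 h4 h6 g1 g2 hD1 hD2
  · intro mu mu' h1 h2
    rw [hC]
    obtain ⟨D1, hD1⟩ := hT mu h1
    obtain ⟨D2, hD2⟩ := hT mu' h2
    rcases hph with hp | hp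
    · have e : ∀ mu : ℕ → Q, sumU (fun i => (C.u i).ph) mu r = sumU (lfp X Y m c) mu r := fun mu =>
        sumU_congr fun i i1 i2 => ⟨hp i i1 i2, rfl⟩
      rw [e, e]
      exact win_phi w.ch hD1 hD2
    · have e : ∀ mu : ℕ → Q, sumU (fun i => (C.u i).ph) mu r = (false, false, false) := fun mu => by
        rw [← sumU_false (d := mu) (n := r)]
        exact sumU_congr fun i i1 i2 => ⟨hp i i1 i2, rfl⟩
      rw [e, e]
  · obtain ⟨S, s1, s2⟩ := hps
    refine ⟨S, s1, fun mu hmu => ?_⟩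
    rw [hC]
    obtain ⟨D1, hD1⟩ := hT mu hmu
    exact s2 mu D1 hD1

end CLB.H95
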