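import Pool.Agent.Helper95_CLB.StaL
import Pool.Agent.Helper86_DA.GmX2

/-!
The ternary window: the first three units and a component `{X 1, X 3 | X 2, o}`.
-/

set_option autoImplicit false
set_option linter.unusedSectionVars false

namespace CLB.H95

open H3DA (Q neg nr)
open Finset Classical
open CLB.H3 (CExt Cat IsTwo Fits UPath he_of_unc cat_structure chn_side KTight exists_ktight no_cext
  Leaf cext_or pc pc_pos pc_le pc_lk pc_cov pc_two pc_one)
open CLB.H86.Gm (TVW TWin)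

variable {V : Type*} {G : SimpleGraph V} {R : V → Bool} [Fintype V] {k r : ℕ} {x y X Y : ℕ → V}
  {m : ℕ} {z c : ℕ → V} {f : V → Q} {N n : ℕ}

/-- Forbidden sets on the support only. -/
lemma RKill.toX {o : Bool} {S : Set V} {P : Q × Q} {φ : V → V → Finset Q}
    (h : RKill G R r X Y f o S False P φ) {bd : V → V → ℕ} (E : (V → Q) → Prop)
    (hbd : ∀ w ∈ S, ∀ v, 2 ≤ bd v w) : ∃ φ', XKill G R r X Y f o bd E S φ' := by
  refine ⟨fun v w => if w ∈ S then φ v w else ∅, ⟨fun v w => ?_, fun w hw v b h1 h2 h3 h4 h5 h6 => ?_,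
    fun f' h1 h2 h3 _ => h.ok f' h1 (fun w hw v hv hin => ?_) h3 (fun h => h.elim)⟩⟩
  · split_ifs with hw
    · exact (h.two v w).trans (hbd w hw v)
    · simp
  · rw [if_pos hw]
    exact h.late w hw v b h1 h2 h3 h4 h5 h6
  · have := h2 w hw v hv hin
    simp only [if_pos hw] at this
    exact this

lemma wD_ne : ∀ D : Ty, wD D ≠ (false, false, false) := by decide
lemma altT_three (D : Ty) : altT D 3 = D := by unfold altT; rw [if_pos (by norm_num)]

/-- The extension to a component with two vertices. -/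
lemma cext_two {s : ℕ → Q} (h0 : s 0 ≠ neg (s 1)) (h2 : s 2 ≠ neg (s 3))
    (hD : ∀ D : Ty, add (s 0) (s 1) = wD D → add (s 2) (s 3) = wD D → stp D (neg (s 1)) (s 2) = true →
      False) : CExt 2 s := by
  rw [cext_iff (by norm_num)]
  refine ⟨h0, h2, fun D hT => ?_⟩
  have t1 := frk_add _ _ _ hT.1
  have t3 := frk_add _ _ _ hT.2.2
  have t2 := hT.2.1 1 le_rfl (by norm_num)
  rw [altT_one] at t2
  rw [altT_three] at t3
  exact hD D t1 t3 t2

/-- **The ternary component.** -/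
theorem xkill_trn {m' : ℕ} {z' c' : ℕ → V} (h : Chn G R r X Y) (hC : Cat G R m' z' c')
    (hr : 3 ≤ r) (hT : Trn r X Y m' c') (o : Bool) {bd : V → V → ℕ} : ∃ p : Q,
    XKill G R r X Y f o bd (fun f' => f' (X 2) ≠ neg p ∧
      (f' (X 1) = f' (X 3) ∨ add (add (f' (X 1)) (f' (X 2))) (f' (X 3)) ≠ p)) (cSupp m' z')
      (fun _ _ => ∅) := by
  obtain ⟨rfl, a, a', b, b', g1, g2, g3, g4, g5, g6, g7, g8, g9, g10, g11, g12, g13⟩ := hT
  refine ⟨f (c' b'), ⟨by simp, fun _ _ _ _ _ _ _ _ _ _ => rfl, fun f' e1 _ e3 ⟨e4, e5⟩ => ?_⟩⟩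
  have hp : f' (c' b') = f (c' b') := e1 _ (hC.cov b' (by omega)) g13
  have hcase : (((a = 0 ∧ a' = 1) ∨ (a = 1 ∧ a' = 0)) ∧ ((b = 2 ∧ b' = 3) ∨ (b = 3 ∧ b' = 2))) ∨
      (((b = 0 ∧ b' = 1) ∨ (b = 1 ∧ b' = 0)) ∧ ((a = 2 ∧ a' = 3) ∨ (a = 3 ∧ a' = 2))) := by
    unfold cl at g7 g8 g9
    split_ifs at g7 g8 g9 <;> omega
  have hca := cl_mem hC.pos (show a ≤ 2 + 1 by omega)
  have n13 : f' (X 1) ≠ neg (f' (X 3)) := by
    have := e3 (z' (cl 2 a)) (mem_cSupp hca.1 hca.2) (c' a) (c' a') (cat_adj_cl hC (by omega)).symm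
      (by rw [g7]; exact (cat_adj_cl hC (by omega)).symm) (by
        rw [g10, g11]
        intro e
        have := h.injx 1 3 le_rfl (by omega) (by omega) (by omega) e
        omega)
      (by rw [g10]; exact InC.x le_rfl (by omega)) (by rw [g11]; exact InC.x (by omega) (by omega))
    rwa [g10, g11] at this
  have key : ∀ D : Ty, add (f' (X 1)) (f' (X 3)) = wD D → add (f' (X 2)) (f (c' b')) = wD D → False := by
    intro D h1 h2
    rcases e5 with e5 | e5
    · rw [e5, add_self'] at h1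
      exact wD_ne D h1.symm
    · apply e5
      have : ∀ u v w p : Q, add v p = add u w → add (add u v) w = p := by decide +kernel
      exact this _ _ _ _ (h2.trans h1.symm)
  have hcm : ∀ a b : Q, add a b = add b a := by decide
  rw [← cext_iff_fits hC]
  rcases hcase with ⟨h1, h2⟩ | ⟨h1, h2⟩
  · refine cext_two ?_ ?_ (fun D d1 d2 _ => ?_)
    · show f' (c' 0) ≠ neg (f' (c' 1))
      rcases h1 with ⟨rfl, rfl⟩ | ⟨rfl, rfl⟩
      · rw [g10, g11]; exact n13
      · rw [g10, g11]; exact H3DA.ne_neg_symm n13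
    · show f' (c' 2) ≠ neg (f' (c' 3))
      rcases h2 with ⟨rfl, rfl⟩ | ⟨rfl, rfl⟩
      · rw [g12, hp]; exact e4
      · rw [g12, hp]; exact H3DA.ne_neg_symm e4
    · have d1' : add (f' (c' 0)) (f' (c' 1)) = wD D := d1
      have d2' : add (f' (c' 2)) (f' (c' 3)) = wD D := d2
      refine key D ?_ ?_
      · rcases h1 with ⟨rfl, rfl⟩ | ⟨rfl, rfl⟩
        · rwa [g10, g11] at d1'
        · rw [g10, g11, hcm] at d1'; exact d1'
      · rcases h2 with ⟨rfl, rfl⟩ | ⟨rfl, rfl⟩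
        · rwa [g12, hp] at d2'
        · rw [g12, hp, hcm] at d2'; exact d2'
  · refine cext_two ?_ ?_ (fun D d1 d2 _ => ?_)
    · show f' (c' 0) ≠ neg (f' (c' 1))
      rcases h1 with ⟨rfl, rfl⟩ | ⟨rfl, rfl⟩
      · rw [g12, hp]; exact e4
      · rw [g12, hp]; exact H3DA.ne_neg_symm e4
    · show f' (c' 2) ≠ neg (f' (c' 3))
      rcases h2 with ⟨rfl, rfl⟩ | ⟨rfl, rfl⟩
      · rw [g10, g11]; exact n13
      · rw [g10, g11]; exact H3DA.ne_neg_symm n13
    · have d1' : add (f' (c' 0)) (f' (c' 1)) = wD D := d1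
      have d2' : add (f' (c' 2)) (f' (c' 3)) = wD D := d2
      refine key D ?_ ?_
      · rcases h2 with ⟨rfl, rfl⟩ | ⟨rfl, rfl⟩
        · rwa [g10, g11] at d2'
        · rw [g10, g11, hcm] at d2'; exact d2'
      · rcases h1 with ⟨rfl, rfl⟩ | ⟨rfl, rfl⟩
        · rwa [g12, hp] at d1'
        · rw [g12, hp, hcm] at d1'; exact d1'

/-- Zero on a support, two elsewhere. -/
noncomputable def bdz (S : Set V) (_v w : V) : ℕ := if w ∈ S then 0 else 2

lemma bdz_le {S : Set V} (o : Bool) (v : V) :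
    chb G R r X Y m z o (bdz S) v ≤ 2 * chg G R r X Y m z o v := by
  rw [← chb_two]
  unfold chb
  refine Finset.sum_le_sum fun w _ => ?_
  show bdz S v w ≤ 2
  unfold bdz
  split_ifs <;> omega

/-- A free edge at `v`. -/
lemma bdz_sub {S : Set V} (o : Bool) {v w : V} (hw : w ∈ prt G R v) (hwK : w ∉ cSupp m z) (hS : w ∈ S) :
    chb G R r X Y m z o (bdz S) v + 2 ≤ 2 * fp G R m z v := by
  have h1 : chb G R r X Y m z o (bdz S) v ≤
      ∑ u ∈ (prt G R v).filter (fun w => w ∉ cSupp m z), bdz S v u := by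
    unfold chb
    refine Finset.sum_le_sum_of_subset fun u hu => ?_
    rw [mem_filter] at hu ⊢
    exact ⟨hu.1, hu.2.1⟩
  have h2 : w ∈ (prt G R v).filter (fun w => w ∉ cSupp m z) := mem_filter.2 ⟨hw, hwK⟩
  have h3 := Finset.add_sum_erase _ (fun u => bdz S v u) h2
  have h4 : bdz S v w = 0 := by unfold bdz; rw [if_pos hS]
  have h5 : ∑ u ∈ ((prt G R v).filter (fun w => w ∉ cSupp m z)).erase w, bdz S v u ≤
      ∑ _u ∈ ((prt G R v).filter (fun w => w ∉ cSupp m z)).erase w, 2 :=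
    Finset.sum_le_sum fun u _ => by unfold bdz; split_ifs <;> omega
  rw [Finset.sum_const, smul_eq_mul, Finset.card_erase_of_mem h2] at h5
  have h6 := Finset.card_pos.2 ⟨w, h2⟩
  unfold fp
  omega

/-- The forbidden sets when the exceptional component is treated exactly. -/
theorem xkill_all (hG : ClassC G R) (h : Chn G R r X Y) (hr : 2 ≤ r) (hf : OffC G R r X Y f)
    {m0 : ℕ} {z0 c0 : ℕ → V} (h0 : Cat G R m0 z0 c0) (hx2 : ∃ j ≤ m0 + 1, c0 j = X 2)
    (hE : EndClean G R r X Y m z) (o : Bool)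
    {E : (V → Q) → Prop} (hK : ∃ φ, XKill G R r X Y f o (bdz (cSupp m0 z0)) E (cSupp m0 z0) φ) :
    ∀ m' z' c', Cat G R m' z' c' → cSupp m' z' ≠ cSupp m z → (∃ j ≤ m' + 1, InC r X Y (c' j)) →
      ∃ φ, XKill G R r X Y f o (bdz (cSupp m0 z0)) E (cSupp m' z') φ := by
  intro m' z' c' hC hne hex
  by_cases hS : cSupp m' z' = cSupp m0 z0
  · rw [hS]; exact hK
  · have hb : ∀ w ∈ cSupp m' z', ∀ v, 2 ≤ bdz (cSupp m0 z0) v w := by
      intro w hw v
      unfold bdz
      rw [if_neg]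
      intro hw'
      exact hS (cSupp_eq hC h0 hw hw')
    obtain ⟨j0, j1, j2⟩ := hx2
    have hx : ∀ {j : ℕ}, j ≤ m' + 1 → c' j = X 2 → False := fun hj e =>
      hS (supp_x2 hG h hr hC h0 hj j1 e j2)
    obtain ⟨o1, o2⟩ := hE m' z' c' hC hne hex
    by_cases hm1 : m' = 1
    · subst hm1
      obtain ⟨φ', hφ'⟩ := rkill_star h hf hC hex (o1 rfl) o False
        ((false, false, false), (false, false, false))
      exact hφ'.toX E hb
    · have hm2 : 2 ≤ m' := by have := hC.pos; omega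
      rcases o2 hm2 with h5 | ⟨_, h5⟩ | ⟨_, h5⟩ | ⟨_, h5⟩
      · obtain ⟨φ', hφ'⟩ := rkill_of_not_nc hG h hf hC hm2 hex h5 o False
          ((false, false, false), (false, false, false))
        exact hφ'.toX E hb
      · obtain ⟨j, hj, e⟩ := h5.x2
        exact absurd e (fun e => hx hj e)
      · obtain ⟨j, hj, e⟩ := h5.x2
        exact absurd e (fun e => hx hj e)
      · obtain ⟨j, hj, e⟩ := h5.x2
        exact absurd e (fun e => hx hj e)

end CLB.H95
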